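import Pool.Agent.Lib.MP_2d4659_gt.FP.B1

/-!
# Frames, shears, transfers: definitions of the reduction process

`L` is a `k`-vector space with an action `ρ` of `G`, and `f : L → (G →₀ E)` is a `k`-linear map
compatible with the action (`EquivF`).  A frame is a decomposition of `L` as a direct sum of finite
dimensional subspaces `V x`, `x` a vertex of the tree, permuted by `G`.
-/

set_option autoImplicit false

namespace FP

open scoped Pointwise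

variable {k G X T E L : Type} [Field k] [Group G] [MulAction G X] [AddCommGroup E] [Module k E]
  [AddCommGroup L] [Module k L]

/-- `f` is compatible with the action of `G` -/
def EquivF (ρ : G →* (L →ₗ[k] L)) (f : L →ₗ[k] (G →₀ E)) : Prop :=
  ∀ (g : G) (u : L) (h : G), f (ρ g u) (g * h) = f u h

/-- A frame: `L` is the direct sum of the finite dimensional subspaces `V x`, permuted by `G`.
`P` is the decomposition map. -/
structure IsFrame (ρ : G →* (L →ₗ[k] L)) (V : X → Submodule k L) : Prop where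
  map : ∀ (g : G) (x : X), (V x).map (ρ g) = V (g • x)
  fin : ∀ x, FiniteDimensional k (V x)
  dec : ∃ P : L →ₗ[k] (X →₀ L), (∀ u x, P u x ∈ V x) ∧ (∀ u, ((P u).sum fun _ a => a) = u) ∧
    ∀ x, ∀ u ∈ V x, P u = Finsupp.single x u

/-- `S` is the map `u ↦ u - ∑ h, lam (h⁻¹ u) • h w` -/
def IsShear (ρ : G →* (L →ₗ[k] L)) (lam : L →ₗ[k] k) (w : L) (S : L →ₗ[k] L) : Prop :=
  ∀ u, S u = u - ∑ᶠ h : G, lam (ρ h⁻¹ u) • ρ h w

/-- `lam` vanishes on all pieces of the frame except the one at `x` -/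
def SuppAt (V : X → Submodule k L) (lam : L →ₗ[k] k) (x : X) : Prop :=
  ∀ y, y ≠ x → ∀ u ∈ V y, lam u = 0

/-- the new frame of a transfer of `v ∈ V x` to the vertex `x₁` -/
def transferV (ρ : G →* (L →ₗ[k] L)) (V : X → Submodule k L) (lam : L →ₗ[k] k) (v : L) (x₁ : X)
    (x : X) : Submodule k L :=
  (V x ⊓ ⨅ h : G, LinearMap.ker (lam ∘ₗ ρ h)) ⊔ Submodule.span k {u | ∃ h : G, h • x₁ = x ∧ u = ρ h v}

/-- One step of the process. -/
inductive Step (𝕋 : TreeD G X T) (ρ : G →* (L →ₗ[k] L)) (V V' : X → Submodule k L) : Prop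
  | shear (t : T) (y : X) (lam : L →ₗ[k] k) (w : L) (S : L →ₗ[k] L)
      (hy : y ≠ 𝕋.b t) (hw : w ∈ V y) (hlam : SuppAt V lam (𝕋.b t))
      (hlw : ∀ h : G, lam (ρ h w) = 0) (hS : IsShear ρ lam w S)
      (hV' : ∀ x, V' x = (V x).map S)
  | transfer (t : T) (x₁ : X) (lam : L →ₗ[k] k) (v : L)
      (hadj : 𝕋.d (𝕋.b t) x₁ = 1) (hv : v ∈ V (𝕋.b t)) (hlam : SuppAt V lam (𝕋.b t))
      (h1 : lam v = 1) (h2 : ∀ g : G, g • 𝕋.b t = 𝕋.b t → g ≠ 1 → lam (ρ g v) = 0)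
      (hV' : ∀ x, V' x = transferV ρ V lam v x₁ x)

/-- the elements of `V x` whose image is supported in the ball `d x g < r` -/
def W (𝕋 : TreeD G X T) (f : L →ₗ[k] (G →₀ E)) (V : X → Submodule k L) (x : X) (r : ℕ) :
    Submodule k L where
  carrier := {u | u ∈ V x ∧ ∀ g : G, r ≤ 𝕋.d x (g • 𝕋.b 𝕋.o) → f u g = 0}
  add_mem' := by
    rintro a b ⟨ha, ha'⟩ ⟨hb, hb'⟩
    refine ⟨add_mem ha hb, fun g hg => ?_⟩
    rw [map_add, Finsupp.add_apply, ha' g hg, hb' g hg, add_zero]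
  zero_mem' := ⟨zero_mem _, fun g _ => by rw [map_zero, Finsupp.zero_apply]⟩
  smul_mem' := by
    rintro c a ⟨ha, ha'⟩
    refine ⟨Submodule.smul_mem _ _ ha, fun g hg => ?_⟩
    rw [map_smul, Finsupp.smul_apply, ha' g hg, smul_zero]

/-- the elements of `W x (r + 1)` whose image vanishes on the part of the sphere of radius `r` in the
direction of the neighbour `y` -/
def Wd (𝕋 : TreeD G X T) (f : L →ₗ[k] (G →₀ E)) (V : X → Submodule k L) (x y : X) (r : ℕ) :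
    Submodule k L where
  carrier := {u | u ∈ V x ∧ (∀ g : G, r + 1 ≤ 𝕋.d x (g • 𝕋.b 𝕋.o) → f u g = 0) ∧
    ∀ g : G, 𝕋.d x (g • 𝕋.b 𝕋.o) = r → 𝕋.d y (g • 𝕋.b 𝕋.o) + 1 = r → f u g = 0}
  add_mem' := by
    rintro a b ⟨ha, ha', ha''⟩ ⟨hb, hb', hb''⟩
    refine ⟨add_mem ha hb, fun g hg => ?_, fun g hg hg' => ?_⟩
    · rw [map_add, Finsupp.add_apply, ha' g hg, hb' g hg, add_zero]
    · rw [map_add, Finsupp.add_apply, ha'' g hg hg', hb'' g hg hg', add_zero]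
  zero_mem' := ⟨zero_mem _, fun g _ => by rw [map_zero, Finsupp.zero_apply],
    fun g _ _ => by rw [map_zero, Finsupp.zero_apply]⟩
  smul_mem' := by
    rintro c a ⟨ha, ha', ha''⟩
    refine ⟨Submodule.smul_mem _ _ ha, fun g hg => ?_, fun g hg hg' => ?_⟩
    · rw [map_smul, Finsupp.smul_apply, ha' g hg, smul_zero]
    · rw [map_smul, Finsupp.smul_apply, ha'' g hg hg', smul_zero]

/-- no cancellation behind a neighbour -/
def RC1 (𝕋 : TreeD G X T) (f : L →ₗ[k] (G →₀ E)) (V : X → Submodule k L) : Prop :=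
  ∀ (x y : X) (r : ℕ), 𝕋.d x y = 1 → ∀ v ∈ W 𝕋 f V x (r + 1), ∀ z : X →₀ L,
    (∀ x', z x' ∈ W 𝕋 f V x' (r + 1 - 𝕋.d x x')) →
    (∀ x' ∈ z.support, 𝕋.d y x' + 1 = 𝕋.d x x') →
    (∀ g : G, 𝕋.d x (g • 𝕋.b 𝕋.o) = r → 𝕋.d y (g • 𝕋.b 𝕋.o) + 1 = r →
      f v g = f (z.sum fun _ a => a) g) →
    ∀ g : G, 𝕋.d x (g • 𝕋.b 𝕋.o) = r → 𝕋.d y (g • 𝕋.b 𝕋.o) + 1 = r → f v g = 0

/-- no element is extreme in only one direction -/
def RC2 (𝕋 : TreeD G X T) (f : L →ₗ[k] (G →₀ E)) (V : X → Submodule k L) : Prop :=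
  ∀ (x y : X) (r : ℕ), 𝕋.d x y = 1 → ∀ v ∈ W 𝕋 f V x (r + 1),
    (∀ g : G, 𝕋.d x (g • 𝕋.b 𝕋.o) = r → 𝕋.d y (g • 𝕋.b 𝕋.o) = r + 1 → f v g = 0) →
    v ∈ W 𝕋 f V x r

/-- the weak algorithm: no cancellation outside the ball of the sum -/
def WP (𝕋 : TreeD G X T) (f : L →ₗ[k] (G →₀ E)) (V : X → Submodule k L) : Prop :=
  ∀ (v : X) (R : ℕ) (z : X →₀ L), (∀ x, z x ∈ V x) →
    (∀ g : G, R ≤ 𝕋.d v (g • 𝕋.b 𝕋.o) → f (z.sum fun _ a => a) g = 0) →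
    ∀ (x : X) (g : G), R ≤ 𝕋.d v x + 𝕋.d x (g • 𝕋.b 𝕋.o) → f (z x) g = 0

/-- all radii are at most `N` -/
def Bdd (𝕋 : TreeD G X T) (f : L →ₗ[k] (G →₀ E)) (V : X → Submodule k L) (N : ℕ) : Prop :=
  ∀ (t : T) (u : L), u ∈ V (𝕋.b t) → ∀ g : G, N ≤ 𝕋.d (𝕋.b t) (g • 𝕋.b 𝕋.o) → f u g = 0

/-- the order of the stabiliser of a base vertex -/
noncomputable def cst (𝕋 : TreeD G X T) (t : T) : ℕ := Nat.card {g : G // g • 𝕋.b t = 𝕋.b t}

/-- the first measure -/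
noncomputable def mu (𝕋 : TreeD G X T) [Fintype T] (f : L →ₗ[k] (G →₀ E)) (V : X → Submodule k L)
    (N : ℕ) : ℕ :=
  ∑ t : T, ((∏ s : T, cst 𝕋 s) / cst 𝕋 t) * ∑ r ∈ Finset.range N,
    (Module.finrank k (V (𝕋.b t)) - Module.finrank k (W 𝕋 f V (𝕋.b t) r))

/-- the second measure -/
noncomputable def nu (𝕋 : TreeD G X T) [Fintype T] (f : L →ₗ[k] (G →₀ E)) (V : X → Submodule k L)
    (N : ℕ) : ℕ :=
  ∑ t : T, ∑ y ∈ (𝕋.nbr_fin t).toFinset, ∑ r ∈ Finset.range N,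
    (Module.finrank k (V (𝕋.b t)) - Module.finrank k (Wd 𝕋 f V (𝕋.b t) y r))

end FP
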