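import Pool.Agent.Lib.MP_2d4659_gt.FP.Gdefs
import Pool.Agent.Lib.MP_2d4659_gt.FP.PDefs

/-!
# The matrices `Ψ` and row equivalence

`FJ m` are the finite factors, the columns are indexed by `Co m Y = FJ m ⊕ Y` and the rows by
`Nx m Y σ = (FJ m ⊕ Y) ⊕ σ`.  For a ring `B` with a homomorphism `u` from `G` to `B` the matrix `psi u`
is diagonal with entries the norm elements `NB u i` and `1`, with additional zero rows.
-/

set_option autoImplicit false

namespace FP

variable {J : Type}

/-- the finite factors -/
abbrev FJ (m : J → ℕ) : Type := {j : J // m j ≠ 0}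

/-- the columns -/
abbrev Co (m : J → ℕ) (Y : Type) : Type := FJ m ⊕ Y

/-- the rows -/
abbrev Nx (m : J → ℕ) (Y σ : Type) : Type := (FJ m ⊕ Y) ⊕ σ

/-- the norm element of the finite factor `i` -/
def NB {m : J → ℕ} {B : Type} [Semiring B] (u : Gp m →* B) (i : FJ m) : B :=
  ∑ c ∈ Finset.range (m i.1), u (gen m i.1) ^ c

/-- the diagonal entries -/
def dg {m : J → ℕ} {B : Type} [Semiring B] (u : Gp m →* B) (Y : Type) : Co m Y → B
  | Sum.inl i => NB u i
  | Sum.inr _ => 1

/-- the matrix `Ψ` -/
def psi {m : J → ℕ} {B : Type} [Semiring B] [DecidableEq J] (u : Gp m →* B) (Y σ : Type)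
    [DecidableEq Y] : Matrix (Nx m Y σ) (Co m Y) B :=
  fun r c => match r with
    | Sum.inl r' => if r' = c then dg u Y c else 0
    | Sum.inr _ => 0

/-- two matrices have the same row space -/
def SameRow {n c B : Type} [Semiring B] [Fintype n] (Φ Ψ : Matrix n c B) : Prop :=
  (∃ X : Matrix n n B, Φ = X * Ψ) ∧ ∃ X : Matrix n n B, Ψ = X * Φ

/-- the inclusion of `G` in the group ring -/
noncomputable abbrev uk (k : Type) [Semiring k] (m : J → ℕ) : Gp m →* MonoidAlgebra k (Gp m) :=
  MonoidAlgebra.of k (Gp m)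

section rep

variable {m : J → ℕ} {k : Type} [Field k] {n c : Type}

/-- left multiplication by group elements -/
noncomputable def rhoL (m : J → ℕ) (k : Type) [Field k] (n : Type) :
    Gp m →* ((n → MonoidAlgebra k (Gp m)) →ₗ[k] (n → MonoidAlgebra k (Gp m))) where
  toFun g :=
    { toFun := fun v i => uk k m g * v i
      map_add' := fun v w => by ext1 i; simp [mul_add]
      map_smul' := fun a v => by ext1 i; simp }
  map_one' := by ext v i; simp
  map_mul' g h := by ext v i; simp [mul_assoc]

/-- a vector over the group ring as a finitely supported function with values in vectors -/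
noncomputable def colF (m : J → ℕ) (k : Type) [Field k] (c : Type) [Fintype c] [DecidableEq c] :
    (c → MonoidAlgebra k (Gp m)) →ₗ[k] (Gp m →₀ (c → k)) where
  toFun v := ∑ j : c, (v j).coeff.mapRange (fun a => Pi.single (M := fun _ => k) j a) (by simp)
  map_add' v w := by
    rw [← Finset.sum_add_distrib]
    refine Finset.sum_congr rfl fun j _ => ?_
    ext g j'
    simp [Pi.single_add]
  map_smul' a v := by
    rw [RingHom.id_apply, Finset.smul_sum]
    refine Finset.sum_congr rfl fun j _ => ?_
    ext g j'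
    simp [Pi.single_apply]

lemma colF_apply [Fintype c] [DecidableEq c] (v : c → MonoidAlgebra k (Gp m)) (g : Gp m) (j : c) :
    colF m k c v g j = (v j).coeff g := by
  simp only [colF, LinearMap.coe_mk, AddHom.coe_mk, Finsupp.finsetSum_apply,
    Finsupp.mapRange_apply, Finset.sum_apply]
  rw [Finset.sum_eq_single j]
  · simp
  · intro b _ hb
    simp [hb.symm]
  · simp

/-- the map `v ↦ v Φ` -/
noncomputable def fPhi [Fintype n] [Fintype c] [DecidableEq c]
    (Φ : Matrix n c (MonoidAlgebra k (Gp m))) :
    (n → MonoidAlgebra k (Gp m)) →ₗ[k] (Gp m →₀ (c → k)) :=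
  colF m k c ∘ₗ
    { toFun := fun v => Matrix.vecMul v Φ
      map_add' := fun _ _ => Matrix.add_vecMul _ _ _
      map_smul' := fun _ _ => Matrix.smul_vecMul _ _ _ }

lemma fPhi_apply [Fintype n] [Fintype c] [DecidableEq c] (Φ : Matrix n c (MonoidAlgebra k (Gp m)))
    (v : n → MonoidAlgebra k (Gp m)) (g : Gp m) (j : c) :
    fPhi Φ v g j = (Matrix.vecMul v Φ j).coeff g := by
  simp only [fPhi, LinearMap.comp_apply, colF_apply, LinearMap.coe_mk, AddHom.coe_mk]

lemma fPhi_equiv [Fintype n] [Fintype c] [DecidableEq c] (Φ : Matrix n c (MonoidAlgebra k (Gp m))) :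
    EquivF (rhoL m k n) (fPhi Φ) := by
  intro g v h
  ext j
  rw [fPhi_apply, fPhi_apply]
  have : Matrix.vecMul (rhoL m k n g v) Φ j = uk k m g * Matrix.vecMul v Φ j := by
    simp only [Matrix.vecMul, dotProduct, rhoL, MonoidHom.coe_mk, OneHom.coe_mk,
      LinearMap.coe_mk, AddHom.coe_mk, Finset.mul_sum, mul_assoc]
  rw [this]
  simp [MonoidAlgebra.coeff_single_mul_apply]

/-- the frame given by an invertible matrix and a distribution of its rows to the types -/
noncomputable def VC [Fintype n] [DecidableEq n] (S : n → Option J)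
    (h : (Matrix n n (MonoidAlgebra k (Gp m)))ˣ) (x : Vx m) :
    Submodule k (n → MonoidAlgebra k (Gp m)) :=
  Submodule.span k {v | ∃ (g : Gp m) (i : n), g • bs m (S i) = x ∧ v = fun j => uk k m g * h.1 i j}

end rep

end FP
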