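import Pool.Agent.Lib.MP_2d4659_gt.FP.Gdefs

/-!
# The boundary maps

`G = Gp m` is the free product of cyclic groups of orders `m j`, `j : J` (`0` means infinite). For a family
`g : X → G` (the one-cells of a complex with one zero-cell and fundamental group `G`), `bd1 k g` is the
boundary map `k[G]^X → k[G]`, `e_x ↦ g x - 1`, of the universal cover.
-/

set_option autoImplicit false

namespace FP

variable {J : Type} {m : J → ℕ}

/-- the group ring -/
abbrev RG (k : Type) [CommRing k] (m : J → ℕ) : Type := MonoidAlgebra k (Gp m)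

/-- the boundary map `k[G]^X → k[G]`, `v ↦ ∑ x, v x (g x - 1)` -/
noncomputable def bd1 (k : Type) [CommRing k] {X : Type} [Fintype X] (g : X → Gp m) :
    (X → RG k m) →ₗ[RG k m] RG k m where
  toFun v := ∑ x, v x * (MonoidAlgebra.single (g x) 1 - 1)
  map_add' v w := by simp [add_mul, Finset.sum_add_distrib]
  map_smul' c v := by simp [Finset.mul_sum, mul_assoc]

/-- `d` is a possible boundary map `k[G]^n → k[G]^X`: its image is the kernel of `bd1` -/
def IsBd2 (k : Type) [CommRing k] {X n : Type} [Fintype X] (g : X → Gp m)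
    (d : (n → RG k m) →ₗ[RG k m] (X → RG k m)) : Prop :=
  LinearMap.range d = LinearMap.ker (bd1 k g)

/-- `d` and `d'` differ by an automorphism -/
def LadderIso (k : Type) [CommRing k] {X n : Type}
    (d d' : (n → RG k m) →ₗ[RG k m] (X → RG k m)) : Prop :=
  ∃ h : (n → RG k m) ≃ₗ[RG k m] (n → RG k m), d = d' ∘ₗ h.toLinearMap

/-- the family consisting of the standard generators and further elements `w y` -/
def gX (m : J → ℕ) {Y : Type} (w : Y → Gp m) : J ⊕ Y → Gp m := Sum.elim (gen m) w

end FP
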