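import Mathlib

/-!
# Rooted trees given by a parent function

`ml x y` is the level of the last common ancestor, `d x y = lev x + lev y - 2 * ml x y`.  Everything
follows from `ml x z ≥ min (ml x y) (ml y z)`.
-/

set_option autoImplicit false

namespace FP

/-- a rooted tree: parent function and level -/
structure RTree (X : Type) where
  par : X → X
  lev : X → ℕ
  root : X
  lev_root : ∀ x, lev x = 0 ↔ x = root
  lev_par : ∀ x, lev x ≠ 0 → lev (par x) + 1 = lev x

namespace RTree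

variable {X : Type} (R : RTree X)

/-- the ancestor of `x` at level `n ≤ lev x` -/
def anc (x : X) (n : ℕ) : X := R.par^[R.lev x - n] x

/-- level of the last common ancestor -/
noncomputable def ml (x y : X) : ℕ := by
  classical
  exact Nat.findGreatest (fun n => R.anc x n = R.anc y n) (min (R.lev x) (R.lev y))

/-- the distance -/
noncomputable def d (x y : X) : ℕ := R.lev x + R.lev y - 2 * R.ml x y

lemma A1_lev_iter (x : X) (k : ℕ) (hk : k ≤ R.lev x) : R.lev (R.par^[k] x) + k = R.lev x := by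
  induction k with
  | zero => rfl
  | succ k ih =>
    have h1 := ih (by omega)
    rw [Function.iterate_succ_apply']
    have h2 := R.lev_par (R.par^[k] x) (by omega)
    omega

lemma A1_lev_anc {x : X} {n : ℕ} (hn : n ≤ R.lev x) : R.lev (R.anc x n) = n := by
  have h := R.A1_lev_iter x (R.lev x - n) (by omega)
  unfold anc
  omega

lemma A1_anc_self (x : X) : R.anc x (R.lev x) = x := by
  unfold anc
  rw [Nat.sub_self]
  rfl

lemma A1_anc_zero (x : X) : R.anc x 0 = R.root := by
  rw [← R.lev_root]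
  exact R.A1_lev_anc (Nat.zero_le _)

lemma A1_anc_anc {x : X} {n n' : ℕ} (h : n ≤ n') (h' : n' ≤ R.lev x) :
    R.anc (R.anc x n') n = R.anc x n := by
  have h1 : R.lev (R.anc x n') = n' := R.A1_lev_anc h'
  change R.par^[R.lev (R.anc x n') - n] (R.anc x n') = _
  rw [h1]
  unfold anc
  rw [← Function.iterate_add_apply]
  congr 1
  omega

lemma A1_anc_par {x : X} (hx : R.lev x ≠ 0) {n : ℕ} (hn : n + 1 ≤ R.lev x) :
    R.anc (R.par x) n = R.anc x n := by
  have h1 := R.lev_par x hx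
  unfold anc
  rw [← Function.iterate_succ_apply]
  congr 1
  omega

lemma A1_le_ml_iff (x y : X) (n : ℕ) :
    n ≤ R.ml x y ↔ n ≤ R.lev x ∧ n ≤ R.lev y ∧ R.anc x n = R.anc y n := by
  classical
  constructor
  · intro h
    have h0 : R.ml x y ≤ min (R.lev x) (R.lev y) := Nat.findGreatest_le _
    have h1 : R.anc x (R.ml x y) = R.anc y (R.ml x y) :=
      Nat.findGreatest_spec (P := fun n => R.anc x n = R.anc y n) (m := 0) (Nat.zero_le _)
        (by rw [R.A1_anc_zero, R.A1_anc_zero])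
    refine ⟨by omega, by omega, ?_⟩
    rw [← R.A1_anc_anc (x := x) h (by omega), h1, R.A1_anc_anc h (by omega)]
  · rintro ⟨h1, h2, h3⟩
    exact Nat.le_findGreatest (le_min h1 h2) h3

lemma ml_self (x : X) : R.ml x x = R.lev x :=
  le_antisymm ((R.A1_le_ml_iff x x _).1 le_rfl).1 ((R.A1_le_ml_iff x x _).2 ⟨le_rfl, le_rfl, rfl⟩)

lemma ml_comm (x y : X) : R.ml x y = R.ml y x := by
  apply le_antisymm
  · rw [R.A1_le_ml_iff]
    obtain ⟨h1, h2, h3⟩ := (R.A1_le_ml_iff x y _).1 le_rfl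
    exact ⟨h2, h1, h3.symm⟩
  · rw [R.A1_le_ml_iff]
    obtain ⟨h1, h2, h3⟩ := (R.A1_le_ml_iff y x _).1 le_rfl
    exact ⟨h2, h1, h3.symm⟩

lemma ml_le (x y : X) : R.ml x y ≤ R.lev x := ((R.A1_le_ml_iff x y _).1 le_rfl).1

lemma ml_ultra (x y z : X) : min (R.ml x y) (R.ml y z) ≤ R.ml x z := by
  obtain ⟨h1, h2, h3⟩ := (R.A1_le_ml_iff x y (min (R.ml x y) (R.ml y z))).1 (min_le_left _ _)
  obtain ⟨h4, h5, h6⟩ := (R.A1_le_ml_iff y z (min (R.ml x y) (R.ml y z))).1 (min_le_right _ _)
  rw [R.A1_le_ml_iff]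
  exact ⟨h1, h5, h3.trans h6⟩

lemma ml_eq_lev {x y : X} (h : R.ml x y = R.lev x) (h' : R.lev x = R.lev y) : x = y := by
  obtain ⟨-, -, h3⟩ := (R.A1_le_ml_iff x y (R.lev x)).1 h.ge
  rw [R.A1_anc_self] at h3
  rw [h', R.A1_anc_self] at h3
  exact h3

lemma A1_ml_le_right (x y : X) : R.ml x y ≤ R.lev y := ((R.A1_le_ml_iff x y _).1 le_rfl).2.1

lemma A1_d_add (x y : X) : R.d x y + 2 * R.ml x y = R.lev x + R.lev y := by
  have h1 := R.ml_le x y
  have h2 := R.A1_ml_le_right x y
  unfold d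
  omega

lemma d_self (x : X) : R.d x x = 0 := by
  have h := R.A1_d_add x x
  rw [R.ml_self] at h
  omega

lemma eq_of_d (x y : X) (h : R.d x y = 0) : x = y := by
  have h0 := R.A1_d_add x y
  have h1 := R.ml_le x y
  have h2 := R.A1_ml_le_right x y
  exact R.ml_eq_lev (by omega) (by omega)

lemma symm (x y : X) : R.d x y = R.d y x := by
  have h := R.A1_d_add x y
  have h' := R.A1_d_add y x
  rw [R.ml_comm] at h
  omega

lemma tri (x y z : X) : R.d x z ≤ R.d x y + R.d y z := by
  have h1 := R.A1_d_add x y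
  have h2 := R.A1_d_add y z
  have h3 := R.A1_d_add x z
  have h4 := R.ml_ultra x y z
  have h5 := R.A1_ml_le_right x y
  have h6 := R.ml_le y z
  omega

lemma four (x y z w : X) : R.d x y + R.d z w ≤ max (R.d x z + R.d y w) (R.d x w + R.d y z) := by
  have h1 := R.A1_d_add x y
  have h2 := R.A1_d_add z w
  have h3 := R.A1_d_add x z
  have h4 := R.A1_d_add y w
  have h5 := R.A1_d_add x w
  have h6 := R.A1_d_add y z
  have key : min (R.ml x z + R.ml y w) (R.ml x w + R.ml y z) ≤ R.ml x y + R.ml z w := by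
    have a1 := R.ml_ultra x z y
    have a2 := R.ml_ultra x w y
    have a3 := R.ml_ultra z x w
    have a4 := R.ml_ultra z y w
    rw [R.ml_comm z y] at a1 a4
    rw [R.ml_comm w y] at a2
    rw [R.ml_comm z x] at a3
    omega
  omega

lemma parity (x y z : X) : (R.d x y + R.d y z + R.d x z) % 2 = 0 := by
  have h1 := R.A1_d_add x y
  have h2 := R.A1_d_add y z
  have h3 := R.A1_d_add x z
  omega

lemma A1_adj_par {x : X} (hx : R.lev x ≠ 0) : R.d x (R.par x) = 1 := by
  have h1 := R.lev_par x hx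
  have h2 : R.lev (R.par x) ≤ R.ml x (R.par x) := by
    rw [R.A1_le_ml_iff]
    refine ⟨by omega, le_rfl, ?_⟩
    rw [R.A1_anc_self, ← R.A1_anc_par hx (by omega), R.A1_anc_self]
  have h3 := R.A1_ml_le_right x (R.par x)
  have h4 := R.A1_d_add x (R.par x)
  omega

lemma A1_adj_aux {x y : X} (h : R.lev x = R.lev y + 1) (h' : R.ml x y = R.lev y) :
    R.lev x ≠ 0 ∧ y = R.par x := by
  have hx : R.lev x ≠ 0 := by omega
  refine ⟨hx, ?_⟩
  have h1 := R.lev_par x hx
  obtain ⟨-, -, h3⟩ := (R.A1_le_ml_iff x y (R.lev y)).1 h'.ge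
  rw [R.A1_anc_self, ← R.A1_anc_par hx (by omega)] at h3
  have h4 : R.lev y = R.lev (R.par x) := by omega
  rw [h4, R.A1_anc_self] at h3
  exact h3.symm

/-- adjacent vertices -/
lemma adj_iff (x y : X) :
    R.d x y = 1 ↔ (R.lev x ≠ 0 ∧ y = R.par x) ∨ (R.lev y ≠ 0 ∧ x = R.par y) := by
  constructor
  · intro h
    have h0 := R.A1_d_add x y
    have h1 := R.ml_le x y
    have h2 := R.A1_ml_le_right x y
    rcases lt_or_ge (R.ml x y) (R.lev x) with h3 | h3
    · exact Or.inl (R.A1_adj_aux (by omega) (by omega))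
    · refine Or.inr (R.A1_adj_aux (by omega) ?_)
      rw [R.ml_comm]
      omega
  · rintro (⟨h1, rfl⟩ | ⟨h1, rfl⟩)
    · exact R.A1_adj_par h1
    · rw [R.symm]
      exact R.A1_adj_par h1

lemma step (x y : X) (h : x ≠ y) : ∃ x', R.d x x' = 1 ∧ R.d x' y + 1 = R.d x y := by
  have h0 := R.A1_d_add x y
  have h1 := R.ml_le x y
  have h2 := R.A1_ml_le_right x y
  rcases lt_or_ge (R.ml x y) (R.lev x) with h3 | h3
  · have hx : R.lev x ≠ 0 := by omega
    have h4 := R.lev_par x hx
    refine ⟨R.par x, R.A1_adj_par hx, ?_⟩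
    have h5 := R.A1_d_add (R.par x) y
    have h6 : R.ml x y ≤ R.ml (R.par x) y := by
      rw [R.A1_le_ml_iff]
      refine ⟨by omega, h2, ?_⟩
      rw [R.A1_anc_par hx (by omega)]
      exact ((R.A1_le_ml_iff x y _).1 le_rfl).2.2
    have h7 : R.ml (R.par x) y ≤ R.ml x y := by
      obtain ⟨a1, a2, a3⟩ := (R.A1_le_ml_iff (R.par x) y _).1 le_rfl
      rw [R.A1_le_ml_iff]
      refine ⟨by omega, a2, ?_⟩
      rw [← R.A1_anc_par hx (by omega)]
      exact a3
    omega
  · have h4 : R.lev x < R.lev y := by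
      by_contra h5
      exact h (R.ml_eq_lev (by omega) (by omega))
    have h5 : R.lev (R.anc y (R.lev x + 1)) = R.lev x + 1 := R.A1_lev_anc (by omega)
    have h6 : R.anc (R.anc y (R.lev x + 1)) (R.lev x) = x := by
      rw [R.A1_anc_anc (by omega) (by omega)]
      have := ((R.A1_le_ml_iff x y (R.lev x)).1 h3).2.2
      rw [← this, R.A1_anc_self]
    have h7 : R.d (R.anc y (R.lev x + 1)) x = 1 := by
      have a1 := R.A1_d_add (R.anc y (R.lev x + 1)) x
      have a2 : R.lev x ≤ R.ml (R.anc y (R.lev x + 1)) x := by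
        rw [R.A1_le_ml_iff]
        refine ⟨by omega, le_rfl, ?_⟩
        rw [h6, R.A1_anc_self]
      have a3 := R.A1_ml_le_right (R.anc y (R.lev x + 1)) x
      omega
    refine ⟨R.anc y (R.lev x + 1), by rw [R.symm]; exact h7, ?_⟩
    have a1 := R.A1_d_add (R.anc y (R.lev x + 1)) y
    have a2 : R.lev x + 1 ≤ R.ml (R.anc y (R.lev x + 1)) y := by
      rw [R.A1_le_ml_iff]
      refine ⟨by omega, by omega, ?_⟩
      rw [R.A1_anc_anc le_rfl (by omega)]
    have a3 := R.ml_le (R.anc y (R.lev x + 1)) y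
    omega

/-- a map preserving adjacency does not increase distances -/
lemma lip (φ : X → X) (hφ : ∀ x y, R.d x y = 1 → R.d (φ x) (φ y) = 1) (x y : X) :
    R.d (φ x) (φ y) ≤ R.d x y := by
  induction hn : R.d x y generalizing x with
  | zero =>
    rw [R.eq_of_d x y hn, R.d_self]
  | succ n ih =>
    have hxy : x ≠ y := by
      rintro rfl
      rw [R.d_self] at hn
      omega
    obtain ⟨x', h1, h2⟩ := R.step x y hxy
    have h3 := ih x' (by omega)
    have h4 := R.tri (φ x) (φ x') (φ y)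
    have h5 := hφ x x' h1
    omega

end RTree

end FP
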