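import Pool.Agent.Lib.MP_2d4659_gt.FP.Gdefs

/-!
# Normal forms in the free product: a length function

Use `Monoid.CoprodI.Word` (`Monoid.CoprodI.Word.equiv`, `Word.equivPair`, `Word.Pair`): let `len g` be
the sum of the weights of the letters of the reduced word of `g⁻¹`.  For every `j` the reduced word of
`g⁻¹` is `h :: w` with `h` in the `j`-th factor (possibly `1`) and `w` not starting with a letter of the
`j`-th factor, so that `g = w⁻¹ * h⁻¹` and all `w⁻¹ * c` have length `len w⁻¹ + wt c`.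
-/

set_option autoImplicit false

namespace FP

variable {J : Type} (m : J → ℕ)

/-- weight of a letter: `1` for nontrivial elements of finite factors, the absolute value of the exponent
for infinite factors -/
noncomputable def wt (j : J) (c : Multiplicative (ZMod (m j))) : ℕ :=
  open Classical in
  if m j = 0 then (ZMod.valMinAbs (Multiplicative.toAdd c)).natAbs else if c = 1 then 0 else 1

/-- the inclusion of the `j`-th factor -/
abbrev ofJ (j : J) : Multiplicative (ZMod (m j)) →* Gp m :=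
  Monoid.CoprodI.of (M := fun j => Multiplicative (ZMod (m j))) (i := j)

/-- `g₀` is minimal in its coset with respect to the `j`-th factor -/
def MinAt (len : Gp m → ℕ) (j : J) (g₀ : Gp m) : Prop :=
  ∀ c : Multiplicative (ZMod (m j)), len (g₀ * ofJ m j c) = len g₀ + wt m j c

section A2

open Monoid.CoprodI

lemma A2_wt_one (j : J) : wt m j 1 = 0 := by
  unfold wt
  split_ifs with h h'
  · have : Multiplicative.toAdd (1 : Multiplicative (ZMod (m j))) = 0 := rfl
    rw [this, ZMod.valMinAbs_zero]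
    rfl
  · rfl
  · exact absurd rfl h'

lemma A2_wt_eq (j : J) (c : Multiplicative (ZMod (m j))) : wt m j c = 0 ↔ c = 1 := by
  constructor
  · intro h
    unfold wt at h
    split_ifs at h with h1 h2
    · have h3 : ZMod.valMinAbs (Multiplicative.toAdd c) = 0 := Int.natAbs_eq_zero.1 h
      have h4 : Multiplicative.toAdd c = 0 := (ZMod.valMinAbs_eq_zero _).1 h3
      exact h4
    · exact h2
  · rintro rfl
    exact A2_wt_one m j

lemma A2_wt_inv (j : J) (c : Multiplicative (ZMod (m j))) : wt m j c⁻¹ = wt m j c := by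
  unfold wt
  split_ifs with h1 h2 h3 h4
  · have h5 : Multiplicative.toAdd c⁻¹ = -Multiplicative.toAdd c := rfl
    rw [h5]
    exact ZMod.natAbs_valMinAbs_neg _
  · rfl
  · exact absurd (inv_eq_one.1 h2) h3
  · exact absurd (by rw [h4]; exact inv_one) h2
  · rfl

variable [DecidableEq J] [∀ j, DecidableEq (Multiplicative (ZMod (m j)))]

/-- the length of a reduced word -/
noncomputable def A2_lenW (w : Word (fun j => Multiplicative (ZMod (m j)))) : ℕ :=
  (w.toList.map fun l => wt m l.1 l.2).sum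

omit [DecidableEq J] in
lemma A2_lenW_rcons {j : J} (p : Word.Pair (fun j => Multiplicative (ZMod (m j))) j) :
    A2_lenW m (Word.rcons p) = wt m j p.head + A2_lenW m p.tail := by
  unfold Word.rcons
  split_ifs with h
  · rw [h, A2_wt_one, zero_add]
  · unfold A2_lenW Word.cons
    rw [List.map_cons, List.sum_cons]

/-- the length function -/
noncomputable def A2_len (g : Gp m) : ℕ := A2_lenW m (Word.equiv g⁻¹)

lemma A2_len_prod (w : Word (fun j => Multiplicative (ZMod (m j)))) :
    A2_len m (w.prod)⁻¹ = A2_lenW m w := by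
  unfold A2_len
  rw [inv_inv]
  exact congrArg (A2_lenW m) (Word.equiv.apply_symm_apply w)

lemma A2_min {j : J} (w : Word (fun j => Multiplicative (ZMod (m j))))
    (hw : w.fstIdx ≠ some j) : MinAt m (A2_len m) j (w.prod)⁻¹ := by
  intro c
  have h1 : (w.prod)⁻¹ * ofJ m j c = (Word.rcons
      (⟨c⁻¹, w, hw⟩ : Word.Pair (fun j => Multiplicative (ZMod (m j))) j)).prod⁻¹ := by
    rw [Word.prod_rcons, mul_inv_rev]
    congr 1
    show ofJ m j c = (ofJ m j c⁻¹)⁻¹
    rw [map_inv, inv_inv]
  rw [h1, A2_len_prod, A2_lenW_rcons, A2_len_prod]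
  show wt m j c⁻¹ + A2_lenW m w = A2_lenW m w + wt m j c
  rw [A2_wt_inv, add_comm]

/-- the decomposition of an element with respect to the `j`-th factor -/
lemma A2_dec (j : J) (g : Gp m) :
    ∃ p : Word.Pair (fun j => Multiplicative (ZMod (m j))) j,
      Word.rcons p = Word.equiv g⁻¹ ∧ g = (p.tail.prod)⁻¹ * ofJ m j p.head⁻¹ := by
  obtain ⟨p, h1⟩ : ∃ p : Word.Pair (fun j => Multiplicative (ZMod (m j))) j,
      Word.rcons p = Word.equiv g⁻¹ := ⟨_, (Word.equivPair j).symm_apply_apply _⟩
  refine ⟨p, h1, ?_⟩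
  have h2 := Word.prod_rcons p
  rw [h1] at h2
  have h3 : (Word.equiv g⁻¹).prod = g⁻¹ := Word.equiv.symm_apply_apply g⁻¹
  rw [h3] at h2
  have h4 : ofJ m j p.head⁻¹ = (ofJ m j p.head)⁻¹ := map_inv _ _
  rw [h4, ← mul_inv_rev]
  exact inv_eq_iff_eq_inv.1 h2

omit [DecidableEq J] [∀ j, DecidableEq (Multiplicative (ZMod (m j)))] in
lemma A2_lenW_zero (w : Word (fun j => Multiplicative (ZMod (m j)))) (h : A2_lenW m w = 0) :
    w = Word.empty := by
  apply Word.ext
  show w.toList = []
  by_contra hne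
  obtain ⟨l, t, hl⟩ := List.exists_cons_of_ne_nil hne
  unfold A2_lenW at h
  rw [hl, List.map_cons, List.sum_cons] at h
  have h1 : wt m l.1 l.2 = 0 := by omega
  exact w.ne_one l (by rw [hl]; exact List.mem_cons_self) ((A2_wt_eq m _ _).1 h1)

omit [DecidableEq J] in
lemma A2_fst {j : J} (p : Word.Pair (fun j => Multiplicative (ZMod (m j))) j)
    (h : p.head ≠ 1) : (Word.rcons p).fstIdx = some j := by
  unfold Word.rcons
  rw [dif_neg h, Word.fstIdx_cons]

theorem A2_main :
    (∀ g, A2_len m g = 0 ↔ g = 1) ∧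
      (∀ (j : J) (g : Gp m), ∃ (g₀ : Gp m) (c : Multiplicative (ZMod (m j))),
        g = g₀ * ofJ m j c ∧ MinAt m (A2_len m) j g₀) ∧
      ∀ g, g ≠ 1 → ∃! j : J, ∃ (g₀ : Gp m) (c : Multiplicative (ZMod (m j))),
        c ≠ 1 ∧ g = g₀ * ofJ m j c ∧ MinAt m (A2_len m) j g₀ := by
  refine ⟨fun g => ⟨fun h => ?_, fun h => ?_⟩, fun j g => ?_, fun g hg => ?_⟩
  · have h1 : Word.equiv g⁻¹ = Word.empty := A2_lenW_zero m _ h
    have h2 : (Word.equiv g⁻¹).prod = g⁻¹ := Word.equiv.symm_apply_apply g⁻¹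
    rw [h1, Word.prod_empty] at h2
    exact inv_eq_one.1 h2.symm
  · rw [h]
    have h1 : (1 : Gp m) = (Word.prod (Word.empty :
        Word (fun j => Multiplicative (ZMod (m j)))))⁻¹ := by
      rw [Word.prod_empty, inv_one]
    rw [h1, A2_len_prod]
    rfl
  · obtain ⟨p, -, hp⟩ := A2_dec m j g
    exact ⟨_, _, hp, A2_min m p.tail p.fstIdx_ne⟩
  · -- the first letter
    have hne : Word.equiv g⁻¹ ≠ (Word.empty : Word (fun j => Multiplicative (ZMod (m j)))) := by
      intro h1
      have h2 : (Word.equiv g⁻¹).prod = g⁻¹ := Word.equiv.symm_apply_apply g⁻¹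
      rw [h1, Word.prod_empty] at h2
      exact hg (inv_eq_one.1 h2.symm)
    have hnil : (Word.equiv g⁻¹).toList ≠ [] := fun h => hne (Word.ext h)
    obtain ⟨l, t, hl⟩ := List.exists_cons_of_ne_nil hnil
    have hfst : (Word.equiv g⁻¹).fstIdx = some l.1 := by
      unfold Word.fstIdx
      rw [hl]
      rfl
    refine ⟨l.1, ?_, ?_⟩
    · obtain ⟨p, hp1, hp2⟩ := A2_dec m l.1 g
      refine ⟨_, _, ?_, hp2, A2_min m p.tail p.fstIdx_ne⟩
      intro h1
      have h2 : p.head = 1 := inv_eq_one.1 h1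
      have h3 : Word.rcons p = p.tail := by
        unfold Word.rcons
        rw [dif_pos h2]
      rw [h3] at hp1
      exact p.fstIdx_ne (by rw [hp1, hfst])
    · rintro j ⟨g₀, c, hc, hgc, hmin⟩
      obtain ⟨p, hp1, hp2⟩ := A2_dec m j g₀
      -- the word of `g₀⁻¹` does not start with a letter of the `j`-th factor
      have h1 := hmin p.head
      have h2 : g₀ * ofJ m j p.head = (p.tail.prod)⁻¹ := by
        conv_lhs => rw [hp2]
        rw [mul_assoc, ← map_mul, inv_mul_cancel, map_one, mul_one]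
      have h3 : A2_len m g₀ = wt m j p.head + A2_lenW m p.tail := by
        unfold A2_len
        rw [← hp1, A2_lenW_rcons]
      rw [h2, A2_len_prod, h3] at h1
      have h4 : p.head = 1 := (A2_wt_eq m j _).1 (by omega)
      have h5 : Word.rcons (⟨c⁻¹, p.tail, p.fstIdx_ne⟩ :
          Word.Pair (fun j => Multiplicative (ZMod (m j))) j) = Word.equiv g⁻¹ := by
        have h6 : g⁻¹ = (Word.rcons (⟨c⁻¹, p.tail, p.fstIdx_ne⟩ :
            Word.Pair (fun j => Multiplicative (ZMod (m j))) j)).prod := by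
          rw [Word.prod_rcons, hgc, hp2, h4, inv_one, map_one, mul_one, mul_inv_rev, inv_inv,
            ← map_inv]
        rw [h6]
        exact (Word.equiv.apply_symm_apply _).symm
      have h7 := A2_fst m (⟨c⁻¹, p.tail, p.fstIdx_ne⟩ :
          Word.Pair (fun j => Multiplicative (ZMod (m j))) j) (inv_ne_one.2 hc)
      rw [h5, hfst] at h7
      exact (Option.some.inj h7).symm

end A2

theorem nf_exists :
    ∃ len : Gp m → ℕ, (∀ g, len g = 0 ↔ g = 1) ∧
      (∀ (j : J) (g : Gp m), ∃ (g₀ : Gp m) (c : Multiplicative (ZMod (m j))),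
        g = g₀ * ofJ m j c ∧ MinAt m len j g₀) ∧
      ∀ g, g ≠ 1 → ∃! j : J, ∃ (g₀ : Gp m) (c : Multiplicative (ZMod (m j))),
        c ≠ 1 ∧ g = g₀ * ofJ m j c ∧ MinAt m len j g₀ := by
  classical
  exact ⟨A2_len m, A2_main m⟩

end FP
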