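import Pool.Agent.Lib.MP_2d4659_gt.FP.A2

/-!
# The length function and adjacency

From `nf_exists`: every vertex `(j, q)` has a unique neighbour of least length, all others are longer by
exactly one; every `g ≠ 1` has a unique neighbour with a shorter neighbour.
-/

set_option autoImplicit false

namespace FP

variable {J : Type} (m : J → ℕ)

lemma A3_mem_fin {j : J} (hj : m j ≠ 0) (g : Gp m) :
    g ∈ HJ m j ↔ ∃ c, ofJ m j c = g := by
  unfold HJ
  rw [if_neg hj]
  exact MonoidHom.mem_range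

lemma A3_mem_inf {j : J} (hj : m j = 0) (g : Gp m) :
    g ∈ HJ m j ↔ g = 1 := by
  unfold HJ
  rw [if_pos hj]
  exact Subgroup.mem_bot

lemma A3_sigma_eq {j j' : J} {h g : Gp m} :
    (Sum.inr ⟨j, QuotientGroup.mk h⟩ : Vx m) = Sum.inr ⟨j', QuotientGroup.mk g⟩ ↔
      j = j' ∧ h⁻¹ * g ∈ HJ m j := by
  constructor
  · intro e
    have e1 := Sum.inr.inj e
    obtain ⟨e2, e3⟩ := Sigma.mk.inj e1
    subst e2
    have e4 := eq_of_heq e3
    exact ⟨rfl, QuotientGroup.eq.1 e4⟩
  · rintro ⟨rfl, e⟩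
    congr 2
    exact QuotientGroup.eq.2 e

lemma A3_adj {j : J} (g h : Gp m) :
    AdjG m g (Sum.inr ⟨j, QuotientGroup.mk h⟩) ↔
      (h⁻¹ * g ∈ HJ m j ∨ (m j = 0 ∧ h⁻¹ * (g * (gen m j)⁻¹) ∈ HJ m j)) := by
  unfold AdjG
  constructor
  · rintro ⟨j', e | ⟨e0, e⟩⟩
    · obtain ⟨rfl, e1⟩ := (A3_sigma_eq m).1 e
      exact Or.inl e1
    · obtain ⟨rfl, e1⟩ := (A3_sigma_eq m).1 e
      exact Or.inr ⟨e0, e1⟩
  · rintro (e | ⟨e0, e⟩)
    · exact ⟨j, Or.inl ((A3_sigma_eq m).2 ⟨rfl, e⟩)⟩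
    · exact ⟨j, Or.inr ⟨e0, (A3_sigma_eq m).2 ⟨rfl, e⟩⟩⟩

/-- neighbours of a vertex `(j, g H j)`: finite factor -/
lemma adjG_fin {j : J} (hj : m j ≠ 0) (g h : Gp m) :
    AdjG m g (Sum.inr ⟨j, QuotientGroup.mk h⟩) ↔ h⁻¹ * g ∈ HJ m j := by
  rw [A3_adj]
  constructor
  · rintro (e | ⟨e0, _⟩)
    · exact e
    · exact absurd e0 hj
  · exact Or.inl

/-- neighbours of a vertex `(j, {h})`: infinite factor -/
lemma adjG_inf {j : J} (hj : m j = 0) (g h : Gp m) :
    AdjG m g (Sum.inr ⟨j, QuotientGroup.mk h⟩) ↔ g = h ∨ g = h * gen m j := by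
  rw [A3_adj, A3_mem_inf m hj, A3_mem_inf m hj]
  constructor
  · rintro (e | ⟨_, e⟩)
    · exact Or.inl (inv_mul_eq_one.1 e).symm
    · refine Or.inr ?_
      have := inv_mul_eq_one.1 e
      rw [this, inv_mul_cancel_right]
  · rintro (e | e)
    · exact Or.inl (by rw [e, inv_mul_cancel])
    · exact Or.inr ⟨hj, by rw [e]; group⟩

lemma adjG_inl (g h : Gp m) : ¬ AdjG m g (Sum.inl h) := by
  rintro ⟨j, e | ⟨_, e⟩⟩
  · cases e
  · cases e

lemma adjG_smul (a g : Gp m) (y : Vx m) : AdjG m (a * g) (a • y) ↔ AdjG m g y := by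
  rcases y with x | ⟨j, q⟩
  · constructor
    · intro h; exact absurd h (adjG_inl m _ _)
    · intro h; exact absurd h (adjG_inl m _ _)
  · induction q using QuotientGroup.induction_on with
    | H h =>
      have e : a • (Sum.inr ⟨j, QuotientGroup.mk h⟩ : Vx m)
          = Sum.inr ⟨j, QuotientGroup.mk (a * h)⟩ := rfl
      rw [e, A3_adj, A3_adj]
      have e1 : (a * h)⁻¹ * (a * g) = h⁻¹ * g := by group
      have e2 : (a * h)⁻¹ * (a * g * (gen m j)⁻¹) = h⁻¹ * (g * (gen m j)⁻¹) := by group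
      rw [e1, e2]

lemma A3_same {j : J} {g g' h : Gp m} (h1 : AdjG m g (Sum.inr ⟨j, QuotientGroup.mk h⟩))
    (h2 : AdjG m g' (Sum.inr ⟨j, QuotientGroup.mk h⟩)) : ∃ d, g' = g * ofJ m j d := by
  by_cases hj : m j = 0
  · rw [adjG_inf m hj] at h1 h2
    rcases h1 with rfl | rfl <;> rcases h2 with rfl | rfl
    · exact ⟨1, by simp⟩
    · exact ⟨Multiplicative.ofAdd 1, rfl⟩
    · refine ⟨(Multiplicative.ofAdd 1)⁻¹, ?_⟩
      rw [map_inv]
      show g' = g' * gen m j * (gen m j)⁻¹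
      rw [mul_inv_cancel_right]
    · exact ⟨1, by simp⟩
  · rw [adjG_fin m hj, A3_mem_fin m hj] at h1 h2
    obtain ⟨c, hc⟩ := h1
    obtain ⟨d, hd⟩ := h2
    refine ⟨c⁻¹ * d, ?_⟩
    rw [map_mul, map_inv, hc, hd]
    group

lemma A3_val_add (n : ℕ) (hn : n = 0) (x : ZMod n) :
    (x + 1).valMinAbs = x.valMinAbs + 1 := by
  subst hn; rfl

lemma A3_val_sub (n : ℕ) (hn : n = 0) (x : ZMod n) :
    (x - 1).valMinAbs = x.valMinAbs - 1 := by
  subst hn; rfl

lemma A3_val_zero (n : ℕ) (hn : n = 0) (x : ZMod n) (h : x.valMinAbs = 0) : x = 0 := by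
  subst hn; exact h

lemma A3_wt_inf {j : J} (hj : m j = 0) (c : Multiplicative (ZMod (m j))) :
    wt m j c = (ZMod.valMinAbs (Multiplicative.toAdd c)).natAbs := by
  unfold wt
  rw [if_pos hj]

lemma A3_wt_fin {j : J} (hj : m j ≠ 0) (c : Multiplicative (ZMod (m j))) (hc : c ≠ 1) :
    wt m j c = 1 := by
  unfold wt
  rw [if_neg hj, if_neg hc]

lemma A3_len_gen {len : Gp m → ℕ} {j : J} (hj : m j = 0) {g g₀ : Gp m}
    {c : Multiplicative (ZMod (m j))} (hg : g = g₀ * ofJ m j c) (hmin : MinAt m len j g₀) :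
    len g = len g₀ + (ZMod.valMinAbs (Multiplicative.toAdd c)).natAbs ∧
    len (g * gen m j) = len g₀ + (ZMod.valMinAbs (Multiplicative.toAdd c) + 1).natAbs ∧
    len (g * (gen m j)⁻¹) = len g₀ + (ZMod.valMinAbs (Multiplicative.toAdd c) - 1).natAbs := by
  refine ⟨?_, ?_, ?_⟩
  · rw [hg, hmin, A3_wt_inf m hj]
  · have e : g * gen m j = g₀ * ofJ m j (c * Multiplicative.ofAdd 1) := by
      rw [hg, map_mul, mul_assoc]; rfl
    rw [e, hmin, A3_wt_inf m hj]
    have : Multiplicative.toAdd (c * Multiplicative.ofAdd 1) = Multiplicative.toAdd c + 1 := rfl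
    rw [this, A3_val_add _ hj]
  · have e : g * (gen m j)⁻¹ = g₀ * ofJ m j (c * (Multiplicative.ofAdd 1)⁻¹) := by
      rw [hg, map_mul, mul_assoc, map_inv]; rfl
    rw [e, hmin, A3_wt_inf m hj]
    have : Multiplicative.toAdd (c * (Multiplicative.ofAdd 1)⁻¹) = Multiplicative.toAdd c - 1 := by
      rw [toAdd_mul, toAdd_inv, toAdd_ofAdd, sub_eq_add_neg]
    rw [this, A3_val_sub _ hj]

theorem exists_len (hm : ∀ j, m j ≠ 1) :
    ∃ len : Gp m → ℕ, (∀ g, len g = 0 ↔ g = 1) ∧
      (∀ (j : J) (q : Gp m ⧸ HJ m j), ∃ g₀, AdjG m g₀ (Sum.inr ⟨j, q⟩) ∧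
        ∀ g', AdjG m g' (Sum.inr ⟨j, q⟩) → g' ≠ g₀ → len g' = len g₀ + 1) ∧
      ∀ g, g ≠ 1 → ∃! y : Vx m, AdjG m g y ∧ ∃ g', AdjG m g' y ∧ len g' + 1 = len g := by
  obtain ⟨len, h1, h2, h3⟩ := nf_exists m
  refine ⟨len, h1, ?_, ?_⟩
  · intro j q
    induction q using QuotientGroup.induction_on with
    | H g =>
      obtain ⟨g₀, c, hg, hmin⟩ := h2 j g
      by_cases hj : m j = 0
      · obtain ⟨l1, l2, _⟩ := A3_len_gen m hj hg hmin
        rcases le_or_gt 0 (ZMod.valMinAbs (Multiplicative.toAdd c)) with hc | hc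
        · refine ⟨g, (adjG_inf m hj _ _).2 (Or.inl rfl), ?_⟩
          intro g' hg' hne
          rcases (adjG_inf m hj _ _).1 hg' with e | e
          · exact absurd e hne
          · rw [e, l1, l2]; omega
        · refine ⟨g * gen m j, (adjG_inf m hj _ _).2 (Or.inr rfl), ?_⟩
          intro g' hg' hne
          rcases (adjG_inf m hj _ _).1 hg' with e | e
          · rw [e, l1, l2]; omega
          · exact absurd e hne
      · refine ⟨g₀, ?_, ?_⟩
        · rw [adjG_fin m hj, A3_mem_fin m hj]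
          exact ⟨c⁻¹, by rw [map_inv, hg]; group⟩
        · intro g' hg' hne
          rw [adjG_fin m hj, A3_mem_fin m hj] at hg'
          obtain ⟨d, hd⟩ := hg'
          have e : g' = g₀ * ofJ m j (c * d) := by
            rw [map_mul, hd, hg]; group
          have hcd : c * d ≠ 1 := by
            intro h; rw [h, map_one, mul_one] at e; exact hne e
          rw [e, hmin, A3_wt_fin m hj _ hcd]
  · intro g hg1
    obtain ⟨j, ⟨g₀, c, hc, hg, hmin⟩, huniq⟩ := h3 g hg1
    have key : ∀ (j' : J) (h : Gp m), AdjG m g (Sum.inr ⟨j', QuotientGroup.mk h⟩) →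
        (∃ g', AdjG m g' (Sum.inr ⟨j', QuotientGroup.mk h⟩) ∧ len g' + 1 = len g) → j' = j := by
      rintro j' h ha ⟨g', hg', hl⟩
      obtain ⟨g₀', c', e', hmin'⟩ := h2 j' g
      refine huniq j' ⟨g₀', c', ?_, e', hmin'⟩
      rintro rfl
      rw [map_one, mul_one] at e'
      subst e'
      obtain ⟨d, hd⟩ := A3_same m ha hg'
      have := hmin' d
      rw [← hd] at this
      omega
    by_cases hj : m j = 0
    · obtain ⟨l1, l2, l3⟩ := A3_len_gen m hj hg hmin
      have hv : ZMod.valMinAbs (Multiplicative.toAdd c) ≠ 0 := by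
        intro h
        exact hc (A3_val_zero _ hj _ h)
      -- the two neighbours of `g` in the direction `j`
      have hnb : ∀ h, AdjG m g (Sum.inr ⟨j, QuotientGroup.mk h⟩) →
          (h = g ∨ h = g * (gen m j)⁻¹) := by
        intro h ha
        rcases (adjG_inf m hj _ _).1 ha with e | e
        · exact Or.inl e.symm
        · exact Or.inr (by rw [e, mul_inv_cancel_right])
      have A1 : (∃ g', AdjG m g' (Sum.inr ⟨j, QuotientGroup.mk g⟩) ∧ len g' + 1 = len g) →
          ZMod.valMinAbs (Multiplicative.toAdd c) < 0 := by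
        rintro ⟨g', ha, hl⟩
        rcases (adjG_inf m hj _ _).1 ha with e | e
        · rw [e] at hl; omega
        · rw [e, l1, l2] at hl; omega
      have A2 : (∃ g', AdjG m g' (Sum.inr ⟨j, QuotientGroup.mk (g * (gen m j)⁻¹)⟩) ∧
          len g' + 1 = len g) → 0 < ZMod.valMinAbs (Multiplicative.toAdd c) := by
        rintro ⟨g', ha, hl⟩
        rcases (adjG_inf m hj _ _).1 ha with e | e
        · rw [e, l1, l3] at hl; omega
        · rw [inv_mul_cancel_right] at e
          rw [e] at hl; omega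
      rcases lt_or_gt_of_ne hv with hneg | hpos
      · refine ⟨Sum.inr ⟨j, QuotientGroup.mk g⟩, ⟨(adjG_inf m hj _ _).2 (Or.inl rfl),
          g * gen m j, (adjG_inf m hj _ _).2 (Or.inr rfl), by rw [l1, l2]; omega⟩, ?_⟩
        rintro y ⟨hy1, hy2⟩
        rcases y with x | ⟨j', q⟩
        · exact absurd hy1 (adjG_inl m _ _)
        · induction q using QuotientGroup.induction_on with
          | H h =>
            have := key j' h hy1 hy2
            subst this
            rcases hnb h hy1 with rfl | rfl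
            · rfl
            · have := A2 hy2
              omega
      · refine ⟨Sum.inr ⟨j, QuotientGroup.mk (g * (gen m j)⁻¹)⟩,
          ⟨(adjG_inf m hj _ _).2 (Or.inr (by rw [inv_mul_cancel_right])),
          g * (gen m j)⁻¹, (adjG_inf m hj _ _).2 (Or.inl rfl), by rw [l1, l3]; omega⟩, ?_⟩
        rintro y ⟨hy1, hy2⟩
        rcases y with x | ⟨j', q⟩
        · exact absurd hy1 (adjG_inl m _ _)
        · induction q using QuotientGroup.induction_on with
          | H h =>
            have := key j' h hy1 hy2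
            subst this
            rcases hnb h hy1 with rfl | rfl
            · have := A1 hy2
              omega
            · rfl
    · refine ⟨Sum.inr ⟨j, QuotientGroup.mk g⟩, ⟨(adjG_fin m hj _ _).2 (by
        rw [inv_mul_cancel]; exact one_mem _), g₀, ?_, ?_⟩, ?_⟩
      · rw [adjG_fin m hj, A3_mem_fin m hj]
        exact ⟨c⁻¹, by rw [map_inv, hg]; group⟩
      · rw [hg, hmin, A3_wt_fin m hj _ hc]
      · rintro y ⟨hy1, hy2⟩
        rcases y with x | ⟨j', q⟩
        · exact absurd hy1 (adjG_inl m _ _)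
        · induction q using QuotientGroup.induction_on with
          | H h =>
            have := key j' h hy1 hy2
            subst this
            have h4 := (adjG_fin m hj _ _).1 hy1
            exact (A3_sigma_eq m).2 ⟨rfl, h4⟩

end FP
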