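import Pool.Agent.Lib.MP_2d4659_gt.FP.A1
import Pool.Agent.Lib.MP_2d4659_gt.FP.A3

/-!
# The tree of the free product

The rooted tree: level of `inl g` is `2 * len g`, its parent is the unique neighbour with a shorter
neighbour; level of `(j, q)` is `2 * len g₀ + 1` and its parent is `inl g₀`, `g₀` the shortest
neighbour.  Two vertices are adjacent in the rooted tree iff they are adjacent in the sense of `AdjG`.
-/

set_option autoImplicit false

namespace FP

variable {J : Type} (m : J → ℕ)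

/-- the length function -/
noncomputable def A4_len (hm : ∀ j, m j ≠ 1) : Gp m → ℕ := (exists_len m hm).choose

lemma A4_len_zero (hm : ∀ j, m j ≠ 1) (g : Gp m) : A4_len m hm g = 0 ↔ g = 1 :=
  (exists_len m hm).choose_spec.1 g

/-- the neighbour of least length -/
noncomputable def A4_g0 (hm : ∀ j, m j ≠ 1) (q : Σ j : J, Gp m ⧸ HJ m j) : Gp m :=
  ((exists_len m hm).choose_spec.2.1 q.1 q.2).choose

lemma A4_g0_adj (hm : ∀ j, m j ≠ 1) (q : Σ j : J, Gp m ⧸ HJ m j) :
    AdjG m (A4_g0 m hm q) (Sum.inr q) :=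
  ((exists_len m hm).choose_spec.2.1 q.1 q.2).choose_spec.1

lemma A4_g0_len (hm : ∀ j, m j ≠ 1) (q : Σ j : J, Gp m ⧸ HJ m j) (g : Gp m)
    (h : AdjG m g (Sum.inr q)) (hne : g ≠ A4_g0 m hm q) :
    A4_len m hm g = A4_len m hm (A4_g0 m hm q) + 1 :=
  ((exists_len m hm).choose_spec.2.1 q.1 q.2).choose_spec.2 g h hne

/-- the neighbour of `g ≠ 1` towards the root -/
noncomputable def A4_up (hm : ∀ j, m j ≠ 1) (g : Gp m) : Vx m :=
  open Classical in
  if h : g ≠ 1 then ((exists_len m hm).choose_spec.2.2 g h).choose else Sum.inl 1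

lemma A4_up_spec (hm : ∀ j, m j ≠ 1) (g : Gp m) (h : g ≠ 1) :
    AdjG m g (A4_up m hm g) ∧
      ∃ g', AdjG m g' (A4_up m hm g) ∧ A4_len m hm g' + 1 = A4_len m hm g := by
  have h1 := ((exists_len m hm).choose_spec.2.2 g h).choose_spec.1
  unfold A4_up
  rw [dif_pos h]
  exact h1

lemma A4_up_uniq (hm : ∀ j, m j ≠ 1) (g : Gp m) (h : g ≠ 1) (y : Vx m) (h1 : AdjG m g y)
    (g' : Gp m) (h2 : AdjG m g' y) (h3 : A4_len m hm g' + 1 = A4_len m hm g) :
    y = A4_up m hm g := by
  have h4 := ((exists_len m hm).choose_spec.2.2 g h).choose_spec.2 y ⟨h1, g', h2, h3⟩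
  unfold A4_up
  rw [dif_pos h]
  exact h4

lemma A4_adj_inr {g : Gp m} {y : Vx m} (h : AdjG m g y) : ∃ q, y = Sum.inr q := by
  obtain ⟨j, h | ⟨_, h⟩⟩ := h
  · exact ⟨_, h⟩
  · exact ⟨_, h⟩

/-- the rooted tree -/
noncomputable def A4_R (hm : ∀ j, m j ≠ 1) : RTree (Vx m) where
  par x := match x with
    | Sum.inl g => A4_up m hm g
    | Sum.inr q => Sum.inl (A4_g0 m hm q)
  lev x := match x with
    | Sum.inl g => 2 * A4_len m hm g
    | Sum.inr q => 2 * A4_len m hm (A4_g0 m hm q) + 1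
  root := Sum.inl 1
  lev_root := by
    intro x
    rcases x with g | q
    · have h1 := A4_len_zero m hm g
      constructor
      · intro h
        have h2 : 2 * A4_len m hm g = 0 := h
        exact congrArg Sum.inl (h1.1 (by omega))
      · intro h
        have h2 := h1.2 (Sum.inl.inj h)
        show 2 * A4_len m hm g = 0
        omega
    · constructor
      · intro h
        have h2 : 2 * A4_len m hm (A4_g0 m hm q) + 1 = 0 := h
        omega
      · intro h
        exact absurd h (by simp)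
  lev_par := by
    intro x hx
    rcases x with g | q
    · have hg : g ≠ 1 := by
        intro h
        apply hx
        show 2 * A4_len m hm g = 0
        rw [(A4_len_zero m hm g).2 h]
      obtain ⟨h1, g', h2, h3⟩ := A4_up_spec m hm g hg
      obtain ⟨q, hq⟩ := A4_adj_inr m h1
      show (match A4_up m hm g with
        | Sum.inl g => 2 * A4_len m hm g
        | Sum.inr q => 2 * A4_len m hm (A4_g0 m hm q) + 1) + 1 = 2 * A4_len m hm g
      rw [hq] at h1 h2 ⊢
      show 2 * A4_len m hm (A4_g0 m hm q) + 1 + 1 = 2 * A4_len m hm g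
      by_cases e1 : g = A4_g0 m hm q
      · by_cases e2 : g' = A4_g0 m hm q
        · rw [e1, e2] at h3
          omega
        · have := A4_g0_len m hm q g' h2 e2
          rw [e1] at h3
          omega
      · have := A4_g0_len m hm q g h1 e1
        omega
    · rfl

lemma A4_lev_inl (hm : ∀ j, m j ≠ 1) (g : Gp m) :
    (A4_R m hm).lev (Sum.inl g) = 2 * A4_len m hm g := rfl

lemma A4_lev_inr (hm : ∀ j, m j ≠ 1) (q : Σ j : J, Gp m ⧸ HJ m j) :
    (A4_R m hm).lev (Sum.inr q) = 2 * A4_len m hm (A4_g0 m hm q) + 1 := rfl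

lemma A4_par_inl (hm : ∀ j, m j ≠ 1) (g : Gp m) :
    (A4_R m hm).par (Sum.inl g) = A4_up m hm g := rfl

lemma A4_par_inr (hm : ∀ j, m j ≠ 1) (q : Σ j : J, Gp m ⧸ HJ m j) :
    (A4_R m hm).par (Sum.inr q) = Sum.inl (A4_g0 m hm q) := rfl

lemma A4_d_inl (hm : ∀ j, m j ≠ 1) (g : Gp m) (y : Vx m) :
    (A4_R m hm).d (Sum.inl g) y = 1 ↔ AdjG m g y := by
  rw [RTree.adj_iff]
  constructor
  · rintro (⟨h1, h2⟩ | ⟨h1, h2⟩)
    · have hg : g ≠ 1 := by
        intro h
        apply h1
        rw [A4_lev_inl, (A4_len_zero m hm g).2 h]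
      rw [h2, A4_par_inl]
      exact (A4_up_spec m hm g hg).1
    · rcases y with h | q
      · have hh : h ≠ 1 := by
          intro h3
          apply h1
          rw [A4_lev_inl, (A4_len_zero m hm h).2 h3]
        obtain ⟨q, hq⟩ := A4_adj_inr m (A4_up_spec m hm h hh).1
        rw [A4_par_inl, hq] at h2
        exact absurd h2 (by simp)
      · rw [A4_par_inr] at h2
        rw [Sum.inl.inj h2]
        exact A4_g0_adj m hm q
  · intro h
    obtain ⟨q, rfl⟩ := A4_adj_inr m h
    by_cases e1 : g = A4_g0 m hm q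
    · right
      refine ⟨?_, ?_⟩
      · rw [A4_lev_inr]
        omega
      · rw [A4_par_inr, e1]
    · left
      have h1 := A4_g0_len m hm q g h e1
      have hg : g ≠ 1 := by
        intro h2
        rw [(A4_len_zero m hm g).2 h2] at h1
        omega
      refine ⟨?_, ?_⟩
      · rw [A4_lev_inl]
        omega
      · rw [A4_par_inl]
        exact A4_up_uniq m hm g hg _ h _ (A4_g0_adj m hm q) h1.symm

lemma A4_d_inr (hm : ∀ j, m j ≠ 1) (q q' : Σ j : J, Gp m ⧸ HJ m j) :
    (A4_R m hm).d (Sum.inr q) (Sum.inr q') ≠ 1 := by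
  rw [Ne, RTree.adj_iff]
  rintro (⟨h1, h2⟩ | ⟨h1, h2⟩)
  · rw [A4_par_inr] at h2
    exact absurd h2 (by simp)
  · rw [A4_par_inr] at h2
    exact absurd h2 (by simp)

lemma A4_smul_inl (g h : Gp m) : g • (Sum.inl h : Vx m) = Sum.inl (g * h) := rfl

lemma A4_smul_inr (g : Gp m) (q : Σ j : J, Gp m ⧸ HJ m j) :
    g • (Sum.inr q : Vx m) = Sum.inr (g • q) := rfl

lemma A4_adj_smul (hm : ∀ j, m j ≠ 1) (g : Gp m) (x y : Vx m) (h : (A4_R m hm).d x y = 1) :
    (A4_R m hm).d (g • x) (g • y) = 1 := by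
  rcases x with a | q
  · rw [A4_d_inl] at h
    rw [A4_smul_inl, A4_d_inl]
    exact (adjG_smul m g a y).2 h
  · rcases y with b | q'
    · rw [RTree.symm, A4_d_inl] at h
      rw [RTree.symm, A4_smul_inl, A4_d_inl]
      exact (adjG_smul m g b _).2 h
    · exact absurd h (A4_d_inr m hm q q')

lemma A4_inv (hm : ∀ j, m j ≠ 1) (g : Gp m) (x y : Vx m) :
    (A4_R m hm).d (g • x) (g • y) = (A4_R m hm).d x y := by
  apply le_antisymm
  · exact RTree.lip _ (fun x => g • x) (fun x y h => A4_adj_smul m hm g x y h) x y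
  · have h := RTree.lip _ (fun x => g⁻¹ • x) (fun x y h => A4_adj_smul m hm g⁻¹ x y h)
      (g • x) (g • y)
    simp only [inv_smul_smul] at h
    exact h

lemma A4_d_mod (hm : ∀ j, m j ≠ 1) (x y : Vx m) :
    (A4_R m hm).d x y % 2 = ((A4_R m hm).lev x + (A4_R m hm).lev y) % 2 := by
  have h1 := RTree.ml_le (A4_R m hm) x y
  have h2 := RTree.ml_le (A4_R m hm) y x
  rw [RTree.ml_comm] at h2
  unfold RTree.d
  omega

lemma A4_lev_smul (hm : ∀ j, m j ≠ 1) (g : Gp m) (x : Vx m) :
    (A4_R m hm).lev (g • x) % 2 = (A4_R m hm).lev x % 2 := by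
  rcases x with a | q
  · rw [A4_smul_inl, A4_lev_inl, A4_lev_inl]
    omega
  · rw [A4_smul_inr, A4_lev_inr, A4_lev_inr]
    omega

lemma A4_adj_base (g : Gp m) (j : J) : AdjG m g (Sum.inr ⟨j, QuotientGroup.mk g⟩) :=
  ⟨j, Or.inl rfl⟩

lemma A4_nbr_fin [Finite J] (hm : ∀ j, m j ≠ 1) (t : Option J) :
    {y | (A4_R m hm).d (bs m t) y = 1}.Finite := by
  classical
  rcases t with _ | j
  · have h1 : {y | (A4_R m hm).d (bs m none) y = 1} ⊆
        Set.range (fun j : J => (Sum.inr ⟨j, QuotientGroup.mk 1⟩ : Vx m)) ∪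
        Set.range (fun j : J => (Sum.inr ⟨j, QuotientGroup.mk (1 * (gen m j)⁻¹)⟩ : Vx m)) := by
      intro y hy
      have h2 : (A4_R m hm).d (Sum.inl 1) y = 1 := hy
      rw [A4_d_inl] at h2
      obtain ⟨j, h3 | ⟨_, h3⟩⟩ := h2
      · exact Or.inl ⟨j, h3.symm⟩
      · exact Or.inr ⟨j, h3.symm⟩
    exact ((Set.finite_range _).union (Set.finite_range _)).subset h1
  · have h0 : {g : Gp m | AdjG m g (Sum.inr ⟨j, QuotientGroup.mk 1⟩)}.Finite := by
      by_cases hj : m j = 0
      · refine (Set.toFinite ({1, 1 * gen m j} : Set (Gp m))).subset ?_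
        intro g hg
        exact (adjG_inf m hj g 1).1 hg
      · have h1 : (HJ m j : Set (Gp m)).Finite := by
          have := HT_finite (m := m) (some j)
          exact Set.toFinite (HT m (some j) : Set (Gp m))
        refine h1.subset ?_
        intro g hg
        have h2 := (adjG_fin m hj g 1).1 hg
        rw [inv_one, one_mul] at h2
        exact h2
    refine (h0.image Sum.inl).subset ?_
    intro y hy
    have h2 : (A4_R m hm).d (Sum.inr ⟨j, QuotientGroup.mk 1⟩) y = 1 := hy
    rcases y with g | q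
    · rw [RTree.symm, A4_d_inl] at h2
      exact ⟨g, h2, rfl⟩
    · exact absurd h2 (A4_d_inr m hm _ q)

/-- the distance function of the tree with its properties -/
theorem exists_tree [Finite J] [Nonempty J] (hm : ∀ j, m j ≠ 1) :
    ∃ 𝕋 : TreeD (Gp m) (Vx m) (Option J), 𝕋.b = bs m ∧ 𝕋.o = none ∧
      ∀ (g : Gp m) (y : Vx m), 𝕋.d (Sum.inl g) y = 1 ↔ AdjG m g y := by
  refine ⟨{
    d := (A4_R m hm).d
    b := bs m
    o := none
    d_self := (A4_R m hm).d_self
    eq_of_d := (A4_R m hm).eq_of_d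
    symm := (A4_R m hm).symm
    tri := (A4_R m hm).tri
    four := (A4_R m hm).four
    parity := (A4_R m hm).parity
    step := (A4_R m hm).step
    inv := A4_inv m hm
    cover := ?_
    disj := ?_
    even_b := ?_
    stab_fin := ?_
    nbr_fin := A4_nbr_fin m hm
    nbr_ex := ?_
    edge := ?_ }, rfl, rfl, fun g y => A4_d_inl m hm g y⟩
  · intro x
    obtain ⟨g, hg⟩ := exists_smul_bs x
    exact ⟨g, _, hg⟩
  · intro g s t h
    have h1 := congrArg ty h
    rw [ty_smul, ty_bs, ty_bs] at h1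
    exact h1
  · intro t g
    rw [A4_d_mod]
    have := A4_lev_smul m hm g (bs m t)
    omega
  · intro t
    have h1 := HT_finite (m := m) t
    refine (Set.toFinite (HT m t : Set (Gp m))).subset ?_
    intro g hg
    exact (stab_bs g t).1 hg
  · intro t
    rcases t with _ | j
    · obtain ⟨j⟩ := ‹Nonempty J›
      exact ⟨_, (A4_d_inl m hm 1 _).2 (A4_adj_base m 1 j)⟩
    · refine ⟨Sum.inl 1, ?_⟩
      rw [RTree.symm]
      exact (A4_d_inl m hm 1 _).2 (A4_adj_base m 1 j)
  · intro g x y h hx hy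
    rcases x with a | q
    · rw [A4_smul_inl] at hx
      exact mul_eq_right.1 (Sum.inl.inj hx)
    · rcases y with b | q'
      · rw [A4_smul_inl] at hy
        exact mul_eq_right.1 (Sum.inl.inj hy)
      · exact absurd h (A4_d_inr m hm q q')

/-- the tree -/
noncomputable def tree [Finite J] [Nonempty J] (hm : ∀ j, m j ≠ 1) :
    TreeD (Gp m) (Vx m) (Option J) := (exists_tree m hm).choose

lemma tree_b [Finite J] [Nonempty J] (hm : ∀ j, m j ≠ 1) : (tree m hm).b = bs m :=
  (exists_tree m hm).choose_spec.1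

lemma tree_o [Finite J] [Nonempty J] (hm : ∀ j, m j ≠ 1) : (tree m hm).o = none :=
  (exists_tree m hm).choose_spec.2.1

lemma tree_adj [Finite J] [Nonempty J] (hm : ∀ j, m j ≠ 1) (g : Gp m) (y : Vx m) :
    (tree m hm).d (Sum.inl g) y = 1 ↔ AdjG m g y :=
  (exists_tree m hm).choose_spec.2.2 g y

/-- the points at distance less than two from the base vertex of a finite factor -/
lemma tree_ball_fin [Finite J] [Nonempty J] (hm : ∀ j, m j ≠ 1) {j : J} (hj : m j ≠ 0) (g : Gp m) :
    (tree m hm).d (bs m (some j)) (Sum.inl g) < 2 ↔ g ∈ HJ m j := by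
  have h1 : (tree m hm).d (Sum.inl 1) (bs m (some j)) = 1 :=
    (tree_adj m hm 1 _).2 (A4_adj_base m 1 j)
  have h2 := (tree m hm).even_b none g
  have h3 := (tree m hm).parity (bs m (some j)) (Sum.inl 1) (Sum.inl g)
  have h4 : g • (tree m hm).b none = Sum.inl g := by
    rw [tree_b]
    exact smul_bs_none g
  have h5 : (tree m hm).b none = Sum.inl 1 := by
    rw [tree_b]
    rfl
  rw [h4, h5] at h2
  rw [(tree m hm).symm (bs m (some j)) (Sum.inl 1), h1] at h3
  have h6 : (tree m hm).d (bs m (some j)) (Sum.inl g) < 2 ↔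
      (tree m hm).d (Sum.inl g) (bs m (some j)) = 1 := by
    rw [(tree m hm).symm (Sum.inl g) (bs m (some j))]
    omega
  rw [h6, tree_adj]
  have h7 := adjG_fin m hj g 1
  rw [inv_one, one_mul] at h7
  exact h7

end FP
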