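import Mathlib

/-!
# Trees with a group action

`TreeD G X T` is a `G`-tree with vertex set `X`, given by its distance function; `T` indexes the
orbits, `b t` is the base vertex of the orbit `t`, and `b o` is the base vertex of a distinguished
orbit.  This file only contains elementary facts on distances (everything is `omega` after
instantiating the axioms).
-/

set_option autoImplicit false

namespace FP

/-- A tree with an action of `G` which is given by its distance. -/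
structure TreeD (G X T : Type) [Group G] [MulAction G X] where
  /-- the distance -/
  d : X → X → ℕ
  /-- the base vertices -/
  b : T → X
  /-- the distinguished orbit -/
  o : T
  d_self : ∀ x, d x x = 0
  eq_of_d : ∀ x y, d x y = 0 → x = y
  symm : ∀ x y, d x y = d y x
  tri : ∀ x y z, d x z ≤ d x y + d y z
  four : ∀ x y z w, d x y + d z w ≤ max (d x z + d y w) (d x w + d y z)
  parity : ∀ x y z, (d x y + d y z + d x z) % 2 = 0
  step : ∀ x y, x ≠ y → ∃ x', d x x' = 1 ∧ d x' y + 1 = d x y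
  inv : ∀ (g : G) (x y : X), d (g • x) (g • y) = d x y
  cover : ∀ x, ∃ (g : G) (t : T), x = g • b t
  disj : ∀ (g : G) (s t : T), g • b s = b t → s = t
  even_b : ∀ (t : T) (g : G), d (b t) (g • b t) % 2 = 0
  stab_fin : ∀ t : T, {g : G | g • b t = b t}.Finite
  nbr_fin : ∀ t : T, {y | d (b t) y = 1}.Finite
  nbr_ex : ∀ t : T, ∃ y, d (b t) y = 1
  edge : ∀ (g : G) (x y : X), d x y = 1 → g • x = x → g • y = y → g = 1

namespace TreeD

variable {G X T : Type} [Group G] [MulAction G X] (𝕋 : TreeD G X T)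

lemma adj_cases {x y : X} (h : 𝕋.d x y = 1) (z : X) :
    𝕋.d x z = 𝕋.d y z + 1 ∨ 𝕋.d y z = 𝕋.d x z + 1 := by
  have h1 := 𝕋.tri x y z
  have h2 := 𝕋.tri y x z
  have h3 := 𝕋.parity x y z
  have h4 := 𝕋.symm y x
  omega

lemma adj_unique {x y y' z : X} (h : 𝕋.d x y = 1) (h' : 𝕋.d x y' = 1)
    (hz : 𝕋.d y z + 1 = 𝕋.d x z) (hz' : 𝕋.d y' z + 1 = 𝕋.d x z) : y = y' := by
  have h1 := 𝕋.four y y' x z
  have h2 := 𝕋.symm y x
  have h3 := 𝕋.symm y' x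
  have h4 : max (𝕋.d y x + 𝕋.d y' z) (𝕋.d y z + 𝕋.d y' x) = 𝕋.d x z := by
    rw [h2, h3, h, h']
    omega
  rw [h4] at h1
  exact 𝕋.eq_of_d _ _ (by omega)

/-- if `y` is the neighbour of `x` towards `v` and `z` is on the other side, then `x` is between
`v` and `z` -/
lemma far {x y v z : X} (h : 𝕋.d x y = 1) (hv : 𝕋.d y v + 1 = 𝕋.d x v)
    (hz : 𝕋.d y z = 𝕋.d x z + 1) : 𝕋.d v z = 𝕋.d v x + 𝕋.d x z := by
  have h1 := 𝕋.four y z x v
  have h2 := 𝕋.tri v x z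
  have h3 := 𝕋.symm y x
  have h4 := 𝕋.symm z v
  have h5 := 𝕋.symm z x
  have h6 := 𝕋.symm v x
  rcases le_max_iff.1 h1 with h7 | h7 <;> omega

lemma btw {v x y z : X} (hx : 𝕋.d v x + 𝕋.d x z = 𝕋.d v z) (hy : 𝕋.d v y + 𝕋.d y z = 𝕋.d v z) :
    𝕋.d v x = 𝕋.d v y + 𝕋.d y x ∨ 𝕋.d v y = 𝕋.d v x + 𝕋.d x y := by
  have h1 := 𝕋.four v z x y
  have h2 := 𝕋.symm z y
  have h3 := 𝕋.symm z x
  have h4 := 𝕋.symm x y
  have h5 := 𝕋.tri v x y
  have h6 := 𝕋.tri v y x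
  rcases le_max_iff.1 h1 with h7 | h7
  · left; omega
  · right; omega

lemma past {x y v z : X} (h : 𝕋.d x y = 1) (hv : 𝕋.d y v + 1 = 𝕋.d x v)
    (hz : 𝕋.d v z = 𝕋.d v x + 𝕋.d x z) : 𝕋.d y z = 𝕋.d x z + 1 := by
  have h1 := 𝕋.tri v y z
  have h2 := 𝕋.symm v y
  have h3 := 𝕋.symm v x
  rcases 𝕋.adj_cases h z with h4 | h4 <;> omega

/-- the ball around `y` of radius `r - d x y` only meets the sphere of radius `r` around `x` behind
`y` -/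
lemma cone {x y y' z : X} {r : ℕ} (h : 𝕋.d x y' = 1) (hy : 𝕋.d y' y + 1 = 𝕋.d x y)
    (hr : 𝕋.d x y + 𝕋.d y z ≤ r) (hz : 𝕋.d x z = r) : 𝕋.d y' z + 1 = 𝕋.d x z := by
  have h1 := 𝕋.tri y' y z
  rcases 𝕋.adj_cases h z with h4 | h4 <;> omega

lemma parity_o (x : X) (g h : G) :
    𝕋.d x (g • 𝕋.b 𝕋.o) % 2 = 𝕋.d x (h • 𝕋.b 𝕋.o) % 2 := by
  have h1 := 𝕋.parity x (g • 𝕋.b 𝕋.o) (h • 𝕋.b 𝕋.o)
  have h2 : 𝕋.d (g • 𝕋.b 𝕋.o) (h • 𝕋.b 𝕋.o) % 2 = 0 := by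
    have h3 := 𝕋.even_b 𝕋.o (g⁻¹ * h)
    have h4 := 𝕋.inv g (𝕋.b 𝕋.o) ((g⁻¹ * h) • 𝕋.b 𝕋.o)
    rw [smul_smul, mul_inv_cancel_left] at h4
    rw [h4]
    exact h3
  omega

lemma type_ne {s t : T} {g : G} (h : 𝕋.d (𝕋.b s) (g • 𝕋.b t) = 1) : s ≠ t := by
  rintro rfl
  have := 𝕋.even_b s g
  omega

lemma ne_of_adj {x y : X} (h : 𝕋.d x y = 1) : x ≠ y := by
  rintro rfl
  have := 𝕋.d_self x
  omega

lemma nbr_ex' (x : X) : ∃ y, 𝕋.d x y = 1 := by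
  obtain ⟨g, t, rfl⟩ := 𝕋.cover x
  obtain ⟨y, hy⟩ := 𝕋.nbr_ex t
  exact ⟨g • y, by rw [𝕋.inv]; exact hy⟩

lemma smul_cancel {g h : G} {y : X} {t : T} (hx : g • 𝕋.b t = h • 𝕋.b t) (hy : 𝕋.d (𝕋.b t) y = 1)
    (hyy : g • y = h • y) : g = h := by
  have h1 : h⁻¹ * g = 1 := by
    refine 𝕋.edge (h⁻¹ * g) (𝕋.b t) y hy ?_ ?_
    · rw [mul_smul, hx, inv_smul_smul]
    · rw [mul_smul, hyy, inv_smul_smul]
  exact (inv_mul_eq_one.1 h1).symm

lemma card_stab_pos (t : T) : 0 < Nat.card {g : G // g • 𝕋.b t = 𝕋.b t} := by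
  haveI : Finite {g : G // g • 𝕋.b t = 𝕋.b t} := (𝕋.stab_fin t).to_subtype
  haveI : Nonempty {g : G // g • 𝕋.b t = 𝕋.b t} := ⟨⟨1, one_smul _ _⟩⟩
  exact Nat.card_pos

end TreeD

end FP
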