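import Pool.Agent.Lib.MP_2d4659_gt.FP.B4

/-! # Transfers: the measure -/

set_option autoImplicit false

namespace FP

variable {k G X T E L : Type} [Field k] [Group G] [MulAction G X] [AddCommGroup E] [Module k E]
  [AddCommGroup L] [Module k L]

variable (𝕋 : TreeD G X T) {ρ : G →* (L →ₗ[k] L)} {f : L →ₗ[k] (G →₀ E)} {V : X → Submodule k L}

open Classical in
/-- rank of the common kernel of finitely many functionals with a dual system in `B` -/
lemma B8_rank (B K : Submodule k L) [FiniteDimensional k B] {ι : Type} [Fintype ι]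
    (l : ι → (L →ₗ[k] k)) (w : ι → L) (hw : ∀ i, w i ∈ B)
    (hδ : ∀ i j, l i (w j) = if i = j then 1 else 0)
    (hK : ∀ u ∈ B, u ∈ K ↔ ∀ i, l i u = 0) :
    Module.finrank k (B ⊓ K : Submodule k L) + Fintype.card ι = Module.finrank k B := by
  let Φ : B →ₗ[k] (ι → k) := LinearMap.pi (fun i => (l i) ∘ₗ B.subtype)
  have hΦ : ∀ (u : B) i, Φ u i = l i u := fun u i => rfl
  have h1 : LinearMap.range Φ = ⊤ := by
    rw [LinearMap.range_eq_top]
    intro c
    refine ⟨∑ i, c i • (⟨w i, hw i⟩ : B), ?_⟩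
    funext j
    rw [hΦ]
    have h2 : ((∑ i, c i • (⟨w i, hw i⟩ : B) : B) : L) = ∑ i, c i • w i := by
      rw [Submodule.coe_sum]
      rfl
    rw [h2, map_sum, Finset.sum_eq_single j]
    · rw [map_smul, hδ, if_pos rfl, smul_eq_mul, mul_one]
    · intro i _ hi
      rw [map_smul, hδ, if_neg (Ne.symm hi), smul_zero]
    · intro h
      exact absurd (Finset.mem_univ _) h
  have h2 : (LinearMap.ker Φ).map B.subtype = B ⊓ K := by
    ext u
    constructor
    · rintro ⟨u', hu', rfl⟩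
      refine ⟨u'.2, (hK _ u'.2).2 fun i => ?_⟩
      have h3 : Φ u' = 0 := hu'
      rw [← hΦ, h3]
      rfl
    · rintro ⟨hu1, hu2⟩
      refine ⟨⟨u, hu1⟩, ?_, rfl⟩
      show Φ ⟨u, hu1⟩ = 0
      funext i
      rw [hΦ]
      exact (hK u hu1).1 hu2 i
  have h3 := LinearMap.finrank_range_add_finrank_ker Φ
  rw [h1, finrank_top, Module.finrank_fintype_fun_eq_card] at h3
  rw [← h2, Submodule.finrank_map_subtype_eq]
  omega

lemma B8_W_congr {V' : X → Submodule k L} {x : X} (h : V' x = V x) (q : ℕ) :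
    W 𝕋 f V' x q = W 𝕋 f V x q := by
  ext u
  show (u ∈ V' x ∧ _) ↔ (u ∈ V x ∧ _)
  rw [h]

/-- pure arithmetic: the sums of the indicator terms -/
lemma B8_sum_le {N r c : ℕ} (h : r < N) :
    ∑ q ∈ Finset.range N, (if q ≤ r then c else 0) = c * (r + 1) := by
  rw [← Finset.sum_filter, Finset.sum_const, smul_eq_mul, mul_comm]
  congr 1
  have h1 : (Finset.range N).filter (fun q => q ≤ r) = Finset.range (r + 1) := by
    ext q
    simp only [Finset.mem_filter, Finset.mem_range]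
    omega
  rw [h1, Finset.card_range]

lemma B8_sum_lt {N r c : ℕ} (h : r < N) :
    ∑ q ∈ Finset.range N, (if q < r then c else 0) = c * r := by
  rw [← Finset.sum_filter, Finset.sum_const, smul_eq_mul, mul_comm]
  congr 1
  have h1 : (Finset.range N).filter (fun q => q < r) = Finset.range r := by
    ext q
    simp only [Finset.mem_filter, Finset.mem_range]
    omega
  rw [h1, Finset.card_range]

/-- the image of `v` is supported in the ball of radius `r` around `x₁` -/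
lemma B8_ball (hV : IsFrame ρ V) {t : T} {x₁ : X} {v : L} {r : ℕ}
    (hadj : 𝕋.d (𝕋.b t) x₁ = 1) (hv : v ∈ W 𝕋 f V (𝕋.b t) (r + 1))
    (hdir : ∀ g : G, 𝕋.d (𝕋.b t) (g • 𝕋.b 𝕋.o) = r → 𝕋.d x₁ (g • 𝕋.b 𝕋.o) = r + 1 → f v g = 0)
    (hr : v ∉ W 𝕋 f V (𝕋.b t) r) (g : G) (hg : r ≤ 𝕋.d x₁ (g • 𝕋.b 𝕋.o)) : f v g = 0 := by
  have h1 : ∃ g₀ : G, 𝕋.d (𝕋.b t) (g₀ • 𝕋.b 𝕋.o) = r := by
    by_contra hcon
    push Not at hcon
    apply hr
    refine ⟨hv.1, fun g hg => ?_⟩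
    have h2 := hcon g
    exact hv.2 g (by omega)
  obtain ⟨g₀, hg₀⟩ := h1
  have h2 := 𝕋.parity_o (𝕋.b t) g g₀
  rcases 𝕋.adj_cases hadj (g • 𝕋.b 𝕋.o) with h3 | h3
  · exact hv.2 g (by omega)
  · by_cases h4 : 𝕋.d (𝕋.b t) (g • 𝕋.b 𝕋.o) = r
    · exact hdir g h4 (by omega)
    · exact hv.2 g (by omega)

/-- Base level.  At the orbit `t` the sum over `r < N` of the codimensions drops by
`(r + 1) * cst t`, at the orbit of `x₁` it grows by at most `r * cst s` (because `v` lies in the new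
`W x₁ r`, by parity of distances). -/
theorem transfer_measure [Fintype T] (hf : EquivF ρ f) (hV : IsFrame ρ V) {t : T} {x₁ : X}
    {lam : L →ₗ[k] k} {v : L} {r N : ℕ} (hB : Bdd 𝕋 f V N)
    (hadj : 𝕋.d (𝕋.b t) x₁ = 1) (hv : v ∈ W 𝕋 f V (𝕋.b t) (r + 1)) (hlam : SuppAt V lam (𝕋.b t))
    (h1 : lam v = 1) (h2 : ∀ g : G, g • 𝕋.b t = 𝕋.b t → g ≠ 1 → lam (ρ g v) = 0)
    (hlW : ∀ u ∈ W 𝕋 f V (𝕋.b t) r, lam u = 0)
    (hdir : ∀ g : G, 𝕋.d (𝕋.b t) (g • 𝕋.b 𝕋.o) = r → 𝕋.d x₁ (g • 𝕋.b 𝕋.o) = r + 1 → f v g = 0)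
    (hr : v ∉ W 𝕋 f V (𝕋.b t) r) :
    Bdd 𝕋 f (transferV ρ V lam v x₁) N ∧
      mu 𝕋 f (transferV ρ V lam v x₁) N < mu 𝕋 f V N := by
  classical
  -- preliminaries
  have hvV : v ∈ V (𝕋.b t) := hv.1
  obtain ⟨a, s, hs⟩ := 𝕋.cover x₁
  have hst : s ≠ t := by
    rw [hs] at hadj
    exact (𝕋.type_ne hadj).symm
  have hfr := transfer_frame 𝕋 hV hadj hvV hlam h1 h2
  have hball := B8_ball 𝕋 hV hadj hv hdir hr
  have hrN : r < N := by
    by_contra hcon
    apply hr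
    refine ⟨hvV, fun g hg => hB t v hvV g (by omega)⟩
  set K : Submodule k L := ⨅ h : G, LinearMap.ker (lam ∘ₗ ρ h) with hKdef
  have hKmem : ∀ u, u ∈ K ↔ ∀ h : G, lam (ρ h u) = 0 := fun u => B4_mem_inf u
  have hVt : transferV ρ V lam v x₁ (𝕋.b t) = V (𝕋.b t) ⊓ K := transferV_same 𝕋 hV hadj
  set U : Submodule k L := Submodule.span k {u | ∃ h : G, h • x₁ = 𝕋.b s ∧ u = ρ h v} with hUdef
  have hVs : transferV ρ V lam v x₁ (𝕋.b s) = V (𝕋.b s) ⊔ U := transferV_nbr 𝕋 hV hadj hs hlam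
  have hVo : ∀ i, i ≠ s → i ≠ t → transferV ρ V lam v x₁ (𝕋.b i) = V (𝕋.b i) :=
    fun i h3 h4 => transferV_other 𝕋 hV hs hlam h3 h4
  -- elements of `U`
  have hUf : ∀ u ∈ U, ∀ g : G, r ≤ 𝕋.d (𝕋.b s) (g • 𝕋.b 𝕋.o) → f u g = 0 := by
    intro u hu g hg
    induction hu using Submodule.span_induction with
    | mem u hu =>
      obtain ⟨h, hh, rfl⟩ := hu
      have h3 : f (ρ h v) g = f v (h⁻¹ * g) := by
        have h4 := hf h v (h⁻¹ * g)
        rwa [mul_inv_cancel_left] at h4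
      rw [h3]
      apply hball
      rw [← 𝕋.inv h, hh, smul_smul, mul_inv_cancel_left]
      exact hg
    | zero => rw [map_zero, Finsupp.zero_apply]
    | add a b _ _ ha hb => rw [map_add, Finsupp.add_apply, ha, hb, add_zero]
    | smul c a _ ha => rw [map_smul, Finsupp.smul_apply, ha, smul_zero]
  have hBdd : Bdd 𝕋 f (transferV ρ V lam v x₁) N := by
    intro i u hu g hg
    by_cases hit : i = t
    · subst hit
      rw [hVt] at hu
      exact hB i u hu.1 g hg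
    · by_cases his : i = s
      · subst his
        rw [hVs] at hu
        obtain ⟨p, hp, q, hq, rfl⟩ := Submodule.mem_sup.1 hu
        rw [map_add, Finsupp.add_apply, hB i p hp g hg, hUf q hq g (by omega), add_zero]
      · rw [hVo i his hit] at hu
        exact hB i u hu g hg
  refine ⟨hBdd, ?_⟩
  -- finite dimensionality
  have fV : ∀ x, FiniteDimensional k (V x) := hV.fin
  have fV' : ∀ x, FiniteDimensional k (transferV ρ V lam v x₁ x) := hfr.fin
  have fW : ∀ x q, FiniteDimensional k (W 𝕋 f V x q) := fun x q =>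
    Submodule.finiteDimensional_of_le (W_le 𝕋)
  -- the stabiliser of `b t`
  have finT : Finite {g : G // g • 𝕋.b t = 𝕋.b t} := 𝕋.stab_fin t
  have finS : Finite {g : G // g • 𝕋.b s = 𝕋.b s} := 𝕋.stab_fin s
  let _ : Fintype {g : G // g • 𝕋.b t = 𝕋.b t} := Fintype.ofFinite _
  let _ : Fintype {g : G // g • 𝕋.b s = 𝕋.b s} := Fintype.ofFinite _
  have hct : cst 𝕋 t = Fintype.card {g : G // g • 𝕋.b t = 𝕋.b t} := Nat.card_eq_fintype_card
  have hcs : cst 𝕋 s = Fintype.card {g : G // g • 𝕋.b s = 𝕋.b s} := Nat.card_eq_fintype_card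
  have hδ := B4_delta 𝕋 hV hvV hlam h1 h2
  -- the rank of the intersection with `K`
  have hrank : ∀ B : Submodule k L, FiniteDimensional k B → B ≤ V (𝕋.b t) →
      (∀ g : {g : G // g • 𝕋.b t = 𝕋.b t}, ρ g.1 v ∈ B) →
      Module.finrank k (B ⊓ K : Submodule k L) + cst 𝕋 t = Module.finrank k B := by
    intro B hB1 hB2 hB3
    rw [hct]
    refine B8_rank B K (fun g : {g : G // g • 𝕋.b t = 𝕋.b t} => lam ∘ₗ ρ g.1⁻¹)
      (fun g => ρ g.1 v) hB3 ?_ ?_
    · intro i j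
      show lam (ρ i.1⁻¹ (ρ j.1 v)) = _
      rw [← rho_mul, hδ]
      by_cases hij : i = j
      · rw [if_pos hij, if_pos]
        rw [hij, inv_mul_cancel]
      · rw [if_neg hij, if_neg]
        intro h3
        exact hij (Subtype.ext (inv_mul_eq_one.1 h3))
    · intro u hu
      rw [hKmem]
      constructor
      · intro h3 i
        exact h3 _
      · intro h3 h
        by_cases hh : h • 𝕋.b t = 𝕋.b t
        · have hh' : h⁻¹ • 𝕋.b t = 𝕋.b t := by
            rw [inv_smul_eq_iff]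
            exact hh.symm
          have h4 := h3 ⟨h⁻¹, hh'⟩
          have h5 : lam (ρ h⁻¹⁻¹ u) = 0 := h4
          rwa [inv_inv] at h5
        · exact hlam _ hh _ ((hV.mem_smul h).2 (hB2 hu))
  -- the codimensions at `t`
  have hcodT : ∀ q, (Module.finrank k (transferV ρ V lam v x₁ (𝕋.b t)) -
      Module.finrank k (W 𝕋 f (transferV ρ V lam v x₁) (𝕋.b t) q)) +
      (if q ≤ r then cst 𝕋 t else 0) =
      Module.finrank k (V (𝕋.b t)) - Module.finrank k (W 𝕋 f V (𝕋.b t) q) := by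
    intro q
    have hW' : W 𝕋 f (transferV ρ V lam v x₁) (𝕋.b t) q = W 𝕋 f V (𝕋.b t) q ⊓ K := by
      ext u
      show (u ∈ transferV ρ V lam v x₁ (𝕋.b t) ∧ _) ↔ (u ∈ V (𝕋.b t) ∧ _) ∧ u ∈ K
      rw [hVt, Submodule.mem_inf]
      tauto
    have e1 := hrank (V (𝕋.b t)) (fV _) (le_refl _) (fun g => by
      have h3 := (hV.mem_smul g.1).2 hvV
      rwa [g.2] at h3)
    rw [hW', hVt]
    by_cases hq : q ≤ r
    · rw [if_pos hq]
      have h3 : W 𝕋 f V (𝕋.b t) q ≤ K := by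
        intro u hu
        rw [hKmem]
        intro h
        by_cases hh : h • 𝕋.b t = 𝕋.b t
        · apply hlW
          apply W_mono 𝕋 hq
          have h4 := (W_smul 𝕋 hf hV h (𝕋.b t) q u).2 hu
          rwa [hh] at h4
        · exact hlam _ hh _ ((hV.mem_smul h).2 hu.1)
      have h4 : W 𝕋 f V (𝕋.b t) q ⊓ K = W 𝕋 f V (𝕋.b t) q := inf_eq_left.2 h3
      have f1 : FiniteDimensional k (V (𝕋.b t) ⊓ K : Submodule k L) :=
        Submodule.finiteDimensional_of_le inf_le_left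
      have h5 : Module.finrank k (W 𝕋 f V (𝕋.b t) q) ≤
          Module.finrank k (V (𝕋.b t) ⊓ K : Submodule k L) :=
        Submodule.finrank_mono (le_inf (W_le 𝕋) h3)
      rw [h4]
      omega
    · rw [if_neg hq]
      have e2 := hrank (W 𝕋 f V (𝕋.b t) q) (fW _ _) (W_le 𝕋) (fun g => by
        have h3 := (W_smul 𝕋 hf hV g.1 (𝕋.b t) q v).2 (W_mono 𝕋 (by omega) hv)
        rwa [g.2] at h3)
      omega
  -- the codimensions at `s`
  have hUrank : Module.finrank k U ≤ cst 𝕋 s := by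
    have h3 : U = Submodule.span k
        (Set.range (fun g : {g : G // g • 𝕋.b s = 𝕋.b s} => ρ (g.1 * a⁻¹) v)) := by
      rw [hUdef]
      refine congrArg _ ?_
      ext u
      constructor
      · rintro ⟨h, hh, rfl⟩
        refine ⟨⟨h * a, ?_⟩, ?_⟩
        · rw [mul_smul, ← hs, hh]
        · show ρ (h * a * a⁻¹) v = ρ h v
          rw [mul_inv_cancel_right]
      · rintro ⟨g, rfl⟩
        refine ⟨g.1 * a⁻¹, ?_, rfl⟩
        rw [mul_smul, hs, inv_smul_smul, g.2]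
    rw [h3, hcs]
    exact finrank_range_le_card _
  have fU : FiniteDimensional k U := by
    rw [hUdef]
    refine FiniteDimensional.span_of_finite k (((B4_fin 𝕋 x₁ (𝕋.b s)).image
      (fun h => ρ h v)).subset ?_)
    rintro u ⟨h, hh, rfl⟩
    exact ⟨h, hh, rfl⟩
  have hcodS : ∀ q, (Module.finrank k (transferV ρ V lam v x₁ (𝕋.b s)) -
      Module.finrank k (W 𝕋 f (transferV ρ V lam v x₁) (𝕋.b s) q)) ≤
      (Module.finrank k (V (𝕋.b s)) - Module.finrank k (W 𝕋 f V (𝕋.b s) q)) +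
      (if q < r then cst 𝕋 s else 0) := by
    intro q
    have fW' : FiniteDimensional k (W 𝕋 f (transferV ρ V lam v x₁) (𝕋.b s) q) := by
      have := fV' (𝕋.b s)
      exact Submodule.finiteDimensional_of_le (W_le 𝕋)
    have hWW : W 𝕋 f V (𝕋.b s) q ≤ W 𝕋 f (transferV ρ V lam v x₁) (𝕋.b s) q := by
      intro u hu
      refine ⟨?_, hu.2⟩
      rw [hVs]
      exact Submodule.mem_sup_left hu.1
    have e0 : Module.finrank k (W 𝕋 f V (𝕋.b s) q) ≤ Module.finrank k (V (𝕋.b s)) :=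
      Submodule.finrank_mono (W_le 𝕋)
    have e1 := Submodule.finrank_sup_add_finrank_inf_eq (V (𝕋.b s)) U
    rw [hVs]
    by_cases hq : q < r
    · rw [if_pos hq]
      have e2 := Submodule.finrank_mono hWW
      omega
    · rw [if_neg hq]
      have e2 := Submodule.finrank_sup_add_finrank_inf_eq (W 𝕋 f V (𝕋.b s) q) U
      have h3 : W 𝕋 f V (𝕋.b s) q ⊔ U ≤ W 𝕋 f (transferV ρ V lam v x₁) (𝕋.b s) q := by
        refine sup_le hWW ?_
        intro u hu
        refine ⟨?_, fun g hg => hUf u hu g (by omega)⟩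
        rw [hVs]
        exact Submodule.mem_sup_right hu
      have e3 := Submodule.finrank_mono h3
      have f1 : FiniteDimensional k (V (𝕋.b s) ⊓ U : Submodule k L) :=
        Submodule.finiteDimensional_of_le inf_le_left
      have e4 : Module.finrank k (W 𝕋 f V (𝕋.b s) q ⊓ U : Submodule k L) ≤
          Module.finrank k (V (𝕋.b s) ⊓ U : Submodule k L) :=
        Submodule.finrank_mono (inf_le_inf_right U (W_le 𝕋))
      omega
  -- the sums
  set M : ℕ := ∏ i : T, cst 𝕋 i with hMdef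
  have hMpos : 0 < M := Finset.prod_pos fun i _ => 𝕋.card_stab_pos i
  have hdiv : ∀ i, M / cst 𝕋 i * cst 𝕋 i = M := fun i =>
    Nat.div_mul_cancel (Finset.dvd_prod_of_mem _ (Finset.mem_univ i))
  have sumT : (∑ q ∈ Finset.range N, (Module.finrank k (transferV ρ V lam v x₁ (𝕋.b t)) -
      Module.finrank k (W 𝕋 f (transferV ρ V lam v x₁) (𝕋.b t) q))) + cst 𝕋 t * (r + 1) =
      ∑ q ∈ Finset.range N, (Module.finrank k (V (𝕋.b t)) -
        Module.finrank k (W 𝕋 f V (𝕋.b t) q)) := by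
    rw [← B8_sum_le hrN, ← Finset.sum_add_distrib]
    exact Finset.sum_congr rfl fun q _ => hcodT q
  have sumS : (∑ q ∈ Finset.range N, (Module.finrank k (transferV ρ V lam v x₁ (𝕋.b s)) -
      Module.finrank k (W 𝕋 f (transferV ρ V lam v x₁) (𝕋.b s) q))) ≤
      (∑ q ∈ Finset.range N, (Module.finrank k (V (𝕋.b s)) -
        Module.finrank k (W 𝕋 f V (𝕋.b s) q))) + cst 𝕋 s * r := by
    rw [← B8_sum_lt hrN, ← Finset.sum_add_distrib]
    exact Finset.sum_le_sum fun q _ => hcodS q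
  have hterm : ∀ i : T, (M / cst 𝕋 i * ∑ q ∈ Finset.range N,
      (Module.finrank k (transferV ρ V lam v x₁ (𝕋.b i)) -
        Module.finrank k (W 𝕋 f (transferV ρ V lam v x₁) (𝕋.b i) q))) +
      (if i = t then M * (r + 1) else 0) ≤
      (M / cst 𝕋 i * ∑ q ∈ Finset.range N, (Module.finrank k (V (𝕋.b i)) -
        Module.finrank k (W 𝕋 f V (𝕋.b i) q))) + (if i = s then M * r else 0) := by
    intro i
    by_cases hit : i = t
    · subst hit
      rw [if_pos rfl, if_neg (Ne.symm hst), ← sumT, add_zero]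
      have harith : ∀ A S c M' : ℕ, A * c = M' → A * S + M' * (r + 1) ≤ A * (S + c * (r + 1)) := by
        intro A S c M' h3
        subst h3
        exact le_of_eq (by ring)
      exact harith _ _ _ _ (hdiv i)
    · by_cases his : i = s
      · subst his
        rw [if_neg hit, if_pos rfl, add_zero]
        refine le_trans (Nat.mul_le_mul_left _ sumS) ?_
        rw [mul_add, ← mul_assoc, hdiv]
      · rw [if_neg hit, if_neg his, hVo i his hit]
        refine le_of_eq ?_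
        congr 2
        refine Finset.sum_congr rfl fun q _ => ?_
        rw [B8_W_congr 𝕋 (hVo i his hit)]
  have htot := Finset.sum_le_sum fun i (_ : i ∈ Finset.univ) => hterm i
  rw [Finset.sum_add_distrib, Finset.sum_add_distrib, Finset.sum_ite_eq' Finset.univ t,
    Finset.sum_ite_eq' Finset.univ s, if_pos (Finset.mem_univ _), if_pos (Finset.mem_univ _)]
    at htot
  unfold mu
  rw [← hMdef]
  have h3 : M * (r + 1) = M * r + M := by ring
  omega

/-- if `RC2` fails then a transfer reduces `mu` (translate to a base vertex; the translates `g v`,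
`g` in the stabiliser, are independent modulo `W r` because the extreme parts of their images are in
different directions, so there is a functional with `lam v = 1`, `lam (g v) = 0`, zero on `W r`) -/
theorem transfer_step [Fintype T] (hf : EquivF ρ f) (hV : IsFrame ρ V) {N : ℕ} (hB : Bdd 𝕋 f V N)
    (h : ¬ RC2 𝕋 f V) :
    ∃ V' : X → Submodule k L, Step 𝕋 ρ V V' ∧ IsFrame ρ V' ∧
      Bdd 𝕋 f V' N ∧ mu 𝕋 f V' N < mu 𝕋 f V N := by
  classical
  unfold RC2 at h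
  push Not at h
  obtain ⟨x, y, r, hxy, v', hv', hdir', hr'⟩ := h
  obtain ⟨g₀, t, hx⟩ := 𝕋.cover x
  -- translate to the base vertex
  obtain ⟨x₁, hx₁⟩ : ∃ x₁ : X, x₁ = g₀⁻¹ • y := ⟨_, rfl⟩
  set v : L := ρ g₀⁻¹ v' with hvdef
  have hbx : g₀⁻¹ • x = 𝕋.b t := by rw [hx, inv_smul_smul]
  have hadj : 𝕋.d (𝕋.b t) x₁ = 1 := by
    rw [← hbx, hx₁, 𝕋.inv]
    exact hxy
  have hv : v ∈ W 𝕋 f V (𝕋.b t) (r + 1) := by
    rw [← hbx, hvdef]
    exact (W_smul 𝕋 hf hV g₀⁻¹ x (r + 1) v').2 hv'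
  have hr : v ∉ W 𝕋 f V (𝕋.b t) r := by
    rw [← hbx, hvdef]
    intro h1
    exact hr' ((W_smul 𝕋 hf hV g₀⁻¹ x r v').1 h1)
  have hdir : ∀ g : G, 𝕋.d (𝕋.b t) (g • 𝕋.b 𝕋.o) = r → 𝕋.d x₁ (g • 𝕋.b 𝕋.o) = r + 1 →
      f v g = 0 := by
    intro g h1 h2
    have h3 : f v g = f v' (g₀ * g) := by
      have h4 := hf g₀⁻¹ v' (g₀ * g)
      rwa [inv_mul_cancel_left] at h4
    rw [h3]
    apply hdir'
    · rw [← 𝕋.inv g₀⁻¹, hbx, smul_smul, inv_mul_cancel_left]
      exact h1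
    · rw [← 𝕋.inv g₀⁻¹, ← hx₁, smul_smul, inv_mul_cancel_left]
      exact h2
  -- a point where the image of `v` is extreme
  have hex : ∃ h₁ : G, 𝕋.d (𝕋.b t) (h₁ • 𝕋.b 𝕋.o) = r ∧ f v h₁ ≠ 0 := by
    by_contra hcon
    push Not at hcon
    apply hr
    refine ⟨hv.1, fun g hg => ?_⟩
    by_cases hg' : 𝕋.d (𝕋.b t) (g • 𝕋.b 𝕋.o) = r
    · exact hcon g hg'
    · exact hv.2 g (by omega)
  obtain ⟨h₁, hh₁, hne⟩ := hex
  have hside : ∀ g : G, 𝕋.d (𝕋.b t) (g • 𝕋.b 𝕋.o) = r → f v g ≠ 0 →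
      𝕋.d x₁ (g • 𝕋.b 𝕋.o) + 1 = 𝕋.d (𝕋.b t) (g • 𝕋.b 𝕋.o) := by
    intro g h3 h4
    rcases 𝕋.adj_cases hadj (g • 𝕋.b 𝕋.o) with h5 | h5
    · exact h5.symm
    · exact absurd (hdir g h3 (by omega)) h4
  have htr : ∀ g : G, g • 𝕋.b t = 𝕋.b t → g ≠ 1 → f (ρ g v) h₁ = 0 := by
    intro g hg hg1
    by_contra hcon
    have h3 : f (ρ g v) h₁ = f v (g⁻¹ * h₁) := by
      have h4 := hf g v (g⁻¹ * h₁)
      rwa [mul_inv_cancel_left] at h4
    rw [h3] at hcon
    have h5 : 𝕋.d (𝕋.b t) ((g⁻¹ * h₁) • 𝕋.b 𝕋.o) = r := by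
      rw [← 𝕋.inv g, hg, smul_smul, mul_inv_cancel_left]
      exact hh₁
    have h6 := hside _ h5 hcon
    have h7 := hside _ hh₁ hne
    rw [h5, ← 𝕋.inv g, smul_smul, mul_inv_cancel_left] at h6
    rw [hh₁] at h7
    have h8 : 𝕋.d (𝕋.b t) (g • x₁) = 1 := by
      have h9 := 𝕋.inv g (𝕋.b t) x₁
      rw [hg] at h9
      rw [h9]
      exact hadj
    have h10 : g • x₁ = x₁ := 𝕋.adj_unique h8 hadj (by rw [hh₁]; exact h6) (by rw [hh₁]; exact h7)
    exact hg1 (𝕋.edge g _ _ hadj hg h10)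
  -- the functional
  let ev : L →ₗ[k] E :=
    { toFun := fun u => f u h₁
      map_add' := fun a b => by rw [map_add, Finsupp.add_apply]
      map_smul' := fun c a => by rw [map_smul, Finsupp.smul_apply]; rfl }
  set U : Submodule k L := W 𝕋 f V (𝕋.b t) r ⊔
    Submodule.span k {u | ∃ g : G, g • 𝕋.b t = 𝕋.b t ∧ g ≠ 1 ∧ u = ρ g v} with hU
  have hUle : U ≤ LinearMap.ker ev := by
    refine sup_le ?_ (Submodule.span_le.2 ?_)
    · intro u hu
      exact hu.2 h₁ (by omega)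
    · rintro u ⟨g, hg, hg1, rfl⟩
      exact htr g hg hg1
  have hvU : v ∉ U := fun h3 => hne (hUle h3)
  obtain ⟨φ, hφ, hφU⟩ := Submodule.exists_le_ker_of_notMem hvU
  obtain ⟨lam, hlam, hlamφ⟩ := hV.exists_ext (𝕋.b t)
    (((φ v)⁻¹ • φ) ∘ₗ (V (𝕋.b t)).subtype)
  have hlamV : ∀ u ∈ V (𝕋.b t), lam u = (φ v)⁻¹ * φ u := by
    intro u hu
    exact hlamφ ⟨u, hu⟩
  have h1 : lam v = 1 := by
    rw [hlamV v hv.1, inv_mul_cancel₀ hφ]
  have hUlam : ∀ u ∈ U, u ∈ V (𝕋.b t) → lam u = 0 := by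
    intro u hu huV
    have h3 : φ u = 0 := hφU hu
    rw [hlamV u huV, h3, mul_zero]
  have h2 : ∀ g : G, g • 𝕋.b t = 𝕋.b t → g ≠ 1 → lam (ρ g v) = 0 := by
    intro g hg hg1
    refine hUlam _ (Submodule.mem_sup_right (Submodule.subset_span ⟨g, hg, hg1, rfl⟩)) ?_
    have h3 := (hV.mem_smul g).2 hv.1
    rwa [hg] at h3
  have hlW : ∀ u ∈ W 𝕋 f V (𝕋.b t) r, lam u = 0 := fun u hu =>
    hUlam u (Submodule.mem_sup_left hu) hu.1
  obtain ⟨hB', hmu⟩ := transfer_measure 𝕋 hf hV hB hadj hv hlam h1 h2 hlW hdir hr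
  exact ⟨transferV ρ V lam v x₁, Step.transfer t x₁ lam v hadj hv.1 hlam h1 h2 (fun _ => rfl),
    transfer_frame 𝕋 hV hadj hv.1 hlam h1 h2, hB', hmu⟩

end FP
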