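import Pool.Agent.Lib.MP_2d4659_gt.FP.B2

/-! # The weak algorithm -/

set_option autoImplicit false

namespace FP

variable {k G X T E L : Type} [Field k] [Group G] [MulAction G X] [AddCommGroup E] [Module k E]
  [AddCommGroup L] [Module k L]

variable (𝕋 : TreeD G X T) {ρ : G →* (L →ₗ[k] L)} {f : L →ₗ[k] (G →₀ E)} {V : X → Submodule k L}

/-- Proof: suppose not.  For `x` let `rad x` be the least `r` with `z x ∈ W x r`; among the `x` with
`rad x > 0` and `d v x + rad x` maximal (`> R`) choose one with `rad x` maximal.  Let `y` be the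
neighbour of `x` towards `v` (any neighbour if `x = v`).  For every other direction `y'` at `x` the part
of `f (z x)` on the sphere of radius `rad x - 1` behind `y'` is cancelled by the `z x'` with `x'`
behind `y'`, so it is zero by `RC1`; then `RC2` gives `z x ∈ W x (rad x - 1)`. -/
theorem wp_of_rc (hf : EquivF ρ f) (hV : IsFrame ρ V) (h1 : RC1 𝕋 f V) (h2 : RC2 𝕋 f V) :
    WP 𝕋 f V := by
  classical
  intro v R z hz hR x₀ g₀ hx₀
  by_contra hne
  -- radii
  have hex : ∀ x, ∃ r, z x ∈ W 𝕋 f V x r := by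
    intro x
    refine ⟨((f (z x)).support.sup fun g => 𝕋.d x (g • 𝕋.b 𝕋.o)) + 1, hz x, fun g hg => ?_⟩
    by_contra hg'
    have h3 : 𝕋.d x (g • 𝕋.b 𝕋.o) ≤ (f (z x)).support.sup fun g => 𝕋.d x (g • 𝕋.b 𝕋.o) :=
      Finset.le_sup (f := fun g => 𝕋.d x (g • 𝕋.b 𝕋.o)) (Finsupp.mem_support_iff.2 hg')
    omega
  obtain ⟨rad, hrad, hmin⟩ : ∃ rad : X → ℕ, (∀ x, z x ∈ W 𝕋 f V x (rad x)) ∧
      ∀ x r, z x ∈ W 𝕋 f V x r → rad x ≤ r :=
    ⟨fun x => Nat.find (hex x), fun x => Nat.find_spec (hex x),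
      fun x r h => Nat.find_min' (hex x) h⟩
  have hpos : ∀ x g, f (z x) g ≠ 0 → 𝕋.d x (g • 𝕋.b 𝕋.o) < rad x := by
    intro x g hg
    by_contra hlt
    exact hg ((hrad x).2 g (not_lt.1 hlt))
  have hsupp : ∀ x, 0 < rad x → x ∈ z.support := by
    intro x hx
    by_contra hx'
    have h0 : z x = 0 := Finsupp.notMem_support_iff.1 hx'
    have h3 := hmin x 0 (by rw [h0]; exact zero_mem _)
    omega
  -- extremal choice
  have hx₀r := hpos x₀ g₀ hne
  obtain ⟨x₁, hx₁, hM⟩ := Finset.exists_max_image (z.support.filter fun x => 0 < rad x)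
    (fun x => 𝕋.d v x + rad x)
    ⟨x₀, Finset.mem_filter.2 ⟨hsupp x₀ (by omega), by omega⟩⟩
  obtain ⟨x, hx, hmax⟩ := Finset.exists_max_image
    ((z.support.filter fun x => 0 < rad x).filter fun x =>
      𝕋.d v x + rad x = 𝕋.d v x₁ + rad x₁) rad ⟨x₁, Finset.mem_filter.2 ⟨hx₁, rfl⟩⟩
  have hxM : 𝕋.d v x + rad x = 𝕋.d v x₁ + rad x₁ := (Finset.mem_filter.1 hx).2
  have hxr : 0 < rad x := (Finset.mem_filter.1 (Finset.mem_filter.1 hx).1).2
  have hM' : ∀ x', 0 < rad x' → 𝕋.d v x' + rad x' ≤ 𝕋.d v x + rad x := by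
    intro x' hx'
    rw [hxM]
    exact hM x' (Finset.mem_filter.2 ⟨hsupp x' hx', hx'⟩)
  have hmax' : ∀ x', 0 < rad x' → 𝕋.d v x' + rad x' = 𝕋.d v x + rad x → rad x' ≤ rad x := by
    intro x' hx' he
    exact hmax x' (Finset.mem_filter.2
      ⟨Finset.mem_filter.2 ⟨hsupp x' hx', hx'⟩, by rw [he, hxM]⟩)
  have hRM : R < 𝕋.d v x + rad x := by
    have h3 := hM' x₀ (by omega)
    omega
  obtain ⟨r, hr⟩ : ∃ r, rad x = r + 1 := ⟨rad x - 1, by omega⟩
  have hzx : z x ∈ W 𝕋 f V x (r + 1) := by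
    rw [← hr]
    exact hrad x
  have key : ∀ x' g, x' ≠ x → 𝕋.d x' (g • 𝕋.b 𝕋.o) = 𝕋.d x x' + r → f (z x') g = 0 := by
    intro x' g hne' hd
    by_contra hc
    have a1 := hpos x' g hc
    have a2 := hM' x' (by omega)
    have a3 := 𝕋.tri v x' x
    have a4 := 𝕋.symm x x'
    have a5 : 𝕋.d x x' ≠ 0 := fun h => hne' (𝕋.eq_of_d x x' h).symm
    have a6 := hmax' x' (by omega) (by omega)
    omega
  have hsum : ∀ g, f (z.sum fun _ a => a) g = ∑ x' ∈ z.support, f (z x') g := by
    intro g
    rw [Finsupp.sum, map_sum, Finsupp.finsetSum_apply]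
  obtain ⟨y, hxy, hy⟩ : ∃ y, 𝕋.d x y = 1 ∧
      ∀ p, 𝕋.d y p = 𝕋.d x p + 1 → 𝕋.d v p = 𝕋.d v x + 𝕋.d x p := by
    by_cases hxv : x = v
    · obtain ⟨y, hy⟩ := 𝕋.nbr_ex' x
      refine ⟨y, hy, fun p _ => ?_⟩
      rw [hxv, 𝕋.d_self, zero_add]
    · obtain ⟨y, hy, hy'⟩ := 𝕋.step x v hxv
      exact ⟨y, hy, fun p hp => 𝕋.far hy hy' hp⟩
  have hfin : z x ∈ W 𝕋 f V x r := by
    refine h2 x y r hxy (z x) hzx ?_
    intro g hg hg'
    rcases Nat.eq_zero_or_pos r with hr0 | hr0
    · have hRg : f (z.sum fun _ a => a) g = 0 := hR g (by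
        have h3 := hy (g • 𝕋.b 𝕋.o) (by omega)
        omega)
      rw [hsum] at hRg
      have hgx : x = g • 𝕋.b 𝕋.o := 𝕋.eq_of_d _ _ (by omega)
      have h3 : ∑ x' ∈ z.support, f (z x') g = f (z x) g := by
        refine Finset.sum_eq_single x (fun x' _ hne' => key x' g hne' ?_) (fun hx' => ?_)
        · rw [← hgx, 𝕋.symm x' x, hr0, add_zero]
        · rw [Finsupp.notMem_support_iff.1 hx', map_zero]
          rfl
      rwa [h3] at hRg
    · obtain ⟨y', hxy', hy'⟩ := 𝕋.step x (g • 𝕋.b 𝕋.o) (by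
        intro h
        rw [← h, 𝕋.d_self] at hg
        omega)
      have hne' : y ≠ y' := by
        rintro rfl
        omega
      -- points behind `y'` are not behind `y`
      have hyy : ∀ p, 𝕋.d y' p + 1 = 𝕋.d x p → 𝕋.d y p = 𝕋.d x p + 1 := by
        intro p hp
        rcases 𝕋.adj_cases hxy p with h3 | h3
        · exact absurd (𝕋.adj_unique hxy hxy' h3.symm hp) hne'
        · exact h3
      have hz'x : ∀ x', (-(z.filter fun x' => 𝕋.d y' x' + 1 = 𝕋.d x x')) x' =
          if 𝕋.d y' x' + 1 = 𝕋.d x x' then -z x' else 0 := by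
        intro x'
        rw [Finsupp.neg_apply, Finsupp.filter_apply]
        split_ifs
        · rfl
        · exact neg_zero
      refine h1 x y' r hxy' (z x) hzx (-(z.filter fun x' => 𝕋.d y' x' + 1 = 𝕋.d x x'))
        ?_ ?_ ?_ g hg (by omega)
      · intro x'
        rw [hz'x]
        split_ifs with hP
        · refine neg_mem (W_mono 𝕋 ?_ (hrad x'))
          rcases Nat.eq_zero_or_pos (rad x') with h0 | h0
          · omega
          · have a1 := hM' x' h0
            have a2 := hy x' (hyy x' hP)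
            omega
        · exact zero_mem _
      · intro x' hx'
        rw [Finsupp.mem_support_iff, hz'x] at hx'
        by_contra hP
        rw [if_neg hP] at hx'
        exact hx' rfl
      · intro g' hg1 hg2
        have hRg : f (z.sum fun _ a => a) g' = 0 := hR g' (by
          have h3 := hy (g' • 𝕋.b 𝕋.o) (hyy _ (by omega))
          omega)
        rw [hsum] at hRg
        have hs : ((-(z.filter fun x' => 𝕋.d y' x' + 1 = 𝕋.d x x')).sum fun _ a => a) =
            ∑ x' ∈ z.support, if 𝕋.d y' x' + 1 = 𝕋.d x x' then -z x' else 0 := by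
          rw [Finsupp.sum_of_support_subset (s := z.support)]
          · exact Finset.sum_congr rfl fun x' _ => hz'x x'
          · intro x' hx'
            rw [Finsupp.mem_support_iff, hz'x] at hx'
            rw [Finsupp.mem_support_iff]
            intro h0
            apply hx'
            rw [h0, neg_zero, ite_self]
          · intro _ _
            rfl
        have hs2 : f ((-(z.filter fun x' => 𝕋.d y' x' + 1 = 𝕋.d x x')).sum fun _ a => a) g' =
            -∑ x' ∈ z.support.filter (fun x' => 𝕋.d y' x' + 1 = 𝕋.d x x'), f (z x') g' := by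
          rw [hs, ← Finset.sum_filter, map_sum, Finsupp.finsetSum_apply,
            ← Finset.sum_neg_distrib]
          refine Finset.sum_congr rfl fun x' _ => ?_
          rw [map_neg, Finsupp.neg_apply]
        have hothers : ∑ x' ∈ z.support.filter (fun x' => ¬ (𝕋.d y' x' + 1 = 𝕋.d x x')),
            f (z x') g' = f (z x) g' := by
          refine Finset.sum_eq_single x (fun x' hx' hne'' => key x' g' hne'' ?_) (fun hx' => ?_)
          · have hP := (Finset.mem_filter.1 hx').2
            rcases 𝕋.adj_cases hxy' x' with h3 | h3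
            · exact absurd h3.symm hP
            · have h4 := 𝕋.far hxy' (v := g' • 𝕋.b 𝕋.o) (by omega) h3
              have h5 := 𝕋.symm x' (g' • 𝕋.b 𝕋.o)
              have h6 := 𝕋.symm x (g' • 𝕋.b 𝕋.o)
              omega
          · have hx'' : x ∉ z.support := by
              intro hxs
              apply hx'
              refine Finset.mem_filter.2 ⟨hxs, ?_⟩
              rw [𝕋.d_self]
              omega
            rw [Finsupp.notMem_support_iff.1 hx'', map_zero]
            rfl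
        rw [← Finset.sum_filter_add_sum_filter_not z.support
          (fun x' => 𝕋.d y' x' + 1 = 𝕋.d x x'), hothers] at hRg
        rw [hs2]
        exact eq_neg_of_add_eq_zero_right hRg
  have h3 := hmin x r hfin
  omega

end FP
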