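import Pool.Agent.Lib.MP_2d4659_gt.FP.B7
import Pool.Agent.Lib.MP_2d4659_gt.FP.B8
import Pool.Agent.Lib.MP_2d4659_gt.FP.B9

/-! # The reduction process -/

set_option autoImplicit false

namespace FP

variable {k G X T E L : Type} [Field k] [Group G] [MulAction G X] [AddCommGroup E] [Module k E]
  [AddCommGroup L] [Module k L]

variable (𝕋 : TreeD G X T) {ρ : G →* (L →ₗ[k] L)} {f : L →ₗ[k] (G →₀ E)}

theorem process_aux [Fintype T] (hf : EquivF ρ f) (N : ℕ) (a b : ℕ) :
    ∀ V : X → Submodule k L, IsFrame ρ V → Bdd 𝕋 f V N → mu 𝕋 f V N = a → nu 𝕋 f V N = b →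
      ∃ V' : X → Submodule k L, Relation.ReflTransGen (Step 𝕋 ρ) V V' ∧ IsFrame ρ V' ∧
        WP 𝕋 f V' := by
  induction a using Nat.strong_induction_on generalizing b with
  | _ a iha =>
    induction b using Nat.strong_induction_on with
    | _ b ihb =>
      intro V hV hB ha hb
      by_cases h1 : RC1 𝕋 f V
      · by_cases h2 : RC2 𝕋 f V
        · exact ⟨V, Relation.ReflTransGen.refl, hV, wp_of_rc 𝕋 hf hV h1 h2⟩
        · obtain ⟨V', hs, hV', hB', hm⟩ := transfer_step 𝕋 hf hV hB h2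
          obtain ⟨V'', hs', hV'', hW⟩ := iha _ (ha ▸ hm) _ V' hV' hB' rfl rfl
          exact ⟨V'', Relation.ReflTransGen.head hs hs', hV'', hW⟩
      · obtain ⟨V', hs, hV', hB', hm, hn⟩ := clean_step 𝕋 hf hV hB h1
        rcases lt_or_eq_of_le hm with hlt | heq
        · obtain ⟨V'', hs', hV'', hW⟩ := iha _ (ha ▸ hlt) _ V' hV' hB' rfl rfl
          exact ⟨V'', hs.trans hs', hV'', hW⟩
        · obtain ⟨V'', hs', hV'', hW⟩ := ihb _ (hb ▸ hn) V' hV' hB' (heq.trans ha) rfl
          exact ⟨V'', hs.trans hs', hV'', hW⟩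

/-- **The reduction process**: every frame can be changed by finitely many steps into a frame for
which the weak algorithm holds. -/
theorem process [Fintype T] (hf : EquivF ρ f) {V : X → Submodule k L} (hV : IsFrame ρ V) :
    ∃ V' : X → Submodule k L, Relation.ReflTransGen (Step 𝕋 ρ) V V' ∧ IsFrame ρ V' ∧
      WP 𝕋 f V' := by
  obtain ⟨N, hN⟩ := exists_bdd 𝕋 (f := f) hV
  exact process_aux 𝕋 hf N _ _ V hV hN rfl rfl

end FP
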