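import Pool.Agent.Lib.MP_2d4659_gt.FP.PDefs

/-! # Frames: the decomposition map -/

set_option autoImplicit false

namespace FP

variable {k G X T E L : Type} [Field k] [Group G] [MulAction G X] [AddCommGroup E] [Module k E]
  [AddCommGroup L] [Module k L]

section

variable {ρ : G →* (L →ₗ[k] L)} {V : X → Submodule k L}

/-- the decomposition map of a frame -/
noncomputable def IsFrame.P (hV : IsFrame ρ V) : L →ₗ[k] (X →₀ L) := hV.dec.choose

lemma IsFrame.P_mem (hV : IsFrame ρ V) (u : L) (x : X) : hV.P u x ∈ V x :=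
  hV.dec.choose_spec.1 u x

lemma IsFrame.P_sum (hV : IsFrame ρ V) (u : L) : ((hV.P u).sum fun _ a => a) = u :=
  hV.dec.choose_spec.2.1 u

lemma IsFrame.P_single (hV : IsFrame ρ V) {x : X} {u : L} (hu : u ∈ V x) :
    hV.P u = Finsupp.single x u := hV.dec.choose_spec.2.2 x u hu

lemma rho_inv (ρ : G →* (L →ₗ[k] L)) (g : G) (u : L) : ρ g⁻¹ (ρ g u) = u := by
  have h : ρ g⁻¹ * ρ g = 1 := by rw [← map_mul, inv_mul_cancel, map_one]
  exact LinearMap.congr_fun h u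

lemma rho_inv' (ρ : G →* (L →ₗ[k] L)) (g : G) (u : L) : ρ g (ρ g⁻¹ u) = u := by
  have h : ρ g * ρ g⁻¹ = 1 := by rw [← map_mul, mul_inv_cancel, map_one]
  exact LinearMap.congr_fun h u

lemma rho_mul (ρ : G →* (L →ₗ[k] L)) (g h : G) (u : L) : ρ (g * h) u = ρ g (ρ h u) :=
  LinearMap.congr_fun (map_mul ρ g h) u

lemma IsFrame.mem_smul (hV : IsFrame ρ V) {x : X} {u : L} (g : G) :
    ρ g u ∈ V (g • x) ↔ u ∈ V x := by
  rw [← hV.map g x, Submodule.mem_map]
  constructor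
  · rintro ⟨w, hw, he⟩
    have : w = u := by rw [← rho_inv ρ g w, he, rho_inv]
    rwa [← this]
  · exact fun h => ⟨u, h, rfl⟩

/-- uniqueness of decompositions -/
lemma IsFrame.P_uniq (hV : IsFrame ρ V) (z : X →₀ L) (hz : ∀ x, z x ∈ V x) :
    hV.P (z.sum fun _ a => a) = z := by
  rw [map_finsuppSum]
  have h : (z.sum fun x a => hV.P a) = z.sum fun x a => Finsupp.single x a := by
    refine Finsupp.sum_congr fun x _ => ?_
    exact hV.P_single (hz x)
  rw [h, Finsupp.sum_single]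

lemma IsFrame.P_smul (hV : IsFrame ρ V) (g : G) (u : L) (x : X) :
    hV.P (ρ g u) (g • x) = ρ g (hV.P u x) := by
  classical
  have h : hV.P (ρ g u) = (hV.P u).sum fun y a => Finsupp.single (g • y) (ρ g a) := by
    conv_lhs => rw [← hV.P_sum u]
    rw [map_finsuppSum, map_finsuppSum]
    refine Finsupp.sum_congr fun y _ => ?_
    exact hV.P_single ((hV.mem_smul g).2 (hV.P_mem u y))
  rw [h, Finsupp.sum_apply]
  unfold Finsupp.sum
  rw [Finset.sum_eq_single x]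
  · show (Finsupp.single (g • x) (ρ g (hV.P u x)) : X →₀ L) (g • x) = _
    rw [Finsupp.single_eq_same]
  · intro y _ hy
    show (Finsupp.single (g • y) (ρ g (hV.P u y)) : X →₀ L) (g • x) = 0
    rw [Finsupp.single_apply, if_neg]
    intro he
    exact hy (smul_left_cancel g he)
  · intro hx
    show (Finsupp.single (g • x) (ρ g (hV.P u x)) : X →₀ L) (g • x) = 0
    rw [Finsupp.notMem_support_iff.1 hx, map_zero, Finsupp.single_zero, Finsupp.zero_apply]

/-- a functional on one piece extends by zero to the other pieces -/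
lemma IsFrame.exists_ext (hV : IsFrame ρ V) (x : X) (φ : V x →ₗ[k] k) :
    ∃ lam : L →ₗ[k] k, SuppAt V lam x ∧ ∀ u : V x, lam u = φ u := by
  classical
  refine ⟨φ ∘ₗ LinearMap.codRestrict (V x) (Finsupp.lapply x ∘ₗ hV.P) (fun u => hV.P_mem u x),
    ?_, ?_⟩
  · intro y hy u hu
    have h : LinearMap.codRestrict (V x) (Finsupp.lapply x ∘ₗ hV.P) (fun u => hV.P_mem u x) u
        = 0 := by
      apply Subtype.ext
      show hV.P u x = 0
      rw [hV.P_single hu, Finsupp.single_apply, if_neg hy]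
    rw [LinearMap.comp_apply, h, map_zero]
  · intro u
    have h : LinearMap.codRestrict (V x) (Finsupp.lapply x ∘ₗ hV.P) (fun u => hV.P_mem u x) u
        = u := by
      apply Subtype.ext
      show hV.P u x = u
      rw [hV.P_single u.2, Finsupp.single_eq_same]
    rw [LinearMap.comp_apply, h]

lemma IsFrame.lam_eq (hV : IsFrame ρ V) {lam : L →ₗ[k] k} {x : X} (hlam : SuppAt V lam x) (u : L) :
    lam u = lam (hV.P u x) := by
  classical
  conv_lhs => rw [← hV.P_sum u]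
  rw [map_finsuppSum]
  unfold Finsupp.sum
  rw [Finset.sum_eq_single x]
  · intro y _ hy
    exact hlam y hy _ (hV.P_mem u y)
  · intro hx
    show lam (hV.P u x) = 0
    rw [Finsupp.notMem_support_iff.1 hx, map_zero]

lemma IsFrame.fin_supp (𝕋 : TreeD G X T) (hV : IsFrame ρ V) {lam : L →ₗ[k] k} {t : T}
    (hlam : SuppAt V lam (𝕋.b t)) (u : L) : {h : G | lam (ρ h u) ≠ 0}.Finite := by
  classical
  have h1 : {h : G | lam (ρ h u) ≠ 0} ⊆ ⋃ y ∈ (hV.P u).support, {h : G | h⁻¹ • 𝕋.b t = y} := by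
    intro h hh
    rw [Set.mem_setOf_eq] at hh
    simp only [Set.mem_iUnion, Set.mem_setOf_eq, exists_prop, exists_eq_right']
    rw [Finsupp.mem_support_iff]
    intro h0
    apply hh
    rw [hV.lam_eq hlam]
    have h2 := hV.P_smul h u (h⁻¹ • 𝕋.b t)
    rw [smul_inv_smul] at h2
    rw [h2, h0, map_zero, map_zero]
  refine Set.Finite.subset ?_ h1
  refine Set.Finite.biUnion (Finset.finite_toSet _) fun y _ => ?_
  by_cases hex : ∃ h₀ : G, h₀⁻¹ • 𝕋.b t = y
  · obtain ⟨h₀, h0⟩ := hex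
    have h3 : {h : G | h⁻¹ • 𝕋.b t = y} ⊆ (fun h : G => h₀ * h⁻¹) ⁻¹' {g : G | g • 𝕋.b t = 𝕋.b t} := by
      intro h hh
      rw [Set.mem_setOf_eq] at hh
      show (h₀ * h⁻¹) • 𝕋.b t = 𝕋.b t
      rw [mul_smul, hh, ← h0, smul_inv_smul]
    refine Set.Finite.subset ?_ h3
    refine (𝕋.stab_fin t).preimage ?_
    intro a _ b _ hab
    exact inv_injective (mul_left_cancel hab)
  · refine Set.Finite.subset Set.finite_empty ?_
    intro h hh
    exact hex ⟨h, hh⟩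

end

section

variable (𝕋 : TreeD G X T) {ρ : G →* (L →ₗ[k] L)} {f : L →ₗ[k] (G →₀ E)} {V : X → Submodule k L}

lemma W_smul (hf : EquivF ρ f) (hV : IsFrame ρ V) (g : G) (x : X) (r : ℕ) (u : L) :
    ρ g u ∈ W 𝕋 f V (g • x) r ↔ u ∈ W 𝕋 f V x r := by
  constructor
  · rintro ⟨h1, h2⟩
    refine ⟨(hV.mem_smul g).1 h1, fun h hh => ?_⟩
    rw [← hf g u h]
    refine h2 (g * h) ?_
    rw [mul_smul, 𝕋.inv]
    exact hh
  · rintro ⟨h1, h2⟩
    refine ⟨(hV.mem_smul g).2 h1, fun h hh => ?_⟩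
    have e : h = g * (g⁻¹ * h) := by rw [mul_inv_cancel_left]
    rw [e, mul_smul, 𝕋.inv] at hh
    rw [e, hf g u]
    exact h2 _ hh

lemma Wd_smul (hf : EquivF ρ f) (hV : IsFrame ρ V) (g : G) (x y : X) (r : ℕ) (u : L) :
    ρ g u ∈ Wd 𝕋 f V (g • x) (g • y) r ↔ u ∈ Wd 𝕋 f V x y r := by
  constructor
  · rintro ⟨h1, h2, h3⟩
    refine ⟨(hV.mem_smul g).1 h1, fun h hh => ?_, fun h hh hh' => ?_⟩
    · rw [← hf g u h]
      refine h2 (g * h) ?_
      rw [mul_smul, 𝕋.inv]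
      exact hh
    · rw [← hf g u h]
      refine h3 (g * h) ?_ ?_
      · rw [mul_smul, 𝕋.inv]
        exact hh
      · rw [mul_smul, 𝕋.inv]
        exact hh'
  · rintro ⟨h1, h2, h3⟩
    refine ⟨(hV.mem_smul g).2 h1, fun h hh => ?_, fun h hh hh' => ?_⟩
    · have e : h = g * (g⁻¹ * h) := by rw [mul_inv_cancel_left]
      rw [e, mul_smul, 𝕋.inv] at hh
      rw [e, hf g u]
      exact h2 _ hh
    · have e : h = g * (g⁻¹ * h) := by rw [mul_inv_cancel_left]
      rw [e, mul_smul, 𝕋.inv] at hh hh'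
      rw [e, hf g u]
      exact h3 _ hh hh' 

lemma W_mono {x : X} {r s : ℕ} (h : r ≤ s) : W 𝕋 f V x r ≤ W 𝕋 f V x s := by
  rintro u ⟨h1, h2⟩
  exact ⟨h1, fun g hg => h2 g (h.trans hg)⟩

lemma W_le_Wd {x y : X} {r : ℕ} : W 𝕋 f V x r ≤ Wd 𝕋 f V x y r := by
  rintro u ⟨h1, h2⟩
  exact ⟨h1, fun g hg => h2 g (by omega), fun g hg _ => h2 g (by omega)⟩

lemma Wd_le_W {x y : X} {r : ℕ} : Wd 𝕋 f V x y r ≤ W 𝕋 f V x (r + 1) := by
  rintro u ⟨h1, h2, -⟩
  exact ⟨h1, h2⟩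

lemma W_le {x : X} {r : ℕ} : W 𝕋 f V x r ≤ V x := fun _ h => h.1

lemma Wd_le {x y : X} {r : ℕ} : Wd 𝕋 f V x y r ≤ V x := fun _ h => h.1

lemma exists_bdd [Finite T] (hV : IsFrame ρ V) : ∃ N, Bdd 𝕋 f V N := by
  classical
  have h1 : ∀ t : T, ∃ N : ℕ, ∀ u ∈ V (𝕋.b t), ∀ g : G, N ≤ 𝕋.d (𝕋.b t) (g • 𝕋.b 𝕋.o) →
      f u g = 0 := by
    intro t
    haveI := hV.fin (𝕋.b t)
    obtain ⟨s, hs⟩ := (Module.Finite.iff_fg (N := V (𝕋.b t))).1 inferInstance
    set A : Finset G := s.biUnion fun u => (f u).support with hA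
    refine ⟨A.sup (fun g => 𝕋.d (𝕋.b t) (g • 𝕋.b 𝕋.o)) + 1, fun u hu g hg => ?_⟩
    have hgA : g ∉ A := by
      intro hgA
      have : 𝕋.d (𝕋.b t) (g • 𝕋.b 𝕋.o) ≤ A.sup (fun g => 𝕋.d (𝕋.b t) (g • 𝕋.b 𝕋.o)) :=
        Finset.le_sup (f := fun g => 𝕋.d (𝕋.b t) (g • 𝕋.b 𝕋.o)) hgA
      omega
    rw [← hs] at hu
    induction hu using Submodule.span_induction with
    | mem u hu =>
      by_contra h0
      apply hgA
      rw [hA, Finset.mem_biUnion]
      exact ⟨u, hu, Finsupp.mem_support_iff.2 h0⟩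
    | zero => rw [map_zero, Finsupp.zero_apply]
    | add a b _ _ ha hb => rw [map_add, Finsupp.add_apply, ha, hb, add_zero]
    | smul c a _ ha => rw [map_smul, Finsupp.smul_apply, ha, smul_zero]
  choose N hN using h1
  obtain ⟨M, hM⟩ := (Set.finite_range N).bddAbove
  refine ⟨M, fun t u hu g hg => hN t u hu g ?_⟩
  exact (hM (Set.mem_range_self t)).trans hg

end

end FP
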