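import Pool.Agent.Lib.MP_2d4659_gt.FP.B2

/-! # Shears -/

set_option autoImplicit false

namespace FP

variable {k G X T E L : Type} [Field k] [Group G] [MulAction G X] [AddCommGroup E] [Module k E]
  [AddCommGroup L] [Module k L]

variable {ρ : G →* (L →ₗ[k] L)} {lam : L →ₗ[k] k}

lemma B3_fin (hfin : ∀ u, {h : G | lam (ρ h u) ≠ 0}.Finite) (w : L) (u : L) :
    (Function.support (fun h : G => lam (ρ h⁻¹ u) • ρ h w)).Finite := by
  refine ((hfin u).preimage (f := fun h : G => h⁻¹) (inv_injective.injOn)).subset ?_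
  intro h hh
  have h1 : lam (ρ h⁻¹ u) ≠ 0 := by
    intro h0
    apply hh
    show lam (ρ h⁻¹ u) • ρ h w = 0
    rw [h0, zero_smul]
  exact h1

lemma exists_shear (hfin : ∀ u, {h : G | lam (ρ h u) ≠ 0}.Finite) (w : L) :
    ∃ S : L →ₗ[k] L, IsShear ρ lam w S := by
  refine ⟨{ toFun := fun u => u - ∑ᶠ h : G, lam (ρ h⁻¹ u) • ρ h w, map_add' := ?_,
            map_smul' := ?_ }, fun u => rfl⟩
  · intro u v
    have h1 : (fun h : G => lam (ρ h⁻¹ (u + v)) • ρ h w) =
        fun h : G => lam (ρ h⁻¹ u) • ρ h w + lam (ρ h⁻¹ v) • ρ h w := by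
      funext h
      rw [map_add, map_add, add_smul]
    rw [h1, finsum_add_distrib (B3_fin hfin w u) (B3_fin hfin w v)]
    abel
  · intro c u
    have h1 : (fun h : G => lam (ρ h⁻¹ (c • u)) • ρ h w) =
        fun h : G => c • (lam (ρ h⁻¹ u) • ρ h w) := by
      funext h
      rw [map_smul, map_smul, smul_smul, smul_eq_mul]
    rw [h1, ← smul_finsum, RingHom.id_apply, smul_sub]

lemma IsShear.uniq {w : L} {S S' : L →ₗ[k] L} (h : IsShear ρ lam w S) (h' : IsShear ρ lam w S') :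
    S = S' := by
  refine LinearMap.ext fun u => ?_
  rw [h u, h' u]

lemma IsShear.fixes {w : L} {S : L →ₗ[k] L} (hS : IsShear ρ lam w S) {u : L}
    (hu : ∀ h, lam (ρ h u) = 0) : S u = u := by
  rw [hS u, finsum_eq_zero_of_forall_eq_zero, sub_zero]
  intro h
  rw [hu, zero_smul]

lemma IsShear.lam_eq {w : L} {S : L →ₗ[k] L} (hfin : ∀ u, {h : G | lam (ρ h u) ≠ 0}.Finite)
    (hS : IsShear ρ lam w S) (hw : ∀ h, lam (ρ h w) = 0) (u : L) (g : G) :
    lam (ρ g (S u)) = lam (ρ g u) := by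
  have h1 := hfin u
  have h2 := B3_fin hfin w u
  rw [hS u, finsum_eq_sum _ h2, map_sub, map_sub, map_sum, map_sum]
  have h3 : ∀ h ∈ h2.toFinset, lam (ρ g (lam (ρ h⁻¹ u) • ρ h w)) = 0 := by
    intro h _
    rw [map_smul, map_smul, ← rho_mul, hw, smul_zero]
  rw [Finset.sum_eq_zero h3, sub_zero]

lemma IsShear.comp {w w' : L} {S S' : L →ₗ[k] L} (hfin : ∀ u, {h : G | lam (ρ h u) ≠ 0}.Finite)
    (hS : IsShear ρ lam w S) (hS' : IsShear ρ lam w' S') (hw : ∀ h, lam (ρ h w') = 0) :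
    IsShear ρ lam (w + w') (S ∘ₗ S') := by
  intro u
  rw [LinearMap.comp_apply, hS (S' u)]
  have h1 : (fun h : G => lam (ρ h⁻¹ (S' u)) • ρ h w) = fun h : G => lam (ρ h⁻¹ u) • ρ h w := by
    funext h
    rw [hS'.lam_eq hfin hw]
  have h2 : (fun h : G => lam (ρ h⁻¹ u) • ρ h (w + w')) =
      fun h : G => lam (ρ h⁻¹ u) • ρ h w + lam (ρ h⁻¹ u) • ρ h w' := by
    funext h
    rw [map_add, smul_add]
  rw [h1, h2, finsum_add_distrib (B3_fin hfin w u) (B3_fin hfin w' u), hS' u]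
  abel

/-- a shear is invertible and its inverse is the shear with `-w` -/
lemma IsShear.equiv {w : L} {S : L →ₗ[k] L} (hfin : ∀ u, {h : G | lam (ρ h u) ≠ 0}.Finite)
    (hS : IsShear ρ lam w S) (hw : ∀ h, lam (ρ h w) = 0) :
    ∃ S' : L →ₗ[k] L, IsShear ρ lam (-w) S' ∧ S ∘ₗ S' = LinearMap.id ∧ S' ∘ₗ S = LinearMap.id := by
  obtain ⟨S', hS'⟩ := exists_shear (ρ := ρ) hfin (-w)
  have hw' : ∀ h, lam (ρ h (-w)) = 0 := by
    intro h
    rw [map_neg, map_neg, hw, neg_zero]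
  have hid : IsShear ρ lam 0 (LinearMap.id : L →ₗ[k] L) := by
    intro u
    rw [finsum_eq_zero_of_forall_eq_zero, sub_zero]
    · rfl
    · intro h
      rw [map_zero, smul_zero]
  refine ⟨S', hS', ?_, ?_⟩
  · have h1 := hS.comp hfin hS' hw'
    rw [add_neg_cancel] at h1
    exact h1.uniq hid
  · have h1 := hS'.comp hfin hS hw
    rw [neg_add_cancel] at h1
    exact h1.uniq hid

lemma IsShear.smul {w : L} {S : L →ₗ[k] L} (hfin : ∀ u, {h : G | lam (ρ h u) ≠ 0}.Finite)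
    (hS : IsShear ρ lam w S) (g : G) (u : L) : S (ρ g u) = ρ g (S u) := by
  have h2 := B3_fin hfin w u
  rw [hS (ρ g u), hS u, map_sub, finsum_eq_sum _ h2, map_sum]
  congr 1
  have h3 : ∑ᶠ h : G, lam (ρ h⁻¹ (ρ g u)) • ρ h w =
      ∑ᶠ h : G, lam (ρ (g * h)⁻¹ (ρ g u)) • ρ (g * h) w :=
    (finsum_comp_equiv (f := fun h : G => lam (ρ h⁻¹ (ρ g u)) • ρ h w) (Equiv.mulLeft g)).symm
  rw [h3]
  have h4 : ∀ h : G, lam (ρ (g * h)⁻¹ (ρ g u)) • ρ (g * h) w =
      ρ g (lam (ρ h⁻¹ u) • ρ h w) := by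
    intro h
    rw [mul_inv_rev, rho_mul, rho_inv, rho_mul, map_smul]
  rw [finsum_congr h4]
  refine finsum_eq_sum_of_support_subset _ ?_
  intro h hh
  rw [Set.Finite.coe_toFinset]
  intro h0
  apply hh
  show ρ g (lam (ρ h⁻¹ u) • ρ h w) = 0
  have h5 : lam (ρ h⁻¹ u) • ρ h w = 0 := h0
  rw [h5, map_zero]

lemma IsShear.frame {V : X → Submodule k L} (hV : IsFrame ρ V) {w : L} {S : L →ₗ[k] L}
    (hfin : ∀ u, {h : G | lam (ρ h u) ≠ 0}.Finite)
    (hS : IsShear ρ lam w S) (hw : ∀ h, lam (ρ h w) = 0) :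
    IsFrame ρ (fun x => (V x).map S) := by
  obtain ⟨S', -, h1, h2⟩ := hS.equiv hfin hw
  have h1' : ∀ u, S (S' u) = u := fun u => congrArg (fun f => f u) h1
  have h2' : ∀ u, S' (S u) = u := fun u => congrArg (fun f => f u) h2
  refine ⟨fun g x => ?_, fun x => ?_, ?_⟩
  · show ((V x).map S).map (ρ g) = (V (g • x)).map S
    rw [← hV.map g x, ← Submodule.map_comp, ← Submodule.map_comp]
    congr 1
    refine LinearMap.ext fun u => ?_
    exact (hS.smul hfin g u).symm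
  · have := hV.fin x
    show FiniteDimensional k ((V x).map S)
    infer_instance
  · refine ⟨(Finsupp.mapRange.linearMap S) ∘ₗ hV.P ∘ₗ S', fun u x => ?_, fun u => ?_, ?_⟩
    · show (Finsupp.mapRange S S.map_zero (hV.P (S' u))) x ∈ (V x).map S
      rw [Finsupp.mapRange_apply]
      exact Submodule.mem_map_of_mem (hV.P_mem _ _)
    · show ((Finsupp.mapRange S S.map_zero (hV.P (S' u))).sum fun _ a => a) = u
      have h3 := hV.P_sum (S' u)
      have h4 : S ((hV.P (S' u)).sum fun _ a => a) = u := by rw [h3, h1']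
      have h5 : ((Finsupp.mapRange S S.map_zero (hV.P (S' u))).sum fun _ a => a) =
          (hV.P (S' u)).sum fun _ a => S a :=
        Finsupp.sum_mapRange_index (h := fun _ a => a) (fun _ => rfl)
      rw [h5]
      refine Eq.trans ?_ h4
      exact (map_finsuppSum S (hV.P (S' u)) (fun _ a => a)).symm
    · rintro x _ ⟨u, hu, rfl⟩
      show Finsupp.mapRange S S.map_zero (hV.P (S' (S u))) = Finsupp.single x (S u)
      rw [h2', hV.P_single hu, Finsupp.mapRange_single]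

/-- pieces of the new frame have the same dimension -/
lemma IsShear.finrank {V : X → Submodule k L} (hV : IsFrame ρ V) {w : L} {S : L →ₗ[k] L}
    (hfin : ∀ u, {h : G | lam (ρ h u) ≠ 0}.Finite)
    (hS : IsShear ρ lam w S) (hw : ∀ h, lam (ρ h w) = 0) (x : X) :
    Module.finrank k ((V x).map S) = Module.finrank k (V x) := by
  obtain ⟨S', -, h1, h2⟩ := hS.equiv hfin hw
  have hinj : Function.Injective S := by
    intro a b hab
    have h3 : S' (S a) = S' (S b) := by rw [hab]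
    have h2' : ∀ u, S' (S u) = u := fun u => congrArg (fun f => f u) h2
    rwa [h2', h2'] at h3
  exact (Submodule.equivMapOfInjective S hinj (V x)).finrank_eq.symm

end FP
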