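import Pool.Agent.Lib.MP_2d4659_gt.FP.B2

/-! # Transfers of a free piece to a neighbouring vertex -/

set_option autoImplicit false

namespace FP

variable {k G X T E L : Type} [Field k] [Group G] [MulAction G X] [AddCommGroup E] [Module k E]
  [AddCommGroup L] [Module k L]

variable (𝕋 : TreeD G X T) {ρ : G →* (L →ₗ[k] L)} {V : X → Submodule k L}

open Classical in
/-- the matrix coefficients of the translates of `v` -/
lemma B4_delta (hV : IsFrame ρ V) {t : T} {lam : L →ₗ[k] k} {v : L}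
    (hv : v ∈ V (𝕋.b t)) (hlam : SuppAt V lam (𝕋.b t)) (h1 : lam v = 1)
    (h2 : ∀ g : G, g • 𝕋.b t = 𝕋.b t → g ≠ 1 → lam (ρ g v) = 0) (g : G) :
    lam (ρ g v) = if g = 1 then 1 else 0 := by
  classical
  by_cases hg : g = 1
  · rw [if_pos hg, hg, map_one]
    exact h1
  · rw [if_neg hg]
    by_cases hs : g • 𝕋.b t = 𝕋.b t
    · exact h2 g hs hg
    · exact hlam _ hs _ ((hV.mem_smul g).2 hv)

/-- for `x = h • b t` the translates `g v`, `g • b t = x`, are linearly independent and span a complement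
of the part of `V x` on which all `lam (h u)` vanish -/
lemma transfer_split (hV : IsFrame ρ V) {t : T} {lam : L →ₗ[k] k} {v : L}
    (hv : v ∈ V (𝕋.b t)) (hlam : SuppAt V lam (𝕋.b t)) (h1 : lam v = 1)
    (h2 : ∀ g : G, g • 𝕋.b t = 𝕋.b t → g ≠ 1 → lam (ρ g v) = 0) {u : L} (hu : u ∈ V (𝕋.b t)) :
    ∃ u' ∈ V (𝕋.b t), (∀ h : G, lam (ρ h u') = 0) ∧
      u = u' + ∑ᶠ g : {g : G // g • 𝕋.b t = 𝕋.b t}, lam (ρ g.1⁻¹ u) • ρ g.1 v := by
  classical
  have : Finite {g : G // g • 𝕋.b t = 𝕋.b t} := 𝕋.stab_fin t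
  have : Fintype {g : G // g • 𝕋.b t = 𝕋.b t} := Fintype.ofFinite _
  rw [finsum_eq_sum_of_fintype]
  refine ⟨u - ∑ g : {g : G // g • 𝕋.b t = 𝕋.b t}, lam (ρ g.1⁻¹ u) • ρ g.1 v, ?_, ?_, ?_⟩
  · refine Submodule.sub_mem _ hu (Submodule.sum_mem _ fun g _ => Submodule.smul_mem _ _ ?_)
    have h3 := (hV.mem_smul g.1).2 hv
    rwa [g.2] at h3
  · intro h
    rw [map_sub, map_sub, map_sum, map_sum, sub_eq_zero]
    have h3 : ∀ g : {g : G // g • 𝕋.b t = 𝕋.b t},
        lam (ρ h (lam (ρ g.1⁻¹ u) • ρ g.1 v)) = if h * g.1 = 1 then lam (ρ h u) else 0 := by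
      intro g
      rw [map_smul, map_smul, ← rho_mul, B4_delta 𝕋 hV hv hlam h1 h2, smul_eq_mul, mul_ite, mul_one,
        mul_zero]
      by_cases hg : h * g.1 = 1
      · rw [if_pos hg, if_pos hg, ← eq_inv_of_mul_eq_one_left hg]
      · rw [if_neg hg, if_neg hg]
    rw [Finset.sum_congr rfl fun g _ => h3 g]
    by_cases hs : h • 𝕋.b t = 𝕋.b t
    · have hs' : h⁻¹ • 𝕋.b t = 𝕋.b t := by
        rw [inv_smul_eq_iff]
        exact hs.symm
      rw [Finset.sum_eq_single (⟨h⁻¹, hs'⟩ : {g : G // g • 𝕋.b t = 𝕋.b t})]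
      · rw [if_pos (mul_inv_cancel h)]
      · intro g _ hg
        rw [if_neg]
        intro h4
        apply hg
        apply Subtype.ext
        exact (eq_inv_of_mul_eq_one_right h4)
      · intro h4
        exact absurd (Finset.mem_univ _) h4
    · have h4 : lam (ρ h u) = 0 := hlam _ hs _ ((hV.mem_smul h).2 hu)
      rw [h4]
      simp
  · rw [sub_add_cancel]

/-- membership in the part on which all translates of `lam` vanish -/
lemma B4_mem_inf {ρ : G →* (L →ₗ[k] L)} {lam : L →ₗ[k] k} (u : L) :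
    u ∈ (⨅ h : G, LinearMap.ker (lam ∘ₗ ρ h)) ↔ ∀ h : G, lam (ρ h u) = 0 := by
  rw [Submodule.mem_iInf]
  exact Iff.rfl

include 𝕋 in
/-- the stabiliser of any vertex is finite, so only finitely many elements map `x₁` to `x` -/
lemma B4_fin (x₁ x : X) : {h : G | h • x₁ = x}.Finite := by
  obtain ⟨a, s, ha⟩ := 𝕋.cover x₁
  by_cases hne : ∃ h₀ : G, h₀ • x₁ = x
  · obtain ⟨h₀, hh₀⟩ := hne
    have h1 : {h : G | h • x₁ = x} ⊆ (fun g => h₀ * (a * g * a⁻¹)) '' {g : G | g • 𝕋.b s = 𝕋.b s} := by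
      intro h hh
      refine ⟨a⁻¹ * (h₀⁻¹ * h) * a, ?_, ?_⟩
      · show (a⁻¹ * (h₀⁻¹ * h) * a) • 𝕋.b s = 𝕋.b s
        rw [mul_smul, ← ha, mul_smul, inv_smul_eq_iff, ← ha, mul_smul, inv_smul_eq_iff, hh₀]
        exact hh
      · show h₀ * (a * (a⁻¹ * (h₀⁻¹ * h) * a) * a⁻¹) = h
        group
    exact ((𝕋.stab_fin s).image _).subset h1
  · have h1 : {h : G | h • x₁ = x} = ∅ := by
      ext h
      simp only [Set.mem_ofPred_eq, Set.mem_empty_iff_false, iff_false]
      exact fun h2 => hne ⟨h, h2⟩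
    rw [h1]
    exact Set.finite_empty

lemma transfer_frame (hV : IsFrame ρ V) {t : T} {x₁ : X} {lam : L →ₗ[k] k} {v : L}
    (hadj : 𝕋.d (𝕋.b t) x₁ = 1) (hv : v ∈ V (𝕋.b t)) (hlam : SuppAt V lam (𝕋.b t))
    (h1 : lam v = 1) (h2 : ∀ g : G, g • 𝕋.b t = 𝕋.b t → g ≠ 1 → lam (ρ g v) = 0) :
    IsFrame ρ (transferV ρ V lam v x₁) := by
  classical
  have hδ := B4_delta 𝕋 hV hv hlam h1 h2
  -- the coefficients
  have hfin : ∀ u : L, {h : G | lam (ρ h⁻¹ u) ≠ 0}.Finite := by
    intro u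
    have h3 : {h : G | lam (ρ h⁻¹ u) ≠ 0} = (fun g : G => g⁻¹) '' {h : G | lam (ρ h u) ≠ 0} := by
      ext h
      constructor
      · intro h4
        exact ⟨h⁻¹, h4, inv_inv h⟩
      · rintro ⟨g, hg, rfl⟩
        show lam (ρ g⁻¹⁻¹ u) ≠ 0
        rw [inv_inv]
        exact hg
    rw [h3]
    exact (hV.fin_supp 𝕋 hlam u).image _
  let C : L →ₗ[k] (G →₀ k) :=
    { toFun := fun u => Finsupp.ofSupportFinite (fun h => lam (ρ h⁻¹ u)) (hfin u)
      map_add' := by
        intro u w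
        ext h
        show lam (ρ h⁻¹ (u + w)) = lam (ρ h⁻¹ u) + lam (ρ h⁻¹ w)
        rw [map_add, map_add]
      map_smul' := by
        intro c u
        ext h
        show lam (ρ h⁻¹ (c • u)) = c * lam (ρ h⁻¹ u)
        rw [map_smul, map_smul, smul_eq_mul] }
  have hC : ∀ u h, C u h = lam (ρ h⁻¹ u) := fun u h => rfl
  let N : L →ₗ[k] L := (Finsupp.linearCombination k (fun h : G => ρ h v)) ∘ₗ C
  let Q : (G →₀ k) →ₗ[k] (X →₀ L) :=
    Finsupp.linearCombination k (fun h : G => Finsupp.single (h • x₁) (ρ h v))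
  have hCv : ∀ h : G, C (ρ h v) = Finsupp.single h 1 := by
    intro h
    ext g
    rw [hC, ← rho_mul, hδ, Finsupp.single_apply]
    by_cases hg : h = g
    · rw [if_pos hg, if_pos]
      rw [hg, inv_mul_cancel]
    · rw [if_neg hg, if_neg]
      intro h3
      exact hg (inv_mul_eq_one.1 h3).symm
  have hC0 : ∀ u, (∀ h : G, lam (ρ h u) = 0) → C u = 0 := by
    intro u hu
    ext g
    rw [hC, hu]
    rfl
  have hNv : ∀ h : G, N (ρ h v) = ρ h v := by
    intro h
    show Finsupp.linearCombination k (fun h : G => ρ h v) (C (ρ h v)) = ρ h v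
    rw [hCv, Finsupp.linearCombination_single, one_smul]
  have hlinN : ∀ (c : G →₀ k) (h : G),
      lam (ρ h (Finsupp.linearCombination k (fun h : G => ρ h v) c)) = c h⁻¹ := by
    intro c h
    induction c using Finsupp.induction_linear with
    | zero => simp
    | add c c' hc hc' => rw [map_add, map_add, map_add, hc, hc', Finsupp.add_apply]
    | single g a =>
      rw [Finsupp.linearCombination_single, map_smul, map_smul, ← rho_mul, hδ, smul_eq_mul,
        Finsupp.single_apply]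
      by_cases hg : h * g = 1
      · rw [if_pos hg, if_pos (eq_inv_of_mul_eq_one_right hg), mul_one]
      · rw [if_neg hg, if_neg, mul_zero]
        intro h3
        apply hg
        rw [h3, mul_inv_cancel]
  have hker : ∀ u h, lam (ρ h (u - N u)) = 0 := by
    intro u h
    have h3 : lam (ρ h (N u)) = C u h⁻¹ := hlinN (C u) h
    rw [map_sub, map_sub, h3, hC, inv_inv, sub_self]
  have hPker : ∀ w : L, (∀ h : G, lam (ρ h w) = 0) → ∀ x (h : G), lam (ρ h (hV.P w x)) = 0 := by
    intro w hw x h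
    by_cases hx : h • x = 𝕋.b t
    · have h3 := hw h
      rw [hV.lam_eq hlam, ← hx, hV.P_smul] at h3
      exact h3
    · exact hlam _ hx _ ((hV.mem_smul h).2 (hV.P_mem w x))
  let P' : L →ₗ[k] (X →₀ L) := hV.P ∘ₗ (LinearMap.id - N) + Q ∘ₗ C
  have hP' : ∀ u, P' u = hV.P (u - N u) + Q (C u) := fun u => rfl
  refine ⟨?_, ?_, P', ?_, ?_, ?_⟩
  · -- the action
    intro g x
    unfold transferV
    rw [Submodule.map_sup]
    refine congrArg₂ (· ⊔ ·) ?_ ?_
    · apply le_antisymm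
      · rintro _ ⟨u, hu, rfl⟩
        obtain ⟨hu1, hu2⟩ := Submodule.mem_inf.1 hu
        rw [B4_mem_inf] at hu2
        refine Submodule.mem_inf.2 ⟨(hV.mem_smul g).2 hu1, (B4_mem_inf _).2 fun h => ?_⟩
        rw [← rho_mul]
        exact hu2 _
      · intro u hu
        obtain ⟨hu1, hu2⟩ := Submodule.mem_inf.1 hu
        rw [B4_mem_inf] at hu2
        refine ⟨ρ g⁻¹ u, Submodule.mem_inf.2 ⟨?_, (B4_mem_inf _).2 fun h => ?_⟩, rho_inv' ρ g u⟩
        · have h3 := (hV.mem_smul g⁻¹).2 hu1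
          rwa [inv_smul_smul] at h3
        · rw [← rho_mul]
          exact hu2 _
    · rw [Submodule.map_span]
      refine congrArg _ ?_
      ext u
      constructor
      · rintro ⟨_, ⟨h, hh, rfl⟩, rfl⟩
        refine ⟨g * h, ?_, (rho_mul ρ g h v).symm⟩
        rw [mul_smul, hh]
      · rintro ⟨h, hh, rfl⟩
        refine ⟨ρ (g⁻¹ * h) v, ⟨g⁻¹ * h, ?_, rfl⟩, ?_⟩
        · rw [mul_smul, hh, inv_smul_smul]
        · rw [← rho_mul, mul_inv_cancel_left]
  · intro x
    have := hV.fin x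
    have h3 : FiniteDimensional k
        (V x ⊓ ⨅ h : G, LinearMap.ker (lam ∘ₗ ρ h) : Submodule k L) :=
      Submodule.finiteDimensional_of_le inf_le_left
    have h4 : ({u | ∃ h : G, h • x₁ = x ∧ u = ρ h v} : Set L).Finite := by
      refine ((B4_fin 𝕋 x₁ x).image (fun h => ρ h v)).subset ?_
      rintro u ⟨h, hh, rfl⟩
      exact ⟨h, hh, rfl⟩
    have := FiniteDimensional.span_of_finite k h4
    unfold transferV
    exact Submodule.finiteDimensional_sup _ _
  · intro u x
    rw [hP', Finsupp.add_apply]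
    refine Submodule.add_mem_sup ?_ ?_
    · exact Submodule.mem_inf.2 ⟨hV.P_mem _ _, (B4_mem_inf _).2 (hPker _ (hker u) x)⟩
    · generalize C u = c
      show (Finsupp.linearCombination k (fun h : G => Finsupp.single (h • x₁) (ρ h v)) c) x ∈ _
      induction c using Finsupp.induction_linear with
      | zero => rw [map_zero]; exact Submodule.zero_mem _
      | add c c' hc hc' => rw [map_add, Finsupp.add_apply]; exact Submodule.add_mem _ hc hc'
      | single g a =>
        rw [Finsupp.linearCombination_single, Finsupp.smul_apply, Finsupp.single_apply]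
        refine Submodule.smul_mem _ _ ?_
        by_cases hg : g • x₁ = x
        · rw [if_pos hg]
          exact Submodule.subset_span ⟨g, hg, rfl⟩
        · rw [if_neg hg]
          exact Submodule.zero_mem _
  · intro u
    rw [hP', Finsupp.sum_add_index' (fun _ => rfl) (fun _ _ _ => rfl), hV.P_sum]
    have h3 : ∀ c : G →₀ k, ((Q c).sum fun _ a => a) =
        Finsupp.linearCombination k (fun h : G => ρ h v) c := by
      intro c
      induction c using Finsupp.induction_linear with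
      | zero => simp
      | add c c' hc hc' =>
        rw [map_add, map_add, Finsupp.sum_add_index' (fun _ => rfl) (fun _ _ _ => rfl), hc, hc']
      | single g a =>
        show ((Finsupp.linearCombination k (fun h : G => Finsupp.single (h • x₁) (ρ h v))
          (Finsupp.single g a)).sum fun _ a => a) = _
        rw [Finsupp.linearCombination_single, Finsupp.linearCombination_single,
          Finsupp.smul_single, Finsupp.sum_single_index rfl]
    rw [h3]
    show u - N u + N u = u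
    rw [sub_add_cancel]
  · intro x u hu
    have hA : ∀ u ∈ (V x ⊓ ⨅ h : G, LinearMap.ker (lam ∘ₗ ρ h) : Submodule k L),
        P' u = Finsupp.single x u := by
      intro u hu
      obtain ⟨hu1, hu2⟩ := Submodule.mem_inf.1 hu
      rw [B4_mem_inf] at hu2
      have h3 : N u = 0 := by
        show Finsupp.linearCombination k (fun h : G => ρ h v) (C u) = 0
        rw [hC0 u hu2, map_zero]
      rw [hP', hC0 u hu2, map_zero, add_zero, h3, sub_zero, hV.P_single hu1]
    have hB : ∀ u ∈ Submodule.span k {u | ∃ h : G, h • x₁ = x ∧ u = ρ h v},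
        P' u = Finsupp.single x u := by
      intro u hu
      induction hu using Submodule.span_induction with
      | mem u hu =>
        obtain ⟨h, hh, rfl⟩ := hu
        rw [hP', hNv, sub_self, map_zero, zero_add, hCv]
        show Finsupp.linearCombination k (fun h : G => Finsupp.single (h • x₁) (ρ h v))
          (Finsupp.single h 1) = _
        rw [Finsupp.linearCombination_single, one_smul, hh]
      | zero => rw [map_zero, Finsupp.single_zero]
      | add a b _ _ ha hb => rw [map_add, ha, hb, Finsupp.single_add]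
      | smul c a _ ha => rw [map_smul, ha, Finsupp.smul_single]
    obtain ⟨a, ha, b, hb, rfl⟩ := Submodule.mem_sup.1 hu
    rw [map_add, hA a ha, hB b hb, Finsupp.single_add]

/-- no translate of a neighbour of `b t` is `b t` -/
lemma B4_empty {t : T} {x₁ : X} (hadj : 𝕋.d (𝕋.b t) x₁ = 1) (h : G) : h • x₁ ≠ 𝕋.b t := by
  intro hh
  obtain ⟨a, s, ha⟩ := 𝕋.cover x₁
  rw [ha] at hadj hh
  have h3 := 𝕋.type_ne hadj
  rw [← mul_smul] at hh
  exact h3 (𝕋.disj _ _ _ hh).symm

/-- the new piece at the orbit `t` -/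
lemma transferV_same (hV : IsFrame ρ V) {t : T} {x₁ : X} {lam : L →ₗ[k] k} {v : L}
    (hadj : 𝕋.d (𝕋.b t) x₁ = 1) :
    transferV ρ V lam v x₁ (𝕋.b t) = V (𝕋.b t) ⊓ ⨅ h : G, LinearMap.ker (lam ∘ₗ ρ h) := by
  have h3 : ({u | ∃ h : G, h • x₁ = 𝕋.b t ∧ u = ρ h v} : Set L) = ∅ := by
    ext u
    simp only [Set.mem_ofPred_eq, Set.mem_empty_iff_false, iff_false]
    rintro ⟨h, hh, -⟩
    exact B4_empty 𝕋 hadj h hh
  unfold transferV
  rw [h3, Submodule.span_empty, sup_bot_eq]

/-- at the orbits different from that of `b t` all translates of `lam` vanish -/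
lemma B4_inf (hV : IsFrame ρ V) {t s : T} {lam : L →ₗ[k] k} (hlam : SuppAt V lam (𝕋.b t))
    (hs : s ≠ t) : V (𝕋.b s) ⊓ ⨅ h : G, LinearMap.ker (lam ∘ₗ ρ h) = V (𝕋.b s) := by
  rw [inf_eq_left]
  intro u hu
  rw [B4_mem_inf]
  intro h
  refine hlam (h • 𝕋.b s) (fun h3 => hs (𝕋.disj _ _ _ h3)) _ ((hV.mem_smul h).2 hu)

/-- the new piece at the orbit of the neighbour -/
lemma transferV_nbr (hV : IsFrame ρ V) {t s : T} {a : G} {x₁ : X} {lam : L →ₗ[k] k} {v : L}
    (hadj : 𝕋.d (𝕋.b t) x₁ = 1) (hx₁ : x₁ = a • 𝕋.b s) (hlam : SuppAt V lam (𝕋.b t)) :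
    transferV ρ V lam v x₁ (𝕋.b s) =
      V (𝕋.b s) ⊔ Submodule.span k {u | ∃ h : G, h • x₁ = 𝕋.b s ∧ u = ρ h v} := by
  have hs : s ≠ t := by
    rw [hx₁] at hadj
    exact (𝕋.type_ne hadj).symm
  unfold transferV
  rw [B4_inf 𝕋 hV hlam hs]

/-- the pieces at all other orbits do not change -/
lemma transferV_other (hV : IsFrame ρ V) {t s s' : T} {a : G} {x₁ : X} {lam : L →ₗ[k] k} {v : L}
    (hx₁ : x₁ = a • 𝕋.b s) (hlam : SuppAt V lam (𝕋.b t)) (hs : s' ≠ s) (ht : s' ≠ t) :
    transferV ρ V lam v x₁ (𝕋.b s') = V (𝕋.b s') := by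
  have h3 : ({u | ∃ h : G, h • x₁ = 𝕋.b s' ∧ u = ρ h v} : Set L) = ∅ := by
    ext u
    simp only [Set.mem_ofPred_eq, Set.mem_empty_iff_false, iff_false]
    rintro ⟨h, hh, -⟩
    rw [hx₁, ← mul_smul] at hh
    exact hs (𝕋.disj _ _ _ hh).symm
  unfold transferV
  rw [h3, Submodule.span_empty, sup_bot_eq, B4_inf 𝕋 hV hlam ht]

end FP
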