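import Pool.Agent.Lib.MP_2d4659_gt.FP.B3

/-! # Cleaning one direction: chain of shears -/

set_option autoImplicit false

namespace FP

variable {k G X T E L : Type} [Field k] [Group G] [MulAction G X] [AddCommGroup E] [Module k E]
  [AddCommGroup L] [Module k L]

variable (𝕋 : TreeD G X T) {ρ : G →* (L →ₗ[k] L)} {V : X → Submodule k L}

omit [AddCommGroup E] [Module k E] in
theorem B5_sum_zero {lam : L →ₗ[k] k} {z : X →₀ L}
    (hlz : ∀ (h : G) (y : X), lam (ρ h (z y)) = 0) (h : G) :
    lam (ρ h (z.sum fun _ a => a)) = 0 := by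
  rw [Finsupp.sum, map_sum, map_sum]
  exact Finset.sum_eq_zero fun y _ => hlz h y

theorem B5_aux (hV : IsFrame ρ V) {t : T} {lam : L →ₗ[k] k} (hlam : SuppAt V lam (𝕋.b t))
    (z : X →₀ L) :
    (∀ y, z y ∈ V y) → (∀ y ∈ z.support, y ≠ 𝕋.b t) →
    (∀ (h : G) (y : X), lam (ρ h (z y)) = 0) →
    ∀ S : L →ₗ[k] L, IsShear ρ lam (z.sum fun _ a => a) S →
    Relation.ReflTransGen (Step 𝕋 ρ) V (fun x => (V x).map S) := by
  have hfin := hV.fin_supp 𝕋 hlam
  induction z using Finsupp.induction with
  | zero =>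
    intro _ _ _ S hS
    have h1 : S = LinearMap.id := by
      ext u
      rw [hS u]
      simp
    rw [h1]
    simp only [Submodule.map_id]
    exact Relation.ReflTransGen.refl
  | single_add y a z' hy ha ih =>
    intro hz hzt hlz S hS
    have hzy : (Finsupp.single y a + z') y = a := by
      rw [Finsupp.add_apply, Finsupp.single_eq_same, Finsupp.notMem_support_iff.mp hy, add_zero]
    have hzne : ∀ y', y' ≠ y → (Finsupp.single y a + z') y' = z' y' := by
      intro y' hy'
      rw [Finsupp.add_apply, Finsupp.single_eq_of_ne hy', zero_add]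
    have ha1 : a ∈ V y := by
      have := hz y
      rwa [hzy] at this
    have hyt : y ≠ 𝕋.b t := by
      refine hzt y ?_
      rw [Finsupp.mem_support_iff, hzy]
      exact ha
    have hla : ∀ h : G, lam (ρ h a) = 0 := by
      intro h
      have := hlz h y
      rwa [hzy] at this
    have hz' : ∀ y', z' y' ∈ V y' := by
      intro y'
      by_cases hyy : y' = y
      · rw [hyy, Finsupp.notMem_support_iff.mp hy]
        exact zero_mem _
      · have := hz y'
        rwa [hzne y' hyy] at this
    have hzt' : ∀ y' ∈ z'.support, y' ≠ 𝕋.b t := by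
      intro y' hy'
      have hyy : y' ≠ y := fun e => hy (e ▸ hy')
      refine hzt y' ?_
      rw [Finsupp.mem_support_iff, hzne y' hyy]
      exact Finsupp.mem_support_iff.mp hy'
    have hlz' : ∀ (h : G) (y' : X), lam (ρ h (z' y')) = 0 := by
      intro h y'
      by_cases hyy : y' = y
      · rw [hyy, Finsupp.notMem_support_iff.mp hy, map_zero, map_zero]
      · have := hlz h y'
        rwa [hzne y' hyy] at this
    obtain ⟨S1, hS1⟩ := exists_shear (ρ := ρ) hfin a
    obtain ⟨S', hS'⟩ := exists_shear (ρ := ρ) hfin (z'.sum fun _ b => b)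
    have hw' := B5_sum_zero (ρ := ρ) hlz'
    have hsum : ((Finsupp.single y a + z').sum fun _ b => b) = a + (z'.sum fun _ b => b) := by
      rw [Finsupp.sum_add_index' (fun _ => rfl) (fun _ _ _ => rfl), Finsupp.sum_single_index rfl]
    rw [hsum] at hS
    have hSeq : S = S1 ∘ₗ S' := hS.uniq (IsShear.comp hfin hS1 hS' hw')
    refine Relation.ReflTransGen.tail (ih hz' hzt' hlz' S' hS') ?_
    refine Step.shear t y lam a S1 hyt ?_ ?_ hla hS1 ?_
    · exact ⟨a, ha1, hS'.fixes hla⟩
    · rintro y' hy' u ⟨v, hv, rfl⟩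
      have h1 := hS'.lam_eq hfin hw' v 1
      simp only [map_one, Module.End.one_apply] at h1
      rw [h1]
      exact hlam y' hy' v hv
    · intro x
      rw [hSeq, Submodule.map_comp]

/-- a shear by a sum of elements of several pieces is a composition of steps (induction on the support
of `z`; `lam` stays the same, the elements `z y` are fixed by the previous shears) -/
theorem shear_chain (hV : IsFrame ρ V) {t : T} {lam : L →ₗ[k] k} {z : X →₀ L} {S : L →ₗ[k] L}
    (hz : ∀ y, z y ∈ V y) (hzt : ∀ y ∈ z.support, y ≠ 𝕋.b t) (hlam : SuppAt V lam (𝕋.b t))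
    (hlz : ∀ (h : G) (y : X), lam (ρ h (z y)) = 0)
    (hS : IsShear ρ lam (z.sum fun _ a => a) S) :
    Relation.ReflTransGen (Step 𝕋 ρ) V (fun x => (V x).map S) := by
  exact B5_aux 𝕋 hV hlam z hz hzt hlz S hS

end FP
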