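import Pool.Agent.Lib.MP_2d4659_gt.FP.B3

/-! # Cleaning one direction: the measures -/

set_option autoImplicit false

namespace FP

variable {k G X T E L : Type} [Field k] [Group G] [MulAction G X] [AddCommGroup E] [Module k E]
  [AddCommGroup L] [Module k L]

variable (𝕋 : TreeD G X T) {ρ : G →* (L →ₗ[k] L)} {f : L →ₗ[k] (G →₀ E)} {V : X → Submodule k L}

lemma B6_dist (h g : G) (x : X) :
    𝕋.d x ((h⁻¹ * g) • 𝕋.b 𝕋.o) = 𝕋.d (h • x) (g • 𝕋.b 𝕋.o) := by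
  rw [← 𝕋.inv h x, ← mul_smul, mul_inv_cancel_left]

lemma B6_f (hf : EquivF ρ f) (h g : G) (w : L) : f (ρ h w) g = f w (h⁻¹ * g) := by
  have h1 := hf h w (h⁻¹ * g)
  rwa [mul_inv_cancel_left] at h1

lemma B6_supp (hV : IsFrame ρ V) {t : T} {lam : L →ₗ[k] k} (hlam : SuppAt V lam (𝕋.b t)) {x : X}
    {u : L} (hu : u ∈ V x) {h : G} (hne : lam (ρ h⁻¹ u) ≠ 0) : h⁻¹ • x = 𝕋.b t := by
  by_contra hx
  exact hne (hlam (h⁻¹ • x) hx (ρ h⁻¹ u) ((hV.mem_smul h⁻¹).2 hu))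

omit [Group G] [MulAction G X] in
lemma B6_sum (z : X →₀ L) (g : G) :
    f (z.sum fun _ a => a) g = ∑ x' ∈ z.support, f (z x') g := by
  rw [Finsupp.sum, map_sum, Finsupp.finsetSum_apply]

lemma B6_expand {lam : L →ₗ[k] k} {w : L} {S : L →ₗ[k] L}
    (hfin : ∀ u, {h : G | lam (ρ h u) ≠ 0}.Finite) (hS : IsShear ρ lam w S) (u : L) (g : G) :
    f (S u) g = f u g - ∑ h ∈ (B3_fin hfin w u).toFinset, f (lam (ρ h⁻¹ u) • ρ h w) g := by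
  rw [hS u, finsum_eq_sum _ (B3_fin hfin w u), map_sub, Finsupp.sub_apply, map_sum,
    Finsupp.finsetSum_apply]

lemma B6_zero {lam : L →ₗ[k] k} {w : L} {S : L →ₗ[k] L}
    (hfin : ∀ u, {h : G | lam (ρ h u) ≠ 0}.Finite) (hS : IsShear ρ lam w S) (u : L) (g : G)
    (h0 : f u g = 0) (h1 : ∀ h : G, lam (ρ h⁻¹ u) ≠ 0 → f (ρ h w) g = 0) : f (S u) g = 0 := by
  rw [B6_expand hfin hS, h0, zero_sub, neg_eq_zero]
  refine Finset.sum_eq_zero fun h _ => ?_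
  rw [map_smul, Finsupp.smul_apply]
  by_cases hc : lam (ρ h⁻¹ u) = 0
  · rw [hc, zero_smul]
  · rw [h1 h hc, smul_zero]

section

variable {t : T} {y : X} {r : ℕ} {lam : L →ₗ[k] k} {z : X →₀ L} {S : L →ₗ[k] L}

/-- the sum `f w` vanishes far away from the base vertex -/
lemma B6_far (hz : ∀ x, z x ∈ W 𝕋 f V x (r + 1 - 𝕋.d (𝕋.b t) x)) (g : G)
    (hg : r + 1 ≤ 𝕋.d (𝕋.b t) (g • 𝕋.b 𝕋.o)) : f (z.sum fun _ a => a) g = 0 := by
  rw [B6_sum]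
  refine Finset.sum_eq_zero fun x' _ => (hz x').2 g ?_
  have h1 := 𝕋.tri (𝕋.b t) x' (g • 𝕋.b 𝕋.o)
  omega

/-- on the sphere of radius `r` the sum `f w` is supported behind `y` -/
lemma B6_behind (hadj : 𝕋.d (𝕋.b t) y = 1)
    (hz : ∀ x, z x ∈ W 𝕋 f V x (r + 1 - 𝕋.d (𝕋.b t) x))
    (hsupp : ∀ x ∈ z.support, 𝕋.d y x + 1 = 𝕋.d (𝕋.b t) x) (g : G)
    (hg : 𝕋.d (𝕋.b t) (g • 𝕋.b 𝕋.o) = r) (hne : f (z.sum fun _ a => a) g ≠ 0) :
    𝕋.d y (g • 𝕋.b 𝕋.o) + 1 = r := by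
  rw [B6_sum] at hne
  obtain ⟨x', hx', hx'f⟩ := Finset.exists_ne_zero_of_sum_ne_zero hne
  have h1 : 𝕋.d x' (g • 𝕋.b 𝕋.o) < r + 1 - 𝕋.d (𝕋.b t) x' := by
    by_contra hc
    exact hx'f ((hz x').2 g (not_lt.1 hc))
  have h2 := 𝕋.cone hadj (hsupp x' hx') (r := r) (z := g • 𝕋.b 𝕋.o) (by omega) hg
  omega

/-- the hypothesis of the following lemmas imply `lam (h z_x) = 0` -/
lemma clean_lz (hf : EquivF ρ f) (hV : IsFrame ρ V)
    (hz : ∀ x, z x ∈ W 𝕋 f V x (r + 1 - 𝕋.d (𝕋.b t) x))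
    (hsupp : ∀ x ∈ z.support, 𝕋.d y x + 1 = 𝕋.d (𝕋.b t) x) (hlam : SuppAt V lam (𝕋.b t))
    (hlW : ∀ u ∈ W 𝕋 f V (𝕋.b t) r, lam u = 0) (h : G) (x : X) : lam (ρ h (z x)) = 0 := by
  by_cases hx : x ∈ z.support
  · by_cases hxt : h • x = 𝕋.b t
    · refine hlW _ ?_
      have h1 : ρ h (z x) ∈ W 𝕋 f V (h • x) (r + 1 - 𝕋.d (𝕋.b t) x) :=
        (W_smul 𝕋 hf hV h x _ _).2 (hz x)
      rw [hxt] at h1
      refine W_mono 𝕋 ?_ h1
      have h2 := hsupp x hx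
      omega
    · exact hlam (h • x) hxt _ ((hV.mem_smul h).2 (hz x).1)
  · rw [Finsupp.notMem_support_iff.1 hx, map_zero, map_zero]

lemma B6_lw (hf : EquivF ρ f) (hV : IsFrame ρ V)
    (hz : ∀ x, z x ∈ W 𝕋 f V x (r + 1 - 𝕋.d (𝕋.b t) x))
    (hsupp : ∀ x ∈ z.support, 𝕋.d y x + 1 = 𝕋.d (𝕋.b t) x) (hlam : SuppAt V lam (𝕋.b t))
    (hlW : ∀ u ∈ W 𝕋 f V (𝕋.b t) r, lam u = 0) (h : G) :
    lam (ρ h (z.sum fun _ a => a)) = 0 := by
  rw [Finsupp.sum, map_sum, map_sum]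
  exact Finset.sum_eq_zero fun x _ => clean_lz 𝕋 hf hV hz hsupp hlam hlW h x

/-- the shear maps `W` to the new `W` -/
lemma clean_W (hf : EquivF ρ f) (hV : IsFrame ρ V) (hadj : 𝕋.d (𝕋.b t) y = 1)
    (hz : ∀ x, z x ∈ W 𝕋 f V x (r + 1 - 𝕋.d (𝕋.b t) x))
    (hsupp : ∀ x ∈ z.support, 𝕋.d y x + 1 = 𝕋.d (𝕋.b t) x) (hlam : SuppAt V lam (𝕋.b t))
    (hlW : ∀ u ∈ W 𝕋 f V (𝕋.b t) r, lam u = 0) (hS : IsShear ρ lam (z.sum fun _ a => a) S)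
    (x : X) (q : ℕ) (u : L) (hu : u ∈ W 𝕋 f V x q) :
    S u ∈ W 𝕋 f (fun x => (V x).map S) x q := by
  refine ⟨Submodule.mem_map_of_mem hu.1, fun g hg => ?_⟩
  refine B6_zero (fun u => IsFrame.fin_supp 𝕋 hV hlam u) hS u g (hu.2 g hg) fun h hh => ?_
  have hx := B6_supp 𝕋 hV hlam hu.1 hh
  have hx' : h • 𝕋.b t = x := by rw [← hx, smul_inv_smul]
  have h1 : ρ h⁻¹ u ∈ W 𝕋 f V (𝕋.b t) q := by
    rw [← hx]
    exact (W_smul 𝕋 hf hV h⁻¹ x q u).2 hu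
  have hq : r + 1 ≤ q := by
    by_contra hc
    exact hh (hlW _ (W_mono 𝕋 (by omega) h1))
  rw [B6_f hf]
  refine B6_far 𝕋 hz _ ?_
  rw [B6_dist, hx']
  omega

/-- the shear maps `Wd` to the new `Wd` -/
lemma clean_Wd (hf : EquivF ρ f) (hV : IsFrame ρ V) (hadj : 𝕋.d (𝕋.b t) y = 1)
    (hz : ∀ x, z x ∈ W 𝕋 f V x (r + 1 - 𝕋.d (𝕋.b t) x))
    (hsupp : ∀ x ∈ z.support, 𝕋.d y x + 1 = 𝕋.d (𝕋.b t) x) (hlam : SuppAt V lam (𝕋.b t))
    (hlW : ∀ u ∈ Wd 𝕋 f V (𝕋.b t) y r, lam u = 0) (hS : IsShear ρ lam (z.sum fun _ a => a) S)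
    (x x' : X) (hxx : 𝕋.d x x' = 1) (q : ℕ) (u : L) (hu : u ∈ Wd 𝕋 f V x x' q) :
    S u ∈ Wd 𝕋 f (fun x => (V x).map S) x x' q := by
  have hlW' : ∀ u ∈ W 𝕋 f V (𝕋.b t) r, lam u = 0 := fun u hu => hlW u (W_le_Wd 𝕋 hu)
  have h0 := clean_W 𝕋 hf hV hadj hz hsupp hlam hlW' hS x (q + 1) u (Wd_le_W 𝕋 hu)
  refine ⟨h0.1, h0.2, fun g hg hg' => ?_⟩
  refine B6_zero (fun u => IsFrame.fin_supp 𝕋 hV hlam u) hS u g (hu.2.2 g hg hg') fun h hh => ?_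
  have hx := B6_supp 𝕋 hV hlam hu.1 hh
  have hx' : h • 𝕋.b t = x := by rw [← hx, smul_inv_smul]
  have h1 : ρ h⁻¹ u ∈ Wd 𝕋 f V (𝕋.b t) (h⁻¹ • x') q := by
    rw [← hx]
    exact (Wd_smul 𝕋 hf hV h⁻¹ x x' q u).2 hu
  have hq : r ≤ q := by
    by_contra hc
    exact hh (hlW' _ (W_mono 𝕋 (by omega) (Wd_le_W 𝕋 h1)))
  have hd : 𝕋.d (𝕋.b t) ((h⁻¹ * g) • 𝕋.b 𝕋.o) = q := by
    rw [B6_dist, hx', hg]
  have hd' : 𝕋.d (h⁻¹ • x') ((h⁻¹ * g) • 𝕋.b 𝕋.o) + 1 = q := by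
    rw [B6_dist, smul_inv_smul, hg']
  have hadj' : 𝕋.d (𝕋.b t) (h⁻¹ • x') = 1 := by
    rw [← hx, 𝕋.inv, hxx]
  rw [B6_f hf]
  rcases Nat.lt_or_ge r q with hrq | hrq
  · exact B6_far 𝕋 hz _ (by omega)
  · have hrq' : q = r := by omega
    by_contra hne
    have h2 := B6_behind 𝕋 hadj hz hsupp (h⁻¹ * g) (by omega) hne
    have h3 : y = h⁻¹ • x' := 𝕋.adj_unique hadj hadj' (z := (h⁻¹ * g) • 𝕋.b 𝕋.o)
      (by omega) (by omega)
    rw [← h3, hrq'] at h1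
    exact hh (hlW _ h1)

/-- the shear moves `v` into the new `Wd` -/
lemma clean_v (hf : EquivF ρ f) (hV : IsFrame ρ V) (hadj : 𝕋.d (𝕋.b t) y = 1)
    (hz : ∀ x, z x ∈ W 𝕋 f V x (r + 1 - 𝕋.d (𝕋.b t) x))
    (hsupp : ∀ x ∈ z.support, 𝕋.d y x + 1 = 𝕋.d (𝕋.b t) x) (hlam : SuppAt V lam (𝕋.b t))
    (hlW : ∀ u ∈ Wd 𝕋 f V (𝕋.b t) y r, lam u = 0) (hS : IsShear ρ lam (z.sum fun _ a => a) S)
    {v : L} (hv : v ∈ W 𝕋 f V (𝕋.b t) (r + 1)) (hlv : lam v = 1)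
    (heq : ∀ g : G, 𝕋.d (𝕋.b t) (g • 𝕋.b 𝕋.o) = r → 𝕋.d y (g • 𝕋.b 𝕋.o) + 1 = r →
      f v g = f (z.sum fun _ a => a) g) :
    S v ∈ Wd 𝕋 f (fun x => (V x).map S) (𝕋.b t) y r := by
  have hlW' : ∀ u ∈ W 𝕋 f V (𝕋.b t) r, lam u = 0 := fun u hu => hlW u (W_le_Wd 𝕋 hu)
  have h0 := clean_W 𝕋 hf hV hadj hz hsupp hlam hlW' hS (𝕋.b t) (r + 1) v hv
  refine ⟨h0.1, h0.2, fun g hg hg' => ?_⟩
  have hfin : ∀ u, {h : G | lam (ρ h u) ≠ 0}.Finite := fun u => IsFrame.fin_supp 𝕋 hV hlam u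
  rw [B6_expand hfin hS, heq g hg hg', sub_eq_zero]
  have h1 : ∀ w : L, lam (ρ (1 : G)⁻¹ v) • ρ (1 : G) w = w := by
    intro w
    rw [inv_one, map_one, Module.End.one_apply, Module.End.one_apply, hlv, one_smul]
  rw [Finset.sum_eq_single (1 : G)]
  · rw [h1]
  · intro h _ hne
    rw [map_smul, Finsupp.smul_apply]
    by_cases hc : lam (ρ h⁻¹ v) = 0
    · rw [hc, zero_smul]
    · have hx := B6_supp 𝕋 hV hlam hv.1 hc
      have hx' : h • 𝕋.b t = 𝕋.b t := by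
        conv_lhs => rw [← hx]
        rw [smul_inv_smul]
      rw [B6_f hf]
      by_contra hne'
      have hne'' : f (z.sum fun _ a => a) (h⁻¹ * g) ≠ 0 := by
        intro h0
        apply hne'
        rw [h0, smul_zero]
      have hd : 𝕋.d (𝕋.b t) ((h⁻¹ * g) • 𝕋.b 𝕋.o) = r := by
        rw [B6_dist, hx', hg]
      have h2 := B6_behind 𝕋 hadj hz hsupp (h⁻¹ * g) hd hne''
      rw [B6_dist] at h2
      have hadj' : 𝕋.d (𝕋.b t) (h • y) = 1 := by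
        conv_lhs => rw [← hx']
        rw [𝕋.inv, hadj]
      have h3 : h • y = y := 𝕋.adj_unique hadj' hadj (z := g • 𝕋.b 𝕋.o) (by omega) (by omega)
      exact hne (𝕋.edge h _ _ hadj hx' h3)
  · intro h1'
    have h2 : lam (ρ (1 : G)⁻¹ v) • ρ (1 : G) (z.sum fun _ a => a) = 0 := by
      by_contra hc
      apply h1'
      rw [Set.Finite.mem_toFinset]
      exact hc
    rw [h2, map_zero]
    rfl

/-- the measures -/
theorem clean_measure [Fintype T] (hf : EquivF ρ f) (hV : IsFrame ρ V)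
    (hadj : 𝕋.d (𝕋.b t) y = 1) {N : ℕ} (hB : Bdd 𝕋 f V N)
    (hz : ∀ x, z x ∈ W 𝕋 f V x (r + 1 - 𝕋.d (𝕋.b t) x))
    (hsupp : ∀ x ∈ z.support, 𝕋.d y x + 1 = 𝕋.d (𝕋.b t) x) (hlam : SuppAt V lam (𝕋.b t))
    (hlW : ∀ u ∈ Wd 𝕋 f V (𝕋.b t) y r, lam u = 0) (hS : IsShear ρ lam (z.sum fun _ a => a) S)
    {v : L} (hv : v ∈ W 𝕋 f V (𝕋.b t) (r + 1)) (hlv : lam v = 1)
    (heq : ∀ g : G, 𝕋.d (𝕋.b t) (g • 𝕋.b 𝕋.o) = r → 𝕋.d y (g • 𝕋.b 𝕋.o) + 1 = r →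
      f v g = f (z.sum fun _ a => a) g) (hrN : r < N) :
    Bdd 𝕋 f (fun x => (V x).map S) N ∧ mu 𝕋 f (fun x => (V x).map S) N ≤ mu 𝕋 f V N ∧
      nu 𝕋 f (fun x => (V x).map S) N < nu 𝕋 f V N := by
  have hlW' : ∀ u ∈ W 𝕋 f V (𝕋.b t) r, lam u = 0 := fun u hu => hlW u (W_le_Wd 𝕋 hu)
  have hfin : ∀ u, {h : G | lam (ρ h u) ≠ 0}.Finite := fun u => IsFrame.fin_supp 𝕋 hV hlam u
  have hlw : ∀ h : G, lam (ρ h (z.sum fun _ a => a)) = 0 :=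
    B6_lw 𝕋 hf hV hz hsupp hlam hlW'
  have hfr : ∀ x, Module.finrank k ((V x).map S) = Module.finrank k (V x) :=
    fun x => hS.finrank hV hfin hlw x
  have hV' : IsFrame ρ (fun x => (V x).map S) := hS.frame hV hfin hlw
  have hinj : Function.Injective S := by
    obtain ⟨S', -, -, h2⟩ := hS.equiv hfin hlw
    intro a b hab
    have h2' : ∀ u, S' (S u) = u := fun u => congrArg (fun f => f u) h2
    have h3 : S' (S a) = S' (S b) := by rw [hab]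
    rwa [h2', h2'] at h3
  have hfd : ∀ x, FiniteDimensional k ((V x).map S) := fun x => hV'.fin x
  -- monotonicity of dimensions
  have hmap : ∀ (x : X) (A B : Submodule k L), B ≤ (V x).map S → A.map S ≤ B →
      Module.finrank k A ≤ Module.finrank k B := by
    intro x A B hB hAB
    have := hfd x
    have hBf : FiniteDimensional k B := Submodule.finiteDimensional_of_le hB
    rw [(Submodule.equivMapOfInjective S hinj A).finrank_eq]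
    exact Submodule.finrank_mono hAB
  have hW : ∀ x q, Module.finrank k (W 𝕋 f V x q) ≤
      Module.finrank k (W 𝕋 f (fun x => (V x).map S) x q) := by
    intro x q
    refine hmap x _ _ (W_le 𝕋) ?_
    rintro _ ⟨u, hu, rfl⟩
    exact clean_W 𝕋 hf hV hadj hz hsupp hlam hlW' hS x q u hu
  have hWd : ∀ x x' q, 𝕋.d x x' = 1 → Module.finrank k (Wd 𝕋 f V x x' q) ≤
      Module.finrank k (Wd 𝕋 f (fun x => (V x).map S) x x' q) := by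
    intro x x' q hxx
    refine hmap x _ _ (Wd_le 𝕋) ?_
    rintro _ ⟨u, hu, rfl⟩
    exact clean_Wd 𝕋 hf hV hadj hz hsupp hlam hlW hS x x' hxx q u hu
  have hstrict : Module.finrank k (Wd 𝕋 f V (𝕋.b t) y r) <
      Module.finrank k (Wd 𝕋 f (fun x => (V x).map S) (𝕋.b t) y r) := by
    have hBf : FiniteDimensional k (Wd 𝕋 f (fun x => (V x).map S) (𝕋.b t) y r) := by
      have := hfd (𝕋.b t)
      exact Submodule.finiteDimensional_of_le (Wd_le 𝕋 (V := fun x => (V x).map S))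
    rw [(Submodule.equivMapOfInjective S hinj (Wd 𝕋 f V (𝕋.b t) y r)).finrank_eq]
    refine Submodule.finrank_lt_finrank_of_lt ?_
    refine lt_of_le_of_ne ?_ ?_
    · rintro _ ⟨u, hu, rfl⟩
      exact clean_Wd 𝕋 hf hV hadj hz hsupp hlam hlW hS _ _ hadj r u hu
    · intro he
      have h1 := clean_v 𝕋 hf hV hadj hz hsupp hlam hlW hS hv hlv heq
      rw [← he] at h1
      obtain ⟨u, hu, huv⟩ := h1
      have h2 : u = v := hinj huv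
      rw [h2] at hu
      have h3 := hlW v hu
      rw [hlv] at h3
      exact one_ne_zero h3
  have hle : ∀ x x' q, Module.finrank k (Wd 𝕋 f (fun x => (V x).map S) x x' q) ≤
      Module.finrank k (V x) := by
    intro x x' q
    have := hfd x
    rw [← hfr x]
    exact Submodule.finrank_mono (Wd_le 𝕋 (V := fun x => (V x).map S))
  refine ⟨?_, ?_, ?_⟩
  · rintro s _ ⟨u, hu, rfl⟩ g hg
    exact (clean_W 𝕋 hf hV hadj hz hsupp hlam hlW' hS (𝕋.b s) N u ⟨hu, hB s u hu⟩).2 g hg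
  · unfold mu
    refine Finset.sum_le_sum fun s _ => Nat.mul_le_mul_left _ (Finset.sum_le_sum fun q _ => ?_)
    rw [hfr]
    exact Nat.sub_le_sub_left (hW _ _) _
  · unfold nu
    have hterm : ∀ s : T, ∀ y' ∈ (𝕋.nbr_fin s).toFinset, ∀ q ∈ Finset.range N,
        (Module.finrank k ((V (𝕋.b s)).map S) -
          Module.finrank k (Wd 𝕋 f (fun x => (V x).map S) (𝕋.b s) y' q)) ≤
        (Module.finrank k (V (𝕋.b s)) - Module.finrank k (Wd 𝕋 f V (𝕋.b s) y' q)) := by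
      intro s y' hy' q _
      rw [hfr]
      refine Nat.sub_le_sub_left (hWd _ _ _ ?_) _
      have h1 := (Set.Finite.mem_toFinset _).1 hy'
      exact h1
    have hyt : y ∈ (𝕋.nbr_fin t).toFinset := by
      rw [Set.Finite.mem_toFinset]
      exact hadj
    refine Finset.sum_lt_sum (fun s _ => Finset.sum_le_sum fun y' hy' =>
      Finset.sum_le_sum fun q hq => hterm s y' hy' q hq) ⟨t, Finset.mem_univ t, ?_⟩
    refine Finset.sum_lt_sum (fun y' hy' => Finset.sum_le_sum fun q hq => hterm t y' hy' q hq)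
      ⟨y, hyt, ?_⟩
    refine Finset.sum_lt_sum (fun q hq => hterm t y hyt q hq) ⟨r, Finset.mem_range.2 hrN, ?_⟩
    have h1 := hle (𝕋.b t) y r
    rw [hfr]
    omega

end

end FP
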