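import Pool.Agent.Lib.MP_2d4659_gt.FP.B5
import Pool.Agent.Lib.MP_2d4659_gt.FP.B6

/-! # Cleaning one direction: conclusion -/

set_option autoImplicit false

namespace FP

variable {k G X T E L : Type} [Field k] [Group G] [MulAction G X] [AddCommGroup E] [Module k E]
  [AddCommGroup L] [Module k L]

variable (𝕋 : TreeD G X T) {ρ : G →* (L →ₗ[k] L)} {f : L →ₗ[k] (G →₀ E)} {V : X → Submodule k L}

/-- a functional on one piece which is `1` at `v` and vanishes on a subspace not containing `v` -/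
lemma B7_functional (hV : IsFrame ρ V) (x : X) (Q : Submodule k L) (hQ : Q ≤ V x) {v : L}
    (hv : v ∈ V x) (hvQ : v ∉ Q) :
    ∃ lam : L →ₗ[k] k, SuppAt V lam x ∧ (∀ u ∈ Q, lam u = 0) ∧ lam v = 1 := by
  have hx : (⟨v, hv⟩ : V x) ∉ Q.comap (V x).subtype := fun h => hvQ h
  obtain ⟨φ, hφ, hφ0⟩ := Submodule.exists_dual_map_eq_bot_of_notMem hx inferInstance
  obtain ⟨lam, hlam, hlamφ⟩ := hV.exists_ext x ((φ ⟨v, hv⟩)⁻¹ • φ)
  refine ⟨lam, hlam, fun u hu => ?_, ?_⟩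
  · have h1 := hlamφ ⟨u, hQ hu⟩
    have h2 : φ ⟨u, hQ hu⟩ ∈ (Q.comap (V x).subtype).map φ := Submodule.mem_map_of_mem hu
    rw [hφ0, Submodule.mem_bot] at h2
    rw [h1, LinearMap.smul_apply, h2, smul_zero]
  · have h1 := hlamφ ⟨v, hv⟩
    rw [h1, LinearMap.smul_apply, smul_eq_mul, inv_mul_cancel₀ hφ]

/-- translation of a finitely supported family of elements of the pieces -/
lemma B7_translate (ρ : G →* (L →ₗ[k] L)) (a : G) (z : X →₀ L) :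
    ∃ z' : X →₀ L, (∀ x, z' x = ρ a (z (a⁻¹ • x))) ∧
      (z'.sum fun _ c => c) = ρ a (z.sum fun _ c => c) := by
  refine ⟨Finsupp.mapRange (ρ a) (map_zero _) (Finsupp.equivMapDomain (MulAction.toPerm a) z),
    fun x => ?_, ?_⟩
  · rw [Finsupp.mapRange_apply, Finsupp.equivMapDomain_apply]
    rfl
  · rw [Finsupp.sum_mapRange_index (fun _ => rfl), Finsupp.sum_equivMapDomain, Finsupp.sum,
      Finsupp.sum, map_sum]

/-- if `RC1` fails then `nu` can be reduced (translate the failing instance to a base vertex, choose a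
functional vanishing on `Wd` with `lam v = 1`, apply `shear_chain` and `clean_measure`) -/
theorem clean_step [Fintype T] (hf : EquivF ρ f) (hV : IsFrame ρ V) {N : ℕ} (hB : Bdd 𝕋 f V N)
    (h : ¬ RC1 𝕋 f V) :
    ∃ V' : X → Submodule k L, Relation.ReflTransGen (Step 𝕋 ρ) V V' ∧ IsFrame ρ V' ∧
      Bdd 𝕋 f V' N ∧ mu 𝕋 f V' N ≤ mu 𝕋 f V N ∧ nu 𝕋 f V' N < nu 𝕋 f V N := by
  unfold RC1 at h
  push Not at h
  obtain ⟨x, y, r, hxy, v, hv, z, hz, hsupp, heq, g₀, hg₀, hg₀', hne⟩ := h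
  obtain ⟨a, t, rfl⟩ := 𝕋.cover x
  -- the translated data
  obtain ⟨z', hz', hzsum⟩ := B7_translate ρ a⁻¹ z
  have hdist : ∀ p q : X, 𝕋.d (a⁻¹ • p) q = 𝕋.d p (a • q) := fun p q => by
    rw [← 𝕋.inv a (a⁻¹ • p) q, smul_inv_smul]
  have hdist' : ∀ q : X, 𝕋.d (a • 𝕋.b t) (a • q) = 𝕋.d (𝕋.b t) q := fun q => 𝕋.inv a _ _
  have hfa : ∀ (u : L) (g : G), f (ρ a⁻¹ u) g = f u (a * g) := fun u g => by
    have := hf a⁻¹ u (a * g)
    rwa [inv_mul_cancel_left] at this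
  have hadj : 𝕋.d (𝕋.b t) (a⁻¹ • y) = 1 := by
    rw [𝕋.symm, hdist, 𝕋.symm]; exact hxy
  have hv' : ρ a⁻¹ v ∈ W 𝕋 f V (𝕋.b t) (r + 1) := by
    have := (W_smul 𝕋 hf hV a⁻¹ (a • 𝕋.b t) (r + 1) v).2 hv
    rwa [inv_smul_smul] at this
  have hzW : ∀ x, z' x ∈ W 𝕋 f V x (r + 1 - 𝕋.d (𝕋.b t) x) := fun x => by
    have h1 := (W_smul 𝕋 hf hV a⁻¹ (a • x) _ _).2 (hz (a • x))
    rw [inv_smul_smul, hdist'] at h1
    rw [hz' x, inv_inv]
    exact h1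
  have hsupp' : ∀ x ∈ z'.support, 𝕋.d (a⁻¹ • y) x + 1 = 𝕋.d (𝕋.b t) x := fun x hx => by
    have h1 : a • x ∈ z.support := by
      rw [Finsupp.mem_support_iff]
      intro h0
      rw [Finsupp.mem_support_iff, hz' x, inv_inv, h0, map_zero] at hx
      exact hx rfl
    have h2 := hsupp _ h1
    rw [hdist'] at h2
    rw [hdist]
    exact h2
  have heq' : ∀ g : G, 𝕋.d (𝕋.b t) (g • 𝕋.b 𝕋.o) = r → 𝕋.d (a⁻¹ • y) (g • 𝕋.b 𝕋.o) + 1 = r →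
      f (ρ a⁻¹ v) g = f (z'.sum fun _ c => c) g := fun g h1 h2 => by
    rw [hzsum, hfa, hfa]
    apply heq
    · rw [mul_smul, hdist']; exact h1
    · rw [mul_smul, ← hdist]; exact h2
  have hg₁ : 𝕋.d (𝕋.b t) ((a⁻¹ * g₀) • 𝕋.b 𝕋.o) = r := by
    rw [mul_smul, 𝕋.symm, hdist, 𝕋.symm]; exact hg₀
  have hg₁' : 𝕋.d (a⁻¹ • y) ((a⁻¹ * g₀) • 𝕋.b 𝕋.o) + 1 = r := by
    rw [mul_smul, 𝕋.inv]; exact hg₀'
  have hne' : f (ρ a⁻¹ v) (a⁻¹ * g₀) ≠ 0 := by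
    rw [hfa, mul_inv_cancel_left]; exact hne
  have hvWd : ρ a⁻¹ v ∉ Wd 𝕋 f V (𝕋.b t) (a⁻¹ • y) r := fun hmem =>
    hne' (hmem.2.2 _ hg₁ hg₁')
  obtain ⟨lam, hlam, hlW, hlv⟩ := B7_functional hV (𝕋.b t)
    (Wd 𝕋 f V (𝕋.b t) (a⁻¹ • y) r) (Wd_le 𝕋) (W_le 𝕋 hv') hvWd
  have hfin : ∀ u, {h : G | lam (ρ h u) ≠ 0}.Finite := hV.fin_supp 𝕋 hlam
  obtain ⟨S, hS⟩ := exists_shear hfin (z'.sum fun _ c => c)
  have hlW' : ∀ u ∈ W 𝕋 f V (𝕋.b t) r, lam u = 0 := fun u hu => hlW u (W_le_Wd 𝕋 hu)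
  have hlz : ∀ (h : G) (x : X), lam (ρ h (z' x)) = 0 := fun h x =>
    clean_lz 𝕋 hf hV hzW hsupp' hlam hlW' h x
  have hlw : ∀ h : G, lam (ρ h (z'.sum fun _ c => c)) = 0 := fun h => by
    rw [Finsupp.sum, map_sum, map_sum]
    exact Finset.sum_eq_zero fun x _ => hlz h x
  have hzt : ∀ x ∈ z'.support, x ≠ 𝕋.b t := fun x hx h0 => by
    have := hsupp' x hx
    rw [h0, 𝕋.d_self] at this
    omega
  have hrN : r < N := by
    by_contra hN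
    exact hne' (hB t _ (W_le 𝕋 hv') _ (by rw [hg₁]; omega))
  refine ⟨fun x => (V x).map S, shear_chain 𝕋 hV (fun x => W_le 𝕋 (hzW x)) hzt hlam hlz hS,
    hS.frame hV hfin hlw, ?_⟩
  exact clean_measure 𝕋 hf hV hadj hB hzW hsupp' hlam hlW hS hv' hlv heq' hrN

end FP
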