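import Pool.Agent.Lib.MP_2d4659_gt.FP.CDefs

/-! # `VC S h` is a frame -/

set_option autoImplicit false

namespace FP

variable {J : Type} {m : J → ℕ} {k : Type} [Field k] {n : Type} [Fintype n] [DecidableEq n]

theorem C1_lc (a : MonoidAlgebra k (Gp m)) :
    Finsupp.linearCombination k (fun g => uk k m g) a.coeff = a := by
  rw [Finsupp.linearCombination_apply]
  conv_rhs => rw [← MonoidAlgebra.sum_coeff_single a]
  refine Finsupp.sum_congr fun g _ => ?_
  rw [MonoidAlgebra.of_apply, MonoidAlgebra.smul_single, smul_eq_mul, mul_one]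

omit [Fintype n] [DecidableEq n] in
theorem C1_rho_apply (g : Gp m) (v : n → MonoidAlgebra k (Gp m)) (j : n) :
    rhoL m k n g v j = uk k m g * v j := rfl

omit [DecidableEq n] in
theorem C1_vecMul (a : n → MonoidAlgebra k (Gp m)) (A : Matrix n n (MonoidAlgebra k (Gp m))) :
    Matrix.vecMul a A =
      ∑ i : n, Finsupp.linearCombination k (fun g => rhoL m k n g (A i)) (a i).coeff := by
  funext j
  rw [Finset.sum_apply, Matrix.vecMul, dotProduct]
  refine Finset.sum_congr rfl fun i _ => ?_
  have h1 : Finsupp.linearCombination k (fun g => rhoL m k n g (A i)) (a i).coeff j =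
      (LinearMap.proj (R := k) j : (n → MonoidAlgebra k (Gp m)) →ₗ[k] MonoidAlgebra k (Gp m))
        (Finsupp.linearCombination k (fun g => rhoL m k n g (A i)) (a i).coeff) := rfl
  rw [h1, Finsupp.apply_linearCombination]
  have h2 : ((LinearMap.proj (R := k) j : (n → MonoidAlgebra k (Gp m)) →ₗ[k]
      MonoidAlgebra k (Gp m)) ∘ fun g => rhoL m k n g (A i)) =
      (LinearMap.mulRight k (A i j)) ∘ fun g => uk k m g := by
    funext g
    rfl
  rw [h2, ← Finsupp.apply_linearCombination, C1_lc]
  rfl

omit [DecidableEq n] in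
theorem C1_vecMul_rho (g : Gp m) (v : n → MonoidAlgebra k (Gp m))
    (A : Matrix n n (MonoidAlgebra k (Gp m))) :
    Matrix.vecMul (rhoL m k n g v) A = rhoL m k n g (Matrix.vecMul v A) := by
  funext j
  rw [C1_rho_apply]
  simp only [Matrix.vecMul, dotProduct, C1_rho_apply, Finset.mul_sum, mul_assoc]

/-- the decomposition map in coordinates -/
noncomputable def C1_D (S : n → Option J) (A : Matrix n n (MonoidAlgebra k (Gp m))) :
    (n → MonoidAlgebra k (Gp m)) →ₗ[k] (Vx m →₀ (n → MonoidAlgebra k (Gp m))) where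
  toFun a := ∑ i : n, Finsupp.linearCombination k
    (fun g => Finsupp.single (g • bs m (S i)) (rhoL m k n g (A i))) (a i).coeff
  map_add' a b := by
    rw [← Finset.sum_add_distrib]
    refine Finset.sum_congr rfl fun i _ => ?_
    rw [Pi.add_apply, MonoidAlgebra.coeff_add, map_add]
  map_smul' c a := by
    rw [RingHom.id_apply, Finset.smul_sum]
    refine Finset.sum_congr rfl fun i _ => ?_
    rw [Pi.smul_apply, MonoidAlgebra.coeff_smul, map_smul]

omit [DecidableEq n] in
theorem C1_D_apply (S : n → Option J) (A : Matrix n n (MonoidAlgebra k (Gp m)))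
    (a : n → MonoidAlgebra k (Gp m)) : C1_D S A a = ∑ i : n, Finsupp.linearCombination k
    (fun g => Finsupp.single (g • bs m (S i)) (rhoL m k n g (A i))) (a i).coeff := rfl

/-- right multiplication by a matrix -/
noncomputable def C1_V (A : Matrix n n (MonoidAlgebra k (Gp m))) :
    (n → MonoidAlgebra k (Gp m)) →ₗ[k] (n → MonoidAlgebra k (Gp m)) where
  toFun v := Matrix.vecMul v A
  map_add' _ _ := Matrix.add_vecMul _ _ _
  map_smul' _ _ := Matrix.smul_vecMul _ _ _

theorem C1_mem (S : n → Option J) (h : (Matrix n n (MonoidAlgebra k (Gp m)))ˣ) (g : Gp m) (i : n) :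
    rhoL m k n g (h.1 i) ∈ VC S h (g • bs m (S i)) :=
  Submodule.subset_span ⟨g, i, rfl, rfl⟩

theorem C1_fin (x : Vx m) (t : Option J) : {g : Gp m | g • bs m t = x}.Finite := by
  by_cases hx : ∃ g : Gp m, g • bs m t = x
  · obtain ⟨g0, hg0⟩ := hx
    have h1 : {g : Gp m | g • bs m t = x} ⊆ (fun q => g0 * q) '' (HT m t : Set (Gp m)) := by
      intro g hg
      rw [Set.mem_ofPred_eq, ← hg0] at hg
      refine ⟨g0⁻¹ * g, ?_, ?_⟩
      · exact (smul_bs_eq g0 g t).1 hg.symm
      · simp
    have h3 : Finite (HT m t) := HT_finite t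
    have h2 : (HT m t : Set (Gp m)).Finite := Set.toFinite _
    exact (h2.image _).subset h1
  · have h1 : {g : Gp m | g • bs m t = x} = ∅ := by
      ext g
      simp only [Set.mem_ofPred_eq, Set.mem_empty_iff_false, iff_false]
      exact fun h => hx ⟨g, h⟩
    rw [h1]
    exact Set.finite_empty

/-- The vectors `g • (row i of h)` form a `k`-basis of `n → k[G]`; `VC S h x` is spanned by those with
`g • bs m (S i) = x`. -/
theorem VC_frame (S : n → Option J) (h : (Matrix n n (MonoidAlgebra k (Gp m)))ˣ) :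
    IsFrame (rhoL m k n) (VC S h) := by
  refine ⟨fun g x => ?_, fun x => ?_, ⟨C1_D S h.1 ∘ₗ C1_V h⁻¹.1, fun u x => ?_, fun u => ?_,
    fun x u hu => ?_⟩⟩
  · unfold VC
    rw [Submodule.map_span]
    congr 1
    ext v
    simp only [Set.mem_image, Set.mem_ofPred_eq]
    constructor
    · rintro ⟨w, ⟨g', i, hx, rfl⟩, rfl⟩
      refine ⟨g * g', i, ?_, ?_⟩
      · rw [mul_smul, hx]
      · funext j
        rw [C1_rho_apply, map_mul, mul_assoc]
    · rintro ⟨g', i, hx, rfl⟩
      refine ⟨fun j => uk k m (g⁻¹ * g') * h.1 i j, ⟨g⁻¹ * g', i, ?_, rfl⟩, ?_⟩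
      · rw [mul_smul, hx, inv_smul_smul]
      · funext j
        rw [C1_rho_apply, ← mul_assoc, ← map_mul, mul_inv_cancel_left]
  · unfold VC
    refine FiniteDimensional.span_of_finite k ?_
    have h1 : {v | ∃ (g : Gp m) (i : n), g • bs m (S i) = x ∧ v = fun j => uk k m g * h.1 i j} ⊆
        ⋃ i : n, (fun g => fun j => uk k m g * h.1 i j) '' {g : Gp m | g • bs m (S i) = x} := by
      rintro v ⟨g, i, hx, rfl⟩
      exact Set.mem_iUnion.2 ⟨i, g, hx, rfl⟩
    exact (Set.finite_iUnion fun i => (C1_fin x (S i)).image _).subset h1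
  · rw [LinearMap.comp_apply, C1_D_apply, Finsupp.finsetSum_apply]
    refine Submodule.sum_mem _ fun i _ => ?_
    rw [Finsupp.linearCombination_apply, Finsupp.sum, Finsupp.finsetSum_apply]
    refine Submodule.sum_mem _ fun g _ => ?_
    rw [Finsupp.smul_apply]
    refine Submodule.smul_mem _ _ ?_
    classical
    rw [Finsupp.single_apply]
    split_ifs with hx
    · rw [← hx]
      exact C1_mem S h g i
    · exact Submodule.zero_mem _
  · have h1 : ∀ z : Vx m →₀ (n → MonoidAlgebra k (Gp m)), (z.sum fun _ a => a) =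
        Finsupp.lsum k (fun _ : Vx m => (LinearMap.id : (n → MonoidAlgebra k (Gp m)) →ₗ[k]
          (n → MonoidAlgebra k (Gp m)))) z := fun z => rfl
    rw [h1, LinearMap.comp_apply, C1_D_apply, map_sum]
    have h2 : ∀ i : n, Finsupp.lsum k (fun _ : Vx m => (LinearMap.id :
        (n → MonoidAlgebra k (Gp m)) →ₗ[k] (n → MonoidAlgebra k (Gp m))))
        (Finsupp.linearCombination k (fun g => Finsupp.single (g • bs m (S i))
          (rhoL m k n g (h.1 i))) ((C1_V h⁻¹.1 u) i).coeff) =
        Finsupp.linearCombination k (fun g => rhoL m k n g (h.1 i)) ((C1_V h⁻¹.1 u) i).coeff := by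
      intro i
      rw [Finsupp.apply_linearCombination]
      congr 2
      funext g
      simp
    rw [Finset.sum_congr rfl fun i _ => h2 i, ← C1_vecMul]
    change Matrix.vecMul (Matrix.vecMul u h⁻¹.1) h.1 = u
    rw [Matrix.vecMul_vecMul, Units.inv_mul, Matrix.vecMul_one]
  · unfold VC at hu
    induction hu using Submodule.span_induction with
    | mem v hv =>
      obtain ⟨g, i, hx, rfl⟩ := hv
      change C1_D S h.1 (Matrix.vecMul (rhoL m k n g (h.1 i)) h⁻¹.1) =
        Finsupp.single x (rhoL m k n g (h.1 i))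
      have h1 : Matrix.vecMul (h.1 i) h⁻¹.1 = (1 : Matrix n n (MonoidAlgebra k (Gp m))) i := by
        have h2 := congrFun (h.mul_inv) i
        rw [← h2]
        rfl
      rw [C1_vecMul_rho, h1, C1_D_apply, Finset.sum_eq_single i]
      · rw [C1_rho_apply, Matrix.one_apply_eq, mul_one, MonoidAlgebra.of_apply,
          MonoidAlgebra.coeff_single, Finsupp.linearCombination_single, one_smul, hx]
      · intro j _ hj
        rw [C1_rho_apply, Matrix.one_apply_ne (Ne.symm hj), mul_zero, MonoidAlgebra.coeff_zero,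
          map_zero]
      · intro hi
        exact absurd (Finset.mem_univ i) hi
    | zero => rw [map_zero, Finsupp.single_zero]
    | add v w _ _ hv hw => rw [map_add, hv, hw, Finsupp.single_add]
    | smul c v _ hv => rw [map_smul, hv, Finsupp.smul_single]

/-- elements of the piece at a base vertex: combinations of the rows with coefficients in the group
ring of the stabiliser -/
theorem mem_VC_bs (S : n → Option J) (h : (Matrix n n (MonoidAlgebra k (Gp m)))ˣ) (t : Option J)
    (v : n → MonoidAlgebra k (Gp m)) :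
    v ∈ VC S h (bs m t) ↔ ∃ a : n → MonoidAlgebra k (Gp m),
      (∀ i, S i ≠ t → a i = 0) ∧ (∀ i g, g ∉ HT m t → (a i).coeff g = 0) ∧
      v = Matrix.vecMul a h.1 := by
  constructor
  · intro hv
    unfold VC at hv
    induction hv using Submodule.span_induction with
    | mem v hv =>
      obtain ⟨g, i, hx, rfl⟩ := hv
      have hSt : S i = t := by
        have h1 := ty_smul g (bs m (S i))
        rw [hx, ty_bs, ty_bs] at h1
        exact h1.symm
      rw [hSt] at hx
      have hg : g ∈ HT m t := (stab_bs g t).1 hx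
      refine ⟨rhoL m k n g ((1 : Matrix n n (MonoidAlgebra k (Gp m))) i), fun j hj => ?_,
        fun j g' hg' => ?_, ?_⟩
      · have hij : i ≠ j := by
          rintro rfl
          exact hj hSt
        rw [C1_rho_apply, Matrix.one_apply_ne hij, mul_zero]
      · rw [C1_rho_apply]
        by_cases hij : i = j
        · subst hij
          rw [Matrix.one_apply_eq, mul_one, MonoidAlgebra.of_apply, MonoidAlgebra.coeff_single,
            Finsupp.single_eq_of_ne]
          rintro rfl
          exact hg' hg
        · rw [Matrix.one_apply_ne hij, mul_zero, MonoidAlgebra.coeff_zero, Finsupp.zero_apply]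
      · rw [C1_vecMul_rho]
        have h1 : Matrix.vecMul ((1 : Matrix n n (MonoidAlgebra k (Gp m))) i) h.1 = h.1 i := by
          have h2 := congrFun (one_mul h.1) i
          rw [← h2]
          rfl
        rw [h1]
        rfl
    | zero =>
      exact ⟨0, fun _ _ => rfl, fun _ _ _ => by simp, by simp⟩
    | add v w _ _ hv hw =>
      obtain ⟨a, ha1, ha2, rfl⟩ := hv
      obtain ⟨b, hb1, hb2, rfl⟩ := hw
      refine ⟨a + b, fun i hi => ?_, fun i g hg => ?_, ?_⟩
      · rw [Pi.add_apply, ha1 i hi, hb1 i hi, add_zero]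
      · rw [Pi.add_apply, MonoidAlgebra.coeff_add, Finsupp.add_apply, ha2 i g hg, hb2 i g hg,
          add_zero]
      · rw [Matrix.add_vecMul]
    | smul c v _ hv =>
      obtain ⟨a, ha1, ha2, rfl⟩ := hv
      refine ⟨c • a, fun i hi => ?_, fun i g hg => ?_, ?_⟩
      · rw [Pi.smul_apply, ha1 i hi, smul_zero]
      · rw [Pi.smul_apply, MonoidAlgebra.coeff_smul, Finsupp.smul_apply, ha2 i g hg, smul_zero]
      · rw [Matrix.smul_vecMul]
  · rintro ⟨a, ha1, ha2, rfl⟩
    rw [C1_vecMul]
    refine Submodule.sum_mem _ fun i _ => ?_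
    rw [Finsupp.linearCombination_apply, Finsupp.sum]
    refine Submodule.sum_mem _ fun g _ => ?_
    by_cases hi : S i = t
    · by_cases hg : g ∈ HT m t
      · refine Submodule.smul_mem _ _ ?_
        have h1 := C1_mem S h g i
        rwa [hi, (stab_bs g t).2 hg] at h1
      · rw [ha2 i g hg, zero_smul]
        exact Submodule.zero_mem _
    · rw [ha1 i hi, MonoidAlgebra.coeff_zero, Finsupp.zero_apply, zero_smul]
      exact Submodule.zero_mem _

end FP
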