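import Mathlib

/-!
# Cancellation over commutative semilocal rings

Stable range one: if `a A + b A = A` there is `t` with `a + t b` a unit (choose `t` by the Chinese
remainder theorem: `t ∈ M` if `a ∉ M`, `t ∉ M` if `a ∈ M`, for the finitely many maximal ideals `M`).
-/

set_option autoImplicit false

namespace FP

theorem sr1 {A : Type} [CommRing A] [Finite (MaximalSpectrum A)] (a b x y : A)
    (h : a * x + b * y = 1) : ∃ t, IsUnit (a + t * b) := by
  classical
  have hcop : Pairwise (fun M M' : MaximalSpectrum A => IsCoprime M.asIdeal M'.asIdeal) := by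
    intro M M' hne
    have := M.isMaximal
    have := M'.isMaximal
    exact Ideal.isCoprime_of_isMaximal (MaximalSpectrum.ext_iff.ne.mp hne)
  obtain ⟨t, ht⟩ := Ideal.pi_quotient_surjective hcop
    (fun M => Ideal.Quotient.mk M.asIdeal (if a ∈ M.asIdeal then 1 else 0))
  refine ⟨t, ?_⟩
  by_contra hnu
  obtain ⟨M, hM, hmem⟩ := exists_max_ideal_of_mem_nonunits (a := a + t * b) hnu
  have h1 := ht ⟨M, hM⟩
  simp only at h1
  rw [Ideal.Quotient.eq] at h1
  by_cases ha : a ∈ M
  · rw [if_pos ha] at h1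
    have hb : t * b ∈ M := by
      have := M.sub_mem hmem ha
      rwa [add_sub_cancel_left] at this
    have hb' : b ∈ M := by
      have h2 := M.mul_mem_right b h1
      have h3 := M.sub_mem hb h2
      have h4 : t * b - (t - 1) * b = b := by ring
      rwa [h4] at h3
    apply hM.ne_top
    rw [Ideal.eq_top_iff_one, ← h]
    exact M.add_mem (M.mul_mem_right x ha) (M.mul_mem_right y hb')
  · rw [if_neg ha, sub_zero] at h1
    apply ha
    have h2 := M.sub_mem hmem (M.mul_mem_right b h1)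
    rwa [add_sub_cancel_right] at h2

/-- the invertible map `x ↦ x + φ x w` -/
def C2_lin {A N : Type} [CommRing A] [AddCommGroup N] [Module A N] (φ : N →ₗ[A] A) (w : N) (v : A)
    (hv : (1 + φ w) * v = 1) : N ≃ₗ[A] N where
  toFun x := x + φ x • w
  map_add' x y := by
    rw [map_add, add_smul]
    abel
  map_smul' c x := by
    rw [map_smul, smul_eq_mul, mul_smul, RingHom.id_apply, smul_add]
  invFun x := x - (v * φ x) • w
  left_inv x := by
    have h1 : v * φ (x + φ x • w) = φ x := by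
      rw [map_add, map_smul, smul_eq_mul]
      calc v * (φ x + φ x * φ w) = ((1 + φ w) * v) * φ x := by ring
        _ = φ x := by rw [hv, one_mul]
    simp only [h1]
    abel
  right_inv x := by
    have h1 : φ (x - (v * φ x) • w) = v * φ x := by
      rw [map_sub, map_smul, smul_eq_mul]
      have : φ x = ((1 + φ w) * v) * φ x := by rw [hv, one_mul]
      calc φ x - v * φ x * φ w = ((1 + φ w) * v) * φ x - v * φ x * φ w := by rw [← this]
        _ = v * φ x := by ring
    simp only [h1]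
    abel

lemma C2_lin_apply {A N : Type} [CommRing A] [AddCommGroup N] [Module A N] (φ : N →ₗ[A] A) (w : N)
    (v : A) (hv : (1 + φ w) * v = 1) (x : N) : C2_lin φ w v hv x = x + φ x • w := rfl

/-- Let `φ e = 1`, `φ' e' = 1`.  There is an automorphism taking `e` to `e'` and `φ'` to `φ`.  Proof:
with `e' = a e + m'`, `φ m' = 0`, `a φ' e + φ' m' = 1`, choose `t` with `a + t φ' m' = u` a unit; the
maps `x ↦ x + t φ' (x - φ x e) e` and `x ↦ x + φ x (u e + m' - e)` are invertible and map `e'` resp. `e`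
to `u e + m'`; then correct the functional by `x ↦ x + ψ x e`, `ψ e = 0`. -/
theorem exists_auto {A N : Type} [CommRing A] [Finite (MaximalSpectrum A)] [AddCommGroup N]
    [Module A N] (e e' : N) (φ φ' : N →ₗ[A] A) (h : φ e = 1) (h' : φ' e' = 1) :
    ∃ α : N ≃ₗ[A] N, α e = e' ∧ φ' ∘ₗ α.toLinearMap = φ := by
  obtain ⟨a, ha⟩ : ∃ a, a = φ e' := ⟨_, rfl⟩
  obtain ⟨m', hm'⟩ : ∃ m', m' = e' - a • e := ⟨_, rfl⟩
  have hφm : φ m' = 0 := by
    rw [hm', map_sub, map_smul, h, smul_eq_mul, mul_one, ha, sub_self]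
  have hs : a * φ' e + φ' m' * 1 = 1 := by
    rw [hm', map_sub, map_smul, h', smul_eq_mul]
    ring
  obtain ⟨t, ht⟩ := sr1 a (φ' m') (φ' e) 1 hs
  obtain ⟨u, hu⟩ := ht
  -- first transvection
  obtain ⟨ψ, hψ⟩ : ∃ ψ : N →ₗ[A] A, ∀ x, ψ x = t * φ' (x - φ x • e) := by
    refine ⟨t • (φ' ∘ₗ (LinearMap.id - φ.smulRight e)), fun x => ?_⟩
    simp
  have hψe : ψ e = 0 := by
    rw [hψ, h, one_smul, sub_self, map_zero, mul_zero]
  have hψe' : ψ e' = t * φ' m' := by
    rw [hψ, ← ha, hm']
  have h1 : (1 + ψ e) * 1 = 1 := by rw [hψe]; ring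
  have h2 : (1 + φ (((u : A) - 1) • e + m')) * ((u⁻¹ : Aˣ) : A) = 1 := by
    rw [map_add, map_smul, h, hφm, smul_eq_mul, mul_one, add_zero]
    have : 1 + ((u : A) - 1) = u := by ring
    rw [this]
    exact u.mul_inv
  have hT1 : C2_lin ψ e 1 h1 e' = (u : A) • e + m' := by
    rw [C2_lin_apply, hψe', hu]
    have : e' = a • e + m' := by rw [hm']; abel
    nth_rewrite 1 [this]
    rw [add_smul]
    abel
  have hT2 : C2_lin φ (((u : A) - 1) • e + m') _ h2 e = (u : A) • e + m' := by
    rw [C2_lin_apply, h, one_smul, sub_smul, one_smul]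
    abel
  obtain ⟨α₀, hα₀⟩ : ∃ α₀ : N ≃ₗ[A] N, α₀ e = e' := by
    refine ⟨(C2_lin φ (((u : A) - 1) • e + m') _ h2).trans (C2_lin ψ e 1 h1).symm, ?_⟩
    rw [LinearEquiv.trans_apply, hT2, ← hT1, LinearEquiv.symm_apply_apply]
  obtain ⟨ψ2, hψ2⟩ : ∃ ψ2 : N →ₗ[A] A, ∀ x, ψ2 x = φ x - φ' (α₀ x) :=
    ⟨φ - φ' ∘ₗ α₀.toLinearMap, fun x => rfl⟩
  have hψ2e : ψ2 e = 0 := by rw [hψ2, h, hα₀, h', sub_self]
  have h3 : (1 + ψ2 e) * 1 = 1 := by rw [hψ2e]; ring
  refine ⟨(C2_lin ψ2 e 1 h3).trans α₀, ?_, ?_⟩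
  · rw [LinearEquiv.trans_apply, C2_lin_apply, hψ2e, zero_smul, add_zero, hα₀]
  · refine LinearMap.ext fun x => ?_
    rw [LinearMap.comp_apply, LinearEquiv.coe_coe, LinearEquiv.trans_apply, C2_lin_apply, map_add,
      map_smul, hα₀, map_add, map_smul, h', hψ2, smul_eq_mul]
    ring

/-- matrix version -/
theorem exists_mat {A β : Type} [CommRing A] [Finite (MaximalSpectrum A)] [Fintype β]
    [DecidableEq β] (i : β) (a b : β → A) (h : ∑ j, a j * b j = 1) :
    ∃ g : (Matrix β β A)ˣ, (∀ j, g.1 i j = a j) ∧ ∀ j, ∑ l, g.1 j l * b l = if j = i then 1 else 0 := by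
  obtain ⟨φ, hφ⟩ : ∃ φ : (β → A) →ₗ[A] A, ∀ x, φ x = ∑ j, a j * x j :=
    ⟨∑ j, a j • LinearMap.proj j, fun x => by simp⟩
  obtain ⟨α, hα, hα'⟩ := exists_auto (A := A) (N := β → A) b (Pi.single i 1) φ
    (LinearMap.proj i) (by rw [hφ, h]) (by simp)
  have e1 : LinearMap.toMatrix' α.toLinearMap * LinearMap.toMatrix' α.symm.toLinearMap = 1 := by
    rw [← LinearMap.toMatrix'_comp, LinearEquiv.comp_symm, LinearMap.toMatrix'_id]
  have e2 : LinearMap.toMatrix' α.symm.toLinearMap * LinearMap.toMatrix' α.toLinearMap = 1 := by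
    rw [← LinearMap.toMatrix'_comp, LinearEquiv.symm_comp, LinearMap.toMatrix'_id]
  refine ⟨⟨_, _, e1, e2⟩, fun j => ?_, fun j => ?_⟩
  · have h1 := LinearMap.congr_fun hα' (Pi.single j 1)
    rw [LinearMap.comp_apply, LinearMap.proj_apply, hφ] at h1
    change LinearMap.toMatrix' α.toLinearMap i j = a j
    rw [LinearMap.toMatrix'_apply]
    have h2 : ∑ l, a l * (Pi.single j 1 : β → A) l = a j := by
      rw [Finset.sum_eq_single j]
      · simp
      · intro l _ hl
        simp [hl]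
      · simp
    rw [h2] at h1
    exact h1
  · have h1 : Matrix.mulVec (LinearMap.toMatrix' α.toLinearMap) b = α b := by
      rw [← Matrix.toLin'_apply, Matrix.toLin'_toMatrix']
      rfl
    have h2 := congrFun h1 j
    rw [hα, Pi.single_apply] at h2
    exact h2

/-- split off the first coordinate -/
def C2_split (A : Type) [CommRing A] (r : ℕ) : (Fin (r + 1) → A) ≃ₗ[A] ((Fin r → A) × A) where
  toFun f := (fun i => f i.succ, f 0)
  map_add' f g := rfl
  map_smul' c f := rfl
  invFun p := Fin.cons p.2 p.1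
  left_inv f := by
    ext i
    refine Fin.cases ?_ (fun i => ?_) i <;> simp
  right_inv p := by
    ext <;> simp

theorem C2_cancel_one {A N N' : Type} [CommRing A] [Finite (MaximalSpectrum A)] [AddCommGroup N]
    [Module A N] [AddCommGroup N'] [Module A N'] (e : (N × A) ≃ₗ[A] (N' × A)) :
    Nonempty (N ≃ₗ[A] N') := by
  obtain ⟨α, hα, hα'⟩ := exists_auto (A := A) (N := N' × A) (e (0, 1)) (0, 1)
    (LinearMap.snd A N A ∘ₗ e.symm.toLinearMap) (LinearMap.snd A N' A)
    (by simp) (by simp)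
  obtain ⟨β, hβ⟩ : ∃ β : (N × A) ≃ₗ[A] (N' × A), β = e.trans α := ⟨_, rfl⟩
  have hs : ∀ x, (β x).2 = x.2 := by
    intro x
    have h1 := LinearMap.congr_fun hα' (e x)
    simp only [LinearMap.comp_apply, LinearMap.snd_apply, LinearEquiv.coe_coe,
      LinearEquiv.symm_apply_apply] at h1
    rw [hβ, LinearEquiv.trans_apply]
    exact h1
  have hs' : ∀ y, (β.symm y).2 = y.2 := by
    intro y
    rw [← hs (β.symm y), LinearEquiv.apply_symm_apply]
  refine ⟨LinearEquiv.ofLinearMap
    (LinearMap.fst A N' A ∘ₗ β.toLinearMap ∘ₗ LinearMap.inl A N A)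
    (LinearMap.fst A N A ∘ₗ β.symm.toLinearMap ∘ₗ LinearMap.inl A N' A) ?_ ?_⟩
  · refine LinearMap.ext fun y => ?_
    simp only [LinearMap.comp_apply, LinearMap.inl_apply, LinearMap.fst_apply, LinearEquiv.coe_coe,
      LinearMap.id_apply]
    have h1 : ((β.symm (y, 0)).1, (0 : A)) = β.symm (y, 0) := by
      refine Prod.ext rfl ?_
      rw [hs']
    rw [h1, LinearEquiv.apply_symm_apply]
  · refine LinearMap.ext fun y => ?_
    simp only [LinearMap.comp_apply, LinearMap.inl_apply, LinearMap.fst_apply, LinearEquiv.coe_coe,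
      LinearMap.id_apply]
    have h1 : ((β (y, 0)).1, (0 : A)) = β (y, 0) := by
      refine Prod.ext rfl ?_
      rw [hs]
    rw [h1, LinearEquiv.symm_apply_apply]

/-- cancellation of free modules -/
theorem cancel_free {A N N' : Type} [CommRing A] [Finite (MaximalSpectrum A)] [AddCommGroup N]
    [Module A N] [AddCommGroup N'] [Module A N'] (r : ℕ)
    (e : (N × (Fin r → A)) ≃ₗ[A] (N' × (Fin r → A))) : Nonempty (N ≃ₗ[A] N') := by
  induction r with
  | zero =>
    refine ⟨LinearEquiv.ofLinearMap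
      (LinearMap.fst A N' (Fin 0 → A) ∘ₗ e.toLinearMap ∘ₗ LinearMap.inl A N (Fin 0 → A))
      (LinearMap.fst A N (Fin 0 → A) ∘ₗ e.symm.toLinearMap ∘ₗ LinearMap.inl A N' (Fin 0 → A)) ?_ ?_⟩
    · refine LinearMap.ext fun y => ?_
      simp only [LinearMap.comp_apply, LinearMap.inl_apply, LinearMap.fst_apply,
        LinearEquiv.coe_coe, LinearMap.id_apply]
      have h1 : ((e.symm (y, 0)).1, (0 : Fin 0 → A)) = e.symm (y, 0) :=
        Prod.ext rfl (Subsingleton.elim _ _)
      rw [h1, LinearEquiv.apply_symm_apply]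
    · refine LinearMap.ext fun y => ?_
      simp only [LinearMap.comp_apply, LinearMap.inl_apply, LinearMap.fst_apply,
        LinearEquiv.coe_coe, LinearMap.id_apply]
      have h1 : ((e (y, 0)).1, (0 : Fin 0 → A)) = e (y, 0) :=
        Prod.ext rfl (Subsingleton.elim _ _)
      rw [h1, LinearEquiv.symm_apply_apply]
  | succ r ih =>
    obtain ⟨e1⟩ := C2_cancel_one (A := A) (N := N × (Fin r → A)) (N' := N' × (Fin r → A))
      (((LinearEquiv.prodAssoc A N (Fin r → A) A).trans
        ((LinearEquiv.refl A N).prodCongr (C2_split A r).symm)).trans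
        (e.trans (((LinearEquiv.refl A N').prodCongr (C2_split A r)).trans
          (LinearEquiv.prodAssoc A N' (Fin r → A) A).symm)))
    exact ih e1

end FP
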