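import Mathlib

/-! # Finiteness of the maximal spectrum of group algebras -/

set_option autoImplicit false

namespace FP

/-- a finite commutative algebra over a local ring has finitely many maximal ideals -/
theorem C2b_local (R S : Type) [CommRing R] [IsLocalRing R] [CommRing S] [Algebra R S]
    [Module.Finite R S] : Finite (MaximalSpectrum S) := by
  have h1 : ((IsLocalRing.maximalIdeal R).primesOver S).Finite :=
    Algebra.QuasiFinite.finite_primesOver _
  have : Finite ((IsLocalRing.maximalIdeal R).primesOver S) := h1
  refine Finite.of_injective
    (fun m : MaximalSpectrum S => (⟨m.asIdeal, ?_, ?_⟩ :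
      (IsLocalRing.maximalIdeal R).primesOver S)) ?_
  · exact m.isMaximal.isPrime
  · have := m.isMaximal
    have h2 : (m.asIdeal.comap (algebraMap R S)).IsMaximal :=
      Ideal.isMaximal_comap_of_isIntegral_of_isMaximal m.asIdeal
    exact ⟨(IsLocalRing.eq_maximalIdeal h2).symm⟩
  · intro m m' h
    have h3 := congrArg Subtype.val h
    exact MaximalSpectrum.ext h3

/-- the group algebra of a finite commutative group over a field -/
theorem fin_max_field (k H : Type) [Field k] [CommGroup H] [Finite H] :
    Finite (MaximalSpectrum (MonoidAlgebra k H)) := by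
  have : Module.Finite k (MonoidAlgebra k H) :=
    Module.Finite.equiv (MonoidAlgebra.coeffLinearEquiv k).symm
  exact C2b_local k (MonoidAlgebra k H)

/-- the group algebra of a finite commutative group over the `p`-adic integers (every maximal ideal
contains `p`, because the algebra is a finite module over `ℤ_[p]`; the quotient by `p` is artinian) -/
theorem fin_max_padic (p : ℕ) [Fact p.Prime] (H : Type) [CommGroup H] [Finite H] :
    Finite (MaximalSpectrum (MonoidAlgebra ℤ_[p] H)) := by
  have : Module.Finite ℤ_[p] (MonoidAlgebra ℤ_[p] H) :=
    Module.Finite.equiv (MonoidAlgebra.coeffLinearEquiv ℤ_[p]).symm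
  exact C2b_local ℤ_[p] (MonoidAlgebra ℤ_[p] H)

end FP
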