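import Pool.Agent.Lib.MP_2d4659_gt.FP.C1
import Pool.Agent.Lib.MP_2d4659_gt.FP.C2
import Pool.Agent.Lib.MP_2d4659_gt.FP.C2b
import Pool.Agent.Lib.MP_2d4659_gt.FP.B3

/-! # A transfer changes `VC S h` to `VC S' h'`

Transfer from `t` to `x₁ = a • bs m s`: `v = ∑ a_i • (row i)`, `a_i ∈ k[HT t]`, and
`b_i = ∑_{γ ∈ HT t} lam (γ⁻¹ (row i)) γ`, `∑ a_i b_i = 1`; `exists_mat` over the commutative ring
`k[HT t]` gives new rows in the block `{i | S i = t}`, one of them `v`, the others killed by all
`lam ∘ ρ γ`; replace `v` by `a⁻¹ v` and move its index to the type `s` -/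

set_option autoImplicit false

namespace FP

variable {J : Type} {m : J → ℕ} {k : Type} [Field k] {n : Type} [Fintype n] [DecidableEq n]

section C3bH

/-- the stabiliser as a commutative group -/
def C3bH (m : J → ℕ) (t : Option J) : Type := ↥(HT m t)

noncomputable instance C3b_grp (m : J → ℕ) (t : Option J) : Group (C3bH m t) :=
  inferInstanceAs (Group ↥(HT m t))

noncomputable instance C3b_cgrp (m : J → ℕ) (t : Option J) : CommGroup (C3bH m t) :=
  { C3b_grp m t with
    mul_comm := fun a b => Subtype.ext (HT_comm t a.1 b.1 a.2 b.2) }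

instance (m : J → ℕ) (t : Option J) : Finite (C3bH m t) := HT_finite t

/-- the inclusion -/
noncomputable def C3bi (m : J → ℕ) (t : Option J) : C3bH m t →* Gp m := (HT m t).subtype

lemma C3bi_mem (m : J → ℕ) (t : Option J) (γ : C3bH m t) : C3bi m t γ ∈ HT m t := γ.2

lemma C3bi_inj (m : J → ℕ) (t : Option J) : Function.Injective (C3bi m t) := Subtype.val_injective

/-- the inclusion of group algebras -/
noncomputable def C3bf (m : J → ℕ) (k : Type) [Field k] (t : Option J) :
    MonoidAlgebra k (C3bH m t) →+* MonoidAlgebra k (Gp m) :=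
  MonoidAlgebra.mapDomainRingHom k (C3bi m t)

lemma C3bf_single (m : J → ℕ) (k : Type) [Field k] (t : Option J) (γ : C3bH m t) (c : k) :
    C3bf m k t (MonoidAlgebra.single γ c) = MonoidAlgebra.single (C3bi m t γ) c := by
  show MonoidAlgebra.mapDomain _ _ = _
  rw [MonoidAlgebra.mapDomain_single]

lemma C3bf_coeff (t : Option J) (x : MonoidAlgebra k (C3bH m t)) (g : Gp m) (hg : g ∉ HT m t) :
    (C3bf m k t x).coeff g = 0 := by
  show (Finsupp.mapDomain (C3bi m t) x.coeff) g = 0
  refine Finsupp.mapDomain_of_notMem_range _ _ ?_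
  rintro ⟨γ, rfl⟩
  exact hg (C3bi_mem m t γ)

lemma C3b_lift (t : Option J) (a : MonoidAlgebra k (Gp m)) (ha : ∀ g, g ∉ HT m t → a.coeff g = 0) :
    ∃ x : MonoidAlgebra k (C3bH m t), C3bf m k t x = a := by
  refine ⟨MonoidAlgebra.ofCoeff (Finsupp.equivFunOnFinite.symm fun γ => a.coeff (C3bi m t γ)), ?_⟩
  apply MonoidAlgebra.coeff_injective
  ext g
  by_cases hg : g ∈ HT m t
  · obtain ⟨γ, rfl⟩ : ∃ γ : C3bH m t, C3bi m t γ = g := ⟨⟨g, hg⟩, rfl⟩
    show (Finsupp.mapDomain (C3bi m t) _) (C3bi m t γ) = _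
    rw [Finsupp.mapDomain_apply (C3bi_inj m t)]
    rfl
  · rw [C3bf_coeff t _ g hg, ha g hg]

end C3bH

omit [Fintype n] [DecidableEq n] in
lemma C3b_rho (g : Gp m) (u : n → MonoidAlgebra k (Gp m)) :
    rhoL m k n g u = fun j => uk k m g * u j := rfl

lemma C3b_act_mem (S : n → Option J) (h : (Matrix n n (MonoidAlgebra k (Gp m)))ˣ) (x : Vx m)
    (g : Gp m) (j : n) (a : MonoidAlgebra k (Gp m)) (ha : ∀ γ, γ ∉ HT m (S j) → a.coeff γ = 0)
    (hg : g • bs m (S j) = x) :
    (fun l => uk k m g * (a * h.1 j l)) ∈ VC S h x := by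
  classical
  have h1 : (fun l => uk k m g * (a * h.1 j l)) =
      ∑ γ ∈ a.coeff.support, a.coeff γ • (fun l => uk k m (g * γ) * h.1 j l) := by
    funext l
    rw [Finset.sum_apply]
    have h2 : a = ∑ γ ∈ a.coeff.support, MonoidAlgebra.single γ (a.coeff γ) :=
      (MonoidAlgebra.sum_coeff_single a).symm
    conv_lhs => rw [h2]
    rw [Finset.sum_mul, Finset.mul_sum]
    refine Finset.sum_congr rfl fun γ _ => ?_
    have h3 : MonoidAlgebra.single γ (a.coeff γ) = a.coeff γ • uk k m γ := by
      show _ = a.coeff γ • MonoidAlgebra.single γ (1 : k)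
      rw [MonoidAlgebra.smul_single, smul_eq_mul, mul_one]
    rw [h3, Pi.smul_apply, map_mul, smul_mul_assoc, mul_smul_comm, mul_assoc]
  rw [h1]
  refine Submodule.sum_mem _ fun γ hγ => Submodule.smul_mem _ _ (Submodule.subset_span
    ⟨g * γ, j, ?_, rfl⟩)
  have h2 : γ ∈ HT m (S j) := by
    by_contra hcon
    exact Finsupp.mem_support_iff.1 hγ (ha γ hcon)
  rw [mul_smul, (stab_bs γ (S j)).2 h2, hg]

lemma C3b_block (S : n → Option J) (D : Matrix n n (MonoidAlgebra k (Gp m)))
    (hD : ∀ i j, S i ≠ S j → D i j = 0)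
    (hD' : ∀ i j γ, γ ∉ HT m (S j) → (D i j).coeff γ = 0)
    (h h' : (Matrix n n (MonoidAlgebra k (Gp m)))ˣ) (hh : h'.1 = D * h.1) (x : Vx m) :
    VC S h' x ≤ VC S h x := by
  refine Submodule.span_le.2 ?_
  rintro _ ⟨g, i, hg, rfl⟩
  have h1 : (fun l => uk k m g * h'.1 i l) =
      ∑ j, fun l => uk k m g * (D i j * h.1 j l) := by
    funext l
    rw [Finset.sum_apply, hh, Matrix.mul_apply, Finset.mul_sum]
  rw [h1]
  refine Submodule.sum_mem _ fun j _ => ?_
  by_cases hij : S i = S j
  · exact C3b_act_mem S h x g j _ (hD' i j) (by rw [← hij]; exact hg)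
  · have h2 : (fun l => uk k m g * (D i j * h.1 j l)) = 0 := by
      funext l
      rw [hD i j hij, zero_mul, mul_zero]
      rfl
    rw [h2]
    exact Submodule.zero_mem _

theorem step_transfer (𝕋 : TreeD (Gp m) (Vx m) (Option J)) (h𝕋 : 𝕋.b = bs m) (S : n → Option J)
    (h : (Matrix n n (MonoidAlgebra k (Gp m)))ˣ) {t : Option J} {x₁ : Vx m}
    {lam : (n → MonoidAlgebra k (Gp m)) →ₗ[k] k} {v : n → MonoidAlgebra k (Gp m)}
    (hadj : 𝕋.d (bs m t) x₁ = 1) (hv : v ∈ VC S h (bs m t)) (hlam : SuppAt (VC S h) lam (bs m t))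
    (h1 : lam v = 1) (h2 : ∀ g : Gp m, g • bs m t = bs m t → g ≠ 1 → lam (rhoL m k n g v) = 0) :
    ∃ (S' : n → Option J) (h' : (Matrix n n (MonoidAlgebra k (Gp m)))ˣ),
      ∀ x, VC S' h' x = transferV (rhoL m k n) (VC S h) lam v x₁ x := by
  classical
  have hV := VC_frame (k := k) S h
  obtain ⟨a, ha⟩ : ∃ a : Gp m, x₁ = a • bs m (ty x₁) := exists_smul_bs x₁
  set s := ty x₁ with hs
  -- the coefficients of the translates of `v`
  have hδ : ∀ g : Gp m, lam (rhoL m k n g v) = if g = 1 then 1 else 0 := by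
    intro g
    by_cases hg : g = 1
    · rw [if_pos hg, hg, map_one]
      exact h1
    · rw [if_neg hg]
      by_cases hst : g • bs m t = bs m t
      · exact h2 g hst hg
      · exact hlam _ hst _ ((hV.mem_smul g).2 hv)
  have hlin : ∀ (c : Gp m →₀ k) (g : Gp m),
      lam (rhoL m k n g (Finsupp.linearCombination k (fun h => rhoL m k n h v) c)) = c g⁻¹ := by
    intro c g
    induction c using Finsupp.induction_linear with
    | zero => simp
    | add c c' hc hc' => rw [map_add, map_add, map_add, hc, hc', Finsupp.add_apply]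
    | single g' b =>
      rw [Finsupp.linearCombination_single, map_smul, map_smul, ← rho_mul, hδ, smul_eq_mul,
        Finsupp.single_apply]
      by_cases hg : g * g' = 1
      · rw [if_pos hg, if_pos (eq_inv_of_mul_eq_one_right hg), mul_one]
      · rw [if_neg hg, if_neg, mul_zero]
        intro h3
        apply hg
        rw [h3, mul_inv_cancel]
  have hwzero : ∀ w ∈ Submodule.span k (Set.range fun h => rhoL m k n h v),
      (∀ g, lam (rhoL m k n g w) = 0) → w = 0 := by
    intro w hw hw0
    obtain ⟨c, rfl⟩ := Finsupp.mem_span_range_iff_exists_finsupp.1 hw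
    have h3 : c = 0 := by
      ext g
      have h4 := hlin c g⁻¹
      rw [inv_inv] at h4
      rw [← h4]
      exact hw0 _
    rw [h3]
    rfl
  -- the map to the group algebra of the stabiliser
  let Lam : (n → MonoidAlgebra k (Gp m)) →ₗ[k] MonoidAlgebra k (C3bH m t) :=
    { toFun := fun u => MonoidAlgebra.ofCoeff (Finsupp.equivFunOnFinite.symm fun γ =>
        lam (rhoL m k n (C3bi m t γ)⁻¹ u))
      map_add' := by
        intro u w
        apply MonoidAlgebra.coeff_injective
        ext γ
        show lam (rhoL m k n (C3bi m t γ)⁻¹ (u + w)) = lam (rhoL m k n (C3bi m t γ)⁻¹ u) +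
          lam (rhoL m k n (C3bi m t γ)⁻¹ w)
        rw [map_add, map_add]
      map_smul' := by
        intro c u
        apply MonoidAlgebra.coeff_injective
        ext γ
        show lam (rhoL m k n (C3bi m t γ)⁻¹ (c • u)) = c • lam (rhoL m k n (C3bi m t γ)⁻¹ u)
        rw [map_smul, map_smul] }
  have hLam : ∀ u γ, (Lam u).coeff γ = lam (rhoL m k n (C3bi m t γ)⁻¹ u) := fun u γ => rfl
  have hLact : ∀ (α : MonoidAlgebra k (C3bH m t)) (u : n → MonoidAlgebra k (Gp m)),
      Lam (fun j => C3bf m k t α * u j) = α * Lam u := by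
    intro α u
    induction α using MonoidAlgebra.induction_linear with
    | zero =>
      have h3 : (fun j => C3bf m k t 0 * u j) = 0 := by
        funext j
        rw [map_zero, zero_mul]
        rfl
      rw [h3, map_zero, zero_mul]
    | add x y hx hy =>
      have h3 : (fun j => C3bf m k t (x + y) * u j) =
          (fun j => C3bf m k t x * u j) + (fun j => C3bf m k t y * u j) := by
        funext j
        rw [map_add, add_mul]
        rfl
      rw [h3, map_add, hx, hy, add_mul]
    | single γ₀ c =>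
      apply MonoidAlgebra.coeff_injective
      ext γ
      rw [MonoidAlgebra.coeff_single_mul_apply, hLam, hLam]
      have h3 : (fun j => C3bf m k t (MonoidAlgebra.single γ₀ c) * u j) =
          c • rhoL m k n (C3bi m t γ₀) u := by
        funext j
        rw [C3bf_single]
        show _ = c • (MonoidAlgebra.single (C3bi m t γ₀) (1 : k) * u j)
        rw [← smul_mul_assoc, MonoidAlgebra.smul_single, smul_eq_mul, mul_one]
      have e : (C3bi m t (γ₀⁻¹ * γ))⁻¹ = (C3bi m t γ)⁻¹ * C3bi m t γ₀ := by
        rw [map_mul, map_inv, mul_inv_rev, inv_inv]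
      rw [h3, map_smul, map_smul, ← rho_mul, smul_eq_mul, e]
  -- coefficients of `v`
  obtain ⟨av, hav1, hav2, hav3⟩ := (mem_VC_bs S h t v).1 hv
  choose at' hat using fun i => C3b_lift (k := k) t (av i) (hav2 i)
  have hvsum : v = ∑ j : {i // S i = t}, fun l => C3bf m k t (at' j) * h.1 j l := by
    rw [hav3]
    funext l
    rw [Finset.sum_apply]
    show ∑ i, av i * h.1 i l = _
    rw [← Finset.sum_subtype (Finset.univ.filter fun i => S i = t)
      (fun i => by rw [Finset.mem_filter]; exact ⟨fun h => h.2, fun h => ⟨Finset.mem_univ _, h⟩⟩)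
      (fun i => C3bf m k t (at' i) * h.1 i l)]
    rw [Finset.sum_filter]
    refine Finset.sum_congr rfl fun i _ => ?_
    by_cases hi : S i = t
    · rw [if_pos hi, hat]
    · rw [if_neg hi, hav1 i hi, zero_mul]
  have hLv : Lam v = 1 := by
    apply MonoidAlgebra.coeff_injective
    ext γ
    rw [hLam, hδ, MonoidAlgebra.one_def, MonoidAlgebra.coeff_single, Finsupp.single_apply]
    by_cases hγ : (1 : C3bH m t) = γ
    · rw [if_pos hγ, if_pos]
      rw [← hγ, map_one, inv_one]
    · rw [if_neg hγ, if_neg]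
      intro h3
      apply hγ
      apply C3bi_inj m t
      rw [map_one]
      exact (inv_eq_one.1 h3).symm
  have hab : ∑ j : {i // S i = t}, at' j * Lam (h.1 j) = 1 := by
    rw [← hLv]
    conv_rhs => rw [hvsum]
    rw [map_sum]
    exact Finset.sum_congr rfl fun j _ => (hLact _ _).symm
  have hne : Nonempty {i // S i = t} := by
    by_contra hcon
    rw [not_nonempty_iff] at hcon
    rw [Finset.univ_eq_empty, Finset.sum_empty] at hab
    exact zero_ne_one hab
  obtain ⟨i₀⟩ := hne
  have : Finite (MaximalSpectrum (MonoidAlgebra k (C3bH m t))) := fin_max_field k (C3bH m t)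
  obtain ⟨g, hg1, hg2⟩ := exists_mat i₀ (fun j : {i // S i = t} => at' j.1)
    (fun j => Lam (h.1 j.1)) hab
  -- the block matrix
  let blk : Matrix {i // S i = t} {i // S i = t} (MonoidAlgebra k (C3bH m t)) →
      Matrix n n (MonoidAlgebra k (Gp m)) := fun M =>
    (Matrix.fromBlocks (M.map (C3bf m k t)) 0 0
      (1 : Matrix {i // ¬ S i = t} {i // ¬ S i = t} (MonoidAlgebra k (Gp m)))).submatrix
      (Equiv.sumCompl fun i => S i = t).symm (Equiv.sumCompl fun i => S i = t).symm
  have hblk_mul : ∀ M N, blk M * blk N = blk (M * N) := by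
    intro M N
    show Matrix.submatrix _ _ _ * Matrix.submatrix _ _ _ = Matrix.submatrix _ _ _
    rw [Matrix.submatrix_mul_equiv, Matrix.fromBlocks_multiply]
    simp only [Matrix.mul_zero, Matrix.zero_mul, add_zero, zero_add, Matrix.mul_one,
      ← Matrix.map_mul]
  have hblk_one : blk 1 = 1 := by
    show Matrix.submatrix _ _ _ = _
    have h3 : (1 : Matrix {i // S i = t} {i // S i = t} (MonoidAlgebra k (C3bH m t))).map
        (C3bf m k t) = 1 := Matrix.map_one _ (map_zero _) (map_one _)
    rw [h3, Matrix.fromBlocks_one, Matrix.submatrix_one_equiv]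
  let D : (Matrix n n (MonoidAlgebra k (Gp m)))ˣ :=
    { val := blk g.1
      inv := blk (g⁻¹).1
      val_inv := by
        rw [hblk_mul, ← Units.val_mul, mul_inv_cancel, Units.val_one, hblk_one]
      inv_val := by
        rw [hblk_mul, ← Units.val_mul, inv_mul_cancel, Units.val_one, hblk_one] }
  have hblk_pp : ∀ M (i j : {i // S i = t}), blk M i.1 j.1 = C3bf m k t (M i j) := by
    intro M i j
    show Matrix.fromBlocks _ _ _ _ ((Equiv.sumCompl fun i => S i = t).symm i.1)
      ((Equiv.sumCompl fun i => S i = t).symm j.1) = _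
    rw [Equiv.sumCompl_symm_apply_of_pos (p := fun i => S i = t) i.2, Equiv.sumCompl_symm_apply_of_pos (p := fun i => S i = t) j.2]
    rfl
  have hblk_pn : ∀ M i j, S i = t → ¬ S j = t → blk M i j = 0 := by
    intro M i j hi hj
    show Matrix.fromBlocks _ _ _ _ ((Equiv.sumCompl fun i => S i = t).symm i)
      ((Equiv.sumCompl fun i => S i = t).symm j) = _
    rw [Equiv.sumCompl_symm_apply_of_pos (p := fun i => S i = t) hi, Equiv.sumCompl_symm_apply_of_neg (p := fun i => S i = t) hj]
    rfl
  have hblk_n : ∀ M i j, ¬ S i = t → blk M i j = if i = j then 1 else 0 := by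
    intro M i j hi
    show Matrix.fromBlocks _ _ _ _ ((Equiv.sumCompl fun i => S i = t).symm i)
      ((Equiv.sumCompl fun i => S i = t).symm j) = _
    rw [Equiv.sumCompl_symm_apply_of_neg (p := fun i => S i = t) hi]
    by_cases hj : S j = t
    · rw [Equiv.sumCompl_symm_apply_of_pos (p := fun i => S i = t) hj, if_neg]
      · rfl
      · intro h3
        exact hi (by rw [h3]; exact hj)
    · rw [Equiv.sumCompl_symm_apply_of_neg (p := fun i => S i = t) hj]
      show (1 : Matrix {i // ¬ S i = t} {i // ¬ S i = t} (MonoidAlgebra k (Gp m))) ⟨i, hi⟩ ⟨j, hj⟩ = _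
      rw [Matrix.one_apply]
      by_cases hij : i = j
      · rw [if_pos hij, if_pos (Subtype.ext hij)]
      · rw [if_neg hij, if_neg (fun h3 => hij (congrArg Subtype.val h3))]
  have hblk1 : ∀ M i j, S i ≠ S j → blk M i j = 0 := by
    intro M i j hij
    by_cases hi : S i = t
    · exact hblk_pn M i j hi (fun hj => hij (hi.trans hj.symm))
    · rw [hblk_n M i j hi, if_neg]
      intro h3
      exact hij (by rw [h3])
  have hblk2 : ∀ M i j γ, γ ∉ HT m (S j) → (blk M i j).coeff γ = 0 := by
    intro M i j γ hγ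
    by_cases hi : S i = t
    · by_cases hj : S j = t
      · rw [hblk_pp M ⟨i, hi⟩ ⟨j, hj⟩]
        rw [hj] at hγ
        exact C3bf_coeff t _ γ hγ
      · rw [hblk_pn M i j hi hj]
        rfl
    · rw [hblk_n M i j hi]
      by_cases hij : i = j
      · rw [if_pos hij, MonoidAlgebra.one_def, MonoidAlgebra.coeff_single, Finsupp.single_apply,
          if_neg]
        intro h3
        apply hγ
        rw [← h3]
        exact Subgroup.one_mem _
      · rw [if_neg hij]
        rfl
  let h'' : (Matrix n n (MonoidAlgebra k (Gp m)))ˣ := D * h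
  have hVeq : ∀ x, VC S h'' x = VC S h x := by
    intro x
    apply le_antisymm
    · exact C3b_block S D.1 (hblk1 _) (hblk2 _) h h'' rfl x
    · refine C3b_block S (D⁻¹).1 (hblk1 _) (hblk2 _) h'' h ?_ x
      show h.1 = (D⁻¹).1 * (D.1 * h.1)
      rw [← Matrix.mul_assoc, ← Units.val_mul, inv_mul_cancel, Units.val_one, Matrix.one_mul]
  -- the new rows
  have hrow : ∀ i : {i // S i = t}, h''.1 i.1 =
      ∑ j : {i // S i = t}, fun l => C3bf m k t (g.1 i j) * h.1 j.1 l := by
    intro i
    funext l
    rw [Finset.sum_apply]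
    show ∑ j, blk g.1 i.1 j * h.1 j l = _
    have h3 : ∑ j, blk g.1 i.1 j * h.1 j l =
        ∑ j ∈ Finset.univ.filter (fun j => S j = t), blk g.1 i.1 j * h.1 j l := by
      rw [Finset.sum_filter]
      refine Finset.sum_congr rfl fun j _ => ?_
      by_cases hj : S j = t
      · rw [if_pos hj]
      · rw [if_neg hj, hblk_pn g.1 i.1 j i.2 hj, zero_mul]
    rw [h3, Finset.sum_subtype (p := fun i => S i = t) (Finset.univ.filter fun i => S i = t)
      (fun i => by rw [Finset.mem_filter]; exact ⟨fun h => h.2, fun h => ⟨Finset.mem_univ _, h⟩⟩)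
      (fun j => blk g.1 i.1 j * h.1 j l)]
    refine Finset.sum_congr rfl fun j _ => ?_
    rw [hblk_pp]
  have hrow0 : h''.1 i₀.1 = v := by
    rw [hrow, hvsum]
    exact Finset.sum_congr rfl fun j _ => by rw [hg1]
  have hLrow : ∀ i : {i // S i = t}, Lam (h''.1 i.1) = if i = i₀ then 1 else 0 := by
    intro i
    rw [hrow, map_sum, ← hg2 i]
    exact Finset.sum_congr rfl fun j _ => hLact _ _
  -- all rows except the distinguished one are killed by the translates of `lam`
  have hmemrow : ∀ i, h''.1 i ∈ VC S h (bs m (S i)) := by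
    intro i
    rw [← hVeq]
    refine Submodule.subset_span ⟨1, i, one_smul _ _, ?_⟩
    funext j
    rw [map_one, one_mul]
  have hkill : ∀ i, i ≠ i₀.1 → ∀ g : Gp m, lam (rhoL m k n g (h''.1 i)) = 0 := by
    intro i hi g
    by_cases hgi : g • bs m (S i) = bs m t
    · have hSi : S i = t := by
        have h3 := congrArg ty hgi
        rwa [ty_smul, ty_bs, ty_bs] at h3
      rw [hSi, stab_bs] at hgi
      have h3 := hLrow ⟨i, hSi⟩
      rw [if_neg (fun h4 => hi (congrArg Subtype.val h4))] at h3
      obtain ⟨γ, rfl⟩ : ∃ γ : C3bH m t, C3bi m t γ = g := ⟨⟨g, hgi⟩, rfl⟩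
      have h4 := hLam (h''.1 i) γ⁻¹
      rw [h3, map_inv (C3bi m t), inv_inv] at h4
      exact h4.symm
    · exact hlam _ hgi _ ((hV.mem_smul g).2 (hmemrow i))
  -- the final matrix
  let D' : (Matrix n n (MonoidAlgebra k (Gp m)))ˣ :=
    { val := Matrix.diagonal fun i => if i = i₀.1 then uk k m a⁻¹ else 1
      inv := Matrix.diagonal fun i => if i = i₀.1 then uk k m a else 1
      val_inv := by
        rw [Matrix.diagonal_mul_diagonal, ← Matrix.diagonal_one]
        congr 1
        funext i
        split_ifs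
        · rw [← map_mul, inv_mul_cancel, map_one]
        · rw [one_mul]
      inv_val := by
        rw [Matrix.diagonal_mul_diagonal, ← Matrix.diagonal_one]
        congr 1
        funext i
        split_ifs
        · rw [← map_mul, mul_inv_cancel, map_one]
        · rw [one_mul] }
  have hD'row0 : ∀ l, (D' * h'').1 i₀.1 l = uk k m a⁻¹ * v l := by
    intro l
    rw [Units.val_mul]
    show ((Matrix.diagonal fun i => if i = i₀.1 then uk k m a⁻¹ else 1) * h''.1) i₀.1 l = _
    rw [Matrix.diagonal_mul, if_pos rfl, hrow0]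
  have hD'row : ∀ i, i ≠ i₀.1 → ∀ l, (D' * h'').1 i l = h''.1 i l := by
    intro i hi l
    rw [Units.val_mul]
    show ((Matrix.diagonal fun i => if i = i₀.1 then uk k m a⁻¹ else 1) * h''.1) i l = _
    rw [Matrix.diagonal_mul, if_neg hi, one_mul]
  refine ⟨Function.update S i₀.1 s, D' * h'', fun x => ?_⟩
  apply le_antisymm
  · refine Submodule.span_le.2 ?_
    rintro _ ⟨g', i, hgi, rfl⟩
    by_cases hi : i = i₀.1
    · subst hi
      rw [Function.update_self] at hgi
      refine Submodule.mem_sup_right (Submodule.subset_span ⟨g' * a⁻¹, ?_, ?_⟩)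
      · rw [ha, mul_smul, inv_smul_smul]
        exact hgi
      · funext l
        rw [hD'row0]
        show uk k m g' * (uk k m a⁻¹ * v l) = uk k m (g' * a⁻¹) * v l
        rw [map_mul, mul_assoc]
    · rw [Function.update_of_ne hi] at hgi
      refine Submodule.mem_sup_left (Submodule.mem_inf.2 ⟨?_, ?_⟩)
      · have h3 : (fun j => uk k m g' * (D' * h'').1 i j) = rhoL m k n g' (h''.1 i) := by
          funext l
          rw [hD'row i hi]
          rfl
        rw [h3, ← hgi]
        exact (hV.mem_smul g').2 (hmemrow i)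
      · rw [Submodule.mem_iInf]
        intro g₂
        show lam (rhoL m k n g₂ (fun j => uk k m g' * (D' * h'').1 i j)) = 0
        have h3 : (fun j => uk k m g' * (D' * h'').1 i j) = rhoL m k n g' (h''.1 i) := by
          funext l
          rw [hD'row i hi]
          rfl
        rw [h3, ← rho_mul]
        exact hkill i hi _
  · refine sup_le ?_ (Submodule.span_le.2 ?_)
    · intro u hu
      obtain ⟨hu1, hu2⟩ := Submodule.mem_inf.1 hu
      rw [Submodule.mem_iInf] at hu2
      have hu2' : ∀ g₂, lam (rhoL m k n g₂ u) = 0 := fun g₂ => hu2 g₂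
      set Z : Submodule k (n → MonoidAlgebra k (Gp m)) := Submodule.span k
        {w | ∃ (g' : Gp m) (i : n), i ≠ i₀.1 ∧ g' • bs m (S i) = x ∧
          w = rhoL m k n g' (h''.1 i)} with hZ
      have hZle : Z ≤ VC (Function.update S i₀.1 s) (D' * h'') x := by
        refine Submodule.span_le.2 ?_
        rintro _ ⟨g', i, hi, hgi, rfl⟩
        refine Submodule.subset_span ⟨g', i, ?_, ?_⟩
        · rw [Function.update_of_ne hi]
          exact hgi
        · funext l
          rw [hD'row i hi]
          rfl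
      have hZ0 : ∀ z ∈ Z, ∀ g₂, lam (rhoL m k n g₂ z) = 0 := by
        intro z hz g₂
        have h3 : Z ≤ LinearMap.ker (lam ∘ₗ rhoL m k n g₂) := by
          refine Submodule.span_le.2 ?_
          rintro _ ⟨g', i, hi, -, rfl⟩
          show lam (rhoL m k n g₂ (rhoL m k n g' (h''.1 i))) = 0
          rw [← rho_mul]
          exact hkill i hi _
        exact h3 hz
      rw [← hVeq] at hu1
      have h3 : VC S h'' x ≤ Z ⊔ Submodule.span k (Set.range fun h => rhoL m k n h v) := by
        refine Submodule.span_le.2 ?_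
        rintro _ ⟨g', i, hgi, rfl⟩
        by_cases hi : i = i₀.1
        · refine Submodule.mem_sup_right (Submodule.subset_span ⟨g', ?_⟩)
          funext l
          rw [hi, hrow0]
          rfl
        · exact Submodule.mem_sup_left (Submodule.subset_span ⟨g', i, hi, hgi, rfl⟩)
      obtain ⟨z, hz, w, hw, hzw⟩ := Submodule.mem_sup.1 (h3 hu1)
      have hw0 : w = 0 := by
        refine hwzero w hw fun g₂ => ?_
        have h4 := hu2' g₂
        rw [← hzw, map_add, map_add, hZ0 z hz g₂, zero_add] at h4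
        exact h4
      rw [← hzw, hw0, add_zero]
      exact hZle hz
    · rintro _ ⟨g₂, hg₂, rfl⟩
      refine Submodule.subset_span ⟨g₂ * a, i₀.1, ?_, ?_⟩
      · rw [Function.update_self, mul_smul, ← ha]
        exact hg₂
      · funext l
        rw [hD'row0]
        show uk k m g₂ * v l = uk k m (g₂ * a) * (uk k m a⁻¹ * v l)
        rw [← mul_assoc, ← map_mul, mul_inv_cancel_right]

end FP
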