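import Pool.Agent.Lib.MP_2d4659_gt.FP.C3a
import Pool.Agent.Lib.MP_2d4659_gt.FP.C3b

/-! # Steps change `VC S h` to `VC S' h'` -/

set_option autoImplicit false

namespace FP

variable {J : Type} {m : J → ℕ} {k : Type} [Field k] {n : Type} [Fintype n] [DecidableEq n]

theorem step_state (𝕋 : TreeD (Gp m) (Vx m) (Option J)) (h𝕋 : 𝕋.b = bs m) (S : n → Option J)
    (h : (Matrix n n (MonoidAlgebra k (Gp m)))ˣ)
    {V' : Vx m → Submodule k (n → MonoidAlgebra k (Gp m))}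
    (hs : Step 𝕋 (rhoL m k n) (VC S h) V') :
    ∃ (S' : n → Option J) (h' : (Matrix n n (MonoidAlgebra k (Gp m)))ˣ), V' = VC S' h' := by
  cases hs with
  | shear t y lam w T hy hw hlam hlw hS hV' =>
    rw [h𝕋] at hlam
    obtain ⟨h', hh⟩ := step_shear 𝕋 h𝕋 S h hlam hlw hS
    exact ⟨S, h', funext fun x => (hV' x).trans (hh x).symm⟩
  | transfer t x₁ lam v hadj hv hlam h1 h2 hV' =>
    rw [h𝕋] at hadj hv hlam
    simp only [h𝕋] at h2
    obtain ⟨S', h', hh⟩ := step_transfer 𝕋 h𝕋 S h hadj hv hlam h1 h2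
    exact ⟨S', h', funext fun x => (hV' x).trans (hh x).symm⟩

end FP
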