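import Pool.Agent.Lib.MP_2d4659_gt.FP.C1
import Pool.Agent.Lib.MP_2d4659_gt.FP.C2
import Pool.Agent.Lib.MP_2d4659_gt.FP.C2b
import Pool.Agent.Lib.MP_2d4659_gt.FP.B3

/-! # A shear changes `VC S h` to `VC S h'`: `h' = h * M` with `M` the matrix of the shear, which is
`k[G]`-linear -/

set_option autoImplicit false

namespace FP

variable {J : Type} {m : J → ℕ} {k : Type} [Field k] {n : Type} [Fintype n] [DecidableEq n]

omit [Fintype n] [DecidableEq n] in
/-- maps commuting with the group commute with the group ring -/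
lemma C3a_lin {T : (n → MonoidAlgebra k (Gp m)) →ₗ[k] (n → MonoidAlgebra k (Gp m))}
    (hT : ∀ g v, T (rhoL m k n g v) = rhoL m k n g (T v)) (a : MonoidAlgebra k (Gp m))
    (v : n → MonoidAlgebra k (Gp m)) : T (fun j => a * v j) = fun j => a * T v j := by
  induction a using MonoidAlgebra.induction_on with
  | of g => exact hT g v
  | add a b ha hb =>
    have h1 : (fun j => (a + b) * v j) = (fun j => a * v j) + fun j => b * v j := by
      funext j
      rw [Pi.add_apply, add_mul]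
    rw [h1, map_add, ha, hb]
    funext j
    rw [Pi.add_apply, add_mul]
  | smul c a ha =>
    have h1 : (fun j => (c • a) * v j) = c • fun j => a * v j := by
      funext j
      rw [Pi.smul_apply, smul_mul_assoc]
    rw [h1, map_smul, ha]
    funext j
    rw [Pi.smul_apply, smul_mul_assoc]

/-- the matrix of a map commuting with the group -/
noncomputable def C3a_mat (T : (n → MonoidAlgebra k (Gp m)) →ₗ[k] (n → MonoidAlgebra k (Gp m))) :
    Matrix n n (MonoidAlgebra k (Gp m)) :=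
  Matrix.of fun i j => T (Pi.single i 1) j

lemma C3a_vec {T : (n → MonoidAlgebra k (Gp m)) →ₗ[k] (n → MonoidAlgebra k (Gp m))}
    (hT : ∀ g v, T (rhoL m k n g v) = rhoL m k n g (T v)) (v : n → MonoidAlgebra k (Gp m)) :
    T v = Matrix.vecMul v (C3a_mat T) := by
  have h1 : v = ∑ i, fun j => v i * (Pi.single i (1 : MonoidAlgebra k (Gp m)) : n → _) j := by
    funext j
    rw [Finset.sum_apply, Finset.sum_eq_single j]
    · rw [Pi.single_eq_same, mul_one]
    · intro i _ hij
      rw [Pi.single_eq_of_ne hij.symm, mul_zero]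
    · intro hj
      exact absurd (Finset.mem_univ j) hj
  conv_lhs => rw [h1]
  rw [map_sum]
  funext j
  rw [Finset.sum_apply]
  show _ = ∑ i, v i * C3a_mat T i j
  refine Finset.sum_congr rfl fun i _ => ?_
  rw [C3a_lin hT]
  rfl

theorem step_shear (𝕋 : TreeD (Gp m) (Vx m) (Option J)) (h𝕋 : 𝕋.b = bs m) (S : n → Option J)
    (h : (Matrix n n (MonoidAlgebra k (Gp m)))ˣ) {t : Option J}
    {lam : (n → MonoidAlgebra k (Gp m)) →ₗ[k] k} {w : n → MonoidAlgebra k (Gp m)}
    {T : (n → MonoidAlgebra k (Gp m)) →ₗ[k] (n → MonoidAlgebra k (Gp m))}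
    (hlam : SuppAt (VC S h) lam (bs m t)) (hlw : ∀ g, lam (rhoL m k n g w) = 0)
    (hT : IsShear (rhoL m k n) lam w T) :
    ∃ h' : (Matrix n n (MonoidAlgebra k (Gp m)))ˣ, ∀ x, VC S h' x = (VC S h x).map T := by
  have hV := VC_frame (k := k) S h
  have hlam' : SuppAt (VC S h) lam (𝕋.b t) := by
    rw [h𝕋]
    exact hlam
  have hfin : ∀ u, {g : Gp m | lam (rhoL m k n g u) ≠ 0}.Finite :=
    fun u => IsFrame.fin_supp 𝕋 hV hlam' u
  obtain ⟨T', hT', h1, h2⟩ := hT.equiv hfin hlw
  have hc : ∀ g v, T (rhoL m k n g v) = rhoL m k n g (T v) := fun g v => hT.smul hfin g v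
  have hc' : ∀ g v, T' (rhoL m k n g v) = rhoL m k n g (T' v) := fun g v => hT'.smul hfin g v
  have h1' : ∀ v, T (T' v) = v := fun v => congrArg (fun f => f v) h1
  have h2' : ∀ v, T' (T v) = v := fun v => congrArg (fun f => f v) h2
  have e1 : C3a_mat T' * C3a_mat T = 1 := by
    refine Matrix.ext_of_single_vecMul fun i => ?_
    rw [← Matrix.vecMul_vecMul, ← C3a_vec hc', ← C3a_vec hc, h1', Matrix.vecMul_one]
  have e2 : C3a_mat T * C3a_mat T' = 1 := by
    refine Matrix.ext_of_single_vecMul fun i => ?_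
    rw [← Matrix.vecMul_vecMul, ← C3a_vec hc, ← C3a_vec hc', h2', Matrix.vecMul_one]
  refine ⟨h * ⟨C3a_mat T, C3a_mat T', e2, e1⟩, fun x => ?_⟩
  unfold VC
  rw [Submodule.map_span]
  congr 1
  have hrow : ∀ (g : Gp m) (i : n), (fun j => uk k m g *
      (h * ⟨C3a_mat T, C3a_mat T', e2, e1⟩ : (Matrix n n (MonoidAlgebra k (Gp m)))ˣ).1 i j) =
      T (fun j => uk k m g * h.1 i j) := by
    intro g i
    rw [C3a_lin hc, C3a_vec hc]
    rfl
  ext v
  constructor
  · rintro ⟨g, i, hx, rfl⟩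
    exact ⟨_, ⟨g, i, hx, rfl⟩, (hrow g i).symm⟩
  · rintro ⟨_, ⟨g, i, hx, rfl⟩, rfl⟩
    exact ⟨g, i, hx, (hrow g i).symm⟩

end FP
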