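import Pool.Agent.Lib.MP_2d4659_gt.FP.A4
import Pool.Agent.Lib.MP_2d4659_gt.FP.B2
import Pool.Agent.Lib.MP_2d4659_gt.FP.CDefs

/-!
# Consequences of the weak algorithm for the map `v ↦ v Φ`

Write `f v = v Φ`; the image of `f` is the row space of `Ψ`.  By `WP` with `R = 0` the kernel of `f` is
the direct sum of its intersections with the pieces.  By `WP` at `bs none`, `R = 1`: if `f (∑ z_x)` is
supported at `1` then `f (z_x) = 0` for `x ≠ bs none` and `f (z_{bs none})` is supported at `1`.  By `WP`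
at `bs (some i)`, `R = 2`: if `f (∑ z_x)` is supported in `HJ i` then `f (z_x) = 0` unless `x = bs (some i)`
or `x = inl g`, `g ∈ HJ i`, and then `f (z_x)` is supported at `g`.  The elements of the row space of `Ψ`
supported at `1` are the `∑ t_y e_y`, `t_y ∈ k`; those supported in `HJ i` are the
`c N_i e_i + ∑ t_y e_y`, `t_y ∈ k[HJ i]`.
-/

set_option autoImplicit false
set_option linter.unusedSectionVars false

namespace FP

variable {J : Type} [Fintype J] [DecidableEq J] [Nonempty J] {m : J → ℕ} (hm : ∀ j, m j ≠ 1)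
  {k : Type} [Field k] {Y σ : Type} [Fintype Y] [DecidableEq Y] [Fintype σ] [DecidableEq σ]

/-- the vector `N_i e_i - ∑_y N_i t_y e_y` -/
noncomputable def wv (i : FJ m) (t : Y → k) : Co m Y → MonoidAlgebra k (Gp m)
  | Sum.inl i' => if i' = i then NB (uk k m) i else 0
  | Sum.inr y => - (NB (uk k m) i * MonoidAlgebra.single 1 (t y))

/-- the unit vector `e_y` -/
noncomputable def ey (m : J → ℕ) (y : Y) : Co m Y → MonoidAlgebra k (Gp m) :=
  Pi.single (Sum.inr y) (1 : MonoidAlgebra k (Gp m))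

/-- the vector `∑_y t_y e_y` -/
noncomputable def tv (m : J → ℕ) (t : Y → k) : Co m Y → MonoidAlgebra k (Gp m)
  | Sum.inl _ => 0
  | Sum.inr y => MonoidAlgebra.single 1 (t y)

omit [Fintype J] [DecidableEq J] [Nonempty J] in
/-- coefficients of the norm element -/
lemma C4_NB_coeff (i : FJ m) (g : Gp m) [Decidable (g ∈ HJ m i.1)] :
    (NB (uk k m) i).coeff g = if g ∈ HJ m i.1 then 1 else 0 := by
  classical
  have e1 : (NB (uk k m) i).coeff g =
      ∑ c ∈ Finset.range (m i.1), if gen m i.1 ^ c = g then (1 : k) else 0 := by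
    unfold NB
    rw [MonoidAlgebra.coeff_sum, Finsupp.finsetSum_apply]
    refine Finset.sum_congr rfl fun c _ => ?_
    rw [← map_pow]
    change (Finsupp.single (gen m i.1 ^ c) (1 : k)) g = _
    rw [Finsupp.single_apply]
  rw [e1]
  have h1 := mem_HT_some i.2 g
  change g ∈ HJ m i.1 ↔ _ at h1
  by_cases hg : g ∈ HJ m i.1
  · rw [if_pos hg]
    obtain ⟨c, hc, hgc⟩ := h1.1 hg
    rw [Finset.sum_eq_single c]
    · rw [if_pos hgc.symm]
    · intro c' hc' hne
      rw [if_neg]
      intro he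
      exact hne (gen_pow_inj i.2 (Finset.mem_range.1 hc') hc (he.trans hgc))
    · intro hh
      exact absurd (Finset.mem_range.2 hc) hh
  · rw [if_neg hg]
    refine Finset.sum_eq_zero fun c hc => ?_
    rw [if_neg]
    intro he
    exact hg (h1.2 ⟨c, Finset.mem_range.1 hc, he.symm⟩)

omit [Fintype J] [DecidableEq J] [Nonempty J] in
lemma C4_NB_mul (i : FJ m) (h : Gp m) (hh : h ∈ HJ m i.1) :
    NB (uk k m) i * MonoidAlgebra.single h (1 : k) = NB (uk k m) i := by
  classical
  refine MonoidAlgebra.coeff_injective (Finsupp.ext fun g => ?_)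
  rw [MonoidAlgebra.coeff_mul_single_apply, mul_one, C4_NB_coeff, C4_NB_coeff]
  have : g * h⁻¹ ∈ HJ m i.1 ↔ g ∈ HJ m i.1 :=
    (HJ m i.1).mul_mem_cancel_right ((HJ m i.1).inv_mem hh)
  by_cases hg : g ∈ HJ m i.1
  · rw [if_pos hg, if_pos (this.2 hg)]
  · rw [if_neg hg, if_neg (fun h => hg (this.1 h))]

omit [Fintype J] [DecidableEq J] [Nonempty J] in
lemma C4_inv (c : MonoidAlgebra k (Gp m)) (i : FJ m) (g h : Gp m) (hh : h ∈ HJ m i.1) :
    (c * NB (uk k m) i).coeff (g * h) = (c * NB (uk k m) i).coeff g := by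
  have h1 : (c * NB (uk k m) i) * MonoidAlgebra.single h (1 : k) = c * NB (uk k m) i := by
    rw [mul_assoc, C4_NB_mul i h hh]
  conv_lhs => rw [← h1]
  rw [MonoidAlgebra.coeff_mul_single_apply, mul_one, mul_inv_cancel_right]

omit [Fintype J] [Nonempty J] in
lemma C4_trivial {i j : J} (hij : i ≠ j) (h : Gp m) (hi : h ∈ HJ m i) (hj : h ∈ HJ m j) :
    h = 1 := by
  by_cases hmi : m i = 0
  · rw [Gdefs_HJ_zero hmi, Subgroup.mem_bot] at hi
    exact hi
  by_cases hmj : m j = 0
  · rw [Gdefs_HJ_zero hmj, Subgroup.mem_bot] at hj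
    exact hj
  rw [Gdefs_HJ_ne hmi] at hi
  rw [Gdefs_HJ_ne hmj] at hj
  obtain ⟨a, ha⟩ := hi
  obtain ⟨b, hb⟩ := hj
  obtain ⟨π, hπ⟩ : ∃ π : Gp m →* (∀ j : J, Multiplicative (ZMod (m j))),
      ∀ (j : J) (x : Multiplicative (ZMod (m j))),
        π (Monoid.CoprodI.of (M := fun j => Multiplicative (ZMod (m j))) (i := j) x) =
          Pi.mulSingle j x :=
    ⟨Monoid.CoprodI.lift (fun j => MonoidHom.mulSingle (fun j => Multiplicative (ZMod (m j))) j),
      fun j x => by
        rw [Monoid.CoprodI.lift_of]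
        rfl⟩
  have h1 : Pi.mulSingle i a = (Pi.mulSingle j b : ∀ j : J, Multiplicative (ZMod (m j))) := by
    rw [← hπ, ← hπ, ha, hb]
  have h2 := congrFun h1 i
  rw [Pi.mulSingle_eq_same, Pi.mulSingle_eq_of_ne hij] at h2
  rw [← ha, h2, map_one]

omit [Fintype J] [DecidableEq J] [Nonempty J] in
lemma C4_gen (hm : ∀ j, m j ≠ 1) (i : FJ m) : gen m i.1 ∈ HJ m i.1 ∧ gen m i.1 ≠ 1 := by
  have h0 := i.2
  have h1 := hm i.1
  constructor
  · have h2 := (mem_HT_some i.2 (gen m i.1)).2 ⟨1, by omega, (pow_one _).symm⟩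
    exact h2
  · intro he
    have h3 : gen m i.1 ^ 1 = gen m i.1 ^ 0 := by rw [pow_one, pow_zero, he]
    have := gen_pow_inj i.2 (by omega) (by omega) h3
    omega

/-- the place where the image of a piece lives -/
def C4_near : Vx m → Gp m → Prop
  | Sum.inl h, g => g = h
  | Sum.inr q, g => m q.1 ≠ 0 ∧ (QuotientGroup.mk g : Gp m ⧸ HJ m q.1) = q.2

omit [Fintype J] [DecidableEq J] [Nonempty J] in
lemma C4_near_smul (a g : Gp m) (x : Vx m) : C4_near (a • x) (a * g) ↔ C4_near x g := by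
  rcases x with h | ⟨j, q⟩
  · change a * g = a * h ↔ g = h
    exact mul_right_inj a
  · induction q using QuotientGroup.induction_on with
    | H h =>
      change (m j ≠ 0 ∧ (QuotientGroup.mk (a * g) : Gp m ⧸ HJ m j) = QuotientGroup.mk (a * h)) ↔
        (m j ≠ 0 ∧ (QuotientGroup.mk g : Gp m ⧸ HJ m j) = QuotientGroup.mk h)
      rw [QuotientGroup.eq, QuotientGroup.eq]
      have : (a * g)⁻¹ * (a * h) = g⁻¹ * h := by group
      rw [this]

omit [DecidableEq J] in
lemma C4_bo (g : Gp m) : g • (tree m hm).b (tree m hm).o = Sum.inl g := by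
  rw [tree_b, tree_o]
  exact smul_bs_none g

omit [DecidableEq J] in
lemma C4_d1 (x : Vx m) (g : Gp m) (h : ¬ C4_near x g) :
    1 ≤ (tree m hm).d (bs m none) x + (tree m hm).d x (Sum.inl g) := by
  by_contra hc
  have h1 : (tree m hm).d (bs m none) x = 0 := by omega
  have h2 : (tree m hm).d x (Sum.inl g) = 0 := by omega
  have h4 := (tree m hm).eq_of_d _ _ h2
  rw [h4] at h
  exact h rfl

omit [DecidableEq J] in
lemma C4_d2 (i : FJ m) (x : Vx m) (g : Gp m) (h : ¬ C4_near x g) :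
    2 ≤ (tree m hm).d (bs m (some i.1)) x + (tree m hm).d x (Sum.inl g) := by
  by_contra hc
  by_cases h2 : (tree m hm).d x (Sum.inl g) = 0
  · have h4 := (tree m hm).eq_of_d _ _ h2
    rw [h4] at h
    exact h rfl
  · have h1 : (tree m hm).d (bs m (some i.1)) x = 0 := by omega
    have h4 := (tree m hm).eq_of_d _ _ h1
    rw [← h4] at h hc
    have h5 : (tree m hm).d (bs m (some i.1)) (Sum.inl g) < 2 := by omega
    have h6 := (tree_ball_fin m hm i.2 g).1 h5
    apply h
    refine ⟨i.2, ?_⟩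
    change (QuotientGroup.mk g : Gp m ⧸ HJ m i.1) = QuotientGroup.mk 1
    rw [QuotientGroup.eq, mul_one]
    exact (HJ m i.1).inv_mem h6

section

variable {V : Vx m → Submodule k (Nx m Y σ → MonoidAlgebra k (Gp m))}
    {Φ : Matrix (Nx m Y σ) (Co m Y) (MonoidAlgebra k (Gp m))}

omit [Nonempty J] in
lemma C4_inj {u w : Nx m Y σ → MonoidAlgebra k (Gp m)} (h : fPhi Φ u = fPhi Φ w) :
    Matrix.vecMul u Φ = Matrix.vecMul w Φ := by
  funext j
  refine MonoidAlgebra.coeff_injective (Finsupp.ext fun g => ?_)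
  rw [← fPhi_apply, ← fPhi_apply, h]

omit [Nonempty J] in
lemma C4_of {u w : Nx m Y σ → MonoidAlgebra k (Gp m)}
    (h : Matrix.vecMul u Φ = Matrix.vecMul w Φ) : fPhi Φ u = fPhi Φ w := by
  ext g j
  rw [fPhi_apply, fPhi_apply, h]

omit [Nonempty J] in
/-- the row vectors of `Ψ` are images -/
lemma C4_rows (hrow : SameRow Φ (psi (uk k m) Y σ)) (r : Nx m Y σ) :
    ∃ u, Matrix.vecMul u Φ = psi (uk k m) Y σ r := by
  obtain ⟨-, X, hX⟩ := hrow
  refine ⟨X r, ?_⟩
  funext c
  have := congrFun (congrFun hX r) c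
  rw [this]
  rfl

omit [Nonempty J] in
lemma C4_row_inl (hrow : SameRow Φ (psi (uk k m) Y σ)) (u : Nx m Y σ → MonoidAlgebra k (Gp m))
    (i : FJ m) : ∃ c, Matrix.vecMul u Φ (Sum.inl i) = c * NB (uk k m) i := by
  obtain ⟨⟨X, hX⟩, -⟩ := hrow
  refine ⟨Matrix.vecMul u X (Sum.inl (Sum.inl i)), ?_⟩
  rw [hX, ← Matrix.vecMul_vecMul]
  change ∑ r, Matrix.vecMul u X r * psi (uk k m) Y σ r (Sum.inl i) = _
  rw [Finset.sum_eq_single (Sum.inl (Sum.inl i))]
  · simp [psi, dg]
  · rintro (r | r) _ hr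
    · have : r ≠ Sum.inl i := fun h => hr (by rw [h])
      simp [psi, this]
    · simp [psi]
  · intro h
    exact absurd (Finset.mem_univ _) h

omit [Nonempty J] in
lemma C4_coeff_inv (hrow : SameRow Φ (psi (uk k m) Y σ))
    (u : Nx m Y σ → MonoidAlgebra k (Gp m)) (i : FJ m) (g h : Gp m) (hh : h ∈ HJ m i.1) :
    (Matrix.vecMul u Φ (Sum.inl i)).coeff (g * h) = (Matrix.vecMul u Φ (Sum.inl i)).coeff g := by
  obtain ⟨c, hc⟩ := C4_row_inl hrow u i
  rw [hc]
  exact C4_inv c i g h hh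

omit [Nonempty J] in
lemma C4_single (hV : IsFrame (rhoL m k (Nx m Y σ)) V) (u : Nx m Y σ → MonoidAlgebra k (Gp m))
    (x₀ : Vx m) (h : ∀ x, x ≠ x₀ → fPhi Φ (hV.P u x) = 0) : fPhi Φ u = fPhi Φ (hV.P u x₀) := by
  classical
  conv_lhs => rw [← hV.P_sum u]
  rw [map_finsuppSum, Finsupp.sum, Finset.sum_eq_single x₀]
  · intro x _ hx
    exact h x hx
  · intro hx
    rw [Finsupp.notMem_support_iff.1 hx, map_zero]

/-- kernel elements have their pieces in the kernel -/
lemma C4_ker (hV : IsFrame (rhoL m k (Nx m Y σ)) V) (hW : WP (tree m hm) (fPhi Φ) V)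
    (u : Nx m Y σ → MonoidAlgebra k (Gp m)) (hu : fPhi Φ u = 0) (x : Vx m) :
    fPhi Φ (hV.P u x) = 0 := by
  refine Finsupp.ext fun g => ?_
  rw [Finsupp.zero_apply]
  refine hW x 0 (hV.P u) (fun y => hV.P_mem u y) (fun g _ => ?_) x g (Nat.zero_le _)
  rw [hV.P_sum, hu, Finsupp.zero_apply]

/-- the elements whose pieces have images near the vertex -/
def C4_M (hV : IsFrame (rhoL m k (Nx m Y σ)) V)
    (Φ : Matrix (Nx m Y σ) (Co m Y) (MonoidAlgebra k (Gp m))) :
    Submodule k (Nx m Y σ → MonoidAlgebra k (Gp m)) where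
  carrier := {w | ∀ x g, ¬ C4_near x g → fPhi Φ (hV.P w x) g = 0}
  add_mem' := by
    intro a b ha hb x g hx
    rw [map_add, Finsupp.add_apply, map_add, Finsupp.add_apply, ha x g hx, hb x g hx, add_zero]
  zero_mem' := by
    intro x g _
    rw [map_zero, Finsupp.zero_apply, map_zero, Finsupp.zero_apply]
  smul_mem' := by
    intro c a ha x g hx
    rw [map_smul, Finsupp.smul_apply, map_smul, Finsupp.smul_apply, ha x g hx, smul_zero]

omit [Nonempty J] in
lemma C4_mem_M (hV : IsFrame (rhoL m k (Nx m Y σ)) V) (w : Nx m Y σ → MonoidAlgebra k (Gp m)) :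
    w ∈ C4_M hV Φ ↔ ∀ x g, ¬ C4_near x g → fPhi Φ (hV.P w x) g = 0 := Iff.rfl

omit [Nonempty J] in
lemma C4_M_rho (hV : IsFrame (rhoL m k (Nx m Y σ)) V) (a : Gp m)
    (w : Nx m Y σ → MonoidAlgebra k (Gp m)) (hw : w ∈ C4_M hV Φ) :
    rhoL m k (Nx m Y σ) a w ∈ C4_M hV Φ := by
  intro x g hx
  have h1 : x = a • (a⁻¹ • x) := (smul_inv_smul a x).symm
  have h2 : g = a * (a⁻¹ * g) := (mul_inv_cancel_left a g).symm
  rw [h1, h2] at hx
  rw [C4_near_smul] at hx
  rw [h1, hV.P_smul, h2, fPhi_equiv]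
  exact hw _ _ hx

omit [Fintype J] [DecidableEq J] [Nonempty J] [Fintype Y] [DecidableEq Y] [Fintype σ]
  [DecidableEq σ] in
lemma C4_single_smul (a : Gp m) (r : k) (w : Nx m Y σ → MonoidAlgebra k (Gp m)) :
    MonoidAlgebra.single a r • w = r • rhoL m k (Nx m Y σ) a w := by
  funext j
  change MonoidAlgebra.single a r * w j = r • (uk k m a * w j)
  rw [MonoidAlgebra.of_apply, ← smul_mul_assoc, MonoidAlgebra.smul_single, smul_eq_mul, mul_one]

omit [Nonempty J] in
lemma C4_M_smul (hV : IsFrame (rhoL m k (Nx m Y σ)) V) (a : MonoidAlgebra k (Gp m))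
    (w : Nx m Y σ → MonoidAlgebra k (Gp m)) (hw : w ∈ C4_M hV Φ) : a • w ∈ C4_M hV Φ := by
  induction a using MonoidAlgebra.induction_linear with
  | zero =>
    rw [zero_smul]
    exact zero_mem _
  | add a b ha hb =>
    rw [add_smul]
    exact add_mem ha hb
  | single a r =>
    rw [C4_single_smul]
    exact Submodule.smul_mem _ r (C4_M_rho hV a w hw)

omit [DecidableEq J] [DecidableEq Y] [DecidableEq σ] in
lemma C4_smul_vecMul (a : MonoidAlgebra k (Gp m)) (w : Nx m Y σ → MonoidAlgebra k (Gp m)) :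
    Matrix.vecMul (a • w) Φ = a • Matrix.vecMul w Φ := by
  funext j
  simp only [Matrix.vecMul, dotProduct, Pi.smul_apply, smul_eq_mul, Finset.mul_sum, mul_assoc]

lemma C4_rows_M (hV : IsFrame (rhoL m k (Nx m Y σ)) V) (hW : WP (tree m hm) (fPhi Φ) V)
    (r : Nx m Y σ) (u : Nx m Y σ → MonoidAlgebra k (Gp m))
    (hu : Matrix.vecMul u Φ = psi (uk k m) Y σ r) : u ∈ C4_M hV Φ := by
  classical
  intro x g hx
  rcases r with (i | y) | s
  · refine hW (bs m (some i.1)) 2 (hV.P u) (fun y => hV.P_mem u y) (fun g' hg' => ?_) x g ?_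
    · rw [C4_bo] at hg'
      rw [hV.P_sum]
      ext c
      rw [fPhi_apply, hu, Pi.zero_apply]
      have hg'' : g' ∉ HJ m i.1 := by
        intro hh
        have := (tree_ball_fin m hm i.2 g').2 hh
        omega
      by_cases hc : c = Sum.inl i
      · subst hc
        have : psi (uk k m) Y σ (Sum.inl (Sum.inl i)) (Sum.inl i) = NB (uk k m) i := by
          simp [psi, dg]
        rw [this, C4_NB_coeff, if_neg hg'']
      · have : psi (uk k m) Y σ (Sum.inl (Sum.inl i)) c = 0 := by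
          have hc' : Sum.inl i ≠ c := fun h => hc h.symm
          simp [psi, hc']
        rw [this]
        rfl
    · rw [C4_bo]
      exact C4_d2 hm i x g hx
  · refine hW (bs m none) 1 (hV.P u) (fun y => hV.P_mem u y) (fun g' hg' => ?_) x g ?_
    · rw [C4_bo] at hg'
      rw [hV.P_sum]
      ext c
      rw [fPhi_apply, hu, Pi.zero_apply]
      have hg'' : g' ≠ 1 := by
        intro hh
        rw [hh] at hg'
        have h0 : (tree m hm).d (bs m none) (Sum.inl 1) = 0 := (tree m hm).d_self _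
        omega
      by_cases hc : c = Sum.inr y
      · subst hc
        have : psi (uk k m) Y σ (Sum.inl (Sum.inr y)) (Sum.inr y) = 1 := by
          simp [psi, dg]
        rw [this, MonoidAlgebra.one_def, MonoidAlgebra.coeff_single, Finsupp.single_apply,
          if_neg (fun h => hg'' h.symm)]
      · have : psi (uk k m) Y σ (Sum.inl (Sum.inr y)) c = 0 := by
          have hc' : Sum.inr y ≠ c := fun h => hc h.symm
          simp [psi, hc']
        rw [this]
        rfl
    · rw [C4_bo]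
      exact C4_d1 hm x g hx
  · have h0 : fPhi Φ u = 0 := by
      ext g j
      rw [fPhi_apply, hu]
      rfl
    rw [C4_ker hm hV hW u h0, Finsupp.zero_apply]

/-- the images of the pieces are near the vertex -/
lemma C4_supp (hV : IsFrame (rhoL m k (Nx m Y σ)) V) (hW : WP (tree m hm) (fPhi Φ) V)
    (hrow : SameRow Φ (psi (uk k m) Y σ)) {x : Vx m} {u : Nx m Y σ → MonoidAlgebra k (Gp m)}
    (hu : u ∈ V x) {g : Gp m} (hg : ¬ C4_near x g) (c : Co m Y) :
    (Matrix.vecMul u Φ c).coeff g = 0 := by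
  obtain ⟨w, hwM, hw⟩ : ∃ w ∈ C4_M hV Φ, Matrix.vecMul w Φ = Matrix.vecMul u Φ := by
    choose U hU using fun r => C4_rows (Φ := Φ) hrow r
    obtain ⟨⟨X, hX⟩, -⟩ := hrow
    refine ⟨∑ r, Matrix.vecMul u X r • U r,
      Submodule.sum_mem _ fun r _ => C4_M_smul hV _ _ (C4_rows_M hm hV hW r (U r) (hU r)), ?_⟩
    have e1 : Matrix.vecMul u Φ = Matrix.vecMul (Matrix.vecMul u X) (psi (uk k m) Y σ) := by
      rw [Matrix.vecMul_vecMul, ← hX]
    rw [e1, Matrix.sum_vecMul]
    funext j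
    rw [Finset.sum_apply]
    change _ = ∑ r, Matrix.vecMul u X r * psi (uk k m) Y σ r j
    refine Finset.sum_congr rfl fun r _ => ?_
    rw [C4_smul_vecMul, hU]
    rfl
  have h1 : fPhi Φ (u - w) = 0 := by
    rw [map_sub, C4_of hw, sub_self]
  have h2 := C4_ker hm hV hW (u - w) h1 x
  have h3 : hV.P (u - w) x = u - hV.P w x := by
    rw [map_sub, Finsupp.sub_apply, hV.P_single hu, Finsupp.single_eq_same]
  rw [h3, map_sub, sub_eq_zero] at h2
  rw [← fPhi_apply, h2, hwM x g hg]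
  rfl

omit [Nonempty J] in
lemma C4_P_ne (hV : IsFrame (rhoL m k (Nx m Y σ)) V) (u : Nx m Y σ → MonoidAlgebra k (Gp m))
    (hu : u ∈ V (bs m none)) (a : MonoidAlgebra k (Gp m)) (q : Σ j : J, Gp m ⧸ HJ m j) :
    hV.P (a • u) (Sum.inr q) = 0 := by
  classical
  induction a using MonoidAlgebra.induction_linear with
  | zero => rw [zero_smul, map_zero, Finsupp.zero_apply]
  | add a b ha hb => rw [add_smul, map_add, Finsupp.add_apply, ha, hb, add_zero]
  | single a r =>
    rw [C4_single_smul, map_smul, Finsupp.smul_apply,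
      hV.P_single ((hV.mem_smul a).2 hu), Finsupp.single_apply, if_neg, smul_zero]
    rw [smul_bs_none]
    exact fun h => Sum.inl_ne_inr h

end

theorem wp_none {V : Vx m → Submodule k (Nx m Y σ → MonoidAlgebra k (Gp m))}
    (hV : IsFrame (rhoL m k (Nx m Y σ)) V)
    {Φ : Matrix (Nx m Y σ) (Co m Y) (MonoidAlgebra k (Gp m))} (hW : WP (tree m hm) (fPhi Φ) V)
    (hrow : SameRow Φ (psi (uk k m) Y σ)) :
    (∀ y : Y, ∃ u ∈ V (bs m none), Matrix.vecMul u Φ = ey (k := k) m y) ∧
    ∀ u ∈ V (bs m none), ∃ t : Y → k,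
      Matrix.vecMul u Φ = tv m t := by
  classical
  constructor
  · intro y
    obtain ⟨u, hu⟩ := C4_rows (Φ := Φ) hrow (Sum.inl (Sum.inr y))
    have hy : psi (uk k m) Y σ (Sum.inl (Sum.inr y)) = ey (k := k) m y := by
      funext c
      unfold ey
      by_cases hc : c = Sum.inr y
      · subst hc
        simp [psi, dg]
      · have hc' : Sum.inr y ≠ c := fun h => hc h.symm
        rw [Pi.single_eq_of_ne hc]
        simp [psi, hc']
    rw [hy] at hu
    refine ⟨hV.P u (bs m none), hV.P_mem u _, ?_⟩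
    rw [← hu]
    symm
    refine C4_inj (C4_single hV u (bs m none) fun x hx => ?_)
    refine Finsupp.ext fun g => ?_
    rw [Finsupp.zero_apply]
    refine hW (bs m none) 1 (hV.P u) (fun y => hV.P_mem u y) (fun g' hg' => ?_) x g ?_
    · rw [C4_bo] at hg'
      rw [hV.P_sum]
      ext c
      rw [fPhi_apply, hu, Pi.zero_apply]
      have hg'' : g' ≠ 1 := by
        intro hh
        rw [hh] at hg'
        have h0 : (tree m hm).d (bs m none) (Sum.inl 1) = 0 := (tree m hm).d_self _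
        omega
      unfold ey
      by_cases hc : c = Sum.inr y
      · subst hc
        rw [Pi.single_eq_same, MonoidAlgebra.one_def, MonoidAlgebra.coeff_single,
          Finsupp.single_apply, if_neg (fun h => hg'' h.symm)]
      · rw [Pi.single_eq_of_ne hc]
        rfl
    · have h1 : (tree m hm).d (bs m none) x ≠ 0 := fun h =>
        hx ((tree m hm).eq_of_d _ _ h).symm
      omega
  · intro u hu
    refine ⟨fun y => (Matrix.vecMul u Φ (Sum.inr y)).coeff 1, ?_⟩
    funext c
    refine MonoidAlgebra.coeff_injective (Finsupp.ext fun g => ?_)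
    rcases c with i | y
    · change _ = (0 : Gp m →₀ k) g
      rw [Finsupp.zero_apply]
      by_cases hg : g = 1
      · subst hg
        obtain ⟨h1, h2⟩ := C4_gen hm i
        rw [← C4_coeff_inv hrow u i 1 (gen m i.1) h1]
        refine C4_supp hm hV hW hrow hu ?_ _
        rw [one_mul]
        exact h2
      · exact C4_supp hm hV hW hrow hu (fun h => hg h) _
    · change _ = (Finsupp.single 1 ((Matrix.vecMul u Φ (Sum.inr y)).coeff 1)) g
      by_cases hg : g = 1
      · subst hg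
        rw [Finsupp.single_eq_same]
      · rw [Finsupp.single_apply, if_neg (fun h => hg h.symm)]
        exact C4_supp hm hV hW hrow hu (fun h => hg h) _

section

variable {V : Vx m → Submodule k (Nx m Y σ → MonoidAlgebra k (Gp m))}
    {Φ : Matrix (Nx m Y σ) (Co m Y) (MonoidAlgebra k (Gp m))}

/-- the components of the image of a piece of finite type -/
lemma C4_fin_comp (hV : IsFrame (rhoL m k (Nx m Y σ)) V) (hW : WP (tree m hm) (fPhi Φ) V)
    (hrow : SameRow Φ (psi (uk k m) Y σ)) (i : FJ m)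
    {u : Nx m Y σ → MonoidAlgebra k (Gp m)} (hu : u ∈ V (bs m (some i.1))) (i' : FJ m) :
    Matrix.vecMul u Φ (Sum.inl i') =
      if i' = i then (Matrix.vecMul u Φ (Sum.inl i)).coeff 1 • NB (uk k m) i else 0 := by
  classical
  have hnear : ∀ g, ¬ g ∈ HJ m i.1 → ¬ C4_near (bs m (some i.1)) g := by
    rintro g hg ⟨-, h2⟩
    change (QuotientGroup.mk g : Gp m ⧸ HJ m i.1) = QuotientGroup.mk 1 at h2
    rw [QuotientGroup.eq, mul_one] at h2
    exact hg ((HJ m i.1).inv_mem_iff.1 h2)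
  refine MonoidAlgebra.coeff_injective (Finsupp.ext fun g => ?_)
  by_cases hii : i' = i
  · subst hii
    rw [if_pos rfl, MonoidAlgebra.coeff_smul, Finsupp.smul_apply, C4_NB_coeff]
    by_cases hg : g ∈ HJ m i'.1
    · rw [if_pos hg]
      have := C4_coeff_inv hrow u i' 1 g hg
      rw [one_mul] at this
      rw [this, smul_eq_mul, mul_one]
    · rw [if_neg hg, smul_zero]
      exact C4_supp hm hV hW hrow hu (hnear g hg) _
  · rw [if_neg hii]
    change _ = (0 : Gp m →₀ k) g
    rw [Finsupp.zero_apply]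
    by_cases hg : g ∈ HJ m i.1
    · obtain ⟨h1, h2⟩ := C4_gen hm i'
      rw [← C4_coeff_inv hrow u i' g (gen m i'.1) h1]
      refine C4_supp hm hV hW hrow hu (hnear _ fun h3 => ?_) _
      have h4 : gen m i'.1 ∈ HJ m i.1 := ((HJ m i.1).mul_mem_cancel_left hg).1 h3
      exact h2 (C4_trivial (fun h => hii (Subtype.ext h)) _ h1 h4)
    · exact C4_supp hm hV hW hrow hu (hnear g hg) _

/-- an element of a piece of finite type without norm component is in the kernel -/
lemma C4_fin_zero (hV : IsFrame (rhoL m k (Nx m Y σ)) V) (hW : WP (tree m hm) (fPhi Φ) V)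
    (hrow : SameRow Φ (psi (uk k m) Y σ)) (i : FJ m)
    {u : Nx m Y σ → MonoidAlgebra k (Gp m)} (hu : u ∈ V (bs m (some i.1)))
    (h0 : (Matrix.vecMul u Φ (Sum.inl i)).coeff 1 = 0) : Matrix.vecMul u Φ = 0 := by
  classical
  choose U hUV hU using (wp_none hm hV hW hrow).1
  obtain ⟨w, hw⟩ : ∃ w, w = ∑ y : Y, Matrix.vecMul u Φ (Sum.inr y) • U y := ⟨_, rfl⟩
  have h1 : Matrix.vecMul w Φ = Matrix.vecMul u Φ := by
    rw [hw, Matrix.sum_vecMul]
    funext c
    rw [Finset.sum_apply]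
    rcases c with i' | y
    · rw [C4_fin_comp hm hV hW hrow i hu i', h0, zero_smul, ite_self]
      refine Finset.sum_eq_zero fun y _ => ?_
      rw [C4_smul_vecMul, hU]
      simp [ey]
    · rw [Finset.sum_eq_single y]
      · rw [C4_smul_vecMul, hU]
        simp [ey]
      · intro y' _ hy
        rw [C4_smul_vecMul, hU]
        simp [ey, hy.symm]
      · intro h
        exact absurd (Finset.mem_univ _) h
  have h2 : fPhi Φ (u - w) = 0 := by rw [map_sub, C4_of h1, sub_self]
  have h3 := C4_ker hm hV hW (u - w) h2 (bs m (some i.1))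
  have h4 : hV.P (u - w) (bs m (some i.1)) = u := by
    rw [map_sub, Finsupp.sub_apply, hV.P_single hu, Finsupp.single_eq_same, hw, map_sum,
      Finsupp.finsetSum_apply]
    have : ∑ y : Y, hV.P (Matrix.vecMul u Φ (Sum.inr y) • U y) (bs m (some i.1)) = 0 :=
      Finset.sum_eq_zero fun y _ => C4_P_ne hV (U y) (hUV y) _ _
    rw [this, sub_zero]
  rw [h4] at h3
  have h5 : fPhi Φ u = fPhi Φ 0 := by rw [h3, map_zero]
  rw [C4_inj h5, Matrix.zero_vecMul]

end

theorem wp_fin {V : Vx m → Submodule k (Nx m Y σ → MonoidAlgebra k (Gp m))}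
    (hV : IsFrame (rhoL m k (Nx m Y σ)) V)
    {Φ : Matrix (Nx m Y σ) (Co m Y) (MonoidAlgebra k (Gp m))} (hW : WP (tree m hm) (fPhi Φ) V)
    (hrow : SameRow Φ (psi (uk k m) Y σ)) (i : FJ m) :
    ∃ t : Y → k, (∃ u ∈ V (bs m (some i.1)), Matrix.vecMul u Φ = wv i t) ∧
      ∀ u ∈ V (bs m (some i.1)), ∃ a : k, Matrix.vecMul u Φ = a • wv i t := by
  classical
  obtain ⟨u₀, hu₀⟩ := C4_rows (Φ := Φ) hrow (Sum.inl (Sum.inl i))
  obtain ⟨u, hu⟩ : ∃ u, u = hV.P u₀ (bs m (some i.1)) := ⟨_, rfl⟩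
  have huV : u ∈ V (bs m (some i.1)) := by
    rw [hu]
    exact hV.P_mem u₀ _
  have hone : (Matrix.vecMul u Φ (Sum.inl i)).coeff 1 = 1 := by
    have h1 : (Matrix.vecMul u₀ Φ (Sum.inl i)).coeff 1 = 1 := by
      rw [hu₀]
      have : psi (uk k m) Y σ (Sum.inl (Sum.inl i)) (Sum.inl i) = NB (uk k m) i := by
        simp [psi, dg]
      rw [this, C4_NB_coeff, if_pos (HJ m i.1).one_mem]
    rw [← fPhi_apply] at h1
    have h2 : fPhi Φ u₀ = (hV.P u₀).sum fun _ a => fPhi Φ a := by
      conv_lhs => rw [← hV.P_sum u₀]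
      rw [map_finsuppSum]
    rw [h2, Finsupp.sum, Finsupp.finsetSum_apply, Finset.sum_apply,
      Finset.sum_eq_single (bs m (some i.1))] at h1
    · rw [← fPhi_apply, hu]
      exact h1
    · intro x _ hx
      rw [fPhi_apply]
      by_cases hn : C4_near x 1
      · rcases x with g | ⟨j, q⟩
        · change 1 = g at hn
          subst hn
          obtain ⟨t, ht⟩ := (wp_none hm hV hW hrow).2 _ (hV.P_mem u₀ (bs m none))
          change (Matrix.vecMul (hV.P u₀ (bs m none)) Φ (Sum.inl i)).coeff 1 = 0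
          rw [ht]
          rfl
        · obtain ⟨hj, hq⟩ := hn
          have hq' : q = QuotientGroup.mk 1 := hq.symm
          subst hq'
          have hne : i ≠ (⟨j, hj⟩ : FJ m) := by
            rintro rfl
            exact hx rfl
          have h3 := C4_fin_comp hm hV hW hrow ⟨j, hj⟩ (hV.P_mem u₀ (bs m (some j))) i
          rw [if_neg hne] at h3
          change (Matrix.vecMul (hV.P u₀ (bs m (some j))) Φ (Sum.inl i)).coeff 1 = 0
          rw [h3]
          rfl
      · exact C4_supp hm hV hW hrow (hV.P_mem u₀ x) hn _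
    · intro h
      rw [Finsupp.notMem_support_iff.1 h, map_zero]
      rfl
  -- invariance
  have hinv : ∀ (y : Y) (h : Gp m), h ∈ HJ m i.1 →
      (Matrix.vecMul u Φ (Sum.inr y)).coeff h = (Matrix.vecMul u Φ (Sum.inr y)).coeff 1 := by
    intro y h hh
    have hmem : rhoL m k (Nx m Y σ) h u ∈ V (bs m (some i.1)) := by
      have h1 := (hV.mem_smul (x := bs m (some i.1)) (u := u) h).2 huV
      rwa [(stab_bs h (some i.1)).2 hh] at h1
    have hc : ∀ c, Matrix.vecMul (rhoL m k (Nx m Y σ) h u) Φ c =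
        uk k m h * Matrix.vecMul u Φ c := by
      intro c
      have h1 := C4_single_smul (k := k) (Y := Y) (σ := σ) h 1 u
      rw [one_smul] at h1
      rw [← h1, C4_smul_vecMul]
      rfl
    have h2 : rhoL m k (Nx m Y σ) h u - u ∈ V (bs m (some i.1)) := sub_mem hmem huV
    have h3 := C4_fin_zero hm hV hW hrow i h2 (by
      rw [Matrix.sub_vecMul, Pi.sub_apply, MonoidAlgebra.coeff_sub, Finsupp.sub_apply, hc,
        MonoidAlgebra.of_apply, MonoidAlgebra.coeff_single_mul_apply, one_mul, mul_one]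
      have h4 := C4_coeff_inv hrow u i 1 h⁻¹ ((HJ m i.1).inv_mem hh)
      rw [one_mul] at h4
      rw [h4, sub_self])
    have h5 := congrFun h3 (Sum.inr y)
    rw [Matrix.sub_vecMul, Pi.sub_apply, Pi.zero_apply, sub_eq_zero, hc] at h5
    have h6 : (uk k m h * Matrix.vecMul u Φ (Sum.inr y)).coeff h =
        (Matrix.vecMul u Φ (Sum.inr y)).coeff h := by rw [h5]
    rw [MonoidAlgebra.of_apply, MonoidAlgebra.coeff_single_mul_apply, one_mul,
      inv_mul_cancel] at h6
    exact h6.symm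
  have hwv : Matrix.vecMul u Φ = wv i (fun y => -(Matrix.vecMul u Φ (Sum.inr y)).coeff 1) := by
    funext c
    rcases c with i' | y
    · rw [C4_fin_comp hm hV hW hrow i huV i', hone, one_smul]
      rfl
    · change _ = -(NB (uk k m) i * MonoidAlgebra.single 1 (-(Matrix.vecMul u Φ (Sum.inr y)).coeff 1))
      refine MonoidAlgebra.coeff_injective (Finsupp.ext fun g => ?_)
      rw [MonoidAlgebra.coeff_neg, Finsupp.neg_apply, MonoidAlgebra.coeff_mul_single_apply, inv_one,
        mul_one, C4_NB_coeff]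
      by_cases hg : g ∈ HJ m i.1
      · rw [if_pos hg, one_mul, neg_neg]
        exact hinv y g hg
      · rw [if_neg hg, zero_mul, neg_zero]
        refine C4_supp hm hV hW hrow huV ?_ _
        rintro ⟨-, h2⟩
        change (QuotientGroup.mk g : Gp m ⧸ HJ m i.1) = QuotientGroup.mk 1 at h2
        rw [QuotientGroup.eq, mul_one] at h2
        exact hg ((HJ m i.1).inv_mem_iff.1 h2)
  refine ⟨_, ⟨u, huV, hwv⟩, fun u' hu' => ⟨(Matrix.vecMul u' Φ (Sum.inl i)).coeff 1, ?_⟩⟩
  rw [← hwv, ← Matrix.smul_vecMul, ← sub_eq_zero, ← Matrix.sub_vecMul]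
  refine C4_fin_zero hm hV hW hrow i (sub_mem hu' (Submodule.smul_mem _ _ huV)) ?_
  rw [Matrix.sub_vecMul, Matrix.smul_vecMul, Pi.sub_apply, Pi.smul_apply, MonoidAlgebra.coeff_sub,
    MonoidAlgebra.coeff_smul, Finsupp.sub_apply, Finsupp.smul_apply, hone, smul_eq_mul, mul_one,
    sub_self]

theorem wp_inf {V : Vx m → Submodule k (Nx m Y σ → MonoidAlgebra k (Gp m))}
    (hV : IsFrame (rhoL m k (Nx m Y σ)) V)
    {Φ : Matrix (Nx m Y σ) (Co m Y) (MonoidAlgebra k (Gp m))} (hW : WP (tree m hm) (fPhi Φ) V)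
    (hrow : SameRow Φ (psi (uk k m) Y σ)) (j : J) (hj : m j = 0) :
    ∀ u ∈ V (bs m (some j)), Matrix.vecMul u Φ = 0 := by
  intro u hu
  funext c
  refine MonoidAlgebra.coeff_injective (Finsupp.ext fun g => ?_)
  refine C4_supp hm hV hW hrow hu ?_ c
  rintro ⟨h1, -⟩
  exact h1 hj

end FP
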