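import Pool.Agent.Lib.MP_2d4659_gt.FP.C1
import Pool.Agent.Lib.MP_2d4659_gt.FP.C4

/-!
# From a frame with the weak algorithm to the matrix

In each block `{i | S i = t}` the rows can be changed by an invertible matrix over `k` such that their
images under `v ↦ v Φ` become: block `none`: the `e_y` and zeros; block `some i` (finite): one vector
`wv i t` and zeros; infinite factors: zeros.  Permute the rows and add multiples of the rows `e_y`.
-/

set_option autoImplicit false

namespace FP

/-- a surjective linear map on a direct sum in a suitable basis -/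
theorem C5_core {k Y τ : Type} [Field k] [Fintype Y] [DecidableEq Y] [Fintype τ] [DecidableEq τ]
    (F : (Y ⊕ τ → k) →ₗ[k] (Y → k)) (hF : Function.Surjective F) :
    ∃ g : (Matrix (Y ⊕ τ) (Y ⊕ τ) k)ˣ, (∀ y, F (g.1 (Sum.inl y)) = Pi.single y 1) ∧
      ∀ c, F (g.1 (Sum.inr c)) = 0 := by
  classical
  choose u hu using fun y : Y => hF (Pi.single y 1)
  have hdim : Module.finrank k (LinearMap.ker F) = Fintype.card τ := by
    have h1 := LinearMap.finrank_range_add_finrank_ker F
    rw [LinearMap.range_eq_top.2 hF, finrank_top, Module.finrank_fintype_fun_eq_card,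
      Module.finrank_fintype_fun_eq_card, Fintype.card_sum] at h1
    omega
  let bas : Module.Basis τ k (LinearMap.ker F) :=
    (Module.finBasis k (LinearMap.ker F)).reindex
      (Fintype.equivOfCardEq (by rw [Fintype.card_fin, hdim]))
  let M : Matrix (Y ⊕ τ) (Y ⊕ τ) k := Matrix.of (Sum.elim u fun c => (bas c : Y ⊕ τ → k))
  have hM1 : ∀ y, M (Sum.inl y) = u y := fun y => rfl
  have hM2 : ∀ c, M (Sum.inr c) = (bas c : Y ⊕ τ → k) := fun c => rfl
  have hker : ∀ c, F (bas c : Y ⊕ τ → k) = 0 := fun c => (bas c).2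
  have hli : LinearIndependent k M.row := by
    rw [Fintype.linearIndependent_iff]
    intro c hc
    have hc' : ∑ y, c (Sum.inl y) • u y + ∑ x, c (Sum.inr x) • (bas x : Y ⊕ τ → k) = 0 := by
      rw [Fintype.sum_sum_type] at hc
      exact hc
    have h1 : ∀ y, c (Sum.inl y) = 0 := by
      intro y
      have h2 := congrArg F hc'
      rw [map_add, map_sum, map_sum, map_zero] at h2
      have h3 : ∑ x, F (c (Sum.inr x) • (bas x : Y ⊕ τ → k)) = 0 :=
        Finset.sum_eq_zero fun x _ => by rw [map_smul, hker, smul_zero]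
      rw [h3, add_zero] at h2
      have h4 := congrFun h2 y
      rw [Finset.sum_apply, Finset.sum_eq_single y] at h4
      · rw [map_smul, hu, Pi.smul_apply, Pi.single_eq_same, smul_eq_mul, mul_one] at h4
        exact h4
      · intro y' _ hy'
        rw [map_smul, hu, Pi.smul_apply, Pi.single_eq_of_ne (Ne.symm hy'), smul_zero]
      · intro h5
        exact absurd (Finset.mem_univ _) h5
    have h2 : ∑ x, c (Sum.inr x) • bas x = 0 := by
      apply Subtype.ext
      rw [Submodule.coe_sum]
      have h3 : ∑ y, c (Sum.inl y) • u y = 0 :=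
        Finset.sum_eq_zero fun y _ => by rw [h1, zero_smul]
      rw [h3, zero_add] at hc'
      exact hc'
    have h3 := Fintype.linearIndependent_iff.1 bas.linearIndependent (fun x => c (Sum.inr x)) h2
    rintro (y | x)
    · exact h1 y
    · exact h3 x
  obtain ⟨g, hg⟩ := Matrix.linearIndependent_rows_iff_isUnit.1 hli
  refine ⟨g, fun y => ?_, fun c => ?_⟩
  · rw [hg, hM1, hu]
  · rw [hg, hM2, hker]

/-- a surjective linear map `(β → k) → (Y → k)` in a suitable basis -/
theorem adapt {k β Y : Type} [Field k] [Fintype β] [DecidableEq β] [Fintype Y] [DecidableEq Y]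
    (F : (β → k) →ₗ[k] (Y → k)) (hF : Function.Surjective F) :
    ∃ (g : (Matrix β β k)ˣ) (j : Y ↪ β), (∀ y, F (g.1 (j y)) = Pi.single y 1) ∧
      ∀ c, c ∉ Set.range j → F (g.1 c) = 0 := by
  classical
  have hcard : Fintype.card β = Fintype.card Y + Module.finrank k (LinearMap.ker F) := by
    have h1 := LinearMap.finrank_range_add_finrank_ker F
    rw [LinearMap.range_eq_top.2 hF, finrank_top, Module.finrank_fintype_fun_eq_card,
      Module.finrank_fintype_fun_eq_card] at h1
    omega
  obtain ⟨ε⟩ : Nonempty (β ≃ Y ⊕ Fin (Module.finrank k (LinearMap.ker F))) :=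
    ⟨Fintype.equivOfCardEq (by rw [Fintype.card_sum, Fintype.card_fin, hcard])⟩
  let pre : (Y ⊕ Fin (Module.finrank k (LinearMap.ker F)) → k) →ₗ[k] (β → k) :=
    LinearMap.funLeft k k ε
  have hsurj : Function.Surjective (F ∘ₗ pre) := by
    intro w
    obtain ⟨u, hu⟩ := hF w
    refine ⟨u ∘ ε.symm, ?_⟩
    show F (pre (u ∘ ε.symm)) = w
    rw [← hu]
    congr 1
    funext b
    show u (ε.symm (ε b)) = u b
    rw [Equiv.symm_apply_apply]
  obtain ⟨g', hg1, hg2⟩ := C5_core (F ∘ₗ pre) hsurj
  let G : (Matrix β β k)ˣ :=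
    { val := g'.1.submatrix ε ε
      inv := (g'⁻¹).1.submatrix ε ε
      val_inv := by
        rw [Matrix.submatrix_mul_equiv, ← Units.val_mul, mul_inv_cancel, Units.val_one,
          Matrix.submatrix_one_equiv]
      inv_val := by
        rw [Matrix.submatrix_mul_equiv, ← Units.val_mul, inv_mul_cancel, Units.val_one,
          Matrix.submatrix_one_equiv] }
  refine ⟨G, ⟨fun y => ε.symm (Sum.inl y), fun y y' h => Sum.inl.inj (ε.symm.injective h)⟩,
    fun y => ?_, fun c hc => ?_⟩
  · have h1 : G.1 (ε.symm (Sum.inl y)) = pre (g'.1 (Sum.inl y)) := by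
      funext b
      show g'.1 (ε (ε.symm (Sum.inl y))) (ε b) = g'.1 (Sum.inl y) (ε b)
      rw [Equiv.apply_symm_apply]
    show F (G.1 (ε.symm (Sum.inl y))) = _
    rw [h1]
    exact hg1 y
  · rcases hεc : ε c with y | x
    · exfalso
      apply hc
      exact ⟨y, by
        show ε.symm (Sum.inl y) = c
        rw [← hεc, Equiv.symm_apply_apply]⟩
    · have h1 : G.1 c = pre (g'.1 (Sum.inr x)) := by
        funext b
        show g'.1 (ε c) (ε b) = g'.1 (Sum.inr x) (ε b)
        rw [hεc]
      rw [h1]
      exact hg2 x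

/-- a linear map whose image is spanned by the independent family `b` -/
theorem C5_span {k Y τ W : Type} [Field k] [Fintype Y] [DecidableEq Y] [Fintype τ] [DecidableEq τ]
    [AddCommGroup W] [Module k W] (F : (Y ⊕ τ → k) →ₗ[k] W) (b : Y → W)
    (hb : LinearIndependent k b) (h1 : ∀ y, b y ∈ LinearMap.range F)
    (h2 : LinearMap.range F ≤ Submodule.span k (Set.range b)) :
    ∃ g : (Matrix (Y ⊕ τ) (Y ⊕ τ) k)ˣ, (∀ y, F (g.1 (Sum.inl y)) = b y) ∧
      ∀ c, F (g.1 (Sum.inr c)) = 0 := by
  classical
  let bas := Module.Basis.span hb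
  let F' : (Y ⊕ τ → k) →ₗ[k] Submodule.span k (Set.range b) :=
    F.codRestrict _ (fun c => h2 ⟨c, rfl⟩)
  have hbas : ∀ y, ((bas y : Submodule.span k (Set.range b)) : W) = b y := fun y =>
    congrArg Subtype.val (Module.Basis.span_apply hb y)
  have hsurj : Function.Surjective (bas.equivFun.toLinearMap ∘ₗ F') := by
    rw [LinearMap.coe_comp]
    refine bas.equivFun.surjective.comp ?_
    rw [← LinearMap.range_eq_top, eq_top_iff, ← bas.span_eq, Submodule.span_le]
    rintro _ ⟨y, rfl⟩
    obtain ⟨c, hc⟩ := h1 y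
    refine ⟨c, Subtype.ext ?_⟩
    rw [hbas]
    exact hc
  obtain ⟨g, hg1, hg2⟩ := C5_core (bas.equivFun.toLinearMap ∘ₗ F') hsurj
  refine ⟨g, fun y => ?_, fun c => ?_⟩
  · have h3 : bas.equivFun (F' (g.1 (Sum.inl y))) = bas.equivFun (bas y) := by
      have h4 : bas.equivFun (bas y) = Pi.single y 1 := by
        funext x
        rw [Module.Basis.equivFun_self, Pi.single_apply]
        by_cases h : y = x
        · rw [if_pos h, if_pos h.symm]
        · rw [if_neg h, if_neg (Ne.symm h)]
      rw [h4]
      exact hg1 y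
    have h4 := bas.equivFun.injective h3
    have h5 := congrArg Subtype.val h4
    rw [hbas] at h5
    exact h5
  · have h3 : bas.equivFun (F' (g.1 (Sum.inr c))) = 0 := hg2 c
    have h4 := (LinearEquiv.map_eq_zero_iff bas.equivFun).1 h3
    exact congrArg Subtype.val h4

variable {J : Type} [Fintype J] [DecidableEq J] [Nonempty J] {m : J → ℕ}
  {k : Type} [Field k] {Y σ : Type} [Fintype Y] [DecidableEq Y] [Fintype σ] [DecidableEq σ]

omit [Fintype J] [DecidableEq J] [Nonempty J] in
/-- elements of the finite factor fix the norm element -/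
lemma C5_norm (i : FJ m) (g : Gp m) (hg : g ∈ HT m (some i.1)) :
    uk k m g * NB (uk k m) i = NB (uk k m) i := by
  obtain ⟨c, -, rfl⟩ := (mem_HT_some i.2 g).1 hg
  have h1 : uk k m (gen m i.1) * NB (uk k m) i = NB (uk k m) i := by
    unfold NB
    rw [Finset.mul_sum]
    have h2 : ∀ c : ℕ, uk k m (gen m i.1) * uk k m (gen m i.1) ^ c =
        uk k m (gen m i.1) ^ (c + 1) := fun c => (pow_succ' _ _).symm
    rw [Finset.sum_congr rfl fun c _ => h2 c]
    have h3 := Finset.sum_range_succ (fun c => uk k m (gen m i.1) ^ c) (m i.1)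
    have h4 := Finset.sum_range_succ' (fun c => uk k m (gen m i.1) ^ c) (m i.1)
    have h5 : uk k m (gen m i.1) ^ (m i.1) = 1 := by
      rw [← map_pow, gen_pow_card, map_one]
    rw [h3, h5, pow_zero] at h4
    exact (add_right_cancel h4).symm
  induction c with
  | zero => rw [pow_zero, map_one, one_mul]
  | succ c ih =>
    have h2 : uk k m (gen m i.1 ^ (c + 1)) = uk k m (gen m i.1 ^ c) * uk k m (gen m i.1) := by
      rw [pow_succ, map_mul]
    rw [h2, mul_assoc, h1]
    exact ih ((mem_HT_some i.2 _).2 (by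
      have : gen m i.1 ^ c ∈ HT m (some i.1) := by
        have h3 : gen m i.1 ∈ HT m (some i.1) := by
          have h4 : gen m i.1 ^ (c + 1) * (gen m i.1 ^ c)⁻¹ = gen m i.1 := by
            rw [pow_succ']
            group
          by_cases h5 : 1 < m i.1
          · exact (mem_HT_some i.2 _).2 ⟨1, h5, (pow_one _).symm⟩
          · have h6 : m i.1 = 1 := by
              have := i.2
              omega
            refine (mem_HT_some i.2 _).2 ⟨0, by omega, ?_⟩
            have h7 := gen_pow_card (m := m) i.1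
            rw [h6, pow_one] at h7
            rw [h7, pow_zero]
        exact Subgroup.pow_mem _ h3 c
      exact (mem_HT_some i.2 _).1 this))

omit [Fintype J] [DecidableEq J] [Nonempty J] in
/-- the norm element has coefficient one at one -/
lemma C5_coeff (i : FJ m) : (NB (uk k m) i).coeff 1 = 1 := by
  classical
  unfold NB
  rw [MonoidAlgebra.coeff_sum, Finsupp.finsetSum_apply, Finset.sum_eq_single 0]
  · rw [pow_zero, MonoidAlgebra.one_def, MonoidAlgebra.coeff_single, Finsupp.single_eq_same]
  · intro c hc hc0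
    rw [← map_pow]
    show (MonoidAlgebra.single (gen m i.1 ^ c) (1 : k)).coeff 1 = 0
    rw [MonoidAlgebra.coeff_single, Finsupp.single_apply, if_neg]
    intro h
    apply hc0
    rw [Finset.mem_range] at hc
    exact gen_pow_inj i.2 hc (Nat.pos_of_ne_zero i.2) (by rw [h, pow_zero])
  · intro h
    exact absurd (Finset.mem_range.2 (Nat.pos_of_ne_zero i.2)) h

theorem final_state (S : Nx m Y σ → Option J)
    (h : (Matrix (Nx m Y σ) (Nx m Y σ) (MonoidAlgebra k (Gp m)))ˣ)
    (Φ : Matrix (Nx m Y σ) (Co m Y) (MonoidAlgebra k (Gp m)))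
    (h0 : (∀ y : Y, ∃ u ∈ VC S h (bs m none), Matrix.vecMul u Φ = ey (k := k) m y) ∧
      ∀ u ∈ VC S h (bs m none), ∃ t : Y → k,
        Matrix.vecMul u Φ = tv m t)
    (h1 : ∀ i : FJ m, ∃ t : Y → k, (∃ u ∈ VC S h (bs m (some i.1)), Matrix.vecMul u Φ = wv i t) ∧
      ∀ u ∈ VC S h (bs m (some i.1)), ∃ a : k, Matrix.vecMul u Φ = a • wv i t)
    (h2 : ∀ j : J, m j = 0 → ∀ u ∈ VC S h (bs m (some j)), Matrix.vecMul u Φ = 0) :
    ∃ g : (Matrix (Nx m Y σ) (Nx m Y σ) (MonoidAlgebra k (Gp m)))ˣ,
      g.1 * Φ = psi (uk k m) Y σ := by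
  classical
  choose t ht1 ht2 using h1
  let b : Co m Y → (Co m Y → MonoidAlgebra k (Gp m))
    | Sum.inl i => wv i (t i)
    | Sum.inr y => ey m y
  let φ : (Nx m Y σ → MonoidAlgebra k (Gp m)) →ₗ[k] (Co m Y → MonoidAlgebra k (Gp m)) :=
    { toFun := fun v => Matrix.vecMul v Φ
      map_add' := fun _ _ => Matrix.add_vecMul _ _ _
      map_smul' := fun _ _ => Matrix.smul_vecMul _ _ _ }
  have hφg : ∀ (g : Gp m) v, φ (fun j => uk k m g * v j) = fun j => uk k m g * φ v j := by
    intro g v
    funext j
    show ∑ i, (uk k m g * v i) * Φ i j = uk k m g * ∑ i, v i * Φ i j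
    rw [Finset.mul_sum]
    exact Finset.sum_congr rfl fun i _ => mul_assoc _ _ _
  let F : (Nx m Y σ → k) →ₗ[k] (Co m Y → MonoidAlgebra k (Gp m)) :=
    Fintype.linearCombination k (fun r => φ (h.1 r))
  have hF : ∀ c, F c = ∑ r, c r • φ (h.1 r) := fun c => rfl
  have hFr : ∀ r, φ (h.1 r) ∈ LinearMap.range F := by
    intro r
    refine ⟨Pi.single r 1, ?_⟩
    rw [hF, Finset.sum_eq_single r]
    · rw [Pi.single_eq_same, one_smul]
    · intro r' _ hr'
      rw [Pi.single_eq_of_ne hr', zero_smul]
    · intro h5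
      exact absurd (Finset.mem_univ _) h5
  have hrow : ∀ r, h.1 r ∈ VC S h (bs m (S r)) := by
    intro r
    refine Submodule.subset_span ⟨1, r, one_smul _ _, ?_⟩
    funext j
    rw [map_one, one_mul]
  -- linear independence
  have hb : LinearIndependent k b := by
    rw [Fintype.linearIndependent_iff]
    intro c hc
    have hc1 : ∀ i : FJ m, c (Sum.inl i) = 0 := by
      intro i
      have e1 := congrFun hc (Sum.inl i)
      rw [Finset.sum_apply, Finset.sum_eq_single (Sum.inl i)] at e1
      · have e2 : (c (Sum.inl i) • b (Sum.inl i)) (Sum.inl i) = c (Sum.inl i) • NB (uk k m) i := by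
          show c (Sum.inl i) • (if i = i then NB (uk k m) i else 0) = _
          rw [if_pos rfl]
        rw [e2] at e1
        have e3 := congrArg (fun z : MonoidAlgebra k (Gp m) => z.coeff 1) e1
        have e4 : (c (Sum.inl i) • NB (uk k m) i).coeff 1 = c (Sum.inl i) := by
          rw [MonoidAlgebra.coeff_smul, Finsupp.smul_apply, C5_coeff, smul_eq_mul, mul_one]
        have e5 : (c (Sum.inl i) • NB (uk k m) i).coeff 1 = 0 := e3
        rw [← e4, e5]
      · rintro (i' | y) _ hi'
        · show c (Sum.inl i') • (if i = i' then NB (uk k m) i' else 0) = 0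
          rw [if_neg (fun h5 => hi' (by rw [h5])), smul_zero]
        · show c (Sum.inr y) • (ey m y (Sum.inl i)) = 0
          unfold ey
          rw [Pi.single_eq_of_ne (by simp), smul_zero]
      · intro h5
        exact absurd (Finset.mem_univ _) h5
    rintro (i | y)
    · exact hc1 i
    · have e1 := congrFun hc (Sum.inr y)
      rw [Finset.sum_apply, Finset.sum_eq_single (Sum.inr y)] at e1
      · have e2 : (c (Sum.inr y) • b (Sum.inr y)) (Sum.inr y) =
            c (Sum.inr y) • (1 : MonoidAlgebra k (Gp m)) := by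
          show c (Sum.inr y) • (ey m y (Sum.inr y)) = _
          unfold ey
          rw [Pi.single_eq_same]
        rw [e2] at e1
        have e4 : (c (Sum.inr y) • (1 : MonoidAlgebra k (Gp m))).coeff 1 = c (Sum.inr y) := by
          rw [MonoidAlgebra.coeff_smul, Finsupp.smul_apply, MonoidAlgebra.one_def,
            MonoidAlgebra.coeff_single, Finsupp.single_eq_same, smul_eq_mul, mul_one]
        rw [← e4, e1]
        rfl
      · rintro (i' | y') _ hi'
        · rw [hc1, zero_smul]
          rfl
        · show c (Sum.inr y') • (ey m y' (Sum.inr y)) = 0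
          unfold ey
          rw [Pi.single_eq_of_ne (fun h5 => hi' h5.symm), smul_zero]
      · intro h5
        exact absurd (Finset.mem_univ _) h5
  have hbe : ∀ y, b (Sum.inr y) = ey m y := fun y => rfl
  have hbw : ∀ i, b (Sum.inl i) = wv i (t i) := fun i => rfl
  -- the pieces map into the range
  have hnone : ∀ u ∈ VC S h (bs m none), φ u ∈ LinearMap.range F := by
    intro u hu
    have h5 : VC S h (bs m none) ≤ (LinearMap.range F).comap φ := by
      refine Submodule.span_le.2 ?_
      rintro _ ⟨g, r, hgr, rfl⟩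
      have h6 : S r = none := by
        have h7 := congrArg ty hgr
        rwa [ty_smul, ty_bs, ty_bs] at h7
      rw [h6, stab_bs] at hgr
      have h7 : g = 1 := Subgroup.mem_bot.1 hgr
      show φ (fun j => uk k m g * h.1 r j) ∈ LinearMap.range F
      rw [h7]
      have h8 : (fun j => uk k m 1 * h.1 r j) = h.1 r := by
        funext j
        rw [map_one, one_mul]
      rw [h8]
      exact hFr r
    exact h5 hu
  have hfin : ∀ i : FJ m, ∀ u ∈ VC S h (bs m (some i.1)), φ u ∈ LinearMap.range F := by
    intro i u hu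
    have h5 : VC S h (bs m (some i.1)) ≤ (LinearMap.range F).comap φ := by
      refine Submodule.span_le.2 ?_
      rintro _ ⟨g, r, hgr, rfl⟩
      have h6 : S r = some i.1 := by
        have h7 := congrArg ty hgr
        rwa [ty_smul, ty_bs, ty_bs] at h7
      rw [h6, stab_bs] at hgr
      have h7 := hrow r
      rw [h6] at h7
      obtain ⟨a, ha⟩ := ht2 i _ h7
      have ha' : φ (h.1 r) = a • wv i (t i) := ha
      show φ (fun j => uk k m g * h.1 r j) ∈ LinearMap.range F
      have h8 : φ (fun j => uk k m g * h.1 r j) = φ (h.1 r) := by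
        rw [hφg, ha']
        funext c
        rw [Pi.smul_apply, mul_smul_comm]
        congr 1
        rcases c with i' | y
        · show uk k m g * (if i' = i then NB (uk k m) i else 0) =
            (if i' = i then NB (uk k m) i else 0)
          split_ifs
          · exact C5_norm i g hgr
          · rw [mul_zero]
        · show uk k m g * (-(NB (uk k m) i * MonoidAlgebra.single 1 (t i y))) =
            -(NB (uk k m) i * MonoidAlgebra.single 1 (t i y))
          rw [mul_neg, ← mul_assoc, C5_norm i g hgr]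
      rw [h8]
      exact hFr r
    exact h5 hu
  have hrange1 : ∀ x, b x ∈ LinearMap.range F := by
    rintro (i | y)
    · obtain ⟨u, hu, hu'⟩ := ht1 i
      rw [hbw, ← hu']
      exact hfin i u hu
    · obtain ⟨u, hu, hu'⟩ := h0.1 y
      rw [hbe, ← hu']
      exact hnone u hu
  have hrange2 : LinearMap.range F ≤ Submodule.span k (Set.range b) := by
    rintro _ ⟨c, rfl⟩
    rw [hF]
    refine Submodule.sum_mem _ fun r _ => Submodule.smul_mem _ _ ?_
    have h5 := hrow r
    rcases hS : S r with _ | j
    · rw [hS] at h5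
      obtain ⟨t', ht'⟩ := h0.2 _ h5
      have ht'' : φ (h.1 r) = tv m t' := ht'
      have h6 : tv (k := k) m t' = ∑ y, t' y • b (Sum.inr y) := by
        funext c
        rw [Finset.sum_apply]
        rcases c with i | y
        · show (0 : MonoidAlgebra k (Gp m)) = _
          symm
          refine Finset.sum_eq_zero fun y _ => ?_
          rw [hbe, Pi.smul_apply]
          unfold ey
          rw [Pi.single_eq_of_ne (by simp), smul_zero]
        · show MonoidAlgebra.single 1 (t' y) = _
          rw [Finset.sum_eq_single y]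
          · rw [hbe, Pi.smul_apply]
            unfold ey
            rw [Pi.single_eq_same, MonoidAlgebra.one_def, MonoidAlgebra.smul_single, smul_eq_mul,
              mul_one]
          · intro y' _ hy'
            rw [hbe, Pi.smul_apply]
            unfold ey
            rw [Pi.single_eq_of_ne (fun h7 => hy' (Sum.inr.inj h7).symm), smul_zero]
          · intro h7
            exact absurd (Finset.mem_univ _) h7
      rw [ht'', h6]
      exact Submodule.sum_mem _ fun y _ => Submodule.smul_mem _ _ (Submodule.subset_span ⟨Sum.inr y, rfl⟩)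
    · rw [hS] at h5
      by_cases hj : m j = 0
      · have h6 : φ (h.1 r) = 0 := h2 j hj _ h5
        rw [h6]
        exact Submodule.zero_mem _
      · obtain ⟨a, ha⟩ := ht2 ⟨j, hj⟩ _ h5
        have h6 : φ (h.1 r) = a • wv ⟨j, hj⟩ (t ⟨j, hj⟩) := ha
        rw [h6]
        exact Submodule.smul_mem _ _ (Submodule.subset_span ⟨Sum.inl ⟨j, hj⟩, rfl⟩)
  obtain ⟨g, hg1, hg2⟩ := C5_span F b hb hrange1 hrange2
  -- the elementary matrix
  let M : Matrix (Nx m Y σ) (Nx m Y σ) (MonoidAlgebra k (Gp m)) := fun r c =>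
    match r, c with
    | Sum.inl (Sum.inl i), Sum.inl (Sum.inr y) => NB (uk k m) i * MonoidAlgebra.single 1 (t i y)
    | _, _ => 0
  have hMM : M * M = 0 := by
    ext1 r c
    rw [Matrix.mul_apply]
    refine Finset.sum_eq_zero fun x _ => ?_
    rcases r with (i | y) | s
    · rcases x with (i' | y') | s'
      · show (0 : MonoidAlgebra k (Gp m)) * _ = 0
        rw [zero_mul]
      · show _ * (0 : MonoidAlgebra k (Gp m)) = 0
        rw [mul_zero]
      · show (0 : MonoidAlgebra k (Gp m)) * _ = 0
        rw [zero_mul]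
    · show (0 : MonoidAlgebra k (Gp m)) * _ = 0
      rw [zero_mul]
    · show (0 : MonoidAlgebra k (Gp m)) * _ = 0
      rw [zero_mul]
  let E : (Matrix (Nx m Y σ) (Nx m Y σ) (MonoidAlgebra k (Gp m)))ˣ :=
    { val := 1 + M
      inv := 1 - M
      val_inv := by
        rw [mul_sub, mul_one, add_mul, one_mul, hMM, add_zero, add_sub_cancel_right]
      inv_val := by
        rw [mul_add, mul_one, sub_mul, one_mul, hMM, sub_zero, sub_add_cancel] }
  let D : (Matrix (Nx m Y σ) (Nx m Y σ) (MonoidAlgebra k (Gp m)))ˣ :=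
    Units.map (RingHom.mapMatrix (algebraMap k (MonoidAlgebra k (Gp m)))).toMonoidHom g
  have hD : ∀ r r', D.1 r r' = algebraMap k (MonoidAlgebra k (Gp m)) (g.1 r r') := fun r r' => rfl
  refine ⟨E * D * h, ?_⟩
  have hX : ∀ r c, (D.1 * (h.1 * Φ)) r c = F (g.1 r) c := by
    intro r c
    rw [hF, Finset.sum_apply, Matrix.mul_apply]
    refine Finset.sum_congr rfl fun r' _ => ?_
    rw [hD, Pi.smul_apply, Algebra.smul_def]
    rfl
  have hgoal : (E * D * h).1 * Φ = (1 + M) * (D.1 * (h.1 * Φ)) := by
    rw [Units.val_mul, Units.val_mul, Matrix.mul_assoc, Matrix.mul_assoc]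
  rw [hgoal, Matrix.add_mul, Matrix.one_mul]
  ext1 r c
  rw [Matrix.add_apply, hX, Matrix.mul_apply]
  rcases r with (i | y) | s
  · have h5 : ∑ x, M (Sum.inl (Sum.inl i)) x * (D.1 * (h.1 * Φ)) x c =
        ∑ y : Y, (NB (uk k m) i * MonoidAlgebra.single 1 (t i y)) * (ey (k := k) m y c) := by
      rw [Fintype.sum_sum_type, Fintype.sum_sum_type]
      have e1 : ∑ x : FJ m, M (Sum.inl (Sum.inl i)) (Sum.inl (Sum.inl x)) *
          (D.1 * (h.1 * Φ)) (Sum.inl (Sum.inl x)) c = 0 :=
        Finset.sum_eq_zero fun x _ => by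
          show (0 : MonoidAlgebra k (Gp m)) * _ = 0
          rw [zero_mul]
      have e2 : ∑ x : σ, M (Sum.inl (Sum.inl i)) (Sum.inr x) *
          (D.1 * (h.1 * Φ)) (Sum.inr x) c = 0 :=
        Finset.sum_eq_zero fun x _ => by
          show (0 : MonoidAlgebra k (Gp m)) * _ = 0
          rw [zero_mul]
      rw [e1, e2, zero_add, add_zero]
      refine Finset.sum_congr rfl fun y _ => ?_
      rw [hX, hg1, hbe]
    rw [h5, hg1, hbw]
    rcases c with i' | y
    · show (if i' = i then NB (uk k m) i else 0) + _ =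
        (if (Sum.inl i : Co m Y) = Sum.inl i' then NB (uk k m) i' else 0)
      have e3 : ∑ y : Y, (NB (uk k m) i * MonoidAlgebra.single 1 (t i y)) *
          (ey (k := k) m y (Sum.inl i')) = 0 :=
        Finset.sum_eq_zero fun y _ => by
          unfold ey
          rw [Pi.single_eq_of_ne (by simp), mul_zero]
      rw [e3, add_zero]
      by_cases hi : i' = i
      · rw [if_pos hi, if_pos (by rw [hi]), hi]
      · rw [if_neg hi, if_neg (fun h6 => hi (Sum.inl.inj h6).symm)]
    · show -(NB (uk k m) i * MonoidAlgebra.single 1 (t i y)) + _ =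
        (if (Sum.inl i : Co m Y) = Sum.inr y then (1 : MonoidAlgebra k (Gp m)) else 0)
      rw [if_neg (by simp), Finset.sum_eq_single y]
      · unfold ey
        rw [Pi.single_eq_same, mul_one, neg_add_cancel]
      · intro y' _ hy'
        unfold ey
        rw [Pi.single_eq_of_ne (fun h7 => hy' (Sum.inr.inj h7).symm), mul_zero]
      · intro h7
        exact absurd (Finset.mem_univ _) h7
  · have h5 : ∑ x, M (Sum.inl (Sum.inr y)) x * (D.1 * (h.1 * Φ)) x c = 0 :=
      Finset.sum_eq_zero fun x _ => by
        show (0 : MonoidAlgebra k (Gp m)) * _ = 0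
        rw [zero_mul]
    rw [h5, add_zero, hg1, hbe]
    rcases c with i' | y'
    · show _ = (if (Sum.inr y : Co m Y) = Sum.inl i' then NB (uk k m) i' else 0)
      rw [if_neg (by simp)]
      unfold ey
      rw [Pi.single_eq_of_ne (by simp)]
    · show _ = (if (Sum.inr y : Co m Y) = Sum.inr y' then (1 : MonoidAlgebra k (Gp m)) else 0)
      unfold ey
      by_cases hy : y = y'
      · rw [hy, Pi.single_eq_same, if_pos rfl]
      · rw [if_neg (fun h6 => hy (Sum.inr.inj h6)),
          Pi.single_eq_of_ne (fun h6 => hy (Sum.inr.inj h6).symm)]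
  · have h5 : ∑ x, M (Sum.inr s) x * (D.1 * (h.1 * Φ)) x c = 0 :=
      Finset.sum_eq_zero fun x _ => by
        show (0 : MonoidAlgebra k (Gp m)) * _ = 0
        rw [zero_mul]
    rw [h5, add_zero, hg2]
    rfl

end FP
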