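import Pool.Agent.Lib.MP_2d4659_gt.FP.B10
import Pool.Agent.Lib.MP_2d4659_gt.FP.C3
import Pool.Agent.Lib.MP_2d4659_gt.FP.C5

/-! # The field case -/

set_option autoImplicit false

namespace FP

variable {J : Type} [Fintype J] [DecidableEq J] [Nonempty J] {m : J → ℕ} (hm : ∀ j, m j ≠ 1)
  {k : Type} [Field k] {Y σ : Type} [Fintype Y] [DecidableEq Y] [Fintype σ] [DecidableEq σ]

include hm in
/-- **Field case**: over the group algebra of a field a matrix with the same row space as `Ψ` is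
`h * Ψ` with `h` invertible. -/
theorem fact1 (Φ : Matrix (Nx m Y σ) (Co m Y) (MonoidAlgebra k (Gp m)))
    (hrow : SameRow Φ (psi (uk k m) Y σ)) :
    ∃ h : (Matrix (Nx m Y σ) (Nx m Y σ) (MonoidAlgebra k (Gp m)))ˣ,
      Φ = h.1 * psi (uk k m) Y σ := by
  classical
  have hb := tree_b m hm
  have hf := fPhi_equiv (k := k) Φ
  obtain ⟨V, hs, hV, hW⟩ := process (tree m hm) hf (VC_frame (k := k) (m := m)
    (fun _ : Nx m Y σ => (none : Option J)) 1)
  have key : ∃ (S : Nx m Y σ → Option J)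
      (h : (Matrix (Nx m Y σ) (Nx m Y σ) (MonoidAlgebra k (Gp m)))ˣ), V = VC S h := by
    clear hV hW
    induction hs with
    | refl => exact ⟨_, _, rfl⟩
    | tail _ hstep ih =>
      obtain ⟨S, h, rfl⟩ := ih
      exact step_state (tree m hm) hb S h hstep
  obtain ⟨S, h, rfl⟩ := key
  obtain ⟨g, hg⟩ := final_state S h Φ (wp_none hm hV hW hrow) (wp_fin hm hV hW hrow)
    (wp_inf hm hV hW hrow)
  refine ⟨g⁻¹, ?_⟩
  rw [← hg, ← Matrix.mul_assoc, ← Units.val_mul, inv_mul_cancel, Units.val_one, Matrix.one_mul]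

end FP
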