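import Pool.Agent.Lib.MP_2d4659_gt.FP.DDefs

/-! # The completed group algebra: consequences of the axioms -/

set_option autoImplicit false

namespace FP

namespace PGR

variable {p : ℕ} [Fact p.Prime] {G : Type} [Group G] (𝔓 : PGR p G)

lemma ext {a b : 𝔓.B} (h : ∀ g, 𝔓.cf g a = 𝔓.cf g b) : a = b := by
  have := 𝔓.cf_inj (a - b) (fun g => by rw [map_sub, h g, sub_self])
  exact sub_eq_zero.mp this

lemma D1_one_lt_p : (1 : ℝ) < p := by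
  exact_mod_cast (Fact.out : p.Prime).one_lt

lemma cf_bdd (b : 𝔓.B) : ∃ k : ℕ, 𝔓.Le ((p : ℝ) ^ k) b := by
  have hf := 𝔓.cf_fin b 1 one_pos
  have hfi : (hf.toFinset.image (fun g => ‖𝔓.cf g b‖)).Nonempty ∨
      hf.toFinset = ∅ := by
    rcases Finset.eq_empty_or_nonempty hf.toFinset with h | h
    · exact Or.inr h
    · exact Or.inl (h.image _)
  obtain ⟨R, hR⟩ : ∃ R : ℝ, ∀ g ∈ hf.toFinset, ‖𝔓.cf g b‖ ≤ R := by
    refine ⟨∑ g ∈ hf.toFinset, ‖𝔓.cf g b‖, fun g hg => ?_⟩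
    exact Finset.single_le_sum (f := fun g => ‖𝔓.cf g b‖) (fun _ _ => norm_nonneg _) hg
  obtain ⟨k, hk⟩ := pow_unbounded_of_one_lt R (D1_one_lt_p (p := p))
  refine ⟨k, fun g => ?_⟩
  by_cases h : 1 ≤ ‖𝔓.cf g b‖
  · exact (hR g (by simpa using h)).trans hk.le
  · exact (not_le.mp h).le.trans (one_le_pow₀ (D1_one_lt_p (p := p)).le)

lemma Le.add {r : ℝ} {a b : 𝔓.B} (ha : 𝔓.Le r a) (hb : 𝔓.Le r b) : 𝔓.Le r (a + b) := by
  intro g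
  rw [map_add]
  exact (Padic.nonarchimedean _ _).trans (max_le (ha g) (hb g))

lemma Le.neg {r : ℝ} {a : 𝔓.B} (ha : 𝔓.Le r a) : 𝔓.Le r (-a) := by
  intro g
  rw [map_neg, norm_neg]
  exact ha g

lemma Le.sum {ι : Type} {r : ℝ} (hr : 0 ≤ r) (s : Finset ι) (a : ι → 𝔓.B)
    (ha : ∀ i ∈ s, 𝔓.Le r (a i)) : 𝔓.Le r (∑ i ∈ s, a i) := by
  classical
  induction s using Finset.induction_on with
  | empty => intro g; simpa using hr
  | insert i s hi ih =>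
    rw [Finset.sum_insert hi]
    exact Le.add 𝔓 (ha i (Finset.mem_insert_self _ _))
      (ih fun j hj => ha j (Finset.mem_insert_of_mem hj))

lemma Sm.add {a b : 𝔓.B} (ha : 𝔓.Sm a) (hb : 𝔓.Sm b) : 𝔓.Sm (a + b) := by
  intro g
  rw [map_add]
  exact (Padic.nonarchimedean _ _).trans_lt (max_lt (ha g) (hb g))

lemma Sm.neg {a : 𝔓.B} (ha : 𝔓.Sm a) : 𝔓.Sm (-a) := by
  intro g
  rw [map_neg, norm_neg]
  exact ha g

lemma Sm.sum {ι : Type} (s : Finset ι) (a : ι → 𝔓.B) (ha : ∀ i ∈ s, 𝔓.Sm (a i)) :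
    𝔓.Sm (∑ i ∈ s, a i) := by
  classical
  induction s using Finset.induction_on with
  | empty => intro g; simp
  | insert i s hi ih =>
    rw [Finset.sum_insert hi]
    exact Sm.add 𝔓 (ha i (Finset.mem_insert_self _ _))
      (ih fun j hj => ha j (Finset.mem_insert_of_mem hj))

lemma In.mul {a b : 𝔓.B} (ha : 𝔓.In a) (hb : 𝔓.In b) : 𝔓.In (a * b) := by
  intro g
  simpa using 𝔓.cf_mul a b 1 1 ha hb g

lemma D1_norm_le_inv {x : ℚ_[p]} (hx : ‖x‖ < 1) : ‖x‖ ≤ (p : ℝ)⁻¹ := by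
  have := (Padic.norm_le_pow_iff_norm_lt_pow_add_one x (-1)).mpr (by simpa using hx)
  simpa using this

lemma D1_inv_lt : (p : ℝ)⁻¹ < 1 := inv_lt_one_of_one_lt₀ D1_one_lt_p

lemma Sm.mul_In {a b : 𝔓.B} (ha : 𝔓.Sm a) (hb : 𝔓.In b) : 𝔓.Sm (a * b) := by
  intro g
  have := 𝔓.cf_mul a b ((p : ℝ)⁻¹) 1 (fun g => D1_norm_le_inv (ha g)) hb g
  rw [mul_one] at this
  exact this.trans_lt D1_inv_lt

lemma In.mul_Sm {a b : 𝔓.B} (ha : 𝔓.In a) (hb : 𝔓.Sm b) : 𝔓.Sm (a * b) := by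
  intro g
  have := 𝔓.cf_mul a b 1 ((p : ℝ)⁻¹) ha (fun g => D1_norm_le_inv (hb g)) g
  rw [one_mul] at this
  exact this.trans_lt D1_inv_lt

/-- approximation by a truncation -/
lemma D1_approx (b : 𝔓.B) (ε : ℝ) (hε : 0 < ε) :
    ∃ x : MonoidAlgebra ℚ_[p] G, (∀ g, ‖𝔓.cf g (b - 𝔓.emb x)‖ < ε) ∧
      ∀ g, x.coeff g = 𝔓.cf g b ∨ x.coeff g = 0 := by
  classical
  have hf := 𝔓.cf_fin b ε hε
  refine ⟨MonoidAlgebra.ofCoeff (Finsupp.onFinset hf.toFinset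
    (fun g => if ε ≤ ‖𝔓.cf g b‖ then 𝔓.cf g b else 0) ?_), ?_, ?_⟩
  · intro g hg
    by_contra hc
    simp only [Set.Finite.mem_toFinset, Set.mem_ofPred_eq] at hc
    simp [hc] at hg
  · intro g
    rw [map_sub, 𝔓.cf_emb]
    simp only [Finsupp.onFinset_apply]
    split_ifs with h
    · simpa using hε
    · simpa using not_le.mp h
  · intro g
    simp only [Finsupp.onFinset_apply]
    split_ifs with h
    · exact Or.inl rfl
    · exact Or.inr rfl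

/-- two bounded functionals which agree on the group algebra agree -/
lemma D1_dense (F F' : 𝔓.B →+ ℚ_[p]) (C : ℝ) (hC : 0 ≤ C)
    (hF : ∀ (b : 𝔓.B) (r : ℝ), 0 ≤ r → 𝔓.Le r b → ‖F b‖ ≤ C * r)
    (hF' : ∀ (b : 𝔓.B) (r : ℝ), 0 ≤ r → 𝔓.Le r b → ‖F' b‖ ≤ C * r)
    (h : ∀ x, F (𝔓.emb x) = F' (𝔓.emb x)) (b : 𝔓.B) : F b = F' b := by
  by_contra hne
  have hpos : 0 < ‖F b - F' b‖ := norm_pos_iff.mpr (sub_ne_zero.mpr hne)
  set δ := ‖F b - F' b‖ with hδ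
  have hε : 0 < δ / (2 * (C + 1)) := by positivity
  obtain ⟨x, hx, -⟩ := 𝔓.D1_approx b _ hε
  have hle : 𝔓.Le (δ / (2 * (C + 1))) (b - 𝔓.emb x) := fun g => (hx g).le
  have h1 := hF _ _ hε.le hle
  have h2 := hF' _ _ hε.le hle
  have h3 : F b - F' b = F (b - 𝔓.emb x) - F' (b - 𝔓.emb x) := by
    rw [map_sub, map_sub, h x]; ring
  have h4 : δ ≤ C * (δ / (2 * (C + 1))) + C * (δ / (2 * (C + 1))) := by
    rw [hδ, h3]
    exact (norm_sub_le _ _).trans (add_le_add (by rw [← h3]; exact h1) (by rw [← h3]; exact h2))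
  have h5 : C * (δ / (2 * (C + 1))) + C * (δ / (2 * (C + 1))) < δ := by
    have : C * (δ / (2 * (C + 1))) + C * (δ / (2 * (C + 1))) = δ * (C / (C + 1)) := by
      field_simp; ring
    rw [this]
    have h6 : C / (C + 1) < 1 := (div_lt_one (by linarith)).mpr (by linarith)
    nlinarith
  exact absurd h4 (not_le.mpr h5)

lemma D1_Le_emb {r : ℝ} {x : MonoidAlgebra ℚ_[p] G} (h : ∀ g, ‖x.coeff g‖ ≤ r) :
    𝔓.Le r (𝔓.emb x) := fun g => by rw [𝔓.cf_emb]; exact h g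

lemma D1_sc_eq (a : ℚ_[p]) : 𝔓.sc a = 𝔓.emb (MonoidAlgebra.single 1 a) := rfl

lemma D1_u_eq (h : G) : 𝔓.u h = 𝔓.emb (MonoidAlgebra.single h 1) := rfl

lemma D1_Le_sc (a : ℚ_[p]) : 𝔓.Le ‖a‖ (𝔓.sc a) := by
  classical
  rw [D1_sc_eq]
  refine 𝔓.D1_Le_emb fun g => ?_
  rw [MonoidAlgebra.coeff_single, Finsupp.single_apply]
  split_ifs
  · exact le_rfl
  · simp

lemma D1_Le_u (h : G) : 𝔓.Le 1 (𝔓.u h) := by
  classical
  rw [D1_u_eq]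
  refine 𝔓.D1_Le_emb fun g => ?_
  rw [MonoidAlgebra.coeff_single, Finsupp.single_apply]
  split_ifs <;> simp

lemma cf_sc_mul (a : ℚ_[p]) (b : 𝔓.B) (g : G) : 𝔓.cf g (𝔓.sc a * b) = a * 𝔓.cf g b := by
  refine 𝔓.D1_dense ((𝔓.cf g).comp (AddMonoidHom.mulLeft (𝔓.sc a)))
    ((AddMonoidHom.mulLeft a).comp (𝔓.cf g)) ‖a‖ (norm_nonneg _) ?_ ?_ ?_ b
  · intro b r _ hb
    exact 𝔓.cf_mul _ _ _ _ (𝔓.D1_Le_sc a) hb g
  · intro b r _ hb
    simp only [AddMonoidHom.coe_comp, Function.comp_apply, AddMonoidHom.coe_mulLeft, norm_mul]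
    exact mul_le_mul_of_nonneg_left (hb g) (norm_nonneg _)
  · intro x
    simp only [AddMonoidHom.coe_comp, Function.comp_apply, AddMonoidHom.coe_mulLeft]
    rw [D1_sc_eq, ← map_mul, 𝔓.cf_emb, 𝔓.cf_emb, MonoidAlgebra.coeff_single_one_mul]

lemma D1_cf_mul_sc (a : ℚ_[p]) (b : 𝔓.B) (g : G) : 𝔓.cf g (b * 𝔓.sc a) = a * 𝔓.cf g b := by
  refine 𝔓.D1_dense ((𝔓.cf g).comp (AddMonoidHom.mulRight (𝔓.sc a)))
    ((AddMonoidHom.mulLeft a).comp (𝔓.cf g)) ‖a‖ (norm_nonneg _) ?_ ?_ ?_ b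
  · intro b r _ hb
    have := 𝔓.cf_mul _ _ _ _ hb (𝔓.D1_Le_sc a) g
    rwa [mul_comm ‖a‖ r]
  · intro b r _ hb
    simp only [AddMonoidHom.coe_comp, Function.comp_apply, AddMonoidHom.coe_mulLeft, norm_mul]
    exact mul_le_mul_of_nonneg_left (hb g) (norm_nonneg _)
  · intro x
    simp only [AddMonoidHom.coe_comp, Function.comp_apply, AddMonoidHom.coe_mulLeft,
      AddMonoidHom.coe_mulRight]
    rw [D1_sc_eq, ← map_mul, 𝔓.cf_emb, 𝔓.cf_emb, MonoidAlgebra.coeff_mul_single_one, mul_comm]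

lemma sc_comm (a : ℚ_[p]) (b : 𝔓.B) : 𝔓.sc a * b = b * 𝔓.sc a :=
  𝔓.ext fun g => by rw [cf_sc_mul, D1_cf_mul_sc]

lemma sc_natCast (k : ℕ) : 𝔓.sc (k : ℚ_[p]) = (k : 𝔓.B) := map_natCast 𝔓.sc k

lemma cf_p_mul (b : 𝔓.B) (g : G) : 𝔓.cf g (p * b) = p * 𝔓.cf g b := by
  rw [← 𝔓.sc_natCast, cf_sc_mul]

/-- `p` divides exactly the elements of norm less than one (`ℚ_p` is discretely valued) -/
lemma Sm_iff (b : 𝔓.B) : 𝔓.Sm b ↔ ∃ c, 𝔓.In c ∧ b = p * c := by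
  have hp0 : (p : ℚ_[p]) ≠ 0 := by exact_mod_cast (Fact.out : p.Prime).ne_zero
  have hpr : (0 : ℝ) < p := by exact_mod_cast (Fact.out : p.Prime).pos
  constructor
  · intro hb
    refine ⟨𝔓.sc ((p : ℚ_[p])⁻¹) * b, fun g => ?_, ?_⟩
    · rw [cf_sc_mul, norm_mul, norm_inv, Padic.norm_p, inv_inv]
      have := D1_norm_le_inv (hb g)
      calc (p : ℝ) * ‖𝔓.cf g b‖ ≤ p * (p : ℝ)⁻¹ := mul_le_mul_of_nonneg_left this hpr.le
        _ = 1 := mul_inv_cancel₀ hpr.ne'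
    · refine 𝔓.ext fun g => ?_
      rw [cf_p_mul, cf_sc_mul, mul_inv_cancel_left₀ hp0]
  · rintro ⟨c, hc, rfl⟩ g
    rw [cf_p_mul, norm_mul, Padic.norm_p]
    calc (p : ℝ)⁻¹ * ‖𝔓.cf g c‖ ≤ (p : ℝ)⁻¹ * 1 :=
          mul_le_mul_of_nonneg_left (hc g) (inv_nonneg.mpr hpr.le)
      _ < 1 := by rw [mul_one]; exact D1_inv_lt

lemma cf_u_mul (h : G) (b : 𝔓.B) (g : G) : 𝔓.cf g (𝔓.u h * b) = 𝔓.cf (h⁻¹ * g) b := by
  refine 𝔓.D1_dense ((𝔓.cf g).comp (AddMonoidHom.mulLeft (𝔓.u h)))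
    (𝔓.cf (h⁻¹ * g)) 1 zero_le_one ?_ ?_ ?_ b
  · intro b r _ hb
    exact 𝔓.cf_mul _ _ _ _ (𝔓.D1_Le_u h) hb g
  · intro b r _ hb
    rw [one_mul]; exact hb _
  · intro x
    simp only [AddMonoidHom.coe_comp, Function.comp_apply, AddMonoidHom.coe_mulLeft]
    rw [D1_u_eq, ← map_mul, 𝔓.cf_emb, 𝔓.cf_emb,
      MonoidAlgebra.coeff_single_mul_apply, one_mul]

lemma cf_mul_u (h : G) (b : 𝔓.B) (g : G) : 𝔓.cf g (b * 𝔓.u h) = 𝔓.cf (g * h⁻¹) b := by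
  refine 𝔓.D1_dense ((𝔓.cf g).comp (AddMonoidHom.mulRight (𝔓.u h)))
    (𝔓.cf (g * h⁻¹)) 1 zero_le_one ?_ ?_ ?_ b
  · intro b r _ hb
    have := 𝔓.cf_mul _ _ _ _ hb (𝔓.D1_Le_u h) g
    rwa [mul_comm (1 : ℝ) r]
  · intro b r _ hb
    rw [one_mul]; exact hb _
  · intro x
    simp only [AddMonoidHom.coe_comp, Function.comp_apply, AddMonoidHom.coe_mulRight]
    rw [D1_u_eq, ← map_mul, 𝔓.cf_emb, 𝔓.cf_emb,
      MonoidAlgebra.coeff_mul_single_apply, mul_one]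

lemma In_u (h : G) : 𝔓.In (𝔓.u h) := 𝔓.D1_Le_u h

lemma In_sc {a : ℚ_[p]} (h : ‖a‖ ≤ 1) : 𝔓.In (𝔓.sc a) := fun g => (𝔓.D1_Le_sc a g).trans h

/-- approximation by elements of the group algebra -/
lemma approx (b : 𝔓.B) (ε : ℝ) (hε : 0 < ε) :
    ∃ x : MonoidAlgebra ℚ_[p] G, ∀ g, ‖𝔓.cf g (b - 𝔓.emb x)‖ < ε := by
  obtain ⟨x, hx, -⟩ := 𝔓.D1_approx b ε hε
  exact ⟨x, hx⟩

/-- an element supported in a finite set comes from the group algebra -/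
lemma emb_of_supp {s : Set G} (hs : s.Finite) {b : 𝔓.B} (hb : 𝔓.SuppIn s b) :
    ∃ x : MonoidAlgebra ℚ_[p] G, 𝔓.emb x = b := by
  classical
  refine ⟨MonoidAlgebra.ofCoeff (Finsupp.onFinset hs.toFinset (fun g => 𝔓.cf g b) ?_), ?_⟩
  · intro g hg
    by_contra hc
    exact hg (hb g (by simpa using hc))
  · refine 𝔓.ext fun g => ?_
    rw [𝔓.cf_emb]
    simp only [Finsupp.onFinset_apply]

lemma rs_supp (s : Set G) (b : 𝔓.B) : 𝔓.SuppIn s (𝔓.rs s b) :=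
  fun g hg => 𝔓.cf_rs_notMem s b g hg

lemma rs_eq_self {s : Set G} {b : 𝔓.B} (hb : 𝔓.SuppIn s b) : 𝔓.rs s b = b := by
  refine 𝔓.ext fun g => ?_
  by_cases hg : g ∈ s
  · exact 𝔓.cf_rs_mem s b g hg
  · rw [𝔓.cf_rs_notMem s b g hg, hb g hg]

lemma rs_Le {r : ℝ} (hr : 0 ≤ r) (s : Set G) {b : 𝔓.B} (hb : 𝔓.Le r b) : 𝔓.Le r (𝔓.rs s b) := by
  intro g
  by_cases hg : g ∈ s
  · rw [𝔓.cf_rs_mem s b g hg]; exact hb g
  · rw [𝔓.cf_rs_notMem s b g hg]; simpa using hr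

lemma rs_u_mul (s : Set G) (h : G) (b : 𝔓.B) :
    𝔓.rs ((fun x => h * x) '' s) (𝔓.u h * b) = 𝔓.u h * 𝔓.rs s b := by
  refine 𝔓.ext fun g => ?_
  rw [cf_u_mul]
  by_cases hg : h⁻¹ * g ∈ s
  · have hg' : g ∈ (fun x => h * x) '' s := ⟨h⁻¹ * g, hg, by simp⟩
    rw [𝔓.cf_rs_mem _ _ g hg', cf_u_mul, 𝔓.cf_rs_mem _ _ _ hg]
  · have hg' : g ∉ (fun x => h * x) '' s := by
      rintro ⟨x, hx, rfl⟩
      exact hg (by simpa using hx)
    rw [𝔓.cf_rs_notMem _ _ g hg', 𝔓.cf_rs_notMem _ _ _ hg]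

/-- products of elements supported in `s` and in `H` when `s * H` is in `s` -/
lemma D1_supp_mul {s : Set G} {t : Set G} (hs : ∀ g ∈ s, ∀ h ∈ t, g * h ∈ s)
    {b c : 𝔓.B} (hb : 𝔓.SuppIn s b) (hc : 𝔓.SuppIn t c) : 𝔓.SuppIn s (b * c) := by
  classical
  intro g hg
  by_contra hne
  have hpos : 0 < ‖𝔓.cf g (b * c)‖ := norm_pos_iff.mpr hne
  obtain ⟨kb, hkb⟩ := 𝔓.cf_bdd b
  obtain ⟨kc, hkc⟩ := 𝔓.cf_bdd c
  set R : ℝ := (p : ℝ) ^ kb + (p : ℝ) ^ kc with hR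
  have hR0 : 0 < R := by
    have : (0 : ℝ) < p := by exact_mod_cast (Fact.out : p.Prime).pos
    positivity
  have hbR : 𝔓.Le R b := fun g => (hkb g).trans (by
    have : (0 : ℝ) < p := by exact_mod_cast (Fact.out : p.Prime).pos
    have : (0 : ℝ) < (p : ℝ) ^ kc := by positivity
    linarith)
  have hcR : 𝔓.Le R c := fun g => (hkc g).trans (by
    have : (0 : ℝ) < p := by exact_mod_cast (Fact.out : p.Prime).pos
    have : (0 : ℝ) < (p : ℝ) ^ kb := by positivity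
    linarith)
  set δ := ‖𝔓.cf g (b * c)‖ with hδ
  have hε : 0 < δ / (2 * R) := by positivity
  obtain ⟨x, hx, hx'⟩ := 𝔓.D1_approx b _ hε
  obtain ⟨y, hy, hy'⟩ := 𝔓.D1_approx c _ hε
  have hxR : 𝔓.Le R (𝔓.emb x) := 𝔓.D1_Le_emb fun g => by
    rcases hx' g with h | h
    · rw [h]; exact hbR g
    · rw [h]; simpa using hR0.le
  have e1 : b * c = (b - 𝔓.emb x) * c + 𝔓.emb x * (c - 𝔓.emb y) + 𝔓.emb (x * y) := by
    rw [map_mul]; noncomm_ring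
  have e2 : (x * y).coeff g = 0 := by
    rw [MonoidAlgebra.coeff_mul]
    refine Finset.sum_eq_zero fun g₁ _ => Finset.sum_eq_zero fun g₂ _ => ?_
    simp only
    split_ifs with h12
    · by_cases h1 : g₁ ∈ s
      · by_cases h2 : g₂ ∈ t
        · exact absurd (h12 ▸ hs _ h1 _ h2) hg
        · have : y.coeff g₂ = 0 := by
            rcases hy' g₂ with h | h
            · rw [h]; exact hc _ h2
            · exact h
          rw [this, mul_zero]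
      · have : x.coeff g₁ = 0 := by
          rcases hx' g₁ with h | h
          · rw [h]; exact hb _ h1
          · exact h
        rw [this, zero_mul]
    · rfl
  have h1 : ‖𝔓.cf g ((b - 𝔓.emb x) * c)‖ ≤ δ / (2 * R) * R :=
    𝔓.cf_mul _ _ _ _ (fun g => (hx g).le) hcR g
  have h2 : ‖𝔓.cf g (𝔓.emb x * (c - 𝔓.emb y))‖ ≤ R * (δ / (2 * R)) :=
    𝔓.cf_mul _ _ _ _ hxR (fun g => (hy g).le) g
  have e3 : δ / (2 * R) * R = δ / 2 := by field_simp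
  have e4 : R * (δ / (2 * R)) = δ / 2 := by field_simp
  rw [e3] at h1
  rw [e4] at h2
  have h3 : δ ≤ max (δ / 2) (δ / 2) := by
    calc δ = ‖𝔓.cf g ((b - 𝔓.emb x) * c) + 𝔓.cf g (𝔓.emb x * (c - 𝔓.emb y))‖ := by
          rw [hδ, e1, map_add, map_add, 𝔓.cf_emb, e2, add_zero]
      _ ≤ _ := (Padic.nonarchimedean _ _).trans (max_le_max h1 h2)
  rw [max_self] at h3
  linarith

/-- restriction to a left coset of `H` commutes with right multiplication by elements supported in `H` -/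
lemma rs_mul_supp {H : Subgroup G} {s : Set G} (hs : ∀ g ∈ s, ∀ h ∈ H, g * h ∈ s)
    (b : 𝔓.B) {c : 𝔓.B} (hc : 𝔓.SuppIn (H : Set G) c) :
    𝔓.rs s (b * c) = 𝔓.rs s b * c := by
  have hs' : ∀ g ∈ sᶜ, ∀ h ∈ (H : Set G), g * h ∈ sᶜ := by
    intro g hg h hh hgh
    exact hg (by simpa using hs _ hgh _ (H.inv_mem hh))
  have h1 : 𝔓.SuppIn s (𝔓.rs s b * c) := 𝔓.D1_supp_mul hs (𝔓.rs_supp s b) hc
  have h2 : 𝔓.SuppIn sᶜ ((b - 𝔓.rs s b) * c) := by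
    refine 𝔓.D1_supp_mul hs' ?_ hc
    intro g hg
    have hg' : g ∈ s := not_not.mp hg
    rw [map_sub, 𝔓.cf_rs_mem s b g hg', sub_self]
  have e : b * c = 𝔓.rs s b * c + (b - 𝔓.rs s b) * c := by noncomm_ring
  refine 𝔓.ext fun g => ?_
  by_cases hg : g ∈ s
  · rw [𝔓.cf_rs_mem _ _ _ hg, e, map_add, h2 g (not_not.mpr hg), add_zero]
  · rw [𝔓.cf_rs_notMem _ _ _ hg, h1 g hg]

/-- all but finitely many coefficients are small: only finitely many pieces of a partition are not small -/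
lemma rs_small {X : Type} (s : X → Set G) (hs : ∀ x y g, g ∈ s x → g ∈ s y → x = y) (b : 𝔓.B)
    (ε : ℝ) (hε : 0 < ε) : {x | ¬ 𝔓.Le ε (𝔓.rs (s x) b)}.Finite := by
  classical
  have hf := 𝔓.cf_fin b ε hε
  have key : ∀ x, ¬ 𝔓.Le ε (𝔓.rs (s x) b) → ∃ g, g ∈ s x ∧ ε ≤ ‖𝔓.cf g b‖ := by
    intro x hx
    unfold Le at hx
    push Not at hx
    obtain ⟨g, hg⟩ := hx
    by_cases hgs : g ∈ s x
    · rw [𝔓.cf_rs_mem _ _ _ hgs] at hg
      exact ⟨g, hgs, hg.le⟩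
    · rw [𝔓.cf_rs_notMem _ _ _ hgs, norm_zero] at hg
      exact absurd hg (not_lt.mpr hε.le)
  choose! f hf1 using key
  refine Set.Finite.of_injOn (f := f) (t := {g | ε ≤ ‖𝔓.cf g b‖}) ?_ ?_ hf
  · intro x hx
    exact (hf1 x hx).2
  · intro x hx y hy hxy
    exact hs x y (f x) (hf1 x hx).1 (hxy ▸ (hf1 y hy).1)

lemma SuppIn.mul {H : Subgroup G} {a b : 𝔓.B} (ha : 𝔓.SuppIn (H : Set G) a)
    (hb : 𝔓.SuppIn (H : Set G) b) : 𝔓.SuppIn (H : Set G) (a * b) :=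
  𝔓.D1_supp_mul (fun _ hg _ hh => H.mul_mem hg hh) ha hb

end PGR

end FP
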