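import Pool.Agent.Lib.MP_2d4659_gt.FP.D1

/-! # Reduction modulo `p` -/

set_option autoImplicit false

namespace FP

namespace PGR

variable {p : ℕ} [Fact p.Prime] {G : Type} [Group G] (𝔓 : PGR p G)

lemma D2_toZMod_eq_zero (x : ℤ_[p]) : PadicInt.toZMod x = 0 ↔ ‖x‖ < 1 := by
  rw [← RingHom.mem_ker, PadicInt.ker_toZMod, IsLocalRing.mem_maximalIdeal, PadicInt.mem_nonunits]

lemma D2_addc {a b c : ℤ_[p]} (h : (c : ℚ_[p]) = a + b) :
    PadicInt.toZMod c = PadicInt.toZMod a + PadicInt.toZMod b := by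
  rw [← map_add]
  congr 1
  apply Subtype.ext
  rw [h, PadicInt.coe_add]

lemma D2_negc {a c : ℤ_[p]} (h : (c : ℚ_[p]) = -a) :
    PadicInt.toZMod c = -PadicInt.toZMod a := by
  rw [← map_neg]
  congr 1
  apply Subtype.ext
  rw [h, PadicInt.coe_neg]

lemma D2_congrc {a c : ℤ_[p]} (h : (c : ℚ_[p]) = a) :
    PadicInt.toZMod c = PadicInt.toZMod a := by
  congr 1
  exact Subtype.ext h

lemma cf_fin_one (b : 𝔓.B) : {g | 1 ≤ ‖𝔓.cf g b‖}.Finite := 𝔓.cf_fin b 1 one_pos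

/-- reduction of the coefficients of an integral element (zero for non integral coefficients) -/
noncomputable def red (b : 𝔓.B) : MonoidAlgebra (ZMod p) G :=
  open Classical in
  MonoidAlgebra.ofCoeff (Finsupp.onFinset (𝔓.cf_fin_one b).toFinset
    (fun g => if h : ‖𝔓.cf g b‖ ≤ 1 then PadicInt.toZMod (⟨𝔓.cf g b, h⟩ : ℤ_[p]) else 0) (by
      intro g hg
      by_contra hc
      have hc' : ‖𝔓.cf g b‖ < 1 := by simpa using hc
      apply hg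
      rw [dif_pos hc'.le]
      exact (D2_toZMod_eq_zero _).mpr hc'))

lemma coeff_red {b : 𝔓.B} (hb : 𝔓.In b) (g : G) :
    (𝔓.red b).coeff g = PadicInt.toZMod (⟨𝔓.cf g b, hb g⟩ : ℤ_[p]) := by
  simp only [red, Finsupp.onFinset_apply]
  rw [dif_pos (hb g)]

lemma red_add {a b : 𝔓.B} (ha : 𝔓.In a) (hb : 𝔓.In b) : 𝔓.red (a + b) = 𝔓.red a + 𝔓.red b := by
  have hab : 𝔓.In (a + b) := Le.add 𝔓 ha hb
  ext g
  rw [MonoidAlgebra.coeff_add, Finsupp.add_apply, 𝔓.coeff_red hab, 𝔓.coeff_red ha, 𝔓.coeff_red hb]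
  exact D2_addc (map_add (𝔓.cf g) a b)

lemma red_neg {a : 𝔓.B} (ha : 𝔓.In a) : 𝔓.red (-a) = -𝔓.red a := by
  have hna : 𝔓.In (-a) := Le.neg 𝔓 ha
  ext g
  rw [MonoidAlgebra.coeff_neg, Finsupp.neg_apply, 𝔓.coeff_red hna, 𝔓.coeff_red ha]
  exact D2_negc (map_neg (𝔓.cf g) a)

lemma D2_red_zero : 𝔓.red 0 = 0 := by
  have h0 : 𝔓.In 0 := fun g => by simp
  ext g
  rw [𝔓.coeff_red h0, MonoidAlgebra.coeff_zero, Finsupp.zero_apply]
  refine (D2_toZMod_eq_zero _).mpr ?_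
  change ‖𝔓.cf g 0‖ < 1
  simp

lemma red_sum {ι : Type} (s : Finset ι) (a : ι → 𝔓.B) (ha : ∀ i ∈ s, 𝔓.In (a i)) :
    𝔓.red (∑ i ∈ s, a i) = ∑ i ∈ s, 𝔓.red (a i) := by
  classical
  induction s using Finset.induction_on with
  | empty => simpa using 𝔓.D2_red_zero
  | insert i s hi ih =>
    rw [Finset.sum_insert hi, Finset.sum_insert hi, 𝔓.red_add (ha i (Finset.mem_insert_self _ _))
      (Le.sum 𝔓 zero_le_one s a fun j hj => ha j (Finset.mem_insert_of_mem hj)),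
      ih fun j hj => ha j (Finset.mem_insert_of_mem hj)]

lemma red_eq_zero {b : 𝔓.B} (hb : 𝔓.In b) : 𝔓.red b = 0 ↔ 𝔓.Sm b := by
  constructor
  · intro h g
    have := 𝔓.coeff_red hb g
    rw [h, MonoidAlgebra.coeff_zero, Finsupp.zero_apply] at this
    exact (D2_toZMod_eq_zero _).mp this.symm
  · intro h
    ext g
    rw [𝔓.coeff_red hb, MonoidAlgebra.coeff_zero, Finsupp.zero_apply]
    exact (D2_toZMod_eq_zero _).mpr (h g)

lemma D2_red_congr {a b : 𝔓.B} (ha : 𝔓.In a) (hb : 𝔓.In b) (h : 𝔓.Sm (a - b)) :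
    𝔓.red a = 𝔓.red b := by
  have hnb : 𝔓.In (-b) := Le.neg 𝔓 hb
  have h1 : 𝔓.red (a - b) = 𝔓.red a - 𝔓.red b := by
    rw [sub_eq_add_neg, 𝔓.red_add ha hnb, 𝔓.red_neg hb, ← sub_eq_add_neg]
  have hab : 𝔓.In (a - b) := by rw [sub_eq_add_neg]; exact Le.add 𝔓 ha hnb
  have h2 := (𝔓.red_eq_zero hab).mpr h
  rw [h1] at h2
  exact sub_eq_zero.mp h2

/-- the image of an element of `ℤ_p[G]` -/
noncomputable def D2_E : MonoidAlgebra ℤ_[p] G →+* 𝔓.B :=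
  𝔓.emb.comp (MonoidAlgebra.mapRingHom G PadicInt.Coe.ringHom)

lemma D2_cf_E (x : MonoidAlgebra ℤ_[p] G) (g : G) : 𝔓.cf g (𝔓.D2_E x) = (x.coeff g : ℚ_[p]) := by
  rw [D2_E, RingHom.comp_apply, 𝔓.cf_emb, MonoidAlgebra.coeff_mapRingHom]
  rfl

lemma D2_In_E (x : MonoidAlgebra ℤ_[p] G) : 𝔓.In (𝔓.D2_E x) := fun g => by
  rw [D2_cf_E]; exact (x.coeff g).norm_le_one

lemma D2_red_E (x : MonoidAlgebra ℤ_[p] G) :
    𝔓.red (𝔓.D2_E x) = MonoidAlgebra.mapRingHom G PadicInt.toZMod x := by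
  ext g
  rw [𝔓.coeff_red (𝔓.D2_In_E x), MonoidAlgebra.coeff_mapRingHom]
  exact D2_congrc (𝔓.D2_cf_E x g)

lemma D2_lift {b : 𝔓.B} (hb : 𝔓.In b) : ∃ x : MonoidAlgebra ℤ_[p] G, 𝔓.Sm (b - 𝔓.D2_E x) := by
  classical
  have hf := 𝔓.cf_fin_one b
  have hex : ∀ g, ∃ c : ℤ_[p], (c : ℚ_[p]) = 𝔓.cf g b := fun g => ⟨⟨𝔓.cf g b, hb g⟩, rfl⟩
  choose c hc0 using hex
  refine ⟨MonoidAlgebra.ofCoeff (Finsupp.onFinset hf.toFinset
    (fun g => if 1 ≤ ‖𝔓.cf g b‖ then c g else 0) ?_), ?_⟩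
  · intro g hg
    by_contra hc
    have hc' : ¬ 1 ≤ ‖𝔓.cf g b‖ := by simpa using hc
    rw [if_neg hc'] at hg
    exact hg rfl
  · intro g
    rw [map_sub, D2_cf_E]
    simp only [Finsupp.onFinset_apply]
    split_ifs with h
    · rw [hc0, sub_self, norm_zero]; exact one_pos
    · simpa using not_le.mp h

lemma red_mul {a b : 𝔓.B} (ha : 𝔓.In a) (hb : 𝔓.In b) : 𝔓.red (a * b) = 𝔓.red a * 𝔓.red b := by
  obtain ⟨x, hx⟩ := 𝔓.D2_lift ha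
  obtain ⟨y, hy⟩ := 𝔓.D2_lift hb
  rw [𝔓.D2_red_congr ha (𝔓.D2_In_E x) hx, 𝔓.D2_red_congr hb (𝔓.D2_In_E y) hy,
    𝔓.D2_red_congr (In.mul 𝔓 ha hb) (𝔓.D2_In_E (x * y)) ?_, D2_red_E, D2_red_E, D2_red_E, map_mul]
  have e : a * b - 𝔓.D2_E (x * y) = (a - 𝔓.D2_E x) * b + 𝔓.D2_E x * (b - 𝔓.D2_E y) := by
    rw [map_mul]; noncomm_ring
  rw [e]
  exact Sm.add 𝔓 (Sm.mul_In 𝔓 hx hb) (In.mul_Sm 𝔓 (𝔓.D2_In_E x) hy)

lemma red_one : 𝔓.red 1 = 1 := by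
  have := 𝔓.D2_red_E 1
  rwa [map_one, map_one] at this

lemma D2_In_one : 𝔓.In (1 : 𝔓.B) := by
  have := 𝔓.D2_In_E 1
  rwa [map_one] at this

lemma red_u (g : G) : 𝔓.red (𝔓.u g) = MonoidAlgebra.single g 1 := by
  have h : 𝔓.u g = 𝔓.D2_E (MonoidAlgebra.single g 1) := by
    rw [D1_u_eq, D2_E, RingHom.comp_apply, MonoidAlgebra.mapRingHom_single, map_one]
  rw [h, D2_red_E, MonoidAlgebra.mapRingHom_single, map_one]

lemma red_surj (x : MonoidAlgebra (ZMod p) G) : ∃ b, 𝔓.In b ∧ 𝔓.red b = x := by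
  have : NeZero p := ⟨(Fact.out : p.Prime).ne_zero⟩
  refine ⟨𝔓.D2_E (MonoidAlgebra.ofCoeff (x.coeff.mapRange (fun z : ZMod p => (z.val : ℤ_[p]))
    (by simp))), 𝔓.D2_In_E _, ?_⟩
  rw [D2_red_E]
  ext g
  rw [MonoidAlgebra.coeff_mapRingHom]
  simp only [Finsupp.mapRange_apply, map_natCast]
  exact ZMod.natCast_zmod_val _

lemma D2_int (x : MonoidAlgebra ℤ G) :
    𝔓.emb (MonoidAlgebra.mapRingHom G (Int.castRingHom ℚ_[p]) x) =
      𝔓.D2_E (MonoidAlgebra.mapRingHom G (Int.castRingHom ℤ_[p]) x) := by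
  rw [D2_E, RingHom.comp_apply]
  congr 1
  ext g
  simp only [MonoidAlgebra.coeff_mapRingHom, eq_intCast, map_intCast]

/-- the reduction of the image of an element of `ℤ[G]` -/
lemma red_int (x : MonoidAlgebra ℤ G) :
    𝔓.red (𝔓.emb (MonoidAlgebra.mapRingHom G (Int.castRingHom ℚ_[p]) x)) =
      MonoidAlgebra.mapRingHom G (Int.castRingHom (ZMod p)) x := by
  rw [D2_int, D2_red_E]
  ext g
  simp only [MonoidAlgebra.coeff_mapRingHom, eq_intCast, map_intCast]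

lemma In_int (x : MonoidAlgebra ℤ G) :
    𝔓.In (𝔓.emb (MonoidAlgebra.mapRingHom G (Int.castRingHom ℚ_[p]) x)) := by
  rw [D2_int]
  exact 𝔓.D2_In_E _

/-- a square matrix with integral entries whose reduction is invertible is invertible, with an integral
inverse -/
theorem unit_of_red {n : Type} [Fintype n] [DecidableEq n] (M : Matrix n n 𝔓.B)
    (hM : ∀ i j, 𝔓.In (M i j)) (U : (Matrix n n (MonoidAlgebra (ZMod p) G))ˣ)
    (hU : ∀ i j, 𝔓.red (M i j) = U.1 i j) :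
    ∃ V : (Matrix n n 𝔓.B)ˣ, V.1 = M ∧ ∀ i j, 𝔓.In (V⁻¹.1 i j) := by
  choose N hN hN' using fun i j => 𝔓.red_surj (U⁻¹.1 i j)
  have hInmul : ∀ (A C : Matrix n n 𝔓.B), (∀ i j, 𝔓.In (A i j)) → (∀ i j, 𝔓.In (C i j)) →
      ∀ i j, 𝔓.In ((A * C) i j) := by
    intro A C hA hC i j
    rw [Matrix.mul_apply]
    exact Le.sum 𝔓 zero_le_one _ _ fun k _ => In.mul 𝔓 (hA i k) (hC k j)
  have hredmul : ∀ (A C : Matrix n n 𝔓.B), (∀ i j, 𝔓.In (A i j)) → (∀ i j, 𝔓.In (C i j)) →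
      ∀ (A' C' : Matrix n n (MonoidAlgebra (ZMod p) G)), (∀ i j, 𝔓.red (A i j) = A' i j) →
      (∀ i j, 𝔓.red (C i j) = C' i j) → ∀ i j, 𝔓.red ((A * C) i j) = (A' * C') i j := by
    intro A C hA hC A' C' hA' hC' i j
    rw [Matrix.mul_apply, Matrix.mul_apply,
      𝔓.red_sum _ _ fun k _ => In.mul 𝔓 (hA i k) (hC k j)]
    refine Finset.sum_congr rfl fun k _ => ?_
    rw [𝔓.red_mul (hA i k) (hC k j), hA', hC']
  have hone : ∀ i j, 𝔓.In ((1 : Matrix n n 𝔓.B) i j) := by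
    intro i j
    by_cases h : i = j
    · rw [h, Matrix.one_apply_eq]; exact 𝔓.D2_In_one
    · rw [Matrix.one_apply_ne h]; intro g; simp
  have hredone : ∀ i j, 𝔓.red ((1 : Matrix n n 𝔓.B) i j) =
      (1 : Matrix n n (MonoidAlgebra (ZMod p) G)) i j := by
    intro i j
    by_cases h : i = j
    · rw [h, Matrix.one_apply_eq, Matrix.one_apply_eq, red_one]
    · rw [Matrix.one_apply_ne h, Matrix.one_apply_ne h, D2_red_zero]
  have hsm : ∀ (A : Matrix n n 𝔓.B), (∀ i j, 𝔓.In (A i j)) →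
      (∀ i j, 𝔓.red (A i j) = (1 : Matrix n n (MonoidAlgebra (ZMod p) G)) i j) →
      ∀ i j g, ‖𝔓.cf g ((1 - A) i j)‖ < 1 := by
    intro A hA hA' i j
    have h1 : 𝔓.In ((1 - A) i j) := by
      rw [Matrix.sub_apply, sub_eq_add_neg]
      exact Le.add 𝔓 (hone i j) (Le.neg 𝔓 (hA i j))
    refine (𝔓.red_eq_zero h1).mp ?_
    rw [Matrix.sub_apply, sub_eq_add_neg, 𝔓.red_add (hone i j) (Le.neg 𝔓 (hA i j)),
      𝔓.red_neg (hA i j), hA', hredone, add_neg_cancel]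
  set N' : Matrix n n 𝔓.B := fun i j => N i j with hNdef
  have hMN : ∀ i j, 𝔓.red ((M * N') i j) = (1 : Matrix n n (MonoidAlgebra (ZMod p) G)) i j := by
    have := hredmul M N' hM hN U.1 U⁻¹.1 hU hN'
    intro i j
    rw [this i j, Units.mul_inv]
  have hNM : ∀ i j, 𝔓.red ((N' * M) i j) = (1 : Matrix n n (MonoidAlgebra (ZMod p) G)) i j := by
    have := hredmul N' M hN hM U⁻¹.1 U.1 hN' hU
    intro i j
    rw [this i j, Units.inv_mul]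
  obtain ⟨P, hP, hP1, hP2⟩ := 𝔓.neumann n (1 - M * N') (hsm _ (hInmul M N' hM hN) hMN)
  obtain ⟨Q, hQ, hQ1, hQ2⟩ := 𝔓.neumann n (1 - N' * M) (hsm _ (hInmul N' M hN hM) hNM)
  rw [sub_sub_cancel] at hP1 hP2 hQ1 hQ2
  have hr : M * (N' * (1 + P)) = 1 := by rw [← mul_assoc]; exact hP1
  have hl : ((1 + Q) * N') * M = 1 := by rw [mul_assoc]; exact hQ2
  have hlr : (1 + Q) * N' = N' * (1 + P) := left_inv_eq_right_inv hl hr
  refine ⟨⟨M, N' * (1 + P), hr, by rw [← hlr]; exact hl⟩, rfl, ?_⟩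
  intro i j
  change 𝔓.In ((N' * (1 + P)) i j)
  refine hInmul N' (1 + P) hN ?_ i j
  intro i j
  rw [Matrix.add_apply]
  exact Le.add 𝔓 (hone i j) (fun g => (hP i j g).le)

/-- approximation by elements of `ℤ[1/p][G]` -/
theorem approx_int (b : 𝔓.B) (ε : ℝ) (hε : 0 < ε) :
    ∃ (k : ℕ) (x : MonoidAlgebra ℤ G), ∀ g, ‖𝔓.cf g (b - 𝔓.sc ((p : ℚ_[p]) ^ k)⁻¹ *
      𝔓.emb (MonoidAlgebra.mapRingHom G (Int.castRingHom ℚ_[p]) x))‖ < ε := by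
  classical
  obtain ⟨k, hk⟩ := 𝔓.cf_bdd b
  have hp0 : (p : ℚ_[p]) ≠ 0 := by exact_mod_cast (Fact.out : p.Prime).ne_zero
  have hpr : (0 : ℝ) < p := by exact_mod_cast (Fact.out : p.Prime).pos
  have hf := 𝔓.cf_fin b ε hε
  have hint : ∀ g, ‖(p : ℚ_[p]) ^ k * 𝔓.cf g b‖ ≤ 1 := by
    intro g
    rw [norm_mul, norm_pow, Padic.norm_p, inv_pow]
    calc ((p : ℝ) ^ k)⁻¹ * ‖𝔓.cf g b‖ ≤ ((p : ℝ) ^ k)⁻¹ * (p : ℝ) ^ k :=
          mul_le_mul_of_nonneg_left (hk g) (by positivity)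
      _ = 1 := inv_mul_cancel₀ (by positivity)
  have hz : ∀ g, ∃ z : ℤ, ‖(p : ℚ_[p]) ^ k * 𝔓.cf g b - z‖ < ε * ((p : ℝ) ^ k)⁻¹ := by
    intro g
    have hpos : 0 < ε * ((p : ℝ) ^ k)⁻¹ := by positivity
    obtain ⟨y, hy⟩ : ∃ y : ℤ_[p], (y : ℚ_[p]) = (p : ℚ_[p]) ^ k * 𝔓.cf g b :=
      ⟨⟨_, hint g⟩, rfl⟩
    obtain ⟨z, hz⟩ := PadicInt.denseRange_intCast.exists_dist_lt y hpos
    refine ⟨z, ?_⟩
    rw [dist_eq_norm, PadicInt.norm_def, PadicInt.coe_sub, PadicInt.coe_intCast, hy] at hz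
    exact hz
  choose z hz using hz
  refine ⟨k, MonoidAlgebra.ofCoeff (Finsupp.onFinset hf.toFinset
    (fun g => if ε ≤ ‖𝔓.cf g b‖ then z g else 0) ?_), ?_⟩
  · intro g hg
    by_contra hc
    have hc' : ¬ ε ≤ ‖𝔓.cf g b‖ := by simpa using hc
    rw [if_neg hc'] at hg
    exact hg rfl
  · intro g
    rw [map_sub, cf_sc_mul, 𝔓.cf_emb, MonoidAlgebra.coeff_mapRingHom]
    simp only [Finsupp.onFinset_apply]
    split_ifs with h
    · have e : 𝔓.cf g b - ((p : ℚ_[p]) ^ k)⁻¹ * (Int.castRingHom ℚ_[p]) (z g) =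
          ((p : ℚ_[p]) ^ k)⁻¹ * ((p : ℚ_[p]) ^ k * 𝔓.cf g b - z g) := by
        have : (p : ℚ_[p]) ^ k ≠ 0 := pow_ne_zero _ hp0
        rw [eq_intCast]
        field_simp
      rw [e, norm_mul, norm_inv, norm_pow, Padic.norm_p, inv_pow, inv_inv]
      calc (p : ℝ) ^ k * ‖(p : ℚ_[p]) ^ k * 𝔓.cf g b - z g‖
          < (p : ℝ) ^ k * (ε * ((p : ℝ) ^ k)⁻¹) := mul_lt_mul_of_pos_left (hz g) (by positivity)
        _ = ε := by field_simp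
    · simpa using not_le.mp h

end PGR

end FP
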