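import Mathlib

/-! # The sup norm on `ℚ_p[G]` -/

set_option autoImplicit false

namespace FP

/-- type synonym for the group algebra, carrying the sup norm -/
def QG (p : ℕ) [Fact p.Prime] (G : Type) [Group G] : Type := MonoidAlgebra ℚ_[p] G

variable {p : ℕ} [Fact p.Prime] {G : Type} [Group G]

noncomputable instance : Ring (QG p G) := inferInstanceAs (Ring (MonoidAlgebra ℚ_[p] G))

/-- the identity map -/
noncomputable def QG.mk : MonoidAlgebra ℚ_[p] G ≃+* QG p G := RingEquiv.refl _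

/-- the sup norm -/
noncomputable def QG.nm (x : QG p G) : ℝ :=
  (((QG.mk.symm x).coeff.support.sup fun g => ‖(QG.mk.symm x).coeff g‖₊ : NNReal) : ℝ)

lemma QG.nm_le {x : QG p G} {r : ℝ} (hr : 0 ≤ r) :
    QG.nm x ≤ r ↔ ∀ g, ‖(QG.mk.symm x).coeff g‖ ≤ r := by
  lift r to NNReal using hr
  unfold QG.nm
  rw [NNReal.coe_le_coe, Finset.sup_le_iff]
  constructor
  · intro h g
    by_cases hg : g ∈ (QG.mk.symm x).coeff.support
    · have h1 := h g hg
      exact_mod_cast h1
    · rw [Finsupp.notMem_support_iff] at hg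
      rw [hg, norm_zero]
      exact r.2
  · intro h g _
    have h1 := h g
    exact_mod_cast h1

lemma D4a_nm_nonneg (x : QG p G) : 0 ≤ QG.nm x := NNReal.coe_nonneg _

lemma D4a_le_nm (x : QG p G) (g : G) : ‖(QG.mk.symm x).coeff g‖ ≤ QG.nm x :=
  (QG.nm_le (D4a_nm_nonneg x)).1 le_rfl g

lemma D4a_coeff_add (x y : QG p G) (g : G) :
    (QG.mk.symm (x + y)).coeff g = (QG.mk.symm x).coeff g + (QG.mk.symm y).coeff g := by
  rw [map_add]
  rfl

lemma D4a_nm_add_max (x y : QG p G) : QG.nm (x + y) ≤ max (QG.nm x) (QG.nm y) := by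
  rw [QG.nm_le (le_max_of_le_left (D4a_nm_nonneg x))]
  intro g
  rw [D4a_coeff_add]
  exact (IsUltrametricDist.norm_add_le_max _ _).trans
    (max_le_max (D4a_le_nm x g) (D4a_le_nm y g))

/-- the sup norm as a group norm -/
noncomputable def qnorm : AddGroupNorm (QG p G) where
  toFun := QG.nm
  map_zero' := by
    refine le_antisymm ?_ (D4a_nm_nonneg _)
    rw [QG.nm_le le_rfl]
    intro g
    rw [map_zero]
    show ‖(0 : ℚ_[p])‖ ≤ 0
    rw [norm_zero]
  add_le' := by
    intro x y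
    exact (D4a_nm_add_max x y).trans
      (max_le_add_of_nonneg (D4a_nm_nonneg x) (D4a_nm_nonneg y))
  neg' := by
    intro x
    have key : ∀ z : QG p G, QG.nm (-z) ≤ QG.nm z := by
      intro z
      rw [QG.nm_le (D4a_nm_nonneg z)]
      intro g
      rw [map_neg]
      show ‖-((QG.mk.symm z).coeff g)‖ ≤ QG.nm z
      rw [norm_neg]
      exact D4a_le_nm z g
    refine le_antisymm (key x) ?_
    have h := key (-x)
    rwa [neg_neg] at h
  eq_zero_of_map_eq_zero' := by
    intro x hx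
    have h : ∀ g, (QG.mk.symm x).coeff g = 0 := by
      intro g
      have h1 := D4a_le_nm x g
      have hx' : QG.nm x = 0 := hx
      rw [hx'] at h1
      exact norm_le_zero_iff.1 h1
    have h2 : (QG.mk.symm x) = 0 := by
      apply MonoidAlgebra.ext
      exact Finsupp.ext h
    exact (map_eq_zero_iff QG.mk.symm QG.mk.symm.injective).1 h2

noncomputable instance : NormedAddCommGroup (QG p G) := qnorm.toNormedAddCommGroup

lemma QG.norm_def (x : QG p G) : ‖x‖ = QG.nm x := rfl

lemma QG.norm_add_le_max (x y : QG p G) : ‖x + y‖ ≤ max ‖x‖ ‖y‖ := by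
  rw [QG.norm_def, QG.norm_def, QG.norm_def]
  exact D4a_nm_add_max x y

lemma QG.norm_mul_le (x y : QG p G) : ‖x * y‖ ≤ ‖x‖ * ‖y‖ := by
  rw [QG.norm_def, QG.norm_def, QG.norm_def,
    QG.nm_le (mul_nonneg (D4a_nm_nonneg x) (D4a_nm_nonneg y))]
  intro g
  rw [map_mul, MonoidAlgebra.coeff_mul_apply_left, Finsupp.sum]
  refine IsUltrametricDist.norm_sum_le_of_forall_le_of_nonneg
    (mul_nonneg (D4a_nm_nonneg x) (D4a_nm_nonneg y)) ?_
  intro h _
  rw [norm_mul]
  exact mul_le_mul (D4a_le_nm x h) (D4a_le_nm y _) (norm_nonneg _) (D4a_nm_nonneg x)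

noncomputable instance : NormedRing (QG p G) :=
  { (inferInstance : Ring (QG p G)), (inferInstance : NormedAddCommGroup (QG p G)) with
    norm_mul_le := QG.norm_mul_le }

/-- coefficients -/
noncomputable def QG.cf (g : G) : QG p G →+ ℚ_[p] :=
  (Finsupp.applyAddHom g).comp
    (MonoidAlgebra.coeffAddEquiv.toAddMonoidHom.comp QG.mk.symm.toAddMonoidHom)

lemma D4a_cf (g : G) (x : QG p G) : QG.cf g x = (QG.mk.symm x).coeff g := rfl

lemma QG.norm_cf_le (g : G) (x : QG p G) : ‖QG.cf g x‖ ≤ ‖x‖ := by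
  rw [D4a_cf, QG.norm_def]
  exact D4a_le_nm x g

lemma QG.norm_le {x : QG p G} {r : ℝ} (hr : 0 ≤ r) : ‖x‖ ≤ r ↔ ∀ g, ‖QG.cf g x‖ ≤ r := by
  rw [QG.norm_def, QG.nm_le hr]
  rfl

/-- restriction to a subset -/
noncomputable def QG.rs (s : Set G) : QG p G →+ QG p G :=
  open Classical in
  QG.mk.toAddMonoidHom.comp (MonoidAlgebra.coeffAddEquiv.symm.toAddMonoidHom.comp
    ((Finsupp.filterAddHom (fun g => g ∈ s)).comp
      (MonoidAlgebra.coeffAddEquiv.toAddMonoidHom.comp QG.mk.symm.toAddMonoidHom)))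

lemma QG.cf_rs_mem {s : Set G} {g : G} (hg : g ∈ s) (x : QG p G) :
    QG.cf g (QG.rs s x) = QG.cf g x := by
  classical
  exact Finsupp.filter_apply_pos (fun g => g ∈ s) (QG.mk.symm x).coeff hg

lemma QG.cf_rs_notMem {s : Set G} {g : G} (hg : g ∉ s) (x : QG p G) :
    QG.cf g (QG.rs s x) = 0 := by
  classical
  exact Finsupp.filter_apply_neg (fun g => g ∈ s) (QG.mk.symm x).coeff hg

lemma QG.norm_rs_le (s : Set G) (x : QG p G) : ‖QG.rs s x‖ ≤ ‖x‖ := by
  rw [QG.norm_le (norm_nonneg x)]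
  intro g
  by_cases hg : g ∈ s
  · rw [QG.cf_rs_mem hg]
    exact QG.norm_cf_le g x
  · rw [QG.cf_rs_notMem hg, norm_zero]
    exact norm_nonneg x

/-- functoriality -/
noncomputable def QG.map {H : Type} [Group H] (φ : G →* H) : QG p G →+* QG p H :=
  QG.mk.toRingHom.comp ((MonoidAlgebra.mapDomainRingHom ℚ_[p] φ).comp QG.mk.symm.toRingHom)

lemma QG.norm_map_le {H : Type} [Group H] (φ : G →* H) (x : QG p G) : ‖QG.map φ x‖ ≤ ‖x‖ := by
  classical
  rw [QG.norm_le (norm_nonneg x)]
  intro h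
  have h1 : QG.cf h (QG.map φ x) = Finsupp.mapDomain φ (QG.mk.symm x).coeff h := rfl
  rw [h1, Finsupp.mapDomain, Finsupp.sum_apply, Finsupp.sum]
  refine IsUltrametricDist.norm_sum_le_of_forall_le_of_nonneg (norm_nonneg x) ?_
  intro g _
  by_cases hg : φ g = h
  · rw [hg, Finsupp.single_eq_same]
    exact D4a_le_nm x g
  · rw [Finsupp.single_apply, if_neg hg, norm_zero]
    exact norm_nonneg x

/-- for a finite group the normed ring is complete -/
lemma QG.complete {H : Type} [Group H] [Finite H] : CompleteSpace (QG p H) := by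
  classical
  have := Fintype.ofFinite H
  let f : QG p H → (H → ℚ_[p]) := fun x g => QG.cf g x
  have hf : Isometry f := by
    refine Isometry.of_dist_eq fun x y => ?_
    rw [dist_eq_norm, dist_eq_norm]
    have h1 : f x - f y = f (x - y) := by
      funext g
      show QG.cf g x - QG.cf g y = QG.cf g (x - y)
      rw [map_sub]
    rw [h1]
    refine le_antisymm ?_ ?_
    · rw [pi_norm_le_iff_of_nonneg (norm_nonneg _)]
      intro g
      exact QG.norm_cf_le g _
    · rw [QG.norm_le (norm_nonneg _)]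
      intro g
      exact norm_le_pi_norm (f (x - y)) g
  have hs : Function.Surjective f := by
    intro v
    refine ⟨QG.mk (MonoidAlgebra.ofCoeff (Finsupp.equivFunOnFinite.symm v)), ?_⟩
    funext g
    rfl
  exact (hf.isUniformInducing.completeSpace_congr hs).2 inferInstance

end FP
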