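import Pool.Agent.Lib.MP_2d4659_gt.FP.DDefs
import Pool.Agent.Lib.MP_2d4659_gt.FP.D4a

/-!
# Existence of the completed group algebra

`B = UniformSpace.Completion (QG p G)` (a complete `NormedRing`), `emb` the canonical map, `cf g` and
`rs s` the extensions by continuity (`AddMonoidHom.extension`, `AddMonoidHom.completion`), `pr φ` the
extension of `QG.map φ` to the completion with values in the complete ring `QG p H`
(`UniformSpace.Completion.extensionHom`).  The norm of `B` is the supremum of the norms of the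
coefficients (density).  `neumann`: the geometric series, with `‖(M ^ k) i j‖ ≤ q ^ k` for some `q < 1`
by the ultrametric inequality.
-/

set_option autoImplicit false

namespace FP

open UniformSpace Filter Topology

section D4

variable (p : ℕ) [Fact p.Prime] (G : Type) [Group G]

/-- the completion -/
abbrev D4_B : Type := Completion (QG p G)

variable {p G}

lemma D4_cont_cf (g : G) : Continuous (QG.cf (p := p) g) :=
  AddMonoidHomClass.continuous_of_bound (QG.cf g) 1 (fun x => by
    rw [one_mul]; exact QG.norm_cf_le g x)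

lemma D4_cont_rs (s : Set G) : Continuous (QG.rs (p := p) s) :=
  AddMonoidHomClass.continuous_of_bound (QG.rs s) 1 (fun x => by
    rw [one_mul]; exact QG.norm_rs_le s x)

lemma D4_cont_map {H : Type} [Group H] (φ : G →* H) : Continuous (QG.map (p := p) φ) :=
  AddMonoidHomClass.continuous_of_bound (QG.map φ) 1 (fun x => by
    rw [one_mul]; exact QG.norm_map_le φ x)

/-- coefficients on the completion -/
noncomputable def D4_cf (g : G) : D4_B p G →+ ℚ_[p] :=
  (QG.cf g).extension (D4_cont_cf g)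

lemma D4_cf_coe (g : G) (a : QG p G) : D4_cf g (a : D4_B p G) = QG.cf g a :=
  AddMonoidHom.extension_coe _ _ _

lemma D4_cf_cont (g : G) : Continuous (D4_cf (p := p) g) :=
  AddMonoidHom.continuous_extension _ _

lemma D4_norm_cf_le (g : G) (b : D4_B p G) : ‖D4_cf g b‖ ≤ ‖b‖ := by
  induction b using Completion.induction_on with
  | hp => exact isClosed_le (D4_cf_cont g).norm continuous_norm
  | ih a => rw [D4_cf_coe, Completion.norm_coe]; exact QG.norm_cf_le g a

lemma D4_approx (b : D4_B p G) {ε : ℝ} (hε : 0 < ε) : ∃ a : QG p G, ‖b - (a : D4_B p G)‖ < ε := by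
  obtain ⟨_, ⟨a, rfl⟩, hx⟩ :=
    Metric.mem_closure_iff.1 (Completion.denseRange_coe (α := QG p G) b) ε hε
  exact ⟨a, by rwa [dist_eq_norm] at hx⟩

lemma D4_norm_le {b : D4_B p G} {r : ℝ} (hr : 0 ≤ r) (h : ∀ g, ‖D4_cf g b‖ ≤ r) : ‖b‖ ≤ r := by
  refine le_of_forall_pos_le_add fun ε hε => ?_
  obtain ⟨a, ha⟩ := D4_approx b (half_pos hε)
  have h1 : ‖a‖ ≤ r + ε / 2 := by
    rw [QG.norm_le (by positivity)]
    intro g
    have e : QG.cf g a = D4_cf g b + -(D4_cf g (b - (a : D4_B p G))) := by
      rw [map_sub, D4_cf_coe]; abel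
    rw [e]
    refine (norm_add_le _ _).trans ?_
    rw [norm_neg]
    have := h g
    have := D4_norm_cf_le g (b - (a : D4_B p G))
    linarith
  have h2 : ‖b‖ ≤ ‖b - (a : D4_B p G)‖ + ‖(a : D4_B p G)‖ := by
    calc ‖b‖ = ‖(b - (a : D4_B p G)) + (a : D4_B p G)‖ := by rw [sub_add_cancel]
      _ ≤ _ := norm_add_le _ _
  rw [Completion.norm_coe] at h2
  linarith

lemma D4_ultra (x y : D4_B p G) : ‖x + y‖ ≤ max ‖x‖ ‖y‖ := by
  refine D4_norm_le (le_max_of_le_left (norm_nonneg _)) fun g => ?_
  rw [map_add]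
  exact (Padic.nonarchimedean _ _).trans (max_le_max (D4_norm_cf_le g x) (D4_norm_cf_le g y))

lemma D4_sum {ι : Type} (s : Finset ι) (f : ι → D4_B p G) {c : ℝ} (hc : 0 ≤ c)
    (h : ∀ i ∈ s, ‖f i‖ ≤ c) : ‖∑ i ∈ s, f i‖ ≤ c := by
  classical
  induction s using Finset.induction_on with
  | empty => simpa using hc
  | insert a s ha ih =>
    rw [Finset.sum_insert ha]
    refine (D4_ultra _ _).trans (max_le (h a (Finset.mem_insert_self a s))
      (ih fun i hi => h i (Finset.mem_insert_of_mem hi)))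

lemma D4_nonneg {r : ℝ} {b : D4_B p G} (h : ∀ g, ‖D4_cf g b‖ ≤ r) : 0 ≤ r :=
  (norm_nonneg _).trans (h 1)

lemma D4_lt_one {b : D4_B p G} (h : ∀ g, ‖D4_cf g b‖ < 1) : ‖b‖ ≤ (p : ℝ)⁻¹ := by
  refine D4_norm_le (by positivity) fun g => ?_
  have h1 := h g
  have h2 := (Padic.norm_le_pow_iff_norm_lt_pow_add_one (D4_cf g b) (-1)).2 (by simpa using h1)
  simpa using h2

lemma D4_neumann {n : Type} [Fintype n] [DecidableEq n] (M : Matrix n n (D4_B p G))
    (hM : ∀ i j g, ‖D4_cf g (M i j)‖ < 1) : ∃ N : Matrix n n (D4_B p G),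
      (∀ i j g, ‖D4_cf g (N i j)‖ < 1) ∧ (1 - M) * (1 + N) = 1 ∧ (1 + N) * (1 - M) = 1 := by
  have hp : (1 : ℝ) < p := by exact_mod_cast (Fact.out : p.Prime).one_lt
  set q : ℝ := (p : ℝ)⁻¹ with hq
  have hq0 : 0 ≤ q := by positivity
  have hq1 : q < 1 := inv_lt_one_of_one_lt₀ hp
  have h1 : ∀ i j, ‖M i j‖ ≤ q := fun i j => D4_lt_one (hM i j)
  have h2 : ∀ k i j, ‖(M ^ (k + 1)) i j‖ ≤ q ^ (k + 1) := by
    intro k
    induction k with
    | zero => intro i j; simpa using h1 i j
    | succ k ih =>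
      intro i j
      rw [pow_succ, Matrix.mul_apply, pow_succ q]
      refine D4_sum _ _ (by positivity) fun l _ => ?_
      exact (norm_mul_le _ _).trans (mul_le_mul (ih i l) (h1 l j) (norm_nonneg _) (by positivity))
  have hs : ∀ i j, Summable fun k : ℕ => (M ^ (k + 1)) i j := by
    intro i j
    refine Summable.of_norm_bounded (g := fun k : ℕ => q ^ (k + 1)) ?_ (fun k => h2 k i j)
    exact (summable_nat_add_iff 1).2 (summable_geometric_of_lt_one hq0 hq1)
  set N : Matrix n n (D4_B p G) := fun i j => ∑' k : ℕ, (M ^ (k + 1)) i j with hN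
  have hNM : N = M + M * N := by
    ext i j
    rw [Matrix.add_apply, Matrix.mul_apply]
    have e1 : N i j = M i j + ∑' k : ℕ, (M ^ (k + 1 + 1)) i j := by
      show ∑' k : ℕ, (M ^ (k + 1)) i j = _
      rw [(hs i j).tsum_eq_zero_add]
      simp
    have e2 : ∑ l, M i l * N l j = ∑' k : ℕ, (M ^ (k + 1 + 1)) i j := by
      have : ∀ k : ℕ, (M ^ (k + 1 + 1)) i j = ∑ l, M i l * (M ^ (k + 1)) l j := by
        intro k
        rw [pow_succ' M (k + 1), Matrix.mul_apply]
      simp only [this]
      rw [Summable.tsum_finsetSum (fun l _ => (hs l j).mul_left (M i l))]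
      refine Finset.sum_congr rfl fun l _ => ?_
      show M i l * ∑' k : ℕ, (M ^ (k + 1)) l j = _
      rw [(hs l j).tsum_mul_left]
    rw [e1, e2]
  have hMN : N = M + N * M := by
    ext i j
    rw [Matrix.add_apply, Matrix.mul_apply]
    have e1 : N i j = M i j + ∑' k : ℕ, (M ^ (k + 1 + 1)) i j := by
      show ∑' k : ℕ, (M ^ (k + 1)) i j = _
      rw [(hs i j).tsum_eq_zero_add]
      simp
    have e2 : ∑ l, N i l * M l j = ∑' k : ℕ, (M ^ (k + 1 + 1)) i j := by
      have : ∀ k : ℕ, (M ^ (k + 1 + 1)) i j = ∑ l, (M ^ (k + 1)) i l * M l j := by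
        intro k
        rw [pow_succ M (k + 1), Matrix.mul_apply]
      simp only [this]
      rw [Summable.tsum_finsetSum (fun l _ => (hs i l).mul_right (M l j))]
      refine Finset.sum_congr rfl fun l _ => ?_
      show (∑' k : ℕ, (M ^ (k + 1)) i l) * M l j = _
      rw [(hs i l).tsum_mul_right]
    rw [e1, e2]
  refine ⟨N, ?_, ?_, ?_⟩
  · intro i j g
    refine (D4_norm_cf_le g _).trans_lt (lt_of_le_of_lt ?_ hq1)
    have ht := (hs i j).hasSum.tendsto_sum_nat.norm
    refine le_of_tendsto ht (Eventually.of_forall fun k => ?_)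
    refine D4_sum _ _ hq0 fun l _ => (h2 l i j).trans ?_
    rw [pow_succ]
    exact mul_le_of_le_one_left hq0 (pow_le_one₀ hq0 hq1.le)
  · have : (1 - M) * (1 + N) = 1 + (N - (M + M * N)) := by noncomm_ring
    rw [this, ← hNM, sub_self, add_zero]
  · have : (1 + N) * (1 - M) = 1 + (N - (M + N * M)) := by noncomm_ring
    rw [this, ← hMN, sub_self, add_zero]

/-- restriction on the completion -/
noncomputable def D4_rs (s : Set G) : D4_B p G →+ D4_B p G :=
  AddMonoidHom.completion (QG.rs s) (D4_cont_rs s)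

lemma D4_rs_coe (s : Set G) (a : QG p G) :
    D4_rs s (a : D4_B p G) = ((QG.rs s a : QG p G) : D4_B p G) :=
  AddMonoidHom.completion_coe _ _ _

lemma D4_rs_cont (s : Set G) : Continuous (D4_rs (p := p) s) :=
  AddMonoidHom.continuous_completion _ _

lemma D4_cf_rs_mem {s : Set G} {g : G} (hg : g ∈ s) (b : D4_B p G) :
    D4_cf g (D4_rs s b) = D4_cf g b := by
  induction b using Completion.induction_on with
  | hp => exact isClosed_eq ((D4_cf_cont g).comp (D4_rs_cont s)) (D4_cf_cont g)
  | ih a => rw [D4_rs_coe, D4_cf_coe, D4_cf_coe, QG.cf_rs_mem hg]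

lemma D4_cf_rs_notMem {s : Set G} {g : G} (hg : g ∉ s) (b : D4_B p G) :
    D4_cf g (D4_rs s b) = 0 := by
  induction b using Completion.induction_on with
  | hp => exact isClosed_eq ((D4_cf_cont g).comp (D4_rs_cont s)) continuous_const
  | ih a => rw [D4_rs_coe, D4_cf_coe, QG.cf_rs_notMem hg]

/-- functoriality for finite groups -/
noncomputable def D4_pr {H : Type} [Group H] [Finite H] (φ : G →* H) :
    D4_B p G →+* QG p H :=
  haveI : CompleteSpace (QG p H) := QG.complete
  Completion.extensionHom (QG.map φ) (D4_cont_map φ)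

lemma D4_pr_coe {H : Type} [Group H] [Finite H] (φ : G →* H) (a : QG p G) :
    D4_pr φ (a : D4_B p G) = QG.map φ a := by
  haveI : CompleteSpace (QG p H) := QG.complete
  exact Completion.extensionHom_coe _ _ a

lemma D4_pr_cont {H : Type} [Group H] [Finite H] (φ : G →* H) :
    Continuous (D4_pr (p := p) φ) := by
  haveI : CompleteSpace (QG p H) := QG.complete
  exact Completion.continuous_extension

lemma D4_pr_norm {H : Type} [Group H] [Finite H] (φ : G →* H) (b : D4_B p G) :
    ‖D4_pr φ b‖ ≤ ‖b‖ := by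
  induction b using Completion.induction_on with
  | hp => exact isClosed_le (D4_pr_cont φ).norm continuous_norm
  | ih a => rw [D4_pr_coe, Completion.norm_coe]; exact QG.norm_map_le φ a

end D4

/-- existence of the completed group algebra -/
theorem exists_PGR (p : ℕ) [Fact p.Prime] (G : Type) [Group G] : Nonempty (PGR p G) := by
  refine ⟨{
    B := D4_B p G
    emb := (Completion.coeRingHom (α := QG p G)).comp QG.mk.toRingHom
    cf := fun g => D4_cf g
    cf_emb := ?_
    cf_inj := ?_
    cf_fin := ?_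
    cf_mul := ?_
    rs := fun s => D4_rs s
    cf_rs_mem := fun s b g hg => D4_cf_rs_mem hg b
    cf_rs_notMem := fun s b g hg => D4_cf_rs_notMem hg b
    pr := fun φ => (QG.mk.symm.toRingHom).comp (D4_pr φ)
    pr_emb := ?_
    pr_le := ?_
    neumann := fun n _ _ M hM => D4_neumann M hM }⟩
  · intro x g
    exact D4_cf_coe g (QG.mk x)
  · intro b hb
    have : ‖b‖ ≤ 0 := D4_norm_le le_rfl fun g => by rw [hb g, norm_zero]
    exact norm_le_zero_iff.1 this
  · intro b ε hε
    obtain ⟨a, ha⟩ := D4_approx b hε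
    refine ((QG.mk.symm a).coeff.support.finite_toSet).subset ?_
    intro g hg
    rw [Finset.mem_coe, Finsupp.mem_support_iff]
    intro h0
    have h1 : D4_cf g (b - (a : D4_B p G)) = D4_cf g b := by
      rw [map_sub, D4_cf_coe]
      have : QG.cf g a = 0 := h0
      rw [this, sub_zero]
    have h2 := D4_norm_cf_le g (b - (a : D4_B p G))
    rw [h1] at h2
    have h3 : ε ≤ ‖D4_cf g b‖ := hg
    linarith
  · intro a b r s ha hb g
    refine (D4_norm_cf_le g _).trans ((norm_mul_le _ _).trans ?_)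
    exact mul_le_mul (D4_norm_le (D4_nonneg ha) ha) (D4_norm_le (D4_nonneg hb) hb)
      (norm_nonneg _) (D4_nonneg ha)
  · intro H _ _ φ x
    show QG.mk.symm (D4_pr φ ((QG.mk x : QG p G) : D4_B p G)) = _
    rw [D4_pr_coe]
    rfl
  · intro H _ _ φ b r hb h
    have h1 : ‖D4_pr φ b‖ ≤ r := (D4_pr_norm φ b).trans (D4_norm_le (D4_nonneg hb) hb)
    exact (QG.norm_cf_le h (D4_pr φ b)).trans h1

end FP
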