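import Pool.Agent.Lib.MP_2d4659_gt.FP.CDefs

/-!
# The completed group algebra: axioms

`PGR p G` is (a model of) the ring of functions `G → ℚ_p` tending to zero, with convolution: the
completion of `ℚ_p[G]` for the sup norm.  `cf g` is the coefficient of `g`, `rs s` is the restriction to
the subset `s` of `G`, `pr φ` is the extension of `ℚ_p[G] → ℚ_p[H]` for a homomorphism `φ` to a finite
group.
-/

set_option autoImplicit false

namespace FP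

/-- the completed group algebra -/
structure PGR (p : ℕ) [Fact p.Prime] (G : Type) [Group G] where
  B : Type
  [ring : Ring B]
  emb : MonoidAlgebra ℚ_[p] G →+* B
  cf : G → B →+ ℚ_[p]
  cf_emb : ∀ (x : MonoidAlgebra ℚ_[p] G) (g : G), cf g (emb x) = x.coeff g
  cf_inj : ∀ b : B, (∀ g, cf g b = 0) → b = 0
  cf_fin : ∀ (b : B) (ε : ℝ), 0 < ε → {g | ε ≤ ‖cf g b‖}.Finite
  cf_mul : ∀ (a b : B) (r s : ℝ), (∀ g, ‖cf g a‖ ≤ r) → (∀ g, ‖cf g b‖ ≤ s) →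
    ∀ g, ‖cf g (a * b)‖ ≤ r * s
  rs : Set G → B →+ B
  cf_rs_mem : ∀ (s : Set G) (b : B) (g : G), g ∈ s → cf g (rs s b) = cf g b
  cf_rs_notMem : ∀ (s : Set G) (b : B) (g : G), g ∉ s → cf g (rs s b) = 0
  pr : ∀ {H : Type} [Group H] [Finite H], (G →* H) → B →+* MonoidAlgebra ℚ_[p] H
  pr_emb : ∀ {H : Type} [Group H] [Finite H] (φ : G →* H) (x : MonoidAlgebra ℚ_[p] G),
    pr φ (emb x) = MonoidAlgebra.mapDomainRingHom ℚ_[p] φ x
  pr_le : ∀ {H : Type} [Group H] [Finite H] (φ : G →* H) (b : B) (r : ℝ),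
    (∀ g, ‖cf g b‖ ≤ r) → ∀ h, ‖(pr φ b).coeff h‖ ≤ r
  neumann : ∀ (n : Type) [Fintype n] [DecidableEq n] (M : Matrix n n B),
    (∀ i j g, ‖cf g (M i j)‖ < 1) → ∃ N : Matrix n n B, (∀ i j g, ‖cf g (N i j)‖ < 1) ∧
      (1 - M) * (1 + N) = 1 ∧ (1 + N) * (1 - M) = 1

attribute [instance] PGR.ring

namespace PGR

variable {p : ℕ} [Fact p.Prime] {G : Type} [Group G] (𝔓 : PGR p G)

/-- the inclusion of `G` -/
noncomputable def u : G →* 𝔓.B := 𝔓.emb.toMonoidHom.comp (MonoidAlgebra.of ℚ_[p] G)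

/-- a scalar -/
noncomputable def sc : ℚ_[p] →+* 𝔓.B := 𝔓.emb.comp MonoidAlgebra.singleOneRingHom

/-- integral elements -/
def In (b : 𝔓.B) : Prop := ∀ g, ‖𝔓.cf g b‖ ≤ 1

/-- elements divisible by `p` -/
def Sm (b : 𝔓.B) : Prop := ∀ g, ‖𝔓.cf g b‖ < 1

/-- elements of norm at most `r` -/
def Le (r : ℝ) (b : 𝔓.B) : Prop := ∀ g, ‖𝔓.cf g b‖ ≤ r

/-- the coefficients are supported in `s` -/
def SuppIn (s : Set G) (b : 𝔓.B) : Prop := ∀ g, g ∉ s → 𝔓.cf g b = 0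

end PGR

end FP
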