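import Pool.Agent.Lib.MP_2d4659_gt.FP.DDefs

/-!
# Groups of matrices

For a ring `B` with a homomorphism `u : G → B`: `SS u` is the group of invertible matrices `h` with
`h * Ψ = Ψ`; `InI u b` is the left ideal in which the entries of column `b` of `h - 1` lie;
`EE u` is the group generated by elementary matrices in `SS u`.
-/

set_option autoImplicit false

namespace FP

variable {J : Type} [DecidableEq J] [Fintype J] {m : J → ℕ} {Y σ : Type} [Fintype Y] [DecidableEq Y]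
  [Fintype σ] [DecidableEq σ]

section gen

variable {B : Type} [Ring B] (u : Gp m →* B)

/-- the stabiliser of `Ψ` -/
def SS (Y σ : Type) [Fintype Y] [DecidableEq Y] [Fintype σ] [DecidableEq σ] :
    Subgroup (Matrix (Nx m Y σ) (Nx m Y σ) B)ˣ where
  carrier := {h | h.1 * psi u Y σ = psi u Y σ}
  mul_mem' := by
    intro a b ha hb
    have ha' : a.1 * psi u Y σ = psi u Y σ := ha
    have hb' : b.1 * psi u Y σ = psi u Y σ := hb
    change (a * b).1 * psi u Y σ = psi u Y σ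
    rw [Units.val_mul, Matrix.mul_assoc, hb', ha']
  one_mem' := by
    change (1 : (Matrix (Nx m Y σ) (Nx m Y σ) B)ˣ).1 * psi u Y σ = psi u Y σ
    rw [Units.val_one, Matrix.one_mul]
  inv_mem' := by
    intro a ha
    have ha' : a.1 * psi u Y σ = psi u Y σ := ha
    change (a⁻¹).1 * psi u Y σ = psi u Y σ
    conv_lhs => rw [← ha', ← Matrix.mul_assoc, ← Units.val_mul, inv_mul_cancel, Units.val_one,
      Matrix.one_mul]

/-- the left ideal of column `b` -/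
def InI (b : Nx m Y σ) (x : B) : Prop :=
  match b with
  | Sum.inl (Sum.inl i) => ∃ y, x = y * (u (gen m i.1) - 1)
  | Sum.inl (Sum.inr _) => x = 0
  | Sum.inr _ => True

/-- elementary matrices -/
inductive IsEl (M : (Matrix (Nx m Y σ) (Nx m Y σ) B)ˣ) : Prop
  | off (a b : Nx m Y σ) (x : B) (hab : a ≠ b) (hx : InI u b x)
      (hM : M.1 = 1 + Matrix.single a b x)
  | diag (i : FJ m) (x : B)
      (hM : M.1 = 1 + Matrix.single (Sum.inl (Sum.inl i)) (Sum.inl (Sum.inl i))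
        (NB u i * x * (u (gen m i.1) - 1)))

/-- the group generated by the elementary matrices -/
def EE (Y σ : Type) [Fintype Y] [DecidableEq Y] [Fintype σ] [DecidableEq σ] :
    Subgroup (Matrix (Nx m Y σ) (Nx m Y σ) B)ˣ :=
  Subgroup.closure {M | IsEl u M}

end gen

section pgr

variable {p : ℕ} [Fact p.Prime] (𝔓 : PGR p (Gp m))

/-- the finite subgroup of a vertex type as a set -/
def HS (m : J → ℕ) (t : Option J) : Set (Gp m) := (HT m t : Set (Gp m))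

/-- diagonal matrices with entries `d_i` in the units of `ℚ_p[C_i]` with `N_i d_i = N_i`, entries `1` on
`Y` and scalars on `σ` -/
def IsD (M : (Matrix (Nx m Y σ) (Nx m Y σ) 𝔓.B)ˣ) : Prop :=
  ∃ D D' : Nx m Y σ → 𝔓.B, M.1 = Matrix.diagonal D ∧ M⁻¹.1 = Matrix.diagonal D' ∧
    (∀ i : FJ m, 𝔓.SuppIn (HS m (some i.1)) (D (Sum.inl (Sum.inl i))) ∧
      𝔓.SuppIn (HS m (some i.1)) (D' (Sum.inl (Sum.inl i))) ∧
      NB 𝔓.u i * D (Sum.inl (Sum.inl i)) = NB 𝔓.u i) ∧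
    (∀ y : Y, D (Sum.inl (Sum.inr y)) = 1) ∧
    ∀ c : σ, ∃ a : ℚ_[p], D (Sum.inr c) = 𝔓.sc a

/-- the group of these matrices -/
def DD (Y σ : Type) [Fintype Y] [DecidableEq Y] [Fintype σ] [DecidableEq σ] :
    Subgroup (Matrix (Nx m Y σ) (Nx m Y σ) 𝔓.B)ˣ :=
  Subgroup.closure {M | IsD 𝔓 M}

/-- integral matrices with integral inverse -/
def IntU {n : Type} [Fintype n] [DecidableEq n] (M : (Matrix n n 𝔓.B)ˣ) : Prop :=
  (∀ i j, 𝔓.In (M.1 i j)) ∧ ∀ i j, 𝔓.In (M⁻¹.1 i j)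

/-- integral diagonal matrices commuting with `DD` modulo `EE` -/
def IsU (M : (Matrix (Nx m Y σ) (Nx m Y σ) 𝔓.B)ˣ) : Prop :=
  IntU 𝔓 M ∧ M ∈ SS 𝔓.u Y σ ∧ (∃ D : Nx m Y σ → 𝔓.B, M.1 = Matrix.diagonal D) ∧
    ∀ D ∈ DD 𝔓 Y σ, M⁻¹ * D * M * D⁻¹ ∈ EE 𝔓.u Y σ

/-- the group generated by all these matrices -/
def NN (Y σ : Type) [Fintype Y] [DecidableEq Y] [Fintype σ] [DecidableEq σ] :
    Subgroup (Matrix (Nx m Y σ) (Nx m Y σ) 𝔓.B)ˣ :=
  Subgroup.closure ({M | IsU 𝔓 M} ∪ (DD 𝔓 Y σ : Set _) ∪ (EE 𝔓.u Y σ : Set _))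

/-- the block of rows and columns of type `t`, given a distribution `S` of the free slots -/
def blk (S : σ → Option J) : Nx m Y σ → Option J
  | Sum.inl (Sum.inl i) => some i.1
  | Sum.inl (Sum.inr _) => none
  | Sum.inr c => S c

/-- a row vector in `W_t`: supported in the block `t`, coefficients in `HT t`, and in the kernel of `Ψ` -/
def RowW (S : σ → Option J) (t : Option J) (v : Nx m Y σ → 𝔓.B) : Prop :=
  (∀ b, blk S b ≠ t → v b = 0) ∧ (∀ b, 𝔓.SuppIn (HS m t) (v b)) ∧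
    (∀ i : FJ m, v (Sum.inl (Sum.inl i)) * NB 𝔓.u i = 0) ∧ ∀ y : Y, v (Sum.inl (Sum.inr y)) = 0

/-- a column vector dual to `W_t` -/
def ColW (S : σ → Option J) (t : Option J) (w : Nx m Y σ → 𝔓.B) : Prop :=
  (∀ b, blk S b ≠ t → w b = 0) ∧ (∀ b, 𝔓.SuppIn (HS m t) (w b)) ∧
    (∀ i : FJ m, NB 𝔓.u i * w (Sum.inl (Sum.inl i)) = 0) ∧ ∀ y : Y, w (Sum.inl (Sum.inr y)) = 0

/-- invertible matrices acting on `W_t` only: `g ∈ SS`, equal to `1` outside the block `t`, entries with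
coefficients in `HT t`, and fixing the `N_i e_i` -/
def BM (S : σ → Option J) (t : Option J) (g : (Matrix (Nx m Y σ) (Nx m Y σ) 𝔓.B)ˣ) : Prop :=
  g ∈ SS 𝔓.u Y σ ∧ (∀ a b, (blk S a ≠ t ∨ blk S b ≠ t) → g.1 a b = if a = b then 1 else 0) ∧
    (∀ a b, 𝔓.SuppIn (HS m t) (g.1 a b)) ∧
    (∀ (i : FJ m) (b : Nx m Y σ), NB 𝔓.u i * g.1 (Sum.inl (Sum.inl i)) b =
      if b = Sum.inl (Sum.inl i) then NB 𝔓.u i else 0) ∧
    ∀ (y : Y) (b : Nx m Y σ), g.1 (Sum.inl (Sum.inr y)) b = if b = Sum.inl (Sum.inr y) then 1 else 0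

end pgr

/-- the hypothesis of the main theorem in terms of the data: no infinite factor, or at least one free
slot, or all finite orders equal to two -/
def Hyp (m : J → ℕ) (σ : Type) : Prop :=
  (∀ j, m j ≠ 0) ∨ Nonempty σ ∨ ∀ j, m j = 0 ∨ m j = 2

end FP
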