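import Pool.Agent.Lib.MP_2d4659_gt.FP.D1
import Pool.Agent.Lib.MP_2d4659_gt.FP.EDefs

/-!
# Norm elements and annihilators

Right annihilators: let `T` be a transversal of the left cosets `g HJ i` (`g ∈ T`), `a` the generator; for
`x` put `r_c = rs T (x a^(-c))`, `c < m i`; then `x = ∑ r_c a^c`, `x N = (∑ r_c) N`, so `x N = 0` gives
`∑ r_c = 0` and `x = ∑ r_c (a^c - 1) = (∑ r_c (1 + ... + a^(c-1))) (a - 1)`, and everything is integral
if `x` is.
-/

set_option autoImplicit false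

namespace FP

variable {J : Type} [DecidableEq J] [Fintype J] {m : J → ℕ} {Y σ : Type} [Fintype Y] [DecidableEq Y]
  [Fintype σ] [DecidableEq σ]

section gen

variable {B : Type} [Ring B] (u : Gp m →* B)

lemma E1_u_gen_pow (i : FJ m) (c : ℕ) : u (gen m i.1) ^ c = u (gen m i.1 ^ c) := (map_pow u _ c).symm

lemma E1_u_gen_card (i : FJ m) : u (gen m i.1) ^ m i.1 = 1 := by
  rw [E1_u_gen_pow, gen_pow_card, map_one]

lemma NB_mul_gen (i : FJ m) : NB u i * u (gen m i.1) = NB u i := by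
  unfold NB
  rw [Finset.sum_mul]
  have h1 := Finset.sum_range_succ' (fun c => u (gen m i.1) ^ c) (m i.1)
  have h2 := Finset.sum_range_succ (fun c => u (gen m i.1) ^ c) (m i.1)
  rw [h2, E1_u_gen_card, pow_zero] at h1
  have h3 := add_right_cancel h1
  rw [h3]
  exact Finset.sum_congr rfl fun c _ => (pow_succ _ _).symm

lemma gen_mul_NB (i : FJ m) : u (gen m i.1) * NB u i = NB u i := by
  unfold NB
  rw [Finset.mul_sum]
  have h1 := Finset.sum_range_succ' (fun c => u (gen m i.1) ^ c) (m i.1)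
  have h2 := Finset.sum_range_succ (fun c => u (gen m i.1) ^ c) (m i.1)
  rw [h2, E1_u_gen_card, pow_zero] at h1
  have h3 := add_right_cancel h1
  rw [h3]
  exact Finset.sum_congr rfl fun c _ => (pow_succ' _ _).symm

lemma E1_NB_mul_pow (i : FJ m) (c : ℕ) : NB u i * u (gen m i.1) ^ c = NB u i := by
  induction c with
  | zero => rw [pow_zero, mul_one]
  | succ c ih => rw [pow_succ, ← mul_assoc, ih, NB_mul_gen]

lemma E1_pow_mul_NB (i : FJ m) (c : ℕ) : u (gen m i.1) ^ c * NB u i = NB u i := by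
  induction c with
  | zero => rw [pow_zero, one_mul]
  | succ c ih => rw [pow_succ, mul_assoc, gen_mul_NB, ih]

lemma NB_mul_mem (i : FJ m) {h : Gp m} (hh : h ∈ HT m (some i.1)) : NB u i * u h = NB u i := by
  obtain ⟨c, -, rfl⟩ := (mem_HT_some i.2 h).1 hh
  rw [map_pow, E1_NB_mul_pow]

lemma mem_mul_NB (i : FJ m) {h : Gp m} (hh : h ∈ HT m (some i.1)) : u h * NB u i = NB u i := by
  obtain ⟨c, -, rfl⟩ := (mem_HT_some i.2 h).1 hh
  rw [map_pow, E1_pow_mul_NB]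

lemma NB_sq (i : FJ m) : NB u i * NB u i = (m i.1 : B) * NB u i := by
  conv_lhs => rw [show NB u i * NB u i = NB u i * ∑ c ∈ Finset.range (m i.1), u (gen m i.1) ^ c from rfl]
  rw [Finset.mul_sum, Finset.sum_congr rfl fun c _ => E1_NB_mul_pow u i c, Finset.sum_const,
    Finset.card_range, nsmul_eq_mul]

/-- `u h - 1` is in the left ideal of `u gen - 1` -/
lemma sub_one_mem (i : FJ m) {h : Gp m} (hh : h ∈ HT m (some i.1)) :
    ∃ y, u h - 1 = y * (u (gen m i.1) - 1) := by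
  obtain ⟨c, -, rfl⟩ := (mem_HT_some i.2 h).1 hh
  exact ⟨_, by rw [map_pow]; exact (geom_sum_mul _ c).symm⟩

lemma InI.add {b : Nx m Y σ} {x y : B} (hx : InI u b x) (hy : InI u b y) : InI u b (x + y) := by
  rcases b with (i | y') | c
  · obtain ⟨s, rfl⟩ := hx
    obtain ⟨t, rfl⟩ := hy
    exact ⟨s + t, (add_mul _ _ _).symm⟩
  · have hx' : x = 0 := hx
    have hy' : y = 0 := hy
    change x + y = 0
    rw [hx', hy', add_zero]
  · trivial

lemma InI.neg {b : Nx m Y σ} {x : B} (hx : InI u b x) : InI u b (-x) := by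
  rcases b with (i | y') | c
  · obtain ⟨s, rfl⟩ := hx
    exact ⟨-s, (neg_mul _ _).symm⟩
  · have hx' : x = 0 := hx
    change -x = 0
    rw [hx', neg_zero]
  · trivial

lemma InI.zero {b : Nx m Y σ} : InI u b (0 : B) := by
  rcases b with (i | y') | c
  · exact ⟨0, (zero_mul _).symm⟩
  · exact rfl
  · trivial

lemma InI.mul_left {b : Nx m Y σ} {x : B} (y : B) (hx : InI u b x) : InI u b (y * x) := by
  rcases b with (i | y') | c
  · obtain ⟨s, rfl⟩ := hx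
    exact ⟨y * s, (mul_assoc _ _ _).symm⟩
  · have hx' : x = 0 := hx
    change y * x = 0
    rw [hx', mul_zero]
  · trivial

lemma InI.sum {ι : Type} {b : Nx m Y σ} (s : Finset ι) (x : ι → B) (hx : ∀ i ∈ s, InI u b (x i)) :
    InI u b (∑ i ∈ s, x i) := by
  classical
  induction s using Finset.induction_on with
  | empty => rw [Finset.sum_empty]; exact InI.zero u
  | insert a s ha ih =>
    rw [Finset.sum_insert ha]
    exact InI.add u (hx a (Finset.mem_insert_self _ _))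
      (ih fun i hi => hx i (Finset.mem_insert_of_mem hi))

lemma E1_sub_mul_NB (i : FJ m) : (u (gen m i.1) - 1) * NB u i = 0 := by
  rw [sub_mul, gen_mul_NB, one_mul, sub_self]

lemma E1_NB_mul_sub (i : FJ m) : NB u i * (u (gen m i.1) - 1) = 0 := by
  rw [mul_sub, NB_mul_gen, mul_one, sub_self]

lemma InI.mul_NB {i : FJ m} {x : B} (hx : InI u (Sum.inl (Sum.inl i) : Nx m Y σ) x) :
    x * NB u i = 0 := by
  obtain ⟨y, rfl⟩ := hx
  rw [mul_assoc, E1_sub_mul_NB, mul_zero]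

lemma E1_single_mul_psi (a b : Nx m Y σ) (x : B)
    (h1 : ∀ i : FJ m, b = Sum.inl (Sum.inl i) → x * NB u i = 0)
    (h2 : ∀ y : Y, b = Sum.inl (Sum.inr y) → x = 0) :
    Matrix.single a b x * psi u Y σ = 0 := by
  ext r c
  rw [Matrix.zero_apply]
  by_cases hr : r = a
  · subst hr
    rw [Matrix.single_mul_apply_same]
    rcases b with (i | y) | s
    · change x * (if (Sum.inl i : Co m Y) = c then dg u Y c else 0) = 0
      split_ifs with hc
      · subst hc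
        exact h1 i rfl
      · exact mul_zero _
    · rw [h2 y rfl, zero_mul]
    · change x * 0 = 0
      exact mul_zero _
  · rw [Matrix.single_mul_apply_of_ne _ _ _ _ _ hr]

lemma EE_le_SS : EE u Y σ ≤ SS u Y σ := by
  unfold EE
  rw [Subgroup.closure_le]
  intro M hM
  change M.1 * psi u Y σ = psi u Y σ
  rcases hM with ⟨a, b, x, hab, hx, hM⟩ | ⟨i, x, hM⟩
  · rw [hM, Matrix.add_mul, Matrix.one_mul, E1_single_mul_psi, add_zero]
    · rintro i rfl
      exact InI.mul_NB u hx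
    · rintro y rfl
      exact hx
  · rw [hM, Matrix.add_mul, Matrix.one_mul, E1_single_mul_psi, add_zero]
    · intro i' hi'
      have : i = i' := Sum.inl.inj (Sum.inl.inj hi')
      subst this
      rw [mul_assoc, E1_sub_mul_NB, mul_zero]
    · intro y hy
      exact absurd (Sum.inl.inj hy) (by simp)

lemma E1_mul_psi (h : Matrix (Nx m Y σ) (Nx m Y σ) B) (a : Nx m Y σ) (c : Co m Y) :
    (h * psi u Y σ) a c = h a (Sum.inl c) * dg u Y c := by
  rw [Matrix.mul_apply, Finset.sum_eq_single (Sum.inl c : Nx m Y σ)]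
  · change _ * (if c = c then dg u Y c else 0) = _
    rw [if_pos rfl]
  · rintro (r | s) _ hr
    · change _ * (if r = c then dg u Y c else 0) = _
      rw [if_neg (fun h => hr (by rw [h])), mul_zero]
    · change _ * (0 : B) = 0
      exact mul_zero _
  · intro hn
    exact absurd (Finset.mem_univ _) hn

lemma mem_SS_iff (h : (Matrix (Nx m Y σ) (Nx m Y σ) B)ˣ) : h ∈ SS u Y σ ↔
    (∀ a (i : FJ m), h.1 a (Sum.inl (Sum.inl i)) * NB u i =
      if a = Sum.inl (Sum.inl i) then NB u i else 0) ∧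
    ∀ a (y : Y), h.1 a (Sum.inl (Sum.inr y)) = if a = Sum.inl (Sum.inr y) then 1 else 0 := by
  have hpsi : ∀ (a : Nx m Y σ) (c : Co m Y), psi u Y σ a c = if a = Sum.inl c then dg u Y c else 0 := by
    rintro (r | s) c
    · change (if r = c then dg u Y c else 0) = _
      by_cases hc : r = c
      · rw [if_pos hc, if_pos (by rw [hc])]
      · rw [if_neg hc, if_neg (fun h => hc (Sum.inl.inj h))]
    · rw [if_neg (by simp)]
      rfl
  have key : h ∈ SS u Y σ ↔ ∀ (a : Nx m Y σ) (c : Co m Y),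
      h.1 a (Sum.inl c) * dg u Y c = if a = Sum.inl c then dg u Y c else 0 := by
    change h.1 * psi u Y σ = psi u Y σ ↔ _
    constructor
    · intro hh a c
      rw [← E1_mul_psi, hh, hpsi]
    · intro hh
      ext a c
      rw [E1_mul_psi, hh, hpsi]
  rw [key]
  constructor
  · intro hh
    refine ⟨fun a i => hh a (Sum.inl i), fun a y => ?_⟩
    have := hh a (Sum.inr y)
    change _ * (1 : B) = if _ then (1 : B) else 0 at this
    rw [mul_one] at this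
    exact this
  · rintro ⟨h1, h2⟩ a (i | y)
    · exact h1 a i
    · change _ * (1 : B) = if _ then (1 : B) else 0
      rw [mul_one]
      exact h2 a y

end gen

section pgr

variable {p : ℕ} [Fact p.Prime] (𝔓 : PGR p (Gp m))

lemma E1_cf_u (h g : Gp m) [Decidable (h = g)] : 𝔓.cf g (𝔓.u h) = if h = g then 1 else 0 := by
  have h1 : 𝔓.u h = 𝔓.emb (MonoidAlgebra.of ℚ_[p] (Gp m) h) := rfl
  rw [h1, 𝔓.cf_emb]
  classical
  rw [MonoidAlgebra.of_apply]
  simp [MonoidAlgebra.coeff_single, Finsupp.single_apply]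

lemma u_supp {t : Option J} {h : Gp m} (hh : h ∈ HT m t) : 𝔓.SuppIn (HS m t) (𝔓.u h) := by
  intro g hg
  classical
  rw [E1_cf_u, if_neg]
  rintro rfl
  exact hg hh

lemma E1_gen_mem (i : FJ m) (c : ℕ) : gen m i.1 ^ c ∈ HT m (some i.1) := by
  have h1 : gen m i.1 ∈ HT m (some i.1) := by
    by_cases hm : m i.1 = 1
    · rw [mem_HT_some i.2]
      refine ⟨0, Nat.pos_of_ne_zero i.2, ?_⟩
      have := gen_pow_card (m := m) i.1
      rw [hm, pow_one] at this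
      rw [this, pow_zero]
    · rw [mem_HT_some i.2]
      have := i.2
      exact ⟨1, by omega, (pow_one _).symm⟩
  exact pow_mem h1 c

lemma E1_SuppIn_sum {ι : Type} {S : Set (Gp m)} (s : Finset ι) (x : ι → 𝔓.B)
    (hx : ∀ i ∈ s, 𝔓.SuppIn S (x i)) : 𝔓.SuppIn S (∑ i ∈ s, x i) := by
  intro g hg
  rw [map_sum]
  exact Finset.sum_eq_zero fun i hi => hx i hi g hg

lemma NB_supp (i : FJ m) : 𝔓.SuppIn (HS m (some i.1)) (NB 𝔓.u i) := by
  unfold NB
  apply E1_SuppIn_sum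
  intro c _
  rw [← map_pow]
  exact u_supp 𝔓 (E1_gen_mem i c)

lemma NB_In (i : FJ m) : 𝔓.In (NB 𝔓.u i) := by
  unfold NB
  apply PGR.Le.sum 𝔓 zero_le_one
  intro c _
  rw [← map_pow]
  exact 𝔓.In_u _

/-- an element supported in a stabiliser is a combination of group elements -/
lemma E1_expand {t : Option J} {b : 𝔓.B} (hb : 𝔓.SuppIn (HS m t) b) (s : Finset (Gp m))
    (hs : ∀ g, g ∈ s ↔ g ∈ HT m t) : b = ∑ h ∈ s, 𝔓.sc (𝔓.cf h b) * 𝔓.u h := by
  classical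
  apply PGR.ext 𝔓
  intro g
  rw [map_sum]
  simp only [𝔓.cf_sc_mul, E1_cf_u, mul_ite, mul_one, mul_zero]
  rw [Finset.sum_ite_eq']
  split_ifs with hg
  · rfl
  · exact hb g fun h => hg ((hs g).2 h)

/-- elements with coefficients in the same finite subgroup commute -/
lemma supp_comm {t : Option J} {a b : 𝔓.B} (ha : 𝔓.SuppIn (HS m t) a)
    (hb : 𝔓.SuppIn (HS m t) b) : a * b = b * a := by
  classical
  have hfin : Finite (HT m t) := HT_finite t
  have hf : (HT m t : Set (Gp m)).Finite := hfin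
  have hs : ∀ g, g ∈ hf.toFinset ↔ g ∈ HT m t := fun g => by
    rw [Set.Finite.mem_toFinset]; rfl
  have h1 : Commute a b := by
    rw [E1_expand 𝔓 ha hf.toFinset hs]
    apply Commute.sum_left
    intro h hh
    rw [E1_expand 𝔓 hb hf.toFinset hs]
    apply Commute.sum_right
    intro h' hh'
    apply Commute.mul_left
    · exact 𝔓.sc_comm _ _
    · apply Commute.mul_right
      · exact (𝔓.sc_comm _ _).symm
      · change 𝔓.u h * 𝔓.u h' = 𝔓.u h' * 𝔓.u h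
        rw [← map_mul, ← map_mul, HT_comm t h h' ((hs _).1 hh) ((hs _).1 hh')]
  exact h1

lemma E1_cf_sc_mul_NB_one (i : FJ m) (a : ℚ_[p]) : 𝔓.cf 1 (𝔓.sc a * NB 𝔓.u i) = a := by
  classical
  rw [𝔓.cf_sc_mul]
  unfold NB
  rw [map_sum, Finset.sum_eq_single 0]
  · rw [pow_zero, ← map_one 𝔓.u, E1_cf_u, if_pos rfl, mul_one]
  · intro c hc hc0
    rw [← map_pow, E1_cf_u, if_neg]
    intro h
    exact hc0 (gen_pow_inj i.2 (Finset.mem_range.1 hc) (Nat.pos_of_ne_zero i.2)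
      (by rw [h, pow_zero]))
  · intro h
    exact absurd (Finset.mem_range.2 (Nat.pos_of_ne_zero i.2)) h

/-- for `x` supported in `HJ i` the product with the norm element is a scalar multiple of it -/
lemma NB_mul_supp (i : FJ m) {x : 𝔓.B} (hx : 𝔓.SuppIn (HS m (some i.1)) x) :
    ∃ a : ℚ_[p], NB 𝔓.u i * x = 𝔓.sc a * NB 𝔓.u i ∧ x * NB 𝔓.u i = 𝔓.sc a * NB 𝔓.u i ∧
      (𝔓.In x → ‖a‖ ≤ 1) := by
  classical
  have hfin : Finite (HT m (some i.1)) := HT_finite _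
  have hf : (HT m (some i.1) : Set (Gp m)).Finite := hfin
  have hs : ∀ g, g ∈ hf.toFinset ↔ g ∈ HT m (some i.1) := fun g => by
    rw [Set.Finite.mem_toFinset]; rfl
  have h1 : NB 𝔓.u i * x = 𝔓.sc (∑ h ∈ hf.toFinset, 𝔓.cf h x) * NB 𝔓.u i := by
    conv_lhs => rw [E1_expand 𝔓 hx hf.toFinset hs]
    rw [Finset.mul_sum, map_sum, Finset.sum_mul]
    refine Finset.sum_congr rfl fun h hh => ?_
    rw [← mul_assoc, ← 𝔓.sc_comm, mul_assoc, NB_mul_mem 𝔓.u i ((hs h).1 hh)]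
  have h2 : x * NB 𝔓.u i = 𝔓.sc (∑ h ∈ hf.toFinset, 𝔓.cf h x) * NB 𝔓.u i := by
    rw [supp_comm 𝔓 hx (NB_supp 𝔓 i), h1]
  refine ⟨_, h1, h2, fun hI => ?_⟩
  have h3 := PGR.In.mul 𝔓 (NB_In 𝔓 i) hI 1
  rw [h1, E1_cf_sc_mul_NB_one] at h3
  exact h3

/-- a transversal -/
def E1T (i : FJ m) : Set (Gp m) :=
  {g | (QuotientGroup.mk g : Gp m ⧸ HT m (some i.1)).out = g}

lemma E1_exists (i : FJ m) (g : Gp m) : ∃ c < m i.1, g * (gen m i.1 ^ c)⁻¹ ∈ E1T i := by
  set t : Gp m := (QuotientGroup.mk g : Gp m ⧸ HT m (some i.1)).out with ht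
  have h1 : (QuotientGroup.mk t : Gp m ⧸ HT m (some i.1)) = QuotientGroup.mk g := by
    rw [ht]; exact Quotient.out_eq' _
  have h2 : t⁻¹ * g ∈ HT m (some i.1) := QuotientGroup.eq.1 h1
  obtain ⟨c, hc, hc'⟩ := (mem_HT_some i.2 _).1 h2
  refine ⟨c, hc, ?_⟩
  have h3 : g * (gen m i.1 ^ c)⁻¹ = t := by
    rw [← hc', mul_inv_rev, inv_inv, mul_inv_cancel_left]
  rw [h3]
  change (QuotientGroup.mk t : Gp m ⧸ HT m (some i.1)).out = t
  rw [h1]

lemma E1_unique (i : FJ m) {g : Gp m} (hg : g ∈ E1T i) {c : ℕ} (hc : c < m i.1)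
    (h : g * (gen m i.1 ^ c)⁻¹ ∈ E1T i) : c = 0 := by
  have h1 : (QuotientGroup.mk (g * (gen m i.1 ^ c)⁻¹) : Gp m ⧸ HT m (some i.1)) =
      QuotientGroup.mk g := by
    rw [QuotientGroup.eq]
    rw [mul_inv_rev, inv_inv, mul_assoc, inv_mul_cancel, mul_one]
    exact E1_gen_mem i c
  have h2 : (QuotientGroup.mk (g * (gen m i.1 ^ c)⁻¹) : Gp m ⧸ HT m (some i.1)).out =
      g * (gen m i.1 ^ c)⁻¹ := h
  rw [h1] at h2
  have h3 : (QuotientGroup.mk g : Gp m ⧸ HT m (some i.1)).out = g := hg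
  rw [h3] at h2
  have h4 : gen m i.1 ^ c = gen m i.1 ^ 0 := by
    rw [pow_zero]
    have : g * (gen m i.1 ^ c)⁻¹ = g * 1 := by rw [← h2, mul_one]
    exact inv_eq_one.1 (mul_left_cancel this)
  exact gen_pow_inj i.2 hc (Nat.pos_of_ne_zero i.2) h4

lemma E1_unique' (i : FJ m) {g : Gp m} {c c' : ℕ} (hc : c < m i.1) (hc' : c' < m i.1)
    (h : g * (gen m i.1 ^ c)⁻¹ ∈ E1T i) (h' : g * (gen m i.1 ^ c')⁻¹ ∈ E1T i) : c = c' := by
  have h1 : (QuotientGroup.mk (g * (gen m i.1 ^ c)⁻¹) : Gp m ⧸ HT m (some i.1)) =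
      QuotientGroup.mk g := by
    rw [QuotientGroup.eq]
    rw [mul_inv_rev, inv_inv, mul_assoc, inv_mul_cancel, mul_one]
    exact E1_gen_mem i c
  have h1' : (QuotientGroup.mk (g * (gen m i.1 ^ c')⁻¹) : Gp m ⧸ HT m (some i.1)) =
      QuotientGroup.mk g := by
    rw [QuotientGroup.eq]
    rw [mul_inv_rev, inv_inv, mul_assoc, inv_mul_cancel, mul_one]
    exact E1_gen_mem i c'
  have h2 : (QuotientGroup.mk (g * (gen m i.1 ^ c)⁻¹) : Gp m ⧸ HT m (some i.1)).out =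
      g * (gen m i.1 ^ c)⁻¹ := h
  have h2' : (QuotientGroup.mk (g * (gen m i.1 ^ c')⁻¹) : Gp m ⧸ HT m (some i.1)).out =
      g * (gen m i.1 ^ c')⁻¹ := h'
  rw [h1] at h2
  rw [h1', h2] at h2'
  exact gen_pow_inj i.2 hc hc' (inv_injective (mul_left_cancel h2'))

/-- the sum over the powers of the generator of the coefficients at the transversal -/
lemma E1_sum_T (i : FJ m) (g : Gp m) (φ : ℕ → ℚ_[p]) (z : ℚ_[p])
    (h1 : ∀ c < m i.1, g * (gen m i.1 ^ c)⁻¹ ∈ E1T i → φ c = z)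
    (h2 : ∀ c < m i.1, g * (gen m i.1 ^ c)⁻¹ ∉ E1T i → φ c = 0) :
    ∑ c ∈ Finset.range (m i.1), φ c = z := by
  obtain ⟨c, hc, hcT⟩ := E1_exists i g
  rw [Finset.sum_eq_single c]
  · exact h1 c hc hcT
  · intro c' hc' hne
    apply h2 c' (Finset.mem_range.1 hc')
    intro hT
    exact hne (E1_unique' i (Finset.mem_range.1 hc') hc hT hcT)
  · intro h
    exact absurd (Finset.mem_range.2 hc) h

theorem E1_ann_right (i : FJ m) {x : 𝔓.B} (h : x * NB 𝔓.u i = 0) :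
    ∃ y, x = y * (𝔓.u (gen m i.1) - 1) ∧ (𝔓.In x → 𝔓.In y) := by
  set r : ℕ → 𝔓.B := fun c => 𝔓.rs (E1T i) (x * 𝔓.u (gen m i.1 ^ c)⁻¹) with hr
  have hx : x = ∑ c ∈ Finset.range (m i.1), r c * 𝔓.u (gen m i.1) ^ c := by
    apply PGR.ext 𝔓
    intro g
    rw [map_sum]
    symm
    apply E1_sum_T i g
    · intro c hc hT
      rw [← map_pow, 𝔓.cf_mul_u, hr]
      change 𝔓.cf _ (𝔓.rs _ _) = _
      rw [𝔓.cf_rs_mem _ _ _ hT, 𝔓.cf_mul_u, inv_inv, inv_mul_cancel_right]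
    · intro c hc hT
      rw [← map_pow, 𝔓.cf_mul_u, hr]
      change 𝔓.cf _ (𝔓.rs _ _) = _
      rw [𝔓.cf_rs_notMem _ _ _ hT]
  have hR : ∑ c ∈ Finset.range (m i.1), r c = 0 := by
    set R := ∑ c ∈ Finset.range (m i.1), r c with hRdef
    have hRs : 𝔓.SuppIn (E1T i) R := E1_SuppIn_sum 𝔓 _ _ fun c _ => 𝔓.rs_supp _ _
    have hRN : R * NB 𝔓.u i = 0 := by
      rw [← h]
      conv_rhs => rw [hx]
      rw [hRdef, Finset.sum_mul, Finset.sum_mul]
      exact Finset.sum_congr rfl fun c _ => by rw [mul_assoc, E1_pow_mul_NB]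
    apply 𝔓.cf_inj
    intro g
    by_cases hg : g ∈ E1T i
    · have h3 : 𝔓.cf g (R * NB 𝔓.u i) = 𝔓.cf g R := by
        unfold NB
        rw [Finset.mul_sum, map_sum]
        apply E1_sum_T i g
        · intro c hc hT
          have := E1_unique i hg hc hT
          subst this
          rw [pow_zero, mul_one]
        · intro c hc hT
          rw [← map_pow, 𝔓.cf_mul_u]
          exact hRs _ hT
      rw [← h3, hRN, map_zero]
    · exact hRs g hg
  refine ⟨∑ c ∈ Finset.range (m i.1), r c * ∑ j ∈ Finset.range c, 𝔓.u (gen m i.1) ^ j, ?_, ?_⟩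
  · rw [Finset.sum_mul]
    conv_lhs => rw [hx]
    have h4 : ∀ c ∈ Finset.range (m i.1),
        r c * (∑ j ∈ Finset.range c, 𝔓.u (gen m i.1) ^ j) * (𝔓.u (gen m i.1) - 1) =
        r c * 𝔓.u (gen m i.1) ^ c - r c := by
      intro c _
      rw [mul_assoc, geom_sum_mul, mul_sub, mul_one]
    rw [Finset.sum_congr rfl h4, Finset.sum_sub_distrib, hR, sub_zero]
  · intro hI
    apply PGR.Le.sum 𝔓 zero_le_one
    intro c _
    apply PGR.In.mul 𝔓
    · exact 𝔓.rs_Le zero_le_one _ (PGR.In.mul 𝔓 hI (𝔓.In_u _))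
    · apply PGR.Le.sum 𝔓 zero_le_one
      intro j _
      rw [← map_pow]
      exact 𝔓.In_u _

theorem ann_right (i : FJ m) (x : 𝔓.B) :
    x * NB 𝔓.u i = 0 ↔ ∃ y, x = y * (𝔓.u (gen m i.1) - 1) := by
  constructor
  · intro h
    obtain ⟨y, hy, -⟩ := E1_ann_right 𝔓 i h
    exact ⟨y, hy⟩
  · rintro ⟨y, rfl⟩
    rw [mul_assoc, E1_sub_mul_NB, mul_zero]

theorem ann_right_int (i : FJ m) {x : 𝔓.B} (hx : 𝔓.In x) (h : x * NB 𝔓.u i = 0) :
    ∃ y, 𝔓.In y ∧ x = y * (𝔓.u (gen m i.1) - 1) := by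
  obtain ⟨y, hy, hI⟩ := E1_ann_right 𝔓 i h
  exact ⟨y, hI hx, hy⟩

/-- a transversal on the other side -/
def E1T' (i : FJ m) : Set (Gp m) := {g | g⁻¹ ∈ E1T i}

lemma E1_sum_T' (i : FJ m) (g : Gp m) (φ : ℕ → ℚ_[p]) (z : ℚ_[p])
    (h1 : ∀ c < m i.1, (gen m i.1 ^ c)⁻¹ * g ∈ E1T' i → φ c = z)
    (h2 : ∀ c < m i.1, (gen m i.1 ^ c)⁻¹ * g ∉ E1T' i → φ c = 0) :
    ∑ c ∈ Finset.range (m i.1), φ c = z := by
  -- the inverse of the generator runs through the same powers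
  have key : ∀ c < m i.1, ∃ c' < m i.1, gen m i.1 ^ c' = (gen m i.1 ^ c)⁻¹ := by
    intro c hc
    have h3 : (gen m i.1 ^ c)⁻¹ ∈ HT m (some i.1) := inv_mem (E1_gen_mem i c)
    obtain ⟨c', hc', h'⟩ := (mem_HT_some i.2 _).1 h3
    exact ⟨c', hc', h'.symm⟩
  obtain ⟨c, hc, hcT⟩ := E1_exists i g⁻¹
  obtain ⟨c', hc', h'⟩ := key c hc
  have hT' : (gen m i.1 ^ c')⁻¹ * g ∈ E1T' i := by
    change ((gen m i.1 ^ c')⁻¹ * g)⁻¹ ∈ E1T i
    rw [mul_inv_rev, inv_inv, h']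
    exact hcT
  rw [Finset.sum_eq_single c']
  · exact h1 c' hc' hT'
  · intro d hd hne
    apply h2 d (Finset.mem_range.1 hd)
    intro hT
    apply hne
    obtain ⟨d', hd', hd2⟩ := key d (Finset.mem_range.1 hd)
    have hT2 : g⁻¹ * (gen m i.1 ^ d')⁻¹ ∈ E1T i := by
      have : ((gen m i.1 ^ d)⁻¹ * g)⁻¹ ∈ E1T i := hT
      rw [← hd2, mul_inv_rev] at this
      exact this
    have h5 := E1_unique' i hd' hc hT2 hcT
    subst h5
    have h6 : gen m i.1 ^ d = gen m i.1 ^ c' := by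
      rw [h', hd2, inv_inv]
    exact gen_pow_inj i.2 (Finset.mem_range.1 hd) hc' h6
  · intro h
    exact absurd (Finset.mem_range.2 hc') h

lemma E1_unique'' (i : FJ m) {g : Gp m} (hg : g ∈ E1T' i) {c : ℕ} (hc : c < m i.1)
    (h : (gen m i.1 ^ c)⁻¹ * g ∈ E1T' i) : c = 0 := by
  have h3 : (gen m i.1 ^ c)⁻¹ ∈ HT m (some i.1) := inv_mem (E1_gen_mem i c)
  obtain ⟨c', hc', h'⟩ := (mem_HT_some i.2 _).1 h3
  have hT : g⁻¹ * (gen m i.1 ^ c')⁻¹ ∈ E1T i := by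
    have : ((gen m i.1 ^ c)⁻¹ * g)⁻¹ ∈ E1T i := h
    rw [h', mul_inv_rev] at this
    exact this
  have h5 := E1_unique i (g := g⁻¹) hg hc' hT
  subst h5
  rw [pow_zero, inv_eq_one] at h'
  exact gen_pow_inj i.2 hc (Nat.pos_of_ne_zero i.2) (by rw [h', pow_zero])

theorem E1_ann_left (i : FJ m) {x : 𝔓.B} (h : NB 𝔓.u i * x = 0) :
    ∃ y, x = (𝔓.u (gen m i.1) - 1) * y ∧ (𝔓.In x → 𝔓.In y) := by
  set r : ℕ → 𝔓.B := fun c => 𝔓.rs (E1T' i) (𝔓.u (gen m i.1 ^ c)⁻¹ * x) with hr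
  have hx : x = ∑ c ∈ Finset.range (m i.1), 𝔓.u (gen m i.1) ^ c * r c := by
    apply PGR.ext 𝔓
    intro g
    rw [map_sum]
    symm
    apply E1_sum_T' i g
    · intro c hc hT
      rw [← map_pow, 𝔓.cf_u_mul, hr]
      change 𝔓.cf _ (𝔓.rs _ _) = _
      rw [𝔓.cf_rs_mem _ _ _ hT, 𝔓.cf_u_mul, inv_inv, mul_inv_cancel_left]
    · intro c hc hT
      rw [← map_pow, 𝔓.cf_u_mul, hr]
      change 𝔓.cf _ (𝔓.rs _ _) = _
      rw [𝔓.cf_rs_notMem _ _ _ hT]
  have hR : ∑ c ∈ Finset.range (m i.1), r c = 0 := by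
    set R := ∑ c ∈ Finset.range (m i.1), r c with hRdef
    have hRs : 𝔓.SuppIn (E1T' i) R := E1_SuppIn_sum 𝔓 _ _ fun c _ => 𝔓.rs_supp _ _
    have hRN : NB 𝔓.u i * R = 0 := by
      rw [← h]
      conv_rhs => rw [hx]
      rw [hRdef, Finset.mul_sum, Finset.mul_sum]
      exact Finset.sum_congr rfl fun c _ => by rw [← mul_assoc, E1_NB_mul_pow]
    apply 𝔓.cf_inj
    intro g
    by_cases hg : g ∈ E1T' i
    · have h3 : 𝔓.cf g (NB 𝔓.u i * R) = 𝔓.cf g R := by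
        unfold NB
        rw [Finset.sum_mul, map_sum]
        apply E1_sum_T' i g
        · intro c hc hT
          have := E1_unique'' i hg hc hT
          subst this
          rw [pow_zero, one_mul]
        · intro c hc hT
          rw [← map_pow, 𝔓.cf_u_mul]
          exact hRs _ hT
      rw [← h3, hRN, map_zero]
    · exact hRs g hg
  refine ⟨∑ c ∈ Finset.range (m i.1), (∑ j ∈ Finset.range c, 𝔓.u (gen m i.1) ^ j) * r c, ?_, ?_⟩
  · rw [Finset.mul_sum]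
    conv_lhs => rw [hx]
    have h4 : ∀ c ∈ Finset.range (m i.1),
        (𝔓.u (gen m i.1) - 1) * ((∑ j ∈ Finset.range c, 𝔓.u (gen m i.1) ^ j) * r c) =
        𝔓.u (gen m i.1) ^ c * r c - r c := by
      intro c _
      rw [← mul_assoc, mul_geom_sum, sub_mul, one_mul]
    rw [Finset.sum_congr rfl h4, Finset.sum_sub_distrib, hR, sub_zero]
  · intro hI
    apply PGR.Le.sum 𝔓 zero_le_one
    intro c _
    apply PGR.In.mul 𝔓
    · apply PGR.Le.sum 𝔓 zero_le_one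
      intro j _
      rw [← map_pow]
      exact 𝔓.In_u _
    · exact 𝔓.rs_Le zero_le_one _ (PGR.In.mul 𝔓 (𝔓.In_u _) hI)

theorem ann_left (i : FJ m) (x : 𝔓.B) :
    NB 𝔓.u i * x = 0 ↔ ∃ y, x = (𝔓.u (gen m i.1) - 1) * y := by
  constructor
  · intro h
    obtain ⟨y, hy, -⟩ := E1_ann_left 𝔓 i h
    exact ⟨y, hy⟩
  · rintro ⟨y, rfl⟩
    rw [← mul_assoc, E1_NB_mul_sub, zero_mul]

theorem ann_left_int (i : FJ m) {x : 𝔓.B} (hx : 𝔓.In x) (h : NB 𝔓.u i * x = 0) :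
    ∃ y, 𝔓.In y ∧ x = (𝔓.u (gen m i.1) - 1) * y := by
  obtain ⟨y, hy, hI⟩ := E1_ann_left 𝔓 i h
  exact ⟨y, hI hx, hy⟩

/-- `x (a - 1) = 0` -/
theorem ann_gen (i : FJ m) {x : 𝔓.B} (h : x * (𝔓.u (gen m i.1) - 1) = 0) :
    ∃ y, x = y * NB 𝔓.u i ∧ (𝔓.In x → 𝔓.In y) := by
  have h1 : ∀ c : ℕ, x * 𝔓.u (gen m i.1) ^ c = x := by
    have h0 : x * 𝔓.u (gen m i.1) = x := by
      rw [mul_sub, mul_one, sub_eq_zero] at h
      exact h
    intro c
    induction c with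
    | zero => rw [pow_zero, mul_one]
    | succ c ih => rw [pow_succ, ← mul_assoc, ih, h0]
  refine ⟨𝔓.rs (E1T i) x, ?_, fun hI => 𝔓.rs_Le zero_le_one _ hI⟩
  apply PGR.ext 𝔓
  intro g
  symm
  unfold NB
  rw [Finset.mul_sum, map_sum]
  apply E1_sum_T i g
  · intro c hc hT
    rw [← map_pow, 𝔓.cf_mul_u, 𝔓.cf_rs_mem _ _ _ hT, ← 𝔓.cf_mul_u, map_pow, h1]
  · intro c hc hT
    rw [← map_pow, 𝔓.cf_mul_u, 𝔓.cf_rs_notMem _ _ _ hT]

theorem ann_gen_left (i : FJ m) {x : 𝔓.B} (h : (𝔓.u (gen m i.1) - 1) * x = 0) :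
    ∃ y, x = NB 𝔓.u i * y ∧ (𝔓.In x → 𝔓.In y) := by
  have h1 : ∀ c : ℕ, 𝔓.u (gen m i.1) ^ c * x = x := by
    have h0 : 𝔓.u (gen m i.1) * x = x := by
      rw [sub_mul, one_mul, sub_eq_zero] at h
      exact h
    intro c
    induction c with
    | zero => rw [pow_zero, one_mul]
    | succ c ih => rw [pow_succ, mul_assoc, h0, ih]
  refine ⟨𝔓.rs (E1T' i) x, ?_, fun hI => 𝔓.rs_Le zero_le_one _ hI⟩
  apply PGR.ext 𝔓
  intro g
  symm
  unfold NB
  rw [Finset.sum_mul, map_sum]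
  apply E1_sum_T' i g
  · intro c hc hT
    rw [← map_pow, 𝔓.cf_u_mul, 𝔓.cf_rs_mem _ _ _ hT, ← 𝔓.cf_u_mul, map_pow, h1]
  · intro c hc hT
    rw [← map_pow, 𝔓.cf_u_mul, 𝔓.cf_rs_notMem _ _ _ hT]

/-- right multiplication by an element fixing `N_i` preserves the left ideal -/
lemma InI.mul_right {b : Nx m Y σ} {x d : 𝔓.B} (hx : InI 𝔓.u b x)
    (hd : ∀ i : FJ m, b = Sum.inl (Sum.inl i) → d * NB 𝔓.u i = NB 𝔓.u i) :
    InI 𝔓.u b (x * d) := by
  rcases b with (i | y') | c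
  · have h1 := InI.mul_NB 𝔓.u hx
    change ∃ y, x * d = y * (𝔓.u (gen m i.1) - 1)
    rw [← ann_right, mul_assoc, hd i rfl, h1]
  · have hx' : x = 0 := hx
    change x * d = 0
    rw [hx', zero_mul]
  · trivial

end pgr

end FP
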