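import Pool.Agent.Lib.MP_2d4659_gt.FP.E1

/-! # The group `DD` and conjugation -/

set_option autoImplicit false

namespace FP

variable {J : Type} [DecidableEq J] [Fintype J] {m : J → ℕ} {Y σ : Type} [Fintype Y] [DecidableEq Y]
  [Fintype σ] [DecidableEq σ] {p : ℕ} [Fact p.Prime] (𝔓 : PGR p (Gp m))

lemma E2_nontrivial : (1 : 𝔓.B) ≠ 0 := by
  intro h
  have h1 := 𝔓.cf_emb 1 1
  rw [map_one, h, map_zero] at h1
  have h2 : (1 : MonoidAlgebra ℚ_[p] (Gp m)).coeff 1 = 1 := by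
    rw [MonoidAlgebra.one_def]
    simp
  rw [h2] at h1
  exact zero_ne_one h1

lemma E2_sc_mul (a b : ℚ_[p]) : 𝔓.sc a * 𝔓.sc b = 𝔓.sc (a * b) := (map_mul 𝔓.sc a b).symm

/-- diagonal invertible matrices have diagonal inverses -/
lemma E2_diag_inv {B n : Type} [Ring B] [Fintype n] [DecidableEq n] (M : (Matrix n n B)ˣ)
    (D : n → B) (hD : M.1 = Matrix.diagonal D) : ∃ D' : n → B, M⁻¹.1 = Matrix.diagonal D' ∧
      (∀ a, D a * D' a = 1) ∧ ∀ a, D' a * D a = 1 := by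
  have h1 : M.1 * M⁻¹.1 = 1 := M.mul_inv
  have h2 : M⁻¹.1 * M.1 = 1 := M.inv_mul
  rw [hD] at h1 h2
  have e1 : ∀ a b, D a * M⁻¹.1 a b = (1 : Matrix n n B) a b := by
    intro a b
    rw [← h1, Matrix.diagonal_mul]
  have e2 : ∀ a b, M⁻¹.1 a b * D b = (1 : Matrix n n B) a b := by
    intro a b
    rw [← h2, Matrix.mul_diagonal]
  refine ⟨fun a => M⁻¹.1 a a, ?_, fun a => by rw [e1, Matrix.one_apply_eq],
    fun a => by rw [e2, Matrix.one_apply_eq]⟩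
  ext a b
  rcases eq_or_ne a b with h | h
  · subst h
    rw [Matrix.diagonal_apply_eq]
  · rw [Matrix.diagonal_apply_ne _ h]
    have e3 : M⁻¹.1 a a * (D a * M⁻¹.1 a b) = 0 := by
      rw [e1, Matrix.one_apply_ne h, mul_zero]
    rwa [← mul_assoc, e2, Matrix.one_apply_eq, one_mul] at e3

lemma E2_IsD_one : IsD 𝔓 (1 : (Matrix (Nx m Y σ) (Nx m Y σ) 𝔓.B)ˣ) := by
  have h1 : ∀ i : FJ m, 𝔓.SuppIn (HS m (some i.1)) (1 : 𝔓.B) := by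
    intro i
    rw [← map_one 𝔓.u]
    exact u_supp 𝔓 (one_mem _)
  refine ⟨fun _ => 1, fun _ => 1, ?_, ?_, fun i => ⟨h1 i, h1 i, mul_one _⟩, fun _ => rfl,
    fun c => ⟨1, (map_one 𝔓.sc).symm⟩⟩
  · rw [Units.val_one, Matrix.diagonal_one]
  · rw [inv_one, Units.val_one, Matrix.diagonal_one]

lemma E2_IsD_mul {M N : (Matrix (Nx m Y σ) (Nx m Y σ) 𝔓.B)ˣ} (hM : IsD 𝔓 M) (hN : IsD 𝔓 N) :
    IsD 𝔓 (M * N) := by
  obtain ⟨D, D', h1, h2, h3, h4, h5⟩ := hM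
  obtain ⟨E, E', k1, k2, k3, k4, k5⟩ := hN
  refine ⟨fun a => D a * E a, fun a => E' a * D' a, ?_, ?_, fun i => ⟨?_, ?_, ?_⟩, fun y => ?_,
    fun c => ?_⟩
  · rw [Units.val_mul, h1, k1, Matrix.diagonal_mul_diagonal]
  · rw [mul_inv_rev, Units.val_mul, h2, k2, Matrix.diagonal_mul_diagonal]
  · exact PGR.SuppIn.mul 𝔓 (h3 i).1 (k3 i).1
  · exact PGR.SuppIn.mul 𝔓 (k3 i).2.1 (h3 i).2.1
  · rw [← mul_assoc, (h3 i).2.2, (k3 i).2.2]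
  · change D _ * E _ = 1
    rw [h4, k4, mul_one]
  · obtain ⟨a, ha⟩ := h5 c
    obtain ⟨b, hb⟩ := k5 c
    refine ⟨a * b, ?_⟩
    change D _ * E _ = _
    rw [ha, hb, E2_sc_mul]

lemma E2_IsD_inv {M : (Matrix (Nx m Y σ) (Nx m Y σ) 𝔓.B)ˣ} (hM : IsD 𝔓 M) : IsD 𝔓 M⁻¹ := by
  obtain ⟨D, D', h1, h2, h3, h4, h5⟩ := hM
  obtain ⟨E, e1, e2, e3⟩ := E2_diag_inv M D h1
  have e4 : E = D' := by
    have : Matrix.diagonal E = Matrix.diagonal D' := by rw [← e1, h2]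
    exact Matrix.diagonal_injective this
  subst e4
  refine ⟨E, D, h2, by rw [inv_inv, h1], fun i => ⟨(h3 i).2.1, (h3 i).1, ?_⟩, fun y => ?_,
    fun c => ?_⟩
  · have := e2 (Sum.inl (Sum.inl i))
    calc NB 𝔓.u i * E (Sum.inl (Sum.inl i)) =
        NB 𝔓.u i * D (Sum.inl (Sum.inl i)) * E (Sum.inl (Sum.inl i)) := by rw [(h3 i).2.2]
      _ = NB 𝔓.u i := by rw [mul_assoc, this, mul_one]
  · have := e2 (Sum.inl (Sum.inr y))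
    rwa [h4, one_mul] at this
  · obtain ⟨a, ha⟩ := h5 c
    have h6 := e2 (Sum.inr c)
    rw [ha] at h6
    have ha0 : a ≠ 0 := by
      rintro rfl
      rw [map_zero, zero_mul] at h6
      exact E2_nontrivial 𝔓 h6.symm
    refine ⟨a⁻¹, ?_⟩
    calc E (Sum.inr c) = 𝔓.sc a⁻¹ * (𝔓.sc a * E (Sum.inr c)) := by
          rw [← mul_assoc, E2_sc_mul, inv_mul_cancel₀ ha0, map_one, one_mul]
      _ = 𝔓.sc a⁻¹ := by rw [h6, mul_one]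

theorem mem_DD_iff (M : (Matrix (Nx m Y σ) (Nx m Y σ) 𝔓.B)ˣ) : M ∈ DD 𝔓 Y σ ↔ IsD 𝔓 M := by
  constructor
  · intro h
    refine Subgroup.closure_induction (p := fun M _ => IsD 𝔓 M) (fun M hM => hM)
      (E2_IsD_one 𝔓) (fun M N _ _ hM hN => E2_IsD_mul 𝔓 hM hN) (fun M _ hM => E2_IsD_inv 𝔓 hM) h
  · intro h
    exact Subgroup.subset_closure h

theorem DD_le_SS : DD 𝔓 Y σ ≤ SS 𝔓.u Y σ := by
  intro M hM
  obtain ⟨D, D', h1, h2, h3, h4, h5⟩ := (mem_DD_iff 𝔓 M).1 hM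
  rw [mem_SS_iff, h1]
  refine ⟨fun a i => ?_, fun a y => ?_⟩
  · rcases eq_or_ne a (Sum.inl (Sum.inl i)) with h | h
    · subst h
      rw [if_pos rfl, Matrix.diagonal_apply_eq]
      rw [supp_comm 𝔓 (h3 i).1 (NB_supp 𝔓 i), (h3 i).2.2]
    · rw [if_neg h, Matrix.diagonal_apply_ne _ h, zero_mul]
  · rcases eq_or_ne a (Sum.inl (Sum.inr y)) with h | h
    · subst h
      rw [if_pos rfl, Matrix.diagonal_apply_eq, h4]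
    · rw [if_neg h, Matrix.diagonal_apply_ne _ h]

lemma E2_conj_single {B n : Type} [Ring B] [Fintype n] [DecidableEq n] (D D' : n → B) (a b : n)
    (x : B) : Matrix.diagonal D * Matrix.single a b x * Matrix.diagonal D' =
      Matrix.single a b (D a * x * D' b) := by
  ext i j
  rw [Matrix.mul_diagonal, Matrix.diagonal_mul]
  rcases eq_or_ne a i with h | h
  · subst h
    rcases eq_or_ne b j with h' | h'
    · subst h'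
      rw [Matrix.single_apply_same, Matrix.single_apply_same]
    · rw [Matrix.single_apply_of_ne _ _ _ _ _ (by simp [h']),
        Matrix.single_apply_of_ne _ _ _ _ _ (by simp [h']), mul_zero, zero_mul]
  · rw [Matrix.single_apply_of_ne _ _ _ _ _ (by simp [h]),
      Matrix.single_apply_of_ne _ _ _ _ _ (by simp [h]), mul_zero, zero_mul]

lemma E2_conj_el {M E : (Matrix (Nx m Y σ) (Nx m Y σ) 𝔓.B)ˣ} (hM : M ∈ SS 𝔓.u Y σ)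
    (hd : ∃ D : Nx m Y σ → 𝔓.B, M.1 = Matrix.diagonal D) (hE : IsEl 𝔓.u E) :
    IsEl 𝔓.u (M * E * M⁻¹) := by
  obtain ⟨D, hD⟩ := hd
  obtain ⟨D', h1, h2, h3⟩ := E2_diag_inv M D hD
  have hM' : M⁻¹ ∈ SS 𝔓.u Y σ := inv_mem hM
  have k1 : ∀ i : FJ m, D (Sum.inl (Sum.inl i)) * NB 𝔓.u i = NB 𝔓.u i := by
    intro i
    have := ((mem_SS_iff 𝔓.u M).1 hM).1 (Sum.inl (Sum.inl i)) i
    rwa [if_pos rfl, hD, Matrix.diagonal_apply_eq] at this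
  have k2 : ∀ i : FJ m, D' (Sum.inl (Sum.inl i)) * NB 𝔓.u i = NB 𝔓.u i := by
    intro i
    have := ((mem_SS_iff 𝔓.u M⁻¹).1 hM').1 (Sum.inl (Sum.inl i)) i
    rwa [if_pos rfl, h1, Matrix.diagonal_apply_eq] at this
  have key : ∀ (a b : Nx m Y σ) (x : 𝔓.B), E.1 = 1 + Matrix.single a b x →
      (M * E * M⁻¹).1 = 1 + Matrix.single a b (D a * x * D' b) := by
    intro a b x hx
    rw [Units.val_mul, Units.val_mul, hx, mul_add, add_mul, mul_one, ← Units.val_mul,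
      mul_inv_cancel, Units.val_one, hD, h1, E2_conj_single]
  rcases hE with ⟨a, b, x, hab, hx, hE⟩ | ⟨i, x, hE⟩
  · refine IsEl.off a b _ hab ?_ (key a b x hE)
    refine InI.mul_right 𝔓 (InI.mul_left 𝔓.u _ hx) ?_
    rintro i rfl
    exact k2 i
  · have h4 : InI 𝔓.u (Sum.inl (Sum.inl i) : Nx m Y σ)
        (x * (𝔓.u (gen m i.1) - 1) * D' (Sum.inl (Sum.inl i))) := by
      refine InI.mul_right 𝔓 ⟨x, rfl⟩ ?_
      intro i' hi'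
      have : i = i' := by simpa using hi'
      subst this
      exact k2 i
    obtain ⟨y, hy⟩ := h4
    refine IsEl.diag i y ?_
    rw [key _ _ _ hE]
    congr 2
    rw [mul_assoc (NB 𝔓.u i) x, ← mul_assoc (D _), k1, mul_assoc (NB 𝔓.u i), hy, mul_assoc]

/-- a diagonal matrix in `SS` normalises `EE` -/
theorem diag_conj {M E : (Matrix (Nx m Y σ) (Nx m Y σ) 𝔓.B)ˣ} (hM : M ∈ SS 𝔓.u Y σ)
    (hd : ∃ D : Nx m Y σ → 𝔓.B, M.1 = Matrix.diagonal D) (hE : E ∈ EE 𝔓.u Y σ) :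
    M * E * M⁻¹ ∈ EE 𝔓.u Y σ ∧ M⁻¹ * E * M ∈ EE 𝔓.u Y σ := by
  have key : ∀ {M : (Matrix (Nx m Y σ) (Nx m Y σ) 𝔓.B)ˣ}, M ∈ SS 𝔓.u Y σ →
      (∃ D : Nx m Y σ → 𝔓.B, M.1 = Matrix.diagonal D) → M * E * M⁻¹ ∈ EE 𝔓.u Y σ := by
    intro M hM hd
    refine Subgroup.closure_induction (p := fun E _ => M * E * M⁻¹ ∈ EE 𝔓.u Y σ)
      (fun E hE => Subgroup.subset_closure (E2_conj_el 𝔓 hM hd hE)) ?_ ?_ ?_ hE
    · rw [mul_one, mul_inv_cancel]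
      exact one_mem _
    · intro a b _ _ ha hb
      have : M * (a * b) * M⁻¹ = (M * a * M⁻¹) * (M * b * M⁻¹) := by group
      rw [this]
      exact mul_mem ha hb
    · intro a _ ha
      have : M * a⁻¹ * M⁻¹ = (M * a * M⁻¹)⁻¹ := by group
      rw [this]
      exact inv_mem ha
  refine ⟨key hM hd, ?_⟩
  obtain ⟨D, hD⟩ := hd
  obtain ⟨D', h1, -, -⟩ := E2_diag_inv M D hD
  have := key (inv_mem hM) ⟨D', h1⟩
  rwa [inv_inv] at this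

theorem DD_conj {D E : (Matrix (Nx m Y σ) (Nx m Y σ) 𝔓.B)ˣ} (hD : D ∈ DD 𝔓 Y σ)
    (hE : E ∈ EE 𝔓.u Y σ) : D * E * D⁻¹ ∈ EE 𝔓.u Y σ := by
  obtain ⟨D1, -, h, -⟩ := (mem_DD_iff 𝔓 D).1 hD
  exact (diag_conj 𝔓 (DD_le_SS 𝔓 hD) ⟨D1, h⟩ hE).1

theorem IsU_inv {M : (Matrix (Nx m Y σ) (Nx m Y σ) 𝔓.B)ˣ} (hM : IsU 𝔓 M) : IsU 𝔓 M⁻¹ := by
  obtain ⟨h1, h2, ⟨D, h3⟩, h4⟩ := hM
  obtain ⟨D', h5, -, -⟩ := E2_diag_inv M D h3
  refine ⟨⟨h1.2, by rw [inv_inv]; exact h1.1⟩, inv_mem h2, ⟨D', h5⟩, fun E hE => ?_⟩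
  have h6 := inv_mem (h4 E hE)
  have h7 := (diag_conj 𝔓 h2 ⟨D, h3⟩ h6).1
  have h8 : M * (M⁻¹ * E * M * E⁻¹)⁻¹ * M⁻¹ = M⁻¹⁻¹ * E * M⁻¹ * E⁻¹ := by group
  rwa [h8] at h7

theorem NN_le_SS : NN 𝔓 Y σ ≤ SS 𝔓.u Y σ := by
  refine (Subgroup.closure_le _).2 ?_
  rintro x ((hx | hx) | hx)
  · exact hx.2.1
  · exact DD_le_SS 𝔓 hx
  · exact EE_le_SS 𝔓.u hx

/-- the products `u * d * e` -/
def Fac (θ : (Matrix (Nx m Y σ) (Nx m Y σ) 𝔓.B)ˣ) : Prop :=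
  ∃ u d e : (Matrix (Nx m Y σ) (Nx m Y σ) 𝔓.B)ˣ, u ∈ SS 𝔓.u Y σ ∧ IntU 𝔓 u ∧ d ∈ DD 𝔓 Y σ ∧
    e ∈ EE 𝔓.u Y σ ∧ θ = u * d * e

lemma E2_IntU_mul {n : Type} [Fintype n] [DecidableEq n] {M N : (Matrix n n 𝔓.B)ˣ}
    (hM : IntU 𝔓 M) (hN : IntU 𝔓 N) : IntU 𝔓 (M * N) := by
  refine ⟨fun i j => ?_, fun i j => ?_⟩
  · rw [Units.val_mul, Matrix.mul_apply]
    exact PGR.Le.sum 𝔓 zero_le_one _ _ fun k _ => PGR.In.mul 𝔓 (hM.1 i k) (hN.1 k j)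
  · rw [mul_inv_rev, Units.val_mul, Matrix.mul_apply]
    exact PGR.Le.sum 𝔓 zero_le_one _ _ fun k _ => PGR.In.mul 𝔓 (hN.2 i k) (hM.2 k j)

lemma E2_Fac_U {θ A : (Matrix (Nx m Y σ) (Nx m Y σ) 𝔓.B)ˣ} (hθ : Fac 𝔓 θ) (hA : IsU 𝔓 A) :
    Fac 𝔓 (θ * A) := by
  obtain ⟨u, d, e, hu, hu', hd, he, rfl⟩ := hθ
  have h1 := hA.2.2.2 d hd
  have h2 := (diag_conj 𝔓 hA.2.1 hA.2.2.1 he).2
  have h3 := DD_conj 𝔓 (inv_mem hd) h1
  refine ⟨u * A, d, d⁻¹ * (A⁻¹ * d * A * d⁻¹) * d⁻¹⁻¹ * (A⁻¹ * e * A), mul_mem hu hA.2.1,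
    E2_IntU_mul 𝔓 hu' hA.1, hd, mul_mem h3 h2, ?_⟩
  group

lemma E2_Fac_D {θ A : (Matrix (Nx m Y σ) (Nx m Y σ) 𝔓.B)ˣ} (hθ : Fac 𝔓 θ) (hA : A ∈ DD 𝔓 Y σ) :
    Fac 𝔓 (θ * A) := by
  obtain ⟨u, d, e, hu, hu', hd, he, rfl⟩ := hθ
  have h1 := DD_conj 𝔓 (inv_mem hA) he
  refine ⟨u, d * A, A⁻¹ * e * A⁻¹⁻¹, hu, hu', mul_mem hd hA, h1, ?_⟩
  group

lemma E2_Fac_E {θ A : (Matrix (Nx m Y σ) (Nx m Y σ) 𝔓.B)ˣ} (hθ : Fac 𝔓 θ) (hA : A ∈ EE 𝔓.u Y σ) :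
    Fac 𝔓 (θ * A) := by
  obtain ⟨u, d, e, hu, hu', hd, he, rfl⟩ := hθ
  exact ⟨u, d, e * A, hu, hu', hd, mul_mem he hA, by rw [mul_assoc (u * d)]⟩

/-- the set of products `u * d * e` is stable under right multiplication by `NN` -/
theorem Fac_mul {θ A : (Matrix (Nx m Y σ) (Nx m Y σ) 𝔓.B)ˣ} (hθ : Fac 𝔓 θ) (hA : A ∈ NN 𝔓 Y σ) :
    Fac 𝔓 (θ * A) := by
  refine Subgroup.closure_induction_right (p := fun A _ => Fac 𝔓 (θ * A)) ?_ ?_ ?_ hA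
  · rw [mul_one]
    exact hθ
  · rintro x _ y ((hy | hy) | hy) hx
    · rw [← mul_assoc]
      exact E2_Fac_U 𝔓 hx hy
    · rw [← mul_assoc]
      exact E2_Fac_D 𝔓 hx hy
    · rw [← mul_assoc]
      exact E2_Fac_E 𝔓 hx hy
  · rintro x _ y ((hy | hy) | hy) hx
    · rw [← mul_assoc]
      exact E2_Fac_U 𝔓 hx (IsU_inv 𝔓 hy)
    · rw [← mul_assoc]
      exact E2_Fac_D 𝔓 hx (inv_mem hy)
    · rw [← mul_assoc]
      exact E2_Fac_E 𝔓 hx (inv_mem hy)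

end FP
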