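import Pool.Agent.Lib.MP_2d4659_gt.FP.E2

/-!
# The exchange lemma

`T = 1 - a b` (column `a`, row `b`, both zero at the index `j`), `U = diag(1 - b a)` at `j`.  With
`P = 1 + (column a at j)`, `Q = 1 + (row b at j)` one has `P T Q = Q U P`, so `T = P⁻¹ Q U P Q⁻¹`.
-/

set_option autoImplicit false

namespace FP

variable {J : Type} [DecidableEq J] [Fintype J] {m : J → ℕ} {Y σ : Type} [Fintype Y] [DecidableEq Y]
  [Fintype σ] [DecidableEq σ]

section gen

variable {B : Type} [Ring B] (u : Gp m →* B)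

/-- the unit `1 + X` with `X * X = 0` -/
def E3_un {n : Type} [Fintype n] [DecidableEq n] (X : Matrix n n B) (h : X * X = 0) :
    (Matrix n n B)ˣ where
  val := 1 + X
  inv := 1 - X
  val_inv := by
    have : (1 + X) * (1 - X) = 1 - X * X := by noncomm_ring
    rw [this, h, sub_zero]
  inv_val := by
    have : (1 - X) * (1 + X) = 1 - X * X := by noncomm_ring
    rw [this, h, sub_zero]

lemma E3_single_mul_single {n : Type} [Fintype n] [DecidableEq n] (X : Matrix n n B)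
    (hX : ∀ a b c, X a b * X b c = 0) (a b c d : n) :
    Matrix.single a b (X a b) * Matrix.single c d (X c d) = 0 := by
  by_cases h : b = c
  · subst h
    rw [Matrix.single_mul_single_same, hX, Matrix.single_zero]
  · rw [Matrix.single_mul_single_of_ne _ _ _ _ h]

/-- products of commuting elementary matrices -/
lemma E3_prod (G : Subgroup (Matrix (Nx m Y σ) (Nx m Y σ) B)ˣ)
    (X : Matrix (Nx m Y σ) (Nx m Y σ) B) (hX : ∀ a b c, X a b * X b c = 0)
    (hE : ∀ a b, ∀ M : (Matrix (Nx m Y σ) (Nx m Y σ) B)ˣ,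
      M.1 = 1 + Matrix.single a b (X a b) → M ∈ G) :
    ∃ M : (Matrix (Nx m Y σ) (Nx m Y σ) B)ˣ, M ∈ G ∧ M.1 = 1 + X ∧ M⁻¹.1 = 1 - X := by
  classical
  have key : ∀ S : Finset (Nx m Y σ × Nx m Y σ), ∃ M : (Matrix (Nx m Y σ) (Nx m Y σ) B)ˣ,
      M ∈ G ∧ M.1 = 1 + ∑ q ∈ S, Matrix.single q.1 q.2 (X q.1 q.2) := by
    intro S
    induction S using Finset.induction_on with
    | empty => exact ⟨1, one_mem _, by simp⟩
    | insert q S hq ih =>
      obtain ⟨M, hM, hM'⟩ := ih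
      set s : Matrix (Nx m Y σ) (Nx m Y σ) B := Matrix.single q.1 q.2 (X q.1 q.2) with hs
      have hss : s * s = 0 := E3_single_mul_single X hX _ _ _ _
      have h1 : (∑ q ∈ S, Matrix.single q.1 q.2 (X q.1 q.2)) * s = 0 := by
        rw [Finset.sum_mul]
        exact Finset.sum_eq_zero fun r _ => E3_single_mul_single X hX _ _ _ _
      refine ⟨M * E3_un s hss, mul_mem hM (hE q.1 q.2 _ rfl), ?_⟩
      rw [Units.val_mul, hM', Finset.sum_insert hq]
      change (1 + ∑ q ∈ S, Matrix.single q.1 q.2 (X q.1 q.2)) * (1 + s) = _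
      rw [mul_add, mul_one, add_mul, one_mul, h1, add_zero]
      abel
  obtain ⟨M, hM, hM'⟩ := key Finset.univ
  have h1 : ∑ q : Nx m Y σ × Nx m Y σ, Matrix.single q.1 q.2 (X q.1 q.2) = X := by
    rw [Fintype.sum_prod_type]
    exact (Matrix.matrix_eq_sum_single X).symm
  rw [h1] at hM'
  have hXX : X * X = 0 := by
    ext a c
    rw [Matrix.mul_apply]
    exact Finset.sum_eq_zero fun b _ => hX a b c
  refine ⟨M, hM, hM', ?_⟩
  have h2 : M = E3_un X hXX := Units.ext hM'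
  rw [h2]
  rfl

/-- a matrix `1 + X` with `X` mapping the rows in `α` to the columns in `β`, `α`, `β` disjoint -/
theorem EE_block (α β : Nx m Y σ → Prop) (hαβ : ∀ a, α a → ¬ β a)
    (X : Matrix (Nx m Y σ) (Nx m Y σ) B) (hX : ∀ a b, X a b ≠ 0 → α a ∧ β b)
    (hI : ∀ a b, InI u b (X a b)) :
    ∃ M : (Matrix (Nx m Y σ) (Nx m Y σ) B)ˣ, M ∈ EE u Y σ ∧ M.1 = 1 + X ∧ M⁻¹.1 = 1 - X := by
  refine E3_prod (EE u Y σ) X ?_ ?_
  · intro a b c
    by_cases h1 : X a b = 0
    · rw [h1, zero_mul]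
    · by_cases h2 : X b c = 0
      · rw [h2, mul_zero]
      · exact absurd (hX a b h1).2 (hαβ b (hX b c h2).1)
  · intro a b M hM
    by_cases hab : a = b
    · subst hab
      have h0 : X a a = 0 := by
        by_contra h
        exact hαβ a (hX a a h).1 (hX a a h).2
      rw [h0, Matrix.single_zero, add_zero] at hM
      have : M = 1 := Units.ext hM
      rw [this]
      exact one_mem _
    · exact Subgroup.subset_closure (IsEl.off a b (X a b) hab (hI a b) hM)

end gen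

section pgr

variable {p : ℕ} [Fact p.Prime] (𝔓 : PGR p (Gp m))

/-- a matrix `1 + X` whose rows of index in `σ` vanish, whose rows `i` are multiples of `N_i` -/
theorem EE_unip (X : Matrix (Nx m Y σ) (Nx m Y σ) 𝔓.B)
    (hI : ∀ a b, InI 𝔓.u b (X a b)) (hσ : ∀ c b, X (Sum.inr c) b = 0)
    (hi : ∀ (i : FJ m) b, ∃ y, X (Sum.inl (Sum.inl i)) b = NB 𝔓.u i * y) :
    ∃ M : (Matrix (Nx m Y σ) (Nx m Y σ) 𝔓.B)ˣ, M ∈ EE 𝔓.u Y σ ∧ M.1 = 1 + X := by
  have h := E3_prod (EE 𝔓.u Y σ) X ?_ ?_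
  · obtain ⟨M, h1, h2, -⟩ := h
    exact ⟨M, h1, h2⟩
  · rintro a ((i | y) | c') c
    · obtain ⟨y, hy⟩ := hi i c
      have := InI.mul_NB 𝔓.u (hI a (Sum.inl (Sum.inl i)))
      rw [hy, ← mul_assoc, this, zero_mul]
    · have : X a (Sum.inl (Sum.inr y)) = 0 := hI a (Sum.inl (Sum.inr y))
      rw [this, zero_mul]
    · rw [hσ c' c, mul_zero]
  · intro a b M hM
    by_cases hab : a = b
    · subst hab
      rcases a with (i | y) | c
      · obtain ⟨y, hy⟩ := hi i (Sum.inl (Sum.inl i))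
        obtain ⟨z, hz⟩ := hI (Sum.inl (Sum.inl i)) (Sum.inl (Sum.inl i))
        have hm : (m i.1 : ℚ_[p]) ≠ 0 := by exact_mod_cast i.2
        have hmc : 𝔓.sc (m i.1 : ℚ_[p]) = (m i.1 : 𝔓.B) := 𝔓.sc_natCast _
        refine Subgroup.subset_closure (IsEl.diag i (𝔓.sc ((m i.1 : ℚ_[p])⁻¹) * z) ?_)
        rw [hM]
        congr 2
        have h1 : NB 𝔓.u i * (𝔓.sc ((m i.1 : ℚ_[p])⁻¹) * z) * (𝔓.u (gen m i.1) - 1) =
            𝔓.sc ((m i.1 : ℚ_[p])⁻¹) * (NB 𝔓.u i * (z * (𝔓.u (gen m i.1) - 1))) := by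
          rw [← mul_assoc (NB 𝔓.u i), ← 𝔓.sc_comm]
          simp only [mul_assoc]
        rw [h1, ← hz, hy, ← mul_assoc (NB 𝔓.u i), NB_sq, ← hmc, ← mul_assoc, ← mul_assoc,
          ← map_mul, inv_mul_cancel₀ hm, map_one, one_mul]
      · have h0 : X (Sum.inl (Sum.inr y)) (Sum.inl (Sum.inr y)) = 0 :=
          hI (Sum.inl (Sum.inr y)) (Sum.inl (Sum.inr y))
        rw [h0, Matrix.single_zero, add_zero] at hM
        have : M = 1 := Units.ext hM
        rw [this]
        exact one_mem _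
      · rw [hσ, Matrix.single_zero, add_zero] at hM
        have : M = 1 := Units.ext hM
        rw [this]
        exact one_mem _
    · exact Subgroup.subset_closure (IsEl.off a b (X a b) hab (hI a b) hM)

lemma E3_P (j : Nx m Y σ) (a : Nx m Y σ → 𝔓.B) (ha : ∀ q, InI 𝔓.u j (a q)) (haj : a j = 0) :
    ∃ P : (Matrix (Nx m Y σ) (Nx m Y σ) 𝔓.B)ˣ, P ∈ EE 𝔓.u Y σ ∧
      P.1 = 1 + Matrix.of fun x y => if y = j then a x else 0 := by
  have h := EE_block 𝔓.u (Y := Y) (σ := σ) (fun x => x ≠ j) (fun y => y = j) (fun x hx => hx)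
    (Matrix.of fun x y => if y = j then a x else 0) ?_ ?_
  · obtain ⟨P, h1, h2, -⟩ := h
    exact ⟨P, h1, h2⟩
  · intro x y hxy
    rw [Matrix.of_apply] at hxy
    by_cases hy : y = j
    · rw [if_pos hy] at hxy
      refine ⟨?_, hy⟩
      rintro rfl
      exact hxy haj
    · rw [if_neg hy] at hxy
      exact absurd rfl hxy
  · intro x y
    rw [Matrix.of_apply]
    split_ifs with hy
    · rw [hy]; exact ha x
    · exact InI.zero 𝔓.u

lemma E3_Q (j : Nx m Y σ) (b : Nx m Y σ → 𝔓.B) (hb : ∀ q, InI 𝔓.u q (b q)) (hbj : b j = 0) :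
    ∃ Q : (Matrix (Nx m Y σ) (Nx m Y σ) 𝔓.B)ˣ, Q ∈ EE 𝔓.u Y σ ∧
      Q.1 = 1 + Matrix.of fun x y => if x = j then b y else 0 := by
  have h := EE_block 𝔓.u (Y := Y) (σ := σ) (fun x => x = j) (fun y => y ≠ j)
    (fun x hx hx' => hx' hx)
    (Matrix.of fun x y => if x = j then b y else 0) ?_ ?_
  · obtain ⟨P, h1, h2, -⟩ := h
    exact ⟨P, h1, h2⟩
  · intro x y hxy
    rw [Matrix.of_apply] at hxy
    by_cases hx : x = j
    · rw [if_pos hx] at hxy
      refine ⟨hx, ?_⟩
      rintro rfl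
      exact hxy hbj
    · rw [if_neg hx] at hxy
      exact absurd rfl hxy
  · intro x y
    rw [Matrix.of_apply]
    split_ifs with hx
    · exact hb y
    · exact InI.zero 𝔓.u

/-- the identity `P T Q = Q U P` -/
lemma E3_PTQ {B n : Type} [Ring B] [Fintype n] [DecidableEq n] (j : n) (a b : n → B)
    (haj : a j = 0) (hbj : b j = 0) :
    (1 + Matrix.of fun x y => if y = j then a x else 0) * (1 - Matrix.of fun x y => a x * b y) *
      (1 + Matrix.of fun x y => if x = j then b y else 0) =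
    (1 + Matrix.of fun x y => if x = j then b y else 0) *
      Matrix.diagonal (Function.update (fun _ => 1) j (1 - ∑ q, b q * a q)) *
      (1 + Matrix.of fun x y => if y = j then a x else 0) := by
  set A : Matrix n n B := Matrix.of fun x y => if y = j then a x else 0 with hA
  set C : Matrix n n B := Matrix.of fun x y => if x = j then b y else 0 with hC
  set AB : Matrix n n B := Matrix.of fun x y => a x * b y with hAB
  set s := ∑ q, b q * a q with hs
  have hU : Matrix.diagonal (Function.update (fun _ => 1) j (1 - s)) =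
      1 - Matrix.single j j s := by
    ext x y
    rw [Matrix.sub_apply]
    by_cases hxy : x = y
    · subst hxy
      rw [Matrix.diagonal_apply_eq, Matrix.one_apply_eq]
      by_cases hx : x = j
      · subst hx
        rw [Function.update_self, Matrix.single_apply_same]
      · rw [Function.update_of_ne hx, Matrix.single_apply_of_ne _ _ _ _ _
          (fun h => hx h.1.symm), sub_zero]
    · rw [Matrix.diagonal_apply_ne _ hxy, Matrix.one_apply_ne hxy,
        Matrix.single_apply_of_ne _ _ _ _ _ (fun h => hxy (h.1.symm.trans h.2)), sub_zero]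
  have h1 : A * C = AB := by
    ext x y
    rw [Matrix.mul_apply, Finset.sum_eq_single j]
    · simp only [hA, hC, hAB, Matrix.of_apply, if_true]
    · intro q _ hq
      simp only [hA, Matrix.of_apply, if_neg hq, zero_mul]
    · intro h; exact absurd (Finset.mem_univ _) h
  have h2 : C * A = Matrix.single j j s := by
    ext x y
    rw [Matrix.mul_apply]
    by_cases hx : x = j
    · by_cases hy : y = j
      · subst hx
        subst hy
        rw [Matrix.single_apply_same, hs]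
        simp only [hA, hC, Matrix.of_apply, if_true]
      · rw [Matrix.single_apply_of_ne _ _ _ _ _ (fun h => hy h.2.symm)]
        simp only [hA, Matrix.of_apply, if_neg hy, mul_zero, Finset.sum_const_zero]
    · rw [Matrix.single_apply_of_ne _ _ _ _ _ (fun h => hx h.1.symm)]
      simp only [hC, Matrix.of_apply, if_neg hx, zero_mul, Finset.sum_const_zero]
  have h3 : A * AB = 0 := by
    ext x y
    rw [Matrix.mul_apply, Matrix.zero_apply]
    refine Finset.sum_eq_zero fun q _ => ?_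
    simp only [hA, hAB, Matrix.of_apply]
    split_ifs with hq
    · rw [hq, haj, zero_mul, mul_zero]
    · rw [zero_mul]
  have h4 : AB * C = 0 := by
    ext x y
    rw [Matrix.mul_apply, Matrix.zero_apply]
    refine Finset.sum_eq_zero fun q _ => ?_
    simp only [hC, hAB, Matrix.of_apply]
    split_ifs with hq
    · rw [hq, hbj, mul_zero, zero_mul]
    · rw [mul_zero]
  have h5 : C * Matrix.single j j s = 0 := by
    ext x y
    rw [Matrix.mul_apply, Matrix.zero_apply]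
    refine Finset.sum_eq_zero fun q _ => ?_
    by_cases hq : q = j
    · subst hq
      simp only [hC, Matrix.of_apply, hbj, ite_self, zero_mul]
    · rw [Matrix.single_apply_of_ne _ _ _ _ _ (fun h => hq h.1.symm), mul_zero]
  have h6 : Matrix.single j j s * A = 0 := by
    ext x y
    rw [Matrix.mul_apply, Matrix.zero_apply]
    refine Finset.sum_eq_zero fun q _ => ?_
    by_cases hq : q = j
    · subst hq
      simp only [hA, Matrix.of_apply, haj, ite_self, mul_zero]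
    · rw [Matrix.single_apply_of_ne _ _ _ _ _ (fun h => hq h.2.symm), zero_mul]
  rw [hU]
  have e1 : (1 + A) * (1 - AB) * (1 + C) =
      1 + A + C + A * C - AB - A * AB - AB * C - A * (AB * C) := by noncomm_ring
  have e2 : (1 + C) * (1 - Matrix.single j j s) * (1 + A) =
      1 + A + C + C * A - Matrix.single j j s - Matrix.single j j s * A -
        C * Matrix.single j j s - (C * Matrix.single j j s) * A := by noncomm_ring
  rw [e1, e2, h1, h2, h3, h4, h5, h6]
  simp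

lemma E3_U_SS (j : Nx m Y σ) (a b : Nx m Y σ → 𝔓.B) (ha : ∀ q, InI 𝔓.u j (a q))
    (U : (Matrix (Nx m Y σ) (Nx m Y σ) 𝔓.B)ˣ)
    (hU : U.1 = Matrix.diagonal (Function.update (fun _ => 1) j (1 - ∑ q, b q * a q))) :
    U ∈ SS 𝔓.u Y σ := by
  rw [mem_SS_iff, hU]
  refine ⟨fun x i => ?_, fun x y => ?_⟩
  · rcases eq_or_ne x (Sum.inl (Sum.inl i)) with h | h
    · subst h
      rw [if_pos rfl, Matrix.diagonal_apply_eq]
      by_cases hj : Sum.inl (Sum.inl i) = j
      · subst hj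
        rw [Function.update_self, sub_mul, one_mul, Finset.sum_mul, Finset.sum_eq_zero, sub_zero]
        intro q _
        rw [mul_assoc, InI.mul_NB 𝔓.u (ha q), mul_zero]
      · rw [Function.update_of_ne hj, one_mul]
    · rw [if_neg h, Matrix.diagonal_apply_ne _ h, zero_mul]
  · rcases eq_or_ne x (Sum.inl (Sum.inr y)) with h | h
    · subst h
      rw [if_pos rfl, Matrix.diagonal_apply_eq]
      by_cases hj : Sum.inl (Sum.inr y) = j
      · subst hj
        rw [Function.update_self, Finset.sum_eq_zero, sub_zero]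
        intro q _
        have : a q = 0 := ha q
        rw [this, mul_zero]
      · rw [Function.update_of_ne hj]
    · rw [if_neg h, Matrix.diagonal_apply_ne _ h]

theorem exchange (j : Nx m Y σ) (a b : Nx m Y σ → 𝔓.B) (ha : ∀ q, InI 𝔓.u j (a q))
    (hb : ∀ q, InI 𝔓.u q (b q)) (haj : a j = 0) (hbj : b j = 0)
    (T U : (Matrix (Nx m Y σ) (Nx m Y σ) 𝔓.B)ˣ) (hT : T.1 = 1 - Matrix.of fun x y => a x * b y)
    (hU : U.1 = Matrix.diagonal (Function.update (fun _ => 1) j (1 - ∑ q, b q * a q))) :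
    T * U⁻¹ ∈ EE 𝔓.u Y σ := by
  obtain ⟨P, hP, hP'⟩ := E3_P 𝔓 j a ha haj
  obtain ⟨Q, hQ, hQ'⟩ := E3_Q 𝔓 j b hb hbj
  have h1 : P * T * Q = Q * U * P := by
    apply Units.ext
    rw [Units.val_mul, Units.val_mul, Units.val_mul, Units.val_mul, hP', hQ', hT, hU]
    exact E3_PTQ j a b haj hbj
  have h2 : T * U⁻¹ = P⁻¹ * Q * (U * (P * Q⁻¹) * U⁻¹) := by
    have h3 : T = P⁻¹ * (P * T * Q) * Q⁻¹ := by group
    rw [h3, h1]
    group
  rw [h2]
  exact mul_mem (mul_mem (inv_mem hP) hQ)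
    (diag_conj 𝔓 (E3_U_SS 𝔓 j a b ha U hU) ⟨_, hU⟩ (mul_mem hP (inv_mem hQ))).1

/-- the unit `diag(1 - s)` for small `s` -/
lemma E3_exists_U (j : Nx m Y σ) (s : 𝔓.B) (hs : 𝔓.Sm s) :
    ∃ U : (Matrix (Nx m Y σ) (Nx m Y σ) 𝔓.B)ˣ,
      U.1 = Matrix.diagonal (Function.update (fun _ => 1) j (1 - s)) ∧ IntU 𝔓 U := by
  have hsm : ∀ x y g, ‖𝔓.cf g ((Matrix.single j j s : Matrix (Nx m Y σ) (Nx m Y σ) 𝔓.B) x y)‖ < 1 := by
    intro x y g
    by_cases h : j = x ∧ j = y
    · rw [← h.1, ← h.2, Matrix.single_apply_same]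
      exact hs g
    · rw [Matrix.single_apply_of_ne _ _ _ _ _ h, map_zero, norm_zero]
      exact one_pos
  obtain ⟨N, hN, h1, h2⟩ := 𝔓.neumann (Nx m Y σ) (Matrix.single j j s) hsm
  have hin1 : ∀ x y, 𝔓.In ((1 : Matrix (Nx m Y σ) (Nx m Y σ) 𝔓.B) x y) := by
    intro x y
    by_cases h : x = y
    · rw [h, Matrix.one_apply_eq, ← map_one 𝔓.u]
      exact 𝔓.In_u 1
    · rw [Matrix.one_apply_ne h]
      intro g
      simp
  refine ⟨⟨1 - Matrix.single j j s, 1 + N, h1, h2⟩, ?_, ?_, ?_⟩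
  · ext x y
    change (1 - Matrix.single j j s : Matrix (Nx m Y σ) (Nx m Y σ) 𝔓.B) x y = _
    rw [Matrix.sub_apply]
    by_cases hxy : x = y
    · subst hxy
      rw [Matrix.diagonal_apply_eq, Matrix.one_apply_eq]
      by_cases hx : x = j
      · subst hx
        rw [Function.update_self, Matrix.single_apply_same]
      · rw [Function.update_of_ne hx, Matrix.single_apply_of_ne _ _ _ _ _
          (fun h => hx h.1.symm), sub_zero]
    · rw [Matrix.diagonal_apply_ne _ hxy, Matrix.one_apply_ne hxy,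
        Matrix.single_apply_of_ne _ _ _ _ _ (fun h => hxy (h.1.symm.trans h.2)), sub_zero]
  · intro x y
    change 𝔓.In ((1 - Matrix.single j j s : Matrix (Nx m Y σ) (Nx m Y σ) 𝔓.B) x y)
    rw [Matrix.sub_apply, sub_eq_add_neg]
    exact PGR.Le.add 𝔓 (hin1 x y) (PGR.Le.neg 𝔓 fun g => (hsm x y g).le)
  · intro x y
    change 𝔓.In ((1 + N : Matrix (Nx m Y σ) (Nx m Y σ) 𝔓.B) x y)
    rw [Matrix.add_apply]
    exact PGR.Le.add 𝔓 (hin1 x y) (fun g => (hN x y g).le)

/-- the main case: `b a` is divisible by `p` -/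
theorem exchange_NN (j : Nx m Y σ) (a b : Nx m Y σ → 𝔓.B) (ha : ∀ q, InI 𝔓.u j (a q))
    (hb : ∀ q, InI 𝔓.u q (b q)) (haj : a j = 0) (hbj : b j = 0)
    (hs : 𝔓.Sm (∑ q, b q * a q)) :
    ∃ T ∈ NN 𝔓 Y σ, T.1 = 1 - Matrix.of fun x y => a x * b y := by
  obtain ⟨U, hU, hUI⟩ := E3_exists_U 𝔓 j _ hs
  obtain ⟨P, hP, hP'⟩ := E3_P 𝔓 j a ha haj
  obtain ⟨Q, hQ, hQ'⟩ := E3_Q 𝔓 j b hb hbj
  have hUS := E3_U_SS 𝔓 j a b ha U hU
  set T : (Matrix (Nx m Y σ) (Nx m Y σ) 𝔓.B)ˣ := P⁻¹ * Q * U * P * Q⁻¹ with hTdef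
  have hT : T.1 = 1 - Matrix.of fun x y => a x * b y := by
    have h1 := E3_PTQ j a b haj hbj
    rw [← hP', ← hQ', ← hU] at h1
    have h2 : (T.1 : Matrix (Nx m Y σ) (Nx m Y σ) 𝔓.B) =
        P⁻¹.1 * (Q.1 * U.1 * P.1) * Q⁻¹.1 := by
      rw [hTdef]
      simp only [Units.val_mul, mul_assoc]
    rw [h2, ← h1]
    simp only [← mul_assoc]
    rw [Units.inv_mul, one_mul, mul_assoc, Units.mul_inv, mul_one]
  have hTU := exchange 𝔓 j a b ha hb haj hbj T U hT hU
  have hIsU : IsU 𝔓 U := by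
    refine ⟨hUI, hUS, ⟨_, hU⟩, ?_⟩
    intro D hD
    obtain ⟨D1, D2, hD1, hD2, hD3, hD4, hD5⟩ := (mem_DD_iff 𝔓 D).1 hD
    have hDS' : D⁻¹ ∈ SS 𝔓.u Y σ := inv_mem (DD_le_SS 𝔓 hD)
    have k2 : ∀ i : FJ m, D2 (Sum.inl (Sum.inl i)) * NB 𝔓.u i = NB 𝔓.u i := by
      intro i
      have := ((mem_SS_iff 𝔓.u D⁻¹).1 hDS').1 (Sum.inl (Sum.inl i)) i
      rwa [if_pos rfl, hD2, Matrix.diagonal_apply_eq] at this
    have hD21 : ∀ q, D2 q * D1 q = 1 := by
      intro q
      have : D⁻¹.1 * D.1 = 1 := D.inv_mul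
      rw [hD1, hD2, Matrix.diagonal_mul_diagonal] at this
      have h := congrFun (congrFun this q) q
      rwa [Matrix.diagonal_apply_eq, Matrix.one_apply_eq] at h
    have hT' : (D * T * D⁻¹).1 = 1 - Matrix.of fun x y => (D1 x * a x) * (b y * D2 y) := by
      have e1 : (D * T * D⁻¹).1 = D.1 * T.1 * D⁻¹.1 := by
        rw [Units.val_mul, Units.val_mul]
      rw [e1, hT, mul_sub, sub_mul, mul_one, Units.mul_inv, hD1, hD2]
      congr 1
      ext x y
      rw [Matrix.mul_diagonal, Matrix.diagonal_mul, Matrix.of_apply, Matrix.of_apply]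
      simp only [mul_assoc]
    have hs' : ∑ q, (b q * D2 q) * (D1 q * a q) = ∑ q, b q * a q := by
      refine Finset.sum_congr rfl fun q _ => ?_
      rw [mul_assoc, ← mul_assoc (D2 q), hD21, one_mul]
    have hTU' := exchange 𝔓 j (fun q => D1 q * a q) (fun q => b q * D2 q)
      (fun q => InI.mul_left 𝔓.u _ (ha q))
      (fun q => InI.mul_right 𝔓 (hb q) (by rintro i rfl; exact k2 i))
      (by rw [haj, mul_zero]) (by rw [hbj, zero_mul]) (D * T * D⁻¹) U hT' (by rw [hs', hU])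
    have h1 : D * U * D⁻¹ * U⁻¹ ∈ EE 𝔓.u Y σ := by
      have h2 := DD_conj 𝔓 hD hTU
      have h3 := mul_mem (inv_mem h2) hTU'
      have h4 : (D * (T * U⁻¹) * D⁻¹)⁻¹ * (D * T * D⁻¹ * U⁻¹) = D * U * D⁻¹ * U⁻¹ := by group
      rwa [h4] at h3
    have h5 := (diag_conj 𝔓 hUS ⟨_, hU⟩ h1).2
    have h6 : U⁻¹ * (D * U * D⁻¹ * U⁻¹) * U = U⁻¹ * D * U * D⁻¹ := by group
    rwa [h6] at h5
  have hUN : U ∈ NN 𝔓 Y σ := Subgroup.subset_closure (Or.inl (Or.inl hIsU))
  have hEN : EE 𝔓.u Y σ ≤ NN 𝔓 Y σ := fun x hx => Subgroup.subset_closure (Or.inr hx)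
  exact ⟨T, mul_mem (mul_mem (mul_mem (mul_mem (inv_mem (hEN hP)) (hEN hQ)) hUN) (hEN hP))
    (inv_mem (hEN hQ)), hT⟩

end pgr

end FP
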