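import Pool.Agent.Lib.MP_2d4659_gt.FP.E2
import Pool.Agent.Lib.MP_2d4659_gt.FP.C2
import Pool.Agent.Lib.MP_2d4659_gt.FP.C2b

/-! # The ring `At` and the module `WW` -/

set_option autoImplicit false

namespace FP

variable {J : Type} [DecidableEq J] [Fintype J] {m : J → ℕ} {Y σ : Type} [Fintype Y] [DecidableEq Y]
  [Fintype σ] [DecidableEq σ] {p : ℕ} [Fact p.Prime] (𝔓 : PGR p (Gp m))

lemma E4_supp_one (t : Option J) : 𝔓.SuppIn (HS m t) (1 : 𝔓.B) := by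
  rw [← map_one 𝔓.u]
  exact u_supp 𝔓 (one_mem _)

/-- the elements with coefficients in the finite subgroup of type `t` -/
def At (t : Option J) : Subring 𝔓.B where
  carrier := {x | 𝔓.SuppIn (HS m t) x}
  mul_mem' := by
    intro a b ha hb
    exact PGR.SuppIn.mul 𝔓 (H := HT m t) ha hb
  one_mem' := E4_supp_one 𝔓 t
  add_mem' := by
    intro a b ha hb g hg
    rw [map_add, ha g hg, hb g hg, add_zero]
  zero_mem' := by
    intro g _
    exact map_zero _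
  neg_mem' := by
    intro a ha g hg
    rw [map_neg, ha g hg, neg_zero]

noncomputable instance (t : Option J) : CommRing (At 𝔓 t) :=
  { (inferInstance : Ring (At 𝔓 t)) with
    mul_comm := by
      intro a b
      exact Subtype.ext (supp_comm 𝔓 a.2 b.2) }

lemma E4_surj {A S : Type} [CommRing A] [CommRing S] (f : A →+* S) (hf : Function.Surjective f)
    (h : Finite (MaximalSpectrum A)) : Finite (MaximalSpectrum S) := by
  refine Finite.of_injective (fun M : MaximalSpectrum S =>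
    (⟨M.asIdeal.comap f, by
      have := M.isMaximal
      exact Ideal.comap_isMaximal_of_surjective f hf⟩ : MaximalSpectrum A)) ?_
  intro M M' hMM
  have h1 := congrArg MaximalSpectrum.asIdeal hMM
  exact MaximalSpectrum.ext (Ideal.comap_injective_of_surjective f hf h1)

theorem At_fin (t : Option J) : Finite (MaximalSpectrum (At 𝔓 t)) := by
  classical
  have hfin : Finite (HT m t) := HT_finite t
  let _ : CommGroup (HT m t) := { (inferInstance : Group (HT m t)) with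
    mul_comm := fun a b => Subtype.ext (HT_comm t a.1 b.1 a.2 b.2) }
  have h0 := fin_max_field ℚ_[p] (HT m t)
  obtain ⟨f, hf⟩ : ∃ f : MonoidAlgebra ℚ_[p] (HT m t) →+* 𝔓.B, ∀ x,
      f x = 𝔓.emb (MonoidAlgebra.mapDomainRingHom ℚ_[p] (HT m t).subtype x) :=
    ⟨𝔓.emb.comp (MonoidAlgebra.mapDomainRingHom ℚ_[p] (HT m t).subtype), fun x => rfl⟩
  have hcf : ∀ x g, 𝔓.cf g (f x) = (Finsupp.mapDomain (HT m t).subtype x.coeff) g := by
    intro x g
    rw [hf, 𝔓.cf_emb]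
    rfl
  have hmem : ∀ x, f x ∈ At 𝔓 t := by
    intro x g hg
    rw [hcf]
    refine Finsupp.mapDomain_of_notMem_range _ _ ?_
    rintro ⟨h, rfl⟩
    exact hg h.2
  refine E4_surj (f.codRestrict (At 𝔓 t) hmem) ?_ h0
  rintro ⟨b, hb⟩
  refine ⟨MonoidAlgebra.ofCoeff (Finsupp.equivFunOnFinite.symm
    (fun h : HT m t => 𝔓.cf h.1 b)), Subtype.ext (PGR.ext 𝔓 fun g => ?_)⟩
  change 𝔓.cf g (f _) = 𝔓.cf g b
  rw [hcf]
  by_cases hg : g ∈ HT m t
  · have h1 : g = (HT m t).subtype ⟨g, hg⟩ := rfl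
    conv_lhs => rw [h1]
    rw [Finsupp.mapDomain_apply (Subgroup.subtype_injective _)]
    rfl
  · rw [hb g hg]
    refine Finsupp.mapDomain_of_notMem_range _ _ ?_
    rintro ⟨h, rfl⟩
    exact hg h.2

/-- the module of the row vectors `RowW` -/
def WW (Y : Type) [Fintype Y] [DecidableEq Y] (S : σ → Option J) (t : Option J) :
    Submodule (At 𝔓 t) (Nx m Y σ → 𝔓.B) where
  carrier := {v | RowW 𝔓 S t v}
  add_mem' := by
    rintro v w ⟨h1, h2, h3, h4⟩ ⟨k1, k2, k3, k4⟩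
    refine ⟨fun b hb => ?_, fun b => ?_, fun i => ?_, fun y => ?_⟩
    · rw [Pi.add_apply, h1 b hb, k1 b hb, add_zero]
    · exact (At 𝔓 t).add_mem (h2 b) (k2 b)
    · rw [Pi.add_apply, add_mul, h3, k3, add_zero]
    · rw [Pi.add_apply, h4, k4, add_zero]
  zero_mem' := by
    refine ⟨fun b hb => rfl, fun b => (At 𝔓 t).zero_mem, fun i => ?_, fun y => rfl⟩
    rw [Pi.zero_apply, zero_mul]
  smul_mem' := by
    rintro a v ⟨h1, h2, h3, h4⟩
    refine ⟨fun b hb => ?_, fun b => ?_, fun i => ?_, fun y => ?_⟩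
    · change a.1 * v b = 0
      rw [h1 b hb, mul_zero]
    · change a.1 * v b ∈ At 𝔓 t
      exact (At 𝔓 t).mul_mem a.2 (h2 b)
    · change a.1 * v _ * _ = 0
      rw [mul_assoc, h3, mul_zero]
    · change a.1 * v _ = 0
      rw [h4, mul_zero]

/-- the idempotent weights -/
noncomputable def E4_kap (S : σ → Option J) (t : Option J) (b : Nx m Y σ) : 𝔓.B :=
  if blk S b = t then
    match b with
    | Sum.inl (Sum.inl i) => 1 - 𝔓.sc ((m i.1 : ℚ_[p])⁻¹) * NB 𝔓.u i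
    | Sum.inl (Sum.inr _) => 0
    | Sum.inr _ => 1
  else 0

lemma E4_eps (i : FJ m) : 𝔓.sc ((m i.1 : ℚ_[p])⁻¹) * NB 𝔓.u i * NB 𝔓.u i = NB 𝔓.u i ∧
    NB 𝔓.u i * (𝔓.sc ((m i.1 : ℚ_[p])⁻¹) * NB 𝔓.u i) = NB 𝔓.u i := by
  have h0 : (m i.1 : ℚ_[p]) ≠ 0 := Nat.cast_ne_zero.2 i.2
  have h1 : 𝔓.sc ((m i.1 : ℚ_[p])⁻¹) * NB 𝔓.u i * NB 𝔓.u i = NB 𝔓.u i := by
    rw [mul_assoc, NB_sq, ← PGR.sc_natCast, ← mul_assoc, ← map_mul, inv_mul_cancel₀ h0, map_one,
      one_mul]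
  refine ⟨h1, ?_⟩
  rw [← mul_assoc, ← PGR.sc_comm]
  exact h1

lemma E4_kap_ne (S : σ → Option J) (t : Option J) (b : Nx m Y σ) (h : blk S b ≠ t) :
    E4_kap 𝔓 S t b = 0 := by
  unfold E4_kap
  rw [if_neg h]

lemma E4_kap_y (S : σ → Option J) (t : Option J) (y : Y) :
    E4_kap 𝔓 S t (Sum.inl (Sum.inr y) : Nx m Y σ) = 0 := by
  unfold E4_kap
  split_ifs <;> rfl

lemma E4_kap_i (S : σ → Option J) (t : Option J) (i : FJ m) (h : some i.1 = t) :
    E4_kap 𝔓 S t (Sum.inl (Sum.inl i) : Nx m Y σ) =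
      1 - 𝔓.sc ((m i.1 : ℚ_[p])⁻¹) * NB 𝔓.u i := by
  have h' : blk S (Sum.inl (Sum.inl i) : Nx m Y σ) = t := h
  unfold E4_kap
  rw [if_pos h']

lemma E4_kap_c (S : σ → Option J) (t : Option J) (c : σ) (h : S c = t) :
    E4_kap 𝔓 S t (Sum.inr c : Nx m Y σ) = 1 := by
  have h' : blk S (Sum.inr c : Nx m Y σ) = t := h
  unfold E4_kap
  rw [if_pos h']

lemma E4_kap_mem (S : σ → Option J) (t : Option J) (b : Nx m Y σ) :
    E4_kap 𝔓 S t b ∈ At 𝔓 t := by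
  by_cases h : blk S b = t
  · rcases b with (i | y) | c
    · rw [E4_kap_i 𝔓 S t i h]
      refine (At 𝔓 t).sub_mem (At 𝔓 t).one_mem ?_
      have h1 : 𝔓.SuppIn (HS m (some i.1)) (𝔓.sc ((m i.1 : ℚ_[p])⁻¹) * NB 𝔓.u i) := by
        intro g hg
        rw [PGR.cf_sc_mul, NB_supp 𝔓 i g hg, mul_zero]
      have h2 : some i.1 = t := h
      rw [h2] at h1
      exact h1
    · rw [E4_kap_y]
      exact (At 𝔓 t).zero_mem
    · rw [E4_kap_c 𝔓 S t c h]
      exact (At 𝔓 t).one_mem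
  · rw [E4_kap_ne 𝔓 S t b h]
    exact (At 𝔓 t).zero_mem

lemma E4_kap_NB (S : σ → Option J) (t : Option J) (i : FJ m) :
    E4_kap 𝔓 S t (Sum.inl (Sum.inl i) : Nx m Y σ) * NB 𝔓.u i = 0 ∧
      NB 𝔓.u i * E4_kap 𝔓 S t (Sum.inl (Sum.inl i) : Nx m Y σ) = 0 := by
  by_cases h : blk S (Sum.inl (Sum.inl i) : Nx m Y σ) = t
  · rw [E4_kap_i 𝔓 S t i h, sub_mul, mul_sub, one_mul, mul_one, (E4_eps 𝔓 i).1, (E4_eps 𝔓 i).2,
      sub_self]
    exact ⟨rfl, rfl⟩
  · rw [E4_kap_ne 𝔓 S t _ h, zero_mul, mul_zero]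
    exact ⟨rfl, rfl⟩

lemma E4_row_kap (S : σ → Option J) (t : Option J) {v : Nx m Y σ → 𝔓.B} (hv : RowW 𝔓 S t v)
    (b : Nx m Y σ) : v b * E4_kap 𝔓 S t b = v b := by
  obtain ⟨h1, h2, h3, h4⟩ := hv
  by_cases h : blk S b = t
  · rcases b with (i | y) | c
    · rw [E4_kap_i 𝔓 S t i h, mul_sub, mul_one, ← mul_assoc, ← PGR.sc_comm, mul_assoc, h3,
        mul_zero, sub_zero]
    · rw [h4, zero_mul]
    · rw [E4_kap_c 𝔓 S t c h, mul_one]
  · rw [h1 b h, zero_mul]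

lemma E4_col_kap (S : σ → Option J) (t : Option J) {v : Nx m Y σ → 𝔓.B} (hv : ColW 𝔓 S t v)
    (b : Nx m Y σ) : E4_kap 𝔓 S t b * v b = v b := by
  obtain ⟨h1, h2, h3, h4⟩ := hv
  by_cases h : blk S b = t
  · rcases b with (i | y) | c
    · rw [E4_kap_i 𝔓 S t i h, sub_mul, one_mul, mul_assoc, h3, mul_zero, sub_zero]
    · rw [h4, mul_zero]
    · rw [E4_kap_c 𝔓 S t c h, one_mul]
  · rw [h1 b h, mul_zero]

lemma E4_P_row (S : σ → Option J) (t : Option J) (b : Nx m Y σ) :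
    RowW 𝔓 S t (Pi.single b (E4_kap 𝔓 S t b)) := by
  refine ⟨fun a ha => ?_, fun a => ?_, fun i => ?_, fun y => ?_⟩
  · rcases eq_or_ne a b with h | h
    · subst h
      rw [Pi.single_eq_same, E4_kap_ne 𝔓 S t a ha]
    · rw [Pi.single_eq_of_ne h]
  · rcases eq_or_ne a b with h | h
    · subst h
      rw [Pi.single_eq_same]
      exact E4_kap_mem 𝔓 S t a
    · rw [Pi.single_eq_of_ne h]
      exact (At 𝔓 t).zero_mem
  · rcases eq_or_ne (Sum.inl (Sum.inl i)) b with h | h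
    · subst h
      rw [Pi.single_eq_same]
      exact (E4_kap_NB 𝔓 S t i).1
    · rw [Pi.single_eq_of_ne h, zero_mul]
  · rcases eq_or_ne (Sum.inl (Sum.inr y)) b with h | h
    · subst h
      rw [Pi.single_eq_same]
      exact E4_kap_y 𝔓 S t y
    · rw [Pi.single_eq_of_ne h]

lemma E4_kap_idem (S : σ → Option J) (t : Option J) (b : Nx m Y σ) :
    E4_kap 𝔓 S t b * E4_kap 𝔓 S t b = E4_kap 𝔓 S t b := by
  have := E4_row_kap 𝔓 S t (E4_P_row 𝔓 S t b) b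
  rwa [Pi.single_eq_same] at this

/-- the generators of `WW` -/
noncomputable def E4_P (S : σ → Option J) (t : Option J) (b : Nx m Y σ) : WW 𝔓 Y S t :=
  ⟨Pi.single b (E4_kap 𝔓 S t b), E4_P_row 𝔓 S t b⟩

/-- the matrix of an endomorphism -/
noncomputable def E4_G (S : σ → Option J) (t : Option J)
    (α : WW 𝔓 Y S t →ₗ[At 𝔓 t] WW 𝔓 Y S t) : Matrix (Nx m Y σ) (Nx m Y σ) 𝔓.B :=
  fun b b' => (if b = b' then 1 - E4_kap 𝔓 S t b else 0) + (α (E4_P 𝔓 S t b)).1 b'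

lemma E4_sum_apply (S : σ → Option J) (t : Option J) (f : Nx m Y σ → WW 𝔓 Y S t)
    (b : Nx m Y σ) : (∑ a, f a).1 b = ∑ a, (f a).1 b := by
  have h : (∑ a, f a).1 = ∑ a, (f a).1 := by
    exact map_sum (WW 𝔓 Y S t).subtype f Finset.univ
  rw [h, Finset.sum_apply]

lemma E4_sum (S : σ → Option J) (t : Option J) (v : WW 𝔓 Y S t) :
    v = ∑ b, (⟨v.1 b, v.2.2.1 b⟩ : At 𝔓 t) • E4_P 𝔓 S t b := by
  refine Subtype.ext (funext fun b => ?_)
  rw [E4_sum_apply]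
  have h1 : ∀ a, ((⟨v.1 a, v.2.2.1 a⟩ : At 𝔓 t) • E4_P 𝔓 S t a).1 b =
      v.1 a * (Pi.single a (E4_kap 𝔓 S t a) : Nx m Y σ → 𝔓.B) b := fun a => rfl
  simp only [h1]
  rw [Finset.sum_eq_single b]
  · rw [Pi.single_eq_same, E4_row_kap 𝔓 S t v.2]
  · intro a _ hab
    rw [Pi.single_eq_of_ne hab.symm, mul_zero]
  · intro h
    exact absurd (Finset.mem_univ b) h

lemma E4_vecMul (S : σ → Option J) (t : Option J) (α : WW 𝔓 Y S t →ₗ[At 𝔓 t] WW 𝔓 Y S t)
    (v : WW 𝔓 Y S t) : Matrix.vecMul v.1 (E4_G 𝔓 S t α) = (α v).1 := by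
  funext b'
  have h1 : (α v).1 b' = ∑ b, v.1 b * (α (E4_P 𝔓 S t b)).1 b' := by
    conv_lhs => rw [E4_sum 𝔓 S t v, map_sum, E4_sum_apply]
    refine Finset.sum_congr rfl fun b _ => ?_
    rw [map_smul]
    rfl
  rw [h1]
  change ∑ b, v.1 b * ((if b = b' then 1 - E4_kap 𝔓 S t b else 0) +
    (α (E4_P 𝔓 S t b)).1 b') = _
  refine Finset.sum_congr rfl fun b _ => ?_
  rw [mul_add]
  split_ifs with h
  · rw [mul_sub, mul_one, E4_row_kap 𝔓 S t v.2, sub_self, zero_add]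
  · rw [mul_zero, zero_add]

lemma E4_mul (S : σ → Option J) (t : Option J) (α β : WW 𝔓 Y S t →ₗ[At 𝔓 t] WW 𝔓 Y S t)
    (h : ∀ x, β (α x) = x) : E4_G 𝔓 S t α * E4_G 𝔓 S t β = 1 := by
  ext b b''
  obtain ⟨k, hk⟩ : ∃ k, k = E4_kap 𝔓 S t b := ⟨_, rfl⟩
  have hk1 : k * k = k := by rw [hk, E4_kap_idem]
  have h1 : E4_G 𝔓 S t α b = Pi.single b (1 - k) + (α (E4_P 𝔓 S t b)).1 := by
    funext b'
    rw [Pi.add_apply]
    change (if b = b' then 1 - E4_kap 𝔓 S t b else 0) + (α (E4_P 𝔓 S t b)).1 b' = _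
    congr 1
    rcases eq_or_ne b b' with h2 | h2
    · subst h2
      rw [if_pos rfl, Pi.single_eq_same, hk]
    · rw [if_neg h2, Pi.single_eq_of_ne h2.symm]
  have h2 : (E4_G 𝔓 S t α * E4_G 𝔓 S t β) b b'' =
      Matrix.vecMul (E4_G 𝔓 S t α b) (E4_G 𝔓 S t β) b'' := rfl
  have h3 : (1 - k) * (β (E4_P 𝔓 S t b)).1 b'' = 0 := by
    have h4 : (⟨1 - k, (At 𝔓 t).sub_mem (At 𝔓 t).one_mem (by rw [hk]; exact E4_kap_mem 𝔓 S t b)⟩ :
        At 𝔓 t) • E4_P 𝔓 S t b = 0 := by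
      refine Subtype.ext (funext fun a => ?_)
      change (1 - k) * (Pi.single b (E4_kap 𝔓 S t b) : Nx m Y σ → 𝔓.B) a = 0
      rcases eq_or_ne a b with h5 | h5
      · subst h5
        rw [Pi.single_eq_same, ← hk, sub_mul, one_mul, hk1, sub_self]
      · rw [Pi.single_eq_of_ne h5, mul_zero]
    have h5 := congrArg (fun x => (β x).1 b'') h4
    simp only [map_smul, map_zero] at h5
    exact h5
  rw [h2, h1, Matrix.add_vecMul, Pi.add_apply, E4_vecMul, h, Matrix.single_vecMul]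
  rw [Pi.smul_apply, smul_eq_mul]
  change (1 - k) * ((if b = b'' then 1 - E4_kap 𝔓 S t b else 0) + (β (E4_P 𝔓 S t b)).1 b'') +
    (Pi.single b (E4_kap 𝔓 S t b) : Nx m Y σ → 𝔓.B) b'' = _
  rw [mul_add, h3, add_zero, ← hk]
  rcases eq_or_ne b b'' with h6 | h6
  · subst h6
    rw [if_pos rfl, Pi.single_eq_same, Matrix.one_apply_eq]
    rw [sub_mul, one_mul, mul_sub, mul_one, hk1, sub_self, sub_zero, sub_add_cancel]
  · rw [if_neg h6, mul_zero, Pi.single_eq_of_ne h6.symm, Matrix.one_apply_ne h6, add_zero]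

/-- an automorphism of the module `WW` is given by a matrix in `BM` -/
theorem exists_BM (S : σ → Option J) (t : Option J)
    (α : WW 𝔓 Y S t ≃ₗ[At 𝔓 t] WW 𝔓 Y S t) :
    ∃ g : (Matrix (Nx m Y σ) (Nx m Y σ) 𝔓.B)ˣ, BM 𝔓 S t g ∧
      ∀ v : WW 𝔓 Y S t, Matrix.vecMul v.1 g.1 = (α v).1 := by
  have e1 : ∀ b (i : FJ m), (if b = Sum.inl (Sum.inl i) then 1 - E4_kap 𝔓 S t b else 0) *
      NB 𝔓.u i = if b = (Sum.inl (Sum.inl i) : Nx m Y σ) then NB 𝔓.u i else 0 := by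
    intro b i
    split_ifs with h
    · subst h
      rw [sub_mul, one_mul, (E4_kap_NB 𝔓 S t i).1, sub_zero]
    · rw [zero_mul]
  refine ⟨⟨E4_G 𝔓 S t α.toLinearMap, E4_G 𝔓 S t α.symm.toLinearMap,
    E4_mul 𝔓 S t _ _ fun x => α.symm_apply_apply x,
    E4_mul 𝔓 S t _ _ fun x => α.apply_symm_apply x⟩, ⟨?_, ?_, ?_, ?_, ?_⟩,
    fun v => E4_vecMul 𝔓 S t α.toLinearMap v⟩
  · rw [mem_SS_iff]
    refine ⟨fun a i => ?_, fun a y => ?_⟩
    · change ((if a = Sum.inl (Sum.inl i) then 1 - E4_kap 𝔓 S t a else 0) +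
        (α (E4_P 𝔓 S t a)).1 (Sum.inl (Sum.inl i))) * _ = _
      rw [add_mul, (α (E4_P 𝔓 S t a)).2.2.2.1 i, add_zero, e1]
    · change ((if a = Sum.inl (Sum.inr y) then 1 - E4_kap 𝔓 S t a else 0) +
        (α (E4_P 𝔓 S t a)).1 (Sum.inl (Sum.inr y))) = _
      rw [(α (E4_P 𝔓 S t a)).2.2.2.2 y, add_zero]
      split_ifs with h
      · subst h
        rw [E4_kap_y, sub_zero]
      · rfl
  · intro a b hab
    change ((if a = b then 1 - E4_kap 𝔓 S t a else 0) + (α (E4_P 𝔓 S t a)).1 b) = _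
    have h1 : (α (E4_P 𝔓 S t a)).1 b = 0 := by
      rcases hab with h | h
      · have h2 : E4_P 𝔓 S t a = 0 := by
          refine Subtype.ext ?_
          change (Pi.single a (E4_kap 𝔓 S t a) : Nx m Y σ → 𝔓.B) = 0
          rw [E4_kap_ne 𝔓 S t a h, Pi.single_zero]
        rw [h2, map_zero]
        rfl
      · exact (α (E4_P 𝔓 S t a)).2.1 b h
    rw [h1, add_zero]
    split_ifs with h
    · subst h
      rw [E4_kap_ne 𝔓 S t a (by rcases hab with h | h <;> exact h), sub_zero]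
    · rfl
  · intro a b
    change ((if a = b then 1 - E4_kap 𝔓 S t a else 0) + (α (E4_P 𝔓 S t a)).1 b) ∈ At 𝔓 t
    refine (At 𝔓 t).add_mem ?_ ((α (E4_P 𝔓 S t a)).2.2.1 b)
    split_ifs
    · exact (At 𝔓 t).sub_mem (At 𝔓 t).one_mem (E4_kap_mem 𝔓 S t a)
    · exact (At 𝔓 t).zero_mem
  · intro i b
    change NB 𝔓.u i * ((if Sum.inl (Sum.inl i) = b then 1 - E4_kap 𝔓 S t (Sum.inl (Sum.inl i)) else 0)
      + (α (E4_P 𝔓 S t (Sum.inl (Sum.inl i)))).1 b) = _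
    have h1 : NB 𝔓.u i * (α (E4_P 𝔓 S t (Sum.inl (Sum.inl i)))).1 b = 0 := by
      by_cases h : some i.1 = t
      · have h2 : NB 𝔓.u i ∈ At 𝔓 t := by
          have := NB_supp 𝔓 i
          rw [h] at this
          exact this
        have h4 : (⟨NB 𝔓.u i, h2⟩ : At 𝔓 t) • E4_P 𝔓 (Y := Y) S t (Sum.inl (Sum.inl i)) = 0 := by
          refine Subtype.ext (funext fun a => ?_)
          change NB 𝔓.u i * (Pi.single (Sum.inl (Sum.inl i))
            (E4_kap 𝔓 S t (Sum.inl (Sum.inl i))) : Nx m Y σ → 𝔓.B) a = 0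
          rcases eq_or_ne a (Sum.inl (Sum.inl i)) with h5 | h5
          · subst h5
            rw [Pi.single_eq_same, (E4_kap_NB 𝔓 S t i).2]
          · rw [Pi.single_eq_of_ne h5, mul_zero]
        have h5 := congrArg (fun x => (α x).1 b) h4
        simp only [map_smul, map_zero] at h5
        exact h5
      · have h2 : E4_P 𝔓 (Y := Y) S t (Sum.inl (Sum.inl i)) = 0 := by
          refine Subtype.ext ?_
          change (Pi.single _ (E4_kap 𝔓 S t (Sum.inl (Sum.inl i))) : Nx m Y σ → 𝔓.B) = 0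
          rw [E4_kap_ne 𝔓 S t (Sum.inl (Sum.inl i)) h, Pi.single_zero]
        rw [h2, map_zero]
        exact mul_zero _
    rw [mul_add, h1, add_zero]
    rcases eq_or_ne b (Sum.inl (Sum.inl i)) with h | h
    · subst h
      rw [if_pos rfl, if_pos rfl, mul_sub, mul_one, (E4_kap_NB 𝔓 S t i).2, sub_zero]
    · rw [if_neg h, if_neg h.symm, mul_zero]
  · intro y b
    change ((if Sum.inl (Sum.inr y) = b then 1 - E4_kap 𝔓 S t (Sum.inl (Sum.inr y)) else 0) +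
      (α (E4_P 𝔓 S t (Sum.inl (Sum.inr y)))).1 b) = _
    have h2 : E4_P 𝔓 (Y := Y) S t (Sum.inl (Sum.inr y)) = 0 := by
      refine Subtype.ext ?_
      change (Pi.single _ (E4_kap 𝔓 S t (Sum.inl (Sum.inr y))) : Nx m Y σ → 𝔓.B) = 0
      rw [E4_kap_y, Pi.single_zero]
    rw [h2, map_zero, E4_kap_y, sub_zero]
    have h3 : ((0 : WW 𝔓 Y S t).1 : Nx m Y σ → 𝔓.B) b = 0 := rfl
    rw [h3, add_zero]
    rcases eq_or_ne b (Sum.inl (Sum.inr y)) with h | h
    · subst h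
      rfl
    · rw [if_neg h, if_neg h.symm]

lemma E4_NB_ne (i : FJ m) : NB 𝔓.u i ≠ 0 := by
  intro h
  obtain ⟨φ, -⟩ : ∃ φ : Gp m →* Multiplicative (ZMod 1), φ = 1 := ⟨1, rfl⟩
  have h1 : ∀ g : Gp m, 𝔓.pr (1 : Gp m →* Multiplicative (ZMod 1)) (𝔓.u g) = 1 := by
    intro g
    have h2 : 𝔓.u g = 𝔓.emb (MonoidAlgebra.of ℚ_[p] (Gp m) g) := rfl
    rw [h2, 𝔓.pr_emb]
    simp [MonoidAlgebra.one_def]
  have h2 : 𝔓.pr (1 : Gp m →* Multiplicative (ZMod 1)) (NB 𝔓.u i) = (m i.1 : MonoidAlgebra ℚ_[p]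
      (Multiplicative (ZMod 1))) := by
    unfold NB
    rw [map_sum]
    simp only [map_pow, h1, one_pow, Finset.sum_const, Finset.card_range, nsmul_eq_mul, mul_one]
  rw [h, map_zero] at h2
  have h3 := congrArg (fun x => x.coeff 1) h2
  simp only [MonoidAlgebra.natCast_def, MonoidAlgebra.coeff_single, Finsupp.single_eq_same,
    MonoidAlgebra.coeff_zero, Finsupp.coe_zero, Pi.zero_apply] at h3
  exact i.2 (by exact_mod_cast h3.symm)

/-- completion of a unimodular row and a dual column (`exists_auto`) -/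
theorem exists_comp (S : σ → Option J) (t : Option J) (v w : Nx m Y σ → 𝔓.B) (hv : RowW 𝔓 S t v)
    (hw : ColW 𝔓 S t w) (h : ∑ b, v b * w b = 1) :
    ∃ c : σ, S c = t ∧ ∃ g : (Matrix (Nx m Y σ) (Nx m Y σ) 𝔓.B)ˣ, BM 𝔓 S t g ∧
      Matrix.vecMul v g.1 = Pi.single (Sum.inr c) 1 ∧ ∀ a, g.1 a (Sum.inr c) = w a := by
  have hfin := At_fin 𝔓 t
  obtain ⟨c, hc⟩ : ∃ c, S c = t := by
    by_contra hno
    push Not at hno
    by_cases hi : ∃ i : FJ m, some i.1 = t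
    · obtain ⟨i, hi⟩ := hi
      have h1 : ∑ b, v b * w b = v (Sum.inl (Sum.inl i)) * w (Sum.inl (Sum.inl i)) := by
        refine Finset.sum_eq_single _ ?_ (fun h => absurd (Finset.mem_univ _) h)
        rintro ((i' | y) | c) - hb
        · have h2 : blk S (Sum.inl (Sum.inl i') : Nx m Y σ) ≠ t := by
            intro h3
            have h4 : some i'.1 = some i.1 := by
              rw [hi]
              exact h3
            exact hb (by rw [Subtype.ext (Option.some.inj h4)])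
          rw [hv.1 _ h2, zero_mul]
        · rw [hv.2.2.2, zero_mul]
        · rw [hv.1 (Sum.inr c) (hno c), zero_mul]
      rw [h1] at h
      have h2 := hv.2.2.1 i
      have h3 := hw.2.2.1 i
      have h4 : NB 𝔓.u i * (v (Sum.inl (Sum.inl i)) * w (Sum.inl (Sum.inl i))) = 0 := by
        have h5 : 𝔓.SuppIn (HS m t) (NB 𝔓.u i) := by
          rw [← hi]
          exact NB_supp 𝔓 i
        rw [← mul_assoc, supp_comm 𝔓 h5 (hv.2.1 _), h2, zero_mul]
      rw [h, mul_one] at h4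
      exact E4_NB_ne 𝔓 i h4
    · have h1 : ∑ b, v b * w b = 0 := by
        refine Finset.sum_eq_zero ?_
        rintro ((i' | y) | c) -
        · rw [hv.1 (Sum.inl (Sum.inl i')) (fun h3 => hi ⟨i', h3⟩), zero_mul]
        · rw [hv.2.2.2, zero_mul]
        · rw [hv.1 (Sum.inr c) (hno c), zero_mul]
      rw [h1] at h
      exact E2_nontrivial 𝔓 h.symm
  obtain ⟨φ, hφ⟩ : ∃ φ : WW 𝔓 Y S t →ₗ[At 𝔓 t] At 𝔓 t, ∀ x, (φ x).1 = ∑ b, x.1 b * w b := by
    refine ⟨{ toFun := fun x => ⟨∑ b, x.1 b * w b, (At 𝔓 t).sum_mem fun b _ =>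
                (At 𝔓 t).mul_mem (x.2.2.1 b) (hw.2.1 b)⟩
              map_add' := ?_
              map_smul' := ?_ }, fun x => rfl⟩
    · intro x y
      refine Subtype.ext ?_
      change ∑ b, (x.1 b + y.1 b) * w b = ∑ b, x.1 b * w b + ∑ b, y.1 b * w b
      rw [← Finset.sum_add_distrib]
      exact Finset.sum_congr rfl fun b _ => add_mul _ _ _
    · intro a x
      refine Subtype.ext ?_
      change ∑ b, (a.1 * x.1 b) * w b = a.1 * ∑ b, x.1 b * w b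
      rw [Finset.mul_sum]
      exact Finset.sum_congr rfl fun b _ => mul_assoc _ _ _
  obtain ⟨π, hπ⟩ : ∃ π : WW 𝔓 Y S t →ₗ[At 𝔓 t] At 𝔓 t, ∀ x, (π x).1 = x.1 (Sum.inr c) := by
    refine ⟨{ toFun := fun x => ⟨x.1 (Sum.inr c), x.2.2.1 _⟩
              map_add' := ?_
              map_smul' := ?_ }, fun x => rfl⟩
    · intro x y
      exact Subtype.ext rfl
    · intro a x
      exact Subtype.ext rfl
  have hPc : (E4_P 𝔓 (Y := Y) S t (Sum.inr c)).1 = Pi.single (Sum.inr c) 1 := by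
    change (Pi.single (Sum.inr c) (E4_kap 𝔓 S t (Sum.inr c)) : Nx m Y σ → 𝔓.B) = _
    rw [E4_kap_c 𝔓 S t c hc]
  obtain ⟨α, hα1, hα2⟩ := exists_auto (A := At 𝔓 t) (N := WW 𝔓 Y S t) ⟨v, hv⟩
    (E4_P 𝔓 S t (Sum.inr c)) φ π (Subtype.ext (by rw [hφ]; exact h))
    (Subtype.ext (by rw [hπ, hPc, Pi.single_eq_same]; rfl))
  obtain ⟨g, hg, hgα⟩ := exists_BM 𝔓 S t α
  refine ⟨c, hc, g, hg, ?_, fun a => ?_⟩
  · rw [hgα ⟨v, hv⟩, hα1, hPc]
  · have h1 : ∀ x : WW 𝔓 Y S t, (α x).1 (Sum.inr c) = ∑ b, x.1 b * w b := by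
      intro x
      rw [← hπ, ← hφ, ← hα2]
      rfl
    have h2 : E4_kap 𝔓 S t a * g.1 a (Sum.inr c) = w a := by
      have h3 := congrFun (hgα (E4_P 𝔓 S t a)) (Sum.inr c)
      rw [h1] at h3
      change Matrix.vecMul (Pi.single a (E4_kap 𝔓 S t a)) g.1 (Sum.inr c) =
        ∑ b, (Pi.single a (E4_kap 𝔓 S t a) : Nx m Y σ → 𝔓.B) b * w b at h3
      rw [Matrix.single_vecMul, Pi.smul_apply, smul_eq_mul, Finset.sum_eq_single a] at h3
      · rw [Pi.single_eq_same, E4_col_kap 𝔓 S t hw] at h3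
        exact h3
      · intro b _ hb
        rw [Pi.single_eq_of_ne hb, zero_mul]
      · intro h
        exact absurd (Finset.mem_univ _) h
    rw [← h2]
    by_cases ha : blk S a = t
    · rcases a with (i | y) | c'
      · rw [E4_kap_i 𝔓 S t i ha, sub_mul, one_mul, mul_assoc, hg.2.2.2.1, if_neg (by simp),
          mul_zero, sub_zero]
      · rw [hg.2.2.2.2, if_neg (by simp), mul_zero]
      · rw [E4_kap_c 𝔓 S t c' ha, one_mul]
    · rw [hg.2.1 _ _ (Or.inl ha), if_neg, mul_zero]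
      rintro rfl
      exact ha hc

end FP
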