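import Pool.Agent.Lib.MP_2d4659_gt.FP.E4

/-!
# Block matrices are products of elementary and diagonal ones

Elimination over the commutative semilocal ring `At t`: if there is a slot `c` with `S c = t`, make the
`(c, c)` entry a unit by stable range one (adding multiples of the other rows to row `c`), clear column `c`
and row `c`, and replace the unit `u` at `c` by the scalar given by its augmentation, moving
`u_1 = u / scalar` (which satisfies `N u_1 = N`) to the index `i` by the Whitehead identity in the corner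
ring `(1 - ε) At`.  If there is no slot the matrix is diagonal.
-/

set_option autoImplicit false

namespace FP

section mats

variable {B n : Type} [Ring B] [Fintype n] [DecidableEq n]

/-- transvections -/
def E5_T (a b : n) (hab : a ≠ b) (x : B) : (Matrix n n B)ˣ where
  val := 1 + Matrix.single a b x
  inv := 1 - Matrix.single a b x
  val_inv := by
    have h : Matrix.single a b x * Matrix.single a b x = 0 :=
      Matrix.single_mul_single_of_ne _ _ _ _ hab.symm _
    rw [mul_sub, mul_one, add_mul, one_mul, h]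
    abel
  inv_val := by
    have h : Matrix.single a b x * Matrix.single a b x = 0 :=
      Matrix.single_mul_single_of_ne _ _ _ _ hab.symm _
    rw [sub_mul, one_mul, mul_add, mul_one, h]
    abel

lemma E5_T_val (a b : n) (hab : a ≠ b) (x : B) : (E5_T a b hab x).1 = 1 + Matrix.single a b x := rfl

lemma E5_W (i j : n) (hij : i ≠ j) (a b s : B) (hab : a * b = s) (hba : b * a = s)
    (hsa : s * a = a) : (1 + Matrix.single i j a) * (1 + Matrix.single j i (-b)) *
      (1 + Matrix.single i j a) = 1 - Matrix.single i i s - Matrix.single j j s +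
        Matrix.single i j a - Matrix.single j i b := by
  obtain ⟨A, hA⟩ : ∃ A, A = Matrix.single i j a := ⟨_, rfl⟩
  obtain ⟨C, hC⟩ : ∃ C, C = Matrix.single j i b := ⟨_, rfl⟩
  have h1 : Matrix.single j i (-b) = -C := by
    rw [hC]
    ext k l
    rw [Matrix.neg_apply]
    by_cases h : j = k ∧ i = l
    · obtain ⟨rfl, rfl⟩ := h
      rw [Matrix.single_apply_same, Matrix.single_apply_same]
    · rw [Matrix.single_apply_of_ne _ _ _ _ _ h, Matrix.single_apply_of_ne _ _ _ _ _ h, neg_zero]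
  have h2 : A * A = 0 := by
    rw [hA]
    exact Matrix.single_mul_single_of_ne _ _ _ _ hij.symm _
  have h3 : A * C = Matrix.single i i s := by
    rw [hA, hC, Matrix.single_mul_single_same, hab]
  have h4 : C * A = Matrix.single j j s := by
    rw [hA, hC, Matrix.single_mul_single_same, hba]
  have h5 : A * C * A = A := by
    rw [h3, hA, Matrix.single_mul_single_same, hsa]
  rw [h1, ← hA, ← hC, ← h3, ← h4]
  have h6 : (1 + A) * (1 + -C) * (1 + A) = 1 + A - C - A * C + A + A * A - C * A - A * C * A := by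
    noncomm_ring
  rw [h6, h2, h5]
  abel

lemma E5_WW (i j : n) (hij : i ≠ j) (a b s : B) (hab : a * b = s) (hba : b * a = s)
    (hsa : s * a = a) (has : a * s = a) (hbs : b * s = b) (hss : s * s = s) :
    (1 + Matrix.single i j a) * (1 + Matrix.single j i (-b)) * (1 + Matrix.single i j a) *
      ((1 + Matrix.single i j (-s)) * (1 + Matrix.single j i s) * (1 + Matrix.single i j (-s))) =
      1 - Matrix.single i i s - Matrix.single j j s + Matrix.single i i a +
        Matrix.single j j b := by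
  have e1 := E5_W i j hij a b s hab hba hsa
  have e2 := E5_W i j hij (-s) (-s) s (by rw [neg_mul_neg, hss]) (by rw [neg_mul_neg, hss])
    (by rw [mul_neg, hss])
  rw [neg_neg] at e2
  rw [e1, e2]
  have hz : ∀ (k l k' l' : n) (x y : B), l ≠ k' →
      Matrix.single k l x * Matrix.single k' l' y = 0 :=
    fun k l k' l' x y h => Matrix.single_mul_single_of_ne _ _ _ _ h _
  have hn : ∀ (k l : n) (x : B), Matrix.single k l (-x) = -Matrix.single k l x := by
    intro k l x
    ext k' l'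
    rw [Matrix.neg_apply]
    by_cases h : k = k' ∧ l = l'
    · obtain ⟨rfl, rfl⟩ := h
      rw [Matrix.single_apply_same, Matrix.single_apply_same]
    · rw [Matrix.single_apply_of_ne _ _ _ _ _ h, Matrix.single_apply_of_ne _ _ _ _ _ h, neg_zero]
  rw [hn, hn]
  simp only [mul_add, add_mul, mul_sub, sub_mul, mul_one, one_mul, mul_neg,
    Matrix.single_mul_single_same, hz _ _ _ _ _ _ hij, hz _ _ _ _ _ _ hij.symm, hss, has, hbs]
  abel

end mats

variable {J : Type} [DecidableEq J] [Fintype J] {m : J → ℕ} {Y σ : Type} [Fintype Y] [DecidableEq Y]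
  [Fintype σ] [DecidableEq σ] {p : ℕ} [Fact p.Prime] (𝔓 : PGR p (Gp m))

/-- Whitehead: a unit `u_1 ∈ At (some i)` with `N u_1 = N` can be moved from a slot `c` to the index `i` -/
theorem whitehead (i : FJ m) (c : σ) (x x' : 𝔓.B) (hx : 𝔓.SuppIn (HS m (some i.1)) x)
    (hx' : 𝔓.SuppIn (HS m (some i.1)) x') (h1 : x * x' = 1) (h2 : x' * x = 1)
    (hN : NB 𝔓.u i * x = NB 𝔓.u i) :
    ∃ M ∈ EE 𝔓.u Y σ, M.1 = Matrix.diagonal (Function.update (Function.update (fun _ => 1)
      (Sum.inl (Sum.inl i)) x') (Sum.inr c) x) := by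
  obtain ⟨ε, hε⟩ : ∃ ε, ε = 𝔓.sc ((m i.1 : ℚ_[p])⁻¹) * NB 𝔓.u i := ⟨_, rfl⟩
  obtain ⟨s, hs⟩ : ∃ s, s = 1 - ε := ⟨_, rfl⟩
  have hNB := E4_eps 𝔓 i
  rw [← hε] at hNB
  have hεs : 𝔓.SuppIn (HS m (some i.1)) ε := by
    intro g hg
    rw [hε, PGR.cf_sc_mul, NB_supp 𝔓 i g hg, mul_zero]
  have hss' : 𝔓.SuppIn (HS m (some i.1)) s := by
    rw [hs]
    exact (At 𝔓 (some i.1)).sub_mem (At 𝔓 (some i.1)).one_mem hεs
  have hN' : NB 𝔓.u i * x' = NB 𝔓.u i := by
    calc NB 𝔓.u i * x' = NB 𝔓.u i * x * x' := by rw [hN]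
      _ = NB 𝔓.u i := by rw [mul_assoc, h1, mul_one]
  have hεx : ε * x = ε := by rw [hε, mul_assoc, hN]
  have hεx' : ε * x' = ε := by rw [hε, mul_assoc, hN']
  have hεε : ε * ε = ε := by
    nth_rewrite 2 [hε]
    rw [← mul_assoc, ← PGR.sc_comm, mul_assoc, hNB.1, ← hε]
  have hss : s * s = s := by
    rw [hs, sub_mul, one_mul, mul_sub, mul_one, hεε, sub_self, sub_zero]
  have cx : x * s = s * x := supp_comm 𝔓 hx hss'
  have cx' : x' * s = s * x' := supp_comm 𝔓 hx' hss'
  have hsN : s * NB 𝔓.u i = 0 := by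
    rw [hs, sub_mul, one_mul, hNB.1, sub_self]
  -- the elements
  have hab : (x' * s) * (x * s) = s := by
    rw [cx, mul_assoc, ← mul_assoc s s x, hss, ← mul_assoc, cx', mul_assoc, h2, mul_one]
  have hba : (x * s) * (x' * s) = s := by
    rw [cx', mul_assoc, ← mul_assoc s s x', hss, ← mul_assoc, cx, mul_assoc, h1, mul_one]
  have hsa : s * (x' * s) = x' * s := by rw [cx', ← mul_assoc, hss]
  have has : (x' * s) * s = x' * s := by rw [mul_assoc, hss]
  have hbs : (x * s) * s = x * s := by rw [mul_assoc, hss]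
  obtain ⟨a, ha⟩ : ∃ a : Nx m Y σ, a = Sum.inl (Sum.inl i) := ⟨_, rfl⟩
  obtain ⟨d, hd⟩ : ∃ d : Nx m Y σ, d = Sum.inr c := ⟨_, rfl⟩
  have hadn : a ≠ d := by
    rw [ha, hd]
    exact Sum.inl_ne_inr
  have hE1 : ∀ y, E5_T a d hadn y ∈ EE 𝔓.u Y σ := by
    intro y
    refine Subgroup.subset_closure (IsEl.off a d y hadn ?_ rfl)
    rw [hd]
    trivial
  have hE2 : ∀ y, y * NB 𝔓.u i = 0 → E5_T d a hadn.symm y ∈ EE 𝔓.u Y σ := by
    intro y hy
    refine Subgroup.subset_closure (IsEl.off d a y hadn.symm ?_ rfl)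
    rw [ha]
    exact (ann_right 𝔓 i y).1 hy
  have hE3 := hE2 (-(x * s)) (by rw [neg_mul, mul_assoc, hsN, mul_zero, neg_zero])
  have hE4 := hE2 s hsN
  refine ⟨E5_T a d hadn (x' * s) * E5_T d a hadn.symm (-(x * s)) * E5_T a d hadn (x' * s) *
    (E5_T a d hadn (-s) * E5_T d a hadn.symm s * E5_T a d hadn (-s)),
    mul_mem (mul_mem (mul_mem (hE1 _) hE3) (hE1 _)) (mul_mem (mul_mem (hE1 _) hE4) (hE1 _)), ?_⟩
  rw [Units.val_mul, Units.val_mul, Units.val_mul, Units.val_mul, Units.val_mul, E5_T_val, E5_T_val,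
    E5_T_val, E5_T_val, E5_WW a d hadn _ _ s hab hba hsa has hbs hss]
  have e1 : x' * s = x' - ε := by
    rw [hs, mul_sub, mul_one, supp_comm 𝔓 hx' hεs, hεx']
  have e2 : x * s = x - ε := by
    rw [hs, mul_sub, mul_one, supp_comm 𝔓 hx hεs, hεx]
  rw [← ha, ← hd, e1, e2, hs]
  ext k l
  rw [Matrix.add_apply, Matrix.add_apply, Matrix.sub_apply, Matrix.sub_apply]
  rcases eq_or_ne k l with h | h
  · subst h
    rw [Matrix.one_apply_eq, Matrix.diagonal_apply_eq]
    rcases eq_or_ne k d with h3 | h3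
    · subst h3
      rw [Function.update_self, Matrix.single_apply_same, Matrix.single_apply_same,
        Matrix.single_apply_of_ne _ _ _ _ _ (fun h => hadn h.1),
        Matrix.single_apply_of_ne _ _ _ _ _ (fun h => hadn h.1)]
      abel
    · rw [Function.update_of_ne h3]
      rcases eq_or_ne k a with h4 | h4
      · subst h4
        rw [Function.update_self, Matrix.single_apply_same, Matrix.single_apply_same,
          Matrix.single_apply_of_ne _ _ _ _ _ (fun h => h3 h.1.symm),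
          Matrix.single_apply_of_ne _ _ _ _ _ (fun h => h3 h.1.symm)]
        abel
      · rw [Function.update_of_ne h4, Matrix.single_apply_of_ne _ _ _ _ _ (fun h => h3 h.1.symm),
          Matrix.single_apply_of_ne _ _ _ _ _ (fun h => h3 h.1.symm),
          Matrix.single_apply_of_ne _ _ _ _ _ (fun h => h4 h.1.symm),
          Matrix.single_apply_of_ne _ _ _ _ _ (fun h => h4 h.1.symm)]
        abel
  · rw [Matrix.one_apply_ne h, Matrix.diagonal_apply_ne _ h,
      Matrix.single_apply_of_ne _ _ _ _ _ (fun h' => h (h'.1.symm.trans h'.2)),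
      Matrix.single_apply_of_ne _ _ _ _ _ (fun h' => h (h'.1.symm.trans h'.2)),
      Matrix.single_apply_of_ne _ _ _ _ _ (fun h' => h (h'.1.symm.trans h'.2)),
      Matrix.single_apply_of_ne _ _ _ _ _ (fun h' => h (h'.1.symm.trans h'.2))]
    abel

/-- several transvections in one row -/
lemma E5_row (d : Nx m Y σ) (X : Nx m Y σ → 𝔓.B) (hd : X d = 0) (hX : ∀ b, InI 𝔓.u b (X b)) :
    ∃ E ∈ EE 𝔓.u Y σ, ∀ k l, E.1 k l = (if k = l then 1 else 0) + if k = d then X l else 0 := by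
  have h1 : ∀ s : Finset (Nx m Y σ), ∃ E ∈ EE 𝔓.u Y σ,
      E.1 = 1 + ∑ b ∈ s, Matrix.single d b (X b) := by
    intro s
    induction s using Finset.induction_on with
    | empty => exact ⟨1, one_mem _, by rw [Finset.sum_empty, add_zero]; rfl⟩
    | insert b s hb ih =>
      obtain ⟨E, hE, hE1⟩ := ih
      rcases eq_or_ne d b with h | h
      · subst h
        refine ⟨E, hE, ?_⟩
        rw [Finset.sum_insert hb, hd, Matrix.single_zero, zero_add, hE1]
      · refine ⟨E * E5_T d b h (X b), mul_mem hE (Subgroup.subset_closure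
          (IsEl.off d b (X b) h (hX b) rfl)), ?_⟩
        have hz : (∑ b' ∈ s, Matrix.single d b' (X b')) * Matrix.single d b (X b) = 0 := by
          rw [Finset.sum_mul]
          refine Finset.sum_eq_zero fun b' _ => ?_
          rcases eq_or_ne b' d with h2 | h2
          · subst h2
            rw [hd, Matrix.single_zero, zero_mul]
          · exact Matrix.single_mul_single_of_ne _ _ _ _ h2 _
        rw [Units.val_mul, E5_T_val, mul_add, mul_one, hE1, add_mul, one_mul, hz,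
          Finset.sum_insert hb]
        abel
  obtain ⟨E, hE, hE1⟩ := h1 Finset.univ
  refine ⟨E, hE, fun k l => ?_⟩
  rw [hE1, Matrix.add_apply, Matrix.sum_apply, Matrix.one_apply]
  congr 1
  rw [Finset.sum_eq_single l]
  · split_ifs with h
    · subst h
      exact Matrix.single_apply_same _ _ _
    · exact Matrix.single_apply_of_ne _ _ _ _ _ fun h' => h h'.1.symm
  · intro b _ hb
    exact Matrix.single_apply_of_ne _ _ _ _ _ fun h' => hb h'.2
  · intro h
    exact absurd (Finset.mem_univ _) h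

/-- several transvections in the column of a slot -/
lemma E5_col (c : σ) (X : Nx m Y σ → 𝔓.B) (hd : X (Sum.inr c) = 0) :
    ∃ E ∈ EE 𝔓.u Y σ, ∀ k l, E.1 k l = (if k = l then 1 else 0) +
      if l = Sum.inr c then X k else 0 := by
  obtain ⟨d, hdd⟩ : ∃ d : Nx m Y σ, d = Sum.inr c := ⟨_, rfl⟩
  rw [← hdd] at hd ⊢
  have h1 : ∀ s : Finset (Nx m Y σ), ∃ E ∈ EE 𝔓.u Y σ,
      E.1 = 1 + ∑ b ∈ s, Matrix.single b d (X b) := by
    intro s
    induction s using Finset.induction_on with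
    | empty => exact ⟨1, one_mem _, by rw [Finset.sum_empty, add_zero]; rfl⟩
    | insert b s hb ih =>
      obtain ⟨E, hE, hE1⟩ := ih
      rcases eq_or_ne b d with h | h
      · subst h
        refine ⟨E, hE, ?_⟩
        rw [Finset.sum_insert hb, hd, Matrix.single_zero, zero_add, hE1]
      · refine ⟨E * E5_T b d h (X b), mul_mem hE (Subgroup.subset_closure
          (IsEl.off b d (X b) h (by rw [hdd]; trivial) rfl)), ?_⟩
        have hz : (∑ b' ∈ s, Matrix.single b' d (X b')) * Matrix.single b d (X b) = 0 := by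
          rw [Finset.sum_mul]
          exact Finset.sum_eq_zero fun b' _ => Matrix.single_mul_single_of_ne _ _ _ _ h.symm _
        rw [Units.val_mul, E5_T_val, mul_add, mul_one, hE1, add_mul, one_mul, hz,
          Finset.sum_insert hb]
        abel
  obtain ⟨E, hE, hE1⟩ := h1 Finset.univ
  refine ⟨E, hE, fun k l => ?_⟩
  rw [hE1, Matrix.add_apply, Matrix.sum_apply, Matrix.one_apply]
  congr 1
  rw [Finset.sum_eq_single k]
  · split_ifs with h
    · subst h
      exact Matrix.single_apply_same _ _ _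
    · exact Matrix.single_apply_of_ne _ _ _ _ _ fun h' => h h'.2.symm
  · intro b _ hb
    exact Matrix.single_apply_of_ne _ _ _ _ _ fun h' => hb h'.1
  · intro h
    exact absurd (Finset.mem_univ _) h

/-- diagonal matrices in `DD` -/
lemma E5_DD (D D' : Nx m Y σ → 𝔓.B) (h1 : ∀ a, D a * D' a = 1) (h2 : ∀ a, D' a * D a = 1)
    (h3 : ∀ i : FJ m, 𝔓.SuppIn (HS m (some i.1)) (D (Sum.inl (Sum.inl i))) ∧
      𝔓.SuppIn (HS m (some i.1)) (D' (Sum.inl (Sum.inl i))) ∧
      NB 𝔓.u i * D (Sum.inl (Sum.inl i)) = NB 𝔓.u i)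
    (h4 : ∀ y : Y, D (Sum.inl (Sum.inr y)) = 1) (h5 : ∀ c : σ, ∃ a : ℚ_[p], D (Sum.inr c) = 𝔓.sc a) :
    ∃ M ∈ DD 𝔓 Y σ, M.1 = Matrix.diagonal D := by
  refine ⟨⟨Matrix.diagonal D, Matrix.diagonal D', ?_, ?_⟩, Subgroup.subset_closure
    ⟨D, D', rfl, rfl, h3, h4, h5⟩, rfl⟩
  · rw [Matrix.diagonal_mul_diagonal]
    simp only [h1, Matrix.diagonal_one]
  · rw [Matrix.diagonal_mul_diagonal]
    simp only [h2, Matrix.diagonal_one]

lemma E5_upd1 (c : σ) (f : Nx m Y σ → 𝔓.B) (v : 𝔓.B) (z : FJ m ⊕ Y) :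
    Function.update f (Sum.inr c) v (Sum.inl z) = f (Sum.inl z) :=
  Function.update_of_ne Sum.inl_ne_inr _ _

lemma E5_upd2 (i j : FJ m) (h : j ≠ i) (f : Nx m Y σ → 𝔓.B) (v : 𝔓.B) :
    Function.update f (Sum.inl (Sum.inl i)) v (Sum.inl (Sum.inl j)) = f (Sum.inl (Sum.inl j)) :=
  Function.update_of_ne (fun h' => h (Sum.inl.inj (Sum.inl.inj h'))) _ _

lemma E5_upd3 (i : FJ m) (y : Y) (f : Nx m Y σ → 𝔓.B) (v : 𝔓.B) :
    Function.update f (Sum.inl (Sum.inl i)) v (Sum.inl (Sum.inr y)) = f (Sum.inl (Sum.inr y)) :=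
  Function.update_of_ne (fun h' => Sum.inr_ne_inl (Sum.inl.inj h')) _ _

lemma E5_upd4 (i : FJ m) (c : σ) (f : Nx m Y σ → 𝔓.B) (v : 𝔓.B) :
    Function.update f (Sum.inl (Sum.inl i)) v (Sum.inr c) = f (Sum.inr c) :=
  Function.update_of_ne Sum.inr_ne_inl _ _

lemma E5_upd5 (c c' : σ) (h : c' ≠ c) (f : Nx m Y σ → 𝔓.B) (v : 𝔓.B) :
    Function.update f (Sum.inr c) v (Sum.inr c') = f (Sum.inr c') :=
  Function.update_of_ne (fun h' => h (Sum.inr.inj h')) _ _

/-- a unit at a slot -/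
lemma E5_slot (t : Option J) (c : σ) (w w' : 𝔓.B) (hw : w ∈ At 𝔓 t) (hw' : w' ∈ At 𝔓 t)
    (h1 : w * w' = 1) (h2 : w' * w = 1) : ∃ M ∈ DD 𝔓 Y σ ⊔ EE 𝔓.u Y σ,
      M.1 = Matrix.diagonal (Function.update (fun _ => 1) (Sum.inr c) w) := by
  by_cases hi : ∃ i : FJ m, some i.1 = t
  · obtain ⟨i, hi⟩ := hi
    subst hi
    obtain ⟨a, ha, -, -⟩ := NB_mul_supp 𝔓 i hw
    have ha0 : a ≠ 0 := by
      rintro rfl
      rw [map_zero, zero_mul] at ha
      have h3 : NB 𝔓.u i * w * w' = 0 := by rw [ha, zero_mul]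
      rw [mul_assoc, h1, mul_one] at h3
      exact E4_NB_ne 𝔓 i h3
    have hs1 : 𝔓.sc a * 𝔓.sc a⁻¹ = 1 := by
      rw [E2_sc_mul, mul_inv_cancel₀ ha0, map_one]
    have hs2 : 𝔓.sc a⁻¹ * 𝔓.sc a = 1 := by
      rw [E2_sc_mul, inv_mul_cancel₀ ha0, map_one]
    have hsup : ∀ (b : ℚ_[p]) (z : 𝔓.B), 𝔓.SuppIn (HS m (some i.1)) z →
        𝔓.SuppIn (HS m (some i.1)) (𝔓.sc b * z) := by
      intro b z hz g hg
      rw [PGR.cf_sc_mul, hz g hg, mul_zero]
    have hxx' : (𝔓.sc a⁻¹ * w) * (𝔓.sc a * w') = 1 := by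
      rw [PGR.sc_comm 𝔓 a w', mul_assoc, ← mul_assoc w, h1, one_mul, hs2]
    have hx'x : (𝔓.sc a * w') * (𝔓.sc a⁻¹ * w) = 1 := by
      rw [PGR.sc_comm 𝔓 a⁻¹ w, mul_assoc, ← mul_assoc w', h2, one_mul, hs1]
    have hN : NB 𝔓.u i * (𝔓.sc a⁻¹ * w) = NB 𝔓.u i := by
      rw [← mul_assoc, ← PGR.sc_comm, mul_assoc, ha, ← mul_assoc, hs2, one_mul]
    obtain ⟨M1, hM1, hM2⟩ := whitehead 𝔓 (Y := Y) i c (𝔓.sc a⁻¹ * w) (𝔓.sc a * w')
      (hsup _ _ hw) (hsup _ _ hw') hxx' hx'x hN
    obtain ⟨M2, hM3, hM4⟩ := E5_DD 𝔓 (Y := Y) (σ := σ)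
      (Function.update (Function.update (fun _ => 1) (Sum.inl (Sum.inl i)) (𝔓.sc a⁻¹ * w))
        (Sum.inr c) (𝔓.sc a))
      (Function.update (Function.update (fun _ => 1) (Sum.inl (Sum.inl i)) (𝔓.sc a * w'))
        (Sum.inr c) (𝔓.sc a⁻¹)) (by
          intro b
          rcases eq_or_ne b (Sum.inr c) with h | h
          · subst h
            rw [Function.update_self, Function.update_self, hs1]
          · rw [Function.update_of_ne h, Function.update_of_ne h]
            rcases eq_or_ne b (Sum.inl (Sum.inl i)) with h' | h'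
            · subst h'
              rw [Function.update_self, Function.update_self, hxx']
            · rw [Function.update_of_ne h', Function.update_of_ne h', one_mul])
      (by
          intro b
          rcases eq_or_ne b (Sum.inr c) with h | h
          · subst h
            rw [Function.update_self, Function.update_self, hs2]
          · rw [Function.update_of_ne h, Function.update_of_ne h]
            rcases eq_or_ne b (Sum.inl (Sum.inl i)) with h' | h'
            · subst h'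
              rw [Function.update_self, Function.update_self, hx'x]
            · rw [Function.update_of_ne h', Function.update_of_ne h', one_mul])
      (by
          intro j
          rw [E5_upd1, E5_upd1]
          rcases eq_or_ne j i with h | h
          · subst h
            rw [Function.update_self, Function.update_self]
            exact ⟨hsup _ _ hw, hsup _ _ hw', hN⟩
          · rw [E5_upd2 𝔓 i j h, E5_upd2 𝔓 i j h]
            exact ⟨E4_supp_one 𝔓 _, E4_supp_one 𝔓 _, mul_one _⟩)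
      (by
          intro y
          rw [E5_upd1, E5_upd3])
      (by
          intro c'
          rcases eq_or_ne c' c with h | h
          · subst h
            exact ⟨a, by rw [Function.update_self]⟩
          · refine ⟨1, ?_⟩
            rw [E5_upd5 𝔓 c c' h, E5_upd4, map_one])
    refine ⟨M1 * M2, mul_mem (Subgroup.mem_sup_right hM1) (Subgroup.mem_sup_left hM3), ?_⟩
    rw [Units.val_mul, hM2, hM4, Matrix.diagonal_mul_diagonal]
    congr 1
    funext b
    rcases eq_or_ne b (Sum.inr c) with h | h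
    · subst h
      rw [Function.update_self, Function.update_self, Function.update_self, ← PGR.sc_comm,
        ← mul_assoc, hs1, one_mul]
    · rw [Function.update_of_ne h, Function.update_of_ne h, Function.update_of_ne h]
      rcases eq_or_ne b (Sum.inl (Sum.inl i)) with h' | h'
      · subst h'
        rw [Function.update_self, Function.update_self, hx'x]
      · rw [Function.update_of_ne h', Function.update_of_ne h', one_mul]
  · have hbot : ∀ g, g ∈ HT m t → g = 1 := by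
      intro g hg
      rcases t with _ | j
      · exact hg
      · have hj : m j = 0 := by
          by_contra hj
          exact hi ⟨⟨j, hj⟩, rfl⟩
        change g ∈ HJ m j at hg
        rw [Gdefs_HJ_zero hj] at hg
        exact hg
    have hsc : ∀ z, z ∈ At 𝔓 t → z = 𝔓.sc (𝔓.cf 1 z) := by
      intro z hz
      refine PGR.ext 𝔓 fun g => ?_
      have h3 : 𝔓.cf g (𝔓.sc (𝔓.cf 1 z)) = 𝔓.cf 1 z * 𝔓.cf g 1 := by
        rw [← PGR.cf_sc_mul, mul_one]
      rw [h3]
      by_cases hg : g = 1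
      · subst hg
        have h4 : 𝔓.cf 1 (1 : 𝔓.B) = 1 := by
          have h1 := 𝔓.cf_emb 1 1
          rw [map_one] at h1
          rw [h1, MonoidAlgebra.one_def]
          simp
        rw [h4, mul_one]
      · rw [hz g fun h => hg (hbot g h), E4_supp_one 𝔓 t g fun h => hg (hbot g h), mul_zero]
    obtain ⟨a, ha⟩ : ∃ a, w = 𝔓.sc a := ⟨_, hsc w hw⟩
    obtain ⟨a', ha'⟩ : ∃ a', w' = 𝔓.sc a' := ⟨_, hsc w' hw'⟩
    obtain ⟨M2, hM3, hM4⟩ := E5_DD 𝔓 (Y := Y) (σ := σ)
      (Function.update (fun _ => 1) (Sum.inr c) w)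
      (Function.update (fun _ => 1) (Sum.inr c) w') (by
          intro b
          rcases eq_or_ne b (Sum.inr c) with h | h
          · subst h
            rw [Function.update_self, Function.update_self, h1]
          · rw [Function.update_of_ne h, Function.update_of_ne h, one_mul])
      (by
          intro b
          rcases eq_or_ne b (Sum.inr c) with h | h
          · subst h
            rw [Function.update_self, Function.update_self, h2]
          · rw [Function.update_of_ne h, Function.update_of_ne h, one_mul])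
      (by
          intro j
          rw [E5_upd1, E5_upd1]
          exact ⟨E4_supp_one 𝔓 _, E4_supp_one 𝔓 _, mul_one _⟩)
      (by
          intro y
          rw [E5_upd1])
      (by
          intro c'
          rcases eq_or_ne c' c with h | h
          · subst h
            exact ⟨a, by rw [Function.update_self, ha]⟩
          · refine ⟨1, ?_⟩
            rw [E5_upd5 𝔓 c c' h, map_one])
    exact ⟨M2, Subgroup.mem_sup_left hM3, hM4⟩

/-- the active indices -/
def E5_act (t : Option J) (C : Finset σ) : Nx m Y σ → Prop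
  | Sum.inl (Sum.inl i) => some i.1 = t
  | Sum.inl (Sum.inr _) => False
  | Sum.inr c => c ∈ C

/-- the matrices in the elimination process -/
structure E5_P (t : Option J) (C : Finset σ) (g : (Matrix (Nx m Y σ) (Nx m Y σ) 𝔓.B)ˣ) : Prop where
  ss : g ∈ SS 𝔓.u Y σ
  supp : ∀ a b, g.1 a b ∈ At 𝔓 t
  tr : ∀ a b, (¬ E5_act t C a ∨ ¬ E5_act t C b) → g.1 a b = if a = b then 1 else 0
  nb : ∀ (i : FJ m) (b : Nx m Y σ), NB 𝔓.u i * g.1 (Sum.inl (Sum.inl i)) b =
    if b = Sum.inl (Sum.inl i) then NB 𝔓.u i else 0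

/-- the entries of the inverse -/
lemma E5_inv (t : Option J) (g : (Matrix (Nx m Y σ) (Nx m Y σ) 𝔓.B)ˣ)
    (h : ∀ a b, g.1 a b ∈ At 𝔓 t) (a b : Nx m Y σ) : g⁻¹.1 a b ∈ At 𝔓 t := by
  obtain ⟨N, hN⟩ : ∃ N : Matrix (Nx m Y σ) (Nx m Y σ) 𝔓.B,
      ∀ a b, N a b = 𝔓.rs (HS m t) (g⁻¹.1 a b) := ⟨fun a b => _, fun a b => rfl⟩
  have h1 : N * g.1 = 1 := by
    ext a b
    rw [Matrix.mul_apply]
    have h2 : ∀ k, N a k * g.1 k b = 𝔓.rs (HS m t) (g⁻¹.1 a k * g.1 k b) := by
      intro k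
      rw [hN]
      exact (PGR.rs_mul_supp 𝔓 (H := HT m t) (fun g hg h hh => mul_mem hg hh) _ (h k b)).symm
    simp only [h2]
    rw [← map_sum, ← Matrix.mul_apply, ← Units.val_mul, inv_mul_cancel, Units.val_one,
      Matrix.one_apply]
    split_ifs
    · exact PGR.rs_eq_self 𝔓 (E4_supp_one 𝔓 t)
    · exact map_zero _
  have h3 : g⁻¹.1 = N := by
    calc g⁻¹.1 = (N * g.1) * g⁻¹.1 := by rw [h1, one_mul]
      _ = N := by rw [mul_assoc, ← Units.val_mul, mul_inv_cancel, Units.val_one, mul_one]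
  rw [h3, hN]
  exact PGR.rs_supp 𝔓 _ _

lemma E5_base (t : Option J) (g : (Matrix (Nx m Y σ) (Nx m Y σ) 𝔓.B)ˣ) (h : E5_P 𝔓 t ∅ g) :
    g ∈ DD 𝔓 Y σ := by
  obtain ⟨D, hD⟩ : ∃ D : Nx m Y σ → 𝔓.B, ∀ a, D a = g.1 a a := ⟨fun a => g.1 a a, fun a => rfl⟩
  have hgD : g.1 = Matrix.diagonal D := by
    ext a b
    rcases eq_or_ne a b with hab | hab
    · subst hab
      rw [Matrix.diagonal_apply_eq, hD]
    · rw [Matrix.diagonal_apply_ne _ hab, h.tr a b ?_, if_neg hab]
      by_contra hcon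
      push Not at hcon
      obtain ⟨h1, h2⟩ := hcon
      rcases a with (i | y) | c
      · rcases b with (j | y) | c
        · have h3 : some i.1 = some j.1 := by
            have h4 : some i.1 = t := h1
            have h5 : some j.1 = t := h2
            rw [h4, h5]
          exact hab (by rw [Subtype.ext (Option.some.inj h3)])
        · exact h2
        · exact absurd h2 (Finset.notMem_empty c)
      · exact h1
      · exact absurd h1 (Finset.notMem_empty c)
  obtain ⟨D', k1, k2, k3⟩ := E2_diag_inv g D hgD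
  refine Subgroup.subset_closure ⟨D, D', hgD, k1, fun i => ⟨?_, ?_, ?_⟩, fun y => ?_, fun c => ?_⟩
  · rw [hD]
    by_cases hi : some i.1 = t
    · rw [hi]
      exact h.supp _ _
    · rw [h.tr (Sum.inl (Sum.inl i)) (Sum.inl (Sum.inl i)) (Or.inl hi), if_pos rfl]
      exact E4_supp_one 𝔓 _
  · by_cases hi : some i.1 = t
    · have h4 := E5_inv 𝔓 t g h.supp (Sum.inl (Sum.inl i)) (Sum.inl (Sum.inl i))
      rw [k1, Matrix.diagonal_apply_eq] at h4
      rw [hi]
      exact h4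
    · have h4 := k2 (Sum.inl (Sum.inl i))
      rw [hD, h.tr (Sum.inl (Sum.inl i)) (Sum.inl (Sum.inl i)) (Or.inl hi), if_pos rfl,
        one_mul] at h4
      rw [h4]
      exact E4_supp_one 𝔓 _
  · rw [hD, h.nb, if_pos rfl]
  · rw [hD, h.tr (Sum.inl (Sum.inr y)) (Sum.inl (Sum.inr y)) (Or.inl (fun h => h)), if_pos rfl]
  · refine ⟨1, ?_⟩
    rw [hD, h.tr (Sum.inr c) (Sum.inr c) (Or.inl (Finset.notMem_empty c)), if_pos rfl, map_one]

lemma E5_step (t : Option J) (C : Finset σ) (c : σ) (hc : c ∉ C)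
    (ih : ∀ g : (Matrix (Nx m Y σ) (Nx m Y σ) 𝔓.B)ˣ, E5_P 𝔓 t C g → g ∈ DD 𝔓 Y σ ⊔ EE 𝔓.u Y σ)
    (g : (Matrix (Nx m Y σ) (Nx m Y σ) 𝔓.B)ˣ) (h : E5_P 𝔓 t (insert c C) g) :
    g ∈ DD 𝔓 Y σ ⊔ EE 𝔓.u Y σ := by
  have hfin := At_fin 𝔓 t
  have hinv := E5_inv 𝔓 t g h.supp
  obtain ⟨d, hd⟩ : ∃ d : Nx m Y σ, d = Sum.inr c := ⟨_, rfl⟩
  have hdi : ∀ i : FJ m, d ≠ Sum.inl (Sum.inl i) := by
    intro i
    rw [hd]
    exact Sum.inr_ne_inl
  have hdy : ∀ y : Y, d ≠ Sum.inl (Sum.inr y) := by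
    intro y
    rw [hd]
    exact Sum.inr_ne_inl
  obtain ⟨H, hH⟩ : ∃ H, H = g⁻¹.1 := ⟨_, rfl⟩
  rw [← hH] at hinv
  have hHss : g⁻¹ ∈ SS 𝔓.u Y σ := inv_mem h.ss
  have hHN : ∀ i : FJ m, H d (Sum.inl (Sum.inl i)) * NB 𝔓.u i = 0 := by
    intro i
    rw [hH, ((mem_SS_iff 𝔓.u _).1 hHss).1, if_neg (hdi i)]
  have hHg : H * g.1 = 1 := by
    rw [hH]
    exact g.inv_mul
  have hHtr : ∀ l, ¬ E5_act t (insert c C) l → l ≠ d → H d l = 0 := by
    intro l hl hld
    have h1 : (H * g.1) d l = H d l := by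
      rw [Matrix.mul_apply, Finset.sum_eq_single l]
      · rw [h.tr l l (Or.inl hl), if_pos rfl, mul_one]
      · intro b _ hb
        rw [h.tr b l (Or.inr hl), if_neg hb, mul_zero]
      · intro h
        exact absurd (Finset.mem_univ _) h
    rw [← h1, hHg, Matrix.one_apply_ne hld.symm]
  -- stable range
  obtain ⟨t0, w, w', ht0, hw1, hw2, hw3, hw4, hw5⟩ : ∃ t0 w w' : 𝔓.B, t0 ∈ At 𝔓 t ∧
      w = g.1 d d + t0 * ∑ j ∈ Finset.univ.erase d, H d j * g.1 j d ∧ w ∈ At 𝔓 t ∧ w' ∈ At 𝔓 t ∧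
      w * w' = 1 ∧ w' * w = 1 := by
    have hb : ∑ j ∈ Finset.univ.erase d, H d j * g.1 j d ∈ At 𝔓 t :=
      (At 𝔓 t).sum_mem fun j _ => (At 𝔓 t).mul_mem (hinv _ _) (h.supp _ _)
    obtain ⟨t0, u, hu⟩ := sr1 (A := At 𝔓 t) ⟨g.1 d d, h.supp _ _⟩ ⟨_, hb⟩ ⟨H d d, hinv _ _⟩ 1 (by
      refine Subtype.ext ?_
      change g.1 d d * H d d + (∑ j ∈ Finset.univ.erase d, H d j * g.1 j d) * 1 = 1
      rw [mul_one, supp_comm 𝔓 (h.supp d d) (hinv d d),
        Finset.add_sum_erase Finset.univ (fun j => H d j * g.1 j d) (Finset.mem_univ d),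
        ← Matrix.mul_apply, hHg, Matrix.one_apply_eq])
    refine ⟨t0.1, u.1.1, u⁻¹.1.1, t0.2, ?_, u.1.2, u⁻¹.1.2, ?_, ?_⟩
    · rw [hu]
      rfl
    · exact congrArg Subtype.val u.mul_inv
    · exact congrArg Subtype.val u.inv_mul
  -- first row operation
  obtain ⟨X, hX⟩ : ∃ X : Nx m Y σ → 𝔓.B, ∀ j, X j = if j = d then 0 else t0 * H d j :=
    ⟨fun j => _, fun j => rfl⟩
  have hXA : ∀ j, X j ∈ At 𝔓 t := by
    intro j
    rw [hX]
    split_ifs
    · exact (At 𝔓 t).zero_mem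
    · exact (At 𝔓 t).mul_mem ht0 (hinv _ _)
  have hXI : ∀ j, InI 𝔓.u j (X j) := by
    rintro ((i | y) | c')
    · refine (ann_right 𝔓 i _).1 ?_
      rw [hX, if_neg (hdi i).symm, mul_assoc, hHN, mul_zero]
    · change X _ = 0
      rw [hX, if_neg (hdy y).symm, hH, ((mem_SS_iff 𝔓.u _).1 hHss).2, if_neg (hdy y), mul_zero]
    · trivial
  obtain ⟨E1, hE1, hE1e⟩ := E5_row 𝔓 d X (by rw [hX, if_pos rfl]) hXI
  obtain ⟨g1, hg1⟩ : ∃ g1, g1 = E1 * g := ⟨_, rfl⟩
  have hg1e : ∀ k l, g1.1 k l = g.1 k l + if k = d then ∑ j, X j * g.1 j l else 0 := by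
    intro k l
    rw [hg1, Units.val_mul, Matrix.mul_apply]
    simp only [hE1e, add_mul, Finset.sum_add_distrib, ite_mul, one_mul, zero_mul,
      Finset.sum_ite_eq, Finset.mem_univ, if_true]
    congr 1
    split_ifs
    · rfl
    · exact Finset.sum_const_zero
  have hg1ne : ∀ k l, k ≠ d → g1.1 k l = g.1 k l := by
    intro k l hk
    rw [hg1e, if_neg hk, add_zero]
  have hg1d : g1.1 d d = w := by
    rw [hg1e, if_pos rfl, hw1, Finset.mul_sum]
    congr 1
    rw [← Finset.add_sum_erase Finset.univ _ (Finset.mem_univ d), hX, if_pos rfl, zero_mul, zero_add]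
    refine Finset.sum_congr rfl fun j hj => ?_
    rw [hX, if_neg (Finset.ne_of_mem_erase hj), mul_assoc]
  have hg1ss : g1 ∈ SS 𝔓.u Y σ := by
    rw [hg1]
    exact mul_mem (EE_le_SS 𝔓.u hE1) h.ss
  have hg1A : ∀ k l, g1.1 k l ∈ At 𝔓 t := by
    intro k l
    rw [hg1e]
    refine (At 𝔓 t).add_mem (h.supp _ _) ?_
    split_ifs
    · exact (At 𝔓 t).sum_mem fun j _ => (At 𝔓 t).mul_mem (hXA _) (h.supp _ _)
    · exact (At 𝔓 t).zero_mem
  have hg1tr : ∀ l, ¬ E5_act t (insert c C) l → l ≠ d → g1.1 d l = 0 := by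
    intro l hl hld
    rw [hg1e, if_pos rfl, h.tr d l (Or.inr hl), if_neg hld.symm, zero_add]
    refine Finset.sum_eq_zero fun j _ => ?_
    rcases eq_or_ne j l with h1 | h1
    · subst h1
      rw [hX, if_neg hld, hHtr j hl hld, mul_zero, zero_mul]
    · rw [h.tr j l (Or.inr hl), if_neg h1, mul_zero]
  -- column operation
  obtain ⟨V, hV⟩ : ∃ V : Nx m Y σ → 𝔓.B, ∀ k, V k = if k = d then 0 else -(g.1 k d * w') :=
    ⟨fun j => _, fun j => rfl⟩
  obtain ⟨E2, hE2, hE2e⟩ := E5_col 𝔓 c V (by rw [← hd, hV, if_pos rfl])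
  rw [← hd] at hE2e
  -- row operation
  obtain ⟨Z, hZ⟩ : ∃ Z : Nx m Y σ → 𝔓.B, ∀ l, Z l = if l = d then 0 else -(w' * g1.1 d l) :=
    ⟨fun j => _, fun j => rfl⟩
  have hZI : ∀ j, InI 𝔓.u j (Z j) := by
    rintro ((i | y) | c')
    · refine (ann_right 𝔓 i _).1 ?_
      rw [hZ, if_neg (hdi i).symm, neg_mul, mul_assoc, ((mem_SS_iff 𝔓.u _).1 hg1ss).1,
        if_neg (hdi i), mul_zero, neg_zero]
    · change Z _ = 0
      rw [hZ, if_neg (hdy y).symm, ((mem_SS_iff 𝔓.u _).1 hg1ss).2, if_neg (hdy y), mul_zero,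
        neg_zero]
    · trivial
  obtain ⟨E3, hE3, hE3e⟩ := E5_row 𝔓 d Z (by rw [hZ, if_pos rfl]) hZI
  -- the unit
  obtain ⟨D0, hD0, hD0e⟩ := E5_slot 𝔓 (Y := Y) t c w' w hw3 hw2 hw5 hw4
  rw [← hd] at hD0e
  have e2 : ∀ k l, (E2 * g1).1 k l = g1.1 k l + V k * g1.1 d l := by
    intro k l
    rw [Units.val_mul, Matrix.mul_apply]
    simp only [hE2e, add_mul, Finset.sum_add_distrib, ite_mul, one_mul, zero_mul,
      Finset.sum_ite_eq, Finset.sum_ite_eq', Finset.mem_univ, if_true]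
  have e3 : ∀ k l, (E2 * g1 * E3).1 k l = (E2 * g1).1 k l + (E2 * g1).1 k d * Z l := by
    intro k l
    rw [Units.val_mul, Matrix.mul_apply]
    simp only [hE3e, mul_add, Finset.sum_add_distrib, mul_ite, mul_one, mul_zero,
      Finset.sum_ite_eq, Finset.sum_ite_eq', Finset.mem_univ, if_true]
  obtain ⟨g3, hg3⟩ : ∃ g3, g3 = E2 * g1 * E3 * D0 := ⟨_, rfl⟩
  have e4 : ∀ k l, g3.1 k l = (E2 * g1 * E3).1 k l * if l = d then w' else 1 := by
    intro k l
    rw [hg3, Units.val_mul, hD0e, Matrix.mul_diagonal, Function.update_apply]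
  have e5 : ∀ k, k ≠ d → (E2 * g1).1 k d = 0 := by
    intro k hk
    rw [e2, hg1ne k d hk, hg1d, hV, if_neg hk, neg_mul, mul_assoc, hw5, mul_one, add_neg_cancel]
  have e6 : ∀ l, (E2 * g1).1 d l = g1.1 d l := by
    intro l
    rw [e2, hV, if_pos rfl, zero_mul, add_zero]
  have F1 : ∀ l, g3.1 d l = if l = d then 1 else 0 := by
    intro l
    rw [e4, e3, e6, e6, hg1d, hZ]
    split_ifs with h1
    · rw [h1, hg1d, mul_zero, add_zero, hw4]
    · rw [mul_neg, ← mul_assoc, hw4, one_mul, add_neg_cancel, zero_mul]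
  have F2 : ∀ k, k ≠ d → g3.1 k d = 0 := by
    intro k hk
    rw [e4, e3, e5 k hk, zero_mul, add_zero, zero_mul]
  have F3 : ∀ k l, k ≠ d → l ≠ d → g3.1 k l = g.1 k l - g.1 k d * w' * g1.1 d l := by
    intro k l hk hl
    rw [e4, e3, e5 k hk, zero_mul, add_zero, if_neg hl, mul_one, e2, hg1ne k l hk, hV, if_neg hk,
      neg_mul, sub_eq_add_neg]
  have hact : ∀ k, k ≠ d → ¬ E5_act t C k → ¬ E5_act t (insert c C) k := by
    rintro ((i | y) | c') hk h1 h2
    · exact h1 h2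
    · exact h2
    · have h3 : c' ∈ insert c C := h2
      rcases Finset.mem_insert.1 h3 with h4 | h4
      · exact hk (by rw [hd, h4])
      · exact h1 h4
  have hD0ss : D0 ∈ SS 𝔓.u Y σ :=
    (sup_le (DD_le_SS 𝔓) (EE_le_SS 𝔓.u) : DD 𝔓 Y σ ⊔ EE 𝔓.u Y σ ≤ SS 𝔓.u Y σ) hD0
  have hP : E5_P 𝔓 t C g3 := by
    refine ⟨?_, fun a b => ?_, fun a b hab => ?_, fun i b => ?_⟩
    · rw [hg3]
      exact mul_mem (mul_mem (mul_mem (EE_le_SS 𝔓.u hE2) hg1ss) (EE_le_SS 𝔓.u hE3)) hD0ss
    · rcases eq_or_ne a d with ha | ha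
      · rw [ha, F1]
        split_ifs
        · exact (At 𝔓 t).one_mem
        · exact (At 𝔓 t).zero_mem
      · rcases eq_or_ne b d with hb | hb
        · rw [hb, F2 a ha]
          exact (At 𝔓 t).zero_mem
        · rw [F3 a b ha hb]
          exact (At 𝔓 t).sub_mem (h.supp _ _)
            ((At 𝔓 t).mul_mem ((At 𝔓 t).mul_mem (h.supp _ _) hw3) (hg1A _ _))
    · rcases eq_or_ne a d with ha | ha
      · rw [ha, F1]
        rcases eq_or_ne b d with hb | hb
        · rw [if_pos hb, if_pos hb.symm]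
        · rw [if_neg hb, if_neg hb.symm]
      · rcases eq_or_ne b d with hb | hb
        · rw [hb, F2 a ha, if_neg ha]
        · rw [F3 a b ha hb]
          rcases hab with hab | hab
          · have h1 := hact a ha hab
            rw [h.tr a b (Or.inl h1), h.tr a d (Or.inl h1), if_neg ha, zero_mul, zero_mul, sub_zero]
          · have h1 := hact b hb hab
            rw [h.tr a b (Or.inr h1), hg1tr b h1 hb, mul_zero, sub_zero]
    · have hi := (hdi i).symm
      rcases eq_or_ne b d with hb | hb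
      · rw [hb, F2 _ hi, mul_zero, if_neg (hdi i)]
      · rw [F3 _ b hi hb, mul_sub, ← mul_assoc, ← mul_assoc, h.nb, h.nb, if_neg (hdi i), zero_mul,
          zero_mul, sub_zero]
  have h1 := ih g3 hP
  have h2 : g = E1⁻¹ * E2⁻¹ * g3 * D0⁻¹ * E3⁻¹ := by
    rw [hg3, hg1]
    group
  rw [h2]
  exact mul_mem (mul_mem (mul_mem (mul_mem (Subgroup.mem_sup_right (inv_mem hE1))
    (Subgroup.mem_sup_right (inv_mem hE2))) h1) (inv_mem hD0))
    (Subgroup.mem_sup_right (inv_mem hE3))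

theorem BM_mem (S : σ → Option J) (t : Option J) {g : (Matrix (Nx m Y σ) (Nx m Y σ) 𝔓.B)ˣ}
    (hg : BM 𝔓 S t g) : g ∈ DD 𝔓 Y σ ⊔ EE 𝔓.u Y σ := by
  have key : ∀ (C : Finset σ) (g : (Matrix (Nx m Y σ) (Nx m Y σ) 𝔓.B)ˣ), E5_P 𝔓 t C g →
      g ∈ DD 𝔓 Y σ ⊔ EE 𝔓.u Y σ := by
    intro C
    induction C using Finset.induction_on with
    | empty => exact fun g hg => Subgroup.mem_sup_left (E5_base 𝔓 t g hg)
    | insert c C hc ih => exact E5_step 𝔓 t C c hc ih
  refine key (Finset.univ.filter fun c => S c = t) g ⟨hg.1, hg.2.2.1, ?_, hg.2.2.2.1⟩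
  have h1 : ∀ a : Nx m Y σ, ¬ E5_act t (Finset.univ.filter fun c => S c = t) a →
      blk S a ≠ t ∨ ∃ y : Y, a = Sum.inl (Sum.inr y) := by
    rintro ((i | y) | c) ha
    · exact Or.inl ha
    · exact Or.inr ⟨y, rfl⟩
    · left
      intro h
      exact ha (Finset.mem_filter.2 ⟨Finset.mem_univ _, h⟩)
  rintro a b (ha | hb)
  · rcases h1 a ha with h | ⟨y, rfl⟩
    · exact hg.2.1 a b (Or.inl h)
    · rw [hg.2.2.2.2 y b]
      rcases eq_or_ne b (Sum.inl (Sum.inr y)) with h | h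
      · rw [if_pos h, if_pos h.symm]
      · rw [if_neg h, if_neg h.symm]
  · rcases h1 b hb with h | ⟨y, rfl⟩
    · exact hg.2.1 a b (Or.inr h)
    · exact ((mem_SS_iff 𝔓.u g).1 hg.1).2 a y

theorem BM_mem_NN (S : σ → Option J) (t : Option J) {g : (Matrix (Nx m Y σ) (Nx m Y σ) 𝔓.B)ˣ}
    (hg : BM 𝔓 S t g) : g ∈ NN 𝔓 Y σ := by
  refine (sup_le ?_ ?_ : DD 𝔓 Y σ ⊔ EE 𝔓.u Y σ ≤ NN 𝔓 Y σ) (BM_mem 𝔓 S t hg)
  · intro x hx
    exact Subgroup.subset_closure (Or.inl (Or.inr hx))
  · intro x hx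
    exact Subgroup.subset_closure (Or.inr hx)

end FP
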