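import Pool.Agent.Lib.MP_2d4659_gt.FP.E3
import Pool.Agent.Lib.MP_2d4659_gt.FP.E5

/-!
# Lifts of shears are in `NN`: two cases

`w` is a column in `ColW S t`, `v` a row in `RowW S t`, `∑ v_b w_b` is divisible by `p`.
-/

set_option autoImplicit false

namespace FP

variable {J : Type} [DecidableEq J] [Fintype J] {m : J → ℕ} {Y σ : Type} [Fintype Y] [DecidableEq Y]
  [Fintype σ] [DecidableEq σ] {p : ℕ} [Fact p.Prime] (𝔓 : PGR p (Gp m))

/-- product of two rank one matrices -/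
lemma E6_mul_of {B n : Type} [Ring B] [Fintype n] [DecidableEq n] (v w : n → B) (x y : B) :
    (Matrix.of fun a b => w a * x * v b) * (Matrix.of fun a b => w a * y * v b) =
      Matrix.of fun a b => w a * (x * (∑ q, v q * w q) * y) * v b := by
  ext a b
  rw [Matrix.mul_apply, Matrix.of_apply]
  simp only [Matrix.of_apply]
  rw [Finset.mul_sum, Finset.sum_mul, Finset.mul_sum, Finset.sum_mul]
  refine Finset.sum_congr rfl fun q _ => ?_
  simp only [mul_assoc]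

lemma E6_inv {B n : Type} [Ring B] [Fintype n] [DecidableEq n] (v w : n → B) (ξ η : B)
    (h1 : (1 - (∑ b, v b * w b) * ξ) * η = 1) :
    (1 - Matrix.of fun a b => w a * ξ * v b) * (1 + Matrix.of fun a b => w a * (ξ * η) * v b) = 1 := by
  rw [mul_add, mul_one, sub_mul, one_mul, E6_mul_of]
  ext a b
  simp only [Matrix.add_apply, Matrix.sub_apply, Matrix.of_apply]
  have h2 : η = 1 + (∑ b, v b * w b) * ξ * η := by
    rw [sub_mul, one_mul, sub_eq_iff_eq_add] at h1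
    exact h1
  have h3 : ξ * η = ξ + ξ * (∑ b, v b * w b) * (ξ * η) := by
    conv_lhs => rw [h2]
    simp only [mul_add, mul_one, mul_assoc]
  have h4 : w a * (ξ * η) * v b = w a * ξ * v b +
      w a * (ξ * (∑ b, v b * w b) * (ξ * η)) * v b := by
    conv_lhs => rw [h3]
    rw [mul_add, add_mul]
  rw [h4]
  abel

lemma E6_inv' {B n : Type} [Ring B] [Fintype n] [DecidableEq n] (v w : n → B) (ξ η : B)
    (h1 : η * (1 - (∑ b, v b * w b) * ξ) = 1) :
    (1 + Matrix.of fun a b => w a * (ξ * η) * v b) * (1 - Matrix.of fun a b => w a * ξ * v b) = 1 := by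
  rw [mul_sub, mul_one, add_mul, one_mul, E6_mul_of]
  ext a b
  simp only [Matrix.add_apply, Matrix.sub_apply, Matrix.of_apply]
  have h2 : η = 1 + η * (∑ b, v b * w b) * ξ := by
    rw [mul_sub, mul_one, sub_eq_iff_eq_add] at h1
    rw [mul_assoc]
    exact h1
  have h3 : ξ * η = ξ + ξ * η * (∑ b, v b * w b) * ξ := by
    conv_lhs => rw [h2]
    simp only [mul_add, mul_one, mul_assoc]
  have h4 : w a * (ξ * η) * v b = w a * ξ * v b +
      w a * (ξ * η * (∑ b, v b * w b) * ξ) * v b := by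
    conv_lhs => rw [h3]
    rw [mul_add, add_mul]
  rw [h4]
  abel

/-- `1 - w ξ v` is invertible, with inverse `1 + w ξ (1 - v w ξ)⁻¹ v` -/
theorem shear_unit (v w : Nx m Y σ → 𝔓.B) (hs : 𝔓.Sm (∑ b, v b * w b)) {ξ : 𝔓.B} (hξ : 𝔓.In ξ) :
    ∃ (T : (Matrix (Nx m Y σ) (Nx m Y σ) 𝔓.B)ˣ) (η : 𝔓.B), 𝔓.In η ∧
      (1 - (∑ b, v b * w b) * ξ) * η = 1 ∧ η * (1 - (∑ b, v b * w b) * ξ) = 1 ∧
      (T.1 = 1 - Matrix.of fun a b => w a * ξ * v b) ∧
      T⁻¹.1 = 1 + Matrix.of fun a b => w a * ξ * η * v b := by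
  have hsm : 𝔓.Sm ((∑ b, v b * w b) * ξ) := PGR.Sm.mul_In 𝔓 hs hξ
  obtain ⟨N, hN, h1, h2⟩ := 𝔓.neumann Unit (Matrix.of fun _ _ => (∑ b, v b * w b) * ξ)
    (fun _ _ g => hsm g)
  have h1' := congrFun (congrFun h1 ()) ()
  have h2' := congrFun (congrFun h2 ()) ()
  rw [Matrix.mul_apply, Finset.univ_unique, Finset.sum_singleton, Matrix.sub_apply, Matrix.add_apply,
    Matrix.one_apply_eq, Matrix.of_apply] at h1' h2'
  have hone : 𝔓.In (1 : 𝔓.B) := by
    rw [← map_one 𝔓.u]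
    exact 𝔓.In_u 1
  set η : 𝔓.B := 1 + N () () with hη
  have hI : 𝔓.In η := PGR.Le.add 𝔓 hone (fun g => (hN () () g).le)
  have k1 : (1 - (∑ b, v b * w b) * ξ) * η = 1 := h1'
  have k2 : η * (1 - (∑ b, v b * w b) * ξ) = 1 := h2'
  refine ⟨⟨1 - Matrix.of fun a b => w a * ξ * v b, 1 + Matrix.of fun a b => w a * (ξ * η) * v b,
    E6_inv v w ξ η k1, E6_inv' v w ξ η k2⟩, η, hI, k1, k2, rfl, ?_⟩
  change 1 + Matrix.of (fun a b => w a * (ξ * η) * v b) = _
  congr 2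
  ext a b
  simp only [mul_assoc]

lemma E6_supp_one (t : Option J) : 𝔓.SuppIn (HS m t) (1 : 𝔓.B) := by
  rw [← map_one 𝔓.u]
  exact u_supp 𝔓 (one_mem _)

lemma E6_supp_sub {S : Set (Gp m)} {a b : 𝔓.B} (ha : 𝔓.SuppIn S a) (hb : 𝔓.SuppIn S b) :
    𝔓.SuppIn S (a - b) := by
  intro g hg
  rw [map_sub, ha g hg, hb g hg, sub_zero]

/-- `ξ` in the finite subgroup: a block matrix -/
theorem shear_stab (S : σ → Option J) (t : Option J) (v w : Nx m Y σ → 𝔓.B) (hv : RowW 𝔓 S t v)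
    (hw : ColW 𝔓 S t w) (hs : 𝔓.Sm (∑ b, v b * w b)) {c : Gp m} (hc : c ∈ HT m t) :
    ∃ T ∈ NN 𝔓 Y σ, T.1 = 1 - Matrix.of fun a b => w a * 𝔓.u c * v b := by
  obtain ⟨T, η, -, -, -, hT, -⟩ := shear_unit 𝔓 v w hs (𝔓.In_u c)
  obtain ⟨v1, v2, v3, v4⟩ := hv
  obtain ⟨w1, w2, w3, w4⟩ := hw
  have hTab : ∀ a b, T.1 a b = (if a = b then 1 else 0) - w a * 𝔓.u c * v b := by
    intro a b
    rw [hT, Matrix.sub_apply, Matrix.one_apply, Matrix.of_apply]
  refine ⟨T, BM_mem_NN 𝔓 S t ⟨?_, ?_, ?_, ?_, ?_⟩, hT⟩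
  · rw [mem_SS_iff]
    refine ⟨fun a i => ?_, fun a y => ?_⟩
    · rw [hTab, sub_mul, mul_assoc, v3, mul_zero, sub_zero]
      split_ifs <;> simp
    · rw [hTab, v4, mul_zero, sub_zero]
  · intro a b hab
    rw [hTab]
    rcases hab with h | h
    · rw [w1 a h, zero_mul, zero_mul, sub_zero]
    · rw [v1 b h, mul_zero, sub_zero]
  · intro a b
    rw [hTab]
    refine E6_supp_sub 𝔓 ?_ (PGR.SuppIn.mul 𝔓 (PGR.SuppIn.mul 𝔓 (w2 a) (u_supp 𝔓 hc)) (v2 b))
    split_ifs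
    · exact E6_supp_one 𝔓 t
    · intro g _
      exact map_zero _
  · intro i b
    rw [hTab, mul_sub, ← mul_assoc, ← mul_assoc, w3, zero_mul, zero_mul, sub_zero]
    by_cases h : b = Sum.inl (Sum.inl i)
    · rw [if_pos h, if_pos h.symm, mul_one]
    · rw [if_neg h, if_neg (fun h' => h h'.symm), mul_zero]
  · intro y b
    rw [hTab, w4, zero_mul, zero_mul, sub_zero]
    by_cases h : b = Sum.inl (Sum.inr y)
    · rw [if_pos h, if_pos h.symm]
    · rw [if_neg h, if_neg (fun h' => h h'.symm)]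

/-- `ξ = r (h - 1) r'` with `h` in another finite factor: the exchange lemma with the index of that
factor -/
theorem shear_tele (S : σ → Option J) (t : Option J) (v w : Nx m Y σ → 𝔓.B) (hv : RowW 𝔓 S t v)
    (hw : ColW 𝔓 S t w) (hs : 𝔓.Sm (∑ b, v b * w b)) (j : FJ m) (hj : some j.1 ≠ t) {h : Gp m}
    (hh : h ∈ HT m (some j.1)) (r r' : Gp m) :
    ∃ T ∈ NN 𝔓 Y σ, T.1 = 1 - Matrix.of fun a b => w a * (𝔓.u r * (𝔓.u h - 1) * 𝔓.u r') * v b := by
  obtain ⟨v1, v2, v3, v4⟩ := hv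
  obtain ⟨w1, w2, w3, w4⟩ := hw
  have hone : 𝔓.In (1 : 𝔓.B) := by
    rw [← map_one 𝔓.u]
    exact 𝔓.In_u 1
  have hh1 : 𝔓.In (𝔓.u h - 1) := by
    rw [sub_eq_add_neg]
    exact PGR.Le.add 𝔓 (𝔓.In_u h) (PGR.Le.neg 𝔓 hone)
  have hex := exchange_NN 𝔓 (Sum.inl (Sum.inl j) : Nx m Y σ)
    (fun q => w q * 𝔓.u r * (𝔓.u h - 1)) (fun q => 𝔓.u r' * v q) ?_ ?_ ?_ ?_ ?_
  · obtain ⟨T, hT, hT'⟩ := hex
    refine ⟨T, hT, ?_⟩
    rw [hT']
    refine congrArg (fun z => 1 - Matrix.of z) ?_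
    funext a b
    simp only [mul_assoc]
  · intro q
    obtain ⟨y, hy⟩ := sub_one_mem 𝔓.u j hh
    exact ⟨w q * 𝔓.u r * y, by rw [hy]; simp only [mul_assoc]⟩
  · intro q
    refine InI.mul_left 𝔓.u _ ?_
    rcases q with (i | y) | c
    · exact (ann_right 𝔓 i _).1 (v3 i)
    · exact v4 y
    · trivial
  · change w (Sum.inl (Sum.inl j)) * 𝔓.u r * (𝔓.u h - 1) = 0
    rw [w1 (Sum.inl (Sum.inl j)) hj, zero_mul, zero_mul]
  · change 𝔓.u r' * v (Sum.inl (Sum.inl j)) = 0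
    rw [v1 (Sum.inl (Sum.inl j)) hj, mul_zero]
  · have e : ∑ q, (𝔓.u r' * v q) * (w q * 𝔓.u r * (𝔓.u h - 1)) =
        𝔓.u r' * (∑ q, v q * w q) * (𝔓.u r * (𝔓.u h - 1)) := by
      rw [Finset.mul_sum, Finset.sum_mul]
      refine Finset.sum_congr rfl fun q _ => ?_
      simp only [mul_assoc]
    rw [e]
    exact PGR.Sm.mul_In 𝔓 (PGR.In.mul_Sm 𝔓 (𝔓.In_u r') hs) (PGR.In.mul 𝔓 (𝔓.In_u r) hh1)

/-- if all factors are finite, `g = c + ∑ r (h - 1) r'` with `c ∈ HT t`, `h` in the factors different from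
`t` (delete the letters of `g` which are not in the factor `t` one after the other) -/
theorem telescope (hm : ∀ j, m j ≠ 0) (t : Option J) (g : Gp m) :
    ∃ (c : Gp m) (l : List (FJ m × Gp m × Gp m × Gp m)), c ∈ HT m t ∧
      (∀ q ∈ l, some q.1.1 ≠ t ∧ q.2.1 ∈ HT m (some q.1.1)) ∧
      𝔓.u g = 𝔓.u c + (l.map fun q => 𝔓.u q.2.2.1 * (𝔓.u q.2.1 - 1) * 𝔓.u q.2.2.2).sum := by
  induction g using Monoid.CoprodI.induction_on with
  | one => exact ⟨1, [], one_mem _, by simp, by simp⟩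
  | of i x =>
    have hx : (Monoid.CoprodI.of (M := fun j => Multiplicative (ZMod (m j))) (i := i) x : Gp m) ∈
        HT m (some i) := by
      change _ ∈ HJ m i
      rw [Gdefs_HJ_ne (hm i)]
      exact ⟨x, rfl⟩
    by_cases hi : some i = t
    · subst hi
      exact ⟨_, [], hx, by simp, by simp⟩
    · refine ⟨1, [(⟨i, hm i⟩, Monoid.CoprodI.of x, 1, 1)], one_mem _, ?_, ?_⟩
      · intro q hq
        rw [List.mem_singleton] at hq
        subst hq
        exact ⟨hi, hx⟩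
      · simp
  | mul x y ihx ihy =>
    obtain ⟨c, l, hc, hl, hx⟩ := ihx
    obtain ⟨c', l', hc', hl', hy⟩ := ihy
    refine ⟨c * c', (l.map fun q => (q.1, q.2.1, q.2.2.1, q.2.2.2 * c')) ++
      (l'.map fun q => (q.1, q.2.1, x * q.2.2.1, q.2.2.2)), mul_mem hc hc', ?_, ?_⟩
    · intro q hq
      rw [List.mem_append, List.mem_map, List.mem_map] at hq
      rcases hq with ⟨a, ha, rfl⟩ | ⟨a, ha, rfl⟩
      · exact hl a ha
      · exact hl' a ha
    · rw [List.map_append, List.sum_append, List.map_map, List.map_map]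
      have e1 : ((l.map ((fun q : FJ m × Gp m × Gp m × Gp m =>
          𝔓.u q.2.2.1 * (𝔓.u q.2.1 - 1) * 𝔓.u q.2.2.2) ∘
          fun q => (q.1, q.2.1, q.2.2.1, q.2.2.2 * c'))).sum) =
          (l.map fun q => 𝔓.u q.2.2.1 * (𝔓.u q.2.1 - 1) * 𝔓.u q.2.2.2).sum * 𝔓.u c' := by
        rw [← List.sum_map_mul_right]
        congr 1
        refine List.map_congr_left fun q _ => ?_
        simp only [Function.comp_apply, map_mul, mul_assoc]
      have e2 : ((l'.map ((fun q : FJ m × Gp m × Gp m × Gp m =>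
          𝔓.u q.2.2.1 * (𝔓.u q.2.1 - 1) * 𝔓.u q.2.2.2) ∘
          fun q => (q.1, q.2.1, x * q.2.2.1, q.2.2.2))).sum) =
          𝔓.u x * (l'.map fun q => 𝔓.u q.2.2.1 * (𝔓.u q.2.1 - 1) * 𝔓.u q.2.2.2).sum := by
        rw [← List.sum_map_mul_left]
        congr 1
        refine List.map_congr_left fun q _ => ?_
        simp only [Function.comp_apply, map_mul, mul_assoc]
      rw [e1, e2, map_mul, map_mul, hy, mul_add]
      conv_lhs => rw [hx]
      rw [add_mul, hx]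
      abel

end FP
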