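import Pool.Agent.Lib.MP_2d4659_gt.FP.E6

/-!
# Lifts of shears are in `NN`: free slots, and factors of order two
-/

set_option autoImplicit false
set_option linter.unusedSectionVars false
set_option linter.unusedVariables false

namespace FP

variable {J : Type} [DecidableEq J] [Fintype J] {m : J → ℕ} {Y σ : Type} [Fintype Y] [DecidableEq Y]
  [Fintype σ] [DecidableEq σ] {p : ℕ} [Fact p.Prime] (𝔓 : PGR p (Gp m))

/-! ### Preparations -/

lemma E7_EE_le_NN : EE 𝔓.u Y σ ≤ NN 𝔓 Y σ := fun _ hx => Subgroup.subset_closure (Or.inr hx)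

lemma E7_IsU_mem {M : (Matrix (Nx m Y σ) (Nx m Y σ) 𝔓.B)ˣ} (h : IsU 𝔓 M) : M ∈ NN 𝔓 Y σ :=
  Subgroup.subset_closure (Or.inl (Or.inl h))

lemma E7_cf_one (g : Gp m) : 𝔓.cf g 1 = if g = 1 then 1 else 0 := by
  rw [← map_one 𝔓.emb, 𝔓.cf_emb, MonoidAlgebra.one_def]
  rw [MonoidAlgebra.coeff_single, Finsupp.single_apply]
  simp only [eq_comm]

lemma E7_In_zero : 𝔓.In (0 : 𝔓.B) := fun g => by rw [map_zero, norm_zero]; exact zero_le_one

lemma E7_Sm_zero : 𝔓.Sm (0 : 𝔓.B) := fun g => by rw [map_zero, norm_zero]; exact zero_lt_one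

lemma E7_In_one : 𝔓.In (1 : 𝔓.B) := by
  have := 𝔓.In_u 1
  rwa [map_one] at this

lemma E7_In_add {a b : 𝔓.B} (ha : 𝔓.In a) (hb : 𝔓.In b) : 𝔓.In (a + b) :=
  PGR.Le.add 𝔓 ha hb

lemma E7_In_neg {a : 𝔓.B} (ha : 𝔓.In a) : 𝔓.In (-a) := PGR.Le.neg 𝔓 ha

lemma E7_In_sub {a b : 𝔓.B} (ha : 𝔓.In a) (hb : 𝔓.In b) : 𝔓.In (a - b) := by
  rw [sub_eq_add_neg]
  exact E7_In_add 𝔓 ha (E7_In_neg 𝔓 hb)

lemma E7_In_of_Sm {a : 𝔓.B} (ha : 𝔓.Sm a) : 𝔓.In a := fun g => (ha g).le

lemma E7_supp_zero (s : Set (Gp m)) : 𝔓.SuppIn s (0 : 𝔓.B) := fun g _ => map_zero _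

lemma E7_supp_add {s : Set (Gp m)} {a b : 𝔓.B} (ha : 𝔓.SuppIn s a) (hb : 𝔓.SuppIn s b) :
    𝔓.SuppIn s (a + b) := fun g hg => by rw [map_add, ha g hg, hb g hg, add_zero]

lemma E7_supp_neg {s : Set (Gp m)} {a : 𝔓.B} (ha : 𝔓.SuppIn s a) :
    𝔓.SuppIn s (-a) := fun g hg => by rw [map_neg, ha g hg, neg_zero]

lemma E7_supp_sub {s : Set (Gp m)} {a b : 𝔓.B} (ha : 𝔓.SuppIn s a) (hb : 𝔓.SuppIn s b) :
    𝔓.SuppIn s (a - b) := fun g hg => by rw [map_sub, ha g hg, hb g hg, sub_zero]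

lemma E7_supp_sum {ι : Type} {s : Set (Gp m)} (q : Finset ι) (a : ι → 𝔓.B)
    (ha : ∀ i ∈ q, 𝔓.SuppIn s (a i)) : 𝔓.SuppIn s (∑ i ∈ q, a i) := fun g hg => by
  rw [map_sum]
  exact Finset.sum_eq_zero fun i hi => ha i hi g hg

lemma E7_supp_one (t : Option J) : 𝔓.SuppIn (HS m t) (1 : 𝔓.B) := by
  have := u_supp 𝔓 (t := t) (one_mem (HT m t))
  rwa [map_one] at this

lemma E7_supp_mul {t : Option J} {a b : 𝔓.B} (ha : 𝔓.SuppIn (HS m t) a)
    (hb : 𝔓.SuppIn (HS m t) b) : 𝔓.SuppIn (HS m t) (a * b) :=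
  PGR.SuppIn.mul 𝔓 ha hb

lemma E7_supp_sc (t : Option J) (a : ℚ_[p]) : 𝔓.SuppIn (HS m t) (𝔓.sc a) := by
  intro g hg
  have h1 := 𝔓.cf_sc_mul a 1 g
  rw [mul_one] at h1
  rw [h1, E7_supp_one 𝔓 t g hg, mul_zero]

/-- elements supported in the trivial group are central -/
lemma E7_central {η : 𝔓.B} (hη : ∀ g, g ≠ 1 → 𝔓.cf g η = 0) (b : 𝔓.B) : η * b = b * η := by
  have h1 : η = 𝔓.sc (𝔓.cf 1 η) := by
    refine 𝔓.ext fun g => ?_
    have h2 := 𝔓.cf_sc_mul (𝔓.cf 1 η) 1 g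
    rw [mul_one] at h2
    rw [h2, E7_cf_one]
    by_cases hg : g = 1
    · rw [if_pos hg, mul_one, hg]
    · rw [if_neg hg, mul_zero, hη g hg]
  rw [h1]
  exact 𝔓.sc_comm _ b

lemma E7_InI_row {S : σ → Option J} {t : Option J} {v : Nx m Y σ → 𝔓.B} (hv : RowW 𝔓 S t v)
    (b : Nx m Y σ) : InI 𝔓.u b (v b) := by
  rcases b with (i | y) | c
  · exact (ann_right 𝔓 i _).1 (hv.2.2.1 i)
  · exact hv.2.2.2 y
  · trivial

/-- conjugation -/
lemma E7_conj {h : (Matrix (Nx m Y σ) (Nx m Y σ) 𝔓.B)ˣ} (hh : h ∈ NN 𝔓 Y σ)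
    (v w : Nx m Y σ → 𝔓.B) (ξ : 𝔓.B)
    (hT : ∃ T ∈ NN 𝔓 Y σ, T.1 = 1 - Matrix.of fun a b =>
      Matrix.mulVec h⁻¹.1 w a * ξ * Matrix.vecMul v h.1 b) :
    ∃ T ∈ NN 𝔓 Y σ, T.1 = 1 - Matrix.of fun a b => w a * ξ * v b := by
  obtain ⟨T, hT, hT1⟩ := hT
  refine ⟨h * T * h⁻¹, mul_mem (mul_mem hh hT) (inv_mem hh), ?_⟩
  rw [Units.val_mul, Units.val_mul, hT1, Matrix.mul_sub, Matrix.mul_one, Matrix.sub_mul,
    ← Units.val_mul, mul_inv_cancel, Units.val_one]
  congr 1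
  ext a b
  have h1 : ∀ c, (h.1 * Matrix.of fun a b => Matrix.mulVec h⁻¹.1 w a * ξ *
      Matrix.vecMul v h.1 b) a c = w a * ξ * Matrix.vecMul v h.1 c := by
    intro c
    rw [Matrix.mul_apply]
    have h2 : Matrix.mulVec h.1 (Matrix.mulVec h⁻¹.1 w) a = w a := by
      rw [Matrix.mulVec_mulVec, ← Units.val_mul, mul_inv_cancel, Units.val_one,
        Matrix.one_mulVec]
    rw [Matrix.mulVec, dotProduct] at h2
    rw [← h2, Finset.sum_mul, Finset.sum_mul]
    refine Finset.sum_congr rfl fun q _ => ?_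
    simp only [Matrix.of_apply, mul_assoc]
  rw [Matrix.mul_apply]
  simp only [h1, Matrix.of_apply]
  have h3 : Matrix.vecMul (Matrix.vecMul v h.1) h⁻¹.1 b = v b := by
    rw [Matrix.vecMul_vecMul, ← Units.val_mul, mul_inv_cancel, Units.val_one,
      Matrix.vecMul_one]
  rw [Matrix.vecMul, dotProduct] at h3
  rw [← h3, Finset.mul_sum]
  exact Finset.sum_congr rfl fun q _ => by rw [mul_assoc]


/-! ### Slots -/

/-- a diagonal matrix `1 - x` at one index -/
lemma E7_diag_one (j : Nx m Y σ) (x : 𝔓.B) :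
    (Matrix.diagonal (Function.update (fun _ => 1) j (1 - x)) : Matrix (Nx m Y σ) (Nx m Y σ) 𝔓.B)
      = 1 - Matrix.single j j x := by
  ext a b
  rw [Matrix.sub_apply, Matrix.diagonal_apply, Matrix.one_apply, Matrix.single_apply]
  by_cases hab : a = b
  · subst hab
    rw [if_pos rfl, if_pos rfl]
    by_cases ha : a = j
    · subst ha
      simp
    · rw [Function.update_of_ne ha, if_neg (fun h => ha h.1.symm), sub_zero]
  · rw [if_neg hab, if_neg hab, if_neg (fun h => hab (h.1.symm.trans h.2)), sub_zero]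

lemma E7_of_single (j : Nx m Y σ) (x y : 𝔓.B) :
    (Matrix.of fun a b => (Pi.single j x : Nx m Y σ → 𝔓.B) a *
      (Pi.single j y : Nx m Y σ → 𝔓.B) b : Matrix (Nx m Y σ) (Nx m Y σ) 𝔓.B)
      = Matrix.single j j (x * y) := by
  ext a b
  rw [Matrix.of_apply, Matrix.single_apply]
  by_cases ha : j = a
  · subst ha
    by_cases hb : j = b
    · subst hb
      simp
    · rw [if_neg (fun h => hb h.2), Pi.single_eq_same, Pi.single_eq_of_ne (Ne.symm hb), mul_zero]
  · rw [if_neg (fun h => ha h.1), Pi.single_eq_of_ne (Ne.symm ha), zero_mul]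

/-- a diagonal matrix `1 - x` at a free slot, `x` divisible by `p` -/
theorem slot_NN (c : σ) {x : 𝔓.B} (hx : 𝔓.Sm x) :
    ∃ T ∈ NN 𝔓 Y σ, T.1 = Matrix.diagonal (Function.update (fun _ => 1) (Sum.inr c) (1 - x)) := by
  have hsm : ∀ (i j : Nx m Y σ) (g : Gp m),
      ‖𝔓.cf g ((Matrix.single (Sum.inr c) (Sum.inr c) x : Matrix (Nx m Y σ) (Nx m Y σ) 𝔓.B) i j)‖
        < 1 := by
    intro i j g
    rw [Matrix.single_apply]
    split_ifs
    · exact hx g
    · rw [map_zero, norm_zero]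
      exact zero_lt_one
  obtain ⟨N, hN, h1, h2⟩ := 𝔓.neumann _ _ hsm
  refine ⟨⟨1 - Matrix.single (Sum.inr c) (Sum.inr c) x, 1 + N, h1, h2⟩, E7_IsU_mem 𝔓 ?_,
    (E7_diag_one 𝔓 _ x).symm⟩
  have hone : ∀ i j : Nx m Y σ, 𝔓.In ((1 : Matrix (Nx m Y σ) (Nx m Y σ) 𝔓.B) i j) := by
    intro i j
    rw [Matrix.one_apply]
    split_ifs
    · exact E7_In_one 𝔓
    · exact E7_In_zero 𝔓
  refine ⟨⟨fun i j => ?_, fun i j => ?_⟩, ?_, ⟨_, (E7_diag_one 𝔓 _ x).symm⟩, ?_⟩
  · exact E7_In_sub 𝔓 (hone i j) (E7_In_of_Sm 𝔓 (hsm i j))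
  · exact E7_In_add 𝔓 (hone i j) (E7_In_of_Sm 𝔓 (hN i j))
  · change (1 - Matrix.single (Sum.inr c) (Sum.inr c) x) * psi 𝔓.u Y σ = psi 𝔓.u Y σ
    rw [Matrix.sub_mul, Matrix.one_mul, sub_eq_self]
    ext a b
    rw [Matrix.mul_apply, Matrix.zero_apply]
    refine Finset.sum_eq_zero fun q _ => ?_
    rw [Matrix.single_apply]
    split_ifs with hq
    · rw [← hq.2]
      change x * 0 = 0
      rw [mul_zero]
    · rw [zero_mul]
  · intro D hD
    obtain ⟨d, d', hd, -, -, -, hσ⟩ := (mem_DD_iff 𝔓 D).1 hD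
    have hcomm : D * ⟨1 - Matrix.single (Sum.inr c) (Sum.inr c) x, 1 + N, h1, h2⟩
        = ⟨1 - Matrix.single (Sum.inr c) (Sum.inr c) x, 1 + N, h1, h2⟩ * D := by
      refine Units.ext ?_
      rw [Units.val_mul, Units.val_mul, hd]
      change Matrix.diagonal d * (1 - Matrix.single (Sum.inr c) (Sum.inr c) x)
        = (1 - Matrix.single (Sum.inr c) (Sum.inr c) x) * Matrix.diagonal d
      rw [← E7_diag_one, Matrix.diagonal_mul_diagonal, Matrix.diagonal_mul_diagonal]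
      congr 1
      ext q
      by_cases hq : q = Sum.inr c
      · subst hq
        obtain ⟨a, ha⟩ := hσ c
        rw [ha, Function.update_self]
        exact 𝔓.sc_comm _ _
      · rw [Function.update_of_ne hq, mul_one, one_mul]
    have h3 : (⟨1 - Matrix.single (Sum.inr c) (Sum.inr c) x, 1 + N, h1, h2⟩ :
        (Matrix (Nx m Y σ) (Nx m Y σ) 𝔓.B)ˣ)⁻¹ * D *
        ⟨1 - Matrix.single (Sum.inr c) (Sum.inr c) x, 1 + N, h1, h2⟩ * D⁻¹ = 1 := by
      rw [mul_assoc _ D, hcomm, inv_mul_cancel_left, mul_inv_cancel]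
    rw [h3]
    exact one_mem _

/-- reduction of a matrix `1 - w ξ η e_j` to its diagonal entry -/
lemma E7_column (j : Nx m Y σ) (w : Nx m Y σ → 𝔓.B) (η ξ : 𝔓.B) (hη : InI 𝔓.u j η)
    (hT : ∃ T ∈ NN 𝔓 Y σ, T.1 =
      Matrix.diagonal (Function.update (fun _ => 1) j (1 - w j * ξ * η))) :
    ∃ T ∈ NN 𝔓 Y σ, T.1 = 1 - Matrix.of fun a b =>
      w a * ξ * (Pi.single j η : Nx m Y σ → 𝔓.B) b := by
  obtain ⟨T, hT, hT1⟩ := hT
  obtain ⟨M, hM, hM1, -⟩ := EE_block 𝔓.u (Y := Y) (σ := σ) (fun a => a ≠ j) (fun b => b = j)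
    (fun a ha hb => ha hb)
    (Matrix.of fun a b => if a ≠ j ∧ b = j then -(w a * ξ * η) else 0)
    (by
      intro a b hab
      rw [Matrix.of_apply] at hab
      by_contra hne
      exact hab (if_neg hne))
    (by
      intro a b
      rw [Matrix.of_apply]
      split_ifs with h
      · rw [h.2]
        exact InI.neg 𝔓.u (InI.mul_left 𝔓.u _ hη)
      · exact InI.zero 𝔓.u)
  refine ⟨T * M, mul_mem hT (E7_EE_le_NN 𝔓 hM), ?_⟩
  rw [Units.val_mul, hT1, hM1]
  ext a b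
  rw [Matrix.diagonal_mul, Matrix.add_apply, Matrix.one_apply, Matrix.of_apply, Matrix.sub_apply,
    Matrix.one_apply, Matrix.of_apply]
  by_cases ha : a = j
  · subst ha
    rw [Function.update_self, if_neg (show ¬ (a ≠ a ∧ b = a) from fun h => h.1 rfl), add_zero]
    by_cases hb : a = b
    · subst hb
      rw [if_pos rfl, mul_one, Pi.single_eq_same]
    · rw [if_neg hb, mul_zero, Pi.single_eq_of_ne (Ne.symm hb), mul_zero, sub_zero]
  · rw [Function.update_of_ne ha, one_mul]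
    by_cases hb : b = j
    · subst hb
      rw [if_pos (show a ≠ b ∧ b = b from ⟨ha, rfl⟩), Pi.single_eq_same, sub_eq_add_neg]
    · rw [if_neg (show ¬ (a ≠ j ∧ b = j) from fun h => hb h.2), Pi.single_eq_of_ne hb, mul_zero,
        sub_zero, add_zero]

/-- `exchange_NN` for one diagonal entry -/
lemma E7_diag_exchange (j k : Nx m Y σ) (hjk : j ≠ k) (x y : 𝔓.B) (hx : InI 𝔓.u k x)
    (hy : InI 𝔓.u j y) (hs : 𝔓.Sm (y * x)) :
    ∃ T ∈ NN 𝔓 Y σ, T.1 = Matrix.diagonal (Function.update (fun _ => 1) j (1 - x * y)) := by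
  obtain ⟨T, hT, hT1⟩ := exchange_NN 𝔓 k (Pi.single j x : Nx m Y σ → 𝔓.B) (Pi.single j y)
    (by
      intro q
      by_cases hq : q = j
      · subst hq
        rw [Pi.single_eq_same]
        exact hx
      · rw [Pi.single_eq_of_ne hq]
        exact InI.zero 𝔓.u)
    (by
      intro q
      by_cases hq : q = j
      · subst hq
        rw [Pi.single_eq_same]
        exact hy
      · rw [Pi.single_eq_of_ne hq]
        exact InI.zero 𝔓.u)
    (Pi.single_eq_of_ne (Ne.symm hjk) _) (Pi.single_eq_of_ne (Ne.symm hjk) _)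
    (by
      rw [Finset.sum_eq_single j]
      · rw [Pi.single_eq_same, Pi.single_eq_same]
        exact hs
      · intro q _ hq
        rw [Pi.single_eq_of_ne hq, zero_mul]
      · intro h
        exact absurd (Finset.mem_univ _) h)
  refine ⟨T, hT, ?_⟩
  rw [hT1, E7_of_single, E7_diag_one]

/-- `1 - η` is in the left ideal of `u gen - 1` -/
lemma E7_one_sub {i : FJ m} {η : 𝔓.B} (hη : 𝔓.SuppIn (HS m (some i.1)) η)
    (hN : NB 𝔓.u i * η = NB 𝔓.u i) :
    InI 𝔓.u (Sum.inl (Sum.inl i) : Nx m Y σ) (1 - η) := by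
  refine (ann_right 𝔓 i _).1 ?_
  rw [sub_mul, one_mul, supp_comm 𝔓 hη (NB_supp 𝔓 i), hN, sub_self]

lemma E7_zero_NB {i : FJ m} {η : 𝔓.B} (hη : 𝔓.SuppIn (HS m (some i.1)) η)
    (hN : NB 𝔓.u i * η = 0) :
    InI 𝔓.u (Sum.inl (Sum.inl i) : Nx m Y σ) η := by
  refine (ann_right 𝔓 i _).1 ?_
  rw [supp_comm 𝔓 hη (NB_supp 𝔓 i), hN]

lemma E7_HT_triv {t : Option J} (ht : ∀ i : FJ m, t ≠ some i.1) : HT m t = ⊥ := by
  cases t with
  | none => rfl
  | some j =>
    by_cases hj : m j = 0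
    · exact Gdefs_HJ_zero hj
    · exact absurd rfl (ht ⟨j, hj⟩)

/-- The case of a slot `c` in the same block when the row is `η e_c`, `η` an idempotent of `At t` with
`ε η = ε` if `t` is a finite factor.  Put `x = η w_c ξ` (divisible by `p`), `u = 1 - w_c ξ η`.  Then
`1 - w ξ η e_c = E * diag_c(u)`, `E` elementary (column `c`), `u = (1 - y₁) (1 - x η)` with
`y₁ = (1 - η) w_c ξ η (1 - x η)⁻¹`, `1 - x = (1 - x η) (1 - y₂)`, `y₂ = (1 - x η)⁻¹ x (1 - η)`,
`(1 - x η)⁻¹ = 1 + x (1 - x)⁻¹ η`.  The matrices `diag_c(1 - y₁)` and `diag_c(1 - y₂)` are in `NN` by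
`exchange_NN` with the index `j = i` and `a = (1 - η) e_c`, `b = y₁ e_c`, respectively `a = y₂ e_c`,
`b = (1 - η) e_c` (both times `b a = 0`); if `HT t` is trivial then `η = 1` or `η = 0` and everything is
clear. -/
theorem shear_slot_aux (S : σ → Option J) (t : Option J) (w : Nx m Y σ → 𝔓.B)
    (hw : ColW 𝔓 S t w) (c : σ) (hc : S c = t) (η : 𝔓.B) (hη : 𝔓.SuppIn (HS m t) η)
    (hη2 : η * η = η) (hηN : ∀ i : FJ m, t = some i.1 → NB 𝔓.u i * η = NB 𝔓.u i)
    (hs : 𝔓.Sm (η * w (Sum.inr c))) {ξ : 𝔓.B} (hξ : 𝔓.In ξ) :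
    ∃ T ∈ NN 𝔓 Y σ, T.1 = 1 - Matrix.of fun a b =>
      w a * ξ * (Pi.single (Sum.inr c) η : Nx m Y σ → 𝔓.B) b := by
  refine E7_column 𝔓 (Sum.inr c) w η ξ trivial ?_
  by_cases ht : ∀ i : FJ m, t ≠ some i.1
  · have h1 : w (Sum.inr c) * ξ * η = η * w (Sum.inr c) * ξ := by
      rw [← E7_central 𝔓 (η := η), mul_assoc]
      intro g hg
      refine hη g fun h => hg ?_
      rw [HS, E7_HT_triv ht] at h
      exact h
    rw [h1]
    exact slot_NN 𝔓 c (PGR.Sm.mul_In 𝔓 hs hξ)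
  · push Not at ht
    obtain ⟨i, rfl⟩ := ht
    have hN := hηN i rfl
    obtain ⟨x, hxdef⟩ : ∃ x : 𝔓.B, x = η * w (Sum.inr c) * ξ := ⟨_, rfl⟩
    have hx : 𝔓.Sm x := by
      rw [hxdef]
      exact PGR.Sm.mul_In 𝔓 hs hξ
    have hηx : η * x = x := by rw [hxdef, ← mul_assoc, ← mul_assoc, hη2]
    -- the inverse of `1 - x`
    obtain ⟨T0, r, hr, hr1, hr2, -, -⟩ := shear_unit 𝔓 (Pi.single (Sum.inr c) 1 : Nx m Y σ → 𝔓.B)
      (Pi.single (Sum.inr c) x) (ξ := 1) (by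
        rw [Finset.sum_eq_single (Sum.inr c)]
        · rw [Pi.single_eq_same, Pi.single_eq_same, one_mul]
          exact hx
        · intro q _ hq
          rw [Pi.single_eq_of_ne hq, zero_mul]
        · intro h
          exact absurd (Finset.mem_univ _) h) (E7_In_one 𝔓)
    have hsum : (∑ b, (Pi.single (Sum.inr c) 1 : Nx m Y σ → 𝔓.B) b *
        (Pi.single (Sum.inr c) x : Nx m Y σ → 𝔓.B) b) * 1 = x := by
      rw [mul_one, Finset.sum_eq_single (Sum.inr c)]
      · rw [Pi.single_eq_same, Pi.single_eq_same, one_mul]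
      · intro q _ hq
        rw [Pi.single_eq_of_ne hq, zero_mul]
      · intro h
        exact absurd (Finset.mem_univ _) h
    rw [hsum] at hr1 hr2
    have hone : InI 𝔓.u (Sum.inl (Sum.inl i) : Nx m Y σ) (1 - η) := E7_one_sub 𝔓 hη hN
    have hne : (Sum.inr c : Nx m Y σ) ≠ Sum.inl (Sum.inl i) := fun h => nomatch h
    -- `k = (1 - x η)⁻¹`
    obtain ⟨k, hkdef⟩ : ∃ k : 𝔓.B, k = 1 + x * r * η := ⟨_, rfl⟩
    have hxr : r = 1 + x * r := by
      have h1 : r - x * r = 1 := by rw [← hr1, sub_mul, one_mul]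
      rw [← h1]
      abel
    have hk : (1 - x * η) * k = 1 := by
      have h1 : x * η * (x * r * η) = x * (x * r) * η := by
        calc x * η * (x * r * η) = x * (η * x) * r * η := by simp only [mul_assoc]
          _ = x * (x * r) * η := by rw [hηx]; simp only [mul_assoc]
      have h2 : x * r * η = x * η + x * (x * r) * η := by
        conv_lhs => rw [hxr]
        rw [mul_add, mul_one, add_mul]
      rw [hkdef, sub_mul, one_mul, mul_add, mul_one, h1]
      nth_rewrite 1 [h2]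
      abel
    have hk' : k * (1 - x * η) = 1 := by
      have hr3 : r * x = x * r := by
        have h1 : (1 - x) * r = r * (1 - x) := by rw [hr1, hr2]
        rw [sub_mul, mul_sub, one_mul, mul_one] at h1
        have h3 := sub_right_inj.mp h1
        exact h3.symm
      have h1 : x * r * η * (x * η) = x * (x * r) * η := by
        calc x * r * η * (x * η) = x * r * (η * x) * η := by simp only [mul_assoc]
          _ = x * (r * x) * η := by rw [hηx]; simp only [mul_assoc]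
          _ = x * (x * r) * η := by rw [hr3]
      have h2 : x * r * η = x * η + x * (x * r) * η := by
        conv_lhs => rw [hxr]
        rw [mul_add, mul_one, add_mul]
      rw [hkdef, mul_sub, mul_one, add_mul, one_mul, h1]
      nth_rewrite 1 [h2]
      abel
    have hηk : η * k * (1 - η) = 0 := by
      have h0 : η * (1 - η) = 0 := by rw [mul_sub, mul_one, hη2, sub_self]
      rw [hkdef, mul_add, mul_one, add_mul, h0, zero_add, mul_assoc, mul_assoc (x * r) η, h0,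
        mul_zero, mul_zero]
    have hx1 : (1 - η) * x = 0 := by rw [sub_mul, one_mul, hηx, sub_self]
    -- the factor `1 - x η`
    obtain ⟨A, hA, hA1⟩ := slot_NN 𝔓 (Y := Y) c hx
    obtain ⟨A2, hA2, hA21⟩ := E7_diag_exchange 𝔓 (Sum.inr c : Nx m Y σ) (Sum.inl (Sum.inl i)) hne
      (k * x * (1 - η)) (1 - η) (InI.mul_left 𝔓.u _ hone) trivial (by
        have h1 : (1 - η) * (k * x * (1 - η)) = 0 := by
          have h2 : (1 - η) * k * x = 0 := by
            rw [hkdef, mul_add, mul_one, add_mul, hx1, zero_add, ← mul_assoc, ← mul_assoc, hx1,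
              zero_mul, zero_mul, zero_mul]
          rw [← mul_assoc, ← mul_assoc, h2, zero_mul]
        rw [h1]
        exact E7_Sm_zero 𝔓)
    obtain ⟨A1, hA1', hA11⟩ := E7_diag_exchange 𝔓 (Sum.inr c : Nx m Y σ) (Sum.inl (Sum.inl i)) hne
      (1 - η) ((1 - η) * w (Sum.inr c) * ξ * η * k) hone trivial (by
        have h1 : (1 - η) * w (Sum.inr c) * ξ * η * k * (1 - η) = 0 := by
          calc (1 - η) * w (Sum.inr c) * ξ * η * k * (1 - η)
              = (1 - η) * w (Sum.inr c) * ξ * (η * k * (1 - η)) := by simp only [mul_assoc]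
            _ = 0 := by rw [hηk, mul_zero]
        rw [h1]
        exact E7_Sm_zero 𝔓)
    have hidem : (1 - η) * (1 - η) = 1 - η := by
      rw [mul_sub, mul_one, sub_mul, one_mul, hη2, sub_self, sub_zero]
    refine ⟨A1 * (A * A2⁻¹), mul_mem hA1' (mul_mem hA (inv_mem hA2)), ?_⟩
    have hB : A.1 = Matrix.diagonal (Function.update (fun _ => 1) (Sum.inr c) (1 - x * η)) * A2.1 := by
      rw [hA1, hA21, Matrix.diagonal_mul_diagonal]
      congr 1
      ext q
      by_cases hq : q = Sum.inr c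
      · subst hq
        rw [Function.update_self, Function.update_self, Function.update_self, mul_sub, mul_one,
          ← mul_assoc, ← mul_assoc, ← mul_assoc, hk, one_mul, mul_assoc, hidem, mul_sub, mul_one]
        abel
      · rw [Function.update_of_ne hq, Function.update_of_ne hq, Function.update_of_ne hq, mul_one]
    have hC : (A * A2⁻¹).1 = Matrix.diagonal (Function.update (fun _ => 1) (Sum.inr c) (1 - x * η)) := by
      rw [Units.val_mul, hB, Matrix.mul_assoc, ← Units.val_mul, mul_inv_cancel, Units.val_one,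
        Matrix.mul_one]
    rw [Units.val_mul, hC, hA11, Matrix.diagonal_mul_diagonal]
    congr 1
    ext q
    by_cases hq : q = Sum.inr c
    · subst hq
      rw [Function.update_self, Function.update_self, Function.update_self, sub_mul, one_mul]
      have h1 : (1 - η) * ((1 - η) * w (Sum.inr c) * ξ * η * k) * (1 - x * η)
          = (1 - η) * w (Sum.inr c) * ξ * η := by
        calc (1 - η) * ((1 - η) * w (Sum.inr c) * ξ * η * k) * (1 - x * η)
            = ((1 - η) * (1 - η)) * w (Sum.inr c) * ξ * η * (k * (1 - x * η)) := by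
              simp only [mul_assoc]
          _ = (1 - η) * w (Sum.inr c) * ξ * η := by rw [hk', mul_one, hidem]
      rw [h1, hxdef]
      rw [sub_mul, one_mul, sub_mul, sub_mul]
      abel
    · rw [Function.update_of_ne hq, Function.update_of_ne hq, Function.update_of_ne hq, mul_one]

/-- The case of a slot `c` in the same block when the row is `η e_i`, `η` an idempotent with `ε η = 0`:
`1 - w ξ η e_i = E * diag_i(1 - w_i ξ η)`, and the second factor is in `NN` by `exchange_NN` with the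
index `j = c`, `a = w_i ξ e_i`, `b = η e_i`. -/
theorem shear_slot_aux' (S : σ → Option J) (i : FJ m) (w : Nx m Y σ → 𝔓.B)
    (hw : ColW 𝔓 S (some i.1) w) (c : σ) (η : 𝔓.B)
    (hη : 𝔓.SuppIn (HS m (some i.1)) η) (hη2 : η * η = η) (hηN : NB 𝔓.u i * η = 0)
    (hs : 𝔓.Sm (η * w (Sum.inl (Sum.inl i)))) {ξ : 𝔓.B} (hξ : 𝔓.In ξ) :
    ∃ T ∈ NN 𝔓 Y σ, T.1 = 1 - Matrix.of fun a b =>
      w a * ξ * (Pi.single (Sum.inl (Sum.inl i)) η : Nx m Y σ → 𝔓.B) b := by
  have h1 : InI 𝔓.u (Sum.inl (Sum.inl i) : Nx m Y σ) η := E7_zero_NB 𝔓 hη hηN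
  refine E7_column 𝔓 (Sum.inl (Sum.inl i)) w η ξ h1 ?_
  refine E7_diag_exchange 𝔓 (Sum.inl (Sum.inl i)) (Sum.inr c) (fun h => nomatch h)
    (w (Sum.inl (Sum.inl i)) * ξ) η trivial h1 ?_
  rw [← mul_assoc]
  exact PGR.Sm.mul_In 𝔓 hs hξ

/-- lifts of shears between different blocks -/
theorem shear_lift_off (S : σ → Option J) {t t' : Option J} (ht : t ≠ t') (v w : Nx m Y σ → 𝔓.B)
    (hv : RowW 𝔓 S t' v) (hw : ColW 𝔓 S t w) (ξ : 𝔓.B) :
    ∃ T ∈ NN 𝔓 Y σ, T.1 = 1 - Matrix.of fun a b => w a * ξ * v b := by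
  obtain ⟨M, hM, hM1, -⟩ := EE_block 𝔓.u (Y := Y) (σ := σ) (fun a => blk S a = t)
    (fun b => blk S b = t') (fun a ha hb => ht (ha.symm.trans hb))
    (-Matrix.of fun a b => w a * ξ * v b)
    (by
      intro a b hab
      rw [Matrix.neg_apply, Matrix.of_apply, neg_ne_zero] at hab
      constructor
      · by_contra h
        rw [hw.1 a h, zero_mul, zero_mul] at hab
        exact hab rfl
      · by_contra h
        rw [hv.1 b h, mul_zero] at hab
        exact hab rfl)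
    (by
      intro a b
      rw [Matrix.neg_apply, Matrix.of_apply]
      exact InI.neg 𝔓.u (InI.mul_left 𝔓.u _ (E7_InI_row 𝔓 hv b)))
  exact ⟨M, E7_EE_le_NN 𝔓 hM, by rw [hM1, sub_eq_add_neg]⟩


/-! ### Block matrices -/

lemma E7_row_inv {h : (Matrix (Nx m Y σ) (Nx m Y σ) 𝔓.B)ˣ} {a : Nx m Y σ} {x : 𝔓.B}
    (hr : ∀ b, x * h.1 a b = if b = a then x else 0) (b : Nx m Y σ) :
    x * h⁻¹.1 a b = if b = a then x else 0 := by
  have key : ∀ M : Matrix (Nx m Y σ) (Nx m Y σ) 𝔓.B,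
      Matrix.vecMul (Pi.single a x : Nx m Y σ → 𝔓.B) M = fun b => x * M a b := by
    intro M
    ext b
    rw [Matrix.vecMul, dotProduct, Finset.sum_eq_single a]
    · rw [Pi.single_eq_same]
    · intro q _ hq
      rw [Pi.single_eq_of_ne hq, zero_mul]
    · intro h
      exact absurd (Finset.mem_univ _) h
  have h1 : Matrix.vecMul (Pi.single a x : Nx m Y σ → 𝔓.B) h.1 = Pi.single a x := by
    rw [key]
    ext b
    rw [hr b, Pi.single_apply]
  have h2 : Matrix.vecMul (Pi.single a x : Nx m Y σ → 𝔓.B) h⁻¹.1 = Pi.single a x := by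
    conv_lhs => rw [← h1]
    rw [Matrix.vecMul_vecMul, ← Units.val_mul, mul_inv_cancel, Units.val_one, Matrix.vecMul_one]
  have h3 := congrFun h2 b
  have h4 := congrFun (key h⁻¹.1) b
  exact (h4.symm.trans h3).trans (Pi.single_apply _ _ _)

lemma E7_col_inv {h : (Matrix (Nx m Y σ) (Nx m Y σ) 𝔓.B)ˣ} {b : Nx m Y σ}
    (hr : ∀ a, h.1 a b = if a = b then 1 else 0) (a : Nx m Y σ) :
    h⁻¹.1 a b = if a = b then 1 else 0 := by
  have key : ∀ M : Matrix (Nx m Y σ) (Nx m Y σ) 𝔓.B,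
      Matrix.mulVec M (Pi.single b 1 : Nx m Y σ → 𝔓.B) = fun a => M a b := by
    intro M
    ext a
    rw [Matrix.mulVec, dotProduct, Finset.sum_eq_single b]
    · rw [Pi.single_eq_same, mul_one]
    · intro q _ hq
      rw [Pi.single_eq_of_ne hq, mul_zero]
    · intro h
      exact absurd (Finset.mem_univ _) h
  have h1 : Matrix.mulVec h.1 (Pi.single b 1 : Nx m Y σ → 𝔓.B) = Pi.single b 1 := by
    rw [key]
    ext a
    rw [hr a, Pi.single_apply]
  have h2 : Matrix.mulVec h⁻¹.1 (Pi.single b 1 : Nx m Y σ → 𝔓.B) = Pi.single b 1 := by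
    conv_lhs => rw [← h1]
    rw [Matrix.mulVec_mulVec, ← Units.val_mul, inv_mul_cancel, Units.val_one, Matrix.one_mulVec]
  have h3 := congrFun h2 a
  have h4 := congrFun (key h⁻¹.1) a
  exact (h4.symm.trans h3).trans (Pi.single_apply _ _ _)

lemma E7_BM_inv {S : σ → Option J} {t : Option J} {g : (Matrix (Nx m Y σ) (Nx m Y σ) 𝔓.B)ˣ}
    (hg : BM 𝔓 S t g) : BM 𝔓 S t g⁻¹ := by
  obtain ⟨h1, h2, h3, h4, h5⟩ := hg
  refine ⟨inv_mem h1, ?_, ?_, ?_, ?_⟩
  · rintro a b (ha | hb)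
    · have hr : ∀ b, (1 : 𝔓.B) * g.1 a b = if b = a then 1 else 0 := by
        intro b
        rw [one_mul, h2 a b (Or.inl ha)]
        simp only [eq_comm]
      have := E7_row_inv 𝔓 hr b
      rw [one_mul] at this
      rw [this]
      simp only [eq_comm]
    · exact E7_col_inv 𝔓 (fun a => h2 a b (Or.inr hb)) a
  · set R : Matrix (Nx m Y σ) (Nx m Y σ) 𝔓.B := Matrix.of fun a b => 𝔓.rs (HS m t) (g⁻¹.1 a b)
      with hR
    have hRg : R * g.1 = 1 := by
      ext a b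
      rw [Matrix.mul_apply]
      have h6 : ∀ k, R a k * g.1 k b = 𝔓.rs (HS m t) (g⁻¹.1 a k * g.1 k b) := by
        intro k
        rw [hR, Matrix.of_apply]
        refine (PGR.rs_mul_supp 𝔓 (H := HT m t) (s := HS m t) ?_ _ (h3 k b)).symm
        intro x hx y hy
        exact (HT m t).mul_mem hx hy
      rw [Finset.sum_congr rfl fun k _ => h6 k, ← map_sum, ← Matrix.mul_apply, ← Units.val_mul,
        inv_mul_cancel, Units.val_one, Matrix.one_apply]
      split_ifs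
      · exact 𝔓.rs_eq_self (E7_supp_one 𝔓 t)
      · rw [map_zero]
    have hR1 : R = g⁻¹.1 := by
      have h7 : R * g.1 * g⁻¹.1 = g⁻¹.1 := by rw [hRg, Matrix.one_mul]
      rwa [Matrix.mul_assoc, ← Units.val_mul, mul_inv_cancel, Units.val_one, Matrix.mul_one] at h7
    intro a b
    rw [← hR1, hR, Matrix.of_apply]
    exact 𝔓.rs_supp _ _
  · intro i b
    exact E7_row_inv 𝔓 (h4 i) b
  · intro y b
    have hr : ∀ b, (1 : 𝔓.B) * g.1 (Sum.inl (Sum.inr y)) b
        = if b = Sum.inl (Sum.inr y) then 1 else 0 := by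
      intro b
      rw [one_mul, h5 y b]
    have := E7_row_inv 𝔓 hr b
    rwa [one_mul] at this

lemma E7_ColW_mulVec {S : σ → Option J} {t : Option J}
    {h : (Matrix (Nx m Y σ) (Nx m Y σ) 𝔓.B)ˣ} (hh : BM 𝔓 S t h) {w : Nx m Y σ → 𝔓.B}
    (hw : ColW 𝔓 S t w) : ColW 𝔓 S t (Matrix.mulVec h.1 w) := by
  refine ⟨?_, ?_, ?_, ?_⟩
  · intro b hb
    rw [Matrix.mulVec, dotProduct, Finset.sum_eq_single b]
    · rw [hw.1 b hb, mul_zero]
    · intro q _ hq
      rw [hh.2.1 b q (Or.inl hb), if_neg (Ne.symm hq), zero_mul]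
    · intro h
      exact absurd (Finset.mem_univ _) h
  · intro b
    rw [Matrix.mulVec, dotProduct]
    exact E7_supp_sum 𝔓 _ _ fun q _ => E7_supp_mul 𝔓 (hh.2.2.1 b q) (hw.2.1 q)
  · intro i
    rw [Matrix.mulVec, dotProduct, Finset.mul_sum, Finset.sum_eq_single (Sum.inl (Sum.inl i))]
    · rw [← mul_assoc, hh.2.2.2.1 i, if_pos rfl, hw.2.2.1 i]
    · intro q _ hq
      rw [← mul_assoc, hh.2.2.2.1 i, if_neg hq, zero_mul]
    · intro h
      exact absurd (Finset.mem_univ _) h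
  · intro y
    rw [Matrix.mulVec, dotProduct, Finset.sum_eq_single (Sum.inl (Sum.inr y))]
    · rw [hw.2.2.2 y, mul_zero]
    · intro q _ hq
      rw [hh.2.2.2.2 y, if_neg hq, zero_mul]
    · intro h
      exact absurd (Finset.mem_univ _) h

/-! ### The group algebra of the finite subgroup -/

/-- the group algebra of `HT m t` inside `B` -/
noncomputable def E7_phi (t : Option J) : MonoidAlgebra ℚ_[p] (HT m t) →+* 𝔓.B :=
  𝔓.emb.comp (MonoidAlgebra.mapDomainRingHom ℚ_[p] (HT m t).subtype)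

lemma E7_phi_single (t : Option J) (h : HT m t) (a : ℚ_[p]) (g : Gp m) :
    𝔓.cf g (E7_phi 𝔓 t (MonoidAlgebra.single h a)) = if (h : Gp m) = g then a else 0 := by
  have h1 : E7_phi 𝔓 t (MonoidAlgebra.single h a) = 𝔓.emb (MonoidAlgebra.single (h : Gp m) a) := by
    change 𝔓.emb (MonoidAlgebra.mapDomain _ _) = _
    rw [MonoidAlgebra.mapDomain_single]
    rfl
  rw [h1, 𝔓.cf_emb, MonoidAlgebra.coeff_single, Finsupp.single_apply]

lemma E7_phi_supp (t : Option J) (z : MonoidAlgebra ℚ_[p] (HT m t)) :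
    𝔓.SuppIn (HS m t) (E7_phi 𝔓 t z) := by
  induction z using MonoidAlgebra.induction_linear with
  | zero => rw [map_zero]; exact E7_supp_zero 𝔓 _
  | add x y hx hy => rw [map_add]; exact E7_supp_add 𝔓 hx hy
  | single h a =>
    intro g hg
    rw [E7_phi_single, if_neg]
    intro hh
    exact hg (hh ▸ h.2)

lemma E7_phi_surj (t : Option J) {x : 𝔓.B} (hx : 𝔓.SuppIn (HS m t) x) :
    ∃ z, E7_phi 𝔓 t z = x := by
  classical
  have := HT_finite (m := m) t
  have := Fintype.ofFinite (HT m t)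
  refine ⟨∑ h : HT m t, MonoidAlgebra.single h (𝔓.cf h x), 𝔓.ext fun g => ?_⟩
  rw [map_sum, map_sum, Finset.sum_congr rfl fun h _ => E7_phi_single 𝔓 t h _ g]
  by_cases hg : g ∈ HT m t
  · rw [Finset.sum_eq_single (⟨g, hg⟩ : HT m t)]
    · rw [if_pos rfl]
    · intro h _ hh
      rw [if_neg]
      intro e
      exact hh (Subtype.ext e)
    · intro h
      exact absurd (Finset.mem_univ _) h
  · rw [hx g hg]
    refine Finset.sum_eq_zero fun h _ => ?_
    rw [if_neg]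
    intro e
    exact hg (e ▸ h.2)

/-- the idempotent generating the ideal of the entries of a vector -/
lemma E7_idem (t : Option J) (v : Nx m Y σ → 𝔓.B) (hv : ∀ b, 𝔓.SuppIn (HS m t) (v b)) :
    ∃ (η : 𝔓.B) (w : Nx m Y σ → 𝔓.B), 𝔓.SuppIn (HS m t) η ∧ (∀ b, 𝔓.SuppIn (HS m t) (w b)) ∧
      η * η = η ∧ (∀ b, η * v b = v b) ∧ ∑ b, v b * w b = η := by
  classical
  have hfin := HT_finite (m := m) t
  choose z hz using fun b => E7_phi_surj 𝔓 t (hv b)
  have : NeZero (Nat.card (HT m t) : ℚ_[p]) :=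
    ⟨Nat.cast_ne_zero.mpr (Nat.card_pos (α := HT m t)).ne'⟩
  obtain ⟨e, he, hI⟩ := IsSemisimpleRing.ideal_eq_span_idempotent
    (R := MonoidAlgebra ℚ_[p] (HT m t)) (Ideal.span (Set.range z))
  have he1 : e ∈ Ideal.span (Set.range z) := by
    rw [hI]
    exact Ideal.subset_span rfl
  obtain ⟨r, hr⟩ := (Submodule.mem_span_range_iff_exists_fun _).1 he1
  refine ⟨E7_phi 𝔓 t e, fun b => E7_phi 𝔓 t (r b), E7_phi_supp 𝔓 t e,
    fun b => E7_phi_supp 𝔓 t (r b), ?_, ?_, ?_⟩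
  · rw [← map_mul, he.eq]
  · intro b
    have h1 : z b ∈ Ideal.span {e} := by
      rw [← hI]
      exact Ideal.subset_span ⟨b, rfl⟩
    obtain ⟨q, hq⟩ := Ideal.mem_span_singleton'.1 h1
    have h2 : z b * e = z b := by rw [← hq, mul_assoc, he.eq]
    rw [supp_comm 𝔓 (E7_phi_supp 𝔓 t e) (hv b), ← hz b, ← map_mul, h2]
  · rw [← hr, map_sum]
    refine Finset.sum_congr rfl fun b _ => ?_
    rw [smul_eq_mul, map_mul, hz b, supp_comm 𝔓 (hv b) (E7_phi_supp 𝔓 t (r b))]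

/-- the idempotent `N / m` -/
noncomputable def E7_ep (i : FJ m) : 𝔓.B := 𝔓.sc ((m i.1 : ℚ_[p])⁻¹) * NB 𝔓.u i

lemma E7_ep_supp (i : FJ m) : 𝔓.SuppIn (HS m (some i.1)) (E7_ep 𝔓 i) :=
  E7_supp_mul 𝔓 (E7_supp_sc 𝔓 _ _) (NB_supp 𝔓 i)

lemma E7_NB_ep (i : FJ m) : NB 𝔓.u i * E7_ep 𝔓 i = NB 𝔓.u i := by
  have h0 : (m i.1 : ℚ_[p]) ≠ 0 := Nat.cast_ne_zero.mpr i.2
  rw [E7_ep, ← mul_assoc, ← 𝔓.sc_comm, mul_assoc, NB_sq, ← 𝔓.sc_natCast, ← mul_assoc, ← map_mul,
    inv_mul_cancel₀ h0, map_one, one_mul]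

lemma E7_mul_ep {i : FJ m} {x : 𝔓.B} (hx : x * NB 𝔓.u i = 0) : x * E7_ep 𝔓 i = 0 := by
  rw [E7_ep, ← mul_assoc, ← 𝔓.sc_comm, mul_assoc, hx, mul_zero]

/-- a permutation matrix of two slots -/
lemma E7_swap (S : σ → Option J) (t : Option J) {c c' : σ} (hc : S c = t) (hc' : S c' = t)
    {g : (Matrix (Nx m Y σ) (Nx m Y σ) 𝔓.B)ˣ} (hg : BM 𝔓 S t g) :
    ∃ g' : (Matrix (Nx m Y σ) (Nx m Y σ) 𝔓.B)ˣ, BM 𝔓 S t g' ∧
      ∀ a b, g'.1 a b = g.1 a (Equiv.swap (Sum.inr c) (Sum.inr c') b) := by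
  set e : Equiv.Perm (Nx m Y σ) := Equiv.swap (Sum.inr c) (Sum.inr c') with he
  have hee : ∀ b, e (e b) = b := fun b => Equiv.swap_apply_self _ _ b
  have hinl : ∀ x, e (Sum.inl x) = Sum.inl x := fun x =>
    Equiv.swap_apply_of_ne_of_ne Sum.inl_ne_inr Sum.inl_ne_inr
  set P : Matrix (Nx m Y σ) (Nx m Y σ) 𝔓.B := Matrix.of fun a b => if a = e b then 1 else 0 with hP
  have hmul : ∀ (M : Matrix (Nx m Y σ) (Nx m Y σ) 𝔓.B) a b, (M * P) a b = M a (e b) := by
    intro M a b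
    rw [Matrix.mul_apply, Finset.sum_eq_single (e b)]
    · rw [hP, Matrix.of_apply, if_pos rfl, mul_one]
    · intro q _ hq
      rw [hP, Matrix.of_apply, if_neg hq, mul_zero]
    · intro h
      exact absurd (Finset.mem_univ _) h
  have hPP : P * P = 1 := by
    ext a b
    rw [hmul, hP, Matrix.of_apply, hee, Matrix.one_apply]
  have hPS : (⟨P, P, hPP, hPP⟩ : (Matrix (Nx m Y σ) (Nx m Y σ) 𝔓.B)ˣ) ∈ SS 𝔓.u Y σ := by
    refine (mem_SS_iff 𝔓.u _).2 ⟨fun a i => ?_, fun a y => ?_⟩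
    · change (P a _) * _ = _
      rw [hP, Matrix.of_apply, hinl]
      split_ifs
      · rw [one_mul]
      · rw [zero_mul]
    · change P a _ = _
      rw [hP, Matrix.of_apply, hinl]
  refine ⟨g * ⟨P, P, hPP, hPP⟩, ⟨mul_mem hg.1 hPS, ?_, ?_, ?_, ?_⟩, fun a b => hmul g.1 a b⟩
  · intro a b hab
    change (g.1 * P) a b = _
    rw [hmul]
    have hblk : blk S (e b) = blk S b := by
      by_cases h1 : b = Sum.inr c
      · subst h1
        rw [he, Equiv.swap_apply_left]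
        exact hc'.trans hc.symm
      · by_cases h2 : b = Sum.inr c'
        · subst h2
          rw [he, Equiv.swap_apply_right]
          exact hc.trans hc'.symm
        · rw [he, Equiv.swap_apply_of_ne_of_ne h1 h2]
    rw [hg.2.1 a (e b) (by rwa [hblk])]
    by_cases h1 : a = b
    · subst h1
      have h2 : blk S a ≠ t := by rcases hab with h | h <;> exact h
      have h3 : e a = a := by
        refine Equiv.swap_apply_of_ne_of_ne ?_ ?_
        · rintro rfl
          exact h2 hc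
        · rintro rfl
          exact h2 hc'
      rw [if_pos h3.symm, if_pos rfl]
    · rw [if_neg h1, if_neg]
      intro h2
      rcases hab with h | h
      · have h3 : e a = a := by
          refine Equiv.swap_apply_of_ne_of_ne ?_ ?_
          · rintro rfl
            exact h hc
          · rintro rfl
            exact h hc'
        apply h1
        rw [← hee b, ← h2, h3]
      · have h3 : e b = b := by
          refine Equiv.swap_apply_of_ne_of_ne ?_ ?_
          · rintro rfl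
            exact h hc
          · rintro rfl
            exact h hc'
        exact h1 (h2.trans h3)
  · intro a b
    change 𝔓.SuppIn _ ((g.1 * P) a b)
    rw [hmul]
    exact hg.2.2.1 _ _
  · intro i b
    change NB 𝔓.u i * (g.1 * P) _ b = _
    rw [hmul, hg.2.2.2.1 i]
    by_cases h1 : b = Sum.inl (Sum.inl i)
    · subst h1
      rw [hinl]
    · rw [if_neg h1, if_neg]
      intro h2
      apply h1
      rw [← hee b, h2, hinl]
  · intro y b
    change (g.1 * P) _ b = _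
    rw [hmul, hg.2.2.2.2 y]
    by_cases h1 : b = Sum.inl (Sum.inr y)
    · subst h1
      rw [hinl]
    · rw [if_neg h1, if_neg]
      intro h2
      apply h1
      rw [← hee b, h2, hinl]

/-- correction of a dual column -/
noncomputable def E7_w2 (w0 : Nx m Y σ → 𝔓.B) : Nx m Y σ → 𝔓.B
  | Sum.inl (Sum.inl i) => (1 - E7_ep 𝔓 i) * w0 (Sum.inl (Sum.inl i))
  | Sum.inl (Sum.inr _) => 0
  | Sum.inr c => w0 (Sum.inr c)

/-- normal form of a row: there is a block matrix taking `v` to `η e_c`, `η` idempotent (`At t` is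
semisimple: there is a column `w₀` with `v w₀ = η`, `v = η v`; complete the unimodular row
`v + (1 - η) e_c` by `exists_comp` and use that `g` is `At t`-linear) -/
theorem row_normal (S : σ → Option J) (t : Option J) (v : Nx m Y σ → 𝔓.B) (hv : RowW 𝔓 S t v)
    (c : σ) (hc : S c = t) :
    ∃ (g : (Matrix (Nx m Y σ) (Nx m Y σ) 𝔓.B)ˣ) (η : 𝔓.B), BM 𝔓 S t g ∧
      𝔓.SuppIn (HS m t) η ∧ η * η = η ∧ Matrix.vecMul v g.1 = Pi.single (Sum.inr c) η := by
  classical
  obtain ⟨η, w0, hη, hw0, hη2, hηv, hsum⟩ := E7_idem 𝔓 t v hv.2.1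
  have h1η : 𝔓.SuppIn (HS m t) (1 - η) := E7_supp_sub 𝔓 (E7_supp_one 𝔓 t) hη
  -- the dual column
  let w1 : Nx m Y σ → 𝔓.B := fun b => if blk S b = t then E7_w2 𝔓 w0 b else 0
  have hw1 : ColW 𝔓 S t w1 := by
    refine ⟨fun b hb => if_neg hb, ?_, ?_, ?_⟩
    · intro b
      by_cases hb : blk S b = t
      · have hw1b : w1 b = E7_w2 𝔓 w0 b := if_pos hb
        rw [hw1b]
        rcases b with (i | y) | c
        · have hi : some i.1 = t := hb
          have h2 := E7_ep_supp 𝔓 i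
          rw [hi] at h2
          exact E7_supp_mul 𝔓 (E7_supp_sub 𝔓 (E7_supp_one 𝔓 t) h2) (hw0 _)
        · exact E7_supp_zero 𝔓 _
        · exact hw0 _
      · have hw1b : w1 b = 0 := if_neg hb
        rw [hw1b]
        exact E7_supp_zero 𝔓 _
    · intro i
      by_cases hb : blk S (Sum.inl (Sum.inl i) : Nx m Y σ) = t
      · have hw1b : w1 (Sum.inl (Sum.inl i)) = (1 - E7_ep 𝔓 i) * w0 (Sum.inl (Sum.inl i)) :=
          if_pos hb
        rw [hw1b, ← mul_assoc, mul_sub, mul_one, E7_NB_ep, sub_self, zero_mul]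
      · have hw1b : w1 (Sum.inl (Sum.inl i)) = 0 := if_neg hb
        rw [hw1b, mul_zero]
    · intro y
      change (if blk S (Sum.inl (Sum.inr y) : Nx m Y σ) = t then (0 : 𝔓.B) else 0) = 0
      split_ifs <;> rfl
  have hsum1 : ∑ b, v b * w1 b = η := by
    rw [← hsum]
    refine Finset.sum_congr rfl fun b _ => ?_
    by_cases hb : blk S b = t
    · rcases b with (i | y) | c
      · have hw1b : w1 (Sum.inl (Sum.inl i)) = (1 - E7_ep 𝔓 i) * w0 (Sum.inl (Sum.inl i)) :=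
          if_pos hb
        rw [hw1b, ← mul_assoc, mul_sub, mul_one, E7_mul_ep 𝔓 (hv.2.2.1 i), sub_zero]
      · rw [hv.2.2.2 y, zero_mul, zero_mul]
      · have hw1b : w1 (Sum.inr c) = w0 (Sum.inr c) := if_pos hb
        rw [hw1b]
    · rw [hv.1 b hb, zero_mul, zero_mul]
  -- completion
  let v' : Nx m Y σ → 𝔓.B := fun b => v b + (Pi.single (Sum.inr c) (1 - η) : Nx m Y σ → 𝔓.B) b
  let w' : Nx m Y σ → 𝔓.B := fun b => η * w1 b +
    (Pi.single (Sum.inr c) (1 - η) : Nx m Y σ → 𝔓.B) b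
  have hblkc : blk S (Sum.inr c : Nx m Y σ) = t := hc
  have hsing : ∀ b, blk S b ≠ t → (Pi.single (Sum.inr c) (1 - η) : Nx m Y σ → 𝔓.B) b = 0 := by
    intro b hb
    refine Pi.single_eq_of_ne ?_ _
    rintro rfl
    exact hb hblkc
  have hsings : ∀ b, 𝔓.SuppIn (HS m t) ((Pi.single (Sum.inr c) (1 - η) : Nx m Y σ → 𝔓.B) b) := by
    intro b
    by_cases hb : b = Sum.inr c
    · subst hb
      rw [Pi.single_eq_same]
      exact h1η
    · rw [Pi.single_eq_of_ne hb]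
      exact E7_supp_zero 𝔓 _
  have hsingl : ∀ x, (Pi.single (Sum.inr c) (1 - η) : Nx m Y σ → 𝔓.B) (Sum.inl x) = 0 := fun x =>
    Pi.single_eq_of_ne Sum.inl_ne_inr _
  have hv' : RowW 𝔓 S t v' := by
    refine ⟨fun b hb => ?_, fun b => E7_supp_add 𝔓 (hv.2.1 b) (hsings b), fun i => ?_, fun y => ?_⟩
    · change v b + _ = 0
      rw [hv.1 b hb, hsing b hb, add_zero]
    · change (v _ + _) * _ = 0
      rw [hsingl, add_zero, hv.2.2.1 i]
    · change v _ + _ = 0
      rw [hsingl, add_zero, hv.2.2.2 y]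
  have hw' : ColW 𝔓 S t w' := by
    refine ⟨fun b hb => ?_, fun b => E7_supp_add 𝔓 (E7_supp_mul 𝔓 hη (hw1.2.1 b)) (hsings b),
      fun i => ?_, fun y => ?_⟩
    · change η * w1 b + _ = 0
      rw [hw1.1 b hb, hsing b hb, mul_zero, add_zero]
    · change _ * (η * w1 _ + _) = 0
      rw [hsingl, add_zero]
      by_cases hb : blk S (Sum.inl (Sum.inl i) : Nx m Y σ) = t
      · have hi : some i.1 = t := hb
        subst hi
        rw [supp_comm 𝔓 hη (hw1.2.1 _), ← mul_assoc, hw1.2.2.1 i, zero_mul]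
      · rw [hw1.1 _ hb, mul_zero, mul_zero]
    · change η * w1 _ + _ = 0
      rw [hsingl, hw1.2.2.2 y, mul_zero, add_zero]
  have hvw : ∑ b, v' b * w' b = 1 := by
    have h1 : ∀ b, v' b * w' b = η * (v b * w1 b) +
        (Pi.single (Sum.inr c) (1 - η) : Nx m Y σ → 𝔓.B) b := by
      intro b
      change (v b + _) * (η * w1 b + _) = _
      have hvη : v b * η = v b := by rw [supp_comm 𝔓 (hv.2.1 b) hη, hηv b]
      by_cases hb : b = Sum.inr c
      · subst hb
        rw [Pi.single_eq_same, add_mul, mul_add, mul_add, ← mul_assoc, hvη, ← mul_assoc (1 - η) η]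
        have h3 : (1 - η) * η = 0 := by rw [sub_mul, one_mul, hη2, sub_self]
        have h4 : v (Sum.inr c) * (1 - η) = 0 := by rw [mul_sub, mul_one, hvη, sub_self]
        have h5 : (1 - η) * (1 - η) = 1 - η := by
          rw [mul_sub, mul_one, h3, sub_zero]
        rw [h3, h4, h5, zero_mul, add_zero, zero_add, ← mul_assoc, hηv]
      · rw [Pi.single_eq_of_ne hb, add_zero, add_zero, add_zero, ← mul_assoc, hvη, ← mul_assoc,
          hηv b]
    rw [Finset.sum_congr rfl fun b _ => h1 b, Finset.sum_add_distrib, ← Finset.mul_sum, hsum1, hη2,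
      Finset.sum_eq_single (Sum.inr c)]
    · rw [Pi.single_eq_same, add_sub_cancel]
    · intro q _ hq
      exact Pi.single_eq_of_ne hq _
    · intro h
      exact absurd (Finset.mem_univ _) h
  obtain ⟨c', hc', g, hg, hvg, -⟩ := exists_comp 𝔓 S t v' w' hv' hw' hvw
  obtain ⟨g', hg', hgg⟩ := E7_swap 𝔓 S t hc hc' hg
  refine ⟨g', η, hg', hη, hη2, ?_⟩
  ext b
  have h1 : Matrix.vecMul v g'.1 b = η * Matrix.vecMul v' g.1
      (Equiv.swap (Sum.inr c) (Sum.inr c') b) := by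
    rw [Matrix.vecMul, Matrix.vecMul, dotProduct, dotProduct, Finset.mul_sum]
    refine Finset.sum_congr rfl fun a _ => ?_
    rw [hgg, ← mul_assoc]
    congr 1
    change v a = η * (v a + _)
    by_cases ha : a = Sum.inr c
    · subst ha
      rw [Pi.single_eq_same, mul_add, hηv, mul_sub, mul_one, hη2, sub_self, add_zero]
    · rw [Pi.single_eq_of_ne ha, add_zero, hηv]
  rw [h1, hvg]
  by_cases hb : b = Sum.inr c
  · subst hb
    rw [Equiv.swap_apply_left, Pi.single_eq_same, Pi.single_eq_same, mul_one]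
  · rw [Pi.single_eq_of_ne hb, Pi.single_eq_of_ne, mul_zero]
    intro h
    apply hb
    have h2 := congrArg (Equiv.swap (Sum.inr c : Nx m Y σ) (Sum.inr c')) h
    rwa [Equiv.swap_apply_self, Equiv.swap_apply_right] at h2


/-! ### The theorem with a free slot -/

/-- the matrix `1 + x E_ab` -/
lemma E7_el {a b : Nx m Y σ} (x : 𝔓.B) (hab : a ≠ b) (hx : InI 𝔓.u b x) :
    ∃ M ∈ NN 𝔓 Y σ, M.1 = 1 + Matrix.single a b x ∧ M⁻¹.1 = 1 - Matrix.single a b x := by
  have h0 : (Matrix.single a b x : Matrix (Nx m Y σ) (Nx m Y σ) 𝔓.B) * Matrix.single a b x = 0 :=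
    Matrix.single_mul_single_of_ne _ _ _ _ (Ne.symm hab) _
  have h1 : (1 + Matrix.single a b x : Matrix (Nx m Y σ) (Nx m Y σ) 𝔓.B) *
      (1 - Matrix.single a b x) = 1 := by
    rw [mul_sub, mul_one, add_mul, one_mul, h0, add_zero, add_sub_cancel_right]
  have h2 : (1 - Matrix.single a b x : Matrix (Nx m Y σ) (Nx m Y σ) 𝔓.B) *
      (1 + Matrix.single a b x) = 1 := by
    rw [sub_mul, one_mul, mul_add, mul_one, h0, add_zero, add_sub_cancel_right]
  exact ⟨⟨_, _, h1, h2⟩, E7_EE_le_NN 𝔓 (Subgroup.subset_closure (IsEl.off a b x hab hx rfl)), rfl,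
    rfl⟩

lemma E7_vecMul_single {a b : Nx m Y σ} (v : Nx m Y σ → 𝔓.B) (x : 𝔓.B) (q : Nx m Y σ) :
    Matrix.vecMul v (Matrix.single a b x) q = if q = b then v a * x else 0 := by
  rw [Matrix.vecMul, dotProduct, Finset.sum_eq_single a]
  · rw [Matrix.single_apply]
    by_cases hq : q = b
    · rw [if_pos ⟨rfl, hq.symm⟩, if_pos hq]
    · rw [if_neg (fun h => hq h.2.symm), if_neg hq, mul_zero]
  · intro k _ hk
    rw [Matrix.single_apply, if_neg (fun h => hk h.1.symm), mul_zero]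
  · intro h
    exact absurd (Finset.mem_univ _) h

lemma E7_mulVec_single {a b : Nx m Y σ} (w : Nx m Y σ → 𝔓.B) (x : 𝔓.B) (q : Nx m Y σ) :
    Matrix.mulVec (Matrix.single a b x) w q = if q = a then x * w b else 0 := by
  rw [Matrix.mulVec, dotProduct, Finset.sum_eq_single b]
  · rw [Matrix.single_apply]
    by_cases hq : q = a
    · rw [if_pos ⟨hq.symm, rfl⟩, if_pos hq]
    · rw [if_neg (fun h => hq h.1.symm), if_neg hq, zero_mul]
  · intro k _ hk
    rw [Matrix.single_apply, if_neg (fun h => hk h.2.symm), zero_mul]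
  · intro h
    exact absurd (Finset.mem_univ _) h

lemma E7_sum_single (j : Nx m Y σ) (η : 𝔓.B) (w : Nx m Y σ → 𝔓.B) :
    ∑ b, (Pi.single j η : Nx m Y σ → 𝔓.B) b * w b = η * w j := by
  rw [Finset.sum_eq_single j]
  · rw [Pi.single_eq_same]
  · intro q _ hq
    rw [Pi.single_eq_of_ne hq, zero_mul]
  · intro h
    exact absurd (Finset.mem_univ _) h

lemma E7_conj_sum (h : (Matrix (Nx m Y σ) (Nx m Y σ) 𝔓.B)ˣ) (v w : Nx m Y σ → 𝔓.B) :
    ∑ b, Matrix.vecMul v h.1 b * Matrix.mulVec h⁻¹.1 w b = ∑ b, v b * w b := by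
  have h1 := Matrix.dotProduct_mulVec v h.1 (Matrix.mulVec h⁻¹.1 w)
  rw [Matrix.mulVec_mulVec, ← Units.val_mul, mul_inv_cancel, Units.val_one, Matrix.one_mulVec] at h1
  exact h1.symm

lemma E7_cf_u (h g : Gp m) : 𝔓.cf g (𝔓.u h) = if h = g then 1 else 0 := by
  have h1 := 𝔓.cf_u_mul h 1 g
  rw [mul_one, E7_cf_one] at h1
  rw [h1]
  by_cases hh : h = g
  · rw [if_pos hh, if_pos (by rw [hh, inv_mul_cancel])]
  · rw [if_neg hh, if_neg]
    intro h2
    exact hh (inv_mul_eq_one.1 h2)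

lemma E7_NB_cf (i : FJ m) : 𝔓.cf 1 (NB 𝔓.u i) ≠ 0 := by
  have hpos : 0 < m i.1 := Nat.pos_of_ne_zero i.2
  have h1 : 𝔓.cf 1 (NB 𝔓.u i) = 1 := by
    rw [NB, map_sum, Finset.sum_eq_single 0]
    · rw [pow_zero, E7_cf_one, if_pos rfl]
    · intro c hc h0
      rw [← map_pow, E7_cf_u, if_neg]
      intro h
      refine h0 (gen_pow_inj i.2 (Finset.mem_range.1 hc) hpos ?_)
      rw [h, pow_zero]
    · intro h
      exact absurd (Finset.mem_range.2 hpos) h
  rw [h1]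
  exact one_ne_zero

lemma E7_ep_idem (i : FJ m) : E7_ep 𝔓 i * E7_ep 𝔓 i = E7_ep 𝔓 i := by
  conv_rhs => rw [E7_ep, ← E7_NB_ep 𝔓 i, ← mul_assoc]
  rfl

lemma E7_one_sub_ep (i : FJ m) : InI 𝔓.u (Sum.inl (Sum.inl i) : Nx m Y σ) (1 - E7_ep 𝔓 i) := by
  refine E7_one_sub 𝔓 (E7_ep_supp 𝔓 i) (E7_NB_ep 𝔓 i)

/-- if there is a free slot then `1 - w ξ v` is in `NN`: if some `c` has `S c ≠ t` use `exchange_NN` with
`j = c`; otherwise all slots are in the block; use `row_normal` and conjugate; if `ε η = 0` conjugate again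
by the matrix `e_i ↦ ε e_i + (1 - ε) e_c`, `e_c ↦ ε e_c - (1 - ε) e_i`, a product of three elementary
matrices, to get the row `- η e_i`. (`ε η` is `0` or `ε` because `η` is idempotent.) -/
theorem shear_slot (S : σ → Option J) (t : Option J) (v w : Nx m Y σ → 𝔓.B) (hv : RowW 𝔓 S t v)
    (hw : ColW 𝔓 S t w) (hs : 𝔓.Sm (∑ b, v b * w b)) (hσ : Nonempty σ) {ξ : 𝔓.B} (hξ : 𝔓.In ξ) :
    ∃ T ∈ NN 𝔓 Y σ, T.1 = 1 - Matrix.of fun a b => w a * ξ * v b := by
  by_cases hex : ∃ c, S c ≠ t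
  · obtain ⟨c, hc⟩ := hex
    obtain ⟨T, hT, hT1⟩ := exchange_NN 𝔓 (Sum.inr c) (fun q => w q * ξ) v (fun q => trivial)
      (fun q => E7_InI_row 𝔓 hv q) (by
        rw [hw.1 (Sum.inr c) hc, zero_mul]) (hv.1 (Sum.inr c) hc) (by
        have h1 : ∑ q, v q * (w q * ξ) = (∑ q, v q * w q) * ξ := by
          rw [Finset.sum_mul]
          exact Finset.sum_congr rfl fun q _ => (mul_assoc _ _ _).symm
        rw [h1]
        exact PGR.Sm.mul_In 𝔓 hs hξ)
    exact ⟨T, hT, hT1⟩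
  · push Not at hex
    obtain ⟨c⟩ := hσ
    have hc := hex c
    obtain ⟨g, η, hg, hη, hη2, hvg⟩ := row_normal 𝔓 S t v hv c hc
    refine E7_conj 𝔓 (BM_mem_NN 𝔓 S t hg) v w ξ ?_
    have hw' : ColW 𝔓 S t (Matrix.mulVec g⁻¹.1 w) := E7_ColW_mulVec 𝔓 (E7_BM_inv 𝔓 hg) hw
    have hs' := hs
    rw [← E7_conj_sum 𝔓 g v w, hvg] at hs'
    rw [hvg]
    generalize Matrix.mulVec g⁻¹.1 w = w' at hw' hs' ⊢
    rw [E7_sum_single] at hs'
    by_cases ht : ∀ i : FJ m, t ≠ some i.1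
    · exact shear_slot_aux 𝔓 S t w' hw' c hc η hη hη2 (fun i hi => absurd hi (ht i)) hs' hξ
    push Not at ht
    obtain ⟨i, rfl⟩ := ht
    obtain ⟨a, ha, ha', -⟩ := NB_mul_supp 𝔓 i hη
    have haa : a * a = a := by
      have h1 : 𝔓.sc (a * a) * NB 𝔓.u i = 𝔓.sc a * NB 𝔓.u i := by
        have h2 : NB 𝔓.u i * (η * η) = 𝔓.sc a * (𝔓.sc a * NB 𝔓.u i) := by
          rw [← mul_assoc, ha, mul_assoc, ha]
        rw [hη2, ha] at h2
        rw [map_mul, mul_assoc, ← h2]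
      have h3 := congrArg (𝔓.cf 1) h1
      rw [𝔓.cf_sc_mul, 𝔓.cf_sc_mul] at h3
      have h4 : 𝔓.cf 1 (NB 𝔓.u i) ≠ 0 := E7_NB_cf 𝔓 i
      exact mul_right_cancel₀ h4 h3
    have ha01 : a = 0 ∨ a = 1 := by
      have h1 : a * (a - 1) = 0 := by rw [mul_sub, mul_one, haa, sub_self]
      rcases mul_eq_zero.1 h1 with h | h
      · exact Or.inl h
      · exact Or.inr (sub_eq_zero.1 h)
    rcases ha01 with rfl | rfl
    · -- `N η = 0`
      rw [map_zero, zero_mul] at ha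
      have hij : (Sum.inr c : Nx m Y σ) ≠ Sum.inl (Sum.inl i) := Sum.inr_ne_inl
      have hηep : η * E7_ep 𝔓 i = 0 := by
        rw [← supp_comm 𝔓 (E7_ep_supp 𝔓 i) hη, E7_ep, mul_assoc, ha, mul_zero]
      obtain ⟨E1, hE1, hE11, hE12⟩ := E7_el 𝔓 (a := (Sum.inr c : Nx m Y σ))
        (b := Sum.inl (Sum.inl i)) (1 - E7_ep 𝔓 i) hij (E7_one_sub_ep 𝔓 i)
      obtain ⟨E2, hE2, hE21, hE22⟩ := E7_el 𝔓 (a := (Sum.inl (Sum.inl i) : Nx m Y σ))
        (b := Sum.inr c) (-(1 - E7_ep 𝔓 i)) (Ne.symm hij) trivial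
      refine E7_conj 𝔓 (mul_mem hE1 hE2) _ w' ξ ?_
      have hrow : Matrix.vecMul (Pi.single (Sum.inr c) η : Nx m Y σ → 𝔓.B) (E1 * E2).1
          = Pi.single (Sum.inl (Sum.inl i)) η := by
        rw [Units.val_mul, ← Matrix.vecMul_vecMul, hE11, hE21, Matrix.vecMul_add, Matrix.vecMul_one,
          Matrix.vecMul_add, Matrix.vecMul_one]
        have h1 : Matrix.vecMul (Pi.single (Sum.inr c) η : Nx m Y σ → 𝔓.B)
            (Matrix.single (Sum.inr c) (Sum.inl (Sum.inl i)) (1 - E7_ep 𝔓 i))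
            = (Pi.single (Sum.inl (Sum.inl i)) η : Nx m Y σ → 𝔓.B) := by
          ext q
          rw [E7_vecMul_single 𝔓, Pi.single_eq_same, mul_sub, mul_one, hηep, sub_zero,
            Pi.single_apply]
        rw [h1, Matrix.add_vecMul]
        ext q
        rw [Pi.add_apply, Pi.add_apply, Pi.add_apply, E7_vecMul_single 𝔓,
          E7_vecMul_single 𝔓, Pi.single_eq_same, Pi.single_eq_of_ne (Ne.symm hij), zero_mul,
          mul_neg, mul_sub, mul_one, hηep, sub_zero]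
        by_cases hq : q = Sum.inr c
        · subst hq
          rw [Pi.single_eq_same, if_pos rfl, if_pos rfl]
          abel
        · rw [Pi.single_eq_of_ne hq, if_neg hq, if_neg hq]
          abel
      have hw'' : ColW 𝔓 S (some i.1) (Matrix.mulVec (E1 * E2)⁻¹.1 w') := by
        have hsing : ∀ (a b : Nx m Y σ) (x : 𝔓.B) (z : Nx m Y σ → 𝔓.B), ColW 𝔓 S (some i.1) z →
            𝔓.SuppIn (HS m (some i.1)) x → blk S a = some i.1 →
            (∀ j : FJ m, a = Sum.inl (Sum.inl j) → NB 𝔓.u j * x = 0) →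
            ColW 𝔓 S (some i.1) (Matrix.mulVec (1 - Matrix.single a b x) z) := by
          intro a b x z hz hx hba hN
          have hval : ∀ q, Matrix.mulVec (1 - Matrix.single a b x) z q
              = z q - if q = a then x * z b else 0 := by
            intro q
            rw [Matrix.sub_mulVec, Matrix.one_mulVec, Pi.sub_apply, E7_mulVec_single]
          refine ⟨fun q hq => ?_, fun q => ?_, fun j => ?_, fun y => ?_⟩
          · rw [hval, hz.1 q hq, if_neg, sub_zero]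
            rintro rfl
            exact hq hba
          · rw [hval]
            refine E7_supp_sub 𝔓 (hz.2.1 q) ?_
            split_ifs
            · exact E7_supp_mul 𝔓 hx (hz.2.1 b)
            · exact E7_supp_zero 𝔓 _
          · rw [hval, mul_sub, hz.2.2.1 j]
            by_cases hq : Sum.inl (Sum.inl j) = a
            · rw [if_pos hq, ← mul_assoc, hN j hq.symm, zero_mul, sub_zero]
            · rw [if_neg hq, mul_zero, sub_zero]
          · rw [hval, hz.2.2.2 y, if_neg, sub_zero]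
            rintro rfl
            exact absurd hba (by intro h; cases h)
        rw [mul_inv_rev, Units.val_mul, ← Matrix.mulVec_mulVec, hE12, hE22]
        have hep := E7_ep_supp 𝔓 i
        have hN : NB 𝔓.u i * (1 - E7_ep 𝔓 i) = 0 := by
          rw [mul_sub, mul_one, E7_NB_ep, sub_self]
        have h1s := E7_supp_sub 𝔓 (E7_supp_one 𝔓 (some i.1)) hep
        refine hsing _ _ _ _ (hsing _ _ _ _ hw' h1s hc ?_) (E7_supp_neg 𝔓 h1s) rfl ?_
        · intro j hj
          exact absurd hj Sum.inr_ne_inl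
        · intro j hj
          have hj' : i = j := Sum.inl_injective (Sum.inl_injective hj)
          subst hj'
          rw [mul_neg, hN, neg_zero]
      rw [hrow]
      have hs'' := hs'
      rw [← E7_sum_single 𝔓 (Sum.inr c) η w', ← E7_conj_sum 𝔓 (E1 * E2), hrow, E7_sum_single] at hs''
      exact shear_slot_aux' 𝔓 S i _ hw'' c η hη hη2 ha hs'' hξ
    · refine shear_slot_aux 𝔓 S _ w' hw' c hc η hη hη2 (fun j hj => ?_) hs' hξ
      have hj' : i = j := Subtype.ext (Option.some_injective _ hj)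
      subst hj'
      rw [ha, map_one, one_mul]


/-! ### Factors of order two -/

lemma E7_two (i : FJ m) (hi : m i.1 = 2) {x : 𝔓.B} (hx : 𝔓.SuppIn (HS m (some i.1)) x)
    (h : x * NB 𝔓.u i = 0) : x = 𝔓.sc (𝔓.cf (gen m i.1) x) * (𝔓.u (gen m i.1) - 1) := by
  have hg2 : gen m i.1 * gen m i.1 = 1 := by
    have h1 := gen_pow_card (m := m) i.1
    rwa [hi, pow_two] at h1
  have hginv : (gen m i.1)⁻¹ = gen m i.1 := inv_eq_of_mul_eq_one_left hg2
  have hg1 : gen m i.1 ≠ 1 := by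
    intro h1
    have h2 : gen m i.1 ^ 1 = gen m i.1 ^ 0 := by rw [pow_one, pow_zero, h1]
    have h3 := gen_pow_inj i.2 (by rw [hi]; norm_num) (by rw [hi]; norm_num) h2
    exact absurd h3 one_ne_zero
  have hN : NB 𝔓.u i = 1 + 𝔓.u (gen m i.1) := by
    rw [NB, hi, Finset.sum_range_succ, Finset.sum_range_succ, Finset.sum_range_zero, zero_add,
      pow_zero, pow_one]
  have hsum : 𝔓.cf 1 x + 𝔓.cf (gen m i.1) x = 0 := by
    have h1 := congrArg (𝔓.cf 1) h
    rw [hN, mul_add, mul_one, map_add, 𝔓.cf_mul_u, one_mul, hginv, map_zero] at h1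
    exact h1
  refine 𝔓.ext fun g => ?_
  rw [𝔓.cf_sc_mul, map_sub, E7_cf_u, E7_cf_one]
  by_cases hg : g ∈ HT m (some i.1)
  · obtain ⟨c, hc, rfl⟩ := (mem_HT_some i.2 g).1 hg
    rw [hi] at hc
    interval_cases c
    · rw [pow_zero, if_neg hg1, if_pos rfl, zero_sub, mul_neg, mul_one]
      exact eq_neg_of_add_eq_zero_left hsum
    · rw [pow_one, if_pos rfl, if_neg hg1, sub_zero, mul_one]
  · rw [hx g hg, if_neg, if_neg, sub_zero, mul_zero]
    · rintro rfl
      exact hg (one_mem _)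
    · rintro rfl
      refine hg ((mem_HT_some i.2 _).2 ⟨1, ?_, (pow_one _).symm⟩)
      rw [hi]
      norm_num

lemma E7_norm_two : ((p : ℝ))⁻¹ ≤ ‖(2 : ℚ_[p])‖ := by
  have hp := (Fact.out : p.Prime)
  have hp1 : (1 : ℝ) < p := by exact_mod_cast hp.one_lt
  by_cases h2 : p = 2
  · subst h2
    have h3 := Padic.norm_p (p := 2)
    have h4 : ((2 : ℕ) : ℚ_[2]) = 2 := by norm_num
    rw [h4] at h3
    rw [h3]
  · have h3 : ¬ ‖((2 : ℤ) : ℚ_[p])‖ < 1 := by
      rw [Padic.norm_intCast_lt_one_iff]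
      intro h
      have h4 : p ∣ 2 := by exact_mod_cast h
      exact h2 ((Nat.prime_dvd_prime_iff_eq hp Nat.prime_two).1 h4)
    push_cast at h3
    rw [not_lt] at h3
    exact (inv_le_one_of_one_le₀ hp1.le).trans h3

lemma E7_norm_le {x : ℚ_[p]} (hx : ‖2 * x‖ < 1) : ‖x‖ ≤ 1 := by
  have hp := (Fact.out : p.Prime)
  have hp0 : (0 : ℝ) < p := by exact_mod_cast hp.pos
  have h1 : ‖2 * x‖ ≤ (p : ℝ) ^ (-1 : ℤ) := by
    rw [Padic.norm_le_pow_iff_norm_lt_pow_add_one]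
    simpa using hx
  rw [norm_mul, zpow_neg_one] at h1
  have h2 := E7_norm_two (p := p)
  have h3 : (p : ℝ)⁻¹ * ‖x‖ ≤ (p : ℝ)⁻¹ * 1 := by
    rw [mul_one]
    exact (mul_le_mul_of_nonneg_right h2 (norm_nonneg x)).trans h1
  exact le_of_mul_le_mul_left h3 (inv_pos.2 hp0)

/-- no free slot, finite factors of order two: `v = α (a - 1) e_i`, `w = β (a - 1) e_i`, and
`v w = - 2 α β (a - 1)` is divisible by `p`, so `α β` is integral and
`T = diag_i(1 - α β (a - 1) ξ (a - 1))` is integral and commutes with `DD` -/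
theorem shear_two (h2 : ∀ j, m j = 0 ∨ m j = 2) (hσ : IsEmpty σ) (S : σ → Option J) (t : Option J)
    (v w : Nx m Y σ → 𝔓.B) (hv : RowW 𝔓 S t v) (hw : ColW 𝔓 S t w)
    (hs : 𝔓.Sm (∑ b, v b * w b)) {ξ : 𝔓.B} (hξ : 𝔓.In ξ) :
    ∃ T ∈ NN 𝔓 Y σ, T.1 = 1 - Matrix.of fun a b => w a * ξ * v b := by
  by_cases ht : ∀ i : FJ m, t ≠ some i.1
  · refine ⟨1, one_mem _, ?_⟩
    have hv0 : ∀ b, v b = 0 := by
      rintro ((i | y) | c)
      · exact hv.1 _ (Ne.symm (ht i))
      · exact hv.2.2.2 y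
      · exact hσ.elim c
    rw [Units.val_one]
    symm
    rw [sub_eq_self]
    ext a b
    rw [Matrix.of_apply, hv0 b, mul_zero, Matrix.zero_apply]
  push Not at ht
  obtain ⟨i, rfl⟩ := ht
  have hi : m i.1 = 2 := (h2 i.1).resolve_left i.2
  obtain ⟨q, hq⟩ : ∃ q : Nx m Y σ, q = Sum.inl (Sum.inl i) := ⟨_, rfl⟩
  have hoff : ∀ b : Nx m Y σ, b ≠ q → v b = 0 ∧ w b = 0 := by
    rintro ((j | y) | c) hb
    · have hb' : blk S (Sum.inl (Sum.inl j) : Nx m Y σ) ≠ some i.1 := by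
        intro h
        apply hb
        rw [hq]
        have h3 : j = i := Subtype.ext (Option.some_injective _ h)
        rw [h3]
      exact ⟨hv.1 _ hb', hw.1 _ hb'⟩
    · exact ⟨hv.2.2.2 y, hw.2.2.2 y⟩
    · exact hσ.elim c
  have hvq := E7_two 𝔓 i hi (hv.2.1 q) (by rw [hq]; exact hv.2.2.1 i)
  have hwq := E7_two 𝔓 i hi (hw.2.1 q) (by
    rw [supp_comm 𝔓 (hw.2.1 q) (NB_supp 𝔓 i), hq]
    exact hw.2.2.1 i)
  generalize 𝔓.cf (gen m i.1) (v q) = α at hvq
  generalize 𝔓.cf (gen m i.1) (w q) = β at hwq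
  obtain ⟨e, he⟩ : ∃ e : 𝔓.B, e = 𝔓.u (gen m i.1) - 1 := ⟨_, rfl⟩
  rw [← he] at hvq hwq
  have hgHT : gen m i.1 ∈ HT m (some i.1) :=
    (mem_HT_some i.2 _).2 ⟨1, by rw [hi]; norm_num, (pow_one _).symm⟩
  have hesupp : 𝔓.SuppIn (HS m (some i.1)) e := by
    rw [he]
    exact E7_supp_sub 𝔓 (u_supp 𝔓 hgHT) (E7_supp_one 𝔓 _)
  have heN : e * NB 𝔓.u i = 0 := by
    rw [he, sub_mul, one_mul, gen_mul_NB, sub_self]
  have heIn : 𝔓.In e := by
    rw [he]
    exact E7_In_sub 𝔓 (𝔓.In_u _) (E7_In_one 𝔓)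
  have hwv : ∀ z : 𝔓.B, w q * z * v q = 𝔓.sc (α * β) * (e * z * e) := by
    intro z
    calc w q * z * v q = 𝔓.sc β * e * z * (𝔓.sc α * e) := by rw [hvq, hwq]
      _ = 𝔓.sc β * (e * z * 𝔓.sc α) * e := by simp only [mul_assoc]
      _ = 𝔓.sc β * (𝔓.sc α * (e * z)) * e := by rw [𝔓.sc_comm α (e * z)]
      _ = 𝔓.sc (α * β) * (e * z * e) := by
        rw [mul_comm α β, map_mul]
        simp only [mul_assoc]
  have hnorm : ‖α * β‖ ≤ 1 := by
    have h3 : ∑ b, v b * w b = v q * w q := by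
      refine Finset.sum_eq_single q (fun b _ hb => ?_) (fun h => absurd (Finset.mem_univ _) h)
      rw [(hoff b hb).1, zero_mul]
    have h4 : v q * w q = 𝔓.sc (α * β) * (e * e) := by
      calc v q * w q = 𝔓.sc α * (e * 𝔓.sc β) * e := by rw [hvq, hwq]; simp only [mul_assoc]
        _ = 𝔓.sc α * (𝔓.sc β * e) * e := by rw [𝔓.sc_comm β e]
        _ = 𝔓.sc (α * β) * (e * e) := by rw [map_mul]; simp only [mul_assoc]
    have hg2 : 𝔓.u (gen m i.1) * 𝔓.u (gen m i.1) = 1 := by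
      have h1 := gen_pow_card (m := m) i.1
      rw [hi, pow_two] at h1
      rw [← map_mul, h1, map_one]
    have h5 : e * e = 𝔓.sc (-2) * e := by
      have h6 : 𝔓.sc (-2) = (-2 : 𝔓.B) := by
        rw [map_neg]
        have := 𝔓.sc_natCast 2
        push_cast at this
        rw [this]
      have h7 : (2 : 𝔓.B) = 1 + 1 := one_add_one_eq_two.symm
      rw [h6, he, mul_sub, sub_mul, hg2, mul_one, one_mul, h7, neg_mul, add_mul, one_mul]
      abel
    rw [h3, h4, h5, ← mul_assoc, ← map_mul] at hs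
    have h6 := hs (gen m i.1)
    rw [𝔓.cf_sc_mul, he, map_sub, E7_cf_u, if_pos rfl, E7_cf_one, if_neg, sub_zero, mul_one] at h6
    · refine E7_norm_le ?_
      rwa [show α * β * -2 = -(2 * (α * β)) by ring, norm_neg] at h6
    · intro h1
      have h2 : gen m i.1 ^ 1 = gen m i.1 ^ 0 := by rw [pow_one, pow_zero, h1]
      have h3 := gen_pow_inj i.2 (by rw [hi]; norm_num) (by rw [hi]; norm_num) h2
      exact absurd h3 one_ne_zero
  have hint : ∀ z : 𝔓.B, 𝔓.In z → ∀ a b, 𝔓.In (w a * z * v b) := by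
    intro z hz a b
    by_cases ha : a = q
    · by_cases hb : b = q
      · rw [ha, hb, hwv]
        exact PGR.In.mul 𝔓 (𝔓.In_sc hnorm) (PGR.In.mul 𝔓 (PGR.In.mul 𝔓 heIn hz) heIn)
      · rw [(hoff b hb).1, mul_zero]
        exact E7_In_zero 𝔓
    · rw [(hoff a ha).2, zero_mul, zero_mul]
      exact E7_In_zero 𝔓
  have hone : ∀ i j : Nx m Y σ, 𝔓.In ((1 : Matrix (Nx m Y σ) (Nx m Y σ) 𝔓.B) i j) := by
    intro i j
    rw [Matrix.one_apply]
    split_ifs
    · exact E7_In_one 𝔓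
    · exact E7_In_zero 𝔓
  obtain ⟨T, η, hη, -, -, hT, hT'⟩ := shear_unit 𝔓 v w hs hξ
  refine ⟨T, E7_IsU_mem 𝔓 ⟨⟨fun a b => ?_, fun a b => ?_⟩, ?_, ⟨fun b => 1 - w b * ξ * v b, ?_⟩, ?_⟩,
    hT⟩
  · rw [hT, Matrix.sub_apply, Matrix.of_apply]
    exact E7_In_sub 𝔓 (hone a b) (hint ξ hξ a b)
  · rw [hT', Matrix.add_apply, Matrix.of_apply]
    refine E7_In_add 𝔓 (hone a b) ?_
    rw [mul_assoc (w a) ξ η]
    exact hint (ξ * η) (PGR.In.mul 𝔓 hξ hη) a b
  · refine (mem_SS_iff 𝔓.u _).2 ⟨fun a j => ?_, fun a y => ?_⟩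
    · rw [hT, Matrix.sub_apply, Matrix.of_apply, sub_mul, mul_assoc, hv.2.2.1 j, mul_zero, sub_zero,
        Matrix.one_apply, ite_mul, one_mul, zero_mul]
    · rw [hT, Matrix.sub_apply, Matrix.of_apply, hv.2.2.2 y, mul_zero, sub_zero, Matrix.one_apply]
  · rw [hT]
    ext a b
    rw [Matrix.sub_apply, Matrix.one_apply, Matrix.of_apply, Matrix.diagonal_apply]
    by_cases hab : a = b
    · subst hab
      rw [if_pos rfl, if_pos rfl]
    · rw [if_neg hab, if_neg hab, zero_sub, neg_eq_zero]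
      by_cases ha : a = q
      · rw [(hoff b (fun hb => hab (ha.trans hb.symm))).1, mul_zero]
      · rw [(hoff a ha).2, zero_mul, zero_mul]
  · intro D hD
    obtain ⟨d, d', hd, -, hdi, -, -⟩ := (mem_DD_iff 𝔓 D).1 hD
    have hds : 𝔓.SuppIn (HS m (some i.1)) (d q) := by
      rw [hq]
      exact (hdi i).1
    obtain ⟨δ, hδ⟩ : ∃ δ : ℚ_[p], d q * e = 𝔓.sc δ * e := by
      have h3 := E7_two 𝔓 i hi (E7_supp_mul 𝔓 hds hesupp) (by rw [mul_assoc, heN, mul_zero])
      rw [← he] at h3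
      exact ⟨_, h3⟩
    have hcomm : D * T = T * D := by
      refine Units.ext ?_
      rw [Units.val_mul, Units.val_mul, hd, hT, Matrix.mul_sub, Matrix.sub_mul, Matrix.mul_one,
        Matrix.one_mul]
      congr 1
      ext a b
      rw [Matrix.diagonal_mul, Matrix.mul_diagonal, Matrix.of_apply]
      by_cases ha : a = q
      · by_cases hb : b = q
        · rw [ha, hb, hwv]
          calc d q * (𝔓.sc (α * β) * (e * ξ * e)) = 𝔓.sc (α * β) * (d q * e) * ξ * e := by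
                rw [← mul_assoc, ← 𝔓.sc_comm]
                simp only [mul_assoc]
            _ = 𝔓.sc (α * β) * (𝔓.sc δ * (e * ξ)) * e := by
                rw [hδ]
                simp only [mul_assoc]
            _ = 𝔓.sc (α * β) * (e * ξ * 𝔓.sc δ) * e := by rw [𝔓.sc_comm δ (e * ξ)]
            _ = 𝔓.sc (α * β) * (e * ξ) * (d q * e) := by
                rw [hδ]
                simp only [mul_assoc]
            _ = 𝔓.sc (α * β) * (e * ξ * e) * d q := by
                rw [supp_comm 𝔓 hds hesupp]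
                simp only [mul_assoc]
        · rw [(hoff b hb).1, mul_zero, mul_zero, zero_mul]
      · rw [(hoff a ha).2, zero_mul, zero_mul, mul_zero, zero_mul]
    have h3 : T⁻¹ * D * T * D⁻¹ = 1 := by
      rw [mul_assoc _ D, hcomm, inv_mul_cancel_left, mul_inv_cancel]
    rw [h3]
    exact one_mem _

/-- **Lifts of shears within a block** -/
theorem shear_lift_NN (hyp : Hyp m σ) (S : σ → Option J) (t : Option J) (v w : Nx m Y σ → 𝔓.B)
    (hv : RowW 𝔓 S t v) (hw : ColW 𝔓 S t w) (hs : 𝔓.Sm (∑ b, v b * w b)) (g : Gp m) :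
    ∃ l : List 𝔓.B, l.sum = 𝔓.u g ∧ ∀ ξ ∈ l, 𝔓.In ξ ∧
      ∃ T ∈ NN 𝔓 Y σ, T.1 = 1 - Matrix.of fun a b => w a * ξ * v b := by
  classical
  have hIn1 : ∀ h : Gp m, 𝔓.In (𝔓.u h) := fun h => 𝔓.In_u h
  by_cases hσ : Nonempty σ
  · exact ⟨[𝔓.u g], by simp, by
      intro ξ hξ
      rw [List.mem_singleton] at hξ
      subst hξ
      exact ⟨hIn1 g, shear_slot 𝔓 S t v w hv hw hs hσ (hIn1 g)⟩⟩
  rw [not_nonempty_iff] at hσ
  rcases hyp with h0 | h0 | h0
  · obtain ⟨c, l, hc, hl, hg⟩ := telescope 𝔓 h0 t g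
    refine ⟨𝔓.u c :: (l.map fun q => 𝔓.u q.2.2.1 * (𝔓.u q.2.1 - 1) * 𝔓.u q.2.2.2), ?_, ?_⟩
    · rw [List.sum_cons, hg]
    · intro ξ hξ
      rw [List.mem_cons, List.mem_map] at hξ
      rcases hξ with rfl | ⟨q, hq, rfl⟩
      · exact ⟨hIn1 c, shear_stab 𝔓 S t v w hv hw hs hc⟩
      · refine ⟨?_, shear_tele 𝔓 S t v w hv hw hs q.1 (hl q hq).1 (hl q hq).2 _ _⟩
        have h1 : 𝔓.In (𝔓.u q.2.1 - 1) := by
          rw [sub_eq_add_neg]
          have h2 : 𝔓.In (1 : 𝔓.B) := by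
            have := hIn1 1
            rwa [map_one] at this
          exact PGR.Le.add 𝔓 (hIn1 _) (PGR.Le.neg 𝔓 h2)
        exact PGR.In.mul 𝔓 (PGR.In.mul 𝔓 (hIn1 _) h1) (hIn1 _)
  · exact absurd h0 (not_nonempty_iff.mpr hσ)
  · exact ⟨[𝔓.u g], by simp, by
      intro ξ hξ
      rw [List.mem_singleton] at hξ
      subst hξ
      exact ⟨hIn1 g, shear_two 𝔓 h0 hσ S t v w hv hw hs (hIn1 g)⟩⟩

end FP
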