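import Pool.Agent.Lib.MP_2d4659_gt.FP.FDefs

/-! # Projections to the pieces of the standard frame -/

set_option autoImplicit false

namespace FP

variable {J : Type} [DecidableEq J] [Fintype J] {m : J → ℕ} {Y σ : Type} [Fintype Y] [DecidableEq Y]
  [Fintype σ] [DecidableEq σ] {p : ℕ} [Fact p.Prime] (𝔓 : PGR p (Gp m))

lemma mem_cs (x : Vx m) (g : Gp m) : g ∈ cs x ↔ g • bs m (ty x) = x := Iff.rfl

/-- `cs x` is a left coset of `HT (ty x)` -/
lemma cs_mul {x : Vx m} {g h : Gp m} (hg : g ∈ cs x) : g * h ∈ cs x ↔ h ∈ HT m (ty x) := by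
  rw [mem_cs] at hg ⊢
  constructor
  · intro h1
    have h2 : (g * h) • bs m (ty x) = g • bs m (ty x) := h1.trans hg.symm
    rw [eq_comm, smul_bs_eq, inv_mul_cancel_left] at h2
    exact h2
  · intro h1
    rw [mul_smul, (stab_bs h (ty x)).mpr h1]
    exact hg

lemma cs_disj {x y : Vx m} {g : Gp m} (hx : g ∈ cs x) (hy : g ∈ cs y) (ht : ty x = ty y) :
    x = y := by
  rw [mem_cs] at hx hy
  rw [← hx, ← hy, ht]

lemma cs_bs (t : Option J) : (cs (bs m t) : Set (Gp m)) = HS m t := by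
  ext g
  rw [mem_cs, ty_bs, stab_bs]
  exact Iff.rfl

lemma prj_apply (S : σ → Option J) (x : Vx m) (v : Nx m Y σ → 𝔓.B) (b : Nx m Y σ)
    (h : blk S b = ty x) : prj 𝔓 S x v b = 𝔓.rs (cs x) (v b) := by
  change (open Classical in if blk S b = ty x then 𝔓.rs (cs x) (v b) else 0) = _
  exact if_pos h

lemma prj_apply_ne (S : σ → Option J) (x : Vx m) (v : Nx m Y σ → 𝔓.B) (b : Nx m Y σ)
    (h : blk S b ≠ ty x) : prj 𝔓 S x v b = 0 := by
  change (open Classical in if blk S b = ty x then 𝔓.rs (cs x) (v b) else 0) = _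
  exact if_neg h

lemma prj_prj (S : σ → Option J) (x : Vx m) (v : Nx m Y σ → 𝔓.B) :
    prj 𝔓 S x (prj 𝔓 S x v) = prj 𝔓 S x v := by
  funext b
  by_cases h : blk S b = ty x
  · rw [prj_apply 𝔓 S x _ b h, prj_apply 𝔓 S x v b h]
    exact 𝔓.rs_eq_self (𝔓.rs_supp _ _)
  · rw [prj_apply_ne 𝔓 S x _ b h, prj_apply_ne 𝔓 S x v b h]

lemma prj_orth (S : σ → Option J) {x y : Vx m} (hxy : x ≠ y) (v : Nx m Y σ → 𝔓.B) :
    prj 𝔓 S x (prj 𝔓 S y v) = 0 := by
  funext b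
  rw [Pi.zero_apply]
  by_cases h : blk S b = ty x
  · rw [prj_apply 𝔓 S x _ b h]
    by_cases h' : blk S b = ty y
    · rw [prj_apply 𝔓 S y v b h']
      refine 𝔓.ext fun g => ?_
      rw [map_zero]
      by_cases hg : g ∈ cs x
      · rw [𝔓.cf_rs_mem _ _ _ hg]
        have hg' : g ∉ cs y := fun hgy => hxy (cs_disj hg hgy (h.symm.trans h'))
        exact 𝔓.cf_rs_notMem _ _ _ hg'
      · exact 𝔓.cf_rs_notMem _ _ _ hg
    · rw [prj_apply_ne 𝔓 S y v b h', map_zero]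
  · exact prj_apply_ne 𝔓 S x _ b h

/-- the coset of a translate -/
lemma F0_cs_smul (g : Gp m) (x : Vx m) : cs (g • x) = (fun h => g * h) '' cs x := by
  ext h
  constructor
  · intro hh
    rw [mem_cs, ty_smul] at hh
    refine ⟨g⁻¹ * h, ?_, mul_inv_cancel_left g h⟩
    rw [mem_cs, mul_smul, hh, inv_smul_smul]
  · rintro ⟨k, hk, rfl⟩
    rw [mem_cs] at hk
    change (g * k) • bs m (ty (g • x)) = g • x
    rw [ty_smul, mul_smul, hk]

lemma prj_smul (S : σ → Option J) (g : Gp m) (x : Vx m) (v : Nx m Y σ → 𝔓.B) :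
    prj 𝔓 S (g • x) (fun b => 𝔓.u g * v b) = fun b => 𝔓.u g * prj 𝔓 S x v b := by
  funext b
  by_cases h : blk S b = ty x
  · rw [prj_apply 𝔓 S (g • x) _ b (h.trans (ty_smul g x).symm), prj_apply 𝔓 S x v b h, F0_cs_smul]
    exact 𝔓.rs_u_mul _ _ _
  · rw [prj_apply_ne 𝔓 S (g • x) _ b (fun h' => h (h'.trans (ty_smul g x))),
      prj_apply_ne 𝔓 S x v b h, mul_zero]

lemma prj_InV (S : σ → Option J) (x : Vx m) {v : Nx m Y σ → 𝔓.B} (hv : InV 𝔓 v) :
    InV 𝔓 (prj 𝔓 S x v) := by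
  refine ⟨fun i => ?_, fun y => ?_⟩
  · by_cases h : blk S (Sum.inl (Sum.inl i) : Nx m Y σ) = ty x
    · rw [prj_apply 𝔓 S x v _ h]
      have hN : 𝔓.SuppIn (HT m (ty x) : Set (Gp m)) (NB 𝔓.u i) := by
        rw [← h]
        exact NB_supp 𝔓 i
      rw [← 𝔓.rs_mul_supp (H := HT m (ty x)) (fun g hg h hh => (cs_mul hg).mpr hh) _ hN, hv.1 i,
        map_zero]
    · rw [prj_apply_ne 𝔓 S x v _ h, zero_mul]
  · by_cases h : blk S (Sum.inl (Sum.inr y) : Nx m Y σ) = ty x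
    · rw [prj_apply 𝔓 S x v _ h, hv.2 y, map_zero]
    · exact prj_apply_ne 𝔓 S x v _ h

lemma prj_Le (S : σ → Option J) (x : Vx m) {v : Nx m Y σ → 𝔓.B} {r : ℝ} (hr : 0 ≤ r)
    (hv : ∀ b, 𝔓.Le r (v b)) (b : Nx m Y σ) : 𝔓.Le r (prj 𝔓 S x v b) := by
  by_cases h : blk S b = ty x
  · rw [prj_apply 𝔓 S x v b h]
    exact 𝔓.rs_Le hr _ (hv b)
  · rw [prj_apply_ne 𝔓 S x v b h]
    intro g
    rw [map_zero, norm_zero]
    exact hr

/-- the elements fixed by `prj (bs t)` in the kernel of `Ψ` are the rows of `RowW` -/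
lemma prj_fix_iff (S : σ → Option J) (t : Option J) {v : Nx m Y σ → 𝔓.B} (hv : InV 𝔓 v) :
    prj 𝔓 S (bs m t) v = v ↔ RowW 𝔓 S t v := by
  constructor
  · intro h
    refine ⟨fun b hb => ?_, fun b => ?_, hv.1, hv.2⟩
    · rw [← h]
      exact prj_apply_ne 𝔓 S _ v b (by rw [ty_bs]; exact hb)
    · by_cases hb : blk S b = t
      · rw [← h, prj_apply 𝔓 S _ v b (by rw [ty_bs]; exact hb), cs_bs]
        exact 𝔓.rs_supp _ _
      · rw [← h, prj_apply_ne 𝔓 S _ v b (by rw [ty_bs]; exact hb)]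
        intro g _
        exact map_zero _
  · rintro ⟨h1, h2, -, -⟩
    funext b
    by_cases hb : blk S b = t
    · rw [prj_apply 𝔓 S _ v b (by rw [ty_bs]; exact hb), cs_bs]
      exact 𝔓.rs_eq_self (h2 b)
    · rw [prj_apply_ne 𝔓 S _ v b (by rw [ty_bs]; exact hb), h1 b hb]

end FP
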