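import Pool.Agent.Lib.MP_2d4659_gt.FP.F0

/-! # Approximation by the projections, and lattices -/

set_option autoImplicit false

namespace FP

variable {J : Type} [DecidableEq J] [Fintype J] {m : J → ℕ} {Y σ : Type} [Fintype Y] [DecidableEq Y]
  [Fintype σ] [DecidableEq σ] {p : ℕ} [Fact p.Prime] (𝔓 : PGR p (Gp m))

/-- the pieces of the partition of `G` for the slot `b` -/
def F0b_pc (S : σ → Option J) (b : Nx m Y σ) (x : Vx m) : Set (Gp m) :=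
  {g | g ∈ cs x ∧ blk S b = ty x}

lemma F0b_pc_disj (S : σ → Option J) (b : Nx m Y σ) (x y : Vx m) (g : Gp m)
    (hx : g ∈ F0b_pc S b x) (hy : g ∈ F0b_pc S b y) : x = y :=
  cs_disj hx.1 hy.1 (hx.2.symm.trans hy.2)

lemma F0b_prj (S : σ → Option J) (b : Nx m Y σ) (x : Vx m) (v : Nx m Y σ → 𝔓.B) :
    prj 𝔓 S x v b = 𝔓.rs (F0b_pc S b x) (v b) := by
  by_cases h : blk S b = ty x
  · rw [prj_apply 𝔓 S x v b h]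
    have : F0b_pc S b x = cs x := by
      ext g
      exact ⟨fun hg => hg.1, fun hg => ⟨hg, h⟩⟩
    rw [this]
  · rw [prj_apply_ne 𝔓 S x v b h]
    refine 𝔓.ext fun g => ?_
    rw [map_zero, 𝔓.cf_rs_notMem]
    exact fun hg => h hg.2

lemma F0b_mem (S : σ → Option J) (b : Nx m Y σ) (g : Gp m) :
    g ∈ F0b_pc S b (g • bs m (blk S b)) := by
  have h : ty (g • bs m (blk S b)) = blk S b := by rw [ty_smul, ty_bs]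
  refine ⟨?_, h.symm⟩
  rw [mem_cs, h]

/-- a vector is approximated by the sum of its projections to finitely many pieces -/
lemma prj_approx (S : σ → Option J) {v : Nx m Y σ → 𝔓.B} (hv : InV 𝔓 v) (ε : ℝ) (hε : 0 < ε) :
    ∃ s : Finset (Vx m), (∀ x ∉ s, ∀ b, 𝔓.Le ε (prj 𝔓 S x v b)) ∧
      ∀ s' : Finset (Vx m), s ⊆ s' → ∀ b, 𝔓.Le ε ((v - ∑ x ∈ s', prj 𝔓 S x v) b) := by
  classical
  have hf : ∀ b : Nx m Y σ, {x | ¬ 𝔓.Le ε (𝔓.rs (F0b_pc S b x) (v b))}.Finite := fun b =>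
    𝔓.rs_small (F0b_pc S b) (F0b_pc_disj S b) (v b) ε hε
  have h1 : ∀ x ∉ Finset.univ.biUnion (fun b => (hf b).toFinset), ∀ b,
      𝔓.Le ε (prj 𝔓 S x v b) := by
    intro x hx b
    rw [F0b_prj]
    by_contra hc
    exact hx (Finset.mem_biUnion.2 ⟨b, Finset.mem_univ b, (hf b).mem_toFinset.2 hc⟩)
  refine ⟨_, h1, ?_⟩
  intro s' hs' b g
  have e : 𝔓.cf g ((v - ∑ x ∈ s', prj 𝔓 S x v) b) =
      𝔓.cf g (v b) - ∑ x ∈ s', 𝔓.cf g (prj 𝔓 S x v b) := by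
    rw [Pi.sub_apply, Finset.sum_apply, map_sub, map_sum]
  set x₀ : Vx m := g • bs m (blk S b) with hx₀
  have hne : ∀ x, x ≠ x₀ → 𝔓.cf g (prj 𝔓 S x v b) = 0 := by
    intro x hx
    rw [F0b_prj, 𝔓.cf_rs_notMem]
    exact fun hg => hx (F0b_pc_disj S b x x₀ g hg (F0b_mem S b g))
  have heq : 𝔓.cf g (prj 𝔓 S x₀ v b) = 𝔓.cf g (v b) := by
    rw [F0b_prj, 𝔓.cf_rs_mem _ _ _ (F0b_mem S b g)]
  rw [e]
  by_cases hm : x₀ ∈ s'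
  · rw [Finset.sum_eq_single x₀ (fun x _ hx => hne x hx) (fun h => absurd hm h), heq, sub_self,
      norm_zero]
    exact hε.le
  · rw [Finset.sum_eq_zero (fun x hx => hne x (fun h => hm (h ▸ hx))), sub_zero, ← heq]
    exact h1 x₀ (fun h => hm (hs' h)) b g

lemma F0b_cf_smul (k : ℕ) (b : 𝔓.B) (g : Gp m) :
    𝔓.cf g ((p ^ k : ℕ) • b) = (p : ℚ_[p]) ^ k * 𝔓.cf g b := by
  rw [map_nsmul, nsmul_eq_mul, Nat.cast_pow]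

lemma F0b_norm (k : ℕ) : ‖(p : ℚ_[p]) ^ k‖ = ((p : ℝ) ^ k)⁻¹ := by
  rw [norm_pow, Padic.norm_p, inv_pow]

lemma F0b_pk_pos (k : ℕ) : (0 : ℝ) < (p : ℝ) ^ k := by
  have : (0 : ℝ) < p := by exact_mod_cast (Fact.out : p.Prime).pos
  positivity

/-- `p ^ k b` is integral iff `b` has norm at most `p ^ k` -/
lemma F0b_In_iff (k : ℕ) (b : 𝔓.B) : 𝔓.In ((p ^ k : ℕ) • b) ↔ 𝔓.Le ((p : ℝ) ^ k) b := by
  have hk := F0b_pk_pos (p := p) k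
  refine forall_congr' fun g => ?_
  rw [F0b_cf_smul, norm_mul, F0b_norm, inv_mul_le_iff₀ hk, mul_one]

lemma F0b_InV_smul (k : ℕ) {v : Nx m Y σ → 𝔓.B} (hv : InV 𝔓 v) : InV 𝔓 ((p ^ k : ℕ) • v) := by
  refine ⟨fun i => ?_, fun y => ?_⟩
  · rw [Pi.smul_apply, smul_mul_assoc, hv.1 i, smul_zero]
  · rw [Pi.smul_apply, hv.2 y, smul_zero]

/-- small elements of the kernel of `Ψ` are in the lattice -/
lemma Lat.small {F : Submodule (Rh 𝔓) (Nx m Y σ → 𝔓.B)} (hF : Lat 𝔓 F) :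
    ∃ ε : ℝ, 0 < ε ∧ ∀ v, InV 𝔓 v → (∀ b, 𝔓.Le ε (v b)) → v ∈ F := by
  obtain ⟨-, ⟨a, ha⟩, -⟩ := hF
  have hk := F0b_pk_pos (p := p) a
  have hp0 : (p : ℚ_[p]) ^ a ≠ 0 :=
    pow_ne_zero _ (by exact_mod_cast (Fact.out : p.Prime).ne_zero)
  refine ⟨((p : ℝ) ^ a)⁻¹, inv_pos.2 hk, fun v hv hs => ?_⟩
  have hw : (fun b => 𝔓.sc (((p : ℚ_[p]) ^ a)⁻¹) * v b) ∈ Jh 𝔓 Y σ := by
    refine ⟨⟨fun i => ?_, fun y => ?_⟩, fun b g => ?_⟩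
    · change 𝔓.sc _ * v _ * _ = 0
      rw [mul_assoc, hv.1 i, mul_zero]
    · change 𝔓.sc _ * v _ = 0
      rw [hv.2 y, mul_zero]
    · rw [𝔓.cf_sc_mul, norm_mul, norm_inv, F0b_norm, inv_inv]
      have h1 := hs b g
      calc (p : ℝ) ^ a * ‖𝔓.cf g (v b)‖ ≤ (p : ℝ) ^ a * ((p : ℝ) ^ a)⁻¹ :=
            mul_le_mul_of_nonneg_left h1 hk.le
        _ = 1 := mul_inv_cancel₀ hk.ne'
  have h2 := ha _ hw
  have h3 : (p ^ a : ℕ) • (fun b => 𝔓.sc (((p : ℚ_[p]) ^ a)⁻¹) * v b) = v := by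
    funext b
    refine 𝔓.ext fun g => ?_
    rw [Pi.smul_apply, F0b_cf_smul, 𝔓.cf_sc_mul, ← mul_assoc, mul_inv_cancel₀ hp0, one_mul]
  rwa [h3] at h2

lemma Lat.bdd {F : Submodule (Rh 𝔓) (Nx m Y σ → 𝔓.B)} (hF : Lat 𝔓 F) :
    ∃ r : ℝ, 0 < r ∧ ∀ v ∈ F, ∀ b, 𝔓.Le r (v b) := by
  obtain ⟨-, -, ⟨k, hk⟩⟩ := hF
  refine ⟨(p : ℝ) ^ k, F0b_pk_pos k, fun v hv b => ?_⟩
  exact (F0b_In_iff 𝔓 k (v b)).1 ((hk v hv).2 b)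

lemma F0b_psi (v : Nx m Y σ → 𝔓.B) (c : Co m Y) :
    Matrix.vecMul v (psi 𝔓.u Y σ) c = v (Sum.inl c) * dg 𝔓.u Y c := by
  have h1 : Matrix.vecMul v (psi 𝔓.u Y σ) c = ∑ r, v r * psi 𝔓.u Y σ r c := rfl
  rw [h1, Fintype.sum_sum_type]
  have h2 : ∑ r : σ, v (Sum.inr r) * psi 𝔓.u Y σ (Sum.inr r) c = 0 :=
    Finset.sum_eq_zero fun r _ => mul_zero _
  rw [h2, add_zero, Finset.sum_eq_single c]
  · change v (Sum.inl c) * (if c = c then dg 𝔓.u Y c else 0) = _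
    rw [if_pos rfl]
  · intro r _ hr
    change v (Sum.inl r) * (if r = c then dg 𝔓.u Y c else 0) = _
    rw [if_neg hr, mul_zero]
  · intro h
    exact absurd (Finset.mem_univ c) h

lemma F0b_InV_iff (v : Nx m Y σ → 𝔓.B) : InV 𝔓 v ↔ Matrix.vecMul v (psi 𝔓.u Y σ) = 0 := by
  constructor
  · rintro ⟨h1, h2⟩
    funext c
    rw [F0b_psi]
    rcases c with i | y
    · exact h1 i
    · rw [h2 y, zero_mul]
      rfl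
  · intro h
    refine ⟨fun i => ?_, fun y => ?_⟩
    · have := congrFun h (Sum.inl i)
      rw [F0b_psi] at this
      exact this
    · have := congrFun h (Sum.inr y)
      rw [F0b_psi] at this
      have h1 : v (Sum.inl (Sum.inr y)) * 1 = 0 := this
      rwa [mul_one] at h1

/-- `SS` preserves the kernel of `Ψ` -/
lemma SS_InV {A : (Matrix (Nx m Y σ) (Nx m Y σ) 𝔓.B)ˣ} (hA : A ∈ SS 𝔓.u Y σ)
    (v : Nx m Y σ → 𝔓.B) : InV 𝔓 (Matrix.vecMul v A.1) ↔ InV 𝔓 v := by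
  have hA' : A.1 * psi 𝔓.u Y σ = psi 𝔓.u Y σ := hA
  rw [F0b_InV_iff, F0b_InV_iff, Matrix.vecMul_vecMul, hA']

/-- a matrix is bounded -/
lemma F0b_bdd (M : Matrix (Nx m Y σ) (Nx m Y σ) 𝔓.B) :
    ∃ k : ℕ, ∀ a b, 𝔓.Le ((p : ℝ) ^ k) (M a b) := by
  choose k hk using fun q : Nx m Y σ × Nx m Y σ => 𝔓.cf_bdd (M q.1 q.2)
  refine ⟨Finset.univ.sup k, fun a b g => (hk (a, b) g).trans ?_⟩
  have hp : (1 : ℝ) ≤ p := by exact_mod_cast (Fact.out : p.Prime).one_lt.le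
  exact pow_le_pow_right₀ hp (Finset.le_sup (f := k) (Finset.mem_univ (a, b)))

/-- right multiplication by an element of `SS` is bounded on the standard lattice -/
lemma F0b_key {A : (Matrix (Nx m Y σ) (Nx m Y σ) 𝔓.B)ˣ} (hA : A ∈ SS 𝔓.u Y σ) :
    ∃ k : ℕ, ∀ v ∈ Jh 𝔓 Y σ, (p ^ k : ℕ) • Matrix.vecMul v A.1 ∈ Jh 𝔓 Y σ := by
  obtain ⟨k, hk⟩ := F0b_bdd 𝔓 A.1
  refine ⟨k, fun v hv => ⟨F0b_InV_smul 𝔓 k ((SS_InV 𝔓 hA v).2 hv.1), fun b => ?_⟩⟩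
  rw [Pi.smul_apply, F0b_In_iff]
  have h1 : Matrix.vecMul v A.1 b = ∑ a, v a * A.1 a b := rfl
  rw [h1]
  refine PGR.Le.sum 𝔓 (F0b_pk_pos k).le _ _ fun a _ g => ?_
  have := 𝔓.cf_mul (v a) (A.1 a b) 1 ((p : ℝ) ^ k) (hv.2 a) (hk a b) g
  rwa [one_mul] at this

lemma mem_Jt {θ : (Matrix (Nx m Y σ) (Nx m Y σ) 𝔓.B)ˣ} (v : Nx m Y σ → 𝔓.B) :
    v ∈ Jt 𝔓 θ ↔ Matrix.vecMul v θ⁻¹.1 ∈ Jh 𝔓 Y σ := by
  constructor
  · rintro ⟨w, hw, rfl⟩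
    change Matrix.vecMul (Matrix.vecMul w θ.1) θ⁻¹.1 ∈ Jh 𝔓 Y σ
    have h : θ.1 * θ⁻¹.1 = 1 := by rw [← Units.val_mul, mul_inv_cancel, Units.val_one]
    rw [Matrix.vecMul_vecMul, h, Matrix.vecMul_one]
    exact hw
  · intro h
    refine ⟨Matrix.vecMul v θ⁻¹.1, h, ?_⟩
    change Matrix.vecMul (Matrix.vecMul v θ⁻¹.1) θ.1 = v
    have h : θ⁻¹.1 * θ.1 = 1 := by rw [← Units.val_mul, inv_mul_cancel, Units.val_one]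
    rw [Matrix.vecMul_vecMul, h, Matrix.vecMul_one]

lemma F0b_smul_vecMul (k : ℕ) (v : Nx m Y σ → 𝔓.B) (M : Matrix (Nx m Y σ) (Nx m Y σ) 𝔓.B) :
    Matrix.vecMul ((p ^ k : ℕ) • v) M = (p ^ k : ℕ) • Matrix.vecMul v M :=
  map_nsmul (mulM 𝔓 M) (p ^ k) v

lemma Jt_Lat {θ : (Matrix (Nx m Y σ) (Nx m Y σ) 𝔓.B)ˣ} (hθ : θ ∈ SS 𝔓.u Y σ) :
    Lat 𝔓 (Jt 𝔓 θ) := by
  refine ⟨?_, ?_, ?_⟩
  · rintro _ ⟨w, hw, rfl⟩
    exact (SS_InV 𝔓 hθ w).2 hw.1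
  · obtain ⟨k, hk⟩ := F0b_key 𝔓 ((SS 𝔓.u Y σ).inv_mem hθ)
    refine ⟨k, fun v hv => ?_⟩
    rw [mem_Jt, F0b_smul_vecMul]
    exact hk v hv
  · obtain ⟨k, hk⟩ := F0b_key 𝔓 hθ
    refine ⟨k, ?_⟩
    rintro _ ⟨w, hw, rfl⟩
    exact hk w hw

/-- the translate of a lattice by `A⁻¹` -/
lemma Lat.comap {F : Submodule (Rh 𝔓) (Nx m Y σ → 𝔓.B)} (hF : Lat 𝔓 F)
    {A : (Matrix (Nx m Y σ) (Nx m Y σ) 𝔓.B)ˣ} (hA : A ∈ SS 𝔓.u Y σ) :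
    Lat 𝔓 (F.comap (mulM 𝔓 A.1)) := by
  obtain ⟨h1, ⟨a, ha⟩, ⟨b, hb⟩⟩ := hF
  refine ⟨?_, ?_, ?_⟩
  · intro v hv
    exact (SS_InV 𝔓 hA v).1 (h1 _ hv)
  · obtain ⟨k, hk⟩ := F0b_key 𝔓 hA
    refine ⟨a + k, fun v hv => ?_⟩
    change Matrix.vecMul ((p ^ (a + k) : ℕ) • v) A.1 ∈ F
    rw [F0b_smul_vecMul, pow_add, mul_smul]
    exact ha _ (hk v hv)
  · obtain ⟨k, hk⟩ := F0b_key 𝔓 ((SS 𝔓.u Y σ).inv_mem hA)
    refine ⟨k + b, fun v hv => ?_⟩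
    have h2 := hk _ (hb _ hv)
    change (p ^ k : ℕ) • Matrix.vecMul ((p ^ b : ℕ) • Matrix.vecMul v A.1) A⁻¹.1 ∈ _ at h2
    have h : A.1 * A⁻¹.1 = 1 := by rw [← Units.val_mul, mul_inv_cancel, Units.val_one]
    rw [F0b_smul_vecMul, Matrix.vecMul_vecMul, h, Matrix.vecMul_one, ← mul_smul, ← pow_add] at h2
    exact h2

end FP
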