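import Pool.Agent.Lib.MP_2d4659_gt.FP.F0b

/-! # The quotient `F / p F` and its frames -/

set_option autoImplicit false

namespace FP

variable {J : Type} [DecidableEq J] [Fintype J] {m : J → ℕ} {Y σ : Type} [Fintype Y] [DecidableEq Y]
  [Fintype σ] [DecidableEq σ] {p : ℕ} [Fact p.Prime] (𝔓 : PGR p (Gp m))

/-- the multiples of `p` -/
def F1_P (F : Submodule (Rh 𝔓) (Nx m Y σ → 𝔓.B)) : AddSubgroup F where
  carrier := {v | ∃ w ∈ F, v.1 = (p : ℕ) • w}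
  add_mem' := by
    rintro a b ⟨v, hv, hv'⟩ ⟨w, hw, hw'⟩
    refine ⟨v + w, add_mem hv hw, ?_⟩
    rw [smul_add, ← hv', ← hw']
    rfl
  zero_mem' := ⟨0, zero_mem _, by rw [smul_zero]; rfl⟩
  neg_mem' := by
    rintro a ⟨v, hv, hv'⟩
    refine ⟨-v, neg_mem hv, ?_⟩
    rw [smul_neg, ← hv']
    rfl

lemma F1_mem_P (F : Submodule (Rh 𝔓) (Nx m Y σ → 𝔓.B)) (v : F) :
    v ∈ F1_P 𝔓 F ↔ ∃ w ∈ F, v.1 = (p : ℕ) • w := Iff.rfl

/-- left multiplication by a group element -/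
noncomputable def F1_act (F : Submodule (Rh 𝔓) (Nx m Y σ → 𝔓.B)) (g : Gp m) : F →+ F where
  toFun v := ⟨fun b => 𝔓.u g * v.1 b, u_smul_mem 𝔓 g v.2⟩
  map_zero' := Subtype.ext (funext fun b => mul_zero _)
  map_add' v w := Subtype.ext (funext fun b => mul_add _ _ _)

lemma F1_act_P (F : Submodule (Rh 𝔓) (Nx m Y σ → 𝔓.B)) (g : Gp m) :
    F1_P 𝔓 F ≤ (F1_P 𝔓 F).comap (F1_act 𝔓 F g) := by
  rintro v ⟨w, hw, hv⟩
  refine ⟨fun b => 𝔓.u g * w b, u_smul_mem 𝔓 g hw, ?_⟩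
  funext b
  change 𝔓.u g * v.1 b = (p : ℕ) • (𝔓.u g * w b)
  rw [hv, Pi.smul_apply, mul_smul_comm]

theorem exists_LQ (F : Submodule (Rh 𝔓) (Nx m Y σ → 𝔓.B)) : Nonempty (LQ 𝔓 F) := by
  have hp : ∀ x : F ⧸ F1_P 𝔓 F, p • x = 0 := by
    intro x
    induction x using QuotientAddGroup.induction_on with
    | H v =>
      have : (p • (QuotientAddGroup.mk v : F ⧸ F1_P 𝔓 F)) = QuotientAddGroup.mk (p • v) := rfl
      rw [this, QuotientAddGroup.eq_zero_iff, F1_mem_P]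
      exact ⟨v.1, v.2, rfl⟩
  let inst : Module (ZMod p) (F ⧸ F1_P 𝔓 F) := AddCommGroup.zmodModule hp
  refine ⟨{ L := F ⧸ F1_P 𝔓 F
            q := QuotientAddGroup.mk' (F1_P 𝔓 F)
            q_surj := QuotientAddGroup.mk'_surjective _
            q_ker := fun v => by
              rw [← F1_mem_P]
              exact QuotientAddGroup.eq_zero_iff v
            ρ :=
              { toFun := fun g => AddMonoidHom.toZModLinearMap p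
                  (QuotientAddGroup.map (F1_P 𝔓 F) (F1_P 𝔓 F) (F1_act 𝔓 F g) (F1_act_P 𝔓 F g))
                map_one' := ?_
                map_mul' := ?_ }
            ρ_q := fun g v => rfl }⟩
  · ext x
    induction x using QuotientAddGroup.induction_on with
    | H v =>
      change (QuotientAddGroup.mk (F1_act 𝔓 F 1 v) : F ⧸ F1_P 𝔓 F) = QuotientAddGroup.mk v
      congr 1
      refine Subtype.ext (funext fun b => ?_)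
      change 𝔓.u 1 * v.1 b = v.1 b
      rw [map_one, one_mul]
  · intro g h
    ext x
    induction x using QuotientAddGroup.induction_on with
    | H v =>
      change (QuotientAddGroup.mk (F1_act 𝔓 F (g * h) v) : F ⧸ F1_P 𝔓 F) =
        QuotientAddGroup.mk (F1_act 𝔓 F g (F1_act 𝔓 F h v))
      congr 1
      refine Subtype.ext (funext fun b => ?_)
      change 𝔓.u (g * h) * v.1 b = 𝔓.u g * (𝔓.u h * v.1 b)
      rw [map_mul, mul_assoc]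

lemma F1_int {F : Submodule (Rh 𝔓) (Nx m Y σ → 𝔓.B)}
    {θ : (Matrix (Nx m Y σ) (Nx m Y σ) 𝔓.B)ˣ} (hθ : F ≤ Jt 𝔓 θ) (v : F) (b : Nx m Y σ) :
    𝔓.In (Matrix.vecMul v.1 θ⁻¹.1 b) := ((mem_Jt 𝔓 v.1).1 (hθ v.2)).2 b

/-- the map `v ↦ v θ⁻¹ mod p` -/
noncomputable def F1_phi {F : Submodule (Rh 𝔓) (Nx m Y σ → 𝔓.B)}
    {θ : (Matrix (Nx m Y σ) (Nx m Y σ) 𝔓.B)ˣ} (hθ : F ≤ Jt 𝔓 θ) :
    F →+ (Gp m →₀ (Nx m Y σ → ZMod p)) where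
  toFun v := colF m (ZMod p) (Nx m Y σ) (fun b => 𝔓.red (Matrix.vecMul v.1 θ⁻¹.1 b))
  map_zero' := by
    have h : (fun b : Nx m Y σ => 𝔓.red (Matrix.vecMul (0 : F).1 θ⁻¹.1 b)) = 0 := by
      funext b
      have : Matrix.vecMul (0 : F).1 θ⁻¹.1 = 0 := Matrix.zero_vecMul _
      rw [this]
      exact 𝔓.D2_red_zero
    rw [h, map_zero]
  map_add' v w := by
    rw [← map_add]
    congr 1
    funext b
    rw [Pi.add_apply, ← 𝔓.red_add (F1_int 𝔓 hθ v b) (F1_int 𝔓 hθ w b)]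
    have : Matrix.vecMul (v + w).1 θ⁻¹.1 = Matrix.vecMul v.1 θ⁻¹.1 + Matrix.vecMul w.1 θ⁻¹.1 :=
      Matrix.add_vecMul _ _ _
    rw [this]
    rfl

lemma F1_phi_apply {F : Submodule (Rh 𝔓) (Nx m Y σ → 𝔓.B)}
    {θ : (Matrix (Nx m Y σ) (Nx m Y σ) 𝔓.B)ˣ} (hθ : F ≤ Jt 𝔓 θ) (v : F) (g : Gp m)
    (b : Nx m Y σ) : F1_phi 𝔓 hθ v g b = (𝔓.red (Matrix.vecMul v.1 θ⁻¹.1 b)).coeff g := by
  change colF m (ZMod p) (Nx m Y σ) _ g b = _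
  rw [colF_apply]

lemma F1_phi_eq_zero {F : Submodule (Rh 𝔓) (Nx m Y σ → 𝔓.B)}
    {θ : (Matrix (Nx m Y σ) (Nx m Y σ) 𝔓.B)ˣ} (hθ : F ≤ Jt 𝔓 θ) (v : F) :
    F1_phi 𝔓 hθ v = 0 ↔ ∃ w ∈ Jt 𝔓 θ, v.1 = (p : ℕ) • w := by
  have hp0 : (p : ℚ_[p]) ≠ 0 := by exact_mod_cast (Fact.out : p.Prime).ne_zero
  constructor
  · intro h
    have hS : ∀ b, 𝔓.Sm (Matrix.vecMul v.1 θ⁻¹.1 b) := by
      intro b
      rw [← 𝔓.red_eq_zero (F1_int 𝔓 hθ v b)]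
      refine MonoidAlgebra.coeff_injective (Finsupp.ext fun g => ?_)
      rw [← F1_phi_apply 𝔓 hθ v g b, h]
      rfl
    have hJ := (mem_Jt 𝔓 v.1).1 (hθ v.2)
    choose c hc hc' using fun b => (𝔓.Sm_iff _).1 (hS b)
    have hinj : ∀ x : 𝔓.B, (p : 𝔓.B) * x = 0 → x = 0 := by
      intro x hx
      apply 𝔓.cf_inj
      intro g
      have h1 := 𝔓.cf_p_mul x g
      rw [hx, map_zero] at h1
      exact (mul_eq_zero.1 h1.symm).resolve_left hp0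
    have hcJ : c ∈ Jh 𝔓 Y σ := by
      refine ⟨⟨fun i => hinj _ ?_, fun y => hinj _ ?_⟩, hc⟩
      · rw [← mul_assoc, ← hc']
        exact hJ.1.1 i
      · rw [← hc']
        exact hJ.1.2 y
    refine ⟨Matrix.vecMul c θ.1, ⟨c, hcJ, rfl⟩, ?_⟩
    have h2 : Matrix.vecMul v.1 θ⁻¹.1 = (p : ℕ) • c := by
      funext b
      rw [hc' b, Pi.smul_apply, nsmul_eq_mul]
    have h3 : Matrix.vecMul (Matrix.vecMul v.1 θ⁻¹.1) θ.1 = v.1 := by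
      have h4 : θ⁻¹.1 * θ.1 = 1 := by rw [← Units.val_mul, inv_mul_cancel, Units.val_one]
      rw [Matrix.vecMul_vecMul, h4, Matrix.vecMul_one]
    rw [← h3, h2]
    exact map_nsmul (mulM 𝔓 θ.1) p c
  · rintro ⟨w, hw, hv⟩
    have hwJ := (mem_Jt 𝔓 w).1 hw
    have h1 : Matrix.vecMul v.1 θ⁻¹.1 = (p : ℕ) • Matrix.vecMul w θ⁻¹.1 := by
      rw [hv]
      exact map_nsmul (mulM 𝔓 θ⁻¹.1) p w
    ext g b
    rw [F1_phi_apply]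
    have h2 : 𝔓.red (Matrix.vecMul v.1 θ⁻¹.1 b) = 0 := by
      rw [𝔓.red_eq_zero (F1_int 𝔓 hθ v b), 𝔓.Sm_iff]
      refine ⟨Matrix.vecMul w θ⁻¹.1 b, hwJ.2 b, ?_⟩
      rw [h1, Pi.smul_apply, nsmul_eq_mul]
    rw [h2]
    rfl

/-- the map `F / p F → (G →₀ (ZMod p)^n)` given by `v ↦ v θ⁻¹ mod p`, for `F ≤ Jh θ` -/
theorem exists_fF {F : Submodule (Rh 𝔓) (Nx m Y σ → 𝔓.B)} (Q : LQ 𝔓 F)
    {θ : (Matrix (Nx m Y σ) (Nx m Y σ) 𝔓.B)ˣ} (hθ : F ≤ Jt 𝔓 θ) :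
    ∃ f : Q.L →ₗ[ZMod p] (Gp m →₀ (Nx m Y σ → ZMod p)), EquivF Q.ρ f ∧
      ∀ v : F, f (Q.q v) = 0 ↔ ∃ w ∈ Jt 𝔓 θ, v.1 = (p : ℕ) • w := by
  have hker : Q.q.ker ≤ (F1_phi 𝔓 hθ).ker := by
    intro v hv
    rw [AddMonoidHom.mem_ker] at hv ⊢
    obtain ⟨w, hw, hv'⟩ := (Q.q_ker v).1 hv
    exact (F1_phi_eq_zero 𝔓 hθ v).2 ⟨w, hθ hw, hv'⟩
  obtain ⟨f₀, hf₀⟩ : ∃ f₀ : Q.L →+ (Gp m →₀ (Nx m Y σ → ZMod p)),
      ∀ v, f₀ (Q.q v) = F1_phi 𝔓 hθ v := by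
    refine ⟨AddMonoidHom.liftOfRightInverse Q.q (Function.surjInv Q.q_surj)
      (Function.rightInverse_surjInv Q.q_surj) ⟨F1_phi 𝔓 hθ, hker⟩, fun v => ?_⟩
    exact AddMonoidHom.liftOfRightInverse_comp_apply _ _ _ _ v
  refine ⟨AddMonoidHom.toZModLinearMap p f₀, ?_, ?_⟩
  · intro g y h
    obtain ⟨v, rfl⟩ := Q.q_surj y
    rw [Q.ρ_q]
    change f₀ (Q.q _) (g * h) = f₀ (Q.q v) h
    rw [hf₀, hf₀]
    ext b
    rw [F1_phi_apply, F1_phi_apply]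
    have h1 : Matrix.vecMul (fun b => 𝔓.u g * v.1 b) θ⁻¹.1 b =
        𝔓.u g * Matrix.vecMul v.1 θ⁻¹.1 b := by
      simp only [Matrix.vecMul, dotProduct, Finset.mul_sum, mul_assoc]
    change (𝔓.red (Matrix.vecMul (fun b => 𝔓.u g * v.1 b) θ⁻¹.1 b)).coeff (g * h) = _
    rw [h1, 𝔓.red_mul (𝔓.In_u g) (F1_int 𝔓 hθ v b), 𝔓.red_u]
    simp [MonoidAlgebra.coeff_single_mul_apply]
  · intro v
    change f₀ (Q.q v) = 0 ↔ _
    rw [hf₀, F1_phi_eq_zero]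

end FP
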