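import Pool.Agent.Lib.MP_2d4659_gt.FP.F0b

/-! # The frame of the quotient `F / p F` -/

set_option autoImplicit false

namespace FP

variable {J : Type} [DecidableEq J] [Fintype J] {m : J → ℕ} {Y σ : Type} [Fintype Y] [DecidableEq Y]
  [Fintype σ] [DecidableEq σ] {p : ℕ} [Fact p.Prime] (𝔓 : PGR p (Gp m))

/-- right multiplication by a matrix is bounded -/
lemma F1b_bdd (M : Matrix (Nx m Y σ) (Nx m Y σ) 𝔓.B) : ∃ C : ℝ, 0 < C ∧
    ∀ (v : Nx m Y σ → 𝔓.B) (r : ℝ), 0 ≤ r → (∀ b, 𝔓.Le r (v b)) →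
      ∀ b, 𝔓.Le (r * C) (Matrix.vecMul v M b) := by
  have h1 : ∀ ab : Nx m Y σ × Nx m Y σ, ∃ k : ℕ, 𝔓.Le ((p : ℝ) ^ k) (M ab.1 ab.2) :=
    fun ab => 𝔓.cf_bdd _
  choose k hk using h1
  have hp : (1 : ℝ) < p := PGR.D1_one_lt_p
  refine ⟨(p : ℝ) ^ (Finset.univ.sup k), pow_pos (zero_lt_one.trans hp) _, fun v r hr hv b => ?_⟩
  have h2 : Matrix.vecMul v M b = ∑ a, v a * M a b := rfl
  rw [h2]
  refine PGR.Le.sum 𝔓 (mul_nonneg hr (pow_pos (zero_lt_one.trans hp) _).le) _ _ fun a _ => ?_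
  refine 𝔓.cf_mul _ _ _ _ (hv a) fun g => (hk (a, b) g).trans ?_
  exact pow_le_pow_right₀ hp.le (Finset.le_sup (Finset.mem_univ (a, b)))

lemma F1b_rs_sc (s : Set (Gp m)) (c : ℚ_[p]) (b : 𝔓.B) :
    𝔓.rs s (𝔓.sc c * b) = 𝔓.sc c * 𝔓.rs s b := by
  refine 𝔓.ext fun g => ?_
  rw [𝔓.cf_sc_mul]
  by_cases hg : g ∈ s
  · rw [𝔓.cf_rs_mem s _ g hg, 𝔓.cf_rs_mem s _ g hg, 𝔓.cf_sc_mul]
  · rw [𝔓.cf_rs_notMem s _ g hg, 𝔓.cf_rs_notMem s _ g hg, mul_zero]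

lemma F1b_inv (A : (Matrix (Nx m Y σ) (Nx m Y σ) 𝔓.B)ˣ) (w : Nx m Y σ → 𝔓.B) :
    Matrix.vecMul (Matrix.vecMul w A⁻¹.1) A.1 = w := by
  rw [Matrix.vecMul_vecMul, Units.inv_mul, Matrix.vecMul_one]

lemma F1b_inv' (A : (Matrix (Nx m Y σ) (Nx m Y σ) 𝔓.B)ˣ) (w : Nx m Y σ → 𝔓.B) :
    Matrix.vecMul (Matrix.vecMul w A.1) A⁻¹.1 = w := by
  rw [Matrix.vecMul_vecMul, Units.mul_inv, Matrix.vecMul_one]

lemma F1b_vecMul_left (c : 𝔓.B) (v : Nx m Y σ → 𝔓.B) (M : Matrix (Nx m Y σ) (Nx m Y σ) 𝔓.B) :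
    Matrix.vecMul (fun b => c * v b) M = fun b => c * Matrix.vecMul v M b :=
  Matrix.smul_vecMul c v M

lemma F1b_sc_InV (c : 𝔓.B) {v : Nx m Y σ → 𝔓.B} (hv : InV 𝔓 v) : InV 𝔓 (fun b => c * v b) := by
  refine ⟨fun i => ?_, fun y => ?_⟩
  · change c * v _ * _ = 0
    rw [mul_assoc, hv.1 i, mul_zero]
  · change c * v _ = 0
    rw [hv.2 y, mul_zero]

/-- small vectors are mapped to `p F` -/
lemma F1b_small {F : Submodule (Rh 𝔓) (Nx m Y σ → 𝔓.B)} (hF : Lat 𝔓 F)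
    {A : (Matrix (Nx m Y σ) (Nx m Y σ) 𝔓.B)ˣ} (hA : A ∈ SS 𝔓.u Y σ) :
    ∃ ε : ℝ, 0 < ε ∧ ∀ v : Nx m Y σ → 𝔓.B, InV 𝔓 v → (∀ b, 𝔓.Le ε (v b)) →
      ∃ w ∈ F, Matrix.vecMul v A.1 = (p : ℕ) • w := by
  obtain ⟨ε, hε, h1⟩ := Lat.small 𝔓 hF
  obtain ⟨C, hC, h2⟩ := F1b_bdd 𝔓 A.1
  have hp : (0 : ℝ) < p := zero_lt_one.trans PGR.D1_one_lt_p
  have hp0 : (p : ℚ_[p]) ≠ 0 := by exact_mod_cast (Fact.out : p.Prime).ne_zero
  refine ⟨ε / (p * C), div_pos hε (mul_pos hp hC), fun v hv hv' => ?_⟩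
  refine ⟨fun b => 𝔓.sc ((p : ℚ_[p])⁻¹) * Matrix.vecMul v A.1 b, h1 _ ?_ ?_, ?_⟩
  · exact F1b_sc_InV 𝔓 _ ((SS_InV 𝔓 hA v).2 hv)
  · intro b g
    rw [𝔓.cf_sc_mul, norm_mul, norm_inv, Padic.norm_p, inv_inv]
    have h3 := h2 v _ (div_pos hε (mul_pos hp hC)).le hv' b g
    calc (p : ℝ) * ‖𝔓.cf g (Matrix.vecMul v A.1 b)‖ ≤ p * (ε / (p * C) * C) :=
          mul_le_mul_of_nonneg_left h3 hp.le
      _ = ε := by field_simp
  · ext1 b
    rw [Pi.smul_apply, nsmul_eq_mul, ← mul_assoc, ← 𝔓.sc_natCast, ← map_mul,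
      mul_inv_cancel₀ hp0, map_one, one_mul]

section comp

variable {𝔓} {F : Submodule (Rh 𝔓) (Nx m Y σ → 𝔓.B)} (Q : LQ 𝔓 F)
    {S : σ → Option J} {A : (Matrix (Nx m Y σ) (Nx m Y σ) 𝔓.B)ˣ}

lemma F1b_q_zero {v : Nx m Y σ → 𝔓.B} (hv : v ∈ F) (h : ∃ w ∈ F, v = (p : ℕ) • w) :
    Q.q ⟨v, hv⟩ = 0 := (Q.q_ker ⟨v, hv⟩).2 h

lemma F1b_q_congr {v w : Nx m Y σ → 𝔓.B} (hv : v ∈ F) (h : v = w) :
    Q.q ⟨v, hv⟩ = Q.q ⟨w, h ▸ hv⟩ := by
  subst h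
  rfl

/-- the component at `x` -/
noncomputable def F1b_comp (hG : Good 𝔓 F S A) (x : Vx m) : F →+ Q.L where
  toFun w := Q.q ⟨Matrix.vecMul (prj 𝔓 S x (Matrix.vecMul w.1 A⁻¹.1)) A.1,
    hG.2 _ x (by rw [F1b_inv]; exact w.2)⟩
  map_zero' := by
    refine F1b_q_zero Q _ ⟨0, F.zero_mem, ?_⟩
    rw [ZeroMemClass.coe_zero, Matrix.zero_vecMul, map_zero, Matrix.zero_vecMul, smul_zero]
  map_add' w w' := by
    rw [← map_add]
    congr 1
    apply Subtype.ext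
    change Matrix.vecMul (prj 𝔓 S x (Matrix.vecMul (w.1 + w'.1) A⁻¹.1)) A.1 =
      Matrix.vecMul (prj 𝔓 S x (Matrix.vecMul w.1 A⁻¹.1)) A.1 +
      Matrix.vecMul (prj 𝔓 S x (Matrix.vecMul w'.1 A⁻¹.1)) A.1
    rw [Matrix.add_vecMul, map_add, Matrix.add_vecMul]

lemma F1b_comp_apply (hG : Good 𝔓 F S A) (x : Vx m) (w : F) :
    F1b_comp Q hG x w = Q.q ⟨Matrix.vecMul (prj 𝔓 S x (Matrix.vecMul w.1 A⁻¹.1)) A.1,
    hG.2 _ x (by rw [F1b_inv]; exact w.2)⟩ := rfl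

lemma F1b_comp_ker (hG : Good 𝔓 F S A) (x : Vx m) (w : F) (hw : Q.q w = 0) :
    F1b_comp Q hG x w = 0 := by
  obtain ⟨w', hw', h1⟩ := (Q.q_ker w).1 hw
  rw [F1b_comp_apply]
  refine F1b_q_zero Q _ ⟨Matrix.vecMul (prj 𝔓 S x (Matrix.vecMul w' A⁻¹.1)) A.1,
    hG.2 _ x (by rw [F1b_inv]; exact hw'), ?_⟩
  rw [h1]
  have h2 : Matrix.vecMul ((p : ℕ) • w') A⁻¹.1 = (p : ℕ) • Matrix.vecMul w' A⁻¹.1 :=
    map_nsmul (mulM 𝔓 A⁻¹.1) p w'
  rw [h2, map_nsmul]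
  exact map_nsmul (mulM 𝔓 A.1) p _

lemma F1b_comp_fin (hF : Lat 𝔓 F) (hG : Good 𝔓 F S A) (w : F) :
    {x | F1b_comp Q hG x w ≠ 0}.Finite := by
  have hA : A ∈ SS 𝔓.u Y σ := NN_le_SS 𝔓 hG.1
  obtain ⟨ε, hε, h1⟩ := F1b_small 𝔓 hF hA
  have hv : InV 𝔓 (Matrix.vecMul w.1 A⁻¹.1) :=
    (SS_InV 𝔓 (inv_mem hA) w.1).2 (hF.1 w.1 w.2)
  obtain ⟨s, hs, -⟩ := prj_approx 𝔓 S hv ε hε
  refine s.finite_toSet.subset fun x hx => ?_
  by_contra hx'
  refine hx ?_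
  rw [F1b_comp_apply]
  exact F1b_q_zero Q _ (h1 _ (prj_InV 𝔓 S x hv) (hs x hx'))

/-- all components -/
noncomputable def F1b_all (hF : Lat 𝔓 F) (hG : Good 𝔓 F S A) : F →+ (Vx m →₀ Q.L) where
  toFun w := Finsupp.onFinset (F1b_comp_fin Q hF hG w).toFinset (fun x => F1b_comp Q hG x w)
    (fun x hx => by rw [Set.Finite.mem_toFinset]; exact hx)
  map_zero' := by
    ext x
    rw [Finsupp.onFinset_apply, map_zero, Finsupp.zero_apply]
  map_add' w w' := by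
    ext x
    rw [Finsupp.add_apply, Finsupp.onFinset_apply, Finsupp.onFinset_apply, Finsupp.onFinset_apply,
      map_add]

/-- the decomposition map -/
lemma F1b_exists_P (hF : Lat 𝔓 F) (hG : Good 𝔓 F S A) :
    ∃ P : Q.L →ₗ[ZMod p] (Vx m →₀ Q.L), ∀ (w : F) (x : Vx m), P (Q.q w) x = F1b_comp Q hG x w := by
  have hk : Q.q.ker ≤ (F1b_all Q hF hG).ker := by
    intro w hw
    rw [AddMonoidHom.mem_ker] at hw ⊢
    ext x
    exact F1b_comp_ker Q hG x w hw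
  refine ⟨AddMonoidHom.toZModLinearMap p
    (AddMonoidHom.liftOfSurjective Q.q Q.q_surj ⟨F1b_all Q hF hG, hk⟩), fun w x => ?_⟩
  rw [AddMonoidHom.coe_toZModLinearMap]
  rw [show (AddMonoidHom.liftOfSurjective Q.q Q.q_surj ⟨F1b_all Q hF hG, hk⟩) (Q.q w) =
    F1b_all Q hF hG w from AddMonoidHom.liftOfRightInverse_comp_apply _ _ _ _ _]
  rfl

end comp

/-- the elements of `G` corresponding to a vertex form a finite set -/
lemma F1b_cs_fin (x : Vx m) : (cs x).Finite := by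
  obtain ⟨g, hg⟩ := exists_smul_bs x
  have hg' : g ∈ cs x := hg.symm
  have hfin : Finite (HT m (ty x)) := HT_finite (ty x)
  have h1 : (HT m (ty x) : Set (Gp m)).Finite := Set.toFinite _
  refine (h1.image (fun h => g * h)).subset fun k hk => ⟨g⁻¹ * k, ?_, mul_inv_cancel_left g k⟩
  rw [SetLike.mem_coe, ← cs_mul hg', mul_inv_cancel_left]
  exact hk

lemma F1b_prj_supp (S : σ → Option J) {x : Vx m} {v : Nx m Y σ → 𝔓.B} (hv : prj 𝔓 S x v = v)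
    (b : Nx m Y σ) : 𝔓.SuppIn (cs x) (v b) := by
  rw [← hv]
  by_cases h : blk S b = ty x
  · rw [prj_apply 𝔓 S x v b h]
    exact 𝔓.rs_supp _ _
  · rw [prj_apply_ne 𝔓 S x v b h]
    intro g _
    exact map_zero _

lemma F1b_expand {s : Set (Gp m)} [Fintype s] {b : 𝔓.B} (hb : 𝔓.SuppIn s b) :
    b = ∑ g : s, 𝔓.sc (𝔓.cf g.1 b) * 𝔓.u g.1 := by
  classical
  refine 𝔓.ext fun k => ?_
  rw [map_sum]
  by_cases hk : k ∈ s
  · rw [Finset.sum_eq_single ⟨k, hk⟩]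
    · rw [𝔓.cf_sc_mul, E1_cf_u, if_pos rfl, mul_one]
    · intro g _ hg
      rw [𝔓.cf_sc_mul, E1_cf_u, if_neg, mul_zero]
      intro h
      exact hg (Subtype.ext h)
    · intro h
      exact absurd (Finset.mem_univ _) h
  · rw [hb k hk, Finset.sum_eq_zero]
    intro g _
    rw [𝔓.cf_sc_mul, E1_cf_u, if_neg, mul_zero]
    intro h
    exact hk (h ▸ g.2)

/-- the pieces are finite dimensional -/
lemma F1b_fin {F : Submodule (Rh 𝔓) (Nx m Y σ → 𝔓.B)} (hF : Lat 𝔓 F) (Q : LQ 𝔓 F)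
    (S : σ → Option J) (A : (Matrix (Nx m Y σ) (Nx m Y σ) 𝔓.B)ˣ) (x : Vx m) :
    FiniteDimensional (ZMod p) (VF 𝔓 Q S A x) := by
  classical
  have hp1 : (1 : ℝ) < p := PGR.D1_one_lt_p
  have hp0 : (p : ℚ_[p]) ≠ 0 := by exact_mod_cast (Fact.out : p.Prime).ne_zero
  have : Fintype (cs x) := (F1b_cs_fin x).fintype
  obtain ⟨r, hr, h1⟩ := Lat.bdd 𝔓 hF
  obtain ⟨C, hC, h2⟩ := F1b_bdd 𝔓 A⁻¹.1
  obtain ⟨k, hk⟩ := pow_unbounded_of_one_lt (r * C) hp1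
  -- the parametrisation
  let Λ : (Nx m Y σ × cs x → ℤ_[p]) → (Nx m Y σ → 𝔓.B) := fun e b =>
    ∑ g : cs x, 𝔓.sc (((p : ℚ_[p]) ^ k)⁻¹ * (e (b, g) : ℚ_[p])) * 𝔓.u g.1
  have hΛ : ∀ e b, Λ e b = ∑ g : cs x, 𝔓.sc (((p : ℚ_[p]) ^ k)⁻¹ * (e (b, g) : ℚ_[p])) * 𝔓.u g.1 :=
    fun _ _ => rfl
  have hΛ0 : Λ 0 = 0 := by
    ext1 b
    rw [hΛ]
    refine Finset.sum_eq_zero fun g _ => ?_
    rw [Pi.zero_apply, PadicInt.coe_zero, mul_zero, map_zero, zero_mul]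
  have hΛadd : ∀ e e', Λ (e + e') = Λ e + Λ e' := by
    intro e e'
    ext1 b
    rw [Pi.add_apply, hΛ, hΛ, hΛ, ← Finset.sum_add_distrib]
    refine Finset.sum_congr rfl fun g _ => ?_
    rw [Pi.add_apply, PadicInt.coe_add, mul_add, map_add, add_mul]
  have hΛsmul : ∀ (z : ℤ_[p]) e, Λ (z • e) = fun b => 𝔓.sc (z : ℚ_[p]) * Λ e b := by
    intro z e
    ext1 b
    rw [hΛ, hΛ, Finset.mul_sum]
    refine Finset.sum_congr rfl fun g _ => ?_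
    rw [Pi.smul_apply, smul_eq_mul, PadicInt.coe_mul, ← mul_assoc (𝔓.sc _), ← map_mul]
    congr 2
    ring
  have hsc : ∀ (z : ℤ_[p]) {v : Nx m Y σ → 𝔓.B}, v ∈ F → (fun b => 𝔓.sc (z : ℚ_[p]) * v b) ∈ F :=
    fun z v hv => F.smul_mem (⟨𝔓.sc (z : ℚ_[p]), 𝔓.In_sc z.2⟩ : Rh 𝔓) hv
  let M : Submodule ℤ_[p] (Nx m Y σ × cs x → ℤ_[p]) :=
    { carrier := {e | Matrix.vecMul (Λ e) A.1 ∈ F}
      zero_mem' := by
        change Matrix.vecMul (Λ 0) A.1 ∈ F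
        rw [hΛ0, Matrix.zero_vecMul]
        exact F.zero_mem
      add_mem' := by
        intro e e' he he'
        change Matrix.vecMul (Λ (e + e')) A.1 ∈ F
        rw [hΛadd, Matrix.add_vecMul]
        exact F.add_mem he he'
      smul_mem' := by
        intro z e he
        change Matrix.vecMul (Λ (z • e)) A.1 ∈ F
        rw [hΛsmul, F1b_vecMul_left]
        exact hsc z he }
  obtain ⟨T, hT⟩ : M.FG := IsNoetherian.noetherian M
  have hTM : ∀ e ∈ T, Matrix.vecMul (Λ e) A.1 ∈ F := fun e he => by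
    have : e ∈ M := by rw [← hT]; exact Submodule.subset_span he
    exact this
  let N : Submodule (ZMod p) Q.L := Submodule.span (ZMod p)
    (Set.range fun e : T => Q.q ⟨Matrix.vecMul (Λ e.1) A.1, hTM e.1 e.2⟩)
  have hN : ∀ e (he : Matrix.vecMul (Λ e) A.1 ∈ F), Q.q ⟨Matrix.vecMul (Λ e) A.1, he⟩ ∈ N := by
    intro e he
    have he' : e ∈ Submodule.span ℤ_[p] (T : Set (Nx m Y σ × cs x → ℤ_[p])) := by
      rw [hT]; exact he
    have hmem : ∀ e ∈ Submodule.span ℤ_[p] (T : Set (Nx m Y σ × cs x → ℤ_[p])),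
        Matrix.vecMul (Λ e) A.1 ∈ F := fun e h => by
      rw [hT] at h; exact h
    revert he
    induction he' using Submodule.span_induction with
    | mem e h => exact fun he => Submodule.subset_span ⟨⟨e, h⟩, rfl⟩
    | zero =>
      intro he
      rw [F1b_q_zero Q he ⟨0, F.zero_mem, by rw [hΛ0, Matrix.zero_vecMul, smul_zero]⟩]
      exact N.zero_mem
    | add e e' he he' ih ih' =>
      intro h
      have h3 := N.add_mem (ih (hmem e he)) (ih' (hmem e' he'))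
      rw [← map_add] at h3
      convert h3 using 2
      apply Subtype.ext
      change Matrix.vecMul (Λ (e + e')) A.1 = Matrix.vecMul (Λ e) A.1 + Matrix.vecMul (Λ e') A.1
      rw [hΛadd, Matrix.add_vecMul]
    | smul z e he ih =>
      intro h
      have h3 : Q.q ⟨Matrix.vecMul (Λ (z • e)) A.1, h⟩ =
          (z.zmodRepr : ℕ) • Q.q ⟨Matrix.vecMul (Λ e) A.1, hmem e he⟩ := by
        obtain ⟨z', hz'⟩ : ∃ z' : ℤ_[p], z = (z.zmodRepr : ℤ_[p]) + (p : ℤ_[p]) * z' := by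
          have h4 := (PadicInt.zmodRepr_spec z).2
          rw [PadicInt.maximalIdeal_eq_span_p, Ideal.mem_span_singleton] at h4
          obtain ⟨z', hz'⟩ := h4
          exact ⟨z', by rw [← hz']; ring⟩
        have h5 : Matrix.vecMul (Λ (z • e)) A.1 = z.zmodRepr • Matrix.vecMul (Λ e) A.1 +
            (p : ℕ) • (fun b => 𝔓.sc (z' : ℚ_[p]) * Matrix.vecMul (Λ e) A.1 b) := by
          rw [hΛsmul, F1b_vecMul_left]
          ext1 b
          rw [Pi.add_apply, Pi.smul_apply, Pi.smul_apply, nsmul_eq_mul, nsmul_eq_mul, ← mul_assoc,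
            ← 𝔓.sc_natCast, ← 𝔓.sc_natCast, ← map_mul, ← add_mul, ← map_add]
          congr 2
          conv_lhs => rw [hz']
          push_cast
          rfl
        rw [← map_nsmul, ← sub_eq_zero, ← map_sub]
        refine (Q.q_ker _).2 ⟨_, hsc z' (hmem e he), ?_⟩
        change Matrix.vecMul (Λ (z • e)) A.1 - z.zmodRepr • Matrix.vecMul (Λ e) A.1 = _
        rw [h5, add_sub_cancel_left]
      rw [h3]
      exact N.smul_of_tower_mem _ (ih (hmem e he))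
  have hle : VF 𝔓 Q S A x ≤ N := by
    intro u hu
    obtain ⟨v, hv, hv', rfl⟩ := (mem_VF 𝔓 Q S A x u).1 hu
    have h3 : ∀ b, 𝔓.Le (r * C) (v b) := by
      have := h2 (Matrix.vecMul v A.1) r hr.le (h1 _ hv)
      rwa [F1b_inv'] at this
    have h4 : ∀ (b : Nx m Y σ) (g : cs x), ‖(p : ℚ_[p]) ^ k * 𝔓.cf g.1 (v b)‖ ≤ 1 := by
      intro b g
      rw [norm_mul, norm_pow, Padic.norm_p, inv_pow, inv_mul_le_iff₀ (pow_pos (zero_lt_one.trans hp1) k),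
        mul_one]
      exact (h3 b g.1).trans hk.le
    let e : Nx m Y σ × cs x → ℤ_[p] := fun bg => ⟨(p : ℚ_[p]) ^ k * 𝔓.cf bg.2.1 (v bg.1), h4 bg.1 bg.2⟩
    have h5 : Λ e = v := by
      ext1 b
      rw [hΛ]
      conv_rhs => rw [F1b_expand 𝔓 (F1b_prj_supp 𝔓 S hv' b)]
      refine Finset.sum_congr rfl fun g _ => ?_
      congr 2
      change ((p : ℚ_[p]) ^ k)⁻¹ * ((p : ℚ_[p]) ^ k * 𝔓.cf g.1 (v b)) = _
      rw [inv_mul_cancel_left₀ (pow_ne_zero k hp0)]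
    have h6 := hN e (by rw [h5]; exact hv)
    rw [F1b_q_congr Q _ (show Matrix.vecMul (Λ e) A.1 = Matrix.vecMul v A.1 by rw [h5])] at h6
    exact h6
  have : FiniteDimensional (ZMod p) N := FiniteDimensional.span_of_finite _ (Set.finite_range _)
  exact Submodule.finiteDimensional_of_le hle

/-- Finite dimensionality: a bounded `ℤ_p`-submodule of the finite dimensional space `W_x` is finitely
generated.  Decomposition map: the class of `v A` goes to the classes of the `(prj x v) A`, almost all of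
which are in `p F`. -/
theorem VF_frame {F : Submodule (Rh 𝔓) (Nx m Y σ → 𝔓.B)} (hF : Lat 𝔓 F) (Q : LQ 𝔓 F)
    {S : σ → Option J} {A : (Matrix (Nx m Y σ) (Nx m Y σ) 𝔓.B)ˣ} (hG : Good 𝔓 F S A) :
    IsFrame Q.ρ (VF 𝔓 Q S A) := by
  have hmap : ∀ (g : Gp m) (x : Vx m) (y : Q.L), y ∈ VF 𝔓 Q S A x → Q.ρ g y ∈ VF 𝔓 Q S A (g • x) := by
    intro g x y hy
    obtain ⟨v, hv, hv', rfl⟩ := (mem_VF 𝔓 Q S A x y).1 hy
    have h1 : Matrix.vecMul (fun b => 𝔓.u g * v b) A.1 ∈ F := by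
      rw [F1b_vecMul_left]
      exact u_smul_mem 𝔓 g hv
    refine (mem_VF 𝔓 Q S A _ _).2 ⟨fun b => 𝔓.u g * v b, h1, ?_, ?_⟩
    · rw [prj_smul, hv']
    · rw [Q.ρ_q]
      congr 1
      apply Subtype.ext
      exact (F1b_vecMul_left 𝔓 _ _ _).symm
  refine ⟨fun g x => ?_, fun x => F1b_fin 𝔓 hF Q S A x, ?_⟩
  · apply le_antisymm
    · rintro _ ⟨y, hy, rfl⟩
      exact hmap g x y hy
    · intro y hy
      refine ⟨Q.ρ g⁻¹ y, ?_, ?_⟩
      · have := hmap g⁻¹ _ y hy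
        rwa [inv_smul_smul] at this
      · rw [← Module.End.mul_apply, ← map_mul, mul_inv_cancel, map_one, Module.End.one_apply]
  · obtain ⟨P, hP⟩ := F1b_exists_P Q hF hG
    have hA : A ∈ SS 𝔓.u Y σ := NN_le_SS 𝔓 hG.1
    refine ⟨P, fun u x => ?_, fun u => ?_, fun x u hu => ?_⟩
    · obtain ⟨w, rfl⟩ := Q.q_surj u
      rw [hP, F1b_comp_apply]
      exact (mem_VF 𝔓 Q S A _ _).2 ⟨_, _, prj_prj 𝔓 S x _, rfl⟩
    · obtain ⟨w, rfl⟩ := Q.q_surj u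
      obtain ⟨ε, hε, h1⟩ := F1b_small 𝔓 hF hA
      have hv : InV 𝔓 (Matrix.vecMul w.1 A⁻¹.1) :=
        (SS_InV 𝔓 (inv_mem hA) w.1).2 (hF.1 w.1 w.2)
      obtain ⟨s, -, hs⟩ := prj_approx 𝔓 S hv ε hε
      classical
      have h2 := hs (s ∪ (P (Q.q w)).support) Finset.subset_union_left
      have h3 : ((P (Q.q w)).sum fun _ a => a) =
          ∑ x ∈ s ∪ (P (Q.q w)).support, F1b_comp Q hG x w := by
        rw [Finsupp.sum_of_support_subset (P (Q.q w)) Finset.subset_union_right _ (fun _ _ => rfl)]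
        exact Finset.sum_congr rfl fun x _ => hP w x
      rw [h3]
      symm
      rw [← sub_eq_zero]
      have h4 : ∀ x, Matrix.vecMul (prj 𝔓 S x (Matrix.vecMul w.1 A⁻¹.1)) A.1 ∈ F := fun x =>
        hG.2 _ x (by rw [F1b_inv]; exact w.2)
      have h5 : ∑ x ∈ s ∪ (P (Q.q w)).support, F1b_comp Q hG x w =
          Q.q (∑ x ∈ s ∪ (P (Q.q w)).support,
            ⟨Matrix.vecMul (prj 𝔓 S x (Matrix.vecMul w.1 A⁻¹.1)) A.1, h4 x⟩) := by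
        rw [map_sum]
        rfl
      rw [h5, ← map_sub, Q.q_ker]
      have hInV : InV 𝔓 (Matrix.vecMul w.1 A⁻¹.1 - ∑ x ∈ s ∪ (P (Q.q w)).support,
          prj 𝔓 S x (Matrix.vecMul w.1 A⁻¹.1)) := by
        refine ⟨fun i => ?_, fun y => ?_⟩
        · rw [Pi.sub_apply, Finset.sum_apply, sub_mul, hv.1 i, Finset.sum_mul, Finset.sum_eq_zero,
            sub_zero]
          intro x _
          exact (prj_InV 𝔓 S x hv).1 i
        · rw [Pi.sub_apply, Finset.sum_apply, hv.2 y, Finset.sum_eq_zero, sub_zero]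
          intro x _
          exact (prj_InV 𝔓 S x hv).2 y
      obtain ⟨w', hw', h6⟩ := h1 _ hInV h2
      refine ⟨w', hw', ?_⟩
      rw [← h6, Matrix.sub_vecMul, F1b_inv, AddSubgroupClass.coe_sub, AddSubmonoidClass.coe_finsetSum]
      congr 1
      exact (map_sum (mulM 𝔓 A.1) _ _).symm
    · obtain ⟨v, hv, hv', rfl⟩ := (mem_VF 𝔓 Q S A x u).1 hu
      classical
      ext y
      rw [hP, F1b_comp_apply]
      by_cases hxy : x = y
      · subst hxy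
        rw [Finsupp.single_eq_same]
        congr 1
        apply Subtype.ext
        change Matrix.vecMul (prj 𝔓 S x (Matrix.vecMul (Matrix.vecMul v A.1) A⁻¹.1)) A.1 = _
        rw [F1b_inv', hv']
      · rw [Finsupp.single_eq_of_ne (Ne.symm hxy)]
        refine F1b_q_zero Q _ ⟨0, F.zero_mem, ?_⟩
        change Matrix.vecMul (prj 𝔓 S y (Matrix.vecMul (Matrix.vecMul v A.1) A⁻¹.1)) A.1 = _
        rw [F1b_inv', ← hv', prj_orth 𝔓 S (Ne.symm hxy), Matrix.zero_vecMul, smul_zero]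

end FP
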