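import Pool.Agent.Lib.MP_2d4659_gt.FP.F0b

/-!
# Lifting a functional to a column vector
-/

set_option autoImplicit false

namespace FP

variable {J : Type} [DecidableEq J] [Fintype J] {m : J → ℕ} {Y σ : Type} [Fintype Y] [DecidableEq Y]
  [Fintype σ] [DecidableEq σ] {p : ℕ} [Fact p.Prime] (𝔓 : PGR p (Gp m))

/-- multiplication by an integral scalar for an additive map to `ZMod p` -/
lemma F2_zmod {M : Type} [AddCommGroup M] [Module ℤ_[p] M] (lam : M →+ ZMod p) (a : ℤ_[p]) (x : M) :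
    lam (a • x) = PadicInt.toZMod a * lam x := by
  have h1 : a - (a.zmodRepr : ℤ_[p]) ∈ IsLocalRing.maximalIdeal ℤ_[p] := PadicInt.sub_zmodRepr_mem a
  rw [PadicInt.maximalIdeal_eq_span_p, Ideal.mem_span_singleton] at h1
  obtain ⟨b, hb⟩ := h1
  have h2 : a = (a.zmodRepr : ℤ_[p]) + p * b := by
    rw [← hb]
    ring
  have hp : ((p : ℕ) : ZMod p) = 0 := ZMod.natCast_self p
  have h3 : lam (a • x) = (a.zmodRepr : ZMod p) * lam x := by
    conv_lhs => rw [h2]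
    rw [add_smul, map_add, mul_smul, Nat.cast_smul_eq_nsmul, Nat.cast_smul_eq_nsmul, map_nsmul,
      map_nsmul, nsmul_eq_mul, nsmul_eq_mul, hp, zero_mul, add_zero]
  have h4 : PadicInt.toZMod a = (a.zmodRepr : ZMod p) := by
    conv_lhs => rw [h2]
    rw [map_add, map_mul, map_natCast, map_natCast, hp, zero_mul, add_zero]
  rw [h3, h4]

/-- lifting of a functional on a bounded `ℤ_p`-submodule of a finite dimensional space -/
lemma F2_lift {ι : Type} [Finite ι] (Λ : Submodule ℤ_[p] (ι → ℚ_[p])) (K : ℕ)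
    (hK : ∀ x ∈ Λ, ∀ i, ‖x i‖ ≤ (p : ℝ) ^ K) (lam : Λ →+ ZMod p) :
    ∃ f : (ι → ℚ_[p]) →ₗ[ℚ_[p]] ℚ_[p], ∀ x : Λ, ∃ h : ‖f x‖ ≤ 1,
      PadicInt.toZMod (⟨f x, h⟩ : ℤ_[p]) = lam x := by
  classical
  have hp0 : (p : ℚ_[p]) ≠ 0 := Nat.cast_ne_zero.2 (Fact.out : p.Prime).ne_zero
  have hpR : (0 : ℝ) < p := by exact_mod_cast (Fact.out : p.Prime).pos
  let j : (ι → ℤ_[p]) →ₗ[ℤ_[p]] (ι → ℚ_[p]) :=
    { toFun := fun z i => ((p : ℚ_[p]) ^ K)⁻¹ * (z i : ℚ_[p])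
      map_add' := fun z w => by
        ext i
        change _ * ((z i + w i : ℤ_[p]) : ℚ_[p]) = _ * (z i : ℚ_[p]) + _ * (w i : ℚ_[p])
        rw [PadicInt.coe_add, mul_add]
      map_smul' := fun a z => by
        ext i
        change _ * ((a * z i : ℤ_[p]) : ℚ_[p]) = (a : ℚ_[p]) * (_ * (z i : ℚ_[p]))
        rw [PadicInt.coe_mul]
        ring }
  have hle : Λ ≤ LinearMap.range j := by
    intro x hx
    have h1 : ∀ i, ‖(p : ℚ_[p]) ^ K * x i‖ ≤ 1 := by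
      intro i
      rw [norm_mul, norm_pow, Padic.norm_p, inv_pow, inv_mul_le_iff₀ (pow_pos hpR K), mul_one]
      exact hK x hx i
    refine ⟨fun i => ⟨(p : ℚ_[p]) ^ K * x i, h1 i⟩, ?_⟩
    ext i
    change ((p : ℚ_[p]) ^ K)⁻¹ * ((p : ℚ_[p]) ^ K * x i) = x i
    rw [← mul_assoc, inv_mul_cancel₀ (pow_ne_zero K hp0), one_mul]
  have hnoe : IsNoetherian ℤ_[p] Λ := isNoetherian_of_le hle
  have hfin : Module.Finite ℤ_[p] Λ := inferInstance
  have hfree : Module.Free ℤ_[p] Λ := Module.free_of_finite_type_torsion_free'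
  let b := Module.Free.chooseBasis ℤ_[p] Λ
  have hli : LinearIndependent ℤ_[p] (fun i => (b i : ι → ℚ_[p])) :=
    b.linearIndependent.map' Λ.subtype (Submodule.ker_subtype Λ)
  have hli' : LinearIndependent ℚ_[p] (fun i => (b i : ι → ℚ_[p])) :=
    (LinearIndependent.iff_fractionRing ℤ_[p] ℚ_[p]).1 hli
  have hsurj : Function.Surjective (PadicInt.toZMod : ℤ_[p] →+* ZMod p) := ZMod.ringHom_surjective _
  choose c hc using fun i => hsurj (lam (b i))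
  obtain ⟨f, hf⟩ := ((Module.Basis.span hli').constr ℚ_[p]
    (fun i => ((c i : ℤ_[p]) : ℚ_[p]))).exists_extend
  have hfb : ∀ i, f (b i : ι → ℚ_[p]) = (c i : ℚ_[p]) := by
    intro i
    have h1 := LinearMap.congr_fun hf (Module.Basis.span hli' i)
    rw [Module.Basis.constr_basis] at h1
    rw [← h1]
    change _ = f ((Module.Basis.span hli' i : Submodule.span ℚ_[p] _) : ι → ℚ_[p])
    rw [Module.Basis.span_apply]
  refine ⟨f, fun x => ?_⟩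
  have hx : f (x : ι → ℚ_[p]) = ((∑ i, b.repr x i * c i : ℤ_[p]) : ℚ_[p]) := by
    have h1 : (x : ι → ℚ_[p]) = ∑ i, ((b.repr x i : ℤ_[p]) : ℚ_[p]) • (b i : ι → ℚ_[p]) := by
      have h2 : (x : ι → ℚ_[p]) = Λ.subtype (∑ i, b.repr x i • b i) :=
        congrArg Λ.subtype (b.sum_repr x).symm
      rw [h2, map_sum]
      exact Finset.sum_congr rfl fun i _ => rfl
    rw [h1, map_sum]
    have h3 : ((∑ i, b.repr x i * c i : ℤ_[p]) : ℚ_[p]) =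
        ∑ i, ((b.repr x i : ℤ_[p]) : ℚ_[p]) * (c i : ℚ_[p]) := by
      have h4 := map_sum (PadicInt.Coe.ringHom (p := p)) (fun i => b.repr x i * c i) Finset.univ
      refine h4.trans (Finset.sum_congr rfl fun i _ => ?_)
      exact map_mul (PadicInt.Coe.ringHom (p := p)) _ _
    rw [h3]
    refine Finset.sum_congr rfl fun i _ => ?_
    rw [map_smul, hfb, smul_eq_mul]
  have hnorm : ‖f (x : ι → ℚ_[p])‖ ≤ 1 := by
    rw [hx]
    exact (∑ i, b.repr x i * c i : ℤ_[p]).2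
  refine ⟨hnorm, ?_⟩
  have h5 : (⟨f (x : ι → ℚ_[p]), hnorm⟩ : ℤ_[p]) = ∑ i, b.repr x i * c i := Subtype.ext hx
  rw [h5, map_sum]
  have h6 : lam x = ∑ i, lam (b.repr x i • b i) := by
    conv_lhs => rw [← b.sum_repr x]
    rw [map_sum]
  rw [h6]
  refine Finset.sum_congr rfl fun i _ => ?_
  rw [map_mul, hc, F2_zmod]

/-- the coordinates of the block of type `t` -/
noncomputable def F2_co (t : Option J) : (Nx m Y σ → 𝔓.B) →+ (Nx m Y σ × HT m t → ℚ_[p]) where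
  toFun v := fun q => 𝔓.cf q.2 (v q.1)
  map_zero' := by
    ext q
    exact map_zero _
  map_add' v w := by
    ext q
    exact map_add _ _ _

lemma F2_co_sc (t : Option J) (a : ℚ_[p]) (v : Nx m Y σ → 𝔓.B) :
    F2_co 𝔓 t (fun b => 𝔓.sc a * v b) = a • F2_co 𝔓 t v := by
  ext q
  exact 𝔓.cf_sc_mul _ _ _

lemma F2_inj {S : σ → Option J} {t : Option J} {v w : Nx m Y σ → 𝔓.B}
    (hv : prj 𝔓 S (bs m t) v = v) (hw : prj 𝔓 S (bs m t) w = w)
    (h : F2_co 𝔓 t v = F2_co 𝔓 t w) : v = w := by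
  ext b
  by_cases hb : blk S b = ty (bs m t)
  · rw [← hv, ← hw, prj_apply 𝔓 S _ v b hb, prj_apply 𝔓 S _ w b hb]
    refine 𝔓.ext fun g => ?_
    by_cases hg : g ∈ cs (bs m t)
    · rw [𝔓.cf_rs_mem _ _ _ hg, 𝔓.cf_rs_mem _ _ _ hg]
      rw [cs_bs] at hg
      exact congrFun h (b, ⟨g, hg⟩)
    · rw [𝔓.cf_rs_notMem _ _ _ hg, 𝔓.cf_rs_notMem _ _ _ hg]
  · rw [← hv, ← hw, prj_apply_ne 𝔓 S _ v b hb, prj_apply_ne 𝔓 S _ w b hb]

lemma F2_prj_sc (S : σ → Option J) (x : Vx m) (a : ℚ_[p]) (v : Nx m Y σ → 𝔓.B) :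
    prj 𝔓 S x (fun b => 𝔓.sc a * v b) = fun b => 𝔓.sc a * prj 𝔓 S x v b := by
  ext b
  by_cases hb : blk S b = ty x
  · rw [prj_apply 𝔓 S x _ b hb, prj_apply 𝔓 S x v b hb]
    refine 𝔓.ext fun g => ?_
    rw [𝔓.cf_sc_mul]
    by_cases hg : g ∈ cs x
    · rw [𝔓.cf_rs_mem _ _ _ hg, 𝔓.cf_rs_mem _ _ _ hg, 𝔓.cf_sc_mul]
    · rw [𝔓.cf_rs_notMem _ _ _ hg, 𝔓.cf_rs_notMem _ _ _ hg, mul_zero]
  · rw [prj_apply_ne 𝔓 S x _ b hb, prj_apply_ne 𝔓 S x v b hb, mul_zero]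

lemma F2_vecMul_sc (a : ℚ_[p]) (v : Nx m Y σ → 𝔓.B) (M : Matrix (Nx m Y σ) (Nx m Y σ) 𝔓.B) :
    Matrix.vecMul (fun b => 𝔓.sc a * v b) M = fun b => 𝔓.sc a * Matrix.vecMul v M b := by
  ext b
  rw [Matrix.vecMul, Matrix.vecMul, dotProduct, dotProduct, Finset.mul_sum]
  exact Finset.sum_congr rfl fun q _ => mul_assoc _ _ _

/-- Let `Λ` be the set of the `v` with `v A ∈ F`, `prj (bs t) v = v`; it is a finitely generated free
`ℤ_p`-module (bounded in a finite dimensional space), `Λ / p Λ` embeds in `F / p F`, so the functional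
`v ↦ lam (class of v A)` lifts to a `ℤ_p`-linear map `Λ → ℤ_p` and extends to a `ℚ_p`-linear map. -/
theorem exists_ell {F : Submodule (Rh 𝔓) (Nx m Y σ → 𝔓.B)} (hF : Lat 𝔓 F) (Q : LQ 𝔓 F)
    {S : σ → Option J} {A : (Matrix (Nx m Y σ) (Nx m Y σ) 𝔓.B)ˣ} (hG : Good 𝔓 F S A)
    (t : Option J) (lam : Q.L →ₗ[ZMod p] ZMod p) :
    ∃ ℓ : (Nx m Y σ → 𝔓.B) →+ ℚ_[p], (∀ (a : ℚ_[p]) v, ℓ (fun b => 𝔓.sc a * v b) = a * ℓ v) ∧
      ∀ (v : Nx m Y σ → 𝔓.B) (hv : Matrix.vecMul v A.1 ∈ F), prj 𝔓 S (bs m t) v = v →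
        ∃ h : ‖ℓ v‖ ≤ 1, PadicInt.toZMod (⟨ℓ v, h⟩ : ℤ_[p]) = lam (Q.q ⟨Matrix.vecMul v A.1, hv⟩) := by
  classical
  have hfinT := HT_finite (m := m) t
  have hfin : Finite (Nx m Y σ × HT m t) := inferInstance
  -- boundedness
  obtain ⟨r, hr, hbd⟩ := Lat.bdd 𝔓 hF
  obtain ⟨k, hk⟩ := F0b_bdd 𝔓 A⁻¹.1
  have hp1 : (1 : ℝ) < p := by exact_mod_cast (Fact.out : p.Prime).one_lt
  obtain ⟨K, hK⟩ := pow_unbounded_of_one_lt (r * (p : ℝ) ^ k) hp1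
  have hbound : ∀ v : Nx m Y σ → 𝔓.B, Matrix.vecMul v A.1 ∈ F → ∀ b, 𝔓.Le ((p : ℝ) ^ K) (v b) := by
    intro v hv b
    have h1 : v = Matrix.vecMul (Matrix.vecMul v A.1) A⁻¹.1 := by
      rw [Matrix.vecMul_vecMul, ← Units.val_mul, mul_inv_cancel, Units.val_one, Matrix.vecMul_one]
    have h2 : v b = ∑ a, Matrix.vecMul v A.1 a * A⁻¹.1 a b := by
      conv_lhs => rw [h1]
      rfl
    rw [h2]
    refine PGR.Le.sum 𝔓 (by positivity) _ _ fun a _ g => ?_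
    exact (𝔓.cf_mul _ _ r ((p : ℝ) ^ k) (hbd _ hv a) (hk a b) g).trans hK.le
  let Λ : Submodule ℤ_[p] (Nx m Y σ × HT m t → ℚ_[p]) :=
    { carrier := {x | ∃ v : Nx m Y σ → 𝔓.B, Matrix.vecMul v A.1 ∈ F ∧ prj 𝔓 S (bs m t) v = v ∧
        F2_co 𝔓 t v = x}
      add_mem' := by
        rintro _ _ ⟨v, hv, hv1, rfl⟩ ⟨w, hw, hw1, rfl⟩
        refine ⟨v + w, ?_, by rw [map_add, hv1, hw1], map_add _ _ _⟩
        rw [Matrix.add_vecMul]
        exact add_mem hv hw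
      zero_mem' := ⟨0, by rw [Matrix.zero_vecMul]; exact zero_mem _, map_zero _, map_zero _⟩
      smul_mem' := by
        rintro a _ ⟨v, hv, hv1, rfl⟩
        refine ⟨fun b => 𝔓.sc (a : ℚ_[p]) * v b, ?_, ?_, ?_⟩
        · rw [F2_vecMul_sc]
          exact F.smul_mem (⟨𝔓.sc (a : ℚ_[p]), 𝔓.In_sc a.2⟩ : Rh 𝔓) hv
        · rw [F2_prj_sc, hv1]
        · rw [F2_co_sc]
          rfl }
  have hmem : ∀ x : Λ, ∃ v : Nx m Y σ → 𝔓.B, Matrix.vecMul v A.1 ∈ F ∧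
      prj 𝔓 S (bs m t) v = v ∧ F2_co 𝔓 t v = x := fun x => x.2
  choose w hw hw1 hw2 using hmem
  let lam' : Λ →+ ZMod p :=
    { toFun := fun x => lam (Q.q ⟨Matrix.vecMul (w x) A.1, hw x⟩)
      map_zero' := by
        have h1 : w 0 = 0 := F2_inj 𝔓 (hw1 0) (map_zero _) (by rw [hw2, map_zero]; rfl)
        have h2 : (⟨Matrix.vecMul (w 0) A.1, hw 0⟩ : F) = 0 := by
          refine Subtype.ext ?_
          change Matrix.vecMul (w 0) A.1 = 0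
          rw [h1, Matrix.zero_vecMul]
        rw [h2, map_zero, map_zero]
      map_add' := by
        intro x y
        have h1 : w (x + y) = w x + w y := F2_inj 𝔓 (hw1 _) (by rw [map_add, hw1, hw1])
          (by rw [hw2, map_add, hw2, hw2]; rfl)
        have h2 : (⟨Matrix.vecMul (w (x + y)) A.1, hw (x + y)⟩ : F) =
            ⟨Matrix.vecMul (w x) A.1, hw x⟩ + ⟨Matrix.vecMul (w y) A.1, hw y⟩ := by
          refine Subtype.ext ?_
          change Matrix.vecMul (w (x + y)) A.1 = Matrix.vecMul (w x) A.1 + Matrix.vecMul (w y) A.1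
          rw [h1, Matrix.add_vecMul]
        rw [h2, map_add, map_add] }
  obtain ⟨f, hf⟩ := F2_lift Λ K (by
    rintro _ ⟨v, hv, -, rfl⟩ q
    exact hbound v hv q.1 q.2) lam'
  refine ⟨f.toAddMonoidHom.comp (F2_co 𝔓 t), fun a v => ?_, fun v hv hfix => ?_⟩
  · change f (F2_co 𝔓 t _) = a * f (F2_co 𝔓 t v)
    rw [F2_co_sc, map_smul, smul_eq_mul]
  · obtain ⟨h, h1⟩ := hf ⟨F2_co 𝔓 t v, v, hv, hfix, rfl⟩
    refine ⟨h, h1.trans ?_⟩
    have h2 : w ⟨F2_co 𝔓 t v, v, hv, hfix, rfl⟩ = v := F2_inj 𝔓 (hw1 _) hfix (hw2 _)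
    change lam (Q.q ⟨Matrix.vecMul (w _) A.1, hw _⟩) = _
    congr 3
    rw [h2]

end FP
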