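import Pool.Agent.Lib.MP_2d4659_gt.FP.F2

/-! # The column vector of a functional -/

set_option autoImplicit false

namespace FP

variable {J : Type} [DecidableEq J] [Fintype J] {m : J → ℕ} {Y σ : Type} [Fintype Y] [DecidableEq Y]
  [Fintype σ] [DecidableEq σ] {p : ℕ} [Fact p.Prime] (𝔓 : PGR p (Gp m))

lemma F2b_InV_add {v w : Nx m Y σ → 𝔓.B} (hv : InV 𝔓 v) (hw : InV 𝔓 w) : InV 𝔓 (v + w) := by
  refine ⟨fun i => ?_, fun y => ?_⟩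
  · rw [Pi.add_apply, add_mul, hv.1, hw.1, add_zero]
  · rw [Pi.add_apply, hv.2, hw.2, add_zero]

lemma F2b_InV_neg {v : Nx m Y σ → 𝔓.B} (hv : InV 𝔓 v) : InV 𝔓 (-v) := by
  refine ⟨fun i => ?_, fun y => ?_⟩
  · rw [Pi.neg_apply, neg_mul, hv.1, neg_zero]
  · rw [Pi.neg_apply, hv.2, neg_zero]

lemma F2b_InV_zero : InV 𝔓 (0 : Nx m Y σ → 𝔓.B) :=
  ⟨fun i => by rw [Pi.zero_apply, zero_mul], fun y => rfl⟩

lemma F2b_InV_sum {ι : Type} (s : Finset ι) (v : ι → Nx m Y σ → 𝔓.B)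
    (hv : ∀ i ∈ s, InV 𝔓 (v i)) : InV 𝔓 (∑ i ∈ s, v i) := by
  classical
  induction s using Finset.induction_on with
  | empty => rw [Finset.sum_empty]; exact F2b_InV_zero 𝔓
  | insert a s ha ih =>
    rw [Finset.sum_insert ha]
    exact F2b_InV_add 𝔓 (hv a (Finset.mem_insert_self _ _))
      (ih fun i hi => hv i (Finset.mem_insert_of_mem hi))

lemma F2b_InV_smul {v : Nx m Y σ → 𝔓.B} (c : 𝔓.B) (hv : InV 𝔓 v) : InV 𝔓 (fun b => c * v b) := by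
  refine ⟨fun i => ?_, fun y => ?_⟩
  · show c * v (Sum.inl (Sum.inl i)) * NB 𝔓.u i = 0
    rw [mul_assoc, hv.1, mul_zero]
  · show c * v (Sum.inl (Sum.inr y)) = 0
    rw [hv.2, mul_zero]

theorem F2b_lam {F : Submodule (Rh 𝔓) (Nx m Y σ → 𝔓.B)} (hF : Lat 𝔓 F) (Q : LQ 𝔓 F)
    {S : σ → Option J} {A : (Matrix (Nx m Y σ) (Nx m Y σ) 𝔓.B)ˣ} (hG : Good 𝔓 F S A)
    (t : Option J) (lam : Q.L →ₗ[ZMod p] ZMod p) (hlam : SuppAt (VF 𝔓 Q S A) lam (bs m t))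
    (v : Nx m Y σ → 𝔓.B) (hv : Matrix.vecMul v A.1 ∈ F) :
    lam (Q.q ⟨Matrix.vecMul v A.1, hv⟩) =
      lam (Q.q ⟨Matrix.vecMul (prj 𝔓 S (bs m t) v) A.1, hG.2 v _ hv⟩) := by
  classical
  have hp : (0 : ℝ) < p := by exact_mod_cast (Fact.out : p.Prime).pos
  have hp0 : (p : ℚ_[p]) ≠ 0 := by exact_mod_cast (Fact.out : p.Prime).ne_zero
  have hA : A ∈ SS 𝔓.u Y σ := NN_le_SS 𝔓 hG.1
  have hInV : InV 𝔓 v := (SS_InV 𝔓 hA v).1 (hF.1 _ hv)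
  obtain ⟨ε, hε, hsm⟩ := Lat.small 𝔓 (Lat.comap 𝔓 hF hA)
  obtain ⟨s, -, hs⟩ := prj_approx 𝔓 S hInV (ε / p) (by positivity)
  set s' : Finset (Vx m) := insert (bs m t) s with hs'
  have hr := hs s' (Finset.subset_insert _ _)
  set r : Nx m Y σ → 𝔓.B := v - ∑ x ∈ s', prj 𝔓 S x v with hrdef
  have hrV : InV 𝔓 r := by
    rw [hrdef, sub_eq_add_neg]
    exact F2b_InV_add 𝔓 hInV (F2b_InV_neg 𝔓 (F2b_InV_sum 𝔓 _ _ fun x _ => prj_InV 𝔓 S x hInV))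
  set r' : Nx m Y σ → 𝔓.B := fun b => 𝔓.sc ((p : ℚ_[p])⁻¹) * r b with hr'def
  have hr'V : InV 𝔓 r' := F2b_InV_smul 𝔓 _ hrV
  have hr'le : ∀ b, 𝔓.Le ε (r' b) := by
    intro b g
    rw [hr'def]
    simp only
    rw [𝔓.cf_sc_mul, norm_mul, norm_inv, Padic.norm_p, inv_inv]
    calc (p : ℝ) * ‖𝔓.cf g (r b)‖ ≤ p * (ε / p) := mul_le_mul_of_nonneg_left (hr b g) hp.le
      _ = ε := by field_simp
  have hr'F : Matrix.vecMul r' A.1 ∈ F := hsm r' hr'V hr'le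
  have hrr : r = (p : ℕ) • r' := by
    funext b
    rw [Pi.smul_apply, hr'def]
    simp only
    rw [nsmul_eq_mul, ← 𝔓.sc_natCast, ← mul_assoc, ← map_mul, mul_inv_cancel₀ hp0, map_one, one_mul]
  have hrA : Matrix.vecMul r A.1 = (p : ℕ) • Matrix.vecMul r' A.1 := by
    rw [hrr]
    exact map_nsmul (mulM 𝔓 A.1) p r'
  have hrF : Matrix.vecMul r A.1 ∈ F := by
    rw [hrA]
    exact nsmul_mem hr'F p
  have hq0 : Q.q ⟨Matrix.vecMul r A.1, hrF⟩ = 0 := (Q.q_ker _).2 ⟨_, hr'F, hrA⟩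
  have hsum : (⟨Matrix.vecMul v A.1, hv⟩ : F) = ⟨Matrix.vecMul r A.1, hrF⟩ +
      ∑ x ∈ s', (⟨Matrix.vecMul (prj 𝔓 S x v) A.1, hG.2 v x hv⟩ : F) := by
    apply Subtype.ext
    rw [Submodule.coe_add, Submodule.coe_sum]
    simp only
    have e1 : v = r + ∑ x ∈ s', prj 𝔓 S x v := by rw [hrdef, sub_add_cancel]
    have e2 : mulM 𝔓 A.1 v = mulM 𝔓 A.1 r + ∑ x ∈ s', mulM 𝔓 A.1 (prj 𝔓 S x v) := by
      conv_lhs => rw [e1]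
      rw [map_add, map_sum]
    exact e2
  rw [hsum, map_add, hq0, zero_add, map_sum, map_sum]
  refine Finset.sum_eq_single_of_mem (bs m t) (Finset.mem_insert_self _ _) ?_
  intro x _ hx
  refine hlam x hx _ ?_
  rw [mem_VF]
  exact ⟨prj 𝔓 S x v, hG.2 v x hv, prj_prj 𝔓 S x v, rfl⟩

/-- the norm element as a sum over the subgroup -/
lemma F2b_NB (i : FJ m) (Γ : Finset (Gp m)) (hΓ : ∀ g, g ∈ Γ ↔ g ∈ HT m (some i.1)) :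
    NB 𝔓.u i = ∑ h ∈ Γ, 𝔓.u h := by
  classical
  unfold NB
  refine Finset.sum_bij (fun c _ => gen m i.1 ^ c) ?_ ?_ ?_ ?_
  · intro c _
    rw [hΓ]
    exact E1_gen_mem i c
  · intro c hc c' hc' h
    exact gen_pow_inj i.2 (Finset.mem_range.1 hc) (Finset.mem_range.1 hc') h
  · intro g hg
    rw [hΓ, mem_HT_some i.2] at hg
    obtain ⟨c, hc, rfl⟩ := hg
    exact ⟨c, Finset.mem_range.2 hc, rfl⟩
  · intro c _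
    rw [map_pow]

lemma F2b_inv {t : Option J} (Γ : Finset (Gp m)) (hΓ : ∀ g, g ∈ Γ ↔ g ∈ HT m t) {R : Type}
    [AddCommMonoid R] (f : Gp m → R) : ∑ h ∈ Γ, f h⁻¹ = ∑ h ∈ Γ, f h := by
  refine Finset.sum_nbij' (fun h => h⁻¹) (fun h => h⁻¹) ?_ ?_ ?_ ?_ ?_
  · intro h hh
    rw [hΓ] at hh ⊢
    exact inv_mem hh
  · intro h hh
    rw [hΓ] at hh ⊢
    exact inv_mem hh
  · intro h _
    exact inv_inv h
  · intro h _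
    exact inv_inv h
  · intro h _
    rfl

lemma F2b_sumcf (i : FJ m) (Γ : Finset (Gp m)) (hΓ : ∀ g, g ∈ Γ ↔ g ∈ HT m (some i.1))
    {x : 𝔓.B} (hx : x * NB 𝔓.u i = 0) (g : Gp m) : ∑ h ∈ Γ, 𝔓.cf (g * h) x = 0 := by
  have h1 : 𝔓.cf g (x * NB 𝔓.u i) = 0 := by rw [hx, map_zero]
  rw [F2b_NB 𝔓 i Γ hΓ, Finset.mul_sum, map_sum] at h1
  rw [← F2b_inv Γ hΓ (fun h => 𝔓.cf (g * h) x), ← h1]
  exact Finset.sum_congr rfl fun h _ => (𝔓.cf_mul_u h x g).symm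

/-- the components of the projected basis vectors -/
noncomputable def F2b_c (S : σ → Option J) (t : Option J) : Nx m Y σ → 𝔓.B
  | Sum.inl (Sum.inl i) => if some i.1 = t then 1 - 𝔓.sc ((m i.1 : ℚ_[p])⁻¹) * NB 𝔓.u i else 0
  | Sum.inl (Sum.inr _) => 0
  | Sum.inr c => if S c = t then 1 else 0

/-- the functional on one component -/
noncomputable def F2b_L (ℓ : (Nx m Y σ → 𝔓.B) →+ ℚ_[p]) (b : Nx m Y σ) : 𝔓.B →+ ℚ_[p] :=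
  ℓ.comp (AddMonoidHom.single (fun _ : Nx m Y σ => 𝔓.B) b)

lemma F2b_L_apply (ℓ : (Nx m Y σ → 𝔓.B) →+ ℚ_[p]) (b : Nx m Y σ) (z : 𝔓.B) :
    F2b_L 𝔓 ℓ b z = ℓ (Pi.single b z) := rfl

lemma F2b_L_sc {ℓ : (Nx m Y σ → 𝔓.B) →+ ℚ_[p]}
    (h : ∀ (a : ℚ_[p]) v, ℓ (fun b => 𝔓.sc a * v b) = a * ℓ v) (b : Nx m Y σ) (a : ℚ_[p])
    (z : 𝔓.B) : F2b_L 𝔓 ℓ b (𝔓.sc a * z) = a * F2b_L 𝔓 ℓ b z := by
  rw [F2b_L_apply, F2b_L_apply, ← h a]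
  congr 1
  funext b'
  by_cases hb : b' = b
  · subst hb
    rw [Pi.single_eq_same, Pi.single_eq_same]
  · rw [Pi.single_eq_of_ne hb, Pi.single_eq_of_ne hb, mul_zero]

lemma F2b_ell_sum (ℓ : (Nx m Y σ → 𝔓.B) →+ ℚ_[p]) (x : Nx m Y σ → 𝔓.B) :
    ℓ x = ∑ b, F2b_L 𝔓 ℓ b (x b) := by
  conv_lhs => rw [← Finset.univ_sum_single x]
  rw [map_sum]
  rfl

/-- the column vector -/
noncomputable def F2b_w (S : σ → Option J) (t : Option J) (Γ : Finset (Gp m))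
    (ℓ : (Nx m Y σ → 𝔓.B) →+ ℚ_[p]) (b : Nx m Y σ) : 𝔓.B :=
  ∑ γ ∈ Γ, 𝔓.sc (F2b_L 𝔓 ℓ b (𝔓.u γ⁻¹ * F2b_c 𝔓 S t b)) * 𝔓.u γ

lemma F2b_w_zero (S : σ → Option J) (t : Option J) (Γ : Finset (Gp m))
    (ℓ : (Nx m Y σ → 𝔓.B) →+ ℚ_[p]) (b : Nx m Y σ) (h : F2b_c 𝔓 S t b = 0) :
    F2b_w 𝔓 S t Γ ℓ b = 0 := by
  unfold F2b_w
  refine Finset.sum_eq_zero fun γ _ => ?_
  rw [h, mul_zero, map_zero, map_zero, zero_mul]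

lemma F2b_c_ne (S : σ → Option J) (t : Option J) (b : Nx m Y σ) (h : blk S b ≠ t) :
    F2b_c 𝔓 S t b = 0 := by
  rcases b with (i | y) | c
  · exact if_neg h
  · rfl
  · exact if_neg h

lemma F2b_NB_c (S : σ → Option J) (i : FJ m) :
    NB 𝔓.u i * F2b_c 𝔓 S (some i.1) (Sum.inl (Sum.inl i) : Nx m Y σ) = 0 := by
  have hm : (m i.1 : ℚ_[p]) ≠ 0 := by exact_mod_cast i.2
  have h1 : F2b_c 𝔓 S (some i.1) (Sum.inl (Sum.inl i) : Nx m Y σ) =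
      1 - 𝔓.sc ((m i.1 : ℚ_[p])⁻¹) * NB 𝔓.u i := if_pos rfl
  rw [h1, mul_sub, mul_one, ← mul_assoc, ← 𝔓.sc_comm, mul_assoc, NB_sq, ← 𝔓.sc_natCast, ← mul_assoc,
    ← map_mul, inv_mul_cancel₀ hm, map_one, one_mul, sub_self]

lemma F2b_ColW (S : σ → Option J) (t : Option J) (Γ : Finset (Gp m))
    (hΓ : ∀ g, g ∈ Γ ↔ g ∈ HT m t) (ℓ : (Nx m Y σ → 𝔓.B) →+ ℚ_[p]) :
    ColW 𝔓 S t (F2b_w 𝔓 S t Γ ℓ) := by
  refine ⟨fun b hb => F2b_w_zero 𝔓 S t Γ ℓ b (F2b_c_ne 𝔓 S t b hb), fun b => ?_, fun i => ?_,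
    fun y => F2b_w_zero 𝔓 S t Γ ℓ _ rfl⟩
  · unfold F2b_w
    apply E1_SuppIn_sum
    intro γ hγ g hg
    rw [𝔓.cf_sc_mul, u_supp 𝔓 ((hΓ γ).1 hγ) g hg, mul_zero]
  · by_cases hi : some i.1 = t
    · subst hi
      unfold F2b_w
      rw [Finset.mul_sum]
      have h1 : ∀ γ ∈ Γ, NB 𝔓.u i * (𝔓.sc (F2b_L 𝔓 ℓ (Sum.inl (Sum.inl i) : Nx m Y σ)
          (𝔓.u γ⁻¹ * F2b_c 𝔓 S (some i.1) (Sum.inl (Sum.inl i) : Nx m Y σ))) * 𝔓.u γ) =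
          𝔓.sc (F2b_L 𝔓 ℓ (Sum.inl (Sum.inl i) : Nx m Y σ)
          (𝔓.u γ⁻¹ * F2b_c 𝔓 S (some i.1) (Sum.inl (Sum.inl i) : Nx m Y σ))) * NB 𝔓.u i := by
        intro γ hγ
        rw [← mul_assoc, ← 𝔓.sc_comm, mul_assoc, NB_mul_mem 𝔓.u i ((hΓ γ).1 hγ)]
      rw [Finset.sum_congr rfl h1, ← Finset.sum_mul, ← map_sum, ← map_sum,
        F2b_inv Γ hΓ (fun h => 𝔓.u h * F2b_c 𝔓 S (some i.1) (Sum.inl (Sum.inl i) : Nx m Y σ)),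
        ← Finset.sum_mul, ← F2b_NB 𝔓 i Γ hΓ, F2b_NB_c, map_zero, map_zero, zero_mul]
    · rw [F2b_w_zero 𝔓 S t Γ ℓ _ (F2b_c_ne 𝔓 S t (Sum.inl (Sum.inl i) : Nx m Y σ) hi), mul_zero]

lemma F2b_comp (S : σ → Option J) (t : Option J) (Γ : Finset (Gp m))
    (hΓ : ∀ g, g ∈ Γ ↔ g ∈ HT m t) {ℓ : (Nx m Y σ → 𝔓.B) →+ ℚ_[p]}
    (hℓ : ∀ (a : ℚ_[p]) v, ℓ (fun b => 𝔓.sc a * v b) = a * ℓ v) {v : Nx m Y σ → 𝔓.B}
    (hv : InV 𝔓 v) (g : Gp m) (b : Nx m Y σ) :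
    𝔓.cf g (v b * F2b_w 𝔓 S t Γ ℓ b) =
      F2b_L 𝔓 ℓ b (prj 𝔓 S (bs m t) (fun b => 𝔓.u g⁻¹ * v b) b) := by
  have hL := F2b_L_sc 𝔓 hℓ b
  by_cases hb : blk S b = t
  swap
  · rw [F2b_w_zero 𝔓 S t Γ ℓ b (F2b_c_ne 𝔓 S t b hb), mul_zero, map_zero,
      prj_apply_ne 𝔓 S (bs m t) _ b (by rw [ty_bs]; exact hb), map_zero]
  rw [prj_apply 𝔓 S (bs m t) _ b (by rw [ty_bs]; exact hb), cs_bs]
  -- the left hand side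
  have hl : 𝔓.cf g (v b * F2b_w 𝔓 S t Γ ℓ b) =
      ∑ h ∈ Γ, F2b_L 𝔓 ℓ b (𝔓.u h * F2b_c 𝔓 S t b) * 𝔓.cf (g * h) (v b) := by
    rw [← F2b_inv Γ hΓ (fun h => F2b_L 𝔓 ℓ b (𝔓.u h * F2b_c 𝔓 S t b) * 𝔓.cf (g * h) (v b))]
    unfold F2b_w
    rw [Finset.mul_sum, map_sum]
    refine Finset.sum_congr rfl fun γ _ => ?_
    rw [← mul_assoc, ← 𝔓.sc_comm, mul_assoc, 𝔓.cf_sc_mul, 𝔓.cf_mul_u]
  -- the right hand side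
  have hr : F2b_L 𝔓 ℓ b (𝔓.rs (HS m t) (𝔓.u g⁻¹ * v b)) =
      ∑ h ∈ Γ, F2b_L 𝔓 ℓ b (𝔓.u h) * 𝔓.cf (g * h) (v b) := by
    conv_lhs => rw [E1_expand 𝔓 (𝔓.rs_supp (HS m t) (𝔓.u g⁻¹ * v b)) Γ hΓ]
    rw [map_sum]
    refine Finset.sum_congr rfl fun h hh => ?_
    rw [hL, 𝔓.cf_rs_mem _ _ _ (show h ∈ HS m t from (hΓ h).1 hh), 𝔓.cf_u_mul, inv_inv, mul_comm]
  rw [hl, hr]
  rcases b with (i | y) | c
  · have hi : some i.1 = t := hb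
    subst hi
    have h1 : F2b_c 𝔓 S (some i.1) (Sum.inl (Sum.inl i) : Nx m Y σ) =
        1 - 𝔓.sc ((m i.1 : ℚ_[p])⁻¹) * NB 𝔓.u i := if_pos rfl
    have h2 : ∀ h ∈ Γ, F2b_L 𝔓 ℓ (Sum.inl (Sum.inl i) : Nx m Y σ)
        (𝔓.u h * F2b_c 𝔓 S (some i.1) (Sum.inl (Sum.inl i) : Nx m Y σ)) *
          𝔓.cf (g * h) (v (Sum.inl (Sum.inl i))) =
        F2b_L 𝔓 ℓ (Sum.inl (Sum.inl i) : Nx m Y σ) (𝔓.u h) *
          𝔓.cf (g * h) (v (Sum.inl (Sum.inl i))) -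
        F2b_L 𝔓 ℓ (Sum.inl (Sum.inl i) : Nx m Y σ) (𝔓.sc ((m i.1 : ℚ_[p])⁻¹) * NB 𝔓.u i) *
          𝔓.cf (g * h) (v (Sum.inl (Sum.inl i))) := by
      intro h hh
      rw [h1, mul_sub, mul_one, ← mul_assoc, ← 𝔓.sc_comm, mul_assoc,
        mem_mul_NB 𝔓.u i ((hΓ h).1 hh), map_sub, sub_mul]
    rw [Finset.sum_congr rfl h2, Finset.sum_sub_distrib, ← Finset.mul_sum,
      F2b_sumcf 𝔓 i Γ hΓ (hv.1 i) g, mul_zero, sub_zero]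
  · have h1 : v (Sum.inl (Sum.inr y)) = 0 := hv.2 y
    simp only [h1, map_zero, mul_zero]
  · have hc : S c = t := hb
    have h1 : F2b_c 𝔓 S t (Sum.inr c : Nx m Y σ) = 1 := if_pos hc
    rw [h1]
    simp only [mul_one]

/-- With `ℓ` as above let `e'_a` be the projection of `e_a` to `W_t` (for `a` in the block `t`; for `a = i`
it is `(1 - ε) e_i`) and `w_a = ∑_{γ ∈ HT t} ℓ (γ⁻¹ e'_a) γ`.  For `v ∈ W_t`: `∑ v_a w_a = ∑_γ ℓ (γ⁻¹ v) γ`; for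
general `v` the coefficient of `g` in `∑ v_a w_a` is `ℓ (prj (bs t) (g⁻¹ v))`. -/
theorem exists_col {F : Submodule (Rh 𝔓) (Nx m Y σ → 𝔓.B)} (hF : Lat 𝔓 F) (Q : LQ 𝔓 F)
    {S : σ → Option J} {A : (Matrix (Nx m Y σ) (Nx m Y σ) 𝔓.B)ˣ} (hG : Good 𝔓 F S A)
    (t : Option J) (lam : Q.L →ₗ[ZMod p] ZMod p) (hlam : SuppAt (VF 𝔓 Q S A) lam (bs m t)) :
    ∃ w : Nx m Y σ → 𝔓.B, ColW 𝔓 S t w ∧
      ∀ (v : Nx m Y σ → 𝔓.B) (hv : Matrix.vecMul v A.1 ∈ F), 𝔓.In (∑ b, v b * w b) ∧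
        ∀ g, (𝔓.red (∑ b, v b * w b)).coeff g =
          lam (Q.ρ g⁻¹ (Q.q ⟨Matrix.vecMul v A.1, hv⟩)) := by
  classical
  obtain ⟨ℓ, hℓ, hℓ'⟩ := exists_ell 𝔓 hF Q hG t lam
  have hfin : Finite (HT m t) := HT_finite t
  have hf : (HT m t : Set (Gp m)).Finite := hfin
  have hΓ : ∀ g, g ∈ hf.toFinset ↔ g ∈ HT m t := fun g => by
    rw [Set.Finite.mem_toFinset]; rfl
  refine ⟨F2b_w 𝔓 S t hf.toFinset ℓ, F2b_ColW 𝔓 S t hf.toFinset hΓ ℓ, fun v hv => ?_⟩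
  have hInV : InV 𝔓 v := (SS_InV 𝔓 (NN_le_SS 𝔓 hG.1) v).1 (hF.1 _ hv)
  have hcf : ∀ g, 𝔓.cf g (∑ b, v b * F2b_w 𝔓 S t hf.toFinset ℓ b) =
      ℓ (prj 𝔓 S (bs m t) (fun b => 𝔓.u g⁻¹ * v b)) := by
    intro g
    rw [map_sum, F2b_ell_sum 𝔓 ℓ]
    exact Finset.sum_congr rfl fun b _ => F2b_comp 𝔓 S t hf.toFinset hΓ hℓ hInV g b
  have hgv : ∀ g : Gp m, Matrix.vecMul (fun b => 𝔓.u g⁻¹ * v b) A.1 =
      fun b => 𝔓.u g⁻¹ * Matrix.vecMul v A.1 b := by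
    intro g
    funext b
    simp only [Matrix.vecMul, dotProduct, Finset.mul_sum, mul_assoc]
  have hgF : ∀ g : Gp m, Matrix.vecMul (fun b => 𝔓.u g⁻¹ * v b) A.1 ∈ F := by
    intro g
    rw [hgv]
    exact u_smul_mem 𝔓 g⁻¹ hv
  have hkey := fun g : Gp m => hℓ' _ (hG.2 _ (bs m t) (hgF g)) (prj_prj 𝔓 S (bs m t) _)
  have hIn : 𝔓.In (∑ b, v b * F2b_w 𝔓 S t hf.toFinset ℓ b) := by
    intro g
    rw [hcf]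
    exact (hkey g).1
  refine ⟨hIn, fun g => ?_⟩
  rw [𝔓.coeff_red hIn]
  obtain ⟨h1, h2⟩ := hkey g
  have h3 : PadicInt.toZMod (⟨𝔓.cf g (∑ b, v b * F2b_w 𝔓 S t hf.toFinset ℓ b), hIn g⟩ : ℤ_[p]) =
      PadicInt.toZMod (⟨ℓ (prj 𝔓 S (bs m t) (fun b => 𝔓.u g⁻¹ * v b)), h1⟩ : ℤ_[p]) := by
    congr 1
    exact Subtype.ext (hcf g)
  rw [h3, h2, ← F2b_lam 𝔓 hF Q hG t lam hlam _ (hgF g), Q.ρ_q]
  congr 2
  exact Subtype.ext (hgv g)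

end FP
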