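import Pool.Agent.Lib.MP_2d4659_gt.FP.E7
import Pool.Agent.Lib.MP_2d4659_gt.FP.F1
import Pool.Agent.Lib.MP_2d4659_gt.FP.B3

/-!
# Lifting shears

`T₁ = 1 - w ξ v₀` (`w` from `exists_col`, `v₀ A ∈ F`, `v₀ w` divisible by `p`) preserves `{v | v A ∈ F}` and
induces on `F / p F` the shear with the vector `class of ξ v₀ A`. Write the vector of the shear as
`class of (g v₀) A` with `v₀ ∈ W_{t'}`, use `shear_lift_NN` (`t' = t`) or `shear_lift_off` and compose.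
-/

set_option autoImplicit false
set_option linter.unusedSectionVars false

namespace FP

variable {J : Type} [DecidableEq J] [Fintype J] {m : J → ℕ} {Y σ : Type} [Fintype Y] [DecidableEq Y]
  [Fintype σ] [DecidableEq σ] {p : ℕ} [Fact p.Prime] (𝔓 : PGR p (Gp m))

lemma F3_red_nsmul (n : ℕ) {b : 𝔓.B} (hb : 𝔓.In b) :
    𝔓.In (n • b) ∧ 𝔓.red (n • b) = n • 𝔓.red b := by
  induction n with
  | zero =>
    rw [zero_smul, zero_smul]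
    exact ⟨E7_In_zero 𝔓, 𝔓.D2_red_zero⟩
  | succ n ih =>
    rw [succ_nsmul, succ_nsmul]
    exact ⟨E7_In_add 𝔓 ih.1 hb, by rw [𝔓.red_add ih.1 hb, ih.2]⟩

lemma F3_In_sum {ι : Type} (s : Finset ι) (a : ι → 𝔓.B) (ha : ∀ i ∈ s, 𝔓.In (a i)) :
    𝔓.In (∑ i ∈ s, a i) := PGR.Le.sum 𝔓 zero_le_one s a ha

/-- an integral element is a combination of group elements modulo `p` -/
lemma F3_decomp {c : 𝔓.B} (hc : 𝔓.In c) :
    ∃ c' : 𝔓.B, 𝔓.In c' ∧ c = (∑ h ∈ (𝔓.red c).coeff.support,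
      ((𝔓.red c).coeff h).val • 𝔓.u h) + (p : ℕ) • c' := by
  have hI : ∀ h ∈ (𝔓.red c).coeff.support, 𝔓.In (((𝔓.red c).coeff h).val • 𝔓.u h) :=
    fun h _ => (F3_red_nsmul 𝔓 _ (𝔓.In_u h)).1
  have hI0 := F3_In_sum 𝔓 _ _ hI
  have h1 : 𝔓.red (∑ h ∈ (𝔓.red c).coeff.support, ((𝔓.red c).coeff h).val • 𝔓.u h) =
      𝔓.red c := by
    rw [𝔓.red_sum _ _ hI]
    refine MonoidAlgebra.ext (Finsupp.ext fun g => ?_)
    rw [MonoidAlgebra.coeff_sum, Finsupp.finsetSum_apply]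
    have h2 : ∀ h ∈ (𝔓.red c).coeff.support,
        (𝔓.red (((𝔓.red c).coeff h).val • 𝔓.u h)).coeff g =
          if h = g then (𝔓.red c).coeff g else 0 := by
      intro h _
      rw [(F3_red_nsmul 𝔓 _ (𝔓.In_u h)).2, 𝔓.red_u, MonoidAlgebra.smul_single,
        MonoidAlgebra.coeff_single, Finsupp.single_apply]
      split_ifs with hg
      · rw [nsmul_eq_mul, mul_one, ZMod.natCast_zmod_val, hg]
      · rfl
    rw [Finset.sum_congr rfl h2, Finset.sum_ite_eq']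
    split_ifs with h3
    · rfl
    · rw [Finsupp.notMem_support_iff] at h3
      exact h3.symm
  have h2 : 𝔓.Sm (c - ∑ h ∈ (𝔓.red c).coeff.support, ((𝔓.red c).coeff h).val • 𝔓.u h) := by
    rw [← 𝔓.red_eq_zero (E7_In_sub 𝔓 hc hI0), sub_eq_add_neg,
      𝔓.red_add hc (E7_In_neg 𝔓 hI0), 𝔓.red_neg hI0, h1, add_neg_cancel]
  obtain ⟨c', hc', h3⟩ := (𝔓.Sm_iff _).1 h2
  refine ⟨c', hc', ?_⟩
  rw [nsmul_eq_mul, ← h3]
  abel

lemma F3_mem {F : Submodule (Rh 𝔓) (Nx m Y σ → 𝔓.B)} {c : 𝔓.B} (hc : 𝔓.In c)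
    {x : Nx m Y σ → 𝔓.B} (hx : x ∈ F) : (fun b => c * x b) ∈ F :=
  F.smul_mem (⟨c, hc⟩ : Rh 𝔓) hx

/-- the class of `c x` -/
lemma F3_class {F : Submodule (Rh 𝔓) (Nx m Y σ → 𝔓.B)} (Q : LQ 𝔓 F) {c : 𝔓.B} (hc : 𝔓.In c)
    {x : Nx m Y σ → 𝔓.B} (hx : x ∈ F) :
    Q.q ⟨_, F3_mem 𝔓 hc hx⟩ = ∑ᶠ h : Gp m, (𝔓.red c).coeff h • Q.ρ h (Q.q ⟨x, hx⟩) := by
  classical
  have hs : (Function.support fun h : Gp m => (𝔓.red c).coeff h • Q.ρ h (Q.q ⟨x, hx⟩)) ⊆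
      ((𝔓.red c).coeff.support : Set (Gp m)) := by
    intro h hh
    rw [Finset.mem_coe, Finsupp.mem_support_iff]
    intro h0
    apply hh
    change (𝔓.red c).coeff h • Q.ρ h (Q.q ⟨x, hx⟩) = 0
    rw [h0, zero_smul]
  rw [finsum_eq_sum_of_support_subset _ hs]
  obtain ⟨c', hc', h1⟩ := F3_decomp 𝔓 hc
  have h2 : ∀ h ∈ (𝔓.red c).coeff.support, (𝔓.red c).coeff h • Q.ρ h (Q.q ⟨x, hx⟩) =
      Q.q (((𝔓.red c).coeff h).val • ⟨fun b => 𝔓.u h * x b, u_smul_mem 𝔓 h hx⟩) := by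
    intro h _
    rw [map_nsmul, Q.ρ_q]
    conv_lhs => rw [← ZMod.natCast_zmod_val ((𝔓.red c).coeff h)]
    rw [Nat.cast_smul_eq_nsmul]
  rw [Finset.sum_congr rfl h2, ← map_sum, ← sub_eq_zero, ← map_sub, Q.q_ker]
  refine ⟨_, F3_mem 𝔓 hc' hx, ?_⟩
  rw [AddSubgroupClass.coe_sub, AddSubmonoidClass.coe_finsetSum]
  funext b
  rw [Pi.sub_apply, Finset.sum_apply, Pi.smul_apply]
  have h3 : ∀ h ∈ (𝔓.red c).coeff.support,
      ((((𝔓.red c).coeff h).val • (⟨fun b => 𝔓.u h * x b, u_smul_mem 𝔓 h hx⟩ : F) : F) :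
        Nx m Y σ → 𝔓.B) b = ((𝔓.red c).coeff h).val • 𝔓.u h * x b := by
    intro h _
    rw [AddSubmonoidClass.coe_nsmul, Pi.smul_apply, smul_mul_assoc]
  rw [Finset.sum_congr rfl h3, ← Finset.sum_mul]
  change c * x b - _ = (p : ℕ) • (c' * x b)
  conv_lhs => enter [1, 1]; rw [h1]
  rw [add_mul, smul_mul_assoc]
  abel

lemma F3_vecMul_T {w v₀ : Nx m Y σ → 𝔓.B} {ξ : 𝔓.B} (v : Nx m Y σ → 𝔓.B) :
    Matrix.vecMul v (1 - Matrix.of fun a b => w a * ξ * v₀ b) =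
      v - fun b => (∑ b, v b * w b) * (ξ * v₀ b) := by
  rw [Matrix.vecMul_sub, Matrix.vecMul_one]
  congr 1
  funext b
  rw [Matrix.vecMul, dotProduct, Finset.sum_mul]
  refine Finset.sum_congr rfl fun a _ => ?_
  rw [Matrix.of_apply]
  simp only [mul_assoc]

lemma F3_vecMul_T' {w v₀ : Nx m Y σ → 𝔓.B} {ξ η : 𝔓.B} (v : Nx m Y σ → 𝔓.B) :
    Matrix.vecMul v (1 + Matrix.of fun a b => w a * ξ * η * v₀ b) =
      v + fun b => (∑ b, v b * w b) * (ξ * η * v₀ b) := by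
  rw [Matrix.vecMul_add, Matrix.vecMul_one]
  congr 1
  funext b
  rw [Matrix.vecMul, dotProduct, Finset.sum_mul]
  refine Finset.sum_congr rfl fun a _ => ?_
  rw [Matrix.of_apply]
  simp only [mul_assoc]

lemma F3_vecMul_mul (c : 𝔓.B) (v : Nx m Y σ → 𝔓.B) (M : Matrix (Nx m Y σ) (Nx m Y σ) 𝔓.B) :
    Matrix.vecMul (fun b => c * v b) M = fun b => c * Matrix.vecMul v M b := by
  funext b
  rw [Matrix.vecMul, dotProduct, Matrix.vecMul, dotProduct, Finset.mul_sum]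
  exact Finset.sum_congr rfl fun a _ => mul_assoc _ _ _

/-- one factor -/
theorem one_factor {F : Submodule (Rh 𝔓) (Nx m Y σ → 𝔓.B)} (hF : Lat 𝔓 F) (Q : LQ 𝔓 F)
    {S : σ → Option J} {A : (Matrix (Nx m Y σ) (Nx m Y σ) 𝔓.B)ˣ} (hG : Good 𝔓 F S A)
    {lam : Q.L →ₗ[ZMod p] ZMod p} {w v₀ : Nx m Y σ → 𝔓.B}
    (hw : ∀ (v : Nx m Y σ → 𝔓.B) (hv : Matrix.vecMul v A.1 ∈ F), 𝔓.In (∑ b, v b * w b) ∧
        ∀ g, (𝔓.red (∑ b, v b * w b)).coeff g =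
          lam (Q.ρ g⁻¹ (Q.q ⟨Matrix.vecMul v A.1, hv⟩)))
    (hv₀ : Matrix.vecMul v₀ A.1 ∈ F) (hs : 𝔓.Sm (∑ b, v₀ b * w b)) {ξ : 𝔓.B} (hξ : 𝔓.In ξ)
    {T₁ : (Matrix (Nx m Y σ) (Nx m Y σ) 𝔓.B)ˣ} (hT₁ : T₁ ∈ NN 𝔓 Y σ)
    (hT : T₁.1 = 1 - Matrix.of fun a b => w a * ξ * v₀ b) :
    ∃ (hm : (Matrix.vecMul (fun b => ξ * v₀ b) A.1) ∈ F) (T : Q.L →ₗ[ZMod p] Q.L),
      IsShear Q.ρ lam (Q.q ⟨_, hm⟩) T ∧ Good 𝔓 F S (T₁ * A) ∧
      (∀ v, Matrix.vecMul v (T₁ * A).1 ∈ F ↔ Matrix.vecMul v A.1 ∈ F) ∧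
      (∀ (v : Nx m Y σ → 𝔓.B) (h1 : Matrix.vecMul v (T₁ * A).1 ∈ F)
        (h2 : Matrix.vecMul v A.1 ∈ F), Q.q ⟨_, h1⟩ = T (Q.q ⟨_, h2⟩)) ∧
      ∀ x, VF 𝔓 Q S (T₁ * A) x = (VF 𝔓 Q S A x).map T := by
  classical
  have hm : (Matrix.vecMul (fun b => ξ * v₀ b) A.1) ∈ F := by
    rw [F3_vecMul_mul]
    exact F3_mem 𝔓 hξ hv₀
  -- elements of the quotient
  have hrep : ∀ u : Q.L, ∃ (v : Nx m Y σ → 𝔓.B) (hv : Matrix.vecMul v A.1 ∈ F),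
      u = Q.q ⟨_, hv⟩ := by
    intro u
    obtain ⟨⟨y, hy⟩, rfl⟩ := Q.q_surj u
    have h1 : Matrix.vecMul (Matrix.vecMul y A⁻¹.1) A.1 = y := by
      rw [Matrix.vecMul_vecMul, ← Units.val_mul, inv_mul_cancel, Units.val_one, Matrix.vecMul_one]
    refine ⟨Matrix.vecMul y A⁻¹.1, by rw [h1]; exact hy, ?_⟩
    congr 1
    exact Subtype.ext h1.symm
  have hfin : ∀ u, {h : Gp m | lam (Q.ρ h u) ≠ 0}.Finite := by
    intro u
    obtain ⟨v, hv, rfl⟩ := hrep u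
    refine Set.Finite.subset ((𝔓.red (∑ b, v b * w b)).coeff.support.finite_toSet.preimage
      (f := fun h : Gp m => h⁻¹) inv_injective.injOn) ?_
    intro h hh
    rw [Set.mem_preimage, Finset.mem_coe, Finsupp.mem_support_iff, (hw v hv).2, inv_inv]
    exact hh
  obtain ⟨T, hTs⟩ := exists_shear (ρ := Q.ρ) hfin (Q.q ⟨_, hm⟩)
  -- the formula for `v T₁ A`
  have hvT : ∀ v, Matrix.vecMul v (T₁ * A).1 = Matrix.vecMul v A.1 -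
      fun b => (∑ b, v b * w b) * Matrix.vecMul (fun b => ξ * v₀ b) A.1 b := by
    intro v
    rw [Units.val_mul, ← Matrix.vecMul_vecMul, hT, F3_vecMul_T, Matrix.sub_vecMul,
      F3_vecMul_mul 𝔓 (∑ b, v b * w b) (fun b => ξ * v₀ b)]
  have hiff : ∀ v, Matrix.vecMul v (T₁ * A).1 ∈ F ↔ Matrix.vecMul v A.1 ∈ F := by
    intro v
    constructor
    · intro hv
      obtain ⟨T', η, hη, -, -, hT', hTi⟩ := shear_unit 𝔓 v₀ w hs hξ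
      have h0 : T' = T₁ := Units.ext (by rw [hT', hT])
      rw [h0] at hTi
      have h1 : Matrix.vecMul (Matrix.vecMul v T₁.1) A.1 ∈ F := by
        rw [Matrix.vecMul_vecMul, ← Units.val_mul]
        exact hv
      have h2 : v = Matrix.vecMul (Matrix.vecMul v T₁.1) T₁⁻¹.1 := by
        rw [Matrix.vecMul_vecMul, ← Units.val_mul, mul_inv_cancel, Units.val_one,
          Matrix.vecMul_one]
      have h3 : Matrix.vecMul v A.1 = Matrix.vecMul (Matrix.vecMul v T₁.1) A.1 +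
          fun b => (∑ b, Matrix.vecMul v T₁.1 b * w b) * (ξ * η) *
            Matrix.vecMul v₀ A.1 b := by
        conv_lhs => rw [h2, hTi, F3_vecMul_T', Matrix.add_vecMul]
        congr 1
        have h4 : (fun b => (∑ b, Matrix.vecMul v T₁.1 b * w b) * (ξ * η * v₀ b)) =
            fun b => (∑ b, Matrix.vecMul v T₁.1 b * w b) * (ξ * η) * v₀ b := by
          funext b
          rw [mul_assoc _ (ξ * η)]
        rw [h4, F3_vecMul_mul]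
      rw [h3]
      exact add_mem h1 (F3_mem 𝔓 (PGR.In.mul 𝔓 (hw _ h1).1 (PGR.In.mul 𝔓 hξ hη)) hv₀)
    · intro hv
      rw [hvT]
      exact sub_mem hv (F3_mem 𝔓 (hw _ hv).1 hm)
  have hq : ∀ (v : Nx m Y σ → 𝔓.B) (h1 : Matrix.vecMul v (T₁ * A).1 ∈ F)
      (h2 : Matrix.vecMul v A.1 ∈ F), Q.q ⟨_, h1⟩ = T (Q.q ⟨_, h2⟩) := by
    intro v h1 h2
    rw [hTs]
    have h3 : ∀ h : Gp m, lam (Q.ρ h⁻¹ (Q.q ⟨_, h2⟩)) • Q.ρ h (Q.q ⟨_, hm⟩) =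
        (𝔓.red (∑ b, v b * w b)).coeff h • Q.ρ h (Q.q ⟨_, hm⟩) := by
      intro h
      rw [(hw v h2).2]
    rw [finsum_congr h3, ← F3_class 𝔓 Q (hw v h2).1 hm, ← map_sub]
    congr 1
    exact Subtype.ext (hvT v)
  refine ⟨hm, T, hTs, ⟨mul_mem hT₁ hG.1, fun v x hv => ?_⟩, hiff, hq, fun x => ?_⟩
  · exact (hiff _).2 (hG.2 v x ((hiff _).1 hv))
  · ext y
    rw [mem_VF, Submodule.mem_map]
    constructor
    · rintro ⟨v, hv, hpv, rfl⟩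
      exact ⟨_, (mem_VF 𝔓 Q S A x _).2 ⟨v, (hiff v).1 hv, hpv, rfl⟩, (hq v hv _).symm⟩
    · rintro ⟨y', hy', rfl⟩
      obtain ⟨v, hv, hpv, rfl⟩ := (mem_VF 𝔓 Q S A x _).1 hy'
      exact ⟨v, (hiff v).2 hv, hpv, (hq v _ hv).symm⟩

end FP
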