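import Pool.Agent.Lib.MP_2d4659_gt.FP.F1b
import Pool.Agent.Lib.MP_2d4659_gt.FP.F2b
import Pool.Agent.Lib.MP_2d4659_gt.FP.F3

/-!
# Lifting shears

`w` (the vector of the shear) is the class of `(g v₀) A` with `v₀ ∈ W_{t'}`, `y = g • bs t'`, `v₀ A ∈ F`. Let `c` be the column
`exists_col` for `lam`; `red (v₀ c) = 0` by `hlw`.  If `t' ≠ t` take `shear_lift_off` with `ξ = u g`; if `t' = t` write
`u g = ∑ ξ_k` by `shear_lift_NN`.  Each factor `1 - c ξ_k v₀` gives a shear with the vector `w_k` = class of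
`ξ_k v₀ A` (`one_factor`), `lam (ρ h w_k) = 0` for all `h`, so the product of the shears is the shear with the
vector `∑ w_k = w`.
-/

set_option autoImplicit false
set_option linter.unusedSectionVars false
set_option linter.unusedVariables false

namespace FP

variable {J : Type} [DecidableEq J] [Fintype J] {m : J → ℕ} {Y σ : Type} [Fintype Y] [DecidableEq Y]
  [Fintype σ] [DecidableEq σ] {p : ℕ} [Fact p.Prime] (𝔓 : PGR p (Gp m))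

lemma F3b_cast {F : Submodule (Rh 𝔓) (Nx m Y σ → 𝔓.B)} (Q : LQ 𝔓 F) {v w : Nx m Y σ → 𝔓.B}
    (hv : v ∈ F) (hw : w ∈ F) (h : v = w) : Q.q ⟨v, hv⟩ = Q.q ⟨w, hw⟩ := by
  subst h
  rfl

/-- `lam` vanishes on the orbit of the class of `ξ v₀ A` -/
lemma F3b_zero {F : Submodule (Rh 𝔓) (Nx m Y σ → 𝔓.B)} (Q : LQ 𝔓 F)
    {A : (Matrix (Nx m Y σ) (Nx m Y σ) 𝔓.B)ˣ}
    {lam : Q.L →ₗ[ZMod p] ZMod p} {c v₀ : Nx m Y σ → 𝔓.B}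
    (hc : ∀ (v : Nx m Y σ → 𝔓.B) (hv : Matrix.vecMul v A.1 ∈ F), 𝔓.In (∑ b, v b * c b) ∧
        ∀ g, (𝔓.red (∑ b, v b * c b)).coeff g =
          lam (Q.ρ g⁻¹ (Q.q ⟨Matrix.vecMul v A.1, hv⟩)))
    (hs : 𝔓.Sm (∑ b, v₀ b * c b)) {ξ : 𝔓.B} (hξ : 𝔓.In ξ)
    (hm : (Matrix.vecMul (fun b => ξ * v₀ b) A.1) ∈ F) (h : Gp m) :
    lam (Q.ρ h (Q.q ⟨_, hm⟩)) = 0 := by
  have h1 := (hc _ hm).2 h⁻¹
  rw [inv_inv] at h1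
  rw [← h1]
  have h2 : ∑ b, ξ * v₀ b * c b = ξ * ∑ b, v₀ b * c b := by
    rw [Finset.mul_sum]
    exact Finset.sum_congr rfl fun b _ => mul_assoc _ _ _
  rw [h2]
  have h3 : 𝔓.Sm (ξ * ∑ b, v₀ b * c b) := PGR.In.mul_Sm 𝔓 hξ hs
  rw [(PGR.red_eq_zero 𝔓 (fun g => (h3 g).le)).2 h3]
  simp

/-- the functional has finite support on every orbit -/
lemma F3b_fin {F : Submodule (Rh 𝔓) (Nx m Y σ → 𝔓.B)} (Q : LQ 𝔓 F)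
    {A : (Matrix (Nx m Y σ) (Nx m Y σ) 𝔓.B)ˣ}
    {lam : Q.L →ₗ[ZMod p] ZMod p} {c : Nx m Y σ → 𝔓.B}
    (hc : ∀ (v : Nx m Y σ → 𝔓.B) (hv : Matrix.vecMul v A.1 ∈ F), 𝔓.In (∑ b, v b * c b) ∧
        ∀ g, (𝔓.red (∑ b, v b * c b)).coeff g =
          lam (Q.ρ g⁻¹ (Q.q ⟨Matrix.vecMul v A.1, hv⟩))) (u : Q.L) :
    {h : Gp m | lam (Q.ρ h u) ≠ 0}.Finite := by
  classical
  obtain ⟨f, rfl⟩ := Q.q_surj u
  have h1 : Matrix.vecMul (Matrix.vecMul f.1 A⁻¹.1) A.1 = f.1 := by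
    rw [Matrix.vecMul_vecMul, ← Units.val_mul, inv_mul_cancel, Units.val_one, Matrix.vecMul_one]
  have h2 : Matrix.vecMul (Matrix.vecMul f.1 A⁻¹.1) A.1 ∈ F := by
    rw [h1]
    exact f.2
  have h3 := (hc _ h2).2
  have h4 : Q.q ⟨_, h2⟩ = Q.q f := F3b_cast 𝔓 Q h2 f.2 h1
  rw [h4] at h3
  refine Set.Finite.subset ((𝔓.red (∑ b, Matrix.vecMul f.1 A⁻¹.1 b * c b)).coeff.support.image
    (fun g => g⁻¹)).finite_toSet fun h hh => ?_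
  rw [Finset.mem_coe, Finset.mem_image]
  refine ⟨h⁻¹, ?_, inv_inv h⟩
  rw [Finsupp.mem_support_iff, h3 h⁻¹, inv_inv]
  exact hh

/-- several factors -/
lemma F3b_list {F : Submodule (Rh 𝔓) (Nx m Y σ → 𝔓.B)} (hF : Lat 𝔓 F) (Q : LQ 𝔓 F)
    {S : σ → Option J} {A : (Matrix (Nx m Y σ) (Nx m Y σ) 𝔓.B)ˣ} (hG : Good 𝔓 F S A)
    {lam : Q.L →ₗ[ZMod p] ZMod p} {c v₀ : Nx m Y σ → 𝔓.B}
    (hc : ∀ (v : Nx m Y σ → 𝔓.B) (hv : Matrix.vecMul v A.1 ∈ F), 𝔓.In (∑ b, v b * c b) ∧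
        ∀ g, (𝔓.red (∑ b, v b * c b)).coeff g =
          lam (Q.ρ g⁻¹ (Q.q ⟨Matrix.vecMul v A.1, hv⟩)))
    (hv₀ : Matrix.vecMul v₀ A.1 ∈ F) (hs : 𝔓.Sm (∑ b, v₀ b * c b)) (l : List 𝔓.B)
    (hl : ∀ ξ ∈ l, 𝔓.In ξ ∧
      ∃ T ∈ NN 𝔓 Y σ, T.1 = 1 - Matrix.of fun a b => c a * ξ * v₀ b) :
    ∃ (A' : (Matrix (Nx m Y σ) (Nx m Y σ) 𝔓.B)ˣ) (_ : 𝔓.In l.sum)
      (hm : (Matrix.vecMul (fun b => l.sum * v₀ b) A.1) ∈ F) (T : Q.L →ₗ[ZMod p] Q.L),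
      IsShear Q.ρ lam (Q.q ⟨_, hm⟩) T ∧ Good 𝔓 F S A' ∧
      (∀ v, Matrix.vecMul v A'.1 ∈ F ↔ Matrix.vecMul v A.1 ∈ F) ∧
      (∀ (v : Nx m Y σ → 𝔓.B) (h1 : Matrix.vecMul v A'.1 ∈ F)
        (h2 : Matrix.vecMul v A.1 ∈ F), Q.q ⟨_, h1⟩ = T (Q.q ⟨_, h2⟩)) ∧
      ∀ x, VF 𝔓 Q S A' x = (VF 𝔓 Q S A x).map T := by
  induction l with
  | nil =>
    have h0 : (fun b => ([] : List 𝔓.B).sum * v₀ b) = 0 := by
      funext b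
      rw [List.sum_nil, zero_mul, Pi.zero_apply]
    have hm : (Matrix.vecMul (fun b => ([] : List 𝔓.B).sum * v₀ b) A.1) ∈ F := by
      rw [h0, Matrix.zero_vecMul]
      exact zero_mem _
    refine ⟨A, ?_, hm, LinearMap.id, ?_, hG, fun v => Iff.rfl, fun v h1 h2 => rfl, fun x => ?_⟩
    · intro g
      rw [List.sum_nil, map_zero, norm_zero]
      exact zero_le_one
    · intro u
      have h1 : Q.q ⟨_, hm⟩ = 0 := by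
        rw [← map_zero Q.q]
        exact F3b_cast 𝔓 Q hm (zero_mem _) (by rw [h0, Matrix.zero_vecMul])
      rw [h1]
      simp
    · rw [Submodule.map_id]
  | cons ξ l ih =>
    obtain ⟨A₁, hIn₁, hm₁, T₁, hT₁, hG₁, hiff₁, hq₁, hV₁⟩ :=
      ih fun ξ' hξ' => hl ξ' (List.mem_cons_of_mem _ hξ')
    obtain ⟨hξ, T₀, hT₀, hT₀'⟩ := hl ξ List.mem_cons_self
    have hfin := F3b_fin 𝔓 Q hc
    have hw₁ : ∀ h, lam (Q.ρ h (Q.q ⟨_, hm₁⟩)) = 0 := F3b_zero 𝔓 Q hc hs hIn₁ hm₁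
    have hc₁ : ∀ (v : Nx m Y σ → 𝔓.B) (hv : Matrix.vecMul v A₁.1 ∈ F), 𝔓.In (∑ b, v b * c b) ∧
        ∀ g, (𝔓.red (∑ b, v b * c b)).coeff g =
          lam (Q.ρ g⁻¹ (Q.q ⟨Matrix.vecMul v A₁.1, hv⟩)) := by
      intro v hv
      have hv' := (hiff₁ v).1 hv
      refine ⟨(hc v hv').1, fun g => ?_⟩
      rw [(hc v hv').2 g, hq₁ v hv hv', hT₁.lam_eq hfin hw₁]
    obtain ⟨hm₂, T₂, hT₂, hG₂, hiff₂, hq₂, hV₂⟩ :=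
      one_factor 𝔓 hF Q hG₁ hc₁ ((hiff₁ v₀).2 hv₀) hs hξ hT₀ hT₀'
    have hmξ : (Matrix.vecMul (fun b => ξ * v₀ b) A.1) ∈ F := (hiff₁ _).1 hm₂
    have hqξ : Q.q ⟨_, hm₂⟩ = Q.q ⟨_, hmξ⟩ := by
      rw [hq₁ _ hm₂ hmξ]
      exact hT₁.fixes (F3b_zero 𝔓 Q hc hs hξ hmξ)
    have hsum : (Matrix.vecMul (fun b => (ξ :: l).sum * v₀ b) A.1) =
        Matrix.vecMul (fun b => ξ * v₀ b) A.1 + Matrix.vecMul (fun b => l.sum * v₀ b) A.1 := by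
      rw [← Matrix.add_vecMul]
      congr 1
      funext b
      rw [List.sum_cons, add_mul, Pi.add_apply]
    have hm : (Matrix.vecMul (fun b => (ξ :: l).sum * v₀ b) A.1) ∈ F := by
      rw [hsum]
      exact add_mem hmξ hm₁
    have hq : Q.q ⟨_, hm⟩ = Q.q ⟨_, hm₂⟩ + Q.q ⟨_, hm₁⟩ := by
      rw [hqξ, ← map_add]
      exact F3b_cast 𝔓 Q hm (add_mem hmξ hm₁) hsum
    refine ⟨T₀ * A₁, ?_, hm, T₂ ∘ₗ T₁, ?_, hG₂, fun v => (hiff₂ v).trans (hiff₁ v),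
      fun v h1 h2 => ?_, fun x => ?_⟩
    · rw [List.sum_cons]
      exact PGR.Le.add 𝔓 hξ hIn₁
    · rw [hq]
      exact hT₂.comp hfin hT₁ hw₁
    · have h3 := (hiff₂ v).1 h1
      rw [hq₂ v h1 h3, hq₁ v h3 h2, LinearMap.comp_apply]
    · rw [hV₂ x, hV₁ x, Submodule.map_comp]

theorem step_shear_F (hyp : Hyp m σ) {F : Submodule (Rh 𝔓) (Nx m Y σ → 𝔓.B)} (hF : Lat 𝔓 F)
    (Q : LQ 𝔓 F) {S : σ → Option J} {A : (Matrix (Nx m Y σ) (Nx m Y σ) 𝔓.B)ˣ}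
    (hG : Good 𝔓 F S A) {t : Option J} {y : Vx m} {lam : Q.L →ₗ[ZMod p] ZMod p} {w : Q.L}
    {T : Q.L →ₗ[ZMod p] Q.L} (hy : y ≠ bs m t) (hw : w ∈ VF 𝔓 Q S A y)
    (hlam : SuppAt (VF 𝔓 Q S A) lam (bs m t)) (hlw : ∀ g, lam (Q.ρ g w) = 0)
    (hT : IsShear Q.ρ lam w T) :
    ∃ A', Good 𝔓 F S A' ∧ ∀ x, VF 𝔓 Q S A' x = (VF 𝔓 Q S A x).map T := by
  obtain ⟨c, hcW, hc⟩ := exists_col 𝔓 hF Q hG t lam hlam
  obtain ⟨v, hvF, hvp, rfl⟩ := (mem_VF 𝔓 Q S A y w).1 hw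
  obtain ⟨g, hg⟩ := exists_smul_bs y
  have hgy : g⁻¹ • y = bs m (ty y) := by
    conv_lhs => rw [hg]
    rw [inv_smul_smul]
  set t' := ty y with ht'
  set v₀ : Nx m Y σ → 𝔓.B := fun b => 𝔓.u g⁻¹ * v b with hv₀
  have hv₀p : prj 𝔓 S (bs m t') v₀ = v₀ := by
    rw [← hgy, hv₀, prj_smul, hvp]
  have hv₀A : Matrix.vecMul v₀ A.1 = fun b => 𝔓.u g⁻¹ * Matrix.vecMul v A.1 b := by
    funext b
    rw [hv₀, Matrix.vecMul, Matrix.vecMul, dotProduct, dotProduct, Finset.mul_sum]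
    exact Finset.sum_congr rfl fun a _ => mul_assoc _ _ _
  have hv₀F : Matrix.vecMul v₀ A.1 ∈ F := by
    rw [hv₀A]
    exact u_smul_mem 𝔓 g⁻¹ hvF
  have hASS : A ∈ SS 𝔓.u Y σ := NN_le_SS 𝔓 hG.1
  have hInV : InV 𝔓 v₀ := (SS_InV 𝔓 hASS v₀).1 (hF.1 _ hv₀F)
  have hrow : RowW 𝔓 S t' v₀ := (prj_fix_iff 𝔓 S t' hInV).1 hv₀p
  have hq₀ : Q.q ⟨_, hv₀F⟩ = Q.ρ g⁻¹ (Q.q ⟨_, hvF⟩) := by
    rw [Q.ρ_q]
    exact F3b_cast 𝔓 Q _ _ hv₀A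
  have hs : 𝔓.Sm (∑ b, v₀ b * c b) := by
    obtain ⟨h1, h2⟩ := hc v₀ hv₀F
    rw [← PGR.red_eq_zero 𝔓 h1]
    ext k
    rw [h2 k, hq₀, ← rho_mul, hlw]
    simp
  -- the factors
  obtain ⟨l, hl, hl'⟩ : ∃ l : List 𝔓.B, l.sum = 𝔓.u g ∧ ∀ ξ ∈ l, 𝔓.In ξ ∧
      ∃ T ∈ NN 𝔓 Y σ, T.1 = 1 - Matrix.of fun a b => c a * ξ * v₀ b := by
    by_cases htt : t = t'
    · subst htt
      exact shear_lift_NN 𝔓 hyp S _ v₀ c hrow hcW hs g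
    · refine ⟨[𝔓.u g], by simp, fun ξ hξ => ?_⟩
      rw [List.mem_singleton] at hξ
      subst hξ
      exact ⟨𝔓.In_u g, shear_lift_off 𝔓 S htt v₀ c hrow hcW _⟩
  obtain ⟨A', -, hm, T', hT', hG', -, -, hV'⟩ := F3b_list 𝔓 hF Q hG hc hv₀F hs l hl'
  have hvv : (fun b => l.sum * v₀ b) = v := by
    funext b
    rw [hl, hv₀]
    change 𝔓.u g * (𝔓.u g⁻¹ * v b) = v b
    rw [← mul_assoc, ← map_mul, mul_inv_cancel, map_one, one_mul]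
  have hqq : Q.q ⟨_, hm⟩ = Q.q ⟨_, hvF⟩ := F3b_cast 𝔓 Q hm hvF (by rw [hvv])
  rw [hqq] at hT'
  have hTT : T' = T := hT'.uniq hT
  subst hTT
  exact ⟨A', hG', hV'⟩

end FP
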