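import Pool.Agent.Lib.MP_2d4659_gt.FP.F0b
import Pool.Agent.Lib.MP_2d4659_gt.FP.E2

/-! # Block matrices commute with the projections -/

set_option autoImplicit false
set_option linter.unusedSectionVars false
set_option linter.unusedVariables false

namespace FP

variable {J : Type} [DecidableEq J] [Fintype J] {m : J → ℕ} {Y σ : Type} [Fintype Y] [DecidableEq Y]
  [Fintype σ] [DecidableEq σ] {p : ℕ} [Fact p.Prime] (𝔓 : PGR p (Gp m))

/-- block matrices commute with the projections -/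
theorem BM_prj {S : σ → Option J} {t : Option J} {g : (Matrix (Nx m Y σ) (Nx m Y σ) 𝔓.B)ˣ}
    (hg : BM 𝔓 S t g) (x : Vx m) {v : Nx m Y σ → 𝔓.B} (hv : InV 𝔓 v) :
    prj 𝔓 S x (Matrix.vecMul v g.1) = Matrix.vecMul (prj 𝔓 S x v) g.1 := by
  classical
  obtain ⟨h1, h2, h3, h4, h5⟩ := hg
  have hδ : ∀ (u : Nx m Y σ → 𝔓.B) (b : Nx m Y σ), (∀ a, u a ≠ 0 → (blk S a ≠ t ∨ blk S b ≠ t)) →
      Matrix.vecMul u g.1 b = u b := by
    intro u b hu
    rw [Matrix.vecMul, dotProduct, Finset.sum_eq_single b]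
    · by_cases h : u b = 0
      · rw [h, zero_mul]
      · rw [h2 b b (hu b h), if_pos rfl, mul_one]
    · intro a _ hab
      by_cases h : u a = 0
      · rw [h, zero_mul]
      · rw [h2 a b (hu a h), if_neg hab, mul_zero]
    · intro h
      exact absurd (Finset.mem_univ b) h
  funext b
  by_cases hb : blk S b = ty x
  · rw [prj_apply 𝔓 S x _ b hb]
    by_cases ht : ty x = t
    · rw [Matrix.vecMul, Matrix.vecMul, dotProduct, dotProduct, map_sum]
      refine Finset.sum_congr rfl fun a _ => ?_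
      by_cases ha : blk S a = ty x
      · rw [prj_apply 𝔓 S x _ a ha]
        refine PGR.rs_mul_supp 𝔓 (H := HT m t) (fun q hq h hh => ?_) _ (h3 a b)
        rw [← ht] at hh
        exact (cs_mul hq).2 hh
      · rw [prj_apply_ne 𝔓 S x _ a ha, zero_mul]
        have hab : a ≠ b := by
          rintro rfl
          exact ha hb
        have hat : blk S a ≠ t := by
          rw [← ht]
          exact ha
        rw [h2 a b (Or.inl hat), if_neg hab, mul_zero, map_zero]
    · have hbt : blk S b ≠ t := by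
        rw [hb]
        exact ht
      rw [hδ v b (fun a _ => Or.inr hbt), hδ (prj 𝔓 S x v) b (fun a _ => Or.inr hbt),
        prj_apply 𝔓 S x _ b hb]
  · rw [prj_apply_ne 𝔓 S x _ b hb, hδ (prj 𝔓 S x v) b, prj_apply_ne 𝔓 S x _ b hb]
    intro a ha
    have ha' : blk S a = ty x := by
      by_contra h
      exact ha (prj_apply_ne 𝔓 S x _ a h)
    by_contra h
    push Not at h
    exact hb (h.2.trans (h.1.symm.trans ha'))

/-- the diagonal matrix with a group element at a free slot is in `NN` -/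
theorem slot_u (c : σ) (h : Gp m) : ∃ M ∈ NN 𝔓 Y σ,
    M.1 = Matrix.diagonal (Function.update (fun _ => 1) (Sum.inr c : Nx m Y σ) (𝔓.u h)) ∧
    M⁻¹.1 = Matrix.diagonal (Function.update (fun _ => 1) (Sum.inr c : Nx m Y σ) (𝔓.u h⁻¹)) := by
  classical
  have hd : ∀ (a : 𝔓.B) (q : Nx m Y σ), q ≠ Sum.inr c →
      Function.update (fun _ => (1 : 𝔓.B)) (Sum.inr c : Nx m Y σ) a q = 1 :=
    fun a q hq => Function.update_of_ne hq _ _
  have hs : ∀ (a : 𝔓.B),
      Function.update (fun _ => (1 : 𝔓.B)) (Sum.inr c : Nx m Y σ) a (Sum.inr c) = a :=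
    fun a => Function.update_self _ _ _
  have key : ∀ a b : 𝔓.B, a * b = 1 →
      Matrix.diagonal (Function.update (fun _ => (1 : 𝔓.B)) (Sum.inr c : Nx m Y σ) a) *
      Matrix.diagonal (Function.update (fun _ => (1 : 𝔓.B)) (Sum.inr c : Nx m Y σ) b) = 1 := by
    intro a b hab
    rw [Matrix.diagonal_mul_diagonal, ← Matrix.diagonal_one]
    congr 1
    funext q
    by_cases hq : q = Sum.inr c
    · subst hq
      rw [hs, hs, hab]
    · rw [hd _ _ hq, hd _ _ hq, mul_one]
  set M : (Matrix (Nx m Y σ) (Nx m Y σ) 𝔓.B)ˣ :=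
    ⟨Matrix.diagonal (Function.update (fun _ => (1 : 𝔓.B)) (Sum.inr c : Nx m Y σ) (𝔓.u h)),
      Matrix.diagonal (Function.update (fun _ => (1 : 𝔓.B)) (Sum.inr c : Nx m Y σ) (𝔓.u h⁻¹)),
      key _ _ (by rw [← map_mul, mul_inv_cancel, map_one]),
      key _ _ (by rw [← map_mul, inv_mul_cancel, map_one])⟩ with hM
  have hM1 : M.1 = Matrix.diagonal
      (Function.update (fun _ => (1 : 𝔓.B)) (Sum.inr c : Nx m Y σ) (𝔓.u h)) := rfl
  have hM2 : M⁻¹.1 = Matrix.diagonal
      (Function.update (fun _ => (1 : 𝔓.B)) (Sum.inr c : Nx m Y σ) (𝔓.u h⁻¹)) := rfl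
  have hIn0 : 𝔓.In (0 : 𝔓.B) := fun g => by rw [map_zero, norm_zero]; exact zero_le_one
  have hIn1 : 𝔓.In (1 : 𝔓.B) := by
    have := 𝔓.In_u 1
    rwa [map_one] at this
  have hInd : ∀ (k : Gp m) (i j : Nx m Y σ), 𝔓.In (Matrix.diagonal
      (Function.update (fun _ => (1 : 𝔓.B)) (Sum.inr c : Nx m Y σ) (𝔓.u k)) i j) := by
    intro k i j
    rcases eq_or_ne i j with hij | hij
    · subst hij
      rw [Matrix.diagonal_apply_eq]
      by_cases hq : i = Sum.inr c
      · subst hq
        rw [hs]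
        exact 𝔓.In_u k
      · rw [hd _ _ hq]
        exact hIn1
    · rw [Matrix.diagonal_apply_ne _ hij]
      exact hIn0
  refine ⟨M, Subgroup.subset_closure (Or.inl (Or.inl ⟨⟨?_, ?_⟩, ?_, ⟨_, hM1⟩, ?_⟩)), hM1, hM2⟩
  · intro i j
    rw [hM1]
    exact hInd h i j
  · intro i j
    rw [hM2]
    exact hInd h⁻¹ i j
  · rw [mem_SS_iff, hM1]
    refine ⟨fun a i => ?_, fun a y => ?_⟩
    · rcases eq_or_ne a (Sum.inl (Sum.inl i)) with ha | ha
      · subst ha
        rw [if_pos rfl, Matrix.diagonal_apply_eq, hd _ _ (by simp), one_mul]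
      · rw [if_neg ha, Matrix.diagonal_apply_ne _ ha, zero_mul]
    · rcases eq_or_ne a (Sum.inl (Sum.inr y)) with ha | ha
      · subst ha
        rw [if_pos rfl, Matrix.diagonal_apply_eq, hd _ _ (by simp)]
      · rw [if_neg ha, Matrix.diagonal_apply_ne _ ha]
  · intro D hD
    obtain ⟨d, d', k1, k2, k3, k4, k5⟩ := (mem_DD_iff 𝔓 D).1 hD
    have hcomm : D * M = M * D := by
      apply Units.ext
      rw [Units.val_mul, Units.val_mul, k1, hM1, Matrix.diagonal_mul_diagonal,
        Matrix.diagonal_mul_diagonal]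
      congr 1
      funext q
      by_cases hq : q = Sum.inr c
      · subst hq
        obtain ⟨a, ha⟩ := k5 c
        rw [hs, ha]
        exact 𝔓.sc_comm a _
      · rw [hd _ _ hq, mul_one, one_mul]
    have h1 : M⁻¹ * D * M * D⁻¹ = 1 := by
      rw [mul_assoc M⁻¹ D M, hcomm, ← mul_assoc, inv_mul_cancel, one_mul, mul_inv_cancel]
    rw [h1]
    exact one_mem _

end FP
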