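import Pool.Agent.Lib.MP_2d4659_gt.FP.E6
import Pool.Agent.Lib.MP_2d4659_gt.FP.F1b
import Pool.Agent.Lib.MP_2d4659_gt.FP.F2b
import Pool.Agent.Lib.MP_2d4659_gt.FP.F4a
import Pool.Agent.Lib.MP_2d4659_gt.FP.B4
import Pool.Agent.Lib.MP_2d4659_gt.FP.E7

/-!
# Lifting transfers

`v = class of ṽ A`, `ṽ ∈ W_t`; the column `w` of `exists_col` has `red (ṽ w) = 1`, so `ṽ w` is a unit of the
integral group ring of `HT t`; put `w' = w (ṽ w)⁻¹`.  `exists_comp` gives a slot `c`, `S c = t`, and a block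
matrix `g` with `ṽ g = e_c`, column `c` of `g` equal to `w'`.  If `x₁ = h₁ • bs t'` take
`A' = diag_c(h₁⁻¹) * g⁻¹ * A` and `S' = S` except `S' c = t'`.
-/

set_option autoImplicit false

namespace FP

variable {J : Type} [DecidableEq J] [Fintype J] {m : J → ℕ} {Y σ : Type} [Fintype Y] [DecidableEq Y]
  [Fintype σ] [DecidableEq σ] {p : ℕ} [Fact p.Prime] (𝔓 : PGR p (Gp m))

lemma F4_near (z : ℤ_[p]) : ‖(z : ℚ_[p]) - (((PadicInt.toZMod z).val : ℕ) : ℚ_[p])‖ < 1 := by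
  have h1 : PadicInt.toZMod (z - (((PadicInt.toZMod z).val : ℕ) : ℤ_[p])) = 0 := by
    rw [map_sub, map_natCast, ZMod.natCast_val, ZMod.cast_id, sub_self]
  have h2 : ‖((z - (((PadicInt.toZMod z).val : ℕ) : ℤ_[p]) : ℤ_[p]) : ℚ_[p])‖ < 1 :=
    (PGR.D2_toZMod_eq_zero _).1 h1
  rw [PadicInt.coe_sub, PadicInt.coe_natCast] at h2
  exact h2

/-- the class of a multiple by an integral element -/
lemma F4_mem {F : Submodule (Rh 𝔓) (Nx m Y σ → 𝔓.B)} (Q : LQ 𝔓 F) (w : F)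
    (M : Submodule (ZMod p) Q.L) (ξ : Rh 𝔓)
    (hM : ∀ g, (𝔓.red ξ.1).coeff g ≠ 0 → Q.ρ g (Q.q w) ∈ M) : Q.q (ξ • w) ∈ M := by
  classical
  set s := (𝔓.cf_fin_one ξ.1).toFinset with hs
  set n : Gp m → ℕ := fun g => (PadicInt.toZMod (⟨𝔓.cf g ξ.1, ξ.2 g⟩ : ℤ_[p])).val with hn
  have hsm : 𝔓.Sm (ξ.1 - ∑ g ∈ s, (n g) • 𝔓.u g) := by
    intro g
    have h1 : 𝔓.cf g (∑ g ∈ s, (n g) • 𝔓.u g) = if g ∈ s then (n g : ℚ_[p]) else 0 := by
      rw [map_sum, Finset.sum_congr rfl fun x _ => map_nsmul (𝔓.cf g) (n x) (𝔓.u x)]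
      simp only [E1_cf_u, nsmul_eq_mul, mul_ite, mul_one, mul_zero]
      rw [Finset.sum_ite_eq']
    rw [map_sub, h1]
    split_ifs with hg
    · exact F4_near (⟨𝔓.cf g ξ.1, ξ.2 g⟩ : ℤ_[p])
    · rw [sub_zero]
      by_contra hc
      push Not at hc
      exact hg ((Set.Finite.mem_toFinset _).2 hc)
  obtain ⟨c, hc, hc'⟩ := (𝔓.Sm_iff _).1 hsm
  have e : ξ = ∑ g ∈ s, (n g) • (⟨𝔓.u g, 𝔓.In_u g⟩ : Rh 𝔓) + p • (⟨c, hc⟩ : Rh 𝔓) := by
    apply Subtype.ext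
    have h1 : (∑ g ∈ s, (n g) • (⟨𝔓.u g, 𝔓.In_u g⟩ : Rh 𝔓) + p • (⟨c, hc⟩ : Rh 𝔓)).1 =
        ∑ g ∈ s, (n g) • 𝔓.u g + p • c := by
      rw [Subring.coe_add, AddSubmonoidClass.coe_finsetSum]
      rfl
    rw [h1, nsmul_eq_mul p c, ← hc']
    abel
  set θ : Rh 𝔓 →+ Q.L := Q.q.comp ((smulAddHom (Rh 𝔓) F).flip w) with hθ
  have hθa : ∀ a, θ a = Q.q (a • w) := fun a => rfl
  rw [← hθa, e, map_add, map_sum, map_nsmul]
  refine M.add_mem (M.sum_mem fun g hg => ?_) ?_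
  · rw [map_nsmul]
    refine nsmul_mem ?_ _
    have h1 : θ ⟨𝔓.u g, 𝔓.In_u g⟩ = Q.ρ g (Q.q w) := by
      rw [hθa, Q.ρ_q]
      rfl
    rw [h1]
    apply hM
    rw [𝔓.coeff_red ξ.2]
    intro h0
    have h2 := (PGR.D2_toZMod_eq_zero _).1 h0
    have h3 : 1 ≤ ‖𝔓.cf g ξ.1‖ := by
      have := (Set.Finite.mem_toFinset _).1 hg
      exact this
    have h4 : ‖𝔓.cf g ξ.1‖ < 1 := h2
    exact absurd h4 (not_lt.2 h3)
  · rw [← Nat.cast_smul_eq_nsmul (ZMod p), CharP.cast_eq_zero, zero_smul]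
    exact M.zero_mem

/-- units of the integral group ring of a stabiliser -/
lemma F4_unit {t : Option J} {s : 𝔓.B} (hI : 𝔓.In s) (hS : 𝔓.SuppIn (HS m t) s)
    (hr : 𝔓.red s = 1) :
    ∃ s' : 𝔓.B, 𝔓.In s' ∧ 𝔓.SuppIn (HS m t) s' ∧ s * s' = 1 ∧ s' * s = 1 ∧ 𝔓.red s' = 1 := by
  have hone : 𝔓.In (1 : 𝔓.B) := 𝔓.D2_In_one
  have hsm : 𝔓.Sm (1 - s) := by
    have h1 : 𝔓.In (1 - s) := by
      rw [sub_eq_add_neg]
      exact PGR.Le.add 𝔓 hone (PGR.Le.neg 𝔓 hI)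
    rw [← 𝔓.red_eq_zero h1, sub_eq_add_neg, 𝔓.red_add hone (PGR.Le.neg 𝔓 hI), 𝔓.red_neg hI, hr,
      𝔓.red_one, add_neg_cancel]
  obtain ⟨N, hN, h1, h2⟩ := 𝔓.neumann Unit (Matrix.of fun _ _ => (1 - s)) (fun _ _ g => hsm g)
  have h1' := congrFun (congrFun h1 ()) ()
  have h2' := congrFun (congrFun h2 ()) ()
  rw [Matrix.mul_apply, Finset.univ_unique, Finset.sum_singleton, Matrix.sub_apply, Matrix.add_apply,
    Matrix.one_apply_eq, Matrix.of_apply, sub_sub_cancel] at h1' h2'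
  set s' : 𝔓.B := 1 + N () () with hs'
  have hI' : 𝔓.In s' := PGR.Le.add 𝔓 hone (fun g => (hN () () g).le)
  have k1 : s * s' = 1 := h1'
  have k2 : s' * s = 1 := h2'
  have k3 : 𝔓.rs (HS m t) (s' * s) = 𝔓.rs (HS m t) s' * s :=
    𝔓.rs_mul_supp (H := HT m t) (fun g hg h hh => (HT m t).mul_mem hg hh) s' hS
  rw [k2, 𝔓.rs_eq_self (E7_supp_one 𝔓 t)] at k3
  have k4 : 𝔓.rs (HS m t) s' = s' := by
    calc 𝔓.rs (HS m t) s' = 𝔓.rs (HS m t) s' * (s * s') := by rw [k1, mul_one]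
      _ = s' := by rw [← mul_assoc, ← k3, one_mul]
  refine ⟨s', hI', ?_, k1, k2, ?_⟩
  · rw [← k4]
    exact 𝔓.rs_supp _ _
  · have := 𝔓.red_mul hI hI'
    rw [k1, hr, one_mul, 𝔓.red_one] at this
    exact this.symm

lemma F4_cf_one_red (g : Gp m) : (1 : MonoidAlgebra (ZMod p) (Gp m)).coeff g = if g = 1 then 1 else 0 := by
  classical
  rw [MonoidAlgebra.one_def, MonoidAlgebra.coeff_single, Finsupp.single_apply]
  simp only [eq_comm]

/-- right multiplication by a diagonal matrix with one non trivial entry -/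
lemma F4_vecMul_diag (c : σ) (x : 𝔓.B) (v : Nx m Y σ → 𝔓.B) (b : Nx m Y σ) :
    Matrix.vecMul v (Matrix.diagonal (Function.update (fun _ => 1) (Sum.inr c : Nx m Y σ) x)) b =
      if b = Sum.inr c then v b * x else v b := by
  rw [Matrix.vecMul_diagonal]
  split_ifs with h
  · subst h
    rw [Function.update_self]
  · rw [Function.update_of_ne h, mul_one]

/-- good frames and block matrices -/
lemma F4_block {F : Submodule (Rh 𝔓) (Nx m Y σ → 𝔓.B)} (hF : Lat 𝔓 F) (Q : LQ 𝔓 F)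
    {S : σ → Option J} {t : Option J} {A g : (Matrix (Nx m Y σ) (Nx m Y σ) 𝔓.B)ˣ}
    (hG : Good 𝔓 F S A) (hg : BM 𝔓 S t g) :
    Good 𝔓 F S (g⁻¹ * A) ∧ ∀ x, VF 𝔓 Q S (g⁻¹ * A) x = VF 𝔓 Q S A x := by
  obtain ⟨hA, hGs⟩ := hG
  have hgi := E7_BM_inv 𝔓 hg
  have hgN : g⁻¹ ∈ NN 𝔓 Y σ := BM_mem_NN 𝔓 S t hgi
  have hASS := NN_le_SS 𝔓 hA
  have hA1 : g⁻¹ * A ∈ NN 𝔓 Y σ := mul_mem hgN hA
  have hA1S := NN_le_SS 𝔓 hA1
  have e1 : ∀ v : Nx m Y σ → 𝔓.B, Matrix.vecMul v (g⁻¹ * A).1 =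
      Matrix.vecMul (Matrix.vecMul v g⁻¹.1) A.1 := by
    intro v
    rw [Units.val_mul, Matrix.vecMul_vecMul]
  refine ⟨⟨hA1, fun v x hv => ?_⟩, fun x => ?_⟩
  · have hvI : InV 𝔓 v := (SS_InV 𝔓 hA1S v).1 (hF.1 _ hv)
    rw [e1, ← BM_prj 𝔓 hgi x hvI]
    rw [e1] at hv
    exact hGs _ x hv
  · ext y
    rw [mem_VF, mem_VF]
    constructor
    · rintro ⟨v, hv, hx, rfl⟩
      have hvI : InV 𝔓 v := (SS_InV 𝔓 hA1S v).1 (hF.1 _ hv)
      refine ⟨Matrix.vecMul v g⁻¹.1, by rw [← e1]; exact hv, ?_, ?_⟩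
      · rw [BM_prj 𝔓 hgi x hvI, hx]
      · congr 1
        exact Subtype.ext (e1 v)
    · rintro ⟨v, hv, hx, rfl⟩
      have hvI : InV 𝔓 v := (SS_InV 𝔓 hASS v).1 (hF.1 _ hv)
      have e2 : Matrix.vecMul (Matrix.vecMul v g.1) (g⁻¹ * A).1 = Matrix.vecMul v A.1 := by
        rw [e1, Matrix.vecMul_vecMul v, g.mul_inv, Matrix.vecMul_one]
      refine ⟨Matrix.vecMul v g.1, by rw [e2]; exact hv, ?_, ?_⟩
      · rw [BM_prj 𝔓 hg x hvI, hx]
      · congr 1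
        exact Subtype.ext e2.symm

/-- the slot coordinates: everything after the change of coordinates which makes `v` a unit vector -/
lemma F4_core {F : Submodule (Rh 𝔓) (Nx m Y σ → 𝔓.B)} (Q : LQ 𝔓 F)
    {S : σ → Option J} {A : (Matrix (Nx m Y σ) (Nx m Y σ) 𝔓.B)ˣ}
    (hG : Good 𝔓 F S A) {t : Option J} {x₁ : Vx m} {lam : Q.L →ₗ[ZMod p] ZMod p}
    (hx₁ : ty x₁ ≠ t) (c : σ) (hc : S c = t)
    (he : Matrix.vecMul (Pi.single (Sum.inr c : Nx m Y σ) (1 : 𝔓.B)) A.1 ∈ F)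
    (hcol : ∀ (v : Nx m Y σ → 𝔓.B) (hv : Matrix.vecMul v A.1 ∈ F), 𝔓.In (v (Sum.inr c)) ∧
        ∀ g, (𝔓.red (v (Sum.inr c))).coeff g =
          lam (Q.ρ g⁻¹ (Q.q ⟨Matrix.vecMul v A.1, hv⟩))) :
    ∃ (S' : σ → Option J) (A' : (Matrix (Nx m Y σ) (Nx m Y σ) 𝔓.B)ˣ), Good 𝔓 F S' A' ∧
      ∀ x, VF 𝔓 Q S' A' x = transferV Q.ρ (VF 𝔓 Q S A) lam
        (Q.q ⟨Matrix.vecMul (Pi.single (Sum.inr c : Nx m Y σ) (1 : 𝔓.B)) A.1, he⟩) x₁ x := by
  classical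
  obtain ⟨hA, hGs⟩ := hG
  obtain ⟨h₁, hh₁⟩ := exists_smul_bs x₁
  obtain ⟨D, hDN, hD, hD'⟩ := slot_u (Y := Y) 𝔓 c h₁⁻¹
  rw [inv_inv] at hD'
  set ec : Nx m Y σ → 𝔓.B := Pi.single (Sum.inr c) 1 with hec
  set eF : F := ⟨Matrix.vecMul ec A.1, he⟩ with heF
  -- `v` with the entry at `c` deleted
  set del : (Nx m Y σ → 𝔓.B) → (Nx m Y σ → 𝔓.B) := fun v => Function.update v (Sum.inr c) 0 with hdel
  have hdc : ∀ v, del v (Sum.inr c) = 0 := fun v => Function.update_self _ _ _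
  have hdn : ∀ v b, b ≠ Sum.inr c → del v b = v b := fun v b hb => Function.update_of_ne hb _ _
  have hsplit : ∀ v : Nx m Y σ → 𝔓.B, v = del v + fun b => v (Sum.inr c) * ec b := by
    intro v
    funext b
    rw [Pi.add_apply]
    by_cases hb : b = Sum.inr c
    · subst hb
      rw [hdc, zero_add, hec, Pi.single_eq_same, mul_one]
    · rw [hdn v b hb, hec, Pi.single_eq_of_ne hb, mul_zero, add_zero]
  have hmul : ∀ (a : 𝔓.B), Matrix.vecMul (fun b => a * ec b) A.1 = fun b => a * eF.1 b := by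
    intro a
    funext b
    change (∑ q, (a * ec q) * A.1 q b) = a * ∑ q, ec q * A.1 q b
    rw [Finset.mul_sum]
    exact Finset.sum_congr rfl fun q _ => mul_assoc _ _ _
  have hsplitA : ∀ v : Nx m Y σ → 𝔓.B, Matrix.vecMul v A.1 = Matrix.vecMul (del v) A.1 +
      fun b => v (Sum.inr c) * eF.1 b := by
    intro v
    conv_lhs => rw [hsplit v, Matrix.add_vecMul, hmul]
  have hmulF : ∀ a : 𝔓.B, 𝔓.In a → (fun b => a * eF.1 b) ∈ F := fun a ha =>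
    F.smul_mem (⟨a, ha⟩ : Rh 𝔓) eF.2
  have hdelF : ∀ v : Nx m Y σ → 𝔓.B, 𝔓.In (v (Sum.inr c)) →
      (Matrix.vecMul v A.1 ∈ F ↔ Matrix.vecMul (del v) A.1 ∈ F) := by
    intro v hv
    rw [hsplitA v]
    constructor
    · intro h
      have := F.sub_mem h (hmulF _ hv)
      rwa [add_sub_cancel_right] at this
    · intro h
      exact F.add_mem h (hmulF _ hv)
  -- the new data
  set S' : σ → Option J := Function.update S c (ty x₁) with hS'
  have hbc : blk S' (Sum.inr c : Nx m Y σ) = ty x₁ := Function.update_self _ _ _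
  have hbn : ∀ b : Nx m Y σ, b ≠ Sum.inr c → blk S' b = blk S b := by
    rintro ((i | y) | c') hb
    · rfl
    · rfl
    · exact Function.update_of_ne (fun h => hb (by rw [h])) _ _
  have hDv : ∀ (v : Nx m Y σ → 𝔓.B) b, Matrix.vecMul v D.1 b =
      if b = Sum.inr c then v b * 𝔓.u h₁⁻¹ else v b := by
    intro v b
    rw [hD, F4_vecMul_diag]
  have hDc : ∀ v : Nx m Y σ → 𝔓.B, Matrix.vecMul v D.1 (Sum.inr c) = v (Sum.inr c) * 𝔓.u h₁⁻¹ := by
    intro v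
    rw [hDv, if_pos rfl]
  have hDdel : ∀ v : Nx m Y σ → 𝔓.B, del (Matrix.vecMul v D.1) = del v := by
    intro v
    funext b
    by_cases hb : b = Sum.inr c
    · subst hb
      rw [hdc, hdc]
    · rw [hdn _ _ hb, hdn _ _ hb, hDv, if_neg hb]
  have eA' : ∀ v : Nx m Y σ → 𝔓.B, Matrix.vecMul v (D * A).1 =
      Matrix.vecMul (Matrix.vecMul v D.1) A.1 := by
    intro v
    rw [Units.val_mul, Matrix.vecMul_vecMul]
  have eA2 : ∀ v : Nx m Y σ → 𝔓.B, Matrix.vecMul v (D * A).1 = Matrix.vecMul (del v) A.1 +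
      fun b => (v (Sum.inr c) * 𝔓.u h₁⁻¹) * eF.1 b := by
    intro v
    rw [eA', hsplitA, hDdel, hDc]
  have huu : 𝔓.u h₁⁻¹ * 𝔓.u h₁ = 1 := by rw [← map_mul, inv_mul_cancel, map_one]
  have huu' : 𝔓.u h₁ * 𝔓.u h₁⁻¹ = 1 := by rw [← map_mul, mul_inv_cancel, map_one]
  have hIn : ∀ v : Nx m Y σ → 𝔓.B, Matrix.vecMul v (D * A).1 ∈ F → 𝔓.In (v (Sum.inr c)) := by
    intro v hv
    rw [eA'] at hv
    have h1 := (hcol _ hv).1
    rw [hDc] at h1
    have h2 := PGR.In.mul 𝔓 h1 (𝔓.In_u h₁)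
    rwa [mul_assoc, huu, mul_one] at h2
  have hdel2 : ∀ v : Nx m Y σ → 𝔓.B, Matrix.vecMul v (D * A).1 ∈ F →
      Matrix.vecMul (del v) A.1 ∈ F := by
    intro v hv
    have h1 := hIn v hv
    rw [eA2] at hv
    have := F.sub_mem hv (hmulF _ (PGR.In.mul 𝔓 h1 (𝔓.In_u h₁⁻¹)))
    rwa [add_sub_cancel_right] at this
  -- projections
  have hprj : ∀ (x : Vx m) (v : Nx m Y σ → 𝔓.B), del (prj 𝔓 S' x v) = prj 𝔓 S x (del v) := by
    intro x v
    funext b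
    by_cases hb : b = Sum.inr c
    · subst hb
      rw [hdc]
      by_cases h : blk S (Sum.inr c : Nx m Y σ) = ty x
      · rw [prj_apply 𝔓 S x _ _ h, hdc, map_zero]
      · rw [prj_apply_ne 𝔓 S x _ _ h]
    · rw [hdn _ _ hb]
      by_cases h : blk S b = ty x
      · rw [prj_apply 𝔓 S x _ _ h, prj_apply 𝔓 S' x _ _ (by rw [hbn b hb, h]), hdn _ _ hb]
      · rw [prj_apply_ne 𝔓 S x _ _ h, prj_apply_ne 𝔓 S' x _ _ (by rw [hbn b hb]; exact h)]
  have hprjc : ∀ (x : Vx m) (v : Nx m Y σ → 𝔓.B), 𝔓.In (v (Sum.inr c)) →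
      𝔓.In (prj 𝔓 S' x v (Sum.inr c)) := by
    intro x v hv
    by_cases h : blk S' (Sum.inr c : Nx m Y σ) = ty x
    · rw [prj_apply 𝔓 S' x _ _ h]
      exact 𝔓.rs_Le zero_le_one _ hv
    · rw [prj_apply_ne 𝔓 S' x _ _ h]
      intro g
      rw [map_zero, norm_zero]
      exact zero_le_one
  have hdelprj : ∀ (x : Vx m) (v : Nx m Y σ → 𝔓.B), Matrix.vecMul v (D * A).1 ∈ F →
      Matrix.vecMul (prj 𝔓 S' x v) (D * A).1 ∈ F := by
    intro x v hv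
    rw [eA2, hprj]
    exact F.add_mem (hGs _ x (hdel2 v hv))
      (hmulF _ (PGR.In.mul 𝔓 (hprjc x v (hIn v hv)) (𝔓.In_u h₁⁻¹)))
  refine ⟨S', D * A, ⟨mul_mem hDN hA, fun v x hv => hdelprj x v hv⟩, fun x => ?_⟩
  -- the pieces
  have hcoef : ∀ v : Nx m Y σ → 𝔓.B, ∀ hv : Matrix.vecMul v A.1 ∈ F, 𝔓.red (v (Sum.inr c)) = 0 ↔
      ∀ h, lam (Q.ρ h (Q.q ⟨Matrix.vecMul v A.1, hv⟩)) = 0 := by
    intro v hv
    constructor
    · intro h0 h
      have := (hcol v hv).2 h⁻¹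
      rw [h0, inv_inv, MonoidAlgebra.coeff_zero, Finsupp.zero_apply] at this
      exact this.symm
    · intro h0
      ext g
      rw [(hcol v hv).2, h0, MonoidAlgebra.coeff_zero, Finsupp.zero_apply]
  apply le_antisymm
  · rintro y ⟨v, hv, hvx, rfl⟩
    have hvI := hIn v hv
    have hd := hdel2 v hv
    have hm := hmulF _ (PGR.In.mul 𝔓 hvI (𝔓.In_u h₁⁻¹))
    have e3 : (⟨Matrix.vecMul v (D * A).1, hv⟩ : F) = ⟨Matrix.vecMul (del v) A.1, hd⟩ +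
        (⟨v (Sum.inr c) * 𝔓.u h₁⁻¹, PGR.In.mul 𝔓 hvI (𝔓.In_u h₁⁻¹)⟩ : Rh 𝔓) • eF :=
      Subtype.ext (eA2 v)
    rw [e3, map_add]
    refine Submodule.add_mem_sup ?_ ?_
    · refine Submodule.mem_inf.2 ⟨?_, ?_⟩
      · refine ⟨del v, hd, ?_, rfl⟩
        rw [← hprj, hvx]
      · rw [B4_mem_inf]
        apply (hcoef _ hd).1
        rw [hdc, 𝔓.D2_red_zero]
    · refine F4_mem 𝔓 Q eF _ _ fun g hg => Submodule.subset_span ⟨g, ?_, rfl⟩
      -- `g • x₁ = x`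
      have hI2 := PGR.In.mul 𝔓 hvI (𝔓.In_u h₁⁻¹)
      rw [𝔓.coeff_red hI2] at hg
      have h1 : 𝔓.cf g (v (Sum.inr c) * 𝔓.u h₁⁻¹) ≠ 0 := by
        intro h0
        apply hg
        refine (PGR.D2_toZMod_eq_zero _).2 ?_
        change ‖𝔓.cf g (v (Sum.inr c) * 𝔓.u h₁⁻¹)‖ < 1
        rw [h0, norm_zero]
        exact zero_lt_one
      rw [𝔓.cf_mul_u, inv_inv] at h1
      by_cases h : blk S' (Sum.inr c : Nx m Y σ) = ty x
      · have h2 : v (Sum.inr c) = 𝔓.rs (cs x) (v (Sum.inr c)) := by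
          conv_lhs => rw [← hvx]
          rw [prj_apply 𝔓 S' x _ _ h]
        have h3 : g * h₁ ∈ cs x := by
          by_contra h4
          apply h1
          rw [h2]
          exact 𝔓.rs_supp _ _ _ h4
        have h4 := (mem_cs x _).1 h3
        rw [← h, hbc, mul_smul, ← hh₁] at h4
        exact h4
      · exfalso
        apply h1
        have h2 : v (Sum.inr c) = 0 := by
          rw [← hvx]
          exact prj_apply_ne 𝔓 S' x _ _ h
        rw [h2, map_zero]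
  · refine sup_le ?_ ?_
    · rintro y hy
      obtain ⟨hy1, hy2⟩ := Submodule.mem_inf.1 hy
      rw [B4_mem_inf] at hy2
      obtain ⟨v, hv, hvx, rfl⟩ := hy1
      have hvI := (hcol v hv).1
      have hr := (hcoef v hv).2 hy2
      have hsm := (𝔓.red_eq_zero hvI).1 hr
      obtain ⟨z, hz, hz'⟩ := (𝔓.Sm_iff _).1 hsm
      have hd := (hdelF v hvI).1 hv
      have e4 : Matrix.vecMul (del v) (D * A).1 = Matrix.vecMul (del v) A.1 := by
        rw [eA2, hdc, zero_mul]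
        have h1 : del (del v) = del v := by
          funext b
          by_cases hb : b = Sum.inr c
          · subst hb
            rw [hdc, hdc]
          · rw [hdn _ _ hb]
        rw [h1]
        funext b
        rw [Pi.add_apply, zero_mul, add_zero]
      refine ⟨del v, by rw [e4]; exact hd, ?_, ?_⟩
      · funext b
        by_cases hb : b = Sum.inr c
        · subst hb
          by_cases h : blk S' (Sum.inr c : Nx m Y σ) = ty x
          · rw [prj_apply 𝔓 S' x _ _ h, hdc, map_zero]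
          · rw [prj_apply_ne 𝔓 S' x _ _ h, hdc]
        · have h5 : prj 𝔓 S' x (del v) b = del (prj 𝔓 S' x (del v)) b := (hdn _ _ hb).symm
          rw [h5, hprj]
          have h6 : del (del v) = del v := by
            funext b
            by_cases hb : b = Sum.inr c
            · subst hb
              rw [hdc, hdc]
            · rw [hdn _ _ hb]
          rw [h6]
          have h7 : prj 𝔓 S x (del v) b = prj 𝔓 S x v b := by
            by_cases h : blk S b = ty x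
            · rw [prj_apply 𝔓 S x _ _ h, prj_apply 𝔓 S x _ _ h, hdn _ _ hb]
            · rw [prj_apply_ne 𝔓 S x _ _ h, prj_apply_ne 𝔓 S x _ _ h]
          rw [h7, hvx, hdn _ _ hb]
      · have e5 : (⟨Matrix.vecMul v A.1, hv⟩ : F) = ⟨Matrix.vecMul (del v) A.1, hd⟩ +
            (⟨v (Sum.inr c), hvI⟩ : Rh 𝔓) • eF := Subtype.ext (hsplitA v)
        have e6 : Q.q ((⟨v (Sum.inr c), hvI⟩ : Rh 𝔓) • eF) = 0 := by
          rw [Q.q_ker]
          refine ⟨fun b => z * eF.1 b, hmulF _ hz, ?_⟩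
          funext b
          change v (Sum.inr c) * eF.1 b = (p • fun b => z * eF.1 b) b
          rw [Pi.smul_apply, nsmul_eq_mul, ← mul_assoc, ← hz']
        rw [e5, map_add, e6, add_zero]
        congr 1
        exact Subtype.ext e4.symm
    · rw [Submodule.span_le]
      rintro _ ⟨h, hh, rfl⟩
      have htx : ty x = ty x₁ := by rw [← hh, ty_smul]
      set v : Nx m Y σ → 𝔓.B := fun b => 𝔓.u (h * h₁) * ec b with hv
      have hvc : v (Sum.inr c) = 𝔓.u (h * h₁) := by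
        rw [hv]
        change 𝔓.u (h * h₁) * ec (Sum.inr c) = _
        rw [hec, Pi.single_eq_same, mul_one]
      have hvn : ∀ b, b ≠ Sum.inr c → v b = 0 := by
        intro b hb
        rw [hv]
        change 𝔓.u (h * h₁) * ec b = _
        rw [hec, Pi.single_eq_of_ne hb, mul_zero]
      have e7 : Matrix.vecMul v (D * A).1 = fun b => 𝔓.u h * eF.1 b := by
        rw [eA2, hvc]
        have h1 : del v = 0 := by
          funext b
          by_cases hb : b = Sum.inr c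
          · subst hb
            rw [hdc]
            rfl
          · rw [hdn _ _ hb, hvn _ hb]
            rfl
        rw [h1, Matrix.zero_vecMul, zero_add, map_mul, mul_assoc, huu', mul_one]
      refine ⟨v, by rw [e7]; exact hmulF _ (𝔓.In_u h), ?_, ?_⟩
      · funext b
        by_cases hb : b = Sum.inr c
        · subst hb
          rw [prj_apply 𝔓 S' x _ _ (by rw [hbc, htx])]
          apply 𝔓.rs_eq_self
          intro g hg
          rw [hvc, E1_cf_u, if_neg]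
          rintro rfl
          apply hg
          rw [mem_cs, htx, mul_smul, ← hh₁]
          exact hh
        · by_cases h' : blk S' b = ty x
          · rw [prj_apply 𝔓 S' x _ _ h', hvn _ hb, map_zero]
          · rw [prj_apply_ne 𝔓 S' x _ _ h', hvn _ hb]
      · rw [Q.ρ_q]
        congr 1
        exact Subtype.ext e7.symm

theorem step_transfer_F {F : Submodule (Rh 𝔓) (Nx m Y σ → 𝔓.B)} (hF : Lat 𝔓 F)
    (Q : LQ 𝔓 F) {S : σ → Option J} {A : (Matrix (Nx m Y σ) (Nx m Y σ) 𝔓.B)ˣ}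
    (hG : Good 𝔓 F S A) {t : Option J} {x₁ : Vx m} {lam : Q.L →ₗ[ZMod p] ZMod p} {v : Q.L}
    (hx₁ : ty x₁ ≠ t) (hv : v ∈ VF 𝔓 Q S A (bs m t))
    (hlam : SuppAt (VF 𝔓 Q S A) lam (bs m t)) (h1 : lam v = 1)
    (h2 : ∀ g : Gp m, g • bs m t = bs m t → g ≠ 1 → lam (Q.ρ g v) = 0) :
    ∃ (S' : σ → Option J) (A' : (Matrix (Nx m Y σ) (Nx m Y σ) 𝔓.B)ˣ), Good 𝔓 F S' A' ∧
      ∀ x, VF 𝔓 Q S' A' x = transferV Q.ρ (VF 𝔓 Q S A) lam v x₁ x := by
  classical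
  have hASS := NN_le_SS 𝔓 hG.1
  obtain ⟨w, hwC, hw⟩ := exists_col 𝔓 hF Q hG t lam hlam
  obtain ⟨vt, hvF, hvp, hvq⟩ := hv
  have hvInV : InV 𝔓 vt := (SS_InV 𝔓 hASS vt).1 (hF.1 _ hvF)
  have hvR : RowW 𝔓 S t vt := (prj_fix_iff 𝔓 S t hvInV).1 hvp
  set s : 𝔓.B := ∑ b, vt b * w b with hs
  have hsI : 𝔓.In s := (hw vt hvF).1
  have hsS : 𝔓.SuppIn (HS m t) s :=
    E1_SuppIn_sum 𝔓 _ _ fun b _ => PGR.SuppIn.mul 𝔓 (H := HT m t) (hvR.2.1 b) (hwC.2.1 b)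
  have hred : 𝔓.red s = 1 := by
    ext g
    rw [F4_cf_one_red]
    by_cases hg : g ∈ HT m t
    · rw [(hw vt hvF).2 g, ← hvq]
      split_ifs with h
      · subst h
        rw [inv_one, map_one]
        exact h1
      · exact h2 g⁻¹ ((stab_bs _ _).2 (inv_mem hg)) (fun h' => h (inv_eq_one.1 h'))
    · have hne : g ≠ 1 := by
        rintro rfl
        exact hg (one_mem _)
      rw [if_neg hne, 𝔓.coeff_red hsI]
      refine (PGR.D2_toZMod_eq_zero _).2 ?_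
      change ‖𝔓.cf g s‖ < 1
      rw [hsS g hg, norm_zero]
      exact zero_lt_one
  obtain ⟨s', hs'I, hs'S, hss, hss', hred'⟩ := F4_unit 𝔓 hsI hsS hred
  have hsum : ∀ u : Nx m Y σ → 𝔓.B, ∑ b, u b * (w b * s') = (∑ b, u b * w b) * s' := by
    intro u
    rw [Finset.sum_mul]
    exact Finset.sum_congr rfl fun b _ => (mul_assoc _ _ _).symm
  have hw' : ColW 𝔓 S t (fun b => w b * s') := by
    refine ⟨fun b hb => ?_, fun b => PGR.SuppIn.mul 𝔓 (H := HT m t) (hwC.2.1 b) hs'S, fun i => ?_,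
      fun y => ?_⟩
    · change w b * s' = 0
      rw [hwC.1 b hb, zero_mul]
    · change NB 𝔓.u i * (w _ * s') = 0
      rw [← mul_assoc, hwC.2.2.1 i, zero_mul]
    · change w _ * s' = 0
      rw [hwC.2.2.2 y, zero_mul]
  obtain ⟨c, hc, g, hg, hg1, hg2⟩ := exists_comp 𝔓 S t vt (fun b => w b * s') hvR hw'
    (by rw [hsum, ← hs, hss])
  obtain ⟨hG1, hV1⟩ := F4_block 𝔓 hF Q hG hg
  have e1 : ∀ v : Nx m Y σ → 𝔓.B, Matrix.vecMul v (g⁻¹ * A).1 =
      Matrix.vecMul (Matrix.vecMul v g⁻¹.1) A.1 := by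
    intro v
    rw [Units.val_mul, Matrix.vecMul_vecMul]
  have e2 : Matrix.vecMul (Pi.single (Sum.inr c : Nx m Y σ) (1 : 𝔓.B)) (g⁻¹ * A).1 =
      Matrix.vecMul vt A.1 := by
    rw [e1, ← hg1, Matrix.vecMul_vecMul vt, g.mul_inv, Matrix.vecMul_one]
  have he : Matrix.vecMul (Pi.single (Sum.inr c : Nx m Y σ) (1 : 𝔓.B)) (g⁻¹ * A).1 ∈ F := by
    rw [e2]
    exact hvF
  have hcol : ∀ (v : Nx m Y σ → 𝔓.B) (hv : Matrix.vecMul v (g⁻¹ * A).1 ∈ F), 𝔓.In (v (Sum.inr c)) ∧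
        ∀ h, (𝔓.red (v (Sum.inr c))).coeff h =
          lam (Q.ρ h⁻¹ (Q.q ⟨Matrix.vecMul v (g⁻¹ * A).1, hv⟩)) := by
    intro v hv
    have hv2 : Matrix.vecMul (Matrix.vecMul v g⁻¹.1) A.1 ∈ F := by
      rw [← e1]
      exact hv
    have e3 : v (Sum.inr c) = (∑ b, (Matrix.vecMul v g⁻¹.1) b * w b) * s' := by
      have h3 : Matrix.vecMul (Matrix.vecMul v g⁻¹.1) g.1 (Sum.inr c) = v (Sum.inr c) := by
        rw [Matrix.vecMul_vecMul, g.inv_mul, Matrix.vecMul_one]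
      rw [← h3, ← hsum]
      change ∑ b, (Matrix.vecMul v g⁻¹.1) b * g.1 b (Sum.inr c) = _
      exact Finset.sum_congr rfl fun b _ => by rw [hg2]
    obtain ⟨k1, k2⟩ := hw _ hv2
    refine ⟨by rw [e3]; exact PGR.In.mul 𝔓 k1 hs'I, fun h => ?_⟩
    rw [e3, 𝔓.red_mul k1 hs'I, hred', mul_one, k2]
    congr 3
    exact Subtype.ext (e1 v).symm
  obtain ⟨S', A', hG', hV'⟩ := F4_core 𝔓 Q hG1 hx₁ c hc he hcol
  refine ⟨S', A', hG', fun x => ?_⟩
  rw [hV' x]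
  have e4 : (Q.q ⟨Matrix.vecMul (Pi.single (Sum.inr c : Nx m Y σ) (1 : 𝔓.B)) (g⁻¹ * A).1, he⟩) = v := by
    rw [hvq]
    congr 1
    exact Subtype.ext e2
  rw [e4, show VF 𝔓 Q S (g⁻¹ * A) = VF 𝔓 Q S A from funext hV1]

end FP
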