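import Pool.Agent.Lib.MP_2d4659_gt.FP.F1b

/-! # The next lattice -/

set_option autoImplicit false

namespace FP

variable {J : Type} [DecidableEq J] [Fintype J] {m : J → ℕ} {Y σ : Type} [Fintype Y] [DecidableEq Y]
  [Fintype σ] [DecidableEq σ] {p : ℕ} [Fact p.Prime] (𝔓 : PGR p (Gp m))

/-- there is no `p`-torsion -/
lemma F5a_tf {a : 𝔓.B} (h : (p : ℕ) • a = 0) : a = 0 := by
  refine 𝔓.cf_inj a fun g => ?_
  have h1 : 𝔓.cf g ((p : 𝔓.B) * a) = 0 := by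
    rw [← nsmul_eq_mul, h, map_zero]
  rw [𝔓.cf_p_mul] at h1
  have h2 : (p : ℚ_[p]) ≠ 0 := by
    exact_mod_cast (Fact.out : p.Prime).ne_zero
  exact (mul_eq_zero.mp h1).resolve_left h2

lemma F5a_tfv {v w : Nx m Y σ → 𝔓.B} (h : (p : ℕ) • v = (p : ℕ) • w) : v = w := by
  refine sub_eq_zero.mp ?_
  funext b
  refine F5a_tf 𝔓 ?_
  have h1 : ((p : ℕ) • v) b = ((p : ℕ) • w) b := by rw [h]
  rw [Pi.smul_apply, Pi.smul_apply] at h1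
  rw [Pi.sub_apply, smul_sub, h1, sub_self]

lemma F5a_InV {v : Nx m Y σ → 𝔓.B} (h : InV 𝔓 ((p : ℕ) • v)) : InV 𝔓 v := by
  refine ⟨fun i => F5a_tf 𝔓 ?_, fun y => F5a_tf 𝔓 (h.2 y)⟩
  have h1 := h.1 i
  rw [Pi.smul_apply, smul_mul_assoc] at h1
  exact h1

lemma F5a_vecMul_nsmul (k : ℕ) (v : Nx m Y σ → 𝔓.B) (M : Matrix (Nx m Y σ) (Nx m Y σ) 𝔓.B) :
    Matrix.vecMul (k • v) M = k • Matrix.vecMul v M := by
  induction k with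
  | zero => rw [zero_smul, zero_smul, Matrix.zero_vecMul]
  | succ k ih => rw [succ_nsmul, succ_nsmul, Matrix.add_vecMul, ih]

lemma F5a_vecMul_sum {ι : Type} (s : Finset ι) (f : ι → Nx m Y σ → 𝔓.B)
    (M : Matrix (Nx m Y σ) (Nx m Y σ) 𝔓.B) :
    Matrix.vecMul (∑ i ∈ s, f i) M = ∑ i ∈ s, Matrix.vecMul (f i) M := by
  classical
  induction s using Finset.induction_on with
  | empty => rw [Finset.sum_empty, Finset.sum_empty, Matrix.zero_vecMul]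
  | insert a s ha ih => rw [Finset.sum_insert ha, Finset.sum_insert ha, Matrix.add_vecMul, ih]

lemma F5a_mem_Fn {F : Submodule (Rh 𝔓) (Nx m Y σ → 𝔓.B)}
    {θ : (Matrix (Nx m Y σ) (Nx m Y σ) 𝔓.B)ˣ} (v : Nx m Y σ → 𝔓.B) :
    v ∈ Fn 𝔓 F θ ↔ (p : ℕ) • v ∈ F ∧ v ∈ Jt 𝔓 θ := Iff.rfl

/-- if the kernel of `f` is the direct sum of its intersections with the pieces (from `WP` with `R = 0`)
then the frame is compatible with the next lattice -/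
theorem Good_next {F : Submodule (Rh 𝔓) (Nx m Y σ → 𝔓.B)} (hF : Lat 𝔓 F) (Q : LQ 𝔓 F)
    {S : σ → Option J} {A : (Matrix (Nx m Y σ) (Nx m Y σ) 𝔓.B)ˣ} (hG : Good 𝔓 F S A)
    {θ : (Matrix (Nx m Y σ) (Nx m Y σ) 𝔓.B)ˣ} (hθ : F ≤ Jt 𝔓 θ)
    {f : Q.L →ₗ[ZMod p] (Gp m →₀ (Nx m Y σ → ZMod p))}
    (hf : ∀ v : F, f (Q.q v) = 0 ↔ ∃ w ∈ Jt 𝔓 θ, v.1 = (p : ℕ) • w)
    (hker : ∀ z : Vx m →₀ Q.L, (∀ x, z x ∈ VF 𝔓 Q S A x) → f (z.sum fun _ a => a) = 0 →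
      ∀ x, f (z x) = 0) :
    Good 𝔓 (Fn 𝔓 F θ) S A := by
  classical
  refine ⟨hG.1, fun v x hv => ?_⟩
  obtain ⟨hv1, hv2⟩ := (F5a_mem_Fn 𝔓 _).1 hv
  have hA : A ∈ SS 𝔓.u Y σ := NN_le_SS 𝔓 hG.1
  have hpv : Matrix.vecMul ((p : ℕ) • v) A.1 ∈ F := by
    rw [F5a_vecMul_nsmul]
    exact hv1
  have hInV : InV 𝔓 v := F5a_InV 𝔓 ((SS_InV 𝔓 hA _).1 (hF.1 _ hpv))
  have hmem : ∀ x, Matrix.vecMul (prj 𝔓 S x ((p : ℕ) • v)) A.1 ∈ F := fun x => hG.2 _ x hpv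
  have hprj : ∀ x, Matrix.vecMul (prj 𝔓 S x ((p : ℕ) • v)) A.1 =
      (p : ℕ) • Matrix.vecMul (prj 𝔓 S x v) A.1 := by
    intro x
    rw [map_nsmul, F5a_vecMul_nsmul]
  have hF' : Lat 𝔓 (F.comap (mulM 𝔓 A.1)) := Lat.comap 𝔓 hF hA
  obtain ⟨ε, hε, hsm⟩ := Lat.small 𝔓 hF'
  obtain ⟨s, hs1, hs2⟩ := prj_approx 𝔓 S hInV ε hε
  -- the finitely supported family of classes
  obtain ⟨z, hz⟩ : ∃ z : Vx m →₀ Q.L, ∀ x, z x = Q.q ⟨_, hmem x⟩ := by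
    refine ⟨Finsupp.onFinset s (fun x => Q.q ⟨_, hmem x⟩) fun x hx => ?_, fun x => rfl⟩
    by_contra hxs
    refine hx ((Q.q_ker _).2 ⟨Matrix.vecMul (prj 𝔓 S x v) A.1, ?_, hprj x⟩)
    exact hsm _ (prj_InV 𝔓 S x hInV) (hs1 x hxs)
  have hzsupp : z.support ⊆ s := by
    intro x hx
    by_contra hxs
    rw [Finsupp.mem_support_iff, hz] at hx
    refine hx ((Q.q_ker _).2 ⟨Matrix.vecMul (prj 𝔓 S x v) A.1, ?_, hprj x⟩)
    exact hsm _ (prj_InV 𝔓 S x hInV) (hs1 x hxs)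
  have hsum : (z.sum fun _ a => a) = Q.q ⟨_, hpv⟩ := by
    rw [Finsupp.sum_of_support_subset z hzsupp _ (fun _ _ => rfl)]
    rw [Finset.sum_congr rfl fun x _ => hz x, ← map_sum]
    have h1 : InV 𝔓 (v - ∑ x ∈ s, prj 𝔓 S x v) := by
      have h3 : ∀ t : Finset (Vx m), InV 𝔓 (∑ x ∈ t, prj 𝔓 S x v) := by
        intro t
        induction t using Finset.induction_on with
        | empty =>
          rw [Finset.sum_empty]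
          exact ⟨fun i => by rw [Pi.zero_apply, zero_mul], fun y => rfl⟩
        | insert a t ha ih =>
          rw [Finset.sum_insert ha]
          have h4 := prj_InV 𝔓 S a hInV
          refine ⟨fun i => ?_, fun y => ?_⟩
          · rw [Pi.add_apply, add_mul, h4.1, ih.1, add_zero]
          · rw [Pi.add_apply, h4.2, ih.2, add_zero]
      have h4 := h3 s
      refine ⟨fun i => ?_, fun y => ?_⟩
      · rw [Pi.sub_apply, sub_mul, hInV.1, h4.1, sub_zero]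
      · rw [Pi.sub_apply, hInV.2, h4.2, sub_zero]
    have h2 : Matrix.vecMul (v - ∑ x ∈ s, prj 𝔓 S x v) A.1 ∈ F :=
      hsm _ h1 (hs2 s (Finset.Subset.refl s))
    rw [eq_comm, ← sub_eq_zero, ← map_sub, Q.q_ker]
    refine ⟨_, h2, ?_⟩
    rw [AddSubgroupClass.coe_sub, AddSubmonoidClass.coe_finsetSum]
    change Matrix.vecMul ((p : ℕ) • v) A.1 -
      ∑ x ∈ s, Matrix.vecMul (prj 𝔓 S x ((p : ℕ) • v)) A.1 = _
    rw [Finset.sum_congr rfl fun x _ => hprj x, F5a_vecMul_nsmul, ← Finset.smul_sum,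
      ← smul_sub, Matrix.sub_vecMul, F5a_vecMul_sum]
  have hzV : ∀ x, z x ∈ VF 𝔓 Q S A x := by
    intro x
    rw [mem_VF]
    exact ⟨_, hmem x, prj_prj 𝔓 S x _, hz x⟩
  have hfz : f (z.sum fun _ a => a) = 0 := by
    rw [hsum, hf]
    exact ⟨_, hv2, F5a_vecMul_nsmul 𝔓 _ _ _⟩
  have h1 := hker z hzV hfz x
  rw [hz, hf] at h1
  obtain ⟨w, hw, hw2⟩ := h1
  have h2 : w = Matrix.vecMul (prj 𝔓 S x v) A.1 := by
    refine F5a_tfv 𝔓 ?_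
    rw [← hprj x]
    exact hw2.symm
  refine (F5a_mem_Fn 𝔓 _).2 ⟨?_, ?_⟩
  · rw [← hprj x]
    exact hmem x
  · rw [← h2]
    exact hw

theorem Fn_Lat {F : Submodule (Rh 𝔓) (Nx m Y σ → 𝔓.B)} (hF : Lat 𝔓 F)
    {θ : (Matrix (Nx m Y σ) (Nx m Y σ) 𝔓.B)ˣ} (hθS : θ ∈ SS 𝔓.u Y σ) (hθ : F ≤ Jt 𝔓 θ) :
    Lat 𝔓 (Fn 𝔓 F θ) ∧ Fn 𝔓 F θ ≤ Jt 𝔓 θ := by
  have h1 := Jt_Lat 𝔓 hθS (Y := Y) (σ := σ)
  have h2 : Fn 𝔓 F θ ≤ Jt 𝔓 θ := inf_le_right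
  refine ⟨⟨fun v hv => h1.1 v (h2 hv), ?_, ?_⟩, h2⟩
  · obtain ⟨a1, ha1⟩ := hF.2.1
    obtain ⟨a2, ha2⟩ := h1.2.1
    refine ⟨a1 + a2, fun v hv => (F5a_mem_Fn 𝔓 _).2 ⟨?_, ?_⟩⟩
    · have h3 := F.nsmul_mem (ha1 v hv) (p * p ^ a2)
      rw [← mul_smul] at h3
      rw [← mul_smul]
      have h4 : p * p ^ a2 * p ^ a1 = p * p ^ (a1 + a2) := by ring
      rw [h4] at h3
      exact h3
    · have h3 := (Jt 𝔓 θ).nsmul_mem (ha2 v hv) (p ^ a1)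
      rw [← mul_smul] at h3
      rw [pow_add]
      exact h3
  · obtain ⟨b, hb⟩ := h1.2.2
    exact ⟨b, fun v hv => hb v (h2 hv)⟩

end FP
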