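import Pool.Agent.Lib.MP_2d4659_gt.FP.A4
import Pool.Agent.Lib.MP_2d4659_gt.FP.B10
import Pool.Agent.Lib.MP_2d4659_gt.FP.F3b
import Pool.Agent.Lib.MP_2d4659_gt.FP.F4
import Pool.Agent.Lib.MP_2d4659_gt.FP.F5a

/-! # The chain of lattices -/

set_option autoImplicit false

namespace FP

variable {J : Type} [DecidableEq J] [Fintype J] {m : J → ℕ} {Y σ : Type} [Fintype Y] [DecidableEq Y]
  [Fintype σ] [DecidableEq σ] {p : ℕ} [Fact p.Prime] (𝔓 : PGR p (Gp m))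

theorem chain_step [Nonempty J] (hm : ∀ j, m j ≠ 1) (hyp : Hyp m σ)
    {F : Submodule (Rh 𝔓) (Nx m Y σ → 𝔓.B)} (hF : Lat 𝔓 F)
    {S : σ → Option J} {A : (Matrix (Nx m Y σ) (Nx m Y σ) 𝔓.B)ˣ} (hG : Good 𝔓 F S A)
    {θ : (Matrix (Nx m Y σ) (Nx m Y σ) 𝔓.B)ˣ} (hθS : θ ∈ SS 𝔓.u Y σ) (hθ : F ≤ Jt 𝔓 θ) :
    ∃ S' A', Good 𝔓 (Fn 𝔓 F θ) S' A' := by
  classical
  obtain ⟨Q⟩ := exists_LQ 𝔓 F
  obtain ⟨f, hf, hker⟩ := exists_fF 𝔓 Q hθ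
  have hb := tree_b m hm
  obtain ⟨V, hs, hV, hW⟩ := process (tree m hm) hf (VF_frame 𝔓 hF Q hG)
  have key : ∃ (S' : σ → Option J) (A' : (Matrix (Nx m Y σ) (Nx m Y σ) 𝔓.B)ˣ),
      Good 𝔓 F S' A' ∧ V = VF 𝔓 Q S' A' := by
    clear hV hW
    induction hs with
    | refl => exact ⟨S, A, hG, rfl⟩
    | tail _ hstep ih =>
      obtain ⟨S₁, A₁, hG₁, rfl⟩ := ih
      cases hstep with
      | shear t y lam w T hy hw hlam hlw hT hV' =>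
        rw [hb] at hy hlam
        obtain ⟨A', hA', hh⟩ := step_shear_F 𝔓 hyp hF Q hG₁ hy hw hlam hlw hT
        exact ⟨S₁, A', hA', funext fun x => (hV' x).trans (hh x).symm⟩
      | transfer t x₁ lam v hadj hv hlam h1 h2 hV' =>
        have hty : ty x₁ ≠ t := by
          obtain ⟨g, hg⟩ := exists_smul_bs x₁
          intro h
          rw [h] at hg
          have := TreeD.type_ne (tree m hm) (s := t) (t := t) (g := g) (by rw [hb] at hadj ⊢; rw [← hg]; exact hadj)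
          exact this rfl
        rw [hb] at hv hlam
        simp only [hb] at h2
        obtain ⟨S', A', hA', hh⟩ := step_transfer_F 𝔓 hF Q hG₁ hty hv hlam h1 h2
        exact ⟨S', A', hA', funext fun x => (hV' x).trans (hh x).symm⟩
  obtain ⟨S', A', hG', rfl⟩ := key
  refine ⟨S', A', Good_next 𝔓 hF Q hG' hθ hker ?_⟩
  intro z hz h0 x
  ext1 g
  exact hW (bs m none) 0 z hz (fun g _ => by rw [h0, Finsupp.zero_apply]) x g (Nat.zero_le _)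

/-- the first lattice `p ^ N Jh` -/
def F5_start (Y σ : Type) [Fintype Y] [DecidableEq Y] [Fintype σ] [DecidableEq σ] (N : ℕ) :
    Submodule (Rh 𝔓) (Nx m Y σ → 𝔓.B) :=
  (Jh 𝔓 Y σ).map ((p ^ N : ℕ) • (LinearMap.id : (Nx m Y σ → 𝔓.B) →ₗ[Rh 𝔓] (Nx m Y σ → 𝔓.B)))

lemma F5_mem_start (N : ℕ) (v : Nx m Y σ → 𝔓.B) :
    v ∈ F5_start 𝔓 Y σ N ↔ ∃ w ∈ Jh 𝔓 Y σ, v = (p ^ N : ℕ) • w := by
  unfold F5_start
  rw [Submodule.mem_map]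
  constructor
  · rintro ⟨w, hw, rfl⟩
    exact ⟨w, hw, rfl⟩
  · rintro ⟨w, hw, rfl⟩
    exact ⟨w, hw, rfl⟩

lemma F5_start_le (N : ℕ) : F5_start 𝔓 Y σ N ≤ Jh 𝔓 Y σ := by
  intro v hv
  obtain ⟨w, hw, rfl⟩ := (F5_mem_start 𝔓 N v).1 hv
  exact (Jh 𝔓 Y σ).nsmul_mem hw _

lemma F5_start_Lat (N : ℕ) : Lat 𝔓 (F5_start 𝔓 Y σ N) := by
  refine ⟨fun v hv => (F5_start_le 𝔓 N hv).1, ⟨N, fun v hv => ?_⟩, ⟨0, fun v hv => ?_⟩⟩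
  · exact (F5_mem_start 𝔓 N _).2 ⟨v, hv, rfl⟩
  · rw [pow_zero, one_smul]
    exact F5_start_le 𝔓 N hv

lemma F5_start_Good (N : ℕ) :
    Good 𝔓 (F5_start 𝔓 Y σ N) (fun _ => none) (1 : (Matrix (Nx m Y σ) (Nx m Y σ) 𝔓.B)ˣ) := by
  refine ⟨one_mem _, fun v x hv => ?_⟩
  rw [Units.val_one, Matrix.vecMul_one] at hv ⊢
  obtain ⟨w, hw, rfl⟩ := (F5_mem_start 𝔓 N v).1 hv
  refine (F5_mem_start 𝔓 N _).2 ⟨prj 𝔓 (fun _ => none) x w, ⟨prj_InV 𝔓 _ x hw.1, fun b => ?_⟩, ?_⟩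
  · exact prj_Le 𝔓 _ x zero_le_one hw.2 b
  · exact map_nsmul _ _ _

/-- Iterating: the frame for `Jh θ`.  Choose `N`, `M` with `p^N Jh ≤ Jh θ`, `p^M Jh θ ≤ p^N Jh`; start with
`F₀ = p^N Jh` (good with `S = fun _ => none`, `A = 1`) and put `F_{k+1} = Fn F_k θ`; then
`F_k = {v ∈ Jh θ | p^k v ∈ F₀}`, so `F_M = Jh θ`. -/
theorem exists_Good [Nonempty J] (hm : ∀ j, m j ≠ 1) (hyp : Hyp m σ)
    {θ : (Matrix (Nx m Y σ) (Nx m Y σ) 𝔓.B)ˣ} (hθS : θ ∈ SS 𝔓.u Y σ) :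
    ∃ S A, Good 𝔓 (Jt 𝔓 θ) S A := by
  classical
  have hJt := Jt_Lat 𝔓 hθS (Y := Y) (σ := σ)
  obtain ⟨N, hN⟩ := hJt.2.1
  obtain ⟨M, hM⟩ := hJt.2.2
  have key : ∀ k : ℕ, ∃ F : Submodule (Rh 𝔓) (Nx m Y σ → 𝔓.B), Lat 𝔓 F ∧ F ≤ Jt 𝔓 θ ∧
      (∃ (S : σ → Option J) (A : (Matrix (Nx m Y σ) (Nx m Y σ) 𝔓.B)ˣ), Good 𝔓 F S A) ∧
      ∀ v ∈ Jt 𝔓 θ, (p ^ k : ℕ) • v ∈ F5_start 𝔓 Y σ N → v ∈ F := by
    intro k
    induction k with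
    | zero =>
      refine ⟨F5_start 𝔓 Y σ N, F5_start_Lat 𝔓 N, ?_, ⟨fun _ => none, 1, F5_start_Good 𝔓 N⟩, ?_⟩
      · intro v hv
        obtain ⟨w, hw, rfl⟩ := (F5_mem_start 𝔓 N v).1 hv
        exact hN w hw
      · intro v _ hv
        rwa [pow_zero, one_smul] at hv
    | succ k ih =>
      obtain ⟨F, hF, hle, ⟨S, A, hG⟩, hk⟩ := ih
      obtain ⟨S', A', hG'⟩ := chain_step 𝔓 hm hyp hF hG hθS hle
      have h2 := Fn_Lat 𝔓 hF hθS hle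
      refine ⟨Fn 𝔓 F θ, h2.1, h2.2, ⟨S', A', hG'⟩, fun v hv hv2 => ?_⟩
      refine (F5a_mem_Fn 𝔓 v).2 ⟨hk _ ((Jt 𝔓 θ).nsmul_mem hv p) ?_, hv⟩
      rw [smul_smul, ← pow_succ]
      exact hv2
  obtain ⟨F, _, hle, ⟨S, A, hG⟩, hk⟩ := key (N + M)
  have hFeq : F = Jt 𝔓 θ := by
    refine le_antisymm hle fun v hv => hk v hv ((F5_mem_start 𝔓 N _).2 ⟨(p ^ M : ℕ) • v, hM v hv, ?_⟩)
    rw [smul_smul, ← pow_add]
  rw [hFeq] at hG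
  exact ⟨S, A, hG⟩

end FP
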