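import Pool.Agent.Lib.MP_2d4659_gt.FP.E1

/-!
# The retractions to the finite subgroups, and lattices over the `p`-adic integers
-/

set_option autoImplicit false

namespace FP

variable {J : Type} [DecidableEq J] [Fintype J] {m : J → ℕ} {Y σ : Type} [Fintype Y] [DecidableEq Y]
  [Fintype σ] [DecidableEq σ] {p : ℕ} [Fact p.Prime] (𝔓 : PGR p (Gp m))

/-- the retraction -/
theorem exists_ret (m : J → ℕ) (t : Option J) : ∃ φ : Gp m →* HT m t, (∀ h : HT m t, φ h = h) ∧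
    ∀ t' : Option J, t' ≠ t → ∀ h ∈ HT m t', φ h = 1 := by
  by_cases ht : ∃ j, t = some j ∧ m j ≠ 0
  · obtain ⟨j, rfl, hj⟩ := ht
    have hmem : ∀ a : Multiplicative (ZMod (m j)),
        Monoid.CoprodI.of (M := fun j => Multiplicative (ZMod (m j))) (i := j) a ∈ HT m (some j) := by
      intro a
      change _ ∈ HJ m j
      rw [Gdefs_HJ_ne hj]
      exact ⟨a, rfl⟩
    obtain ⟨f, hf1, hf2⟩ : ∃ f : ∀ i, Multiplicative (ZMod (m i)) →* HT m (some j),
        (∀ a, ((f j a : HT m (some j)) : Gp m) =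
          Monoid.CoprodI.of (M := fun j => Multiplicative (ZMod (m j))) (i := j) a) ∧
        ∀ i, i ≠ j → f i = 1 := by
      refine ⟨fun i => if h : i = j then
        h ▸ ((Monoid.CoprodI.of (M := fun j => Multiplicative (ZMod (m j))) (i := j)).codRestrict
          (HT m (some j)) hmem) else 1, ?_, ?_⟩
      · intro a
        simp
      · intro i hi
        simp only [dif_neg hi]
    refine ⟨Monoid.CoprodI.lift f, ?_, ?_⟩
    · rintro ⟨h, hh⟩
      have hh' : h ∈ HJ m j := hh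
      rw [Gdefs_HJ_ne hj] at hh'
      obtain ⟨a, rfl⟩ := hh'
      refine Subtype.ext ?_
      rw [Monoid.CoprodI.lift_of, hf1]
    · intro t' ht' h hh
      cases t' with
      | none =>
        have hh' : h ∈ (⊥ : Subgroup (Gp m)) := hh
        rw [Subgroup.mem_bot] at hh'
        rw [hh', map_one]
      | some i =>
        have hi : i ≠ j := fun e => ht' (by rw [e])
        have hh' : h ∈ HJ m i := hh
        by_cases hi0 : m i = 0
        · rw [Gdefs_HJ_zero hi0, Subgroup.mem_bot] at hh'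
          rw [hh', map_one]
        · rw [Gdefs_HJ_ne hi0] at hh'
          obtain ⟨a, rfl⟩ := hh'
          rw [Monoid.CoprodI.lift_of, hf2 i hi, MonoidHom.one_apply]
  · have hbot : HT m t = ⊥ := by
      cases t with
      | none => rfl
      | some j =>
        change HJ m j = ⊥
        refine Gdefs_HJ_zero ?_
        by_contra h
        exact ht ⟨j, rfl, h⟩
    refine ⟨1, ?_, fun t' _ h _ => rfl⟩
    rintro ⟨h, hh⟩
    refine Subtype.ext ?_
    have hh' : h = 1 := by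
      rw [hbot, Subgroup.mem_bot] at hh
      exact hh
    change (1 : Gp m) = h
    exact hh'.symm

/-- the inclusion of the group algebra of the finite subgroup -/
noncomputable def F6b_phi (t : Option J) : MonoidAlgebra ℚ_[p] (HT m t) →+* 𝔓.B :=
  𝔓.emb.comp (MonoidAlgebra.mapDomainRingHom ℚ_[p] (HT m t).subtype)

lemma F6b_cf_phi (t : Option J) (z : MonoidAlgebra ℚ_[p] (HT m t)) (h : HT m t) :
    𝔓.cf (h : Gp m) (F6b_phi 𝔓 t z) = z.coeff h := by
  change 𝔓.cf (h : Gp m) (𝔓.emb (MonoidAlgebra.mapDomain _ _)) = _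
  rw [𝔓.cf_emb]
  exact Finsupp.mapDomain_apply Subtype.val_injective _ _

lemma F6b_phi_supp (t : Option J) (z : MonoidAlgebra ℚ_[p] (HT m t)) :
    𝔓.SuppIn (HS m t) (F6b_phi 𝔓 t z) := by
  intro g hg
  change 𝔓.cf g (𝔓.emb (MonoidAlgebra.mapDomain _ _)) = _
  rw [𝔓.cf_emb]
  refine Finsupp.mapDomain_of_notMem_range _ _ ?_
  rintro ⟨h, rfl⟩
  exact hg h.2

lemma F6b_phi_single (t : Option J) (h : HT m t) :
    F6b_phi 𝔓 t (MonoidAlgebra.single h 1) = 𝔓.u (h : Gp m) := by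
  change 𝔓.emb (MonoidAlgebra.mapDomain _ _) = _
  rw [MonoidAlgebra.mapDomain_single]
  rfl

/-- the retraction of the completed group ring: `pr φ` followed by the inclusion -/
theorem exists_pt (t : Option J) : ∃ π : 𝔓.B →+* 𝔓.B, (∀ b, 𝔓.SuppIn (HS m t) (π b)) ∧
    (∀ b, 𝔓.SuppIn (HS m t) b → π b = b) ∧ (∀ (r : ℝ) (b : 𝔓.B), 𝔓.Le r b → 𝔓.Le r (π b)) ∧
    (∀ g : Gp m, ∃ h ∈ HT m t, π (𝔓.u g) = 𝔓.u h) ∧
    ∀ t' : Option J, t' ≠ t → ∀ h ∈ HT m t', π (𝔓.u h) = 1 := by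
  classical
  obtain ⟨φ, hφ1, hφ2⟩ := exists_ret m t
  have hfin := HT_finite (m := m) t
  have hfin' : Finite (HS m t) := hfin
  have hu : ∀ g : Gp m, (F6b_phi 𝔓 t).comp (𝔓.pr φ) (𝔓.u g) = 𝔓.u (φ g : Gp m) := by
    intro g
    change F6b_phi 𝔓 t (𝔓.pr φ (𝔓.emb (MonoidAlgebra.single g 1))) = _
    rw [𝔓.pr_emb]
    change F6b_phi 𝔓 t (MonoidAlgebra.mapDomain _ _) = _
    rw [MonoidAlgebra.mapDomain_single, F6b_phi_single]
  refine ⟨(F6b_phi 𝔓 t).comp (𝔓.pr φ), fun b => F6b_phi_supp 𝔓 t _, ?_, ?_, ?_, ?_⟩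
  · intro b hb
    obtain ⟨x, rfl⟩ := 𝔓.emb_of_supp (Set.toFinite (HS m t)) hb
    have hx : ∀ g ∈ x.coeff.support, g ∈ HT m t := by
      intro g hg
      by_contra h
      have h1 := hb g h
      rw [𝔓.cf_emb] at h1
      exact (Finsupp.mem_support_iff.1 hg) h1
    have h2 : x = ∑ g ∈ x.coeff.support, MonoidAlgebra.single g (x.coeff g) := by
      have h3 := MonoidAlgebra.sum_coeff_single x
      exact h3.symm
    rw [h2, map_sum, map_sum]
    refine Finset.sum_congr rfl fun g hg => ?_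
    change 𝔓.emb (MonoidAlgebra.mapDomain _ (𝔓.pr φ (𝔓.emb _))) = _
    rw [𝔓.pr_emb]
    change 𝔓.emb (MonoidAlgebra.mapDomain _ (MonoidAlgebra.mapDomain _ _)) = _
    rw [MonoidAlgebra.mapDomain_single, MonoidAlgebra.mapDomain_single]
    have h4 := hφ1 ⟨g, hx g hg⟩
    have h5 : φ g = ⟨g, hx g hg⟩ := h4
    rw [h5]
    rfl
  · intro r b hb g
    by_cases hg : g ∈ HT m t
    · have h1 := F6b_cf_phi 𝔓 t (𝔓.pr φ b) ⟨g, hg⟩
      change ‖𝔓.cf g (F6b_phi 𝔓 t (𝔓.pr φ b))‖ ≤ r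
      rw [show 𝔓.cf g (F6b_phi 𝔓 t (𝔓.pr φ b)) = _ from h1]
      exact 𝔓.pr_le φ b r hb _
    · change ‖𝔓.cf g (F6b_phi 𝔓 t (𝔓.pr φ b))‖ ≤ r
      rw [F6b_phi_supp 𝔓 t (𝔓.pr φ b) g hg, norm_zero]
      exact (norm_nonneg _).trans (hb g)
  · intro g
    exact ⟨(φ g : Gp m), (φ g).2, hu g⟩
  · intro t' ht' h hh
    rw [hu h, hφ2 t' ht' h hh]
    exact map_one 𝔓.u

/-- a lattice over the `p`-adic integers has a basis -/
theorem lattice_basis {τ : Type} [Fintype τ] [DecidableEq τ] (L : Submodule ℤ_[p] (τ → ℚ_[p]))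
    (a b : ℕ) (h1 : ∀ x : τ → ℚ_[p], (∀ c, ‖x c‖ ≤ 1) → ((p : ℚ_[p]) ^ a) • x ∈ L)
    (h2 : ∀ x ∈ L, ∀ c, ‖(p : ℚ_[p]) ^ b * x c‖ ≤ 1) :
    ∃ M : (Matrix τ τ ℚ_[p])ˣ, ∀ x : τ → ℚ_[p], x ∈ L ↔ ∀ c, ‖Matrix.vecMul x M⁻¹.1 c‖ ≤ 1 := by
  have hp : (p : ℚ_[p]) ≠ 0 := by
    exact_mod_cast (Fact.out : p.Prime).ne_zero
  have hsm : ∀ (z : ℤ_[p]) (x : τ → ℚ_[p]), z • x = (z : ℚ_[p]) • x := fun z x => rfl
  -- the module is finitely generated
  let ι : (τ → ℤ_[p]) →ₗ[ℤ_[p]] (τ → ℚ_[p]) :=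
    { toFun := fun x c => ((p : ℚ_[p]) ^ b)⁻¹ * (x c : ℚ_[p])
      map_add' := by
        intro x y
        funext c
        simp [mul_add]
      map_smul' := by
        intro z x
        funext c
        rw [hsm]
        simp only [Pi.smul_apply, smul_eq_mul, RingHom.id_apply, PadicInt.coe_mul]
        ring }
  have hle : L ≤ LinearMap.range ι := by
    intro x hx
    refine ⟨fun c => ⟨(p : ℚ_[p]) ^ b * x c, h2 x hx c⟩, ?_⟩
    funext c
    change ((p : ℚ_[p]) ^ b)⁻¹ * ((p : ℚ_[p]) ^ b * x c) = x c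
    rw [inv_mul_cancel_left₀ (pow_ne_zero b hp)]
  have hfg : L.FG := by
    have hN : IsNoetherian ℤ_[p] (LinearMap.range ι) := isNoetherian_of_isNoetherianRing_of_finite _ _
    have : IsNoetherian ℤ_[p] L := isNoetherian_of_le hle
    rw [← Module.Finite.iff_fg]
    infer_instance
  have hspan : Submodule.span ℚ_[p] (L : Set (τ → ℚ_[p])) = ⊤ := by
    rw [eq_top_iff, ← (Pi.basisFun ℚ_[p] τ).span_eq, Submodule.span_le]
    rintro _ ⟨c, rfl⟩
    have h3 : ((p : ℚ_[p]) ^ a) • (Pi.basisFun ℚ_[p] τ c) ∈ L := by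
      refine h1 _ fun c' => ?_
      rw [Pi.basisFun_apply, Pi.single_apply]
      split_ifs
      · rw [norm_one]
      · rw [norm_zero]
        exact zero_le_one
    have h4 : Pi.basisFun ℚ_[p] τ c = (((p : ℚ_[p]) ^ a)⁻¹) • (((p : ℚ_[p]) ^ a) •
        (Pi.basisFun ℚ_[p] τ c)) := by
      rw [smul_smul, inv_mul_cancel₀ (pow_ne_zero a hp), one_smul]
    rw [h4]
    exact Submodule.smul_mem _ _ (Submodule.subset_span h3)
  have hlat : Submodule.IsLattice ℚ_[p] L := ⟨hfg, hspan⟩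
  have hfree : Module.Free ℤ_[p] L := Submodule.IsLattice.free ℚ_[p] L
  let bb := Module.Free.chooseBasis ℤ_[p] L
  let B' := bb.extendOfIsLattice ℚ_[p]
  have hcard : Fintype.card (Module.Free.ChooseBasisIndex ℤ_[p] L) = Fintype.card τ := by
    rw [← Module.finrank_eq_card_basis B', Module.finrank_pi]
  let e := Fintype.equivOfCardEq hcard
  let B2 := B'.reindex e
  have hB2 : ∀ c, B2 c = (bb (e.symm c) : τ → ℚ_[p]) := by
    intro c
    change (B'.reindex e) c = _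
    rw [Module.Basis.reindex_apply]
    exact Module.Basis.extendOfIsLattice_apply ℚ_[p] bb _
  let P := (Pi.basisFun ℚ_[p] τ).toMatrix B2
  let Q := B2.toMatrix (Pi.basisFun ℚ_[p] τ)
  have hPQ : P * Q = 1 := Module.Basis.toMatrix_mul_toMatrix_flip _ _
  have hQP : Q * P = 1 := Module.Basis.toMatrix_mul_toMatrix_flip _ _
  refine ⟨⟨P.transpose, Q.transpose, ?_, ?_⟩, ?_⟩
  · rw [← Matrix.transpose_mul, hQP, Matrix.transpose_one]
  · rw [← Matrix.transpose_mul, hPQ, Matrix.transpose_one]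
  · intro x
    have h5 : ∀ c, Matrix.vecMul x Q.transpose c = B2.repr x c := by
      intro c
      rw [Matrix.vecMul_transpose]
      have h6 := Module.Basis.toMatrix_mulVec_repr (Pi.basisFun ℚ_[p] τ) B2 x
      have h7 : ((Pi.basisFun ℚ_[p] τ).repr x : τ → ℚ_[p]) = x := by
        funext c
        exact Pi.basisFun_repr _ _ _ _
      rw [h7] at h6
      exact congrFun h6 c
    change x ∈ L ↔ ∀ c, ‖Matrix.vecMul x Q.transpose c‖ ≤ 1
    constructor
    · intro hx c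
      rw [h5]
      have h8 : x = ∑ c, ((bb.repr ⟨x, hx⟩ (e.symm c) : ℤ_[p]) : ℚ_[p]) • B2 c := by
        have h9 := congrArg (fun y : L => (y : τ → ℚ_[p])) (bb.sum_repr ⟨x, hx⟩)
        simp only [Submodule.coe_sum, Submodule.coe_smul] at h9
        conv_lhs => rw [← h9]
        rw [← Equiv.sum_comp e.symm]
        refine Finset.sum_congr rfl fun c _ => ?_
        rw [hB2, hsm]
      have h10 : B2.repr x c = ((bb.repr ⟨x, hx⟩ (e.symm c) : ℤ_[p]) : ℚ_[p]) := by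
        conv_lhs => rw [h8]
        rw [Module.Basis.repr_sum_self]
      rw [h10]
      exact PadicInt.norm_le_one _
    · intro hx
      rw [← B2.sum_repr x]
      refine Submodule.sum_mem _ fun c _ => ?_
      have h11 : ‖B2.repr x c‖ ≤ 1 := by
        rw [← h5]
        exact hx c
      rw [hB2]
      exact L.smul_mem (⟨B2.repr x c, h11⟩ : ℤ_[p]) (bb (e.symm c)).2

end FP
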