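import Pool.Agent.Lib.MP_2d4659_gt.FP.F6a
import Pool.Agent.Lib.MP_2d4659_gt.FP.F6b
import Pool.Agent.Lib.MP_2d4659_gt.FP.F4a
import Pool.Agent.Lib.MP_2d4659_gt.FP.E7

/-!
# The pieces of a good lattice `Jh θ` are isomorphic to the standard ones

Let `F₀ = Jh θ` be stable under all `prj S x`.  Let `π` be the retraction `exists_pt` applied to the
entries, `Z = AZ t`, `σ' = {c | S c ≠ t}`, `r` the cardinality of `σ'`, and `P = π (F₀)`.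

(1) `π (Jh) = LM Jh (fun _ => t) t` (an entry `x` with `x N_l = 0` is `y (a_l - 1)`, so `π x = 0` for `some l ≠ t`),
and `P = π (Jh) π (θ)` with `π (θ)` invertible, so `P ≃ LM Jh (fun _ => t) t ≃ (LM Jh S t) × Z^r`.

(2) Let `L ⊆ ℚ_p^σ'` be the `ℤ_p`-module spanned by the vectors `π (v)`, `v ∈ LM F₀ S t'`, `t' ≠ t` (the entries of
`π (v)` are scalars, and the entry at the index of `t'` is zero).  It is a lattice (it contains the
`p^a e_c`).  Then `P = (LM F₀ S t) ⊕ Z L`: (⊇) is clear; (⊆): `v ∈ F₀` is the sum of finitely many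
`prj x v` and of a small element `w` (`prj_approx`); if `x = g • bs t'` then `prj x v = u g v'` with
`v' ∈ LM F₀ S t'`; and `π w` is so small that its part in the block `t` is in `F₀` and its entries at
`c ∈ σ'` are in `p^a Z`.  By `lattice_basis`, `Z L = Z^r M`, `M` an invertible matrix over `ℚ_p`; so
`P ≃ (LM F₀ S t) × Z^r`.

(3) `cancel_free` gives `LM Jh S t ≃ LM F₀ S t`; `ext_iso`.
-/

set_option autoImplicit false
set_option linter.unusedSectionVars false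

namespace FP

variable {J : Type} [DecidableEq J] [Fintype J] {m : J → ℕ} {Y σ : Type} [Fintype Y] [DecidableEq Y]
  [Fintype σ] [DecidableEq σ] {p : ℕ} [Fact p.Prime] (𝔓 : PGR p (Gp m))

/-- the properties of the retraction -/
structure F6_Pi (t : Option J) (π : 𝔓.B →+* 𝔓.B) : Prop where
  supp : ∀ b, 𝔓.SuppIn (HS m t) (π b)
  fix : ∀ b, 𝔓.SuppIn (HS m t) b → π b = b
  le : ∀ (r : ℝ) (b : 𝔓.B), 𝔓.Le r b → 𝔓.Le r (π b)
  grp : ∀ g : Gp m, ∃ h ∈ HT m t, π (𝔓.u g) = 𝔓.u h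
  oth : ∀ t' : Option J, t' ≠ t → ∀ h ∈ HT m t', π (𝔓.u h) = 1

lemma F6_supp_sc (t : Option J) (a : ℚ_[p]) : 𝔓.SuppIn (HS m t) (𝔓.sc a) := by
  intro g hg
  have h1 : 𝔓.sc a = 𝔓.sc a * 1 := (mul_one _).symm
  rw [h1, 𝔓.cf_sc_mul, E4_supp_one 𝔓 t g hg, mul_zero]

lemma F6_cf_sc (a : ℚ_[p]) (g : Gp m) [Decidable (g = 1)] : 𝔓.cf g (𝔓.sc a) = if g = 1 then a else 0 := by
  classical
  have h1 : 𝔓.sc a = 𝔓.sc a * 𝔓.u 1 := by rw [map_one, mul_one]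
  rw [h1, 𝔓.cf_sc_mul, E1_cf_u]
  by_cases h : g = 1
  · rw [if_pos h, if_pos h.symm, mul_one]
  · rw [if_neg h, if_neg (fun h' => h h'.symm), mul_zero]

section basic

variable {𝔓} {t : Option J} {π : 𝔓.B →+* 𝔓.B} (hπ : F6_Pi 𝔓 t π)
include hπ

lemma F6_Pi.sc (a : ℚ_[p]) : π (𝔓.sc a) = 𝔓.sc a := hπ.fix _ (F6_supp_sc 𝔓 t a)

lemma F6_Pi.In {b : 𝔓.B} (hb : 𝔓.In b) : 𝔓.In (π b) := hπ.le 1 b hb

/-- entries annihilated by the norm element of another factor -/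
lemma F6_Pi.zero {i : FJ m} (hi : some i.1 ≠ t) {b : 𝔓.B} (hb : b * NB 𝔓.u i = 0) : π b = 0 := by
  obtain ⟨y, rfl⟩ := (ann_right 𝔓 i b).1 hb
  have h1 : gen m i.1 ∈ HT m (some i.1) := by
    have := E1_gen_mem i 1
    rwa [pow_one] at this
  rw [map_mul, map_sub, map_one, hπ.oth _ hi _ h1, sub_self, mul_zero]

/-- elements with coefficients in another stabiliser are mapped to scalars -/
lemma F6_Pi.scal {t' : Option J} (ht : t' ≠ t) {b : 𝔓.B} (hb : 𝔓.SuppIn (HS m t') b) :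
    ∃ a : ℚ_[p], π b = 𝔓.sc a := by
  classical
  have hfin : Finite (HT m t') := HT_finite _
  have hf : (HT m t' : Set (Gp m)).Finite := hfin
  have hs : ∀ g, g ∈ hf.toFinset ↔ g ∈ HT m t' := fun g => by
    rw [Set.Finite.mem_toFinset]; rfl
  refine ⟨∑ h ∈ hf.toFinset, 𝔓.cf h b, ?_⟩
  conv_lhs => rw [E1_expand 𝔓 hb hf.toFinset hs]
  rw [map_sum, map_sum]
  refine Finset.sum_congr rfl fun h hh => ?_
  rw [map_mul, hπ.sc, hπ.oth _ ht _ ((hs h).1 hh), mul_one]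

/-- images of elements in the kernel of `Ψ` -/
lemma F6_Pi.row {v : Nx m Y σ → 𝔓.B} (hv : InV 𝔓 v) :
    RowW 𝔓 (fun _ : σ => t) t (fun b => π (v b)) := by
  refine ⟨fun b hb => ?_, fun b => hπ.supp _, fun i => ?_, fun y => ?_⟩
  · rcases b with (i | y) | c
    · exact hπ.zero hb (hv.1 i)
    · change π (v _) = 0
      rw [hv.2 y, map_zero]
    · exact absurd rfl hb
  · change π (v _) * _ = 0
    by_cases hi : some i.1 = t
    · have h1 : π (NB 𝔓.u i) = NB 𝔓.u i := hπ.fix _ (by rw [← hi]; exact NB_supp 𝔓 i)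
      rw [← h1, ← map_mul, hv.1 i, map_zero]
    · rw [hπ.zero hi (hv.1 i), zero_mul]
  · change π (v _) = 0
    rw [hv.2 y, map_zero]

end basic

/-- the slots which are not in the block `t` -/
abbrev F6_T (S : σ → Option J) (t : Option J) : Type := {c : σ // S c ≠ t}

section vec

variable (S : σ → Option J) (t : Option J)

/-- extension by zero -/
noncomputable def F6_vec (Y : Type) (x : F6_T S t → 𝔓.B) : Nx m Y σ → 𝔓.B :=
  fun b => match b with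
    | Sum.inl _ => 0
    | Sum.inr c => open Classical in if h : S c ≠ t then x ⟨c, h⟩ else 0

/-- the part in the block `t` -/
noncomputable def F6_blk (w : Nx m Y σ → 𝔓.B) : Nx m Y σ → 𝔓.B :=
  fun b => if blk S b = t then w b else 0

lemma F6_vec_inl (x : F6_T S t → 𝔓.B) (b : FJ m ⊕ Y) : F6_vec 𝔓 S t Y x (Sum.inl b) = 0 := rfl

lemma F6_vec_c (x : F6_T S t → 𝔓.B) (c : F6_T S t) : F6_vec 𝔓 S t Y x (Sum.inr c.1) = x c := by
  change (if h : S c.1 ≠ t then x ⟨c.1, h⟩ else 0) = _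
  rw [dif_pos c.2]

lemma F6_vec_n (x : F6_T S t → 𝔓.B) (c : σ) (h : S c = t) : F6_vec 𝔓 S t Y x (Sum.inr c) = 0 := by
  change (if h : S c ≠ t then x ⟨c, h⟩ else 0) = _
  rw [dif_neg (fun h' => h' h)]

lemma F6_blk_pos (w : Nx m Y σ → 𝔓.B) {b : Nx m Y σ} (h : blk S b = t) :
    F6_blk 𝔓 S t w b = w b := if_pos h

lemma F6_blk_neg (w : Nx m Y σ → 𝔓.B) {b : Nx m Y σ} (h : blk S b ≠ t) :
    F6_blk 𝔓 S t w b = 0 := if_neg h

/-- the decomposition -/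
lemma F6_split {w : Nx m Y σ → 𝔓.B} (hw : RowW 𝔓 (fun _ : σ => t) t w) :
    w = F6_blk 𝔓 S t w + F6_vec 𝔓 S t Y (fun c => w (Sum.inr c.1)) := by
  obtain ⟨h1, -, -, h4⟩ := hw
  funext b
  rw [Pi.add_apply]
  rcases b with (i | y) | c
  · rw [F6_vec_inl, add_zero]
    by_cases h : blk S (Sum.inl (Sum.inl i) : Nx m Y σ) = t
    · rw [F6_blk_pos 𝔓 S t _ h]
    · rw [F6_blk_neg 𝔓 S t _ h]
      exact h1 _ h
  · rw [F6_vec_inl, add_zero, h4]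
    by_cases h : blk S (Sum.inl (Sum.inr y) : Nx m Y σ) = t
    · rw [F6_blk_pos 𝔓 S t _ h, h4]
    · rw [F6_blk_neg 𝔓 S t _ h]
  · by_cases h : S c = t
    · rw [F6_vec_n 𝔓 S t _ c h, add_zero, F6_blk_pos 𝔓 S t _ (show blk S (Sum.inr c : Nx m Y σ) = t from h)]
    · have := F6_vec_c (Y := Y) 𝔓 S t (fun c => w (Sum.inr c.1)) ⟨c, h⟩
      change _ = _ + F6_vec 𝔓 S t Y (fun c => w (Sum.inr c.1)) (Sum.inr (⟨c, h⟩ : F6_T S t).1)
      rw [this, F6_blk_neg 𝔓 S t _ (show blk S (Sum.inr c : Nx m Y σ) ≠ t from h), zero_add]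

lemma F6_blk_row {w : Nx m Y σ → 𝔓.B} (hw : RowW 𝔓 (fun _ : σ => t) t w) :
    RowW 𝔓 S t (F6_blk 𝔓 S t w) := by
  obtain ⟨h1, h2, h3, h4⟩ := hw
  refine ⟨fun b hb => F6_blk_neg 𝔓 S t _ hb, fun b => ?_, fun i => ?_, fun y => ?_⟩
  · by_cases h : blk S b = t
    · rw [F6_blk_pos 𝔓 S t _ h]
      exact h2 b
    · rw [F6_blk_neg 𝔓 S t _ h]
      exact (At 𝔓 t).zero_mem
  · by_cases h : blk S (Sum.inl (Sum.inl i) : Nx m Y σ) = t
    · rw [F6_blk_pos 𝔓 S t _ h, h3]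
    · rw [F6_blk_neg 𝔓 S t _ h, zero_mul]
  · by_cases h : blk S (Sum.inl (Sum.inr y) : Nx m Y σ) = t
    · rw [F6_blk_pos 𝔓 S t _ h, h4]
    · rw [F6_blk_neg 𝔓 S t _ h]

lemma F6_blk_self {w : Nx m Y σ → 𝔓.B} (hw : RowW 𝔓 S t w) : F6_blk 𝔓 S t w = w := by
  funext b
  by_cases h : blk S b = t
  · rw [F6_blk_pos 𝔓 S t _ h]
  · rw [F6_blk_neg 𝔓 S t _ h, hw.1 b h]

lemma F6_blk_add (w w' : Nx m Y σ → 𝔓.B) :
    F6_blk 𝔓 S t (w + w') = F6_blk 𝔓 S t w + F6_blk 𝔓 S t w' := by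
  funext b
  rw [Pi.add_apply]
  by_cases h : blk S b = t
  · rw [F6_blk_pos 𝔓 S t _ h, F6_blk_pos 𝔓 S t _ h, F6_blk_pos 𝔓 S t _ h]
    rfl
  · rw [F6_blk_neg 𝔓 S t _ h, F6_blk_neg 𝔓 S t _ h, F6_blk_neg 𝔓 S t _ h, add_zero]

end vec

section main

variable {S : σ → Option J} {t : Option J} {π : 𝔓.B →+* 𝔓.B} (hπ : F6_Pi 𝔓 t π)
  {F : Submodule (Rh 𝔓) (Nx m Y σ → 𝔓.B)} (hF : Lat 𝔓 F)

/-- the image of the lattice under the retraction -/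
def F6_P (hπ : F6_Pi 𝔓 t π) (F : Submodule (Rh 𝔓) (Nx m Y σ → 𝔓.B)) :
    Submodule (AZ 𝔓 t) (Nx m Y σ → 𝔓.B) where
  carrier := {w | ∃ v ∈ F, ∀ b, w b = π (v b)}
  add_mem' := by
    rintro w w' ⟨v, hv, h⟩ ⟨v', hv', h'⟩
    exact ⟨v + v', F.add_mem hv hv', fun b => by rw [Pi.add_apply, Pi.add_apply, map_add, h, h']⟩
  zero_mem' := ⟨0, F.zero_mem, fun b => by rw [Pi.zero_apply, map_zero]⟩
  smul_mem' := by
    rintro a w ⟨v, hv, h⟩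
    refine ⟨(⟨a.1, a.2.2⟩ : Rh 𝔓) • v, F.smul_mem _ hv, fun b => ?_⟩
    change a.1 * w b = π (a.1 * v b)
    rw [map_mul, hπ.fix _ a.2.1, h]

/-- the lattice of the scalar vectors -/
def F6_L (hπ : F6_Pi 𝔓 t π) (S : σ → Option J) (F : Submodule (Rh 𝔓) (Nx m Y σ → 𝔓.B)) :
    Submodule ℤ_[p] (F6_T S t → ℚ_[p]) where
  carrier := {l | ∃ v ∈ F, ∀ b, F6_vec 𝔓 S t Y (fun c => 𝔓.sc (l c)) b = π (v b)}
  add_mem' := by
    rintro l l' ⟨v, hv, h⟩ ⟨v', hv', h'⟩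
    refine ⟨v + v', F.add_mem hv hv', fun b => ?_⟩
    rw [Pi.add_apply, map_add, ← h, ← h']
    rcases b with b | c
    · rw [F6_vec_inl, F6_vec_inl, F6_vec_inl, add_zero]
    · by_cases hc : S c = t
      · rw [F6_vec_n _ _ _ _ _ hc, F6_vec_n _ _ _ _ _ hc, F6_vec_n _ _ _ _ _ hc, add_zero]
      · rw [F6_vec_c _ _ _ _ ⟨c, hc⟩, F6_vec_c _ _ _ _ ⟨c, hc⟩, F6_vec_c _ _ _ _ ⟨c, hc⟩,
          Pi.add_apply, map_add]
  zero_mem' := by
    refine ⟨0, F.zero_mem, fun b => ?_⟩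
    rw [Pi.zero_apply, map_zero]
    rcases b with b | c
    · rw [F6_vec_inl]
    · by_cases hc : S c = t
      · rw [F6_vec_n _ _ _ _ _ hc]
      · rw [F6_vec_c _ _ _ _ ⟨c, hc⟩, Pi.zero_apply, map_zero]
  smul_mem' := by
    rintro z l ⟨v, hv, h⟩
    refine ⟨(⟨𝔓.sc z, 𝔓.In_sc z.2⟩ : Rh 𝔓) • v, F.smul_mem _ hv, fun b => ?_⟩
    change _ = π (𝔓.sc z * v b)
    rw [map_mul, hπ.sc, ← h]
    rcases b with b | c
    · rw [F6_vec_inl, F6_vec_inl, mul_zero]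
    · by_cases hc : S c = t
      · rw [F6_vec_n _ _ _ _ _ hc, F6_vec_n _ _ _ _ _ hc, mul_zero]
      · rw [F6_vec_c _ _ _ _ ⟨c, hc⟩, F6_vec_c _ _ _ _ ⟨c, hc⟩, ← map_mul]
        rfl

include hF in
/-- scaled integral vectors are in `L` -/
lemma F6_L_int : ∃ a : ℕ, ∀ x : F6_T S t → ℚ_[p], (∀ c, ‖x c‖ ≤ 1) →
    ((p : ℚ_[p]) ^ a) • x ∈ F6_L 𝔓 hπ S F := by
  obtain ⟨a, ha⟩ := hF.2.1
  refine ⟨a, fun x hx => ?_⟩
  have hv : F6_vec 𝔓 S t Y (fun c => 𝔓.sc (x c)) ∈ Jh 𝔓 Y σ := by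
    refine ⟨⟨fun i => ?_, fun y => ?_⟩, fun b => ?_⟩
    · rw [F6_vec_inl, zero_mul]
    · rw [F6_vec_inl]
    · rcases b with b | c
      · rw [F6_vec_inl]
        exact (Rh 𝔓).zero_mem
      · by_cases hc : S c = t
        · rw [F6_vec_n _ _ _ _ _ hc]
          exact (Rh 𝔓).zero_mem
        · rw [F6_vec_c _ _ _ _ ⟨c, hc⟩]
          exact 𝔓.In_sc (hx _)
  refine ⟨_, ha _ hv, fun b => ?_⟩
  rw [Pi.smul_apply, map_nsmul]
  rcases b with b | c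
  · rw [F6_vec_inl, F6_vec_inl, map_zero, smul_zero]
  · by_cases hc : S c = t
    · rw [F6_vec_n _ _ _ _ _ hc, F6_vec_n _ _ _ _ _ hc, map_zero, smul_zero]
    · rw [F6_vec_c _ _ _ _ ⟨c, hc⟩, F6_vec_c _ _ _ _ ⟨c, hc⟩, hπ.sc, Pi.smul_apply, smul_eq_mul,
        map_mul, nsmul_eq_mul, map_pow, PGR.sc_natCast, Nat.cast_pow]

include hF in
lemma F6_L_bdd : ∃ b : ℕ, ∀ x ∈ F6_L 𝔓 hπ S F, ∀ c, ‖(p : ℚ_[p]) ^ b * x c‖ ≤ 1 := by
  obtain ⟨b, hb⟩ := hF.2.2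
  refine ⟨b, ?_⟩
  rintro x ⟨v, hv, h⟩ c
  have h1 := (hb v hv).2 (Sum.inr c.1)
  have h2 := hπ.In h1 1
  rw [Pi.smul_apply, map_nsmul, ← h, F6_vec_c, nsmul_eq_mul, Nat.cast_pow, ← PGR.sc_natCast,
    ← map_pow, ← map_mul] at h2
  classical
  rw [F6_cf_sc, if_pos rfl] at h2
  exact h2

/-- the conditions which characterise the image -/
def F6_C (hπ : F6_Pi 𝔓 t π) (S : σ → Option J) (F : Submodule (Rh 𝔓) (Nx m Y σ → 𝔓.B))
    (w : Nx m Y σ → 𝔓.B) : Prop :=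
  F6_blk 𝔓 S t w ∈ F ∧ ∀ h, (fun c : F6_T S t => 𝔓.cf h (w (Sum.inr c.1))) ∈ F6_L 𝔓 hπ S F

lemma F6_C_add {w w' : Nx m Y σ → 𝔓.B} (h : F6_C 𝔓 hπ S F w) (h' : F6_C 𝔓 hπ S F w') :
    F6_C 𝔓 hπ S F (w + w') := by
  refine ⟨by rw [F6_blk_add]; exact F.add_mem h.1 h'.1, fun g => ?_⟩
  have := (F6_L 𝔓 hπ S F).add_mem (h.2 g) (h'.2 g)
  convert this using 1
  funext c
  change 𝔓.cf g (w _ + w' _) = _
  rw [map_add]
  rfl

lemma F6_C_zero : F6_C 𝔓 hπ S F 0 := by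
  refine ⟨?_, fun g => ?_⟩
  · have : F6_blk 𝔓 S t (0 : Nx m Y σ → 𝔓.B) = 0 := by
      funext b
      by_cases h : blk S b = t
      · rw [F6_blk_pos 𝔓 S t _ h]
      · rw [F6_blk_neg 𝔓 S t _ h]
        rfl
    rw [this]
    exact F.zero_mem
  · have := (F6_L 𝔓 hπ S F).zero_mem
    convert this using 1
    funext c
    exact map_zero _

lemma F6_C_sum {ι : Type} (s : Finset ι) (w : ι → Nx m Y σ → 𝔓.B)
    (h : ∀ i ∈ s, F6_C 𝔓 hπ S F (w i)) : F6_C 𝔓 hπ S F (∑ i ∈ s, w i) := by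
  classical
  induction s using Finset.induction_on with
  | empty => rw [Finset.sum_empty]; exact F6_C_zero 𝔓 hπ
  | insert a s ha ih =>
    rw [Finset.sum_insert ha]
    exact F6_C_add 𝔓 hπ (h a (Finset.mem_insert_self _ _))
      (ih fun i hi => h i (Finset.mem_insert_of_mem hi))

/-- elements with the conditions are in the image -/
lemma F6_C_mem {w : Nx m Y σ → 𝔓.B} (hw : RowW 𝔓 (fun _ : σ => t) t w) (hC : F6_C 𝔓 hπ S F w) :
    w ∈ F6_P 𝔓 hπ F := by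
  classical
  have hfin : Finite (HT m t) := HT_finite _
  have hf : (HT m t : Set (Gp m)).Finite := hfin
  have hs : ∀ g, g ∈ hf.toFinset ↔ g ∈ HT m t := fun g => by
    rw [Set.Finite.mem_toFinset]; rfl
  have h1 : F6_blk 𝔓 S t w ∈ F6_P 𝔓 hπ F :=
    ⟨_, hC.1, fun b => (hπ.fix _ ((F6_blk_row 𝔓 S t hw).2.1 b)).symm⟩
  have h2 : ∀ h ∈ hf.toFinset, (fun b => 𝔓.u h * F6_vec 𝔓 S t Y (fun c => 𝔓.sc (𝔓.cf h (w (Sum.inr c.1)))) b) ∈
      F6_P 𝔓 hπ F := by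
    intro h hh
    have hm : (⟨𝔓.u h, u_supp 𝔓 ((hs h).1 hh), 𝔓.In_u h⟩ : AZ 𝔓 t) • F6_vec 𝔓 S t Y (fun c =>
        𝔓.sc (𝔓.cf h (w (Sum.inr c.1)))) ∈ F6_P 𝔓 hπ F :=
      (F6_P 𝔓 hπ F).smul_mem _ (hC.2 h)
    exact hm
  have h3 := (F6_P 𝔓 hπ F).add_mem h1 ((F6_P 𝔓 hπ F).sum_mem h2)
  have h4 : F6_blk 𝔓 S t w + ∑ h ∈ hf.toFinset, (fun b => 𝔓.u h *
      F6_vec 𝔓 S t Y (fun c => 𝔓.sc (𝔓.cf h (w (Sum.inr c.1)))) b) = w := by
    conv_rhs => rw [F6_split 𝔓 S t hw]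
    congr 1
    funext b
    rw [Finset.sum_apply]
    rcases b with b | c
    · rw [F6_vec_inl]
      exact Finset.sum_eq_zero fun h _ => by rw [F6_vec_inl, mul_zero]
    · by_cases hc : S c = t
      · rw [F6_vec_n _ _ _ _ _ hc]
        exact Finset.sum_eq_zero fun h _ => by rw [F6_vec_n _ _ _ _ _ hc, mul_zero]
      · rw [F6_vec_c _ _ _ _ ⟨c, hc⟩]
        conv_rhs => rw [E1_expand 𝔓 (hw.2.1 (Sum.inr c)) hf.toFinset hs]
        refine Finset.sum_congr rfl fun h _ => ?_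
        rw [F6_vec_c _ _ _ _ ⟨c, hc⟩, 𝔓.sc_comm]
  rw [← h4]
  exact h3

lemma F6_InV_sub {v w : Nx m Y σ → 𝔓.B} (hv : InV 𝔓 v) (hw : InV 𝔓 w) : InV 𝔓 (v - w) := by
  refine ⟨fun i => ?_, fun y => ?_⟩
  · rw [Pi.sub_apply, sub_mul, hv.1, hw.1, sub_zero]
  · rw [Pi.sub_apply, hv.2, hw.2, sub_zero]

lemma F6_InV_sum {ι : Type} (s : Finset ι) (v : ι → Nx m Y σ → 𝔓.B) (hv : ∀ i ∈ s, InV 𝔓 (v i)) :
    InV 𝔓 (∑ i ∈ s, v i) := by
  refine ⟨fun i => ?_, fun y => ?_⟩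
  · rw [Finset.sum_apply, Finset.sum_mul]
    exact Finset.sum_eq_zero fun x hx => (hv x hx).1 i
  · rw [Finset.sum_apply]
    exact Finset.sum_eq_zero fun x hx => (hv x hx).2 y

include hF in
/-- the image of an element of a piece -/
lemma F6_piece (hst : ∀ v ∈ F, ∀ x, prj 𝔓 S x v ∈ F) {v : Nx m Y σ → 𝔓.B} (hv : v ∈ F) (x : Vx m) :
    F6_C 𝔓 hπ S F (fun b => π (prj 𝔓 S x v b)) := by
  classical
  obtain ⟨g, hg⟩ := exists_smul_bs x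
  have hvI := hF.1 v hv
  have hpx := hst v hv x
  -- the translate to the base vertex
  have hv' : (fun b => 𝔓.u g⁻¹ * prj 𝔓 S x v b) ∈ F := u_smul_mem 𝔓 g⁻¹ hpx
  set v' : Nx m Y σ → 𝔓.B := fun b => 𝔓.u g⁻¹ * prj 𝔓 S x v b with hv'def
  have e1 : v' = prj 𝔓 S (bs m (ty x)) (fun b => 𝔓.u g⁻¹ * v b) := by
    have h1 := prj_smul 𝔓 S g⁻¹ x v
    have h2 : g⁻¹ • x = bs m (ty x) := by
      conv_lhs => rw [hg]
      rw [inv_smul_smul]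
    rw [h2] at h1
    exact h1.symm
  have e2 : prj 𝔓 S (bs m (ty x)) v' = v' := by
    rw [e1, prj_prj]
  have hR : RowW 𝔓 S (ty x) v' := (prj_fix_iff 𝔓 S (ty x) (hF.1 _ hv')).1 e2
  have e3 : ∀ b, prj 𝔓 S x v b = 𝔓.u g * v' b := by
    intro b
    change _ = 𝔓.u g * (𝔓.u g⁻¹ * prj 𝔓 S x v b)
    rw [← mul_assoc, ← map_mul, mul_inv_cancel, map_one, one_mul]
  obtain ⟨h0, hh0, hh0'⟩ := hπ.grp g
  have e4 : ∀ b, π (prj 𝔓 S x v b) = 𝔓.u h0 * π (v' b) := by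
    intro b
    rw [e3, map_mul, hh0']
  by_cases ht : ty x = t
  · rw [ht] at hR
    have e5 : (fun b => π (prj 𝔓 S x v b)) = fun b => 𝔓.u h0 * v' b := by
      funext b
      rw [e4, hπ.fix _ (hR.2.1 b)]
    rw [e5]
    refine ⟨?_, fun h => ?_⟩
    · have e6 : F6_blk 𝔓 S t (fun b => 𝔓.u h0 * v' b) = fun b => 𝔓.u h0 * v' b := by
        funext b
        by_cases hb : blk S b = t
        · rw [F6_blk_pos 𝔓 S t _ hb]
        · rw [F6_blk_neg 𝔓 S t _ hb, hR.1 b hb, mul_zero]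
      rw [e6]
      exact u_smul_mem 𝔓 h0 hv'
    · have := (F6_L 𝔓 hπ S F).zero_mem
      convert this using 1
      funext c
      change 𝔓.cf h (𝔓.u h0 * v' (Sum.inr c.1)) = 0
      rw [hR.1 (Sum.inr c.1) c.2, mul_zero, map_zero]
  · -- the images of the entries are scalars
    have hsc : ∀ b, ∃ a : ℚ_[p], π (v' b) = 𝔓.sc a := fun b => hπ.scal ht (hR.2.1 b)
    choose a ha using hsc
    have hL : (fun c : F6_T S t => a (Sum.inr c.1)) ∈ F6_L 𝔓 hπ S F := by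
      refine ⟨v', hv', fun b => ?_⟩
      rcases b with (i | y) | c
      · rw [F6_vec_inl]
        by_cases hi : some i.1 = t
        · have h1 : blk S (Sum.inl (Sum.inl i) : Nx m Y σ) ≠ ty x := by
            intro h
            exact ht (h.symm.trans hi)
          rw [hR.1 _ h1, map_zero]
        · rw [hπ.zero hi (hR.2.2.1 i)]
      · rw [F6_vec_inl, hR.2.2.2 y, map_zero]
      · by_cases hc : S c = t
        · rw [F6_vec_n _ _ _ _ _ hc]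
          have h1 : blk S (Sum.inr c : Nx m Y σ) ≠ ty x := by
            intro h
            exact ht (h.symm.trans hc)
          rw [hR.1 _ h1, map_zero]
        · rw [F6_vec_c _ _ _ _ ⟨c, hc⟩, ha]
    refine ⟨?_, fun h => ?_⟩
    · have e6 : F6_blk 𝔓 S t (fun b => π (prj 𝔓 S x v b)) = 0 := by
        funext b
        by_cases hb : blk S b = t
        · rw [F6_blk_pos 𝔓 S t _ hb, e4]
          have h1 : blk S b ≠ ty x := by
            intro h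
            exact ht (h.symm.trans hb)
          rw [hR.1 b h1, map_zero, mul_zero]
          rfl
        · rw [F6_blk_neg 𝔓 S t _ hb]
          rfl
      rw [e6]
      exact F.zero_mem
    · by_cases hh : h = h0
      · convert hL using 1
        funext c
        change 𝔓.cf h (π (prj 𝔓 S x v (Sum.inr c.1))) = a (Sum.inr c.1)
        rw [e4, ha, 𝔓.cf_u_mul, F6_cf_sc, if_pos (by rw [hh, inv_mul_cancel])]
      · have := (F6_L 𝔓 hπ S F).zero_mem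
        convert this using 1
        funext c
        change 𝔓.cf h (π (prj 𝔓 S x v (Sum.inr c.1))) = 0
        rw [e4, ha, 𝔓.cf_u_mul, F6_cf_sc, if_neg (fun h' => hh (inv_mul_eq_one.1 h').symm)]

include hF in
/-- the image of a small element -/
lemma F6_small : ∃ ε : ℝ, 0 < ε ∧ ∀ v : Nx m Y σ → 𝔓.B, InV 𝔓 v → (∀ b, 𝔓.Le ε (v b)) →
    F6_C 𝔓 hπ S F (fun b => π (v b)) := by
  obtain ⟨ε, hε, hsm⟩ := Lat.small 𝔓 hF
  obtain ⟨a, ha⟩ := F6_L_int (S := S) 𝔓 hπ hF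
  have hp : (0 : ℝ) < p := by exact_mod_cast (Fact.out : p.Prime).pos
  have hp0 : (p : ℚ_[p]) ≠ 0 := by exact_mod_cast (Fact.out : p.Prime).ne_zero
  refine ⟨min ε (((p : ℝ) ^ a)⁻¹), lt_min hε (by positivity), fun v hv hle => ⟨?_, fun h => ?_⟩⟩
  · have hR := F6_blk_row 𝔓 S t (hπ.row hv)
    refine hsm _ ⟨hR.2.2.1, hR.2.2.2⟩ fun b => ?_
    by_cases hb : blk S b = t
    · rw [F6_blk_pos 𝔓 S t _ hb]
      intro g
      exact (hπ.le _ _ (hle b) g).trans (min_le_left _ _)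
    · rw [F6_blk_neg 𝔓 S t _ hb]
      intro g
      rw [map_zero, norm_zero]
      exact hε.le
  · have h1 := ha (fun c => ((p : ℚ_[p]) ^ a)⁻¹ * 𝔓.cf h (π (v (Sum.inr c.1)))) (fun c => by
      rw [norm_mul, norm_inv, norm_pow, Padic.norm_p, inv_pow, inv_inv]
      have h2 := (hπ.le _ _ (hle (Sum.inr c.1)) h).trans (min_le_right _ _)
      calc (p : ℝ) ^ a * ‖𝔓.cf h (π (v (Sum.inr c.1)))‖ ≤ (p : ℝ) ^ a * ((p : ℝ) ^ a)⁻¹ :=
            mul_le_mul_of_nonneg_left h2 (by positivity)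
        _ = 1 := mul_inv_cancel₀ (by positivity))
    convert h1 using 1
    funext c
    rw [Pi.smul_apply, smul_eq_mul, mul_inv_cancel_left₀ (pow_ne_zero _ hp0)]

include hF in
/-- all elements of the image satisfy the conditions -/
lemma F6_mem_C (hst : ∀ v ∈ F, ∀ x, prj 𝔓 S x v ∈ F) {w : Nx m Y σ → 𝔓.B}
    (hw : w ∈ F6_P 𝔓 hπ F) : RowW 𝔓 (fun _ : σ => t) t w ∧ F6_C 𝔓 hπ S F w := by
  obtain ⟨v, hv, hwv⟩ := hw
  have hvI := hF.1 v hv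
  have e0 : w = fun b => π (v b) := funext hwv
  refine ⟨by rw [e0]; exact hπ.row hvI, ?_⟩
  obtain ⟨ε, hε, hsm⟩ := F6_small (S := S) 𝔓 hπ hF
  obtain ⟨s, -, hs⟩ := prj_approx 𝔓 S hvI ε hε
  have hR : InV 𝔓 (v - ∑ x ∈ s, prj 𝔓 S x v) :=
    F6_InV_sub 𝔓 hvI (F6_InV_sum 𝔓 _ _ fun x _ => prj_InV 𝔓 S x hvI)
  have h1 := hsm _ hR (hs s (Finset.Subset.refl s))
  have h2 := F6_C_sum 𝔓 hπ s (fun x => fun b => π (prj 𝔓 S x v b)) fun x _ => F6_piece 𝔓 hπ hF hst hv x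
  have h3 := F6_C_add 𝔓 hπ h1 h2
  rw [e0]
  convert h3 using 1
  funext b
  rw [Pi.add_apply, Finset.sum_apply, Pi.sub_apply, Finset.sum_apply, ← map_sum, ← map_add,
    sub_add_cancel]

lemma F6_cf_vecMul {τ : Type} [Fintype τ] (w : τ → 𝔓.B) (N : Matrix τ τ ℚ_[p]) (c : τ) (g : Gp m) :
    𝔓.cf g (Matrix.vecMul w (N.map 𝔓.sc) c) = Matrix.vecMul (fun c' => 𝔓.cf g (w c')) N c := by
  change 𝔓.cf g (∑ c', w c' * 𝔓.sc (N c' c)) = ∑ c', 𝔓.cf g (w c') * N c' c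
  rw [map_sum]
  exact Finset.sum_congr rfl fun c' _ => by rw [𝔓.D1_cf_mul_sc, mul_comm]

lemma F6_vecMul_inv {τ : Type} [Fintype τ] [DecidableEq τ] (w : τ → 𝔓.B) (M N : Matrix τ τ ℚ_[p])
    (h : M * N = 1) : Matrix.vecMul (Matrix.vecMul w (M.map 𝔓.sc)) (N.map 𝔓.sc) = w := by
  have h1 : M.map 𝔓.sc * N.map 𝔓.sc = 1 := by
    rw [← Matrix.map_mul, h, Matrix.map_one _ (map_zero _) (map_one _)]
  rw [Matrix.vecMul_vecMul, h1, Matrix.vecMul_one]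

include hF in
/-- the image of the lattice as a product -/
theorem F6_equiv (hst : ∀ v ∈ F, ∀ x, prj 𝔓 S x v ∈ F) :
    Nonempty (F6_P 𝔓 hπ F ≃ₗ[AZ 𝔓 t] (LM 𝔓 F S t × (F6_T S t → AZ 𝔓 t))) := by
  classical
  obtain ⟨a, ha⟩ := F6_L_int (S := S) 𝔓 hπ hF
  obtain ⟨b, hb⟩ := F6_L_bdd (S := S) 𝔓 hπ hF
  obtain ⟨M, hM⟩ := lattice_basis (F6_L 𝔓 hπ S F) a b ha hb
  have hMM : M.1 * M⁻¹.1 = 1 := M.mul_inv
  have hMM' : M⁻¹.1 * M.1 = 1 := M.inv_mul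
  have key := fun (w : F6_P 𝔓 hπ F) => F6_mem_C (S := S) 𝔓 hπ hF hst w.2
  -- the two components
  let f1 : F6_P 𝔓 hπ F →ₗ[AZ 𝔓 t] LM 𝔓 F S t :=
    { toFun := fun w => ⟨F6_blk 𝔓 S t w.1, F6_blk_row 𝔓 S t (key w).1, (key w).2.1⟩
      map_add' := fun w w' => Subtype.ext (F6_blk_add 𝔓 S t w.1 w'.1)
      map_smul' := fun z w => by
        apply Subtype.ext
        funext q
        change F6_blk 𝔓 S t (fun b => z.1 * w.1 b) q = z.1 * F6_blk 𝔓 S t w.1 q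
        by_cases hq : blk S q = t
        · rw [F6_blk_pos 𝔓 S t _ hq, F6_blk_pos 𝔓 S t _ hq]
        · rw [F6_blk_neg 𝔓 S t _ hq, F6_blk_neg 𝔓 S t _ hq, mul_zero] }
  let f2 : F6_P 𝔓 hπ F →ₗ[AZ 𝔓 t] (F6_T S t → AZ 𝔓 t) :=
    { toFun := fun w c => ⟨Matrix.vecMul (fun c' : F6_T S t => w.1 (Sum.inr c'.1)) (M⁻¹.1.map 𝔓.sc) c,
        (At 𝔓 t).sum_mem fun c' _ => (At 𝔓 t).mul_mem ((key w).1.2.1 _) (F6_supp_sc 𝔓 t _),
        fun g => by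
          rw [F6_cf_vecMul]
          exact (hM _).1 ((key w).2.2 g) c⟩
      map_add' := fun w w' => by
        funext c
        apply Subtype.ext
        change Matrix.vecMul _ _ _ = Matrix.vecMul _ _ _ + Matrix.vecMul _ _ _
        rw [← Pi.add_apply, ← Matrix.add_vecMul]
        rfl
      map_smul' := fun z w => by
        funext c
        apply Subtype.ext
        change ∑ c' : F6_T S t, (z.1 * w.1 (Sum.inr c'.1)) * _ = z.1 * ∑ c' : F6_T S t, _ * _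
        rw [Finset.mul_sum]
        exact Finset.sum_congr rfl fun c' _ => mul_assoc _ _ _ }
  have hf1 : ∀ w, (f1 w).1 = F6_blk 𝔓 S t w.1 := fun w => rfl
  have hf2 : ∀ w c, (f2 w c).1 = Matrix.vecMul (fun c' : F6_T S t => w.1 (Sum.inr c'.1))
    (M⁻¹.1.map 𝔓.sc) c := fun w c => rfl
  refine ⟨LinearEquiv.ofBijective (f1.prod f2) ⟨?_, ?_⟩⟩
  · intro w w' h
    have h1 : f1 w = f1 w' := congrArg Prod.fst h
    have h2 : f2 w = f2 w' := congrArg Prod.snd h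
    apply Subtype.ext
    rw [F6_split 𝔓 S t (key w).1, F6_split 𝔓 S t (key w').1, ← hf1, ← hf1, h1]
    congr 2
    have h3 : Matrix.vecMul (fun c' : F6_T S t => w.1 (Sum.inr c'.1)) (M⁻¹.1.map 𝔓.sc) =
        Matrix.vecMul (fun c' : F6_T S t => w'.1 (Sum.inr c'.1)) (M⁻¹.1.map 𝔓.sc) := by
      funext c
      rw [← hf2, ← hf2, h2]
    rw [← F6_vecMul_inv 𝔓 (fun c' : F6_T S t => w.1 (Sum.inr c'.1)) _ _ hMM', h3,
      F6_vecMul_inv 𝔓 _ _ _ hMM']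
  · rintro ⟨v, x⟩
    have hvR : RowW 𝔓 S t v.1 := v.2.1
    set y : F6_T S t → 𝔓.B := Matrix.vecMul (fun c => (x c).1) (M.1.map 𝔓.sc) with hy
    have hyA : ∀ c, 𝔓.SuppIn (HS m t) (y c) := fun c =>
      (At 𝔓 t).sum_mem fun c' _ => (At 𝔓 t).mul_mem (x c').2.1 (F6_supp_sc 𝔓 t _)
    set w : Nx m Y σ → 𝔓.B := v.1 + F6_vec 𝔓 S t Y y with hw
    have hwR : RowW 𝔓 (fun _ : σ => t) t w := by
      refine ⟨fun q hq => ?_, fun q => ?_, fun i => ?_, fun y' => ?_⟩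
      · rcases q with q | c
        · rw [hw, Pi.add_apply, F6_vec_inl, add_zero]
          apply hvR.1
          rcases q with i | y'
          · exact hq
          · exact hq
        · exact absurd rfl hq
      · rw [hw, Pi.add_apply]
        refine (At 𝔓 t).add_mem (hvR.2.1 q) ?_
        rcases q with q | c
        · rw [F6_vec_inl]
          exact (At 𝔓 t).zero_mem
        · by_cases hc : S c = t
          · rw [F6_vec_n _ _ _ _ _ hc]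
            exact (At 𝔓 t).zero_mem
          · rw [F6_vec_c _ _ _ _ ⟨c, hc⟩]
            exact hyA _
      · rw [hw, Pi.add_apply, F6_vec_inl, add_zero]
        exact hvR.2.2.1 i
      · rw [hw, Pi.add_apply, F6_vec_inl, add_zero]
        exact hvR.2.2.2 y'
    have hwb : F6_blk 𝔓 S t w = v.1 := by
      funext q
      by_cases hq : blk S q = t
      · rw [F6_blk_pos 𝔓 S t _ hq, hw, Pi.add_apply]
        rcases q with q | c
        · rw [F6_vec_inl, add_zero]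
        · rw [F6_vec_n 𝔓 S t y c hq, add_zero]
      · rw [F6_blk_neg 𝔓 S t _ hq, hvR.1 q hq]
    have hwc : ∀ c : F6_T S t, w (Sum.inr c.1) = y c := by
      intro c
      rw [hw, Pi.add_apply, hvR.1 (Sum.inr c.1) c.2, zero_add, F6_vec_c]
    have hC : F6_C 𝔓 hπ S F w := by
      refine ⟨by rw [hwb]; exact v.2.2, fun h => ?_⟩
      rw [hM]
      intro c
      have e1 : (fun c : F6_T S t => 𝔓.cf h (w (Sum.inr c.1))) =
          Matrix.vecMul (fun c => 𝔓.cf h (x c).1) M.1 := by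
        funext c
        rw [hwc, hy, F6_cf_vecMul]
      rw [e1, Matrix.vecMul_vecMul, hMM, Matrix.vecMul_one]
      exact (x c).2.2 h
    refine ⟨⟨w, F6_C_mem 𝔓 hπ hwR hC⟩, Prod.ext (Subtype.ext hwb) (funext fun c => Subtype.ext ?_)⟩
    change Matrix.vecMul (fun c' : F6_T S t => w (Sum.inr c'.1)) (M⁻¹.1.map 𝔓.sc) c = (x c).1
    rw [show (fun c' : F6_T S t => w (Sum.inr c'.1)) = y from funext hwc, hy,
      F6_vecMul_inv 𝔓 _ _ _ hMM]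

/-- the images of `Jh` and `Jh θ` are isomorphic -/
theorem F6_theta (θ : (Matrix (Nx m Y σ) (Nx m Y σ) 𝔓.B)ˣ) :
    Nonempty (F6_P 𝔓 hπ (Jt 𝔓 θ) ≃ₗ[AZ 𝔓 t] F6_P 𝔓 hπ (Jh 𝔓 Y σ)) := by
  have hmap : ∀ (N : Matrix (Nx m Y σ) (Nx m Y σ) 𝔓.B) (v : Nx m Y σ → 𝔓.B) b,
      π (Matrix.vecMul v N b) = Matrix.vecMul (fun b => π (v b)) (N.map π) b := by
    intro N v b
    change π (∑ q, v q * N q b) = ∑ q, π (v q) * π (N q b)
    rw [map_sum]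
    exact Finset.sum_congr rfl fun q _ => map_mul _ _ _
  let μ : Matrix (Nx m Y σ) (Nx m Y σ) 𝔓.B → ((Nx m Y σ → 𝔓.B) →ₗ[AZ 𝔓 t] (Nx m Y σ → 𝔓.B)) :=
    fun N => { toFun := fun v => Matrix.vecMul v N
               map_add' := fun v w => Matrix.add_vecMul _ _ _
               map_smul' := fun a v => Matrix.smul_vecMul _ _ _ }
  have hμ : ∀ N v, μ N v = Matrix.vecMul v N := fun _ _ => rfl
  have h1 : ∀ w ∈ F6_P 𝔓 hπ (Jt 𝔓 θ), μ (θ⁻¹.1.map π) w ∈ F6_P 𝔓 hπ (Jh 𝔓 Y σ) := by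
    rintro w ⟨v, hv, hwv⟩
    refine ⟨Matrix.vecMul v θ⁻¹.1, (mem_Jt 𝔓 v).1 hv, fun b => ?_⟩
    rw [hmap, hμ, show w = fun b => π (v b) from funext hwv]
  have h2 : ∀ w ∈ F6_P 𝔓 hπ (Jh 𝔓 Y σ), μ (θ.1.map π) w ∈ F6_P 𝔓 hπ (Jt 𝔓 θ) := by
    rintro w ⟨v, hv, hwv⟩
    refine ⟨Matrix.vecMul v θ.1, ⟨v, hv, rfl⟩, fun b => ?_⟩
    rw [hmap, hμ, show w = fun b => π (v b) from funext hwv]
  have e1 : θ.1.map π * θ⁻¹.1.map π = 1 := by
    rw [← Matrix.map_mul, θ.mul_inv, Matrix.map_one _ (map_zero _) (map_one _)]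
  have e2 : θ⁻¹.1.map π * θ.1.map π = 1 := by
    rw [← Matrix.map_mul, θ.inv_mul, Matrix.map_one _ (map_zero _) (map_one _)]
  refine ⟨LinearEquiv.ofLinearMap ((μ (θ⁻¹.1.map π)).restrict h1) ((μ (θ.1.map π)).restrict h2) ?_ ?_⟩
  · refine LinearMap.ext fun w => Subtype.ext ?_
    change Matrix.vecMul (Matrix.vecMul w.1 _) _ = w.1
    rw [Matrix.vecMul_vecMul, e1, Matrix.vecMul_one]
  · refine LinearMap.ext fun w => Subtype.ext ?_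
    change Matrix.vecMul (Matrix.vecMul w.1 _) _ = w.1
    rw [Matrix.vecMul_vecMul, e2, Matrix.vecMul_one]

end main

theorem block_std (S : σ → Option J) {θ : (Matrix (Nx m Y σ) (Nx m Y σ) 𝔓.B)ˣ}
    (hθ : θ ∈ SS 𝔓.u Y σ) (hc : ∀ v ∈ Jt 𝔓 θ, ∀ x, prj 𝔓 S x v ∈ Jt 𝔓 θ) (t : Option J) :
    ∃ g : (Matrix (Nx m Y σ) (Nx m Y σ) 𝔓.B)ˣ, BM 𝔓 S t g ∧
      ∀ v, RowW 𝔓 S t v → (v ∈ Jt 𝔓 θ ↔ Matrix.vecMul v g⁻¹.1 ∈ Jh 𝔓 Y σ) := by
  classical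
  obtain ⟨π, p1, p2, p3, p4, p5⟩ := exists_pt 𝔓 t
  have hπ : F6_Pi 𝔓 t π := ⟨p1, p2, p3, p4, p5⟩
  have hJ : Lat 𝔓 (Jh 𝔓 Y σ) := ⟨fun v hv => hv.1, ⟨0, fun v hv => by rw [pow_zero, one_smul]; exact hv⟩,
    ⟨0, fun v hv => by rw [pow_zero, one_smul]; exact hv⟩⟩
  have hJs : ∀ v ∈ Jh 𝔓 Y σ, ∀ x, prj 𝔓 S x v ∈ Jh 𝔓 Y σ := fun v hv x =>
    ⟨prj_InV 𝔓 S x hv.1, fun b => prj_Le 𝔓 S x zero_le_one hv.2 b⟩
  have hF := Jt_Lat 𝔓 hθ
  obtain ⟨e1⟩ := F6_equiv (S := S) 𝔓 hπ hJ hJs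
  obtain ⟨e2⟩ := F6_equiv (S := S) 𝔓 hπ hF hc
  obtain ⟨e3⟩ := F6_theta 𝔓 hπ θ
  have hfin := AZ_fin 𝔓 t
  let r := Fintype.card (F6_T S t)
  let e4 : (Fin r → AZ 𝔓 t) ≃ₗ[AZ 𝔓 t] (F6_T S t → AZ 𝔓 t) :=
    LinearEquiv.funCongrLeft _ _ (Fintype.equivFin (F6_T S t))
  let e5 : (LM 𝔓 (Jt 𝔓 θ) S t × (Fin r → AZ 𝔓 t)) ≃ₗ[AZ 𝔓 t] (LM 𝔓 (Jh 𝔓 Y σ) S t × (Fin r → AZ 𝔓 t)) :=
    (LinearEquiv.prodCongr (LinearEquiv.refl _ _) e4).trans (e2.symm.trans (e3.trans (e1.trans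
      (LinearEquiv.prodCongr (LinearEquiv.refl _ _) e4.symm))))
  obtain ⟨α⟩ := cancel_free r e5
  obtain ⟨g, hg, hgα⟩ := ext_iso 𝔓 hF hJ S t α
  refine ⟨g⁻¹, E7_BM_inv 𝔓 hg, fun v hv => ?_⟩
  rw [inv_inv]
  constructor
  · intro h
    have h1 := hgα ⟨v, hv, h⟩
    change Matrix.vecMul v g.1 = _ at h1
    rw [h1]
    exact (α ⟨v, hv, h⟩).2.2
  · intro h
    have hvI : InV 𝔓 v := ⟨hv.2.2.1, hv.2.2.2⟩
    have hR : RowW 𝔓 S t (Matrix.vecMul v g.1) := by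
      refine (prj_fix_iff 𝔓 S t h.1).1 ?_
      rw [BM_prj 𝔓 hg _ hvI, (prj_fix_iff 𝔓 S t hvI).2 hv]
    obtain ⟨v', hv'⟩ := α.surjective ⟨_, hR, h⟩
    have h1 := hgα v'
    rw [hv'] at h1
    have h2 : v = v'.1 := by
      have h3 := congrArg (fun z => Matrix.vecMul z g⁻¹.1) h1
      simp only [Matrix.vecMul_vecMul, g.mul_inv, Matrix.vecMul_one] at h3
      exact h3.symm
    rw [h2]
    exact v'.2.2

end FP
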