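import Pool.Agent.Lib.MP_2d4659_gt.FP.F0b
import Pool.Agent.Lib.MP_2d4659_gt.FP.E4

/-!
# The integral part of a piece

`AZ t` is (isomorphic to) `ℤ_p[HT t]`; `LM F S t` is the lattice `F ∩ W_t`.
-/

set_option autoImplicit false

namespace FP

variable {J : Type} [DecidableEq J] [Fintype J] {m : J → ℕ} {Y σ : Type} [Fintype Y] [DecidableEq Y]
  [Fintype σ] [DecidableEq σ] {p : ℕ} [Fact p.Prime] (𝔓 : PGR p (Gp m))

/-- the integral elements with coefficients in the finite subgroup of type `t` -/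
def AZ (t : Option J) : Subring 𝔓.B := At 𝔓 t ⊓ Rh 𝔓

noncomputable instance (t : Option J) : CommRing (AZ 𝔓 t) :=
  { (inferInstance : Ring (AZ 𝔓 t)) with
    mul_comm := by
      intro a b
      exact Subtype.ext (supp_comm 𝔓 a.2.1 b.2.1) }

/-- (as `At_fin`, with `fin_max_padic`) -/
theorem AZ_fin (t : Option J) : Finite (MaximalSpectrum (AZ 𝔓 t)) := by
  classical
  have hfin : Finite (HT m t) := HT_finite t
  let _ : CommGroup (HT m t) := { (inferInstance : Group (HT m t)) with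
    mul_comm := fun a b => Subtype.ext (HT_comm t a.1 b.1 a.2 b.2) }
  have h0 := fin_max_padic p (HT m t)
  obtain ⟨f, hf⟩ : ∃ f : MonoidAlgebra ℤ_[p] (HT m t) →+* 𝔓.B, ∀ x,
      f x = 𝔓.D2_E (MonoidAlgebra.mapDomainRingHom ℤ_[p] (HT m t).subtype x) :=
    ⟨𝔓.D2_E.comp (MonoidAlgebra.mapDomainRingHom ℤ_[p] (HT m t).subtype), fun x => rfl⟩
  have hcf : ∀ x g, 𝔓.cf g (f x) = ((Finsupp.mapDomain (HT m t).subtype x.coeff) g : ℚ_[p]) := by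
    intro x g
    rw [hf, 𝔓.D2_cf_E]
    rfl
  have hmem : ∀ x, f x ∈ AZ 𝔓 t := by
    intro x
    refine ⟨fun g hg => ?_, fun g => ?_⟩
    · rw [hcf, Finsupp.mapDomain_of_notMem_range, PadicInt.coe_zero]
      rintro ⟨h, rfl⟩
      exact hg h.2
    · rw [hcf]
      exact PadicInt.norm_le_one _
  refine E4_surj (f.codRestrict (AZ 𝔓 t) hmem) ?_ h0
  rintro ⟨b, hb, hb'⟩
  refine ⟨MonoidAlgebra.ofCoeff (Finsupp.equivFunOnFinite.symm
    (fun h : HT m t => (⟨𝔓.cf h.1 b, hb' h.1⟩ : ℤ_[p]))), Subtype.ext (PGR.ext 𝔓 fun g => ?_)⟩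
  change 𝔓.cf g (f _) = 𝔓.cf g b
  rw [hcf]
  by_cases hg : g ∈ HT m t
  · have h1 : g = (HT m t).subtype ⟨g, hg⟩ := rfl
    conv_lhs => rw [h1]
    rw [Finsupp.mapDomain_apply (Subgroup.subtype_injective _)]
    rfl
  · rw [hb g hg, Finsupp.mapDomain_of_notMem_range, PadicInt.coe_zero]
    rintro ⟨h, rfl⟩
    exact hg h.2

/-- the elements of `F` in `W_t` -/
def LM (F : Submodule (Rh 𝔓) (Nx m Y σ → 𝔓.B)) (S : σ → Option J) (t : Option J) :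
    Submodule (AZ 𝔓 t) (Nx m Y σ → 𝔓.B) where
  carrier := {v | RowW 𝔓 S t v ∧ v ∈ F}
  add_mem' := by
    rintro v w ⟨h1, h2⟩ ⟨k1, k2⟩
    exact ⟨(WW 𝔓 Y S t).add_mem h1 k1, F.add_mem h2 k2⟩
  zero_mem' := ⟨(WW 𝔓 Y S t).zero_mem, F.zero_mem⟩
  smul_mem' := by
    rintro a v ⟨h1, h2⟩
    exact ⟨(WW 𝔓 Y S t).smul_mem (⟨a.1, a.2.1⟩ : At 𝔓 t) h1, F.smul_mem (⟨a.1, a.2.2⟩ : Rh 𝔓) h2⟩

section ext

variable {W : Type} [AddCommGroup W] {q : ℕ}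

lemma F6a_inj (hq : Function.Bijective (fun w : W => q • w)) (n : ℕ) {v w : W}
    (h : q ^ n • v = q ^ n • w) : v = w := by
  induction n with
  | zero => rwa [pow_zero, one_smul, one_smul] at h
  | succ n ih =>
    refine ih (hq.1 ?_)
    change q • (q ^ n • v) = q • (q ^ n • w)
    rw [smul_smul, smul_smul, ← pow_succ']
    exact h

lemma F6a_surj (hq : Function.Bijective (fun w : W => q • w)) (n : ℕ) (w : W) :
    ∃ v : W, q ^ n • v = w := by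
  induction n with
  | zero => exact ⟨w, by rw [pow_zero, one_smul]⟩
  | succ n ih =>
    obtain ⟨v, hv⟩ := ih
    obtain ⟨u, hu⟩ := hq.2 v
    refine ⟨u, ?_⟩
    change q • u = v at hu
    rw [pow_succ, mul_smul, hu, hv]

/-- an additive map extends from a lattice -/
lemma F6a_ext (hq : Function.Bijective (fun w : W => q • w)) (L : AddSubgroup W)
    (hL : ∀ w : W, ∃ n : ℕ, q ^ n • w ∈ L) (α : L →+ W) :
    ∃ f : W →+ W, ∀ x : L, f x = α x := by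
  have key : ∀ w : W, ∃ w' : W, ∀ (n : ℕ) (h : q ^ n • w ∈ L), q ^ n • w' = α ⟨q ^ n • w, h⟩ := by
    intro w
    obtain ⟨n, hn⟩ := hL w
    obtain ⟨w', hw'⟩ := F6a_surj hq n (α ⟨q ^ n • w, hn⟩)
    refine ⟨w', fun k hk => F6a_inj hq n ?_⟩
    rw [smul_comm, hw', ← map_nsmul, ← map_nsmul]
    congr 1
    refine Subtype.ext ?_
    change q ^ k • (q ^ n • w) = q ^ n • (q ^ k • w)
    exact smul_comm _ _ _
  choose f hf using key
  have hadd : ∀ v w, f (v + w) = f v + f w := by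
    intro v w
    obtain ⟨a, ha⟩ := hL v
    obtain ⟨b, hb⟩ := hL w
    have ha' : q ^ (a + b) • v ∈ L := by
      rw [add_comm, pow_add, mul_smul]
      exact L.nsmul_mem ha _
    have hb' : q ^ (a + b) • w ∈ L := by
      rw [pow_add, mul_smul]
      exact L.nsmul_mem hb _
    have hab : q ^ (a + b) • (v + w) ∈ L := by
      rw [smul_add]
      exact L.add_mem ha' hb'
    refine F6a_inj hq (a + b) ?_
    have e1 : q ^ (a + b) • (f v + f w) = q ^ (a + b) • f v + q ^ (a + b) • f w := smul_add _ _ _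
    rw [hf _ _ hab, e1, hf _ _ ha', hf _ _ hb', ← map_add]
    congr 1
    exact Subtype.ext (smul_add _ _ _)
  refine ⟨AddMonoidHom.mk' f hadd, fun x => ?_⟩
  have h0 : q ^ 0 • x.1 ∈ L := by
    rw [pow_zero, one_smul]
    exact x.2
  have h1 : f x.1 = q ^ 0 • f x.1 := by rw [pow_zero, one_smul]
  change f x.1 = α x
  rw [h1, hf x.1 0 h0]
  congr 1
  refine Subtype.ext ?_
  change q ^ 0 • x.1 = x.1
  rw [pow_zero, one_smul]

/-- and the extension is unique -/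
lemma F6a_uniq (hq : Function.Bijective (fun w : W => q • w)) (L : AddSubgroup W)
    (hL : ∀ w : W, ∃ n : ℕ, q ^ n • w ∈ L) (f g : W →+ W) (h : ∀ x ∈ L, f x = g x) (w : W) :
    f w = g w := by
  obtain ⟨n, hn⟩ := hL w
  refine F6a_inj hq n ?_
  rw [← map_nsmul, ← map_nsmul]
  exact h _ hn

end ext

/-- multiplication by `p` is bijective on `WW` -/
lemma F6a_bij (S : σ → Option J) (t : Option J) :
    Function.Bijective (fun w : WW 𝔓 Y S t => p • w) := by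
  have hp0 : (p : ℚ_[p]) ≠ 0 := by exact_mod_cast (Fact.out : p.Prime).ne_zero
  have hmem : 𝔓.sc ((p : ℚ_[p])⁻¹) ∈ At 𝔓 t := by
    intro g hg
    have h1 : 𝔓.sc ((p : ℚ_[p])⁻¹) = 𝔓.sc ((p : ℚ_[p])⁻¹) * 1 := (mul_one _).symm
    rw [h1, PGR.cf_sc_mul, E4_supp_one 𝔓 t g hg, mul_zero]
  have hs : ∀ w : WW 𝔓 Y S t, (⟨𝔓.sc ((p : ℚ_[p])⁻¹), hmem⟩ : At 𝔓 t) • (p • w) = w := by
    intro w
    refine Subtype.ext (funext fun b => ?_)
    change 𝔓.sc ((p : ℚ_[p])⁻¹) * (p • w.1 b) = w.1 b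
    rw [nsmul_eq_mul, ← PGR.sc_natCast, ← mul_assoc, ← map_mul, inv_mul_cancel₀ hp0, map_one,
      one_mul]
  constructor
  · intro v w h
    change p • v = p • w at h
    rw [← hs v, ← hs w, h]
  · intro w
    refine ⟨(⟨𝔓.sc ((p : ℚ_[p])⁻¹), hmem⟩ : At 𝔓 t) • w, ?_⟩
    change p • ((⟨𝔓.sc ((p : ℚ_[p])⁻¹), hmem⟩ : At 𝔓 t) • w) = w
    rw [smul_comm]
    exact hs w

lemma F6a_In {b : 𝔓.B} : ∃ n : ℕ, 𝔓.In (((p ^ n : ℕ) : 𝔓.B) * b) := by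
  have hpr : (0 : ℝ) < p := by exact_mod_cast (Fact.out : p.Prime).pos
  obtain ⟨k, hk⟩ := 𝔓.cf_bdd b
  refine ⟨k, fun g => ?_⟩
  rw [← PGR.sc_natCast, PGR.cf_sc_mul, norm_mul, Nat.cast_pow, norm_pow, Padic.norm_p, inv_pow]
  calc ((p : ℝ) ^ k)⁻¹ * ‖𝔓.cf g b‖ ≤ ((p : ℝ) ^ k)⁻¹ * (p : ℝ) ^ k :=
        mul_le_mul_of_nonneg_left (hk g) (by positivity)
    _ = 1 := inv_mul_cancel₀ (by positivity)

lemma F6a_In_mul {b : 𝔓.B} (n : ℕ) (h : 𝔓.In b) : 𝔓.In ((n : 𝔓.B) * b) := by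
  rw [← nsmul_eq_mul]
  exact (Rh 𝔓).nsmul_mem h n

/-- the lattice in `WW` -/
def F6a_L (F : Submodule (Rh 𝔓) (Nx m Y σ → 𝔓.B)) (S : σ → Option J) (t : Option J) :
    AddSubgroup (WW 𝔓 Y S t) where
  carrier := {w | w.1 ∈ F}
  add_mem' := fun ha hb => F.add_mem ha hb
  zero_mem' := F.zero_mem
  neg_mem' := fun ha => F.neg_mem ha

lemma F6a_mem {F : Submodule (Rh 𝔓) (Nx m Y σ → 𝔓.B)} (hF : Lat 𝔓 F) (S : σ → Option J)
    (t : Option J) (w : WW 𝔓 Y S t) : ∃ n : ℕ, p ^ n • w ∈ F6a_L 𝔓 F S t := by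
  classical
  obtain ⟨-, ⟨a, ha⟩, -⟩ := hF
  choose k hk using fun b : Nx m Y σ => F6a_In 𝔓 (b := w.1 b)
  have h1 : ∀ b, 𝔓.In (((p ^ (∑ c, k c) : ℕ) : 𝔓.B) * w.1 b) := by
    intro b
    rw [← Finset.add_sum_erase _ _ (Finset.mem_univ b), add_comm, pow_add, Nat.cast_mul, mul_assoc]
    exact F6a_In_mul 𝔓 _ (hk b)
  refine ⟨a + ∑ c, k c, ?_⟩
  rw [pow_add, mul_smul]
  refine ha _ ⟨⟨fun i => ?_, fun y => ?_⟩, fun b => ?_⟩
  · have h2 := ((p ^ (∑ c, k c)) • w).2.2.2.1 i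
    exact h2
  · exact ((p ^ (∑ c, k c)) • w).2.2.2.2 y
  · change 𝔓.In ((p ^ (∑ c, k c)) • w.1 b)
    rw [nsmul_eq_mul]
    exact h1 b

/-- a linear map between the lattices extends to `WW` -/
lemma F6a_lin {F F' : Submodule (Rh 𝔓) (Nx m Y σ → 𝔓.B)} (hF : Lat 𝔓 F)
    (S : σ → Option J) (t : Option J) (α : LM 𝔓 F S t →ₗ[AZ 𝔓 t] LM 𝔓 F' S t) :
    ∃ f : WW 𝔓 Y S t →ₗ[At 𝔓 t] WW 𝔓 Y S t, ∀ (w : WW 𝔓 Y S t) (hw : w.1 ∈ F),
      (f w).1 = (α ⟨w.1, w.2, hw⟩).1 := by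
  have hq := F6a_bij 𝔓 (Y := Y) S t
  have hL := F6a_mem 𝔓 hF S t
  obtain ⟨f, hf⟩ := F6a_ext hq (F6a_L 𝔓 F S t) hL
    { toFun := fun x => ⟨(α ⟨x.1.1, x.1.2, x.2⟩).1, (α ⟨x.1.1, x.1.2, x.2⟩).2.1⟩
      map_zero' := by
        refine Subtype.ext ?_
        change (α 0).1 = 0
        rw [map_zero]
        rfl
      map_add' := by
        intro x y
        refine Subtype.ext ?_
        change (α (⟨x.1.1, x.1.2, x.2⟩ + ⟨y.1.1, y.1.2, y.2⟩)).1 = _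
        rw [map_add]
        rfl }
  have hf' : ∀ (w : WW 𝔓 Y S t) (hw : w.1 ∈ F), (f w).1 = (α ⟨w.1, w.2, hw⟩).1 := by
    intro w hw
    have h1 := hf ⟨w, hw⟩
    exact congrArg Subtype.val h1
  refine ⟨{ toFun := f, map_add' := map_add f, map_smul' := ?_ }, hf'⟩
  intro a w
  change f (a • w) = a • f w
  obtain ⟨k, hk⟩ := F6a_In 𝔓 (b := a.1)
  refine F6a_inj hq k ?_
  refine F6a_uniq hq (F6a_L 𝔓 F S t) hL
    { toFun := fun w => p ^ k • f (a • w)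
      map_zero' := by rw [smul_zero, map_zero, smul_zero]
      map_add' := fun v w => by rw [smul_add, map_add, smul_add] }
    { toFun := fun w => p ^ k • (a • f w)
      map_zero' := by rw [map_zero, smul_zero, smul_zero]
      map_add' := fun v w => by rw [map_add, smul_add, smul_add] } ?_ w
  intro x hx
  change p ^ k • f (a • x) = p ^ k • (a • f x)
  have hmem : ((p ^ k : ℕ) : 𝔓.B) * a.1 ∈ AZ 𝔓 t := by
    refine ⟨?_, hk⟩
    have h2 := (At 𝔓 t).nsmul_mem a.2 (p ^ k)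
    rwa [nsmul_eq_mul] at h2
  have h3 : p ^ k • (a • x) = (⟨((p ^ k : ℕ) : 𝔓.B) * a.1, hmem.1⟩ : At 𝔓 t) • x := by
    refine Subtype.ext (funext fun b => ?_)
    change p ^ k • (a.1 * x.1 b) = ((p ^ k : ℕ) : 𝔓.B) * a.1 * x.1 b
    rw [nsmul_eq_mul, mul_assoc]
  rw [← map_nsmul, h3]
  refine Subtype.ext ?_
  have hx' : ((⟨((p ^ k : ℕ) : 𝔓.B) * a.1, hmem.1⟩ : At 𝔓 t) • x).1 ∈ F :=
    F.smul_mem (⟨((p ^ k : ℕ) : 𝔓.B) * a.1, hmem.2⟩ : Rh 𝔓) hx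
  rw [hf' _ hx']
  have h4 := congrArg Subtype.val (map_smul α (⟨((p ^ k : ℕ) : 𝔓.B) * a.1, hmem⟩ : AZ 𝔓 t)
    ⟨x.1, x.2, hx⟩)
  refine h4.trans (funext fun b => ?_)
  change ((p ^ k : ℕ) : 𝔓.B) * a.1 * (α ⟨x.1, x.2, hx⟩).1 b = p ^ k • (a.1 * (f x).1 b)
  rw [hf' x hx, nsmul_eq_mul, mul_assoc]

/-- An isomorphism of the lattices extends to the module `WW` (multiply by a power of `p`), and it is
given by a block matrix (`exists_BM`). -/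
theorem ext_iso {F F' : Submodule (Rh 𝔓) (Nx m Y σ → 𝔓.B)} (hF : Lat 𝔓 F) (hF' : Lat 𝔓 F')
    (S : σ → Option J) (t : Option J) (α : LM 𝔓 F S t ≃ₗ[AZ 𝔓 t] LM 𝔓 F' S t) :
    ∃ g : (Matrix (Nx m Y σ) (Nx m Y σ) 𝔓.B)ˣ, BM 𝔓 S t g ∧
      ∀ v : LM 𝔓 F S t, Matrix.vecMul v.1 g.1 = (α v).1 := by
  have hq := F6a_bij 𝔓 (Y := Y) S t
  obtain ⟨f, hf⟩ := F6a_lin 𝔓 hF S t α.toLinearMap
  obtain ⟨g, hg⟩ := F6a_lin 𝔓 hF' S t α.symm.toLinearMap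
  have h1 : ∀ w, g (f w) = w := by
    refine F6a_uniq hq (F6a_L 𝔓 F S t) (F6a_mem 𝔓 hF S t) (g ∘ₗ f).toAddMonoidHom
      (AddMonoidHom.id _) ?_
    intro x hx
    change g (f x) = x
    refine Subtype.ext ?_
    have h2 : (f x).1 ∈ F' := by
      rw [hf x hx]
      exact (α ⟨x.1, x.2, hx⟩).2.2
    rw [hg _ h2]
    have h3 : (⟨(f x).1, (f x).2, h2⟩ : LM 𝔓 F' S t) = α ⟨x.1, x.2, hx⟩ := Subtype.ext (hf x hx)
    rw [h3]
    change (α.symm (α ⟨x.1, x.2, hx⟩)).1 = _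
    rw [LinearEquiv.symm_apply_apply]
  have h2 : ∀ w, f (g w) = w := by
    refine F6a_uniq hq (F6a_L 𝔓 F' S t) (F6a_mem 𝔓 hF' S t) (f ∘ₗ g).toAddMonoidHom
      (AddMonoidHom.id _) ?_
    intro x hx
    change f (g x) = x
    refine Subtype.ext ?_
    have h2 : (g x).1 ∈ F := by
      rw [hg x hx]
      exact (α.symm ⟨x.1, x.2, hx⟩).2.2
    rw [hf _ h2]
    have h3 : (⟨(g x).1, (g x).2, h2⟩ : LM 𝔓 F S t) = α.symm ⟨x.1, x.2, hx⟩ :=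
      Subtype.ext (hg x hx)
    rw [h3]
    change (α (α.symm ⟨x.1, x.2, hx⟩)).1 = _
    rw [LinearEquiv.apply_symm_apply]
  obtain ⟨M, hM, hM'⟩ := exists_BM 𝔓 S t
    { toLinearMap := f, invFun := g, left_inv := h1, right_inv := h2 }
  refine ⟨M, hM, fun v => ?_⟩
  rw [hM' ⟨v.1, v.2.1⟩]
  exact hf ⟨v.1, v.2.1⟩ v.2.2

end FP
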