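import Pool.Agent.Lib.MP_2d4659_gt.FP.E5
import Pool.Agent.Lib.MP_2d4659_gt.FP.F4a
import Pool.Agent.Lib.MP_2d4659_gt.FP.F6

/-!
# A good lattice `Jh θ` is `Jh δ` with `δ ∈ NN`

`δ` is the product of the block matrices `g_t` of all types (`block_std`).  `g_t` acts trivially on `W_{t'}`,
`t' ≠ t`, and commutes with the projections (`BM_prj`).  For `v ∈ Jh θ`: `v` is the sum of finitely many
`prj x v` and of a small element (`prj_approx`); for `x = g • bs t'`, `prj x v = u g v'` with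
`v' ∈ W_{t'} ∩ Jh θ` and `v' δ⁻¹ = v' g_{t'}⁻¹ ∈ Jh`.  In the same way `Jh ⊆ Jh θ δ⁻¹`.
-/

set_option autoImplicit false

namespace FP

variable {J : Type} [DecidableEq J] [Fintype J] {m : J → ℕ} {Y σ : Type} [Fintype Y] [DecidableEq Y]
  [Fintype σ] [DecidableEq σ] {p : ℕ} [Fact p.Prime] (𝔓 : PGR p (Gp m))

lemma F6d_inv_left (g : (Matrix (Nx m Y σ) (Nx m Y σ) 𝔓.B)ˣ) (v : Nx m Y σ → 𝔓.B) :
    Matrix.vecMul (Matrix.vecMul v g.1) g⁻¹.1 = v := by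
  rw [Matrix.vecMul_vecMul, ← Units.val_mul, mul_inv_cancel, Units.val_one, Matrix.vecMul_one]

lemma F6d_inv_right (g : (Matrix (Nx m Y σ) (Nx m Y σ) 𝔓.B)ˣ) (v : Nx m Y σ → 𝔓.B) :
    Matrix.vecMul (Matrix.vecMul v g⁻¹.1) g.1 = v := by
  rw [Matrix.vecMul_vecMul, ← Units.val_mul, inv_mul_cancel, Units.val_one, Matrix.vecMul_one]

/-- rows of a block are in the kernel of `Ψ` -/
lemma F6d_InV {S : σ → Option J} {t : Option J} {v : Nx m Y σ → 𝔓.B} (hv : RowW 𝔓 S t v) :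
    InV 𝔓 v := ⟨hv.2.2.1, hv.2.2.2⟩

/-- a matrix commutes with the projections -/
def F6d_Co (S : σ → Option J) (g : (Matrix (Nx m Y σ) (Nx m Y σ) 𝔓.B)ˣ) : Prop :=
  g ∈ SS 𝔓.u Y σ ∧ ∀ (x : Vx m) (v : Nx m Y σ → 𝔓.B), InV 𝔓 v →
    prj 𝔓 S x (Matrix.vecMul v g.1) = Matrix.vecMul (prj 𝔓 S x v) g.1

lemma F6d_Co_inv {S : σ → Option J} {g : (Matrix (Nx m Y σ) (Nx m Y σ) 𝔓.B)ˣ}
    (hg : F6d_Co 𝔓 S g) : F6d_Co 𝔓 S g⁻¹ := by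
  refine ⟨inv_mem hg.1, fun x v hv => ?_⟩
  have h1 : InV 𝔓 (Matrix.vecMul v g⁻¹.1) := (SS_InV 𝔓 (inv_mem hg.1) v).2 hv
  have h2 := hg.2 x _ h1
  rw [F6d_inv_right] at h2
  rw [h2, F6d_inv_left]

lemma F6d_Co_row {S : σ → Option J} {t : Option J} {g : (Matrix (Nx m Y σ) (Nx m Y σ) 𝔓.B)ˣ}
    (hg : F6d_Co 𝔓 S g) {v : Nx m Y σ → 𝔓.B} (hv : RowW 𝔓 S t v) :
    RowW 𝔓 S t (Matrix.vecMul v g.1) := by
  have h1 : InV 𝔓 (Matrix.vecMul v g.1) := (SS_InV 𝔓 hg.1 v).2 (F6d_InV 𝔓 hv)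
  refine (prj_fix_iff 𝔓 S t h1).1 ?_
  rw [hg.2 _ _ (F6d_InV 𝔓 hv), (prj_fix_iff 𝔓 S t (F6d_InV 𝔓 hv)).2 hv]

lemma F6d_BM_Co {S : σ → Option J} {t : Option J} {g : (Matrix (Nx m Y σ) (Nx m Y σ) 𝔓.B)ˣ}
    (hg : BM 𝔓 S t g) : F6d_Co 𝔓 S g := ⟨hg.1, fun x _ hv => BM_prj 𝔓 hg x hv⟩

lemma F6d_BM_triv {S : σ → Option J} {t t' : Option J} (htt : t' ≠ t)
    {g : (Matrix (Nx m Y σ) (Nx m Y σ) 𝔓.B)ˣ} (hg : BM 𝔓 S t g) {v : Nx m Y σ → 𝔓.B}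
    (hv : RowW 𝔓 S t' v) : Matrix.vecMul v g.1 = v := by
  funext b
  change ∑ a, v a * g.1 a b = v b
  rw [Finset.sum_eq_single b]
  · by_cases hb : blk S b = t'
    · rw [hg.2.1 b b (Or.inl (by rw [hb]; exact htt)), if_pos rfl, mul_one]
    · rw [hv.1 b hb, zero_mul]
  · intro a _ hab
    by_cases ha : blk S a = t'
    · rw [hg.2.1 a b (Or.inl (by rw [ha]; exact htt)), if_neg hab, mul_zero]
    · rw [hv.1 a ha, zero_mul]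
  · intro h
    exact absurd (Finset.mem_univ b) h

lemma F6d_prod {S : σ → Option J} (g : Option J → (Matrix (Nx m Y σ) (Nx m Y σ) 𝔓.B)ˣ)
    (hg : ∀ t, BM 𝔓 S t (g t)) (s : Finset (Option J)) : ∃ δ ∈ NN 𝔓 Y σ, F6d_Co 𝔓 S δ ∧
      (∀ t ∈ s, ∀ v, RowW 𝔓 S t v → Matrix.vecMul v δ.1 = Matrix.vecMul v (g t).1) ∧
      ∀ t ∉ s, ∀ v, RowW 𝔓 S t v → Matrix.vecMul v δ.1 = v := by
  induction s using Finset.induction_on with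
  | empty =>
    refine ⟨1, one_mem _, ⟨one_mem _, fun x v hv => ?_⟩, fun t ht => absurd ht (Finset.notMem_empty t),
      fun t _ v _ => ?_⟩
    · rw [Units.val_one, Matrix.vecMul_one, Matrix.vecMul_one]
    · rw [Units.val_one, Matrix.vecMul_one]
  | insert t0 s ht0 ih =>
    obtain ⟨δ, hδ, hco, h1, h2⟩ := ih
    have hco' := F6d_BM_Co 𝔓 (hg t0)
    have hmul : ∀ v : Nx m Y σ → 𝔓.B, Matrix.vecMul v (δ * g t0).1 =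
        Matrix.vecMul (Matrix.vecMul v δ.1) (g t0).1 := by
      intro v
      rw [Units.val_mul, Matrix.vecMul_vecMul]
    refine ⟨δ * g t0, mul_mem hδ (BM_mem_NN 𝔓 S t0 (hg t0)),
      ⟨mul_mem hco.1 hco'.1, fun x v hv => ?_⟩, fun t ht v hv => ?_, fun t ht v hv => ?_⟩
    · rw [hmul, hmul, hco'.2 x _ ((SS_InV 𝔓 hco.1 v).2 hv), hco.2 x v hv]
    · rw [hmul]
      rcases eq_or_ne t t0 with h | h
      · subst h
        rw [h2 t ht0 v hv]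
      · have hts : t ∈ s := (Finset.mem_insert.1 ht).resolve_left h
        rw [h1 t hts v hv]
        exact F6d_BM_triv 𝔓 h (hg t0) (F6d_Co_row 𝔓 (F6d_BM_Co 𝔓 (hg t)) hv)
    · rw [Finset.mem_insert, not_or] at ht
      rw [hmul, h2 t ht.2 v hv]
      exact F6d_BM_triv 𝔓 ht.1 (hg t0) hv

/-- two lattices stable under the projections which agree on the rows of the blocks -/
lemma F6d_le (S : σ → Option J) {F F' : Submodule (Rh 𝔓) (Nx m Y σ → 𝔓.B)} (hF : Lat 𝔓 F)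
    (hF' : Lat 𝔓 F') (hc : ∀ v ∈ F, ∀ x, prj 𝔓 S x v ∈ F)
    (h : ∀ t v, RowW 𝔓 S t v → v ∈ F → v ∈ F') : F ≤ F' := by
  intro v hv
  obtain ⟨ε, hε, hsmall⟩ := Lat.small 𝔓 hF'
  have hvV : InV 𝔓 v := hF.1 v hv
  obtain ⟨s, -, hs⟩ := prj_approx 𝔓 S hvV ε hε
  have h1 : ∀ x, prj 𝔓 S x v ∈ F' := by
    intro x
    obtain ⟨g, hg⟩ := exists_smul_bs x
    obtain ⟨t, ht⟩ : ∃ t, t = ty x := ⟨_, rfl⟩
    rw [← ht] at hg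
    obtain ⟨v', hv'⟩ : ∃ v' : Nx m Y σ → 𝔓.B, v' = prj 𝔓 S (bs m t) (fun b => 𝔓.u g⁻¹ * v b) :=
      ⟨_, rfl⟩
    have h2 : v' ∈ F := by
      rw [hv']
      exact hc _ (u_smul_mem 𝔓 g⁻¹ hv) _
    have h3 : RowW 𝔓 S t v' := by
      refine (prj_fix_iff 𝔓 S t (hF.1 v' h2)).1 ?_
      rw [hv', prj_prj]
    have h4 : prj 𝔓 S x v = fun b => 𝔓.u g * v' b := by
      rw [hv', ← prj_smul, ← hg]
      congr 1
      funext b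
      rw [← mul_assoc, ← map_mul, mul_inv_cancel, map_one, one_mul]
    rw [h4]
    exact u_smul_mem 𝔓 g (h t v' h3 h2)
  have h2 : InV 𝔓 (v - ∑ x ∈ s, prj 𝔓 S x v) := by
    refine ⟨fun i => ?_, fun y => ?_⟩
    · rw [Pi.sub_apply, Finset.sum_apply, sub_mul, Finset.sum_mul, hvV.1 i, Finset.sum_eq_zero,
        sub_zero]
      intro x _
      exact (prj_InV 𝔓 S x hvV).1 i
    · rw [Pi.sub_apply, Finset.sum_apply, hvV.2 y, Finset.sum_eq_zero, sub_zero]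
      intro x _
      exact (prj_InV 𝔓 S x hvV).2 y
  have h3 := hsmall _ h2 (hs s (Finset.Subset.refl s))
  have h4 := F'.add_mem h3 (F'.sum_mem fun x (_ : x ∈ s) => h1 x)
  rwa [sub_add_cancel] at h4

theorem good_std (S : σ → Option J) {θ : (Matrix (Nx m Y σ) (Nx m Y σ) 𝔓.B)ˣ}
    (hθ : θ ∈ SS 𝔓.u Y σ) (hc : ∀ v ∈ Jt 𝔓 θ, ∀ x, prj 𝔓 S x v ∈ Jt 𝔓 θ) :
    ∃ δ ∈ NN 𝔓 Y σ, Jt 𝔓 θ = Jt 𝔓 δ := by
  have hb := fun t => block_std 𝔓 S hθ hc t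
  choose g hg1 hg2 using hb
  obtain ⟨δ, hδ, hco, h1, -⟩ := F6d_prod 𝔓 g hg1 Finset.univ
  have hδS : δ ∈ SS 𝔓.u Y σ := NN_le_SS 𝔓 hδ
  have hcoi := F6d_Co_inv 𝔓 hco
  have hinv : ∀ t v, RowW 𝔓 S t v → Matrix.vecMul v δ⁻¹.1 = Matrix.vecMul v (g t)⁻¹.1 := by
    intro t v hv
    have h2 := F6d_Co_row 𝔓 (F6d_Co_inv 𝔓 (F6d_BM_Co 𝔓 (hg1 t))) hv
    have h3 := h1 t (Finset.mem_univ t) _ h2
    rw [F6d_inv_right] at h3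
    nth_rewrite 1 [← h3]
    rw [F6d_inv_left]
  have hiff : ∀ t v, RowW 𝔓 S t v → (v ∈ Jt 𝔓 θ ↔ v ∈ Jt 𝔓 δ) := by
    intro t v hv
    rw [mem_Jt 𝔓 (θ := δ), hinv t v hv]
    exact hg2 t v hv
  have hcδ : ∀ v ∈ Jt 𝔓 δ, ∀ x, prj 𝔓 S x v ∈ Jt 𝔓 δ := by
    intro v hv x
    rw [mem_Jt] at hv ⊢
    have hvV : InV 𝔓 v := by
      have h2 := (SS_InV 𝔓 hδS _).2 hv.1
      rwa [F6d_inv_right] at h2
    rw [← hcoi.2 x v hvV]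
    exact ⟨prj_InV 𝔓 S x hv.1, fun b => prj_Le 𝔓 S x zero_le_one hv.2 b⟩
  exact ⟨δ, hδ, le_antisymm
    (F6d_le 𝔓 S (Jt_Lat 𝔓 hθ) (Jt_Lat 𝔓 hδS) hc fun t v hv h => (hiff t v hv).1 h)
    (F6d_le 𝔓 S (Jt_Lat 𝔓 hδS) (Jt_Lat 𝔓 hθ) hcδ fun t v hv h => (hiff t v hv).2 h)⟩

end FP
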