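import Pool.Agent.Lib.MP_2d4659_gt.FP.D2
import Pool.Agent.Lib.MP_2d4659_gt.FP.E2

/-!
# Lattices in the kernel of `Ψ` over the completed group ring

`Rh` is the ring of integral elements, `Vh` the kernel of `v ↦ v Ψ`, `Jh = Vh ∩ Rh^n`.  A lattice is an
`Rh`-submodule `F` of `Vh` with `p^a Jh ≤ F`, `p^b F ≤ Jh`.  For a distribution `S` of the free slots and a
vertex `x`, `prj S x` is the projection of `Vh` to the piece of `x` in the standard frame. A lattice `F` is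
`Good F S A` if `A ∈ NN` and `{v | v A ∈ F}` is stable under all `prj S x`.  `Lb F = F / p F` is a vector
space over `ZMod p` with an action `rhoF` of `G`, `VF F S A x` is the image of the elements `v A ∈ F` with
`prj S x v = v`.
-/

set_option autoImplicit false

namespace FP

variable {J : Type} [DecidableEq J] [Fintype J] {m : J → ℕ} {Y σ : Type} [Fintype Y] [DecidableEq Y]
  [Fintype σ] [DecidableEq σ] {p : ℕ} [Fact p.Prime] (𝔓 : PGR p (Gp m))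

/-- the ring of integral elements -/
def Rh : Subring 𝔓.B where
  carrier := {b | 𝔓.In b}
  mul_mem' := fun ha hb => PGR.In.mul 𝔓 ha hb
  one_mem' := by
    have := 𝔓.In_u 1
    rwa [map_one] at this
  add_mem' := fun ha hb => PGR.Le.add 𝔓 ha hb
  zero_mem' := fun g => by rw [map_zero, norm_zero]; exact zero_le_one
  neg_mem' := fun ha => PGR.Le.neg 𝔓 ha

/-- the kernel of `Ψ` -/
def InV (v : Nx m Y σ → 𝔓.B) : Prop :=
  (∀ i : FJ m, v (Sum.inl (Sum.inl i)) * NB 𝔓.u i = 0) ∧ ∀ y : Y, v (Sum.inl (Sum.inr y)) = 0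

/-- the standard lattice -/
def Jh (Y σ : Type) [Fintype Y] [DecidableEq Y] [Fintype σ] [DecidableEq σ] :
    Submodule (Rh 𝔓) (Nx m Y σ → 𝔓.B) where
  carrier := {v | InV 𝔓 v ∧ ∀ b, 𝔓.In (v b)}
  add_mem' := by
    rintro v w ⟨⟨h1, h2⟩, h3⟩ ⟨⟨k1, k2⟩, k3⟩
    refine ⟨⟨fun i => ?_, fun y => ?_⟩, fun b => PGR.Le.add 𝔓 (h3 b) (k3 b)⟩
    · rw [Pi.add_apply, add_mul, h1, k1, add_zero]
    · rw [Pi.add_apply, h2, k2, add_zero]
  zero_mem' := ⟨⟨fun i => by rw [Pi.zero_apply, zero_mul], fun y => rfl⟩,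
    fun b => (Rh 𝔓).zero_mem⟩
  smul_mem' := by
    rintro c v ⟨⟨h1, h2⟩, h3⟩
    refine ⟨⟨fun i => ?_, fun y => ?_⟩, fun b => PGR.In.mul 𝔓 c.2 (h3 b)⟩
    · change (c : 𝔓.B) * v _ * _ = 0
      rw [mul_assoc, h1, mul_zero]
    · change (c : 𝔓.B) * v _ = 0
      rw [h2, mul_zero]

/-- right multiplication by a matrix -/
def mulM {n : Type} [Fintype n] (M : Matrix n n 𝔓.B) : (n → 𝔓.B) →ₗ[Rh 𝔓] (n → 𝔓.B) where
  toFun v := Matrix.vecMul v M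
  map_add' _ _ := Matrix.add_vecMul _ _ _
  map_smul' _ _ := Matrix.smul_vecMul _ _ _

/-- the elements of `G` corresponding to a vertex -/
def cs (x : Vx m) : Set (Gp m) := {g | g • bs m (ty x) = x}

/-- the projection to the piece of the vertex `x` in the standard frame -/
def prj (S : σ → Option J) (x : Vx m) : (Nx m Y σ → 𝔓.B) →+ (Nx m Y σ → 𝔓.B) where
  toFun v := fun b => open Classical in if blk S b = ty x then 𝔓.rs (cs x) (v b) else 0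
  map_zero' := by ext b; simp
  map_add' v w := by
    ext b
    by_cases h : blk S b = ty x <;> simp [h]

/-- `F` is a lattice -/
def Lat (F : Submodule (Rh 𝔓) (Nx m Y σ → 𝔓.B)) : Prop :=
  (∀ v ∈ F, InV 𝔓 v) ∧ (∃ a : ℕ, ∀ v ∈ Jh 𝔓 Y σ, (p ^ a : ℕ) • v ∈ F) ∧
    ∃ b : ℕ, ∀ v ∈ F, (p ^ b : ℕ) • v ∈ Jh 𝔓 Y σ

/-- the frame given by `S` and `A` is compatible with `F` -/
def Good (F : Submodule (Rh 𝔓) (Nx m Y σ → 𝔓.B)) (S : σ → Option J)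
    (A : (Matrix (Nx m Y σ) (Nx m Y σ) 𝔓.B)ˣ) : Prop :=
  A ∈ NN 𝔓 Y σ ∧ ∀ (v : Nx m Y σ → 𝔓.B) (x : Vx m), Matrix.vecMul v A.1 ∈ F →
    Matrix.vecMul (prj 𝔓 S x v) A.1 ∈ F

section quot

variable (F : Submodule (Rh 𝔓) (Nx m Y σ → 𝔓.B))

lemma u_smul_mem {F : Submodule (Rh 𝔓) (Nx m Y σ → 𝔓.B)} (g : Gp m) {v : Nx m Y σ → 𝔓.B}
    (hv : v ∈ F) : (fun b => 𝔓.u g * v b) ∈ F :=
  F.smul_mem (⟨𝔓.u g, 𝔓.In_u g⟩ : Rh 𝔓) hv

/-- a model of the quotient `F / p F` with the action of `G` -/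
structure LQ where
  L : Type
  [grp : AddCommGroup L]
  [mod : Module (ZMod p) L]
  /-- the quotient map -/
  q : F →+ L
  q_surj : Function.Surjective q
  q_ker : ∀ v : F, q v = 0 ↔ ∃ w ∈ F, v.1 = (p : ℕ) • w
  ρ : Gp m →* (L →ₗ[ZMod p] L)
  ρ_q : ∀ (g : Gp m) (v : F), ρ g (q v) = q ⟨fun b => 𝔓.u g * v.1 b, u_smul_mem 𝔓 g v.2⟩

attribute [instance] LQ.grp LQ.mod

variable {F}

/-- the pieces of `F / p F` -/
noncomputable def VF (Q : LQ 𝔓 F) (S : σ → Option J)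
    (A : (Matrix (Nx m Y σ) (Nx m Y σ) 𝔓.B)ˣ) (x : Vx m) : Submodule (ZMod p) Q.L :=
  AddSubgroup.toZModSubmodule p
    { carrier := {y | ∃ (v : Nx m Y σ → 𝔓.B) (hv : Matrix.vecMul v A.1 ∈ F), prj 𝔓 S x v = v ∧
        y = Q.q ⟨Matrix.vecMul v A.1, hv⟩}
      add_mem' := by
        rintro _ _ ⟨v, hv, h1, rfl⟩ ⟨w, hw, h2, rfl⟩
        refine ⟨v + w, by rw [Matrix.add_vecMul]; exact add_mem hv hw, by rw [map_add, h1, h2], ?_⟩
        rw [← map_add]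
        congr 1
        exact Subtype.ext (Matrix.add_vecMul _ _ _).symm
      zero_mem' := ⟨0, by rw [Matrix.zero_vecMul]; exact zero_mem _, map_zero _, by
        rw [← map_zero Q.q]
        congr 1
        exact Subtype.ext (Matrix.zero_vecMul _).symm⟩
      neg_mem' := by
        rintro _ ⟨v, hv, h1, rfl⟩
        refine ⟨-v, by rw [Matrix.neg_vecMul]; exact neg_mem hv, by rw [map_neg, h1], ?_⟩
        rw [← map_neg]
        congr 1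
        exact Subtype.ext (Matrix.neg_vecMul _ _).symm }

lemma mem_VF (Q : LQ 𝔓 F) (S : σ → Option J) (A : (Matrix (Nx m Y σ) (Nx m Y σ) 𝔓.B)ˣ) (x : Vx m)
    (y : Q.L) : y ∈ VF 𝔓 Q S A x ↔ ∃ (v : Nx m Y σ → 𝔓.B) (hv : Matrix.vecMul v A.1 ∈ F),
      prj 𝔓 S x v = v ∧ y = Q.q ⟨Matrix.vecMul v A.1, hv⟩ := Iff.rfl

end quot

/-- the lattice `Jh θ` -/
noncomputable def Jt (θ : (Matrix (Nx m Y σ) (Nx m Y σ) 𝔓.B)ˣ) :
    Submodule (Rh 𝔓) (Nx m Y σ → 𝔓.B) := (Jh 𝔓 Y σ).map (mulM 𝔓 θ.1)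

/-- the next lattice: the `v ∈ Jh θ` with `p v ∈ F` -/
noncomputable def Fn (F : Submodule (Rh 𝔓) (Nx m Y σ → 𝔓.B))
    (θ : (Matrix (Nx m Y σ) (Nx m Y σ) 𝔓.B)ˣ) : Submodule (Rh 𝔓) (Nx m Y σ → 𝔓.B) :=
  F.comap ((p : ℕ) • (LinearMap.id : (Nx m Y σ → 𝔓.B) →ₗ[Rh 𝔓] (Nx m Y σ → 𝔓.B))) ⊓ Jt 𝔓 θ

end FP
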