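import Pool.Agent.Lib.MP_2d4659_gt.FP.E1

/-!
# Automorphisms preserving the standard lattice

`KL`: an integral element `f` with `(a_i - 1) f = 0` and `f (a_l - 1) = 0` is constant on the double cosets
`HJ i g HJ l`; these have `m i * m l` elements, except for `i = l`, `g ∈ HJ i`, with `m i` elements.  Let `T`
be a set of representatives of the double cosets; then `f = N_i (rs T f) N_l`, respectively
`f = N_i (rs T f) N_i` outside `HJ i` and `f = c N_i` on `HJ i`.
-/

set_option autoImplicit false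

namespace FP

lemma G1_of_ne {ι : Type} [DecidableEq ι] {M : ι → Type} [∀ i, Group (M i)] {i l : ι} (h : i ≠ l)
    {x : M i} {y : M l}
    (e : (Monoid.CoprodI.of x : Monoid.CoprodI M) = Monoid.CoprodI.of y) : x = 1 := by
  have h1 := congrArg (Monoid.CoprodI.lift (fun j => if hj : j = i then
    (MulEquiv.cast (M := M) hj).toMonoidHom else (1 : M j →* M i))) e
  rw [Monoid.CoprodI.lift_of, Monoid.CoprodI.lift_of, dif_pos rfl, dif_neg (Ne.symm h)] at h1
  exact h1

open Monoid.CoprodI in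
/-- conjugation of a non trivial element of a factor into a factor -/
theorem G1_mal {ι : Type} [DecidableEq ι] {M : ι → Type} [∀ i, Group (M i)]
    (n : ℕ) : ∀ (w : Word M), w.toList.length = n → ∀ {i l : ι} (x : M i) (y : M l),
      x ≠ 1 → y ≠ 1 → (of x : Monoid.CoprodI M) * w.prod = w.prod * of y →
      i = l ∧ w.prod ∈ (of : M i →* Monoid.CoprodI M).range := by
  classical
  induction n using Nat.strong_induction_on with
  | _ n ih =>
  intro w hw i l x y hx hy he
  obtain ⟨L, hL1, hL2⟩ := w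
  change L.length = n at hw
  change _ * (L.map fun l => of l.snd).prod = (L.map fun l => of l.snd).prod * _ at he
  change _ ∧ (L.map fun l => of l.snd).prod ∈ _
  rcases L.eq_nil_or_concat with rfl | ⟨L', b, rfl⟩
  · simp only [List.map_nil, List.prod_nil, mul_one, one_mul] at he ⊢
    refine ⟨?_, one_mem _⟩
    by_contra hne
    exact hx (G1_of_ne hne he)
  · rw [List.concat_eq_append] at *
    obtain ⟨lb, b⟩ := b
    by_cases hl : lb = l
    · -- strip the last letter
      subst hl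
      rw [List.map_append, List.prod_append, List.map_singleton, List.prod_singleton] at he ⊢
      change _ * (_ * of b) = (_ * of b) * _ at he
      change _ ∧ _ * of b ∈ _
      have hlen : L'.length < n := by
        rw [← hw, List.length_append, List.length_singleton]
        exact Nat.lt_succ_self _
      have h2 : (of x : Monoid.CoprodI M) * (L'.map fun l => of l.snd).prod =
          (L'.map fun l => of l.snd).prod * of (b * y * b⁻¹) := by
        calc (of x : Monoid.CoprodI M) * (L'.map fun l => of l.snd).prod =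
            of x * ((L'.map fun l => of l.snd).prod * of b) * (of b)⁻¹ := by group
          _ = (L'.map fun l => of l.snd).prod * of b * of y * (of b)⁻¹ := by rw [he]
          _ = _ := by rw [map_mul, map_mul, map_inv]; group
      have hy' : b * y * b⁻¹ ≠ 1 := by
        intro h0
        apply hy
        have h1 : y = b⁻¹ * (b * y * b⁻¹) * b := by group
        rw [h1, h0]
        group
      obtain ⟨h3, h4⟩ := ih L'.length hlen ⟨L', fun l hl => hL1 l (List.mem_append_left _ hl),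
        hL2.left_of_append⟩ rfl x (b * y * b⁻¹) hx hy' h2
      subst h3
      exact ⟨rfl, mul_mem h4 ⟨b, rfl⟩⟩
    · cases hL' : L' ++ [(⟨lb, b⟩ : Σ i, M i)] with
      | nil => exact absurd hL' (by simp)
      | cons a K =>
        obtain ⟨ia, a⟩ := a
        rw [hL'] at he hw hL1 hL2
        by_cases hi : ia = i
        · -- strip the first letter
          subst hi
          rw [List.map_cons, List.prod_cons] at he ⊢
          change _ * (of a * _) = (of a * _) * _ at he
          change _ ∧ of a * _ ∈ _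
          have hlen : K.length < n := by
            rw [← hw, List.length_cons]
            exact Nat.lt_succ_self _
          have h2 : (of (a⁻¹ * x * a) : Monoid.CoprodI M) * (K.map fun l => of l.snd).prod =
              (K.map fun l => of l.snd).prod * of y := by
            calc (of (a⁻¹ * x * a) : Monoid.CoprodI M) * (K.map fun l => of l.snd).prod =
                (of a)⁻¹ * (of x * (of a * (K.map fun l => of l.snd).prod)) := by
                  rw [map_mul, map_mul, map_inv]; group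
              _ = (of a)⁻¹ * (of a * (K.map fun l => of l.snd).prod * of y) := by rw [he]
              _ = _ := by group
          have hx' : a⁻¹ * x * a ≠ 1 := by
            intro h0
            apply hx
            have h1 : x = a * (a⁻¹ * x * a) * a⁻¹ := by group
            rw [h1, h0]
            group
          obtain ⟨h3, h4⟩ := ih K.length hlen ⟨K, fun l hl => hL1 l (List.mem_cons_of_mem _ hl),
            hL2.tail⟩ rfl (a⁻¹ * x * a) y hx' hy h2
          exact ⟨h3, mul_mem ⟨a, rfl⟩ h4⟩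
        · -- the word `x w y⁻¹` is reduced and longer than `w`
          exfalso
          have hlast : ((⟨ia, a⟩ : Σ i, M i) :: K).getLast? = some ⟨lb, b⟩ := by
            rw [← hL', List.getLast?_append]
            rfl
          have hc1 : List.IsChain (fun l l' : Σ i, M i => l.1 ≠ l'.1)
              ((⟨i, x⟩ : Σ i, M i) :: (((⟨ia, a⟩ : Σ i, M i) :: K) ++ [(⟨l, y⁻¹⟩ : Σ i, M i)])) := by
            rw [List.isChain_cons, List.isChain_append]
            refine ⟨?_, hL2, List.isChain_singleton _, ?_⟩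
            · intro z hz
              rw [List.cons_append, List.head?_cons, Option.mem_some_iff] at hz
              rw [← hz]
              exact fun h => hi h.symm
            · intro z hz z' hz'
              rw [hlast, Option.mem_some_iff] at hz
              rw [List.head?_cons, Option.mem_some_iff] at hz'
              rw [← hz, ← hz']
              exact hl
          have hn1 : ∀ z ∈ ((⟨i, x⟩ : Σ i, M i) :: (((⟨ia, a⟩ : Σ i, M i) :: K) ++
              [(⟨l, y⁻¹⟩ : Σ i, M i)])), z.2 ≠ 1 := by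
            intro z hz
            rw [List.mem_cons, List.mem_append, List.mem_singleton] at hz
            rcases hz with rfl | hz | rfl
            · exact hx
            · exact hL1 z hz
            · exact inv_ne_one.2 hy
          have h5 : (⟨_, hn1, hc1⟩ : Word M).prod = (⟨_, hL1, hL2⟩ : Word M).prod := by
            change (List.map _ _).prod = (List.map _ _).prod
            rw [List.map_cons, List.prod_cons, List.map_append, List.prod_append, List.map_singleton,
              List.prod_singleton, ← mul_assoc, he]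
            change _ * _ * of y⁻¹ = _
            rw [map_inv, mul_inv_cancel_right]
          have h6 := Word.equiv.symm.injective (a₁ := (⟨_, hn1, hc1⟩ : Word M))
            (a₂ := (⟨_, hL1, hL2⟩ : Word M)) h5
          have h7 := congrArg (fun w : Word M => w.toList.length) h6
          simp at h7
          omega

variable {J : Type} [DecidableEq J] [Fintype J] {m : J → ℕ} {Y σ : Type} [Fintype Y] [DecidableEq Y]
  [Fintype σ] [DecidableEq σ] {p : ℕ} [Fact p.Prime] (𝔓 : PGR p (Gp m))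

lemma G1_HT {j : J} (hj : m j ≠ 0) {h : Gp m} (hh : h ∈ HT m (some j)) :
    ∃ x : Multiplicative (ZMod (m j)), h =
      (Monoid.CoprodI.of (M := fun j => Multiplicative (ZMod (m j))) (i := j) x : Gp m) := by
  have h1 : h ∈ HJ m j := hh
  rw [Gdefs_HJ_ne hj] at h1
  obtain ⟨x, hx⟩ := h1
  exact ⟨x, hx.symm⟩

/-- the stabilisers of two vertices intersect trivially -/
lemma G1_triv (i l : FJ m) {g h k : Gp m} (hh : h ∈ HT m (some i.1)) (hk : k ∈ HT m (some l.1))
    (he : h * g = g * k) (hne : h ≠ 1) : i = l ∧ g ∈ HT m (some i.1) := by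
  classical
  obtain ⟨x, hx⟩ := G1_HT i.2 hh
  obtain ⟨y, hy⟩ := G1_HT l.2 hk
  have hx1 : x ≠ 1 := by
    rintro rfl
    exact hne (by rw [hx, map_one])
  have hy1 : y ≠ 1 := by
    rintro rfl
    apply hne
    rw [hy, map_one, mul_one] at he
    exact mul_eq_right.1 he
  obtain ⟨w, hw⟩ : ∃ w : Monoid.CoprodI.Word (fun j => Multiplicative (ZMod (m j))), w.prod = g :=
    ⟨Monoid.CoprodI.Word.equiv g, Monoid.CoprodI.Word.equiv.symm_apply_apply g⟩
  obtain ⟨h1, h2⟩ := G1_mal _ w rfl x y hx1 hy1 (by rw [hw, ← hx, ← hy]; exact he)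
  refine ⟨Subtype.ext h1, ?_⟩
  change g ∈ HJ m i.1
  rw [Gdefs_HJ_ne i.2, ← hw]
  exact h2

/-- representatives of the double cosets -/
def G1T (i l : FJ m) : Set (Gp m) :=
  {g | (DoubleCoset.mk (HT m (some i.1)) (HT m (some l.1)) g).out = g}

lemma G1_ex (i l : FJ m) (g : Gp m) : ∃ h ∈ HT m (some i.1), ∃ k ∈ HT m (some l.1),
    h * g * k ∈ G1T i l := by
  obtain ⟨h, k, hh, hk, he⟩ := DoubleCoset.mk_out_eq_mul (HT m (some i.1)) (HT m (some l.1)) g
  refine ⟨h, hh, k, hk, ?_⟩
  change (DoubleCoset.mk (HT m (some i.1)) (HT m (some l.1)) (h * g * k)).out = h * g * k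
  rw [← he, DoubleCoset.out_eq']

lemma G1_eq (i l : FJ m) {g h k : Gp m} (hh : h ∈ HT m (some i.1)) (hk : k ∈ HT m (some l.1))
    (hg : g ∈ G1T i l) (hg' : h * g * k ∈ G1T i l) : h * g * k = g := by
  have h1 : (DoubleCoset.mk (HT m (some i.1)) (HT m (some l.1)) g).out = g := hg
  have h2 : (DoubleCoset.mk (HT m (some i.1)) (HT m (some l.1)) (h * g * k)).out = h * g * k := hg'
  have h3 : DoubleCoset.mk (HT m (some i.1)) (HT m (some l.1)) g =
      DoubleCoset.mk (HT m (some i.1)) (HT m (some l.1)) (h * g * k) := by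
    rw [DoubleCoset.eq]
    exact ⟨h, hh, k, hk, rfl⟩
  rw [← h2, ← h3, h1]

/-- the coefficients of `N_i r N_l` -/
lemma G1_coef (i l : FJ m) (r : 𝔓.B) (g : Gp m) : 𝔓.cf g (NB 𝔓.u i * r * NB 𝔓.u l) =
    ∑ c ∈ Finset.range (m i.1), ∑ d ∈ Finset.range (m l.1),
      𝔓.cf ((gen m i.1 ^ c)⁻¹ * g * (gen m l.1 ^ d)⁻¹) r := by
  unfold NB
  rw [Finset.sum_mul, Finset.sum_mul, map_sum]
  refine Finset.sum_congr rfl fun c _ => ?_
  rw [Finset.mul_sum, map_sum]
  refine Finset.sum_congr rfl fun d _ => ?_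
  rw [← map_pow, ← map_pow, 𝔓.cf_mul_u, 𝔓.cf_u_mul, mul_assoc]

lemma G1_pow (i : FJ m) {h : Gp m} (hh : h ∈ HT m (some i.1)) :
    ∃ c < m i.1, h = (gen m i.1 ^ c)⁻¹ := by
  obtain ⟨c, hc, hc'⟩ := (mem_HT_some i.2 _).1 (inv_mem hh)
  exact ⟨c, hc, by rw [← hc', inv_inv]⟩

/-- the main computation -/
lemma G1_main (i l : FJ m) (Z : Set (Gp m))
    (hZ : ∀ h ∈ HT m (some i.1), ∀ k ∈ HT m (some l.1), ∀ g, h * g * k ∈ Z ↔ g ∈ Z)
    (hZ2 : ∀ g ∈ Z, ∀ h ∈ HT m (some i.1), ∀ k ∈ HT m (some l.1), h * g = g * k → h = 1)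
    {f : 𝔓.B} (hf : ∀ h ∈ HT m (some i.1), ∀ k ∈ HT m (some l.1), ∀ g,
      𝔓.cf (h * g * k) f = 𝔓.cf g f) (g : Gp m) :
    𝔓.cf g (NB 𝔓.u i * 𝔓.rs (G1T i l ∩ Z) f * NB 𝔓.u l) = (open Classical in if g ∈ Z then 𝔓.cf g f else 0) := by
  classical
  have hi : ∀ c, (gen m i.1 ^ c)⁻¹ ∈ HT m (some i.1) := fun c => inv_mem (E1_gen_mem i c)
  have hl : ∀ c, (gen m l.1 ^ c)⁻¹ ∈ HT m (some l.1) := fun c => inv_mem (E1_gen_mem l c)
  rw [G1_coef]
  split_ifs with hg
  · obtain ⟨h, hh, k, hk, hT⟩ := G1_ex i l g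
    obtain ⟨c, hc, rfl⟩ := G1_pow i hh
    obtain ⟨d, hd, rfl⟩ := G1_pow l hk
    have key : ∀ c' < m i.1, ∀ d' < m l.1, (gen m i.1 ^ c')⁻¹ * g * (gen m l.1 ^ d')⁻¹ ∈ G1T i l →
        c' = c ∧ d' = d := by
      intro c' hc' d' hd' hT'
      have e1 : (gen m i.1 ^ c')⁻¹ * g * (gen m l.1 ^ d')⁻¹ =
          ((gen m i.1 ^ c')⁻¹ * (gen m i.1 ^ c)) * ((gen m i.1 ^ c)⁻¹ * g * (gen m l.1 ^ d)⁻¹) *
            ((gen m l.1 ^ d) * (gen m l.1 ^ d')⁻¹) := by group
      have hT2 := hT'
      rw [e1] at hT2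
      have h1 : (gen m i.1 ^ c')⁻¹ * (gen m i.1 ^ c) ∈ HT m (some i.1) :=
        mul_mem (hi _) (E1_gen_mem i c)
      have h2 : (gen m l.1 ^ d) * (gen m l.1 ^ d')⁻¹ ∈ HT m (some l.1) :=
        mul_mem (E1_gen_mem l d) (hl _)
      have h3 := G1_eq i l h1 h2 hT hT2
      rw [← e1] at h3
      -- `a^(-c') g b^(-d') = a^(-c) g b^(-d)`
      have h4 : ((gen m i.1 ^ c) * (gen m i.1 ^ c')⁻¹) * g =
          g * ((gen m l.1 ^ d)⁻¹ * (gen m l.1 ^ d')) := by
        have : ((gen m i.1 ^ c) * (gen m i.1 ^ c')⁻¹) * g = (gen m i.1 ^ c) *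
            ((gen m i.1 ^ c')⁻¹ * g * (gen m l.1 ^ d')⁻¹) * (gen m l.1 ^ d') := by group
        rw [this, h3]
        group
      have h5 := hZ2 g hg _ (mul_mem (E1_gen_mem i c) (hi c')) _
        (mul_mem (hl d) (E1_gen_mem l d')) h4
      have h6 : c' = c := (gen_pow_inj i.2 hc hc' (mul_inv_eq_one.1 h5)).symm
      rw [h5, one_mul] at h4
      have h7 := (mul_eq_left.1 h4.symm)
      have h8 : d' = d := (gen_pow_inj l.2 hd hd' (inv_mul_eq_one.1 h7)).symm
      exact ⟨h6, h8⟩
    rw [Finset.sum_eq_single c, Finset.sum_eq_single d]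
    · have h1 : (gen m i.1 ^ c)⁻¹ * g * (gen m l.1 ^ d)⁻¹ ∈ G1T i l ∩ Z :=
        ⟨hT, (hZ _ (hi c) _ (hl d) g).2 hg⟩
      rw [𝔓.cf_rs_mem _ _ _ h1, hf _ (hi c) _ (hl d)]
    · intro d' hd' hne
      refine 𝔓.cf_rs_notMem _ _ _ fun h => hne (key c hc d' (Finset.mem_range.1 hd') h.1).2
    · intro h
      exact absurd (Finset.mem_range.2 hd) h
    · intro c' hc' hne
      refine Finset.sum_eq_zero fun d' hd' => 𝔓.cf_rs_notMem _ _ _ fun h => hne
        (key c' (Finset.mem_range.1 hc') d' (Finset.mem_range.1 hd') h.1).1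
    · intro h
      exact absurd (Finset.mem_range.2 hc) h
  · refine Finset.sum_eq_zero fun c _ => Finset.sum_eq_zero fun d _ => ?_
    exact 𝔓.cf_rs_notMem _ _ _ fun h => hg ((hZ _ (hi c) _ (hl d) g).1 h.2)

/-- constancy on double cosets -/
lemma G1_const (i l : FJ m) {f : 𝔓.B} (h1 : (𝔓.u (gen m i.1) - 1) * f = 0)
    (h2 : f * (𝔓.u (gen m l.1) - 1) = 0) : ∀ h ∈ HT m (some i.1), ∀ k ∈ HT m (some l.1), ∀ g,
      𝔓.cf (h * g * k) f = 𝔓.cf g f := by
  have e1 : ∀ c : ℕ, 𝔓.u (gen m i.1) ^ c * f = f := by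
    have h0 : 𝔓.u (gen m i.1) * f = f := by
      rw [sub_mul, one_mul, sub_eq_zero] at h1
      exact h1
    intro c
    induction c with
    | zero => rw [pow_zero, one_mul]
    | succ c ih => rw [pow_succ, mul_assoc, h0, ih]
  have e2 : ∀ c : ℕ, f * 𝔓.u (gen m l.1) ^ c = f := by
    have h0 : f * 𝔓.u (gen m l.1) = f := by
      rw [mul_sub, mul_one, sub_eq_zero] at h2
      exact h2
    intro c
    induction c with
    | zero => rw [pow_zero, mul_one]
    | succ c ih => rw [pow_succ, ← mul_assoc, ih, h0]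
  intro h hh k hk g
  obtain ⟨c, -, rfl⟩ := G1_pow i hh
  obtain ⟨d, -, rfl⟩ := G1_pow l hk
  rw [← 𝔓.cf_mul_u, ← 𝔓.cf_u_mul, map_pow, map_pow, ← mul_assoc, e1, e2]

theorem KL_ne {i l : FJ m} (hil : i ≠ l) {f : 𝔓.B} (hf : 𝔓.In f)
    (h1 : (𝔓.u (gen m i.1) - 1) * f = 0) (h2 : f * (𝔓.u (gen m l.1) - 1) = 0) :
    ∃ r, 𝔓.In r ∧ f = NB 𝔓.u i * r * NB 𝔓.u l := by
  classical
  refine ⟨𝔓.rs (G1T i l ∩ Set.univ) f, 𝔓.rs_Le zero_le_one _ hf, 𝔓.ext fun g => ?_⟩
  rw [G1_main 𝔓 i l Set.univ (fun _ _ _ _ _ => by simp) ?_ (G1_const 𝔓 i l h1 h2),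
    if_pos (Set.mem_univ g)]
  intro g _ h hh k hk he
  by_contra hne
  exact hil (G1_triv i l hh hk he hne).1

theorem KL_eq (i : FJ m) {f : 𝔓.B} (hf : 𝔓.In f)
    (h1 : (𝔓.u (gen m i.1) - 1) * f = 0) (h2 : f * (𝔓.u (gen m i.1) - 1) = 0) :
    ∃ (r : 𝔓.B) (c : ℚ_[p]), 𝔓.In r ∧ ‖c‖ ≤ 1 ∧
      f = NB 𝔓.u i * r * NB 𝔓.u i + 𝔓.sc c * NB 𝔓.u i := by
  classical
  have hconst := G1_const 𝔓 i i h1 h2
  refine ⟨𝔓.rs (G1T i i ∩ (HS m (some i.1))ᶜ) f, 𝔓.cf 1 f, 𝔓.rs_Le zero_le_one _ hf, hf 1,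
    𝔓.ext fun g => ?_⟩
  rw [map_add, G1_main 𝔓 i i (HS m (some i.1))ᶜ ?_ ?_ hconst]
  · by_cases hg : g ∈ HS m (some i.1)
    · rw [if_neg (fun h => h hg), zero_add, 𝔓.cf_sc_mul]
      have h3 : 𝔓.cf g f = 𝔓.cf 1 f := by
        have := hconst g hg 1 (one_mem _) 1
        rwa [mul_one, mul_one] at this
      have h4 : 𝔓.cf g (NB 𝔓.u i) = 1 := by
        obtain ⟨c, hc, rfl⟩ := (mem_HT_some i.2 _).1 hg
        unfold NB
        rw [map_sum, Finset.sum_eq_single c]
        · rw [← map_pow, E1_cf_u, if_pos rfl]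
        · intro d hd hne
          rw [← map_pow, E1_cf_u, if_neg]
          intro h
          exact hne (gen_pow_inj i.2 (Finset.mem_range.1 hd) hc h)
        · intro h
          exact absurd (Finset.mem_range.2 hc) h
      rw [h3, h4, mul_one]
    · rw [if_pos (show g ∈ (HS m (some i.1))ᶜ from hg), 𝔓.cf_sc_mul, NB_supp 𝔓 i g hg, mul_zero, add_zero]
  · intro h hh k hk g
    rw [Set.mem_compl_iff, Set.mem_compl_iff, not_iff_not]
    constructor
    · intro hg
      have : g = h⁻¹ * (h * g * k) * k⁻¹ := by group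
      rw [this]
      exact mul_mem (mul_mem (inv_mem hh) hg) (inv_mem hk)
    · intro hg
      exact mul_mem (mul_mem hh hg) hk
  · intro g hg h hh k hk he
    by_contra hne
    exact hg (G1_triv i i hh hk he hne).2

end FP
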