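import Pool.Agent.Lib.MP_2d4659_gt.FP.FDefs
import Pool.Agent.Lib.MP_2d4659_gt.FP.G1

/-! # Vectors of the standard lattice annihilated by a norm element -/

set_option autoImplicit false

namespace FP

variable {J : Type} [DecidableEq J] [Fintype J] {m : J → ℕ} {Y σ : Type} [Fintype Y] [DecidableEq Y]
  [Fintype σ] [DecidableEq σ] {p : ℕ} [Fact p.Prime] (𝔓 : PGR p (Gp m))

/-- the standard unit vector -/
noncomputable def ev (b : Nx m Y σ) : Nx m Y σ → 𝔓.B := Pi.single b 1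

lemma G1b_NB_In_mul (i : FJ m) {r : 𝔓.B} (hr : 𝔓.In r) : 𝔓.In (NB 𝔓.u i * r) :=
  PGR.In.mul 𝔓 (NB_In 𝔓 i) hr

lemma G1b_sub_mul_NB_mul (i : FJ m) (r : 𝔓.B) : (𝔓.u (gen m i.1) - 1) * (NB 𝔓.u i * r) = 0 := by
  rw [← mul_assoc, E1_sub_mul_NB, zero_mul]

/-- if `x ∈ Jh` and `N_i x = 0` then `x = (a_i - 1) z + c (a_i - 1) e_i` with `z ∈ Jh` -/
theorem KL_vec (i : FJ m) {x : Nx m Y σ → 𝔓.B} (hx : x ∈ Jh 𝔓 Y σ)
    (hN : ∀ b, NB 𝔓.u i * x b = 0) :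
    ∃ (z : Nx m Y σ → 𝔓.B) (c : ℚ_[p]), z ∈ Jh 𝔓 Y σ ∧ ‖c‖ ≤ 1 ∧
      x = fun b => (𝔓.u (gen m i.1) - 1) * z b +
        𝔓.sc c * ((𝔓.u (gen m i.1) - 1) * ev 𝔓 (Sum.inl (Sum.inl i) : Nx m Y σ) b) := by
  classical
  obtain ⟨⟨hx1, hx2⟩, hx3⟩ := hx
  have hy : ∀ b, ∃ y, 𝔓.In y ∧ x b = (𝔓.u (gen m i.1) - 1) * y := fun b =>
    ann_left_int 𝔓 i (hx3 b) (hN b)
  choose y hyI hy using hy
  -- the entry at `i`
  obtain ⟨r, c, hr, hc, hrc⟩ := KL_eq 𝔓 i (f := y (Sum.inl (Sum.inl i)) * NB 𝔓.u i)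
    (PGR.In.mul 𝔓 (hyI _) (NB_In 𝔓 i))
    (by rw [← mul_assoc, ← hy, hx1])
    (by rw [mul_assoc, E1_NB_mul_sub, mul_zero])
  -- the other entries
  have hl : ∀ l : FJ m, ∃ z, 𝔓.In z ∧ z * NB 𝔓.u l = 0 ∧ x (Sum.inl (Sum.inl l)) =
      (𝔓.u (gen m i.1) - 1) * z +
        𝔓.sc c * ((𝔓.u (gen m i.1) - 1) * ev 𝔓 (Sum.inl (Sum.inl i) : Nx m Y σ)
          (Sum.inl (Sum.inl l))) := by
    intro l
    by_cases hil : i = l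
    · subst hil
      refine ⟨y (Sum.inl (Sum.inl i)) - NB 𝔓.u i * r - 𝔓.sc c, ?_, ?_, ?_⟩
      · rw [sub_eq_add_neg, sub_eq_add_neg]
        exact PGR.Le.add 𝔓 (PGR.Le.add 𝔓 (hyI _) (PGR.Le.neg 𝔓 (G1b_NB_In_mul 𝔓 i hr)))
          (PGR.Le.neg 𝔓 (𝔓.In_sc hc))
      · rw [sub_mul, sub_mul, hrc]
        abel
      · have h1 : ev 𝔓 (Sum.inl (Sum.inl i) : Nx m Y σ) (Sum.inl (Sum.inl i)) = 1 :=
          Pi.single_eq_same _ _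
        rw [h1, mul_one, mul_sub, mul_sub, G1b_sub_mul_NB_mul, ← hy, 𝔓.sc_comm]
        abel
    · obtain ⟨s, hs, hsf⟩ := KL_ne 𝔓 hil (f := y (Sum.inl (Sum.inl l)) * NB 𝔓.u l)
        (PGR.In.mul 𝔓 (hyI _) (NB_In 𝔓 l))
        (by rw [← mul_assoc, ← hy, hx1])
        (by rw [mul_assoc, E1_NB_mul_sub, mul_zero])
      refine ⟨y (Sum.inl (Sum.inl l)) - NB 𝔓.u i * s, ?_, ?_, ?_⟩
      · rw [sub_eq_add_neg]
        exact PGR.Le.add 𝔓 (hyI _) (PGR.Le.neg 𝔓 (G1b_NB_In_mul 𝔓 i hs))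
      · rw [sub_mul, hsf, sub_self]
      · have h1 : ev 𝔓 (Sum.inl (Sum.inl i) : Nx m Y σ) (Sum.inl (Sum.inl l)) = 0 := by
          apply Pi.single_eq_of_ne
          intro h
          exact hil (Sum.inl.inj (Sum.inl.inj h)).symm
        rw [h1, mul_zero, mul_zero, add_zero, mul_sub, G1b_sub_mul_NB_mul, sub_zero, ← hy]
  choose z hz1 hz2 hz3 using hl
  refine ⟨fun b => match b with
    | Sum.inl (Sum.inl l) => z l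
    | Sum.inl (Sum.inr _) => 0
    | Sum.inr s => y (Sum.inr s), c, ⟨⟨fun l => hz2 l, fun _ => rfl⟩, ?_⟩, hc, ?_⟩
  · rintro ((l | y') | s)
    · exact hz1 l
    · exact (Rh 𝔓).zero_mem
    · exact hyI _
  · funext b
    rcases b with (l | y') | s
    · exact hz3 l
    · have h1 : ev 𝔓 (Sum.inl (Sum.inl i) : Nx m Y σ) (Sum.inl (Sum.inr y')) = 0 := by
        apply Pi.single_eq_of_ne
        intro h
        exact absurd (Sum.inl.inj h) (by simp)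
      change x _ = (𝔓.u (gen m i.1) - 1) * 0 + _
      rw [h1, hx2, mul_zero, mul_zero, add_zero]
    · have h1 : ev 𝔓 (Sum.inl (Sum.inl i) : Nx m Y σ) (Sum.inr s) = 0 := by
        apply Pi.single_eq_of_ne
        intro h
        exact absurd h (by simp)
      change x _ = (𝔓.u (gen m i.1) - 1) * y (Sum.inr s) + _
      rw [h1, mul_zero, mul_zero, add_zero, ← hy]

lemma G1b_rs_u_mul (i : FJ m) {h : Gp m} (hh : h ∈ HT m (some i.1)) (b : 𝔓.B) :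
    𝔓.rs (HS m (some i.1)) (𝔓.u h * b) = 𝔓.u h * 𝔓.rs (HS m (some i.1)) b := by
  have h1 := 𝔓.rs_u_mul (HS m (some i.1)) h b
  have h2 : (fun x => h * x) '' HS m (some i.1) = HS m (some i.1) := by
    ext g
    constructor
    · rintro ⟨x, hx, rfl⟩
      exact mul_mem (s := HT m (some i.1)) hh hx
    · intro hg
      exact ⟨h⁻¹ * g, mul_mem (s := HT m (some i.1)) (inv_mem hh) hg, mul_inv_cancel_left _ _⟩
  rwa [h2] at h1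

lemma G1b_rs_NB_mul (i : FJ m) (b : 𝔓.B) :
    𝔓.rs (HS m (some i.1)) (NB 𝔓.u i * b) = NB 𝔓.u i * 𝔓.rs (HS m (some i.1)) b := by
  unfold NB
  rw [Finset.sum_mul, map_sum, Finset.sum_mul]
  refine Finset.sum_congr rfl fun c _ => ?_
  rw [← map_pow, G1b_rs_u_mul 𝔓 i (E1_gen_mem i c)]

/-- `λ (a_i - 1) e_i ∈ (a_i - 1) Jh` only if `λ ∈ m_i ℤ_p` -/
theorem KL_uniq (i : FJ m) {c : ℚ_[p]} (hc : ‖c‖ ≤ 1) {z : Nx m Y σ → 𝔓.B} (hz : z ∈ Jh 𝔓 Y σ)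
    (h : ∀ b, 𝔓.sc c * ((𝔓.u (gen m i.1) - 1) * ev 𝔓 (Sum.inl (Sum.inl i) : Nx m Y σ) b) =
      (𝔓.u (gen m i.1) - 1) * z b) :
    ∃ c' : ℚ_[p], ‖c'‖ ≤ 1 ∧ c = (m i.1 : ℚ_[p]) * c' := by
  obtain ⟨⟨hz1, -⟩, hz3⟩ := hz
  have hi := h (Sum.inl (Sum.inl i))
  have h1 : ev 𝔓 (Sum.inl (Sum.inl i) : Nx m Y σ) (Sum.inl (Sum.inl i)) = 1 :=
    Pi.single_eq_same _ _
  rw [h1, mul_one, 𝔓.sc_comm] at hi
  set f := 𝔓.sc c - z (Sum.inl (Sum.inl i)) with hf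
  have h2 : (𝔓.u (gen m i.1) - 1) * f = 0 := by
    rw [hf, mul_sub, hi, sub_self]
  have h3 : 𝔓.In f := by
    rw [hf, sub_eq_add_neg]
    exact PGR.Le.add 𝔓 (𝔓.In_sc hc) (PGR.Le.neg 𝔓 (hz3 _))
  obtain ⟨y, hy, hyI⟩ := ann_gen_left 𝔓 i h2
  have h4 : f * NB 𝔓.u i = 𝔓.sc c * NB 𝔓.u i := by
    rw [hf, sub_mul, hz1, sub_zero]
  have h5 : 𝔓.rs (HS m (some i.1)) (f * NB 𝔓.u i) =
      NB 𝔓.u i * 𝔓.rs (HS m (some i.1)) y * NB 𝔓.u i := by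
    rw [hy, 𝔓.rs_mul_supp (H := HT m (some i.1)) (s := HS m (some i.1))
      (fun g hg h hh => mul_mem (s := HT m (some i.1)) hg hh) _ (NB_supp 𝔓 i), G1b_rs_NB_mul]
  obtain ⟨a, ha1, -, ha3⟩ := NB_mul_supp 𝔓 i (𝔓.rs_supp (HS m (some i.1)) y)
  have h6 : 𝔓.rs (HS m (some i.1)) (𝔓.sc c * NB 𝔓.u i) = 𝔓.sc c * NB 𝔓.u i := by
    apply 𝔓.rs_eq_self
    intro g hg
    rw [𝔓.cf_sc_mul, NB_supp 𝔓 i g hg, mul_zero]
  rw [h4, h6, ha1, mul_assoc, NB_sq, ← 𝔓.sc_natCast, ← mul_assoc, ← map_mul] at h5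
  have h7 := congrArg (𝔓.cf 1) h5
  rw [E1_cf_sc_mul_NB_one, E1_cf_sc_mul_NB_one] at h7
  exact ⟨a, ha3 (𝔓.rs_Le zero_le_one _ (hyI h3)), by rw [h7, mul_comm]⟩

end FP
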