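import Pool.Agent.Lib.MP_2d4659_gt.FP.F0b
import Pool.Agent.Lib.MP_2d4659_gt.FP.G1b

/-!
Automorphisms preserving the standard lattice: factorisation

`τ ∈ SS`, `Jh τ = Jh`.  (1) `(a_i - 1) e_i τ = κ_i (a_i - 1) e_i + (a_i - 1) z_i` (`KL_vec`), and by the same
for `τ⁻¹` and `KL_uniq`, `κ_i κ'_i - 1 ∈ m_i ℤ_p`. (2) Choose `c_i` prime to `m_i` with
`c_i κ_i - 1 ∈ m_i ℤ_p` and put `y_i = ε_i + (1 - ε_i)(1 + a_i + ... + a_i^(c_i - 1))`, a unit of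
`ℚ_p[C_i]` with `N_i y_i = N_i` (inverse `ε_i + (1 - ε_i)(1 + b + ... + b^(c' - 1))`, `b = a_i^(c_i)`,
`c' c_i = 1` modulo `m_i`); `D = diag(y_i; 1; 1)` preserves `Jh` (`z_i y_i = z_i (1 + a_i + ...)` for `z ∈ Jh`).
(3) For `τ' = τ D`: `(a_i - 1) e_i τ' = κ_i (a_i^(c_i) - 1) e_i + (a_i - 1) z_i D = (a_i - 1)(e_i + z'_i)`,
`z'_i = (κ_i (1 + ... + a_i^(c_i - 1)) - 1 - c'' N_i) e_i + z_i D ∈ Jh`, `κ_i c_i - 1 = c'' m_i`. (4) Let `u` be the matrix with rows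
`e_i + z'_i`, `e_y`, `e_c τ'`: it is integral, `u ∈ SS`, `u = τ'` on `Jh`, so it is invertible with
integral inverse; `u⁻¹ τ'` is the identity on `Jh`, so it is in `EE` by `EE_unip`.
-/

set_option autoImplicit false

namespace FP

variable {J : Type} [DecidableEq J] [Fintype J] {m : J → ℕ} {Y σ : Type} [Fintype Y] [DecidableEq Y]
  [Fintype σ] [DecidableEq σ] {p : ℕ} [Fact p.Prime] (𝔓 : PGR p (Gp m))

lemma G2_In_gen (i : FJ m) : 𝔓.u (gen m i.1) - 1 ∈ Rh 𝔓 :=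
  (Rh 𝔓).sub_mem (𝔓.In_u _) (Rh 𝔓).one_mem

lemma G2_ev_mem (i : FJ m) :
    (𝔓.u (gen m i.1) - 1) • ev 𝔓 (Sum.inl (Sum.inl i) : Nx m Y σ) ∈ Jh 𝔓 Y σ := by
  classical
  refine ⟨⟨fun j => ?_, fun y => ?_⟩, fun b => ?_⟩
  · change (𝔓.u (gen m i.1) - 1) * ev 𝔓 (Sum.inl (Sum.inl i) : Nx m Y σ) (Sum.inl (Sum.inl j)) *
      NB 𝔓.u j = 0
    by_cases hij : j = i
    · subst hij
      have h1 : ev 𝔓 (Sum.inl (Sum.inl j) : Nx m Y σ) (Sum.inl (Sum.inl j)) = 1 :=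
        Pi.single_eq_same _ _
      rw [h1, mul_one, E1_sub_mul_NB]
    · have h1 : ev 𝔓 (Sum.inl (Sum.inl i) : Nx m Y σ) (Sum.inl (Sum.inl j)) = 0 := by
        apply Pi.single_eq_of_ne
        intro h
        exact hij (Sum.inl.inj (Sum.inl.inj h))
      rw [h1, mul_zero, zero_mul]
  · change (𝔓.u (gen m i.1) - 1) * ev 𝔓 (Sum.inl (Sum.inl i) : Nx m Y σ) (Sum.inl (Sum.inr y)) = 0
    have h1 : ev 𝔓 (Sum.inl (Sum.inl i) : Nx m Y σ) (Sum.inl (Sum.inr y)) = 0 := by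
      apply Pi.single_eq_of_ne
      intro h
      exact absurd (Sum.inl.inj h) (by simp)
    rw [h1, mul_zero]
  · change (𝔓.u (gen m i.1) - 1) * ev 𝔓 (Sum.inl (Sum.inl i) : Nx m Y σ) b ∈ Rh 𝔓
    refine (Rh 𝔓).mul_mem (G2_In_gen 𝔓 i) ?_
    by_cases hb : b = Sum.inl (Sum.inl i)
    · subst hb
      have h1 : ev 𝔓 (Sum.inl (Sum.inl i) : Nx m Y σ) (Sum.inl (Sum.inl i)) = 1 :=
        Pi.single_eq_same _ _
      rw [h1]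
      exact (Rh 𝔓).one_mem
    · have h1 : ev 𝔓 (Sum.inl (Sum.inl i) : Nx m Y σ) b = 0 := Pi.single_eq_of_ne hb _
      rw [h1]
      exact (Rh 𝔓).zero_mem

lemma G2_row (M : Matrix (Nx m Y σ) (Nx m Y σ) 𝔓.B) (b : Nx m Y σ) :
    Matrix.vecMul (ev 𝔓 b) M = fun c => M b c := by
  have h := Matrix.single_one_vecMul b M
  exact h

lemma G2_row_inv (τ : (Matrix (Nx m Y σ) (Nx m Y σ) 𝔓.B)ˣ) (b : Nx m Y σ) :
    Matrix.vecMul (fun c => τ.1 b c) τ⁻¹.1 = ev 𝔓 b := by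
  rw [← G2_row, Matrix.vecMul_vecMul, Units.mul_inv, Matrix.vecMul_one]

lemma G2_mem {τ : (Matrix (Nx m Y σ) (Nx m Y σ) 𝔓.B)ˣ} (hJ : Jt 𝔓 τ = Jh 𝔓 Y σ)
    {v : Nx m Y σ → 𝔓.B} (hv : v ∈ Jh 𝔓 Y σ) : Matrix.vecMul v τ.1 ∈ Jh 𝔓 Y σ := by
  rw [← hJ]
  exact Submodule.mem_map.2 ⟨v, hv, rfl⟩

lemma G2_mem_inv {τ : (Matrix (Nx m Y σ) (Nx m Y σ) 𝔓.B)ˣ} (hJ : Jt 𝔓 τ = Jh 𝔓 Y σ)
    {v : Nx m Y σ → 𝔓.B} (hv : v ∈ Jh 𝔓 Y σ) : Matrix.vecMul v τ⁻¹.1 ∈ Jh 𝔓 Y σ := by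
  rw [← hJ] at hv
  obtain ⟨w, hw, rfl⟩ := Submodule.mem_map.1 hv
  have h : Matrix.vecMul (mulM 𝔓 τ.1 w) τ⁻¹.1 = w := by
    change Matrix.vecMul (Matrix.vecMul w τ.1) τ⁻¹.1 = w
    rw [Matrix.vecMul_vecMul, Units.mul_inv, Matrix.vecMul_one]
  rw [h]
  exact hw

/-- the first half of step (1), for `τ` and for its inverse -/
lemma G2_half {M : Matrix (Nx m Y σ) (Nx m Y σ) 𝔓.B}
    (hM : ∀ v ∈ Jh 𝔓 Y σ, Matrix.vecMul v M ∈ Jh 𝔓 Y σ) (i : FJ m) :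
    ∃ (κ : ℚ_[p]) (z : Nx m Y σ → 𝔓.B), ‖κ‖ ≤ 1 ∧ z ∈ Jh 𝔓 Y σ ∧
      (𝔓.u (gen m i.1) - 1) • (fun b => M (Sum.inl (Sum.inl i)) b) =
        𝔓.sc κ • ((𝔓.u (gen m i.1) - 1) • ev 𝔓 (Sum.inl (Sum.inl i) : Nx m Y σ)) +
          (𝔓.u (gen m i.1) - 1) • z := by
  have h1 : (𝔓.u (gen m i.1) - 1) • (fun b => M (Sum.inl (Sum.inl i)) b) ∈ Jh 𝔓 Y σ := by
    have h2 := hM _ (G2_ev_mem 𝔓 i)
    rw [Matrix.smul_vecMul, G2_row] at h2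
    exact h2
  obtain ⟨z, c, hz, hc, hx⟩ := KL_vec 𝔓 i h1 (fun b => by
    change NB 𝔓.u i * ((𝔓.u (gen m i.1) - 1) * _) = 0
    rw [← mul_assoc, E1_NB_mul_sub, zero_mul])
  refine ⟨c, z, hc, hz, ?_⟩
  rw [hx]
  funext b
  change _ = 𝔓.sc c * ((𝔓.u (gen m i.1) - 1) * ev 𝔓 (Sum.inl (Sum.inl i) : Nx m Y σ) b) +
    (𝔓.u (gen m i.1) - 1) * z b
  rw [add_comm]

/-- step (1) -/
theorem P2_kappa {τ : (Matrix (Nx m Y σ) (Nx m Y σ) 𝔓.B)ˣ} (hτ : τ ∈ SS 𝔓.u Y σ)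
    (hJ : Jt 𝔓 τ = Jh 𝔓 Y σ) (i : FJ m) :
    ∃ (κ κ' c' : ℚ_[p]) (z : Nx m Y σ → 𝔓.B), ‖κ‖ ≤ 1 ∧ ‖κ'‖ ≤ 1 ∧ ‖c'‖ ≤ 1 ∧
      κ * κ' - 1 = (m i.1 : ℚ_[p]) * c' ∧ z ∈ Jh 𝔓 Y σ ∧
      ∀ b, (𝔓.u (gen m i.1) - 1) * τ.1 (Sum.inl (Sum.inl i)) b =
        𝔓.sc κ * ((𝔓.u (gen m i.1) - 1) * ev 𝔓 (Sum.inl (Sum.inl i) : Nx m Y σ) b) +
          (𝔓.u (gen m i.1) - 1) * z b := by
  obtain ⟨κ, z, hκ, hz, hx⟩ := G2_half 𝔓 (fun v hv => G2_mem 𝔓 hJ hv) i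
  obtain ⟨κ', z', hκ', hz', hx'⟩ := G2_half 𝔓 (fun v hv => G2_mem_inv 𝔓 hJ hv) i
  obtain ⟨A, hA⟩ : ∃ A : 𝔓.B, A = 𝔓.u (gen m i.1) - 1 := ⟨_, rfl⟩
  rw [← hA] at hx hx'
  obtain ⟨e, he⟩ : ∃ e : Nx m Y σ → 𝔓.B, e = ev 𝔓 (Sum.inl (Sum.inl i) : Nx m Y σ) := ⟨_, rfl⟩
  rw [← he] at hx hx'
  have h1 := congrArg (fun v => Matrix.vecMul v τ⁻¹.1) hx
  simp only [Matrix.smul_vecMul, Matrix.add_vecMul] at h1
  rw [G2_row_inv, he, G2_row, ← he] at h1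
  rw [hx'] at h1
  have h2 : ∀ b, 𝔓.sc (1 - κ * κ') * (A * e b) =
      A * (𝔓.sc κ • z' + Matrix.vecMul z τ⁻¹.1) b := by
    intro b
    have h3 := congrFun h1 b
    simp only [Pi.smul_apply, Pi.add_apply, smul_eq_mul] at h3
    rw [map_sub, map_one, map_mul, sub_mul, one_mul]
    rw [Pi.add_apply, Pi.smul_apply, smul_eq_mul, mul_add]
    have h4 : A * (𝔓.sc κ * z' b) = 𝔓.sc κ * (A * z' b) := by
      rw [← mul_assoc, ← 𝔓.sc_comm, mul_assoc]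
    rw [h4]
    rw [mul_add] at h3
    rw [mul_assoc (𝔓.sc κ)]
    nth_rewrite 1 [h3]
    abel
  have h5 : 𝔓.sc κ • z' + Matrix.vecMul z τ⁻¹.1 ∈ Jh 𝔓 Y σ :=
    (Jh 𝔓 Y σ).add_mem ((Jh 𝔓 Y σ).smul_mem (⟨𝔓.sc κ, 𝔓.In_sc hκ⟩ : Rh 𝔓) hz')
      (G2_mem_inv 𝔓 hJ hz)
  have h6 : ‖1 - κ * κ'‖ ≤ 1 := by
    have h7 : ‖κ * κ'‖ ≤ 1 := by
      rw [norm_mul]
      exact mul_le_one₀ hκ (norm_nonneg _) hκ'
    rw [sub_eq_add_neg]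
    refine (Padic.nonarchimedean _ _).trans (max_le ?_ ?_)
    · rw [norm_one]
    · rw [norm_neg]
      exact h7
  obtain ⟨c', hc', hcc⟩ := KL_uniq 𝔓 i h6 h5 (by rw [← hA, ← he]; exact h2)
  refine ⟨κ, κ', -c', z, hκ, hκ', by rw [norm_neg]; exact hc', ?_, hz, ?_⟩
  · rw [mul_neg, ← hcc]
    ring
  · intro b
    have h3 := congrFun hx b
    simp only [Pi.smul_apply, Pi.add_apply, smul_eq_mul] at h3
    rw [← hA, ← he]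
    exact h3

/-- the choice of `c_i` -/
lemma G2_choose {M : ℕ} (hM : M ≠ 0) {κ κ' c' : ℚ_[p]} (hκ : ‖κ‖ ≤ 1) (hκ' : ‖κ'‖ ≤ 1)
    (hc' : ‖c'‖ ≤ 1) (h : κ * κ' - 1 = (M : ℚ_[p]) * c') :
    ∃ c : ℕ, 1 ≤ c ∧ Nat.Coprime c M ∧ ∃ d : ℚ_[p], ‖d‖ ≤ 1 ∧ κ * c - 1 = (M : ℚ_[p]) * d := by
  have hp : p.Prime := Fact.out
  obtain ⟨k, m', hm', rfl⟩ := Nat.exists_eq_pow_mul_and_not_dvd hM p hp.ne_one
  have hm0 : m' ≠ 0 := by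
    rintro rfl
    exact hm' (dvd_zero p)
  have hnm' : ‖(m' : ℚ_[p])‖ = 1 :=
    Padic.norm_natCast_eq_one_iff.2 ((Nat.Prime.coprime_iff_not_dvd hp).2 hm')
  have hnM : ‖((p ^ k * m' : ℕ) : ℚ_[p])‖ = (p : ℝ) ^ (-k : ℤ) := by
    rw [Nat.cast_mul, norm_mul, hnm', mul_one, Nat.cast_pow, Padic.norm_p_pow]
  -- approximation of `κ'`
  obtain ⟨n, hn⟩ : ∃ n : ℕ, ‖κ' - n‖ ≤ (p : ℝ) ^ (-k : ℤ) := by
    obtain ⟨x, hx⟩ : ∃ x : ℤ_[p], (x : ℚ_[p]) = κ' := ⟨⟨κ', hκ'⟩, rfl⟩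
    refine ⟨x.appr k, ?_⟩
    have h1 := (PadicInt.norm_le_pow_iff_mem_span_pow (x - (x.appr k : ℤ_[p])) k).2
      (PadicInt.appr_spec k x)
    rw [PadicInt.norm_def, PadicInt.coe_sub, PadicInt.coe_natCast, hx] at h1
    exact h1
  have hcop : Nat.Coprime (p ^ k) m' :=
    Nat.Coprime.pow_left k ((Nat.Prime.coprime_iff_not_dvd hp).2 hm')
  obtain ⟨c₀, hc1, hc2⟩ := Nat.chineseRemainder hcop n 1
  obtain ⟨c, hc⟩ : ∃ c : ℕ, c = c₀ + p ^ k * m' := ⟨_, rfl⟩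
  have hcn : c ≡ n [MOD p ^ k] := by
    rw [hc]
    have h1 : c₀ + p ^ k * m' ≡ n + 0 [MOD p ^ k] :=
      Nat.ModEq.add hc1 (Nat.modEq_zero_iff_dvd.2 (dvd_mul_right _ _))
    rwa [add_zero] at h1
  have hcm : c ≡ 1 [MOD m'] := by
    rw [hc]
    have h1 : c₀ + p ^ k * m' ≡ 1 + 0 [MOD m'] :=
      Nat.ModEq.add hc2 (Nat.modEq_zero_iff_dvd.2 (dvd_mul_left _ _))
    rwa [add_zero] at h1
  have hcn' : ‖(c : ℚ_[p]) - n‖ ≤ (p : ℝ) ^ (-k : ℤ) := by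
    have h1 : ((p ^ k : ℕ) : ℤ) ∣ (c : ℤ) - n := (Nat.modEq_iff_dvd.1 hcn.symm)
    have h2 := (Padic.norm_int_le_pow_iff_dvd (p := p) ((c : ℤ) - n) k).2 (by
      rw [Nat.cast_pow] at h1
      exact h1)
    push_cast at h2
    exact h2
  have hkey : ‖κ * c - 1‖ ≤ (p : ℝ) ^ (-k : ℤ) := by
    have e : κ * c - 1 = κ * ((c : ℚ_[p]) - n) + (κ * (-(κ' - n)) + (κ * κ' - 1)) := by ring
    rw [e]
    refine (Padic.nonarchimedean _ _).trans (max_le ?_ ((Padic.nonarchimedean _ _).trans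
      (max_le ?_ ?_)))
    · rw [norm_mul]
      exact (mul_le_of_le_one_left (norm_nonneg _) hκ).trans hcn'
    · rw [norm_mul, norm_neg]
      exact (mul_le_of_le_one_left (norm_nonneg _) hκ).trans hn
    · rw [h, norm_mul, hnM]
      exact mul_le_of_le_one_right (by positivity) hc'
  have hM0 : ((p ^ k * m' : ℕ) : ℚ_[p]) ≠ 0 := by exact_mod_cast hM
  refine ⟨c, ?_, ?_, (κ * c - 1) / ((p ^ k * m' : ℕ) : ℚ_[p]), ?_, ?_⟩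
  · rw [hc]
    have := Nat.pos_of_ne_zero hM
    omega
  · have h1 : Nat.Coprime c m' := by
      have h2 := hcm.gcd_eq
      rw [Nat.gcd_one_left] at h2
      exact h2
    refine Nat.Coprime.mul_right ?_ h1
    rcases Nat.eq_zero_or_pos k with hk | hk
    · rw [hk, pow_zero]
      exact Nat.coprime_one_right c
    · refine Nat.Coprime.pow_right k ?_
      rw [Nat.coprime_comm, Nat.Prime.coprime_iff_not_dvd hp]
      intro hpc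
      have h3 : ‖(c : ℚ_[p])‖ < 1 := Padic.norm_natCast_lt_one_iff.2 hpc
      have h4 : ‖κ * c‖ < 1 := by
        rw [norm_mul]
        exact lt_of_le_of_lt (mul_le_of_le_one_left (norm_nonneg _) hκ) h3
      have h5 : (p : ℝ) ^ (-k : ℤ) < 1 := by
        rw [← hnM, Padic.norm_natCast_lt_one_iff]
        exact Dvd.dvd.mul_right (dvd_pow_self p hk.ne') _
      have h6 : ‖(1 : ℚ_[p])‖ < 1 := by
        have e : (1 : ℚ_[p]) = κ * c + -(κ * c - 1) := by ring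
        rw [e]
        refine lt_of_le_of_lt (Padic.nonarchimedean _ _) (max_lt h4 ?_)
        rw [norm_neg]
        exact lt_of_le_of_lt hkey h5
      rw [norm_one] at h6
      exact lt_irrefl _ h6
  · rw [norm_div, hnM]
    rw [div_le_one (by have : (0 : ℝ) < p := by exact_mod_cast hp.pos
                       positivity)]
    exact hkey
  · rw [mul_div_cancel₀ _ hM0]

lemma G2_inv {c M : ℕ} (hc : 1 ≤ c) (hM : M ≠ 0) (h : Nat.Coprime c M) :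
    ∃ c' q : ℕ, c * c' = 1 + q * M := by
  by_cases h1 : M = 1
  · subst h1
    exact ⟨1, c - 1, by omega⟩
  · obtain ⟨c', -, hc'⟩ := Nat.exists_mul_mod_eq_one_of_coprime h (by omega)
    refine ⟨c', c * c' / M, ?_⟩
    have h2 := Nat.mod_add_div (c * c') M
    rw [hc'] at h2
    rw [mul_comm (c * c' / M) M]
    exact h2.symm

lemma G2_ring {B : Type} [Ring B] (e t t' n : B) (he : e * e = e) (ht : t * e = e * t)
    (hn : e * n = n) (q : ℕ) (htt : t * t' = 1 + (q : B) * n) :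
    (e + (1 - e) * t) * (e + (1 - e) * t') = 1 := by
  have h1 : t * (1 - e) = (1 - e) * t := by rw [mul_sub, sub_mul, ht, mul_one, one_mul]
  have h2 : e * (1 - e) = 0 := by rw [mul_sub, mul_one, he, sub_self]
  have h3 : (1 - e) * e = 0 := by rw [sub_mul, one_mul, he, sub_self]
  have h4 : (1 - e) * (1 - e) = 1 - e := by
    rw [mul_sub (1 - e) 1 e, h3, mul_one, sub_zero]
  have h5 : (1 - e) * ((q : B) * n) = 0 := by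
    rw [← mul_assoc, ← (Nat.cast_commute q (1 - e)).eq, mul_assoc, sub_mul, one_mul, hn, sub_self,
      mul_zero]
  rw [mul_add, add_mul, add_mul, he]
  have h6 : (1 - e) * t * e = 0 := by
    rw [mul_assoc, ht, ← mul_assoc, h3, zero_mul]
  have h7 : e * ((1 - e) * t') = 0 := by rw [← mul_assoc, h2, zero_mul]
  have h8 : (1 - e) * t * ((1 - e) * t') = 1 - e := by
    have e1 : (1 - e) * t * ((1 - e) * t') = (1 - e) * (t * (1 - e)) * t' := by noncomm_ring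
    rw [e1, h1, ← mul_assoc (1 - e) (1 - e) t, h4, mul_assoc, htt, mul_add, h5, mul_one, add_zero]
  rw [h6, h7, h8]
  abel

section unit

variable (i : FJ m)

/-- the idempotent `ε_i` -/
noncomputable def G2_e : 𝔓.B := 𝔓.sc ((m i.1 : ℚ_[p])⁻¹) * NB 𝔓.u i

lemma G2_m_ne : (m i.1 : ℚ_[p]) ≠ 0 := by exact_mod_cast i.2

lemma G2_e_mul_NB : G2_e 𝔓 i * NB 𝔓.u i = NB 𝔓.u i := by
  unfold G2_e
  rw [mul_assoc, NB_sq, ← 𝔓.sc_natCast, ← mul_assoc, ← map_mul, inv_mul_cancel₀ (G2_m_ne i),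
    map_one, one_mul]

lemma G2_NB_mul_e : NB 𝔓.u i * G2_e 𝔓 i = NB 𝔓.u i := by
  unfold G2_e
  rw [← mul_assoc, ← 𝔓.sc_comm, mul_assoc, NB_sq, ← 𝔓.sc_natCast, ← mul_assoc, ← map_mul,
    inv_mul_cancel₀ (G2_m_ne i), map_one, one_mul]

lemma G2_e_sq : G2_e 𝔓 i * G2_e 𝔓 i = G2_e 𝔓 i := by
  have h1 : G2_e 𝔓 i * G2_e 𝔓 i = 𝔓.sc ((m i.1 : ℚ_[p])⁻¹) * (NB 𝔓.u i * G2_e 𝔓 i) :=
    mul_assoc _ _ _
  rw [h1, G2_NB_mul_e]
  rfl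

lemma G2_mul_e {x : 𝔓.B} (hx : x * NB 𝔓.u i = 0) : x * G2_e 𝔓 i = 0 := by
  unfold G2_e
  rw [← mul_assoc, ← 𝔓.sc_comm, mul_assoc, hx, mul_zero]

lemma G2_e_supp : 𝔓.SuppIn (HS m (some i.1)) (G2_e 𝔓 i) := by
  intro g hg
  unfold G2_e
  rw [𝔓.cf_sc_mul, NB_supp 𝔓 i g hg, mul_zero]

/-- the sum of the first `c'` powers of the `c`-th power of the generator -/
noncomputable def G2_S (c c' : ℕ) : 𝔓.B :=
  ∑ l ∈ Finset.range c', (𝔓.u (gen m i.1) ^ c) ^ l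

lemma G2_S_supp (c c' : ℕ) : 𝔓.SuppIn (HS m (some i.1)) (G2_S 𝔓 i c c') := by
  unfold G2_S
  apply E1_SuppIn_sum
  intro l _
  rw [← pow_mul, ← map_pow]
  exact u_supp 𝔓 (E1_gen_mem i _)

lemma G2_S_In (c c' : ℕ) : 𝔓.In (G2_S 𝔓 i c c') := by
  unfold G2_S
  apply PGR.Le.sum 𝔓 zero_le_one
  intro l _
  rw [← pow_mul, ← map_pow]
  exact 𝔓.In_u _

lemma G2_S_NB (c c' : ℕ) : G2_S 𝔓 i c c' * NB 𝔓.u i = (c' : 𝔓.B) * NB 𝔓.u i := by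
  unfold G2_S
  rw [Finset.sum_mul, Finset.sum_congr rfl fun l _ => by rw [← pow_mul, E1_pow_mul_NB],
    Finset.sum_const, Finset.card_range, nsmul_eq_mul]

lemma G2_S_mul (c c' : ℕ) : G2_S 𝔓 i 1 c * G2_S 𝔓 i c c' = G2_S 𝔓 i 1 (c * c') := by
  induction c' with
  | zero =>
    unfold G2_S
    rw [mul_zero, Finset.range_zero, Finset.sum_empty, Finset.sum_empty, mul_zero]
  | succ c' ih =>
    have h1 : G2_S 𝔓 i c (c' + 1) = G2_S 𝔓 i c c' + (𝔓.u (gen m i.1) ^ c) ^ c' := by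
      unfold G2_S
      rw [Finset.sum_range_succ]
    rw [h1, mul_add, ih]
    unfold G2_S
    rw [mul_add, mul_one, Finset.sum_range_add, Finset.sum_mul]
    congr 1
    refine Finset.sum_congr rfl fun l _ => ?_
    rw [← pow_mul, ← pow_mul, ← pow_mul, ← pow_add]
    congr 1
    ring

lemma G2_S_one (q : ℕ) : G2_S 𝔓 i 1 (1 + q * m i.1) = 1 + (q : 𝔓.B) * NB 𝔓.u i := by
  induction q with
  | zero =>
    unfold G2_S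
    rw [zero_mul, add_zero, Finset.sum_range_one, pow_zero, Nat.cast_zero, zero_mul, add_zero]
  | succ q ih =>
    have h0 : 1 + (q + 1) * m i.1 = (1 + q * m i.1) + m i.1 := by ring
    rw [h0]
    have h1 : G2_S 𝔓 i 1 ((1 + q * m i.1) + m i.1) = G2_S 𝔓 i 1 (1 + q * m i.1) +
        𝔓.u (gen m i.1) ^ (1 + q * m i.1) * NB 𝔓.u i := by
      unfold G2_S NB
      rw [Finset.sum_range_add, Finset.mul_sum]
      congr 1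
      refine Finset.sum_congr rfl fun l _ => ?_
      rw [pow_one, pow_add]
    rw [h1, ih, E1_pow_mul_NB, Nat.cast_succ, add_mul, one_mul, add_assoc]

/-- the units `y_i` -/
noncomputable def G2_y (t : 𝔓.B) : 𝔓.B := G2_e 𝔓 i + (1 - G2_e 𝔓 i) * t

lemma G2_one_supp : 𝔓.SuppIn (HS m (some i.1)) (1 : 𝔓.B) := by
  have h := u_supp 𝔓 (t := some i.1) (HT m (some i.1)).one_mem
  rwa [map_one] at h

lemma G2_y_supp {t : 𝔓.B} (ht : 𝔓.SuppIn (HS m (some i.1)) t) :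
    𝔓.SuppIn (HS m (some i.1)) (G2_y 𝔓 i t) := by
  have h1 : 𝔓.SuppIn (HS m (some i.1)) (1 - G2_e 𝔓 i) := by
    intro g hg
    rw [map_sub, G2_one_supp 𝔓 i g hg, G2_e_supp 𝔓 i g hg, sub_zero]
  have h2 : 𝔓.SuppIn (HS m (some i.1)) ((1 - G2_e 𝔓 i) * t) :=
    PGR.SuppIn.mul 𝔓 (H := HT m (some i.1)) h1 ht
  intro g hg
  unfold G2_y
  rw [map_add, G2_e_supp 𝔓 i g hg, h2 g hg, zero_add]

lemma G2_NB_mul_y (t : 𝔓.B) : NB 𝔓.u i * G2_y 𝔓 i t = NB 𝔓.u i := by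
  unfold G2_y
  rw [mul_add, ← mul_assoc, mul_sub, mul_one, G2_NB_mul_e, sub_self, zero_mul, add_zero]

lemma G2_mul_y {x t : 𝔓.B} (hx : x * NB 𝔓.u i = 0) : x * G2_y 𝔓 i t = x * t := by
  unfold G2_y
  rw [mul_add, ← mul_assoc, mul_sub, mul_one, G2_mul_e 𝔓 i hx, zero_add, sub_zero]

lemma G2_y_inv {c c' q : ℕ} (h : c * c' = 1 + q * m i.1) :
    G2_y 𝔓 i (G2_S 𝔓 i 1 c) * G2_y 𝔓 i (G2_S 𝔓 i c c') = 1 ∧
      G2_y 𝔓 i (G2_S 𝔓 i c c') * G2_y 𝔓 i (G2_S 𝔓 i 1 c) = 1 := by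
  have h1 : G2_S 𝔓 i 1 c * G2_S 𝔓 i c c' = 1 + (q : 𝔓.B) * NB 𝔓.u i := by
    rw [G2_S_mul, h, G2_S_one]
  refine ⟨G2_ring _ _ _ (NB 𝔓.u i) (G2_e_sq 𝔓 i) (supp_comm 𝔓 (G2_S_supp 𝔓 i _ _) (G2_e_supp 𝔓 i))
    (G2_e_mul_NB 𝔓 i) q h1, G2_ring _ _ _ (NB 𝔓.u i) (G2_e_sq 𝔓 i)
    (supp_comm 𝔓 (G2_S_supp 𝔓 i _ _) (G2_e_supp 𝔓 i)) (G2_e_mul_NB 𝔓 i) q ?_⟩
  rw [supp_comm 𝔓 (G2_S_supp 𝔓 i _ _) (G2_S_supp 𝔓 i _ _)]
  exact h1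

end unit

lemma G2_diag {E : Nx m Y σ → 𝔓.B}
    (hE1 : ∀ i : FJ m, ∃ t, 𝔓.In t ∧ 𝔓.SuppIn (HS m (some i.1)) t ∧
      E (Sum.inl (Sum.inl i)) = G2_y 𝔓 i t)
    (hE3 : ∀ c : σ, E (Sum.inr c) = 1) {v : Nx m Y σ → 𝔓.B}
    (hv : v ∈ Jh 𝔓 Y σ) : (fun b => v b * E b) ∈ Jh 𝔓 Y σ := by
  obtain ⟨⟨h1, h2⟩, h3⟩ := hv
  refine ⟨⟨fun i => ?_, fun y => ?_⟩, ?_⟩
  · obtain ⟨t, -, ht, htE⟩ := hE1 i
    change v (Sum.inl (Sum.inl i)) * E (Sum.inl (Sum.inl i)) * NB 𝔓.u i = 0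
    rw [htE, mul_assoc, supp_comm 𝔓 (G2_y_supp 𝔓 i ht) (NB_supp 𝔓 i), G2_NB_mul_y, h1]
  · change v (Sum.inl (Sum.inr y)) * E (Sum.inl (Sum.inr y)) = 0
    rw [h2, zero_mul]
  · rintro ((i | y) | c)
    · obtain ⟨t, ht, -, htE⟩ := hE1 i
      change 𝔓.In (v (Sum.inl (Sum.inl i)) * E (Sum.inl (Sum.inl i)))
      rw [htE, G2_mul_y 𝔓 i (h1 i)]
      exact PGR.In.mul 𝔓 (h3 _) ht
    · change 𝔓.In (v (Sum.inl (Sum.inr y)) * E (Sum.inl (Sum.inr y)))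
      rw [h2, zero_mul]
      exact (Rh 𝔓).zero_mem
    · change 𝔓.In (v (Sum.inr c) * E (Sum.inr c))
      rw [hE3, mul_one]
      exact h3 _

/-- steps (2), (3) -/
theorem P2_corr {τ : (Matrix (Nx m Y σ) (Nx m Y σ) 𝔓.B)ˣ} (hτ : τ ∈ SS 𝔓.u Y σ)
    (hJ : Jt 𝔓 τ = Jh 𝔓 Y σ) :
    ∃ D ∈ DD 𝔓 Y σ, Jt 𝔓 (τ * D) = Jh 𝔓 Y σ ∧ ∀ i : FJ m, ∃ z ∈ Jh 𝔓 Y σ,
      ∀ b, (𝔓.u (gen m i.1) - 1) * (τ * D).1 (Sum.inl (Sum.inl i)) b =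
        (𝔓.u (gen m i.1) - 1) * (ev 𝔓 (Sum.inl (Sum.inl i) : Nx m Y σ) b + z b) := by
  classical
  have hk := fun i : FJ m => P2_kappa 𝔓 hτ hJ i
  choose κ κ' c₀ z hκ hκ' hc₀ hrel hz hrow using hk
  have hch := fun i : FJ m => G2_choose i.2 (hκ i) (hκ' i) (hc₀ i) (hrel i)
  choose c hc1 hcop d hd hcd using hch
  have hinv := fun i : FJ m => G2_inv (hc1 i) i.2 (hcop i)
  choose c' q hq using hinv
  obtain ⟨E, hE⟩ : ∃ E : Nx m Y σ → 𝔓.B, E = fun b => match b with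
    | Sum.inl (Sum.inl i) => G2_y 𝔓 i (G2_S 𝔓 i 1 (c i))
    | Sum.inl (Sum.inr _) => 1
    | Sum.inr _ => 1 := ⟨_, rfl⟩
  obtain ⟨E', hE'⟩ : ∃ E' : Nx m Y σ → 𝔓.B, E' = fun b => match b with
    | Sum.inl (Sum.inl i) => G2_y 𝔓 i (G2_S 𝔓 i (c i) (c' i))
    | Sum.inl (Sum.inr _) => 1
    | Sum.inr _ => 1 := ⟨_, rfl⟩
  have hE1 : ∀ i : FJ m, E (Sum.inl (Sum.inl i)) = G2_y 𝔓 i (G2_S 𝔓 i 1 (c i)) := by
    intro i
    rw [hE]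
  have hE2 : ∀ y : Y, E (Sum.inl (Sum.inr y)) = 1 := by
    intro y
    rw [hE]
  have hE3 : ∀ y : σ, E (Sum.inr y) = 1 := by
    intro y
    rw [hE]
  have hE1' : ∀ i : FJ m, E' (Sum.inl (Sum.inl i)) = G2_y 𝔓 i (G2_S 𝔓 i (c i) (c' i)) := by
    intro i
    rw [hE']
  have hE2' : ∀ y : Y, E' (Sum.inl (Sum.inr y)) = 1 := by
    intro y
    rw [hE']
  have hE3' : ∀ y : σ, E' (Sum.inr y) = 1 := by
    intro y
    rw [hE']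
  have hEE : ∀ b, E b * E' b = 1 := by
    rintro ((i | y) | s)
    · rw [hE1, hE1']
      exact (G2_y_inv 𝔓 i (hq i)).1
    · rw [hE2, hE2', mul_one]
    · rw [hE3, hE3', mul_one]
  have hEE' : ∀ b, E' b * E b = 1 := by
    rintro ((i | y) | s)
    · rw [hE1, hE1']
      exact (G2_y_inv 𝔓 i (hq i)).2
    · rw [hE2, hE2', mul_one]
    · rw [hE3, hE3', mul_one]
  obtain ⟨D, hD, hD'⟩ : ∃ D : (Matrix (Nx m Y σ) (Nx m Y σ) 𝔓.B)ˣ,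
      D.1 = Matrix.diagonal E ∧ D⁻¹.1 = Matrix.diagonal E' := by
    refine ⟨⟨Matrix.diagonal E, Matrix.diagonal E', ?_, ?_⟩, rfl, rfl⟩
    · rw [Matrix.diagonal_mul_diagonal]
      simp only [hEE]
      exact Matrix.diagonal_one
    · rw [Matrix.diagonal_mul_diagonal]
      simp only [hEE']
      exact Matrix.diagonal_one
  have hmul : ∀ v : Nx m Y σ → 𝔓.B, Matrix.vecMul v D.1 = fun b => v b * E b := by
    intro v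
    funext b
    rw [hD, Matrix.vecMul_diagonal]
  have hmul' : ∀ v : Nx m Y σ → 𝔓.B, Matrix.vecMul v D⁻¹.1 = fun b => v b * E' b := by
    intro v
    funext b
    rw [hD', Matrix.vecMul_diagonal]
  have hJE : ∀ v ∈ Jh 𝔓 Y σ, (fun b => v b * E b) ∈ Jh 𝔓 Y σ := fun v hv =>
    G2_diag 𝔓 (fun i => ⟨_, G2_S_In 𝔓 i _ _, G2_S_supp 𝔓 i _ _, hE1 i⟩) hE3 hv
  have hJE' : ∀ v ∈ Jh 𝔓 Y σ, (fun b => v b * E' b) ∈ Jh 𝔓 Y σ := fun v hv =>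
    G2_diag 𝔓 (fun i => ⟨_, G2_S_In 𝔓 i _ _, G2_S_supp 𝔓 i _ _, hE1' i⟩) hE3' hv
  refine ⟨D, Subgroup.subset_closure ⟨E, E', hD, hD', fun i => ⟨?_, ?_, ?_⟩, hE2, fun s =>
    ⟨1, by rw [hE3, map_one]⟩⟩, ?_, ?_⟩
  · rw [hE1]
    exact G2_y_supp 𝔓 i (G2_S_supp 𝔓 i _ _)
  · rw [hE1']
    exact G2_y_supp 𝔓 i (G2_S_supp 𝔓 i _ _)
  · rw [hE1]
    exact G2_NB_mul_y 𝔓 i _
  · ext v
    constructor
    · intro hv
      obtain ⟨w, hw, rfl⟩ := Submodule.mem_map.1 hv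
      have h1 : mulM 𝔓 (τ * D).1 w = Matrix.vecMul (Matrix.vecMul w τ.1) D.1 := by
        change Matrix.vecMul w (τ * D).1 = _
        rw [Matrix.vecMul_vecMul, Units.val_mul]
      rw [h1, hmul]
      exact hJE _ (G2_mem 𝔓 hJ hw)
    · intro hv
      have h1 : Matrix.vecMul v D⁻¹.1 ∈ Jt 𝔓 τ := by
        rw [hJ, hmul']
        exact hJE' v hv
      obtain ⟨w, hw, hwv⟩ := Submodule.mem_map.1 h1
      refine Submodule.mem_map.2 ⟨w, hw, ?_⟩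
      change Matrix.vecMul w (τ * D).1 = v
      have h2 : Matrix.vecMul w τ.1 = Matrix.vecMul v D⁻¹.1 := hwv
      rw [Units.val_mul, ← Matrix.vecMul_vecMul, h2, Matrix.vecMul_vecMul, Units.inv_mul,
        Matrix.vecMul_one]
  · intro i
    have hzE := hJE (z i) (hz i)
    have hS : (𝔓.sc (κ i) * G2_S 𝔓 i 1 (c i) - 1 - 𝔓.sc (d i) * NB 𝔓.u i) * NB 𝔓.u i = 0 := by
      rw [sub_mul, sub_mul, one_mul, mul_assoc, G2_S_NB, mul_assoc, NB_sq, ← 𝔓.sc_natCast,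
        ← 𝔓.sc_natCast, ← mul_assoc, ← mul_assoc, ← map_mul, ← map_mul]
      have h1 : 𝔓.sc (κ i * (c i : ℚ_[p])) = 1 + 𝔓.sc (d i * (m i.1 : ℚ_[p])) := by
        have h2 : κ i * (c i : ℚ_[p]) = 1 + d i * (m i.1 : ℚ_[p]) := by
          have := hcd i
          rw [mul_comm (d i), ← this]
          ring
        rw [h2, map_add, map_one]
      rw [h1, add_mul, one_mul]
      abel
    refine ⟨fun b => (if b = Sum.inl (Sum.inl i) then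
      𝔓.sc (κ i) * G2_S 𝔓 i 1 (c i) - 1 - 𝔓.sc (d i) * NB 𝔓.u i else 0) + z i b * E b, ?_, ?_⟩
    · refine (Jh 𝔓 Y σ).add_mem (x := fun b => if b = Sum.inl (Sum.inl i) then
        𝔓.sc (κ i) * G2_S 𝔓 i 1 (c i) - 1 - 𝔓.sc (d i) * NB 𝔓.u i else 0) ?_ hzE
      refine ⟨⟨fun j => ?_, fun y => ?_⟩, fun b => ?_⟩
      · by_cases hij : j = i
        · subst hij
          change (if (Sum.inl (Sum.inl j) : Nx m Y σ) = Sum.inl (Sum.inl j) then _ else 0) * _ = 0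
          rw [if_pos rfl]
          exact hS
        · change (if (Sum.inl (Sum.inl j) : Nx m Y σ) = Sum.inl (Sum.inl i) then _ else 0) * _ = 0
          rw [if_neg (fun h => hij (Sum.inl.inj (Sum.inl.inj h))), zero_mul]
      · change (if (Sum.inl (Sum.inr y) : Nx m Y σ) = Sum.inl (Sum.inl i) then _ else 0) = 0
        rw [if_neg]
        intro h
        exact absurd (Sum.inl.inj h) (by simp)
      · change 𝔓.In (if b = Sum.inl (Sum.inl i) then _ else 0)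
        split_ifs
        · exact (Rh 𝔓).sub_mem ((Rh 𝔓).sub_mem ((Rh 𝔓).mul_mem (𝔓.In_sc (hκ i))
            (G2_S_In 𝔓 i _ _)) (Rh 𝔓).one_mem) ((Rh 𝔓).mul_mem (𝔓.In_sc (hd i)) (NB_In 𝔓 i))
        · exact (Rh 𝔓).zero_mem
    · intro b
      have h1 : (τ * D).1 (Sum.inl (Sum.inl i)) b = τ.1 (Sum.inl (Sum.inl i)) b * E b := by
        rw [Units.val_mul, hD, Matrix.mul_diagonal]
      rw [h1, ← mul_assoc, hrow i b, add_mul]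
      beta_reduce
      by_cases hb : b = Sum.inl (Sum.inl i)
      · subst hb
        have h2 : ev 𝔓 (Sum.inl (Sum.inl i) : Nx m Y σ) (Sum.inl (Sum.inl i)) = 1 :=
          Pi.single_eq_same _ _
        rw [h2, mul_one, if_pos rfl, hE1, mul_assoc (𝔓.sc (κ i)),
          G2_mul_y 𝔓 i (E1_sub_mul_NB 𝔓.u i)]
        have h3 : (𝔓.u (gen m i.1) - 1) * (𝔓.sc (κ i) * G2_S 𝔓 i 1 (c i)) =
            𝔓.sc (κ i) * ((𝔓.u (gen m i.1) - 1) * G2_S 𝔓 i 1 (c i)) := by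
          rw [← mul_assoc, ← 𝔓.sc_comm, mul_assoc]
        have h4 : (𝔓.u (gen m i.1) - 1) * (𝔓.sc (d i) * NB 𝔓.u i) = 0 := by
          rw [← mul_assoc, ← 𝔓.sc_comm, mul_assoc, E1_sub_mul_NB, mul_zero]
        have h5 : 1 + (𝔓.sc (κ i) * G2_S 𝔓 i 1 (c i) - 1 - 𝔓.sc (d i) * NB 𝔓.u i +
            z i (Sum.inl (Sum.inl i)) * G2_y 𝔓 i (G2_S 𝔓 i 1 (c i))) =
            𝔓.sc (κ i) * G2_S 𝔓 i 1 (c i) - 𝔓.sc (d i) * NB 𝔓.u i +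
            z i (Sum.inl (Sum.inl i)) * G2_y 𝔓 i (G2_S 𝔓 i 1 (c i)) := by abel
        rw [h5, mul_add, mul_sub, h3, h4, sub_zero, mul_assoc (𝔓.u (gen m i.1) - 1)]
      · have h2 : ev 𝔓 (Sum.inl (Sum.inl i) : Nx m Y σ) b = 0 := Pi.single_eq_of_ne hb _
        rw [h2, if_neg hb, mul_zero, mul_zero, zero_mul, zero_add, zero_add, zero_add, mul_assoc]

end FP
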