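import Pool.Agent.Lib.MP_2d4659_gt.FP.E3
import Pool.Agent.Lib.MP_2d4659_gt.FP.F0b
import Pool.Agent.Lib.MP_2d4659_gt.FP.G1b

/-! # Automorphisms preserving the standard lattice: extension -/

set_option autoImplicit false

namespace FP

variable {J : Type} [DecidableEq J] [Fintype J] {m : J → ℕ} {Y σ : Type} [Fintype Y] [DecidableEq Y]
  [Fintype σ] [DecidableEq σ] {p : ℕ} [Fact p.Prime] (𝔓 : PGR p (Gp m))

omit [DecidableEq Y] [DecidableEq σ] in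
/-- two matrices agreeing on the generators of the kernel of `Ψ` agree on the kernel -/
lemma G2b_dec (M N : Matrix (Nx m Y σ) (Nx m Y σ) 𝔓.B)
    (hi : ∀ (i : FJ m) b, (𝔓.u (gen m i.1) - 1) * M (Sum.inl (Sum.inl i)) b =
      (𝔓.u (gen m i.1) - 1) * N (Sum.inl (Sum.inl i)) b)
    (hc : ∀ (c : σ) b, M (Sum.inr c) b = N (Sum.inr c) b)
    {v : Nx m Y σ → 𝔓.B} (hv : InV 𝔓 v) : Matrix.vecMul v M = Matrix.vecMul v N := by
  funext b
  change ∑ a, v a * M a b = ∑ a, v a * N a b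
  refine Finset.sum_congr rfl fun a _ => ?_
  rcases a with (i | y) | c
  · obtain ⟨y, hy⟩ := (ann_right 𝔓 i _).1 (hv.1 i)
    rw [hy, mul_assoc, mul_assoc, hi]
  · rw [hv.2 y, zero_mul, zero_mul]
  · rw [hc]

omit [Fintype J] in
/-- the free unit vectors lie in the standard lattice -/
lemma G2b_ev (c : σ) : ev 𝔓 (Sum.inr c : Nx m Y σ) ∈ Jh 𝔓 Y σ := by
  refine ⟨⟨fun i => ?_, fun y => ?_⟩, fun b => ?_⟩
  · unfold ev
    rw [Pi.single_eq_of_ne (by simp), zero_mul]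
  · unfold ev
    rw [Pi.single_eq_of_ne (by simp)]
  · unfold ev
    by_cases h : b = Sum.inr c
    · rw [h, Pi.single_eq_same]
      exact (Rh 𝔓).one_mem
    · rw [Pi.single_eq_of_ne h]
      exact (Rh 𝔓).zero_mem

/-- an integral matrix row by row -/
noncomputable def G2b_mat (z : FJ m → Nx m Y σ → 𝔓.B) (w : σ → Nx m Y σ → 𝔓.B) :
    Matrix (Nx m Y σ) (Nx m Y σ) 𝔓.B := fun a =>
  match a with
  | Sum.inl (Sum.inl i) => ev 𝔓 (Sum.inl (Sum.inl i)) + z i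
  | Sum.inl (Sum.inr y) => ev 𝔓 (Sum.inl (Sum.inr y))
  | Sum.inr c => w c

omit [Fintype J] [Fintype Y] [Fintype σ] in
lemma G2b_ev_In (a b : Nx m Y σ) : 𝔓.In (ev 𝔓 a b) := by
  unfold ev
  by_cases h : b = a
  · rw [h, Pi.single_eq_same]
    exact (Rh 𝔓).one_mem
  · rw [Pi.single_eq_of_ne h]
    exact (Rh 𝔓).zero_mem

omit [Fintype J] in
lemma G2b_mat_In {z : FJ m → Nx m Y σ → 𝔓.B} {w : σ → Nx m Y σ → 𝔓.B}
    (hz : ∀ i, z i ∈ Jh 𝔓 Y σ) (hw : ∀ c, w c ∈ Jh 𝔓 Y σ) (a b : Nx m Y σ) :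
    𝔓.In (G2b_mat 𝔓 z w a b) := by
  rcases a with (i | y) | c
  · exact PGR.Le.add 𝔓 (G2b_ev_In 𝔓 _ _) ((hz i).2 b)
  · exact G2b_ev_In 𝔓 _ _
  · exact (hw c).2 b

/-- the product of two such matrices, the second equal to an invertible matrix on the kernel of `Ψ` -/
lemma G2b_mul {z z' : FJ m → Nx m Y σ → 𝔓.B} {w w' : σ → Nx m Y σ → 𝔓.B}
    (hz : ∀ i, z i ∈ Jh 𝔓 Y σ) (hw : ∀ c, w c ∈ Jh 𝔓 Y σ)
    (M : Matrix (Nx m Y σ) (Nx m Y σ) 𝔓.B)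
    (hM : ∀ v : Nx m Y σ → 𝔓.B, InV 𝔓 v → Matrix.vecMul v (G2b_mat 𝔓 z' w') = Matrix.vecMul v M)
    (h1 : ∀ i, Matrix.vecMul (z i) M = - z' i)
    (h2 : ∀ c, Matrix.vecMul (w c) M = ev 𝔓 (Sum.inr c)) :
    G2b_mat 𝔓 z w * G2b_mat 𝔓 z' w' = 1 := by
  ext a b
  have h3 : (G2b_mat 𝔓 z w * G2b_mat 𝔓 z' w') a b =
      Matrix.vecMul (G2b_mat 𝔓 z w a) (G2b_mat 𝔓 z' w') b := rfl
  have h4 : (1 : Matrix (Nx m Y σ) (Nx m Y σ) 𝔓.B) a b = ev 𝔓 a b := by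
    rw [Matrix.one_apply]
    unfold ev
    rw [Pi.single_apply]
    simp only [eq_comm]
  rw [h3, h4]
  rcases a with (i | y) | c
  · have h5 : G2b_mat 𝔓 z w (Sum.inl (Sum.inl i)) = ev 𝔓 (Sum.inl (Sum.inl i)) + z i := rfl
    have h6 : Matrix.vecMul (ev 𝔓 (Sum.inl (Sum.inl i))) (G2b_mat 𝔓 z' w') =
        G2b_mat 𝔓 z' w' (Sum.inl (Sum.inl i)) := Matrix.single_one_vecMul _ _
    have h7 : G2b_mat 𝔓 z' w' (Sum.inl (Sum.inl i)) = ev 𝔓 (Sum.inl (Sum.inl i)) + z' i := rfl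
    rw [h5, Matrix.add_vecMul, h6, hM _ (hz i).1, h1, h7, add_neg_cancel_right]
  · have h5 : G2b_mat 𝔓 z w (Sum.inl (Sum.inr y)) = ev 𝔓 (Sum.inl (Sum.inr y)) := rfl
    have h6 : Matrix.vecMul (ev 𝔓 (Sum.inl (Sum.inr y))) (G2b_mat 𝔓 z' w') =
        G2b_mat 𝔓 z' w' (Sum.inl (Sum.inr y)) := Matrix.single_one_vecMul _ _
    rw [h5, h6]
    rfl
  · have h5 : G2b_mat 𝔓 z w (Sum.inr c) = w c := rfl
    rw [h5, hM _ (hw c).1, h2]

omit [DecidableEq J] [DecidableEq Y] [DecidableEq σ] in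
lemma G2b_smul (r : 𝔓.B) (v : Nx m Y σ → 𝔓.B) (M : Matrix (Nx m Y σ) (Nx m Y σ) 𝔓.B) :
    Matrix.vecMul (fun b => r * v b) M = fun b => r * Matrix.vecMul v M b := by
  funext b
  change ∑ a, r * v a * M a b = r * ∑ a, v a * M a b
  rw [Finset.mul_sum]
  exact Finset.sum_congr rfl fun a _ => mul_assoc _ _ _

lemma G2b_row (M : Matrix (Nx m Y σ) (Nx m Y σ) 𝔓.B) (a : Nx m Y σ) :
    Matrix.vecMul (ev 𝔓 a) M = M a := Matrix.single_one_vecMul _ _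

/-- Let `u` be the matrix with rows `e_i + z_i`, `e_y`, `e_c τ`; it is integral, `u Ψ = Ψ`, and `u = τ` on `Jh`
(which is generated by the `(a_i - 1) e_i` and the `e_c` because `x N_i = 0` gives `x = y (a_i - 1)`), so it is
invertible (`(u - 1)` maps to `Jh`; let `u'` be the matrix with rows `e_i - z_i τ⁻¹`, `e_y`, `e_c τ⁻¹`), with
integral inverse; `u⁻¹ τ` is the identity on `Jh`, so it is in `EE` by `EE_unip`. -/
theorem P2_ext {τ : (Matrix (Nx m Y σ) (Nx m Y σ) 𝔓.B)ˣ} (hτ : τ ∈ SS 𝔓.u Y σ)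
    (hJ : Jt 𝔓 τ = Jh 𝔓 Y σ)
    (hz : ∀ i : FJ m, ∃ z ∈ Jh 𝔓 Y σ, ∀ b, (𝔓.u (gen m i.1) - 1) * τ.1 (Sum.inl (Sum.inl i)) b =
        (𝔓.u (gen m i.1) - 1) * (ev 𝔓 (Sum.inl (Sum.inl i) : Nx m Y σ) b + z b)) :
    ∃ u e : (Matrix (Nx m Y σ) (Nx m Y σ) 𝔓.B)ˣ, u ∈ SS 𝔓.u Y σ ∧ IntU 𝔓 u ∧
      e ∈ EE 𝔓.u Y σ ∧ τ = u * e := by
  choose z hzJ hz using hz
  have hττ : τ.1 * τ⁻¹.1 = 1 := by rw [← Units.val_mul, mul_inv_cancel, Units.val_one]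
  have hττ' : τ⁻¹.1 * τ.1 = 1 := by rw [← Units.val_mul, inv_mul_cancel, Units.val_one]
  have hJ1 : ∀ v ∈ Jh 𝔓 Y σ, Matrix.vecMul v τ.1 ∈ Jh 𝔓 Y σ := by
    intro v hv
    rw [← hJ]
    exact ⟨v, hv, rfl⟩
  have hJ2 : ∀ v ∈ Jh 𝔓 Y σ, Matrix.vecMul v τ⁻¹.1 ∈ Jh 𝔓 Y σ := by
    intro v hv
    rw [← hJ] at hv
    exact (mem_Jt 𝔓 v).1 hv
  set w : σ → Nx m Y σ → 𝔓.B := fun c => Matrix.vecMul (ev 𝔓 (Sum.inr c)) τ.1 with hw
  set w' : σ → Nx m Y σ → 𝔓.B := fun c => Matrix.vecMul (ev 𝔓 (Sum.inr c)) τ⁻¹.1 with hw'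
  set z' : FJ m → Nx m Y σ → 𝔓.B := fun i => - Matrix.vecMul (z i) τ⁻¹.1 with hz'
  have hwJ : ∀ c, w c ∈ Jh 𝔓 Y σ := fun c => hJ1 _ (G2b_ev 𝔓 c)
  have hwJ' : ∀ c, w' c ∈ Jh 𝔓 Y σ := fun c => hJ2 _ (G2b_ev 𝔓 c)
  have hzJ' : ∀ i, z' i ∈ Jh 𝔓 Y σ := fun i => neg_mem (hJ2 _ (hzJ i))
  -- the two matrices on the kernel
  have hU : ∀ v : Nx m Y σ → 𝔓.B, InV 𝔓 v →
      Matrix.vecMul v (G2b_mat 𝔓 z w) = Matrix.vecMul v τ.1 := by
    intro v hv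
    refine G2b_dec 𝔓 _ _ (fun i b => ?_) (fun c b => ?_) hv
    · exact (hz i b).symm
    · change Matrix.vecMul (ev 𝔓 (Sum.inr c)) τ.1 b = _
      rw [G2b_row]
  have hrow : ∀ (i : FJ m), (fun b => (𝔓.u (gen m i.1) - 1) *
      ev 𝔓 (Sum.inl (Sum.inl i) : Nx m Y σ) b) =
      Matrix.vecMul (fun b => (𝔓.u (gen m i.1) - 1) *
        (ev 𝔓 (Sum.inl (Sum.inl i) : Nx m Y σ) b + z i b)) τ⁻¹.1 := by
    intro i
    have h1 : (fun b => (𝔓.u (gen m i.1) - 1) *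
        (ev 𝔓 (Sum.inl (Sum.inl i) : Nx m Y σ) b + z i b)) =
        Matrix.vecMul (fun b => (𝔓.u (gen m i.1) - 1) *
          ev 𝔓 (Sum.inl (Sum.inl i) : Nx m Y σ) b) τ.1 := by
      rw [G2b_smul, G2b_row]
      funext b
      exact (hz i b).symm
    rw [h1, Matrix.vecMul_vecMul, hττ, Matrix.vecMul_one]
  have hU' : ∀ v : Nx m Y σ → 𝔓.B, InV 𝔓 v →
      Matrix.vecMul v (G2b_mat 𝔓 z' w') = Matrix.vecMul v τ⁻¹.1 := by
    intro v hv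
    refine G2b_dec 𝔓 _ _ (fun i b => ?_) (fun c b => ?_) hv
    · change (𝔓.u (gen m i.1) - 1) * (ev 𝔓 (Sum.inl (Sum.inl i) : Nx m Y σ) b + z' i b) = _
      have h1 := congrFun (hrow i) b
      have h2 : Matrix.vecMul (fun b => (𝔓.u (gen m i.1) - 1) *
          (ev 𝔓 (Sum.inl (Sum.inl i) : Nx m Y σ) b + z i b)) τ⁻¹.1 =
          fun b => (𝔓.u (gen m i.1) - 1) *
            Matrix.vecMul (ev 𝔓 (Sum.inl (Sum.inl i) : Nx m Y σ) + z i) τ⁻¹.1 b :=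
        G2b_smul 𝔓 _ (ev 𝔓 (Sum.inl (Sum.inl i) : Nx m Y σ) + z i) _
      rw [h2, Matrix.add_vecMul, G2b_row] at h1
      have h3 : (𝔓.u (gen m i.1) - 1) * (τ⁻¹.1 (Sum.inl (Sum.inl i)) +
          Matrix.vecMul (z i) τ⁻¹.1) b = (𝔓.u (gen m i.1) - 1) * τ⁻¹.1 (Sum.inl (Sum.inl i)) b +
          (𝔓.u (gen m i.1) - 1) * Matrix.vecMul (z i) τ⁻¹.1 b := by
        rw [Pi.add_apply, mul_add]
      change _ = (𝔓.u (gen m i.1) - 1) * (τ⁻¹.1 (Sum.inl (Sum.inl i)) +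
          Matrix.vecMul (z i) τ⁻¹.1) b at h1
      rw [h3] at h1
      rw [mul_add, h1, hz']
      change _ + (𝔓.u (gen m i.1) - 1) * (- Matrix.vecMul (z i) τ⁻¹.1 b) = _
      rw [mul_neg, add_neg_cancel_right]
    · change Matrix.vecMul (ev 𝔓 (Sum.inr c)) τ⁻¹.1 b = _
      rw [G2b_row]
  have hUU' : G2b_mat 𝔓 z w * G2b_mat 𝔓 z' w' = 1 := by
    refine G2b_mul 𝔓 hzJ hwJ τ⁻¹.1 hU' (fun i => ?_) (fun c => ?_)
    · rw [hz', neg_neg]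
    · rw [hw]
      change Matrix.vecMul (Matrix.vecMul _ τ.1) τ⁻¹.1 = _
      rw [Matrix.vecMul_vecMul, hττ, Matrix.vecMul_one]
  have hU'U : G2b_mat 𝔓 z' w' * G2b_mat 𝔓 z w = 1 := by
    refine G2b_mul 𝔓 hzJ' hwJ' τ.1 hU (fun i => ?_) (fun c => ?_)
    · rw [hz']
      change Matrix.vecMul (- Matrix.vecMul _ τ⁻¹.1) τ.1 = _
      rw [Matrix.neg_vecMul, Matrix.vecMul_vecMul, hττ', Matrix.vecMul_one]
    · rw [hw']
      change Matrix.vecMul (Matrix.vecMul _ τ⁻¹.1) τ.1 = _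
      rw [Matrix.vecMul_vecMul, hττ', Matrix.vecMul_one]
  set u : (Matrix (Nx m Y σ) (Nx m Y σ) 𝔓.B)ˣ := ⟨G2b_mat 𝔓 z w, G2b_mat 𝔓 z' w', hUU', hU'U⟩ with hu
  have hu1 : u.1 = G2b_mat 𝔓 z w := rfl
  have hu2 : u⁻¹.1 = G2b_mat 𝔓 z' w' := rfl
  have huS : u ∈ SS 𝔓.u Y σ := by
    rw [mem_SS_iff]
    constructor
    · rintro ((i' | y') | c) i
      · rw [hu1]
        change (ev 𝔓 (Sum.inl (Sum.inl i')) (Sum.inl (Sum.inl i)) + z i' (Sum.inl (Sum.inl i))) * _ = _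
        rw [add_mul, (hzJ i').1.1 i, add_zero]
        unfold ev
        rw [Pi.single_apply]
        by_cases h : i = i'
        · subst h
          rw [if_pos rfl, if_pos rfl, one_mul]
        · rw [if_neg (by simpa using h), if_neg (by simpa using Ne.symm h), zero_mul]
      · rw [hu1]
        change ev 𝔓 (Sum.inl (Sum.inr y')) (Sum.inl (Sum.inl i)) * _ = _
        unfold ev
        rw [Pi.single_eq_of_ne (by simp), zero_mul, if_neg (by simp)]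
      · rw [hu1, if_neg (by simp)]
        exact (hwJ c).1.1 i
    · rintro ((i' | y') | c) y
      · rw [hu1, if_neg (by simp)]
        change ev 𝔓 (Sum.inl (Sum.inl i')) (Sum.inl (Sum.inr y)) + z i' (Sum.inl (Sum.inr y)) = _
        rw [(hzJ i').1.2 y, add_zero]
        unfold ev
        rw [Pi.single_eq_of_ne (by simp)]
      · rw [hu1]
        change ev 𝔓 (Sum.inl (Sum.inr y')) (Sum.inl (Sum.inr y)) = _
        unfold ev
        rw [Pi.single_apply]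
        simp only [eq_comm]
      · rw [hu1, if_neg (by simp)]
        exact (hwJ c).1.2 y
  have huI : IntU 𝔓 u := by
    refine ⟨fun a b => ?_, fun a b => ?_⟩
    · rw [hu1]
      exact G2b_mat_In 𝔓 hzJ hwJ a b
    · rw [hu2]
      exact G2b_mat_In 𝔓 hzJ' hwJ' a b
  set e : (Matrix (Nx m Y σ) (Nx m Y σ) 𝔓.B)ˣ := u⁻¹ * τ with he
  have heS : e ∈ SS 𝔓.u Y σ := mul_mem (inv_mem huS) hτ
  have heV : ∀ v : Nx m Y σ → 𝔓.B, InV 𝔓 v → Matrix.vecMul v e.1 = v := by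
    intro v hv
    rw [he, Units.val_mul, ← Matrix.vecMul_vecMul, hu2, hU' v hv, Matrix.vecMul_vecMul, hττ',
      Matrix.vecMul_one]
  refine ⟨u, e, huS, huI, ?_, by rw [he, mul_inv_cancel_left]⟩
  obtain ⟨heS1, heS2⟩ := (mem_SS_iff 𝔓.u e).1 heS
  have k1 : ∀ a b, InI 𝔓.u b ((e.1 - 1) a b) := by
    rintro a ((i | y) | c)
    · change ∃ y, (e.1 - 1) a (Sum.inl (Sum.inl i)) = y * (𝔓.u (gen m i.1) - 1)
      rw [← ann_right, Matrix.sub_apply, sub_mul, heS1, Matrix.one_apply]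
      by_cases h : a = Sum.inl (Sum.inl i)
      · rw [if_pos h, if_pos h, one_mul, sub_self]
      · rw [if_neg h, if_neg h, zero_mul, sub_self]
    · change (e.1 - 1) a (Sum.inl (Sum.inr y)) = 0
      rw [Matrix.sub_apply, heS2, Matrix.one_apply, sub_self]
    · trivial
  have k2 : ∀ (c : σ) b, (e.1 - 1) (Sum.inr c) b = 0 := by
    intro c b
    have h1 := congrFun (heV _ (G2b_ev 𝔓 c).1) b
    rw [G2b_row] at h1
    rw [Matrix.sub_apply, h1, Matrix.one_apply]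
    unfold ev
    rw [Pi.single_apply]
    simp only [eq_comm, sub_self]
  have k3 : ∀ (i : FJ m) b, ∃ y, (e.1 - 1) (Sum.inl (Sum.inl i)) b = NB 𝔓.u i * y := by
    intro i b
    have hv : InV 𝔓 (fun b => (𝔓.u (gen m i.1) - 1) *
        ev 𝔓 (Sum.inl (Sum.inl i) : Nx m Y σ) b) := by
      refine ⟨fun i' => ?_, fun y => ?_⟩
      · change (𝔓.u (gen m i.1) - 1) * ev 𝔓 (Sum.inl (Sum.inl i)) (Sum.inl (Sum.inl i')) * _ = 0
        unfold ev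
        rw [Pi.single_apply]
        by_cases h : i' = i
        · subst h
          rw [if_pos rfl, mul_one, E1_sub_mul_NB]
        · rw [if_neg (by simpa using h), mul_zero, zero_mul]
      · change (𝔓.u (gen m i.1) - 1) * ev 𝔓 (Sum.inl (Sum.inl i)) (Sum.inl (Sum.inr y)) = 0
        unfold ev
        rw [Pi.single_eq_of_ne (by simp), mul_zero]
    have h1 := congrFun (heV _ hv) b
    rw [G2b_smul, G2b_row] at h1
    change (𝔓.u (gen m i.1) - 1) * e.1 (Sum.inl (Sum.inl i)) b = _ at h1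
    have h3 : (𝔓.u (gen m i.1) - 1) * (e.1 - 1) (Sum.inl (Sum.inl i)) b = 0 := by
      have h4 : (1 : Matrix (Nx m Y σ) (Nx m Y σ) 𝔓.B) (Sum.inl (Sum.inl i)) b =
          ev 𝔓 (Sum.inl (Sum.inl i) : Nx m Y σ) b := by
        rw [Matrix.one_apply]
        unfold ev
        rw [Pi.single_apply]
        simp only [eq_comm]
      rw [Matrix.sub_apply, mul_sub, h1, h4, sub_self]
    obtain ⟨y, hy, -⟩ := ann_gen_left 𝔓 i h3
    exact ⟨y, hy⟩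
  obtain ⟨M, hM, hM1⟩ := EE_unip 𝔓 (e.1 - 1) k1 k2 k3
  have hMe : e = M := by
    apply Units.ext
    rw [hM1]
    simp
  rw [hMe]
  exact hM

end FP
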