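import Pool.Agent.Lib.MP_2d4659_gt.FP.F5
import Pool.Agent.Lib.MP_2d4659_gt.FP.F6d
import Pool.Agent.Lib.MP_2d4659_gt.FP.G2
import Pool.Agent.Lib.MP_2d4659_gt.FP.G2b

/-! # The local theorem: every element of `SS` is a product `u * d * e` -/

set_option autoImplicit false

namespace FP

variable {J : Type} [DecidableEq J] [Fintype J] {m : J → ℕ} {Y σ : Type} [Fintype Y] [DecidableEq Y]
  [Fintype σ] [DecidableEq σ] {p : ℕ} [Fact p.Prime] (𝔓 : PGR p (Gp m))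

/-- **Local theorem** -/
theorem local_fac [Nonempty J] (hm : ∀ j, m j ≠ 1) (hyp : Hyp m σ)
    {θ : (Matrix (Nx m Y σ) (Nx m Y σ) 𝔓.B)ˣ} (hθ : θ ∈ SS 𝔓.u Y σ) : Fac 𝔓 θ := by
  obtain ⟨S, A, hA, hG⟩ := exists_Good 𝔓 hm hyp hθ
  have hAS : A ∈ SS 𝔓.u Y σ := NN_le_SS 𝔓 hA
  have h1 : θ * A⁻¹ ∈ SS 𝔓.u Y σ := mul_mem hθ (inv_mem hAS)
  have h2 : ∀ v : Nx m Y σ → 𝔓.B, v ∈ Jt 𝔓 (θ * A⁻¹) ↔ Matrix.vecMul v A.1 ∈ Jt 𝔓 θ := by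
    intro v
    rw [mem_Jt, mem_Jt, mul_inv_rev, inv_inv, Units.val_mul, ← Matrix.vecMul_vecMul]
  obtain ⟨δ, hδ, hJ⟩ := good_std 𝔓 S h1 (fun v hv x => (h2 _).mpr (hG v x ((h2 v).mp hv)))
  have hδS : δ ∈ SS 𝔓.u Y σ := NN_le_SS 𝔓 hδ
  have h3 : θ * A⁻¹ * δ⁻¹ ∈ SS 𝔓.u Y σ := mul_mem h1 (inv_mem hδS)
  have h4 : Jt 𝔓 (θ * A⁻¹ * δ⁻¹) = Jh 𝔓 Y σ := by
    ext v
    rw [mem_Jt, mul_inv_rev, inv_inv, Units.val_mul, ← Matrix.vecMul_vecMul, ← mem_Jt, hJ, mem_Jt,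
      Matrix.vecMul_vecMul, ← Units.val_mul, mul_inv_cancel, Units.val_one, Matrix.vecMul_one]
  obtain ⟨D, hD, hJD, hz⟩ := P2_corr 𝔓 h3 h4
  have h5 : θ * A⁻¹ * δ⁻¹ * D ∈ SS 𝔓.u Y σ := mul_mem h3 (DD_le_SS 𝔓 hD)
  obtain ⟨u, e, hu, hu', he, hh⟩ := P2_ext 𝔓 h5 hJD hz
  have h6 : Fac 𝔓 (θ * A⁻¹ * δ⁻¹) := by
    refine ⟨u, D⁻¹, D * e * D⁻¹, hu, hu', inv_mem hD, DD_conj 𝔓 hD he, ?_⟩
    have h7 : θ * A⁻¹ * δ⁻¹ = u * e * D⁻¹ := by rw [← hh]; group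
    rw [h7]
    group
  have h8 := Fac_mul 𝔓 h6 (mul_mem hδ hA)
  have h9 : θ * A⁻¹ * δ⁻¹ * (δ * A) = θ := by group
  rwa [h9] at h8

end FP
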