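import Pool.Agent.Lib.MP_2d4659_gt.FP.B1

/-!
# The free product of cyclic groups

`m : J → ℕ` are the orders (`0` means infinite). `H j` is the `j`-th factor as a subgroup if it is
finite, and the trivial subgroup if it is infinite.  The vertices of the tree are the elements of `G`
and the cosets `g H j`; for infinite factors the vertex `g H j = {g}` is the midpoint of the edge from
`g` to `g a_j`.
-/

set_option autoImplicit false

namespace FP

variable {J : Type}

/-- the free product of cyclic groups of orders `m j` -/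
abbrev Gp (m : J → ℕ) : Type := Monoid.CoprodI (fun j => Multiplicative (ZMod (m j)))

/-- the generator of the `j`-th factor -/
def gen (m : J → ℕ) (j : J) : Gp m :=
  Monoid.CoprodI.of (M := fun j => Multiplicative (ZMod (m j))) (i := j) (Multiplicative.ofAdd 1)

/-- the stabiliser of the `j`-th base vertex -/
def HJ (m : J → ℕ) (j : J) : Subgroup (Gp m) :=
  open Classical in
  if m j = 0 then ⊥ else
    (Monoid.CoprodI.of (M := fun j => Multiplicative (ZMod (m j))) (i := j)).range

/-- the vertices of the tree -/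
abbrev Vx (m : J → ℕ) : Type := Gp m ⊕ (Σ j : J, Gp m ⧸ HJ m j)

/-- the base vertices -/
def bs (m : J → ℕ) : Option J → Vx m
  | none => Sum.inl 1
  | some j => Sum.inr ⟨j, QuotientGroup.mk 1⟩

/-- the type of a vertex -/
def ty {m : J → ℕ} : Vx m → Option J
  | Sum.inl _ => none
  | Sum.inr q => some q.1

/-- the stabiliser of a base vertex, as a subgroup -/
def HT (m : J → ℕ) : Option J → Subgroup (Gp m)
  | none => ⊥
  | some j => HJ m j

/-- adjacency, up to symmetry: `g` and its neighbours -/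
def AdjG (m : J → ℕ) (g : Gp m) (y : Vx m) : Prop :=
  ∃ j, y = Sum.inr ⟨j, QuotientGroup.mk g⟩ ∨
    (m j = 0 ∧ y = Sum.inr ⟨j, QuotientGroup.mk (g * (gen m j)⁻¹)⟩)

lemma smul_bs_none {m : J → ℕ} (g : Gp m) : g • bs m none = Sum.inl g := by
  change (Sum.inl (g * (1 : Gp m)) : Vx m) = Sum.inl g
  rw [mul_one]

lemma smul_bs_some {m : J → ℕ} (g : Gp m) (j : J) :
    g • bs m (some j) = Sum.inr ⟨j, QuotientGroup.mk g⟩ := by
  change (Sum.inr ⟨j, QuotientGroup.mk (g * 1)⟩ : Vx m) = _
  rw [mul_one]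

lemma ty_smul {m : J → ℕ} (g : Gp m) (x : Vx m) : ty (g • x) = ty x := by
  rcases x with x | ⟨j, q⟩ <;> rfl

lemma ty_bs {m : J → ℕ} (t : Option J) : ty (bs m t) = t := by
  cases t <;> rfl

lemma exists_smul_bs {m : J → ℕ} (x : Vx m) : ∃ g : Gp m, x = g • bs m (ty x) := by
  rcases x with x | ⟨j, q⟩
  · exact ⟨x, (smul_bs_none x).symm⟩
  · induction q using QuotientGroup.induction_on with
    | H g => exact ⟨g, (smul_bs_some g j).symm⟩

lemma smul_bs_eq {m : J → ℕ} (g h : Gp m) (t : Option J) :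
    g • bs m t = h • bs m t ↔ g⁻¹ * h ∈ HT m t := by
  cases t with
  | none =>
    rw [smul_bs_none, smul_bs_none]
    change _ ↔ g⁻¹ * h ∈ (⊥ : Subgroup (Gp m))
    rw [Subgroup.mem_bot, inv_mul_eq_one]
    exact ⟨fun h => Sum.inl.inj h, fun h => by rw [h]⟩
  | some j =>
    rw [smul_bs_some, smul_bs_some]
    change _ ↔ g⁻¹ * h ∈ HJ m j
    rw [← QuotientGroup.eq]
    constructor
    · intro h
      have h1 := Sum.inr.inj h
      rw [Sigma.mk.injEq] at h1
      exact eq_of_heq h1.2
    · intro h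
      rw [h]

lemma stab_bs {m : J → ℕ} (g : Gp m) (t : Option J) : g • bs m t = bs m t ↔ g ∈ HT m t := by
  have h := smul_bs_eq (1 : Gp m) g t
  rw [one_smul, inv_one, one_mul] at h
  rw [← h]
  exact eq_comm

lemma Gdefs_HJ_zero {m : J → ℕ} {j : J} (hj : m j = 0) : HJ m j = ⊥ := by
  unfold HJ
  rw [if_pos hj]

lemma Gdefs_HJ_ne {m : J → ℕ} {j : J} (hj : m j ≠ 0) : HJ m j =
    (Monoid.CoprodI.of (M := fun j => Multiplicative (ZMod (m j))) (i := j)).range := by
  unfold HJ
  rw [if_neg hj]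

/-- the stabilisers are finite -/
lemma HT_finite {m : J → ℕ} (t : Option J) : Finite (HT m t) := by
  cases t with
  | none =>
    change Finite (⊥ : Subgroup (Gp m))
    infer_instance
  | some j =>
    change Finite (HJ m j)
    by_cases hj : m j = 0
    · rw [Gdefs_HJ_zero hj]
      infer_instance
    · rw [Gdefs_HJ_ne hj]
      have : NeZero (m j) := ⟨hj⟩
      have : Finite (Multiplicative (ZMod (m j))) := inferInstanceAs (Finite (ZMod (m j)))
      exact Finite.of_surjective _ (Monoid.CoprodI.of (M := fun j => Multiplicative (ZMod (m j)))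
        (i := j)).rangeRestrict_surjective

lemma HT_comm {m : J → ℕ} (t : Option J) (g h : Gp m) (hg : g ∈ HT m t) (hh : h ∈ HT m t) :
    g * h = h * g := by
  cases t with
  | none =>
    change g ∈ (⊥ : Subgroup (Gp m)) at hg
    rw [Subgroup.mem_bot] at hg
    rw [hg, one_mul, mul_one]
  | some j =>
    change g ∈ HJ m j at hg
    change h ∈ HJ m j at hh
    by_cases hj : m j = 0
    · rw [Gdefs_HJ_zero hj, Subgroup.mem_bot] at hg
      rw [hg, one_mul, mul_one]
    · rw [Gdefs_HJ_ne hj] at hg hh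
      obtain ⟨a, rfl⟩ := hg
      obtain ⟨b, rfl⟩ := hh
      rw [← map_mul, mul_comm a b, map_mul]

lemma Gdefs_gen_pow {m : J → ℕ} (j : J) (c : ℕ) : gen m j ^ c =
    Monoid.CoprodI.of (M := fun j => Multiplicative (ZMod (m j))) (i := j)
      (Multiplicative.ofAdd (c : ZMod (m j))) := by
  unfold gen
  rw [← map_pow]
  congr 1
  rw [← ofAdd_nsmul, nsmul_one]

/-- elements of a finite factor are powers of the generator -/
lemma mem_HT_some {m : J → ℕ} {j : J} (hj : m j ≠ 0) (g : Gp m) :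
    g ∈ HT m (some j) ↔ ∃ c < m j, g = gen m j ^ c := by
  change g ∈ HJ m j ↔ _
  have : NeZero (m j) := ⟨hj⟩
  rw [Gdefs_HJ_ne hj]
  constructor
  · rintro ⟨a, rfl⟩
    refine ⟨(Multiplicative.toAdd a).val, ZMod.val_lt _, ?_⟩
    rw [Gdefs_gen_pow, ZMod.natCast_zmod_val, ofAdd_toAdd]
  · rintro ⟨c, -, rfl⟩
    rw [Gdefs_gen_pow]
    exact ⟨_, rfl⟩

lemma gen_pow_inj {m : J → ℕ} {j : J} (hj : m j ≠ 0) {c c' : ℕ} (hc : c < m j) (hc' : c' < m j)
    (h : gen m j ^ c = gen m j ^ c') : c = c' := by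
  rw [Gdefs_gen_pow, Gdefs_gen_pow] at h
  have _hne := hj
  have h1 := Monoid.CoprodI.of_injective j h
  have h2 : (c : ZMod (m j)) = (c' : ZMod (m j)) := Multiplicative.ofAdd.injective h1
  rw [ZMod.natCast_eq_natCast_iff] at h2
  exact Nat.ModEq.eq_of_lt_of_lt h2 hc hc'

lemma gen_pow_card {m : J → ℕ} (j : J) : gen m j ^ m j = 1 := by
  rw [Gdefs_gen_pow, ZMod.natCast_self, ofAdd_zero, map_one]

end FP
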