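import Pool.Agent.Lib.MP_2d4659_gt.FP.D2
import Pool.Agent.Lib.MP_2d4659_gt.FP.E2
import Pool.Agent.Lib.MP_2d4659_gt.FP.FinDefs

/-!
# The global part: definitions

`eZ`, `eQ`: the inclusions of `ℤ[G]` and `ℚ[G]` in the completed group ring.  `gB 𝔓 g`: an invertible matrix over
`ℚ[G]` as a matrix over the completed group ring.  `rt t`: the retraction of `G` to a finite factor (or to
the trivial group).
-/

set_option autoImplicit false

namespace FP

section maps

variable {J : Type} {m : J → ℕ}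

/-- `ℤ[G] → ℚ[G]` -/
noncomputable def zq (m : J → ℕ) : MonoidAlgebra ℤ (Gp m) →+* MonoidAlgebra ℚ (Gp m) :=
  MonoidAlgebra.mapRingHom (Gp m) (Int.castRingHom ℚ)

variable {p : ℕ} [Fact p.Prime] (𝔓 : PGR p (Gp m))

/-- the inclusion of `ℤ[G]` -/
noncomputable def eZ : MonoidAlgebra ℤ (Gp m) →+* 𝔓.B :=
  𝔓.emb.comp (MonoidAlgebra.mapRingHom (Gp m) (Int.castRingHom ℚ_[p]))

/-- the inclusion of `ℚ[G]` -/
noncomputable def eQ : MonoidAlgebra ℚ (Gp m) →+* 𝔓.B :=
  𝔓.emb.comp (MonoidAlgebra.mapRingHom (Gp m) (algebraMap ℚ ℚ_[p]))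

lemma zq_coeff (x : MonoidAlgebra ℤ (Gp m)) (g : Gp m) : (zq m x).coeff g = (x.coeff g : ℚ) := by
  unfold zq
  rw [MonoidAlgebra.coeff_mapRingHom, eq_intCast]

lemma zq_inj : Function.Injective (zq m) := by
  intro x y h
  ext g
  have h1 : (zq m x).coeff g = (zq m y).coeff g := by rw [h]
  rw [zq_coeff, zq_coeff] at h1
  exact_mod_cast h1

lemma zq_u (g : Gp m) : zq m (uk ℤ m g) = uk ℚ m g := by
  unfold zq
  rw [MonoidAlgebra.of_apply, MonoidAlgebra.of_apply, MonoidAlgebra.mapRingHom_single, map_one]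

lemma cf_eZ (x : MonoidAlgebra ℤ (Gp m)) (g : Gp m) : 𝔓.cf g (eZ 𝔓 x) = (x.coeff g : ℚ_[p]) := by
  unfold eZ
  rw [RingHom.comp_apply, 𝔓.cf_emb, MonoidAlgebra.coeff_mapRingHom, eq_intCast]

lemma cf_eQ (x : MonoidAlgebra ℚ (Gp m)) (g : Gp m) :
    𝔓.cf g (eQ 𝔓 x) = ((x.coeff g : ℚ) : ℚ_[p]) := by
  unfold eQ
  rw [RingHom.comp_apply, 𝔓.cf_emb, MonoidAlgebra.coeff_mapRingHom, eq_ratCast]

lemma eQ_inj : Function.Injective (eQ 𝔓) := by
  intro x y h
  ext g
  have h1 : 𝔓.cf g (eQ 𝔓 x) = 𝔓.cf g (eQ 𝔓 y) := by rw [h]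
  rw [cf_eQ, cf_eQ] at h1
  exact Rat.cast_injective h1

lemma eQ_u (g : Gp m) : eQ 𝔓 (uk ℚ m g) = 𝔓.u g := by
  unfold eQ
  rw [RingHom.comp_apply, MonoidAlgebra.of_apply, MonoidAlgebra.mapRingHom_single, map_one,
    PGR.D1_u_eq]

lemma eZ_u (g : Gp m) : eZ 𝔓 (uk ℤ m g) = 𝔓.u g := by
  unfold eZ
  rw [RingHom.comp_apply, MonoidAlgebra.of_apply, MonoidAlgebra.mapRingHom_single, map_one,
    PGR.D1_u_eq]

lemma eQ_zq (x : MonoidAlgebra ℤ (Gp m)) : eQ 𝔓 (zq m x) = eZ 𝔓 x := by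
  refine 𝔓.ext fun g => ?_
  rw [cf_eQ, cf_eZ, zq_coeff, Rat.cast_intCast]

lemma In_eZ (x : MonoidAlgebra ℤ (Gp m)) : 𝔓.In (eZ 𝔓 x) := 𝔓.In_int x

/-- `Ψ` is compatible with ring homomorphisms -/
lemma psi_map [DecidableEq J] {Y σ : Type} [DecidableEq Y] {B B' : Type} [Semiring B] [Semiring B']
    (f : B →+* B') (u : Gp m →* B) (u' : Gp m →* B') (h : ∀ g, f (u g) = u' g) :
    (psi u Y σ).map f = psi u' Y σ := by
  have hN : ∀ i : FJ m, f (NB u i) = NB u' i := by
    intro i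
    unfold NB
    rw [map_sum]
    exact Finset.sum_congr rfl fun c _ => by rw [map_pow, h]
  have hd : ∀ c : Co m Y, f (dg u Y c) = dg u' Y c := by
    rintro (i | y)
    · exact hN i
    · exact map_one f
  ext r c
  rcases r with r | r
  · change f (if r = c then dg u Y c else 0) = if r = c then dg u' Y c else 0
    by_cases hrc : r = c
    · rw [if_pos hrc, if_pos hrc, hd]
    · rw [if_neg hrc, if_neg hrc, map_zero]
  · exact map_zero f

lemma SameRow_map {n c B B' : Type} [Semiring B] [Semiring B'] [Fintype n] (f : B →+* B')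
    {Φ Ψ : Matrix n c B} (h : SameRow Φ Ψ) : SameRow (Φ.map f) (Ψ.map f) := by
  obtain ⟨⟨X, hX⟩, ⟨X', hX'⟩⟩ := h
  refine ⟨⟨X.map f, ?_⟩, ⟨X'.map f, ?_⟩⟩
  · conv_lhs => rw [hX]
    exact Matrix.map_mul
  · conv_lhs => rw [hX']
    exact Matrix.map_mul

/-- a matrix over `ℚ[G]` as a matrix over the completed group ring -/
noncomputable def gB {n : Type} [Fintype n] [DecidableEq n] :
    (Matrix n n (MonoidAlgebra ℚ (Gp m)))ˣ →* (Matrix n n 𝔓.B)ˣ :=
  Units.map (RingHom.mapMatrix (eQ 𝔓)).toMonoidHom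

lemma gB_val {n : Type} [Fintype n] [DecidableEq n] (g : (Matrix n n (MonoidAlgebra ℚ (Gp m)))ˣ) :
    (gB 𝔓 g).1 = g.1.map (eQ 𝔓) := rfl

lemma gB_inv_val {n : Type} [Fintype n] [DecidableEq n]
    (g : (Matrix n n (MonoidAlgebra ℚ (Gp m)))ˣ) : (gB 𝔓 g)⁻¹.1 = g⁻¹.1.map (eQ 𝔓) := by
  rw [← map_inv]
  rfl

end maps

section retr

variable {J : Type} [DecidableEq J] {m : J → ℕ}

/-- the order of the image of `rt t` -/
def mt (m : J → ℕ) : Option (FJ m) → ℕ
  | none => 1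
  | some i => m i.1

instance (t : Option (FJ m)) : NeZero (mt m t) := ⟨by
  cases t with
  | none => exact one_ne_zero
  | some i => exact i.2⟩

/-- a finite cyclic group -/
abbrev Cy (m : J → ℕ) (t : Option (FJ m)) : Type := Multiplicative (ZMod (mt m t))

/-- the retraction to a finite factor (`none`: the trivial homomorphism) -/
def rt (t : Option (FJ m)) : Gp m →* Cy m t :=
  match t with
  | none => 1
  | some i => Monoid.CoprodI.lift (Function.update
      (β := fun j => Multiplicative (ZMod (m j)) →* Multiplicative (ZMod (m i.1)))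
      (fun _ => 1) i.1 (MonoidHom.id _))

lemma rt_self (i : FJ m) : rt (some i) (gen m i.1) = Multiplicative.ofAdd (1 : ZMod (m i.1)) := by
  unfold rt gen
  simp only [Monoid.CoprodI.lift_of, Function.update_self]
  rfl

lemma rt_ne (t : Option (FJ m)) (j : J) (h : ∀ i, t = some i → i.1 ≠ j) :
    rt t (gen m j) = 1 := by
  cases t with
  | none => rfl
  | some i =>
    unfold rt gen
    simp only [Monoid.CoprodI.lift_of]
    rw [Function.update_of_ne (h i rfl).symm]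
    rfl

/-- the determinants of the images of a matrix over `ℚ[G]` over the group rings of the finite factors are
`1` or `-1` -/
def DetOne {n : Type} [Fintype n] [DecidableEq n] (g : Matrix n n (MonoidAlgebra ℚ (Gp m))) : Prop :=
  ∀ t : Option (FJ m), (g.map (MonoidAlgebra.mapDomainRingHom ℚ (rt t))).det = 1 ∨
    (g.map (MonoidAlgebra.mapDomainRingHom ℚ (rt t))).det = -1

variable {p : ℕ} [Fact p.Prime] (𝔓 : PGR p (Gp m))

lemma H0_comm {k k' G H : Type} [CommRing k] [CommRing k'] [Group G] [Group H] (f : k →+* k')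
    (φ : G →* H) (x : MonoidAlgebra k G) :
    MonoidAlgebra.mapDomainRingHom k' φ (MonoidAlgebra.mapRingHom G f x) =
      MonoidAlgebra.mapRingHom H f (MonoidAlgebra.mapDomainRingHom k φ x) := by
  have h : (MonoidAlgebra.mapDomainRingHom k' φ).comp (MonoidAlgebra.mapRingHom G f) =
      (MonoidAlgebra.mapRingHom H f).comp (MonoidAlgebra.mapDomainRingHom k φ) := by
    refine MonoidAlgebra.ringHom_ext (fun r => ?_) (fun g => ?_)
    · rw [RingHom.comp_apply, RingHom.comp_apply, MonoidAlgebra.mapRingHom_single,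
        MonoidAlgebra.mapDomainRingHom_apply, MonoidAlgebra.mapDomainRingHom_apply,
        MonoidAlgebra.mapDomain_single, MonoidAlgebra.mapDomain_single,
        MonoidAlgebra.mapRingHom_single]
    · rw [RingHom.comp_apply, RingHom.comp_apply, MonoidAlgebra.mapRingHom_single,
        MonoidAlgebra.mapDomainRingHom_apply, MonoidAlgebra.mapDomainRingHom_apply,
        MonoidAlgebra.mapDomain_single, MonoidAlgebra.mapDomain_single,
        MonoidAlgebra.mapRingHom_single]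
  exact RingHom.congr_fun h x

/-- `pr` and `mapDomain` -/
lemma pr_eQ (t : Option (FJ m)) (x : MonoidAlgebra ℚ (Gp m)) : 𝔓.pr (rt t) (eQ 𝔓 x) =
    MonoidAlgebra.mapRingHom (Cy m t) (algebraMap ℚ ℚ_[p])
      (MonoidAlgebra.mapDomainRingHom ℚ (rt t) x) := by
  rw [← H0_comm]
  exact 𝔓.pr_emb (rt t) _

lemma pr_u (t : Option (FJ m)) (g : Gp m) : 𝔓.pr (rt t) (𝔓.u g) = MonoidAlgebra.of _ _ (rt t g) := by
  rw [PGR.D1_u_eq, 𝔓.pr_emb, MonoidAlgebra.mapDomainRingHom_apply, MonoidAlgebra.mapDomain_single,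
    MonoidAlgebra.of_apply]

end retr

end FP
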