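import Pool.Agent.Lib.MP_2d4659_gt.FP.C6
import Pool.Agent.Lib.MP_2d4659_gt.FP.H0

/-!
# The local solution

By the field case over `ZMod p`: `Φ = h Ψ` modulo `p`, `h` invertible modulo `p`.  Lift `h` to a matrix over the
integral elements; it is invertible with integral inverse (`unit_of_red`).  Let `Φ' = h⁻¹ Φ`; the entries of
`Φ' - Ψ` are divisible by `p`, and `Φ' = X Ψ`, `X` integral.  So `(X - 1) Ψ` is divisible by `p`, and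
`(X - 1) Ψ = p Z Ψ` with `Z` integral (`pure_row`).  Then `Φ = h (1 + p Z) Ψ`.
-/

set_option autoImplicit false

namespace FP

variable {J : Type} [DecidableEq J] [Fintype J] {m : J → ℕ} {Y σ : Type} [Fintype Y] [DecidableEq Y]
  [Fintype σ] [DecidableEq σ] {p : ℕ} [Fact p.Prime] (𝔓 : PGR p (Gp m))

lemma H1_vec {B : Type} [Ring B] (u : Gp m →* B) (v : Nx m Y σ → B) (c : Co m Y) :
    Matrix.vecMul v (psi u Y σ) c = v (Sum.inl c) * dg u Y c := by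
  have h := E1_mul_psi u (Matrix.of (fun _ : Nx m Y σ => v)) (Sum.inl c) c
  rw [Matrix.mul_apply] at h
  exact h

lemma H1_p_inj {x : 𝔓.B} (h : (p : 𝔓.B) * x = 0) : x = 0 := by
  have hp0 : (p : ℚ_[p]) ≠ 0 := by exact_mod_cast (Fact.out : p.Prime).ne_zero
  refine 𝔓.cf_inj x fun g => ?_
  have h1 : 𝔓.cf g ((p : 𝔓.B) * x) = 0 := by rw [h, map_zero]
  rw [𝔓.cf_p_mul] at h1
  exact (mul_eq_zero.mp h1).resolve_left hp0

lemma H1_zero_In : 𝔓.In (0 : 𝔓.B) := fun g => by rw [map_zero, norm_zero]; exact zero_le_one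

lemma H1_mul_In {n k l : Type} [Fintype k] {A : Matrix n k 𝔓.B} {C : Matrix k l 𝔓.B}
    (hA : ∀ i j, 𝔓.In (A i j)) (hC : ∀ i j, 𝔓.In (C i j)) : ∀ i j, 𝔓.In ((A * C) i j) := by
  intro i j
  rw [Matrix.mul_apply]
  exact PGR.Le.sum 𝔓 zero_le_one _ _ fun k _ => PGR.In.mul 𝔓 (hA i k) (hC k j)

lemma H1_mul_Sm {n k l : Type} [Fintype k] {A : Matrix n k 𝔓.B} {C : Matrix k l 𝔓.B}
    (hA : ∀ i j, 𝔓.In (A i j)) (hC : ∀ i j, 𝔓.Sm (C i j)) : ∀ i j, 𝔓.Sm ((A * C) i j) := by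
  intro i j
  rw [Matrix.mul_apply]
  exact PGR.Sm.sum 𝔓 _ _ fun k _ => PGR.In.mul_Sm 𝔓 (hA i k) (hC k j)

lemma H1_red_mul {n k l : Type} [Fintype k] {A : Matrix n k 𝔓.B} {C : Matrix k l 𝔓.B}
    (hA : ∀ i j, 𝔓.In (A i j)) (hC : ∀ i j, 𝔓.In (C i j)) :
    (A * C).map 𝔓.red = A.map 𝔓.red * C.map 𝔓.red := by
  ext1 i j
  rw [Matrix.map_apply, Matrix.mul_apply, Matrix.mul_apply,
    𝔓.red_sum _ _ fun k _ => PGR.In.mul 𝔓 (hA i k) (hC k j)]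
  refine Finset.sum_congr rfl fun k _ => ?_
  rw [𝔓.red_mul (hA i k) (hC k j), Matrix.map_apply, Matrix.map_apply]

lemma H1_one_In {n : Type} [DecidableEq n] : ∀ i j, 𝔓.In ((1 : Matrix n n 𝔓.B) i j) := by
  intro i j
  by_cases h : i = j
  · rw [h, Matrix.one_apply_eq]; exact 𝔓.D2_In_one
  · rw [Matrix.one_apply_ne h]; exact H1_zero_In 𝔓

lemma H1_sub_In {a b : 𝔓.B} (ha : 𝔓.In a) (hb : 𝔓.In b) : 𝔓.In (a - b) := by
  rw [sub_eq_add_neg]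
  exact PGR.Le.add 𝔓 ha (PGR.Le.neg 𝔓 hb)

/-- if the entries of `v Ψ` are divisible by `p`, `v` integral, then `v Ψ = p (z Ψ)`, `z` integral
(`(v N_i / p) (a_i - 1) = 0`, so `v N_i / p = z N_i` by `ann_gen`-like arguments, `z` integral) -/
theorem pure_row {v : Nx m Y σ → 𝔓.B} (hv : ∀ b, 𝔓.In (v b))
    (h : ∀ c : Co m Y, 𝔓.Sm (Matrix.vecMul v (psi 𝔓.u Y σ) c)) :
    ∃ z : Nx m Y σ → 𝔓.B, (∀ b, 𝔓.In (z b)) ∧
      ∀ c, Matrix.vecMul v (psi 𝔓.u Y σ) c = p * Matrix.vecMul z (psi 𝔓.u Y σ) c := by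
  have key : ∀ c : Co m Y, ∃ y, 𝔓.In y ∧ v (Sum.inl c) * dg 𝔓.u Y c = p * (y * dg 𝔓.u Y c) := by
    intro c
    have hc := h c
    rw [H1_vec] at hc
    obtain ⟨x, hx, hx'⟩ := (𝔓.Sm_iff _).1 hc
    rcases c with i | y
    · have h1 : x * (𝔓.u (gen m i.1) - 1) = 0 := by
        refine H1_p_inj 𝔓 ?_
        rw [← mul_assoc, ← hx']
        change v (Sum.inl (Sum.inl i)) * NB 𝔓.u i * _ = 0
        rw [mul_assoc, E1_NB_mul_sub, mul_zero]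
      obtain ⟨y, hy, hy'⟩ := ann_gen 𝔓 i h1
      refine ⟨y, hy' hx, ?_⟩
      rw [hx', hy]
      rfl
    · refine ⟨x, hx, ?_⟩
      rw [hx']
      change _ = (p : 𝔓.B) * (x * 1)
      rw [mul_one]
  choose y hy hy' using key
  refine ⟨Sum.elim y (fun _ => 0), ?_, ?_⟩
  · rintro (c | s)
    · exact hy c
    · exact H1_zero_In 𝔓
  · intro c
    rw [H1_vec, H1_vec]
    exact hy' c

/-- **Local solution** -/
theorem factL [Nonempty J] (hm : ∀ j, m j ≠ 1) (Φ : Matrix (Nx m Y σ) (Co m Y) (MonoidAlgebra ℤ (Gp m)))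
    (hrow : SameRow Φ (psi (uk ℤ m) Y σ)) :
    ∃ θ : (Matrix (Nx m Y σ) (Nx m Y σ) 𝔓.B)ˣ, IntU 𝔓 θ ∧ Φ.map (eZ 𝔓) = θ.1 * psi 𝔓.u Y σ := by
  classical
  set r : MonoidAlgebra ℤ (Gp m) →+* MonoidAlgebra (ZMod p) (Gp m) :=
    MonoidAlgebra.mapRingHom (Gp m) (Int.castRingHom (ZMod p)) with hr
  have hru : ∀ g, r (uk ℤ m g) = uk (ZMod p) m g := by
    intro g
    rw [hr, MonoidAlgebra.of_apply, MonoidAlgebra.of_apply, MonoidAlgebra.mapRingHom_single,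
      map_one]
  have hred : ∀ x, 𝔓.red (eZ 𝔓 x) = r x := fun x => 𝔓.red_int x
  have hrow' : SameRow (Φ.map r) (psi (uk (ZMod p) m) Y σ) := by
    have h1 := SameRow_map r hrow
    rwa [psi_map r _ _ hru] at h1
  obtain ⟨h0, hh0⟩ := fact1 hm (Φ.map r) hrow'
  choose N hN hN' using fun i j => 𝔓.red_surj (h0.1 i j)
  obtain ⟨V, hV, hVi⟩ := 𝔓.unit_of_red N hN h0 hN'
  have hVI : ∀ i j, 𝔓.In (V.1 i j) := by rw [hV]; exact hN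
  have hVred : V.1.map 𝔓.red = h0.1 := by
    ext1 i j
    rw [Matrix.map_apply, hV]
    exact hN' i j
  have hΦI : ∀ i j, 𝔓.In (Φ.map (eZ 𝔓) i j) := fun i j => In_eZ 𝔓 _
  have hψ : (psi (uk ℤ m) Y σ).map (eZ 𝔓) = psi 𝔓.u Y σ := psi_map (eZ 𝔓) _ _ (eZ_u 𝔓)
  have hψI : ∀ i j, 𝔓.In (psi 𝔓.u Y σ i j) := by
    intro i j
    rw [← hψ]
    exact In_eZ 𝔓 _
  have hψred : (psi 𝔓.u Y σ).map 𝔓.red = psi (uk (ZMod p) m) Y σ := by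
    rw [← hψ, ← psi_map r _ _ hru]
    ext1 i j
    simp only [Matrix.map_apply]
    exact hred _
  have hΦred : (Φ.map (eZ 𝔓)).map 𝔓.red = Φ.map r := by
    ext1 i j
    simp only [Matrix.map_apply]
    exact hred _
  obtain ⟨⟨X0, hX0⟩, -⟩ := hrow
  have hΦX : Φ.map (eZ 𝔓) = X0.map (eZ 𝔓) * psi 𝔓.u Y σ := by
    rw [← hψ]
    conv_lhs => rw [hX0]
    exact Matrix.map_mul
  -- the entries of `Φ - V Ψ` are divisible by `p`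
  have hSm : ∀ i j, 𝔓.Sm ((Φ.map (eZ 𝔓) - V.1 * psi 𝔓.u Y σ) i j) := by
    intro i j
    have hI := H1_sub_In 𝔓 (hΦI i j) (H1_mul_In 𝔓 hVI hψI i j)
    rw [Matrix.sub_apply]
    rw [← 𝔓.red_eq_zero hI, sub_eq_add_neg, 𝔓.red_add (hΦI i j)
      (PGR.Le.neg 𝔓 (H1_mul_In 𝔓 hVI hψI i j)), 𝔓.red_neg (H1_mul_In 𝔓 hVI hψI i j)]
    have e1 : 𝔓.red (Φ.map (eZ 𝔓) i j) = (Φ.map r) i j := by rw [← hΦred]; rfl
    have e2 : 𝔓.red ((V.1 * psi 𝔓.u Y σ) i j) = (Φ.map r) i j := by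
      have h1 := congrFun (congrFun (H1_red_mul 𝔓 hVI hψI) i) j
      rw [Matrix.map_apply] at h1
      rw [h1, hVred, hψred, ← hh0]
    rw [e1, e2, add_neg_cancel]
  set X : Matrix (Nx m Y σ) (Nx m Y σ) 𝔓.B := V⁻¹.1 * X0.map (eZ 𝔓) with hX
  have hXI : ∀ i j, 𝔓.In (X i j) := H1_mul_In 𝔓 hVi (fun i j => In_eZ 𝔓 _)
  have hXΨ : V.1 * (X * psi 𝔓.u Y σ) = Φ.map (eZ 𝔓) := by
    rw [hX, ← Matrix.mul_assoc, ← Matrix.mul_assoc, Units.mul_inv, Matrix.one_mul, hΦX]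
  have hd : ((X - 1) * psi 𝔓.u Y σ : Matrix (Nx m Y σ) (Co m Y) 𝔓.B) = V⁻¹.1 * (Φ.map (eZ 𝔓) - V.1 * psi 𝔓.u Y σ) := by
    rw [Matrix.sub_mul, Matrix.one_mul, Matrix.mul_sub, ← hXΨ, ← Matrix.mul_assoc V⁻¹.1,
      ← Matrix.mul_assoc V⁻¹.1, Units.inv_mul, Matrix.one_mul, Matrix.one_mul]
  have hdS : ∀ i j, 𝔓.Sm (((X - 1) * psi 𝔓.u Y σ : Matrix (Nx m Y σ) (Co m Y) 𝔓.B) i j) := by
    rw [hd]
    exact H1_mul_Sm 𝔓 hVi hSm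
  have hX1 : ∀ i j, 𝔓.In ((X - 1) i j) := fun i j => by
    rw [Matrix.sub_apply]
    exact H1_sub_In 𝔓 (hXI i j) (H1_one_In 𝔓 i j)
  choose z hz hz' using fun a => pure_row 𝔓 (v := (X - 1) a) (hX1 a) (fun c => hdS a c)
  set Z : Matrix (Nx m Y σ) (Nx m Y σ) 𝔓.B := Matrix.of z with hZ
  have hZI : ∀ i j, 𝔓.In (Z i j) := fun i j => hz i j
  have hpI : ∀ i j, 𝔓.Sm (((p : 𝔓.B) • Z) i j) := fun i j =>
    (𝔓.Sm_iff _).2 ⟨Z i j, hZI i j, rfl⟩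
  have h1pI : ∀ i j, 𝔓.In ((1 + (p : 𝔓.B) • Z) i j) := fun i j => by
    rw [Matrix.add_apply]
    exact PGR.Le.add 𝔓 (H1_one_In 𝔓 i j) (fun g => (hpI i j g).le)
  have h1pred : ∀ i j, 𝔓.red ((1 + (p : 𝔓.B) • Z) i j) =
      (1 : (Matrix (Nx m Y σ) (Nx m Y σ) (MonoidAlgebra (ZMod p) (Gp m)))ˣ).1 i j := by
    intro i j
    have hI : 𝔓.In (((p : 𝔓.B) • Z) i j) := fun g => (hpI i j g).le
    rw [Matrix.add_apply, 𝔓.red_add (H1_one_In 𝔓 i j) hI, (𝔓.red_eq_zero hI).2 (hpI i j), add_zero,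
      Units.val_one]
    by_cases h : i = j
    · rw [h, Matrix.one_apply_eq, Matrix.one_apply_eq, 𝔓.red_one]
    · rw [Matrix.one_apply_ne h, Matrix.one_apply_ne h, 𝔓.D2_red_zero]
  obtain ⟨W, hW, hWi⟩ := 𝔓.unit_of_red _ h1pI 1 h1pred
  refine ⟨V * W, E2_IntU_mul 𝔓 ⟨hVI, hVi⟩ ⟨by rw [hW]; exact h1pI, hWi⟩, ?_⟩
  have hWΨ : W.1 * psi 𝔓.u Y σ = X * psi 𝔓.u Y σ := by
    have e : ((X - 1) * psi 𝔓.u Y σ : Matrix (Nx m Y σ) (Co m Y) 𝔓.B) =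
        ((p : 𝔓.B) • Z) * psi 𝔓.u Y σ := by
      ext1 a c
      rw [Matrix.smul_mul, Matrix.smul_apply, smul_eq_mul]
      exact hz' a c
    rw [hW, Matrix.add_mul, ← e, ← Matrix.add_mul, add_sub_cancel]
  rw [Units.val_mul, Matrix.mul_assoc, hWΨ, hXΨ]

end FP
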