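import Pool.Agent.Lib.MP_2d4659_gt.FP.H0

/-!
# Determinants
-/

set_option autoImplicit false

namespace FP

section gen

variable {J : Type} [DecidableEq J] [Fintype J] {m : J → ℕ} {Y σ : Type} [Fintype Y] [DecidableEq Y]
  [Fintype σ] [DecidableEq σ] {B C : Type} [Ring B] [CommRing C] (u : Gp m →* B)

lemma H2_map_single {n : Type} [DecidableEq n] (π : B →+* C) (a b : n) (x : B) :
    ((1 + Matrix.single a b x : Matrix n n B).map π) = 1 + Matrix.single a b (π x) := by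
  ext1 k l
  rw [Matrix.map_apply, Matrix.add_apply, Matrix.add_apply, map_add]
  congr 1
  · by_cases h : k = l
    · rw [h, Matrix.one_apply_eq, Matrix.one_apply_eq, map_one]
    · rw [Matrix.one_apply_ne h, Matrix.one_apply_ne h, map_zero]
  · by_cases h : a = k ∧ b = l
    · obtain ⟨rfl, rfl⟩ := h
      rw [Matrix.single_apply_same, Matrix.single_apply_same]
    · rw [Matrix.single_apply_of_ne _ _ _ _ _ h, Matrix.single_apply_of_ne _ _ _ _ _ h, map_zero]

/-- elementary matrices have determinant one over commutative rings (`N_i (a_i - 1) = 0`) -/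
theorem det_EE (π : B →+* C) {e : (Matrix (Nx m Y σ) (Nx m Y σ) B)ˣ} (he : e ∈ EE u Y σ) :
    (e.1.map π).det = 1 := by
  set F : (Matrix (Nx m Y σ) (Nx m Y σ) B)ˣ →* Cˣ :=
    Units.map ((Matrix.detMonoidHom (n := Nx m Y σ) (R := C)).comp
      (RingHom.mapMatrix (m := Nx m Y σ) π).toMonoidHom) with hF
  have hFv : ∀ M, (F M).1 = (M.1.map π).det := fun M => rfl
  have hle : EE u Y σ ≤ F.ker := by
    refine (Subgroup.closure_le _).2 ?_
    intro M hM
    have hM' : IsEl u M := hM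
    rw [SetLike.mem_coe, MonoidHom.mem_ker]
    refine Units.ext ?_
    rw [hFv, Units.val_one]
    cases hM' with
    | off a b x hab hx hM =>
      rw [hM, H2_map_single]
      exact Matrix.det_transvection_of_ne a b hab _
    | diag i x hM =>
      rw [hM, H2_map_single]
      have h0 : π (NB u i * x * (u (gen m i.1) - 1)) = 0 := by
        rw [map_mul, map_mul, mul_comm (π (NB u i)) (π x), mul_assoc, ← map_mul π (NB u i),
          E1_NB_mul_sub, map_zero, mul_zero]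
      rw [h0, Matrix.single_zero, add_zero, Matrix.det_one]
  have h1 := hle he
  rw [MonoidHom.mem_ker] at h1
  rw [← hFv, h1, Units.val_one]

end gen

section int

variable {J : Type} {m : J → ℕ} {p : ℕ} [Fact p.Prime] {H : Type} [CommGroup H] [Finite H]

lemma H2_mem {H : Type} [CommGroup H] (a : MonoidAlgebra ℚ_[p] H) : (∀ h, ‖a.coeff h‖ ≤ 1) ↔
    ∃ x : MonoidAlgebra ℤ_[p] H, MonoidAlgebra.mapRingHom H PadicInt.Coe.ringHom x = a := by
  constructor
  · intro h
    have hex : ∀ z : ℚ_[p], ∃ w : ℤ_[p], (‖z‖ ≤ 1 → (w : ℚ_[p]) = z) ∧ (z = 0 → w = 0) := by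
      intro z
      by_cases hz : ‖z‖ ≤ 1
      · refine ⟨⟨z, hz⟩, fun _ => rfl, fun h0 => ?_⟩
        subst h0
        rfl
      · refine ⟨0, fun h1 => absurd h1 hz, fun _ => rfl⟩
    choose f hf1 hf2 using hex
    refine ⟨MonoidAlgebra.ofCoeff (a.coeff.mapRange f (hf2 0 rfl)), ?_⟩
    ext g
    rw [MonoidAlgebra.coeff_mapRingHom]
    simp only [Finsupp.mapRange_apply]
    exact hf1 _ (h g)
  · rintro ⟨x, rfl⟩ h
    rw [MonoidAlgebra.coeff_mapRingHom]
    exact (x.coeff h).2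

/-- the integral elements of `ℚ_p[H]` -/
def IH (p : ℕ) [Fact p.Prime] (H : Type) [CommGroup H] : Subring (MonoidAlgebra ℚ_[p] H) where
  carrier := {a | ∀ h, ‖a.coeff h‖ ≤ 1}
  mul_mem' := by
    rintro a b ha hb
    obtain ⟨x, rfl⟩ := (H2_mem a).1 ha
    obtain ⟨y, rfl⟩ := (H2_mem b).1 hb
    rw [← map_mul]
    exact (H2_mem _).2 ⟨_, rfl⟩
  one_mem' := (H2_mem _).2 ⟨1, map_one _⟩
  add_mem' := by
    rintro a b ha hb
    obtain ⟨x, rfl⟩ := (H2_mem a).1 ha
    obtain ⟨y, rfl⟩ := (H2_mem b).1 hb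
    rw [← map_add]
    exact (H2_mem _).2 ⟨_, rfl⟩
  zero_mem' := (H2_mem _).2 ⟨0, map_zero _⟩
  neg_mem' := by
    rintro a ha
    obtain ⟨x, rfl⟩ := (H2_mem a).1 ha
    rw [← map_neg]
    exact (H2_mem _).2 ⟨_, rfl⟩

lemma H2_det_mem {R n : Type} [CommRing R] [Fintype n] [DecidableEq n] (S : Subring R)
    (A : Matrix n n R) (hA : ∀ i j, A i j ∈ S) : A.det ∈ S := by
  have h : A = S.subtype.mapMatrix (Matrix.of fun i j => (⟨A i j, hA i j⟩ : S)) := by
    ext1 i j
    rfl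
  rw [h, ← RingHom.map_det]
  exact Subtype.property _

/-- the determinant of an integral matrix with integral inverse is a unit of `ℤ_p[H]` -/
theorem det_IntU (𝔓 : PGR p (Gp m)) {n : Type} [Fintype n] [DecidableEq n] {M : (Matrix n n 𝔓.B)ˣ}
    (hM : IntU 𝔓 M) (φ : Gp m →* H) :
    (M.1.map (𝔓.pr φ)).det ∈ IH p H ∧ (M⁻¹.1.map (𝔓.pr φ)).det ∈ IH p H ∧
      (M.1.map (𝔓.pr φ)).det * (M⁻¹.1.map (𝔓.pr φ)).det = 1 := by
  refine ⟨H2_det_mem _ _ fun i j => 𝔓.pr_le φ _ 1 (hM.1 i j),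
    H2_det_mem _ _ fun i j => 𝔓.pr_le φ _ 1 (hM.2 i j), ?_⟩
  rw [← Matrix.det_mul, ← Matrix.map_mul, Units.mul_inv, Matrix.map_one _ (map_zero _) (map_one _),
    Matrix.det_one]

end int

end FP
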