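import Pool.Agent.Lib.MP_2d4659_gt.FP.E5
import Pool.Agent.Lib.MP_2d4659_gt.FP.H2

/-!
# The diagonal part is trivial if the determinants are units

`D ∈ DD` with entries `d_i`, `1`, `s_c`.  The image of `D` under `pr (rt (some i))` has determinant
`pr (d_i) s`, `s = ∏ s_c` (`pr d_l` is the augmentation of `d_l` for `l ≠ i`, and it is one because
`N_l d_l = N_l`). The trivial homomorphism shows that `s` is a unit of `ℤ_p`, and `pr (rt (some i))` is injective on
elements supported in the factor `i` and preserves the coefficients, so `d_i` and its inverse are integral.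
If `σ` is not empty let `c₀ ∈ σ`; `diag(s_c)` is `diag(s at c₀)` times a product of matrices
`diag(a at c, a⁻¹ at c₀)`, which are products of elementary matrices
(`[[a,0],[0,a⁻¹]] = E₁₂(a) E₂₁(-a⁻¹) E₁₂(a) E₁₂(-1) E₂₁(1) E₁₂(-1)`).
-/

set_option autoImplicit false

namespace FP

variable {J : Type} [DecidableEq J] [Fintype J] {m : J → ℕ} {Y σ : Type} [Fintype Y] [DecidableEq Y]
  [Fintype σ] [DecidableEq σ] {p : ℕ} [Fact p.Prime] (𝔓 : PGR p (Gp m))

/-- `diag(a at c, a⁻¹ at c₀)` is in `EE` -/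
theorem slot_pair {c c₀ : σ} (h : c ≠ c₀) {a a' : 𝔓.B} (h1 : a * a' = 1) (h2 : a' * a = 1) :
    ∃ M ∈ EE 𝔓.u Y σ, M.1 = Matrix.diagonal (Function.update (Function.update
      (fun _ => 1) (Sum.inr c : Nx m Y σ) a) (Sum.inr c₀) a') := by
  obtain ⟨i, hi⟩ : ∃ i : Nx m Y σ, i = Sum.inr c := ⟨_, rfl⟩
  obtain ⟨j, hj⟩ : ∃ j : Nx m Y σ, j = Sum.inr c₀ := ⟨_, rfl⟩
  have hij : i ≠ j := by
    rw [hi, hj]
    exact fun h' => h (Sum.inr.inj h')
  have hE1 : ∀ y, E5_T i j hij y ∈ EE 𝔓.u Y σ := by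
    intro y
    refine Subgroup.subset_closure (IsEl.off i j y hij ?_ rfl)
    rw [hj]
    trivial
  have hE2 : ∀ y, E5_T j i hij.symm y ∈ EE 𝔓.u Y σ := by
    intro y
    refine Subgroup.subset_closure (IsEl.off j i y hij.symm ?_ rfl)
    rw [hi]
    trivial
  refine ⟨E5_T i j hij a * E5_T j i hij.symm (-a') * E5_T i j hij a *
    (E5_T i j hij (-1) * E5_T j i hij.symm 1 * E5_T i j hij (-1)),
    mul_mem (mul_mem (mul_mem (hE1 _) (hE2 _)) (hE1 _))
      (mul_mem (mul_mem (hE1 _) (hE2 _)) (hE1 _)), ?_⟩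
  rw [Units.val_mul, Units.val_mul, Units.val_mul, Units.val_mul, Units.val_mul, E5_T_val, E5_T_val,
    E5_T_val, E5_T_val,
    E5_WW i j hij a a' 1 h1 h2 (one_mul _) (mul_one _) (mul_one _) (mul_one _)]
  rw [← hi, ← hj]
  ext k l
  rw [Matrix.add_apply, Matrix.add_apply, Matrix.sub_apply, Matrix.sub_apply]
  rcases eq_or_ne k l with h | h
  · subst h
    rw [Matrix.one_apply_eq, Matrix.diagonal_apply_eq]
    rcases eq_or_ne k j with h3 | h3
    · subst h3
      rw [Function.update_self, Matrix.single_apply_same, Matrix.single_apply_same,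
        Matrix.single_apply_of_ne _ _ _ _ _ (fun h => hij h.1),
        Matrix.single_apply_of_ne _ _ _ _ _ (fun h => hij h.1)]
      abel
    · rw [Function.update_of_ne h3]
      rcases eq_or_ne k i with h4 | h4
      · subst h4
        rw [Function.update_self, Matrix.single_apply_same, Matrix.single_apply_same,
          Matrix.single_apply_of_ne _ _ _ _ _ (fun h => h3 h.1.symm),
          Matrix.single_apply_of_ne _ _ _ _ _ (fun h => h3 h.1.symm)]
        abel
      · rw [Function.update_of_ne h4, Matrix.single_apply_of_ne _ _ _ _ _ (fun h => h3 h.1.symm),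
          Matrix.single_apply_of_ne _ _ _ _ _ (fun h => h3 h.1.symm),
          Matrix.single_apply_of_ne _ _ _ _ _ (fun h => h4 h.1.symm),
          Matrix.single_apply_of_ne _ _ _ _ _ (fun h => h4 h.1.symm)]
        abel
  · rw [Matrix.one_apply_ne h, Matrix.diagonal_apply_ne _ h,
      Matrix.single_apply_of_ne _ _ _ _ _ (fun h' => h (h'.1.symm.trans h'.2)),
      Matrix.single_apply_of_ne _ _ _ _ _ (fun h' => h (h'.1.symm.trans h'.2)),
      Matrix.single_apply_of_ne _ _ _ _ _ (fun h' => h (h'.1.symm.trans h'.2)),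
      Matrix.single_apply_of_ne _ _ _ _ _ (fun h' => h (h'.1.symm.trans h'.2))]
    abel

lemma H2b_pr_sc (t : Option (FJ m)) (a : ℚ_[p]) :
    𝔓.pr (rt t) (𝔓.sc a) = MonoidAlgebra.single 1 a := by
  rw [PGR.D1_sc_eq, 𝔓.pr_emb, MonoidAlgebra.mapDomainRingHom_apply, MonoidAlgebra.mapDomain_single,
    map_one]

lemma H2b_gen_pow (i : FJ m) (c : ℕ) : rt (some i) (gen m i.1 ^ c) =
    Multiplicative.ofAdd (c : ZMod (m i.1)) := by
  induction c with
  | zero =>
    rw [pow_zero, map_one, Nat.cast_zero]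
    rfl
  | succ c ih =>
    rw [pow_succ, map_mul, ih, rt_self, Nat.cast_succ]
    rfl

/-- elements of the factor `i` fixing the norm element have augmentation one, so homomorphisms trivial on
the factor send them to `1` -/
lemma H2b_triv (t : Option (FJ m)) (i : FJ m) (ht : ∀ i', t = some i' → i'.1 ≠ i.1) {x : 𝔓.B}
    (hx : 𝔓.SuppIn (HS m (some i.1)) x) (hN : NB 𝔓.u i * x = NB 𝔓.u i) :
    𝔓.pr (rt t) x = 1 := by
  classical
  have hfin : Finite (HT m (some i.1)) := HT_finite _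
  have hf : (HT m (some i.1) : Set (Gp m)).Finite := hfin
  have hs : ∀ g, g ∈ hf.toFinset ↔ g ∈ HT m (some i.1) := fun g => by
    rw [Set.Finite.mem_toFinset]; rfl
  have h1 : NB 𝔓.u i * x = 𝔓.sc (∑ h ∈ hf.toFinset, 𝔓.cf h x) * NB 𝔓.u i := by
    conv_lhs => rw [E1_expand 𝔓 hx hf.toFinset hs]
    rw [Finset.mul_sum, map_sum, Finset.sum_mul]
    refine Finset.sum_congr rfl fun h hh => ?_
    rw [← mul_assoc, ← 𝔓.sc_comm, mul_assoc, NB_mul_mem 𝔓.u i ((hs h).1 hh)]
  have h2 : ∑ h ∈ hf.toFinset, 𝔓.cf h x = 1 := by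
    have h3 := E1_cf_sc_mul_NB_one 𝔓 i (∑ h ∈ hf.toFinset, 𝔓.cf h x)
    rw [← h1, hN] at h3
    have h4 := E1_cf_sc_mul_NB_one 𝔓 i 1
    rw [map_one, one_mul] at h4
    rw [← h3, h4]
  have h5 : 𝔓.pr (rt t) x = ∑ h ∈ hf.toFinset, 𝔓.pr (rt t) (𝔓.sc (𝔓.cf h x)) := by
    conv_lhs => rw [E1_expand 𝔓 hx hf.toFinset hs]
    rw [map_sum]
    refine Finset.sum_congr rfl fun h hh => ?_
    obtain ⟨c, -, hc⟩ := (mem_HT_some i.2 h).1 ((hs h).1 hh)
    have h6 : rt t h = 1 := by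
      rw [hc, map_pow, rt_ne t i.1 ht, one_pow]
    rw [map_mul, pr_u, h6, map_one, mul_one]
  rw [h5, ← map_sum, ← map_sum, h2, map_one, map_one]

/-- the coefficients of elements of the factor `i` are preserved -/
lemma H2b_cf (i : FJ m) {x : 𝔓.B} (hx : 𝔓.SuppIn (HS m (some i.1)) x) {g : Gp m}
    (hg : g ∈ HT m (some i.1)) : (𝔓.pr (rt (some i)) x).coeff (rt (some i) g) = 𝔓.cf g x := by
  classical
  have hfin : Finite (HT m (some i.1)) := HT_finite _
  have hf : (HT m (some i.1) : Set (Gp m)).Finite := hfin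
  have hs : ∀ g, g ∈ hf.toFinset ↔ g ∈ HT m (some i.1) := fun g => by
    rw [Set.Finite.mem_toFinset]; rfl
  have h5 : 𝔓.pr (rt (some i)) x =
      ∑ h ∈ hf.toFinset, MonoidAlgebra.single (rt (some i) h) (𝔓.cf h x) := by
    conv_lhs => rw [E1_expand 𝔓 hx hf.toFinset hs]
    rw [map_sum]
    refine Finset.sum_congr rfl fun h hh => ?_
    rw [map_mul, pr_u, H2b_pr_sc, MonoidAlgebra.of_apply, MonoidAlgebra.single_mul_single, one_mul,
      mul_one]
  have h6 : (𝔓.pr (rt (some i)) x).coeff (rt (some i) g) =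
      ∑ h ∈ hf.toFinset, (MonoidAlgebra.single (rt (some i) h) (𝔓.cf h x)).coeff
        (rt (some i) g) := by
    rw [h5]
    exact map_sum ((Finsupp.applyAddHom (rt (some i) g)).comp
      (MonoidAlgebra.coeffAddEquiv (R := ℚ_[p]) (M := Cy m (some i))).toAddMonoidHom) _ _
  rw [h6, Finset.sum_eq_single g]
  · rw [MonoidAlgebra.coeff_single, Finsupp.single_eq_same]
  · intro h hh hne
    rw [MonoidAlgebra.coeff_single, Finsupp.single_apply, if_neg]
    intro he
    obtain ⟨c, hc, rfl⟩ := (mem_HT_some i.2 h).1 ((hs h).1 hh)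
    obtain ⟨c', hc', rfl⟩ := (mem_HT_some i.2 g).1 hg
    rw [H2b_gen_pow, H2b_gen_pow] at he
    have h2 : (c : ZMod (m i.1)) = (c' : ZMod (m i.1)) := Multiplicative.ofAdd.injective he
    rw [ZMod.natCast_eq_natCast_iff] at h2
    exact hne (by rw [Nat.ModEq.eq_of_lt_of_lt h2 hc hc'])
  · intro hn
    exact absurd ((hs g).2 hg) hn

/-- the determinants of diagonal matrices -/
lemma H2b_det (Dv : Nx m Y σ → 𝔓.B)
    (h3 : ∀ i : FJ m, 𝔓.SuppIn (HS m (some i.1)) (Dv (Sum.inl (Sum.inl i))) ∧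
      NB 𝔓.u i * Dv (Sum.inl (Sum.inl i)) = NB 𝔓.u i)
    (h4 : ∀ y : Y, Dv (Sum.inl (Sum.inr y)) = 1) (a : σ → ℚ_[p])
    (h5 : ∀ c : σ, Dv (Sum.inr c) = 𝔓.sc (a c)) :
    ((Matrix.diagonal Dv).map (𝔓.pr (rt (none : Option (FJ m))))).det =
        MonoidAlgebra.single 1 (∏ c, a c) ∧
    ∀ i : FJ m, ((Matrix.diagonal Dv).map (𝔓.pr (rt (some i)))).det =
      𝔓.pr (rt (some i)) (Dv (Sum.inl (Sum.inl i))) * MonoidAlgebra.single 1 (∏ c, a c) := by
  have h6 : ∀ t : Option (FJ m), ((Matrix.diagonal Dv).map (𝔓.pr (rt t))).det =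
      (∏ i : FJ m, 𝔓.pr (rt t) (Dv (Sum.inl (Sum.inl i)))) *
        MonoidAlgebra.single 1 (∏ c, a c) := by
    intro t
    rw [Matrix.diagonal_map (map_zero _), Matrix.det_diagonal, Fintype.prod_sum_type,
      Fintype.prod_sum_type]
    have e1 : ∏ y : Y, 𝔓.pr (rt t) (Dv (Sum.inl (Sum.inr y))) = 1 :=
      Finset.prod_eq_one fun y _ => by rw [h4, map_one]
    have e2 : ∏ c : σ, 𝔓.pr (rt t) (Dv (Sum.inr c)) = MonoidAlgebra.single 1 (∏ c, a c) := by
      have e3 := map_prod (MonoidAlgebra.singleOneRingHom (R := ℚ_[p]) (M := Cy m t)) a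
        Finset.univ
      refine Eq.trans ?_ e3.symm
      refine Finset.prod_congr rfl fun c _ => ?_
      rw [h5, H2b_pr_sc]
      rfl
    rw [e1, e2, mul_one]
  refine ⟨?_, fun i => ?_⟩
  · rw [h6, Finset.prod_eq_one, one_mul]
    intro i _
    exact H2b_triv 𝔓 none i (fun _ h => by cases h) (h3 i).1 (h3 i).2
  · rw [h6, Finset.prod_eq_single i]
    · intro l _ hl
      refine H2b_triv 𝔓 (some i) l (fun i' h => ?_) (h3 l).1 (h3 l).2
      rw [← Option.some.inj h]
      exact fun h' => hl (Subtype.ext h'.symm)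
    · intro h
      exact absurd (Finset.mem_univ _) h

/-- the products of slot pairs -/
lemma H2b_slots (a : σ → ℚ_[p]) (ha : ∀ c, a c ≠ 0) (c₀ : σ) (T : Finset σ) (hT : c₀ ∉ T) :
    ∃ e ∈ EE 𝔓.u Y σ, e.1 = Matrix.diagonal (Sum.elim (fun _ => 1)
      (fun c => 𝔓.sc (if c ∈ T then a c else if c = c₀ then (∏ x ∈ T, a x)⁻¹ else 1)) :
        Nx m Y σ → 𝔓.B) := by
  induction T using Finset.induction_on with
  | empty =>
    refine ⟨1, one_mem _, ?_⟩
    rw [Units.val_one, ← Matrix.diagonal_one]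
    congr 1
    funext b
    rcases b with b | c
    · rfl
    · simp
  | insert c T hc ih =>
    have hT' : c₀ ∉ T := fun h => hT (Finset.mem_insert_of_mem h)
    have hcc : c ≠ c₀ := fun h => hT (h ▸ Finset.mem_insert_self _ _)
    obtain ⟨e, he, he'⟩ := ih hT'
    obtain ⟨M, hM, hM'⟩ := slot_pair (Y := Y) 𝔓 hcc (a := 𝔓.sc (a c)) (a' := 𝔓.sc (a c)⁻¹)
      (by rw [E2_sc_mul, mul_inv_cancel₀ (ha c), map_one])
      (by rw [E2_sc_mul, inv_mul_cancel₀ (ha c), map_one])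
    refine ⟨e * M, mul_mem he hM, ?_⟩
    rw [Units.val_mul, he', hM', Matrix.diagonal_mul_diagonal]
    congr 1
    funext b
    rcases b with b | x
    · rw [Function.update_of_ne (by simp), Function.update_of_ne (by simp)]
      exact one_mul _
    · rw [Sum.elim_inr, Sum.elim_inr]
      rcases eq_or_ne x c₀ with hx | hx
      · subst hx
        rw [Function.update_self, E2_sc_mul, if_neg hT', if_pos rfl, if_neg hT, if_pos rfl,
          Finset.prod_insert hc, mul_inv, mul_comm]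
      · rw [Function.update_of_ne (fun h => hx (Sum.inr.inj h))]
        rcases eq_or_ne x c with hxc | hxc
        · subst hxc
          rw [Function.update_self, E2_sc_mul, if_neg hc, if_neg hx, one_mul,
            if_pos (Finset.mem_insert_self _ _)]
        · rw [Function.update_of_ne (fun h => hxc (Sum.inr.inj h)), mul_one, if_neg hx, if_neg hx]
          by_cases hxT : x ∈ T
          · rw [if_pos hxT, if_pos (Finset.mem_insert_of_mem hxT)]
          · rw [if_neg hxT, if_neg]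
            intro h
            rcases Finset.mem_insert.1 h with h | h
            · exact hxc h
            · exact hxT h

theorem DD_split {D : (Matrix (Nx m Y σ) (Nx m Y σ) 𝔓.B)ˣ} (hD : D ∈ DD 𝔓 Y σ)
    (h : ∀ t : Option (FJ m), (D.1.map (𝔓.pr (rt t))).det ∈ IH p (Cy m t) ∧
      (D⁻¹.1.map (𝔓.pr (rt t))).det ∈ IH p (Cy m t)) :
    ∃ u e : (Matrix (Nx m Y σ) (Nx m Y σ) 𝔓.B)ˣ, u ∈ SS 𝔓.u Y σ ∧ IntU 𝔓 u ∧ e ∈ EE 𝔓.u Y σ ∧
      D = u * e := by
  classical
  have hD1 := (mem_DD_iff 𝔓 D).1 hD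
  have hD2 := E2_IsD_inv 𝔓 hD1
  obtain ⟨Dv, Dv', h1, h2, h3, h4, h5⟩ := hD1
  obtain ⟨Ev, Ev', k1, k2, k3, k4, k5⟩ := hD2
  have hE : Ev = Dv' := Matrix.diagonal_injective (by rw [← k1, h2])
  subst hE
  choose a ha using h5
  choose a' ha' using k5
  have hinv : ∀ b, Dv b * Ev b = 1 := by
    intro b
    have h6 : D.1 * D⁻¹.1 = 1 := D.mul_inv
    rw [h1, h2, Matrix.diagonal_mul_diagonal] at h6
    have h7 := congrFun (congrFun h6 b) b
    rwa [Matrix.diagonal_apply_eq, Matrix.one_apply_eq] at h7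
  have haa : ∀ c, a c * a' c = 1 := by
    intro c
    have h6 := hinv (Sum.inr c)
    rw [ha, ha', E2_sc_mul] at h6
    have h7 : 𝔓.cf 1 (𝔓.sc (a c * a' c)) = 𝔓.cf 1 (1 : 𝔓.B) := by rw [h6]
    rw [← map_one 𝔓.sc] at h7
    have h8 : ∀ x : ℚ_[p], 𝔓.cf 1 (𝔓.sc x) = x := by
      intro x
      rw [PGR.D1_sc_eq, 𝔓.cf_emb, MonoidAlgebra.coeff_single, Finsupp.single_eq_same]
    rwa [h8, h8] at h7
  have ha0 : ∀ c, a c ≠ 0 := fun c h0 => by
    have := haa c
    rw [h0, zero_mul] at this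
    exact zero_ne_one this
  have hdet := H2b_det 𝔓 Dv (fun i => ⟨(h3 i).1, (h3 i).2.2⟩) h4 a ha
  have hdet' := H2b_det 𝔓 Ev (fun i => ⟨(k3 i).1, (k3 i).2.2⟩) k4 a' ha'
  rw [← h1] at hdet
  rw [← h2] at hdet'
  -- the product of the scalars is a unit
  have hs1 : ‖∏ c, a c‖ ≤ 1 := by
    have h6 := (h none).1
    rw [hdet.1] at h6
    have h7 := h6 1
    rwa [MonoidAlgebra.coeff_single, Finsupp.single_eq_same] at h7
  have hs2 : ‖∏ c, a' c‖ ≤ 1 := by
    have h6 := (h none).2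
    rw [hdet'.1] at h6
    have h7 := h6 1
    rwa [MonoidAlgebra.coeff_single, Finsupp.single_eq_same] at h7
  have hss : ‖∏ c, a c‖ * ‖∏ c, a' c‖ = 1 := by
    rw [← norm_mul, ← Finset.prod_mul_distrib, Finset.prod_eq_one fun c _ => haa c, norm_one]
  have hs3 : ‖∏ c, a c‖ = 1 := by
    refine le_antisymm hs1 ?_
    rw [← hss]
    exact mul_le_of_le_one_right (norm_nonneg _) hs2
  have hs4 : ‖∏ c, a' c‖ = 1 := by
    rw [hs3, one_mul] at hss
    exact hss
  -- the entries at the factors are integral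
  have hint : ∀ (x : 𝔓.B) (s : ℚ_[p]) (i : FJ m), ‖s‖ = 1 → 𝔓.SuppIn (HS m (some i.1)) x →
      𝔓.pr (rt (some i)) x * MonoidAlgebra.single 1 s ∈ IH p (Cy m (some i)) → 𝔓.In x := by
    intro x s i hs hx hm g
    by_cases hg : g ∈ HT m (some i.1)
    · have h6 := hm (rt (some i) g)
      rw [MonoidAlgebra.coeff_mul_single_one, H2b_cf 𝔓 i hx hg, norm_mul, hs, mul_one] at h6
      exact h6
    · rw [hx g hg, norm_zero]
      exact zero_le_one
  have hI1 : ∀ i : FJ m, 𝔓.In (Dv (Sum.inl (Sum.inl i))) := by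
    intro i
    have h6 := (h (some i)).1
    rw [hdet.2 i] at h6
    exact hint _ _ i hs3 (h3 i).1 h6
  have hI2 : ∀ i : FJ m, 𝔓.In (Ev (Sum.inl (Sum.inl i))) := by
    intro i
    have h6 := (h (some i)).2
    rw [hdet'.2 i] at h6
    exact hint _ _ i hs4 (k3 i).1 h6
  have hone : 𝔓.In (1 : 𝔓.B) := 𝔓.D2_In_one
  have hzero : 𝔓.In (0 : 𝔓.B) := fun g => by rw [map_zero, norm_zero]; exact zero_le_one
  have hdiag : ∀ (M : Matrix (Nx m Y σ) (Nx m Y σ) 𝔓.B) (E : Nx m Y σ → 𝔓.B),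
      M = Matrix.diagonal E → (∀ b, 𝔓.In (E b)) → ∀ i j, 𝔓.In (M i j) := by
    rintro M E rfl hE i j
    rcases eq_or_ne i j with hij | hij
    · rw [hij, Matrix.diagonal_apply_eq]
      exact hE j
    · rw [Matrix.diagonal_apply_ne _ hij]
      exact hzero
  rcases isEmpty_or_nonempty σ with hσ | ⟨⟨c₀⟩⟩
  · refine ⟨D, 1, DD_le_SS 𝔓 hD, ⟨hdiag _ _ h1 ?_, hdiag _ _ h2 ?_⟩, one_mem _, (mul_one _).symm⟩
    · rintro ((i | y) | c)
      · exact hI1 i
      · rw [h4]; exact hone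
      · exact hσ.elim c
    · rintro ((i | y) | c)
      · exact hI2 i
      · rw [k4]; exact hone
      · exact hσ.elim c
  · obtain ⟨e, he, he'⟩ := H2b_slots (Y := Y) 𝔓 a ha0 c₀ (Finset.univ.erase c₀)
      (Finset.notMem_erase _ _)
    obtain ⟨E', e1, e2, e3⟩ := E2_diag_inv e _ he'
    have hE1 : ∀ b, E' (Sum.inl b) = 1 := by
      intro b
      have h6 := e2 (Sum.inl b)
      rwa [Sum.elim_inl, one_mul] at h6
    have hprod : (∏ x ∈ Finset.univ.erase c₀, a x) * a c₀ = ∏ x, a x :=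
      Finset.prod_erase_mul _ _ (Finset.mem_univ _)
    have hP0 : (∏ x ∈ Finset.univ.erase c₀, a x) ≠ 0 := Finset.prod_ne_zero_iff.2 fun c _ => ha0 c
    set f : σ → ℚ_[p] := fun c => if c ∈ Finset.univ.erase c₀ then a c else
      if c = c₀ then (∏ x ∈ Finset.univ.erase c₀, a x)⁻¹ else 1 with hf
    have hf0 : ∀ c, f c ≠ 0 := by
      intro c
      rw [hf]
      dsimp only
      split_ifs
      · exact ha0 c
      · exact inv_ne_zero hP0
      · exact one_ne_zero
    have hfa : ∀ c, ‖a c * (f c)⁻¹‖ = 1 := by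
      intro c
      rw [hf]
      dsimp only
      rcases eq_or_ne c c₀ with hc | hc
      · subst hc
        rw [if_neg (Finset.notMem_erase _ _), if_pos rfl, inv_inv, mul_comm, hprod, hs3]
      · rw [if_pos (Finset.mem_erase.2 ⟨hc, Finset.mem_univ _⟩), mul_inv_cancel₀ (ha0 c), norm_one]
    have hE2 : ∀ c, E' (Sum.inr c) = 𝔓.sc (f c)⁻¹ := by
      intro c
      have h6 := e2 (Sum.inr c)
      rw [Sum.elim_inr] at h6
      calc E' (Sum.inr c) = 𝔓.sc (f c)⁻¹ * (𝔓.sc (f c) * E' (Sum.inr c)) := by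
            rw [← mul_assoc, E2_sc_mul, inv_mul_cancel₀ (hf0 c), map_one, one_mul]
        _ = 𝔓.sc (f c)⁻¹ := by rw [h6, mul_one]
    refine ⟨D * e⁻¹, e, mul_mem (DD_le_SS 𝔓 hD) (inv_mem (EE_le_SS 𝔓.u he)), ⟨?_, ?_⟩, he, by group⟩
    · refine hdiag _ (fun b => Dv b * E' b) ?_ ?_
      · rw [Units.val_mul, h1, e1, Matrix.diagonal_mul_diagonal]
      · rintro ((i | y) | c)
        · change 𝔓.In (Dv _ * E' _)
          rw [hE1, mul_one]; exact hI1 i
        · change 𝔓.In (Dv _ * E' _)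
          rw [hE1, mul_one, h4]; exact hone
        · change 𝔓.In (Dv _ * E' _)
          rw [hE2, ha, E2_sc_mul]
          exact 𝔓.In_sc (hfa c).le
    · refine hdiag _ (fun b => (Sum.elim (fun _ => 1) (fun c => 𝔓.sc (f c)) : Nx m Y σ → 𝔓.B) b *
        Ev b) ?_ ?_
      · rw [mul_inv_rev, inv_inv, Units.val_mul, h2, he', Matrix.diagonal_mul_diagonal]
      · rintro ((i | y) | c)
        · rw [Sum.elim_inl, one_mul]; exact hI2 i
        · rw [Sum.elim_inl, one_mul, k4]; exact hone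
        · rw [Sum.elim_inr, ha', E2_sc_mul]
          refine 𝔓.In_sc ?_
          have h6 : f c * a' c = (a c * (f c)⁻¹)⁻¹ := by
            rw [mul_inv, inv_inv, inv_eq_of_mul_eq_one_right (haa c), mul_comm]
          rw [h6, norm_inv, hfa, inv_one]

end FP
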