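import Pool.Agent.Lib.MP_2d4659_gt.FP.H0

/-!
# No free slot: the augmentation of the determinant

The images of `Φ` and `Ψ` under the augmentation `ℤ[G] → ℤ` are square matrices with the same row space
over `ℤ`, and `det Ψ = ∏ m_i ≠ 0`; so `det Φ = ± det Ψ`, and `det Φ = det g * det Ψ` over `ℚ`.
-/

set_option autoImplicit false

namespace FP

variable {J : Type} [DecidableEq J] [Fintype J] {m : J → ℕ} {Y σ : Type} [Fintype Y] [DecidableEq Y]
  [Fintype σ] [DecidableEq σ]

/-- the augmentation over `ℤ` -/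
noncomputable def H3a_eZ (m : J → ℕ) : MonoidAlgebra ℤ (Gp m) →+* ℤ :=
  (MonoidAlgebra.lift ℤ ℤ (Gp m) 1).toRingHom

lemma H3a_eZ_u (g : Gp m) : H3a_eZ m (uk ℤ m g) = 1 := by
  change MonoidAlgebra.lift ℤ ℤ (Gp m) 1 (MonoidAlgebra.of ℤ (Gp m) g) = 1
  rw [MonoidAlgebra.lift_of]
  rfl

instance H3a_sub (m : J → ℕ) : Subsingleton (Cy m none) :=
  inferInstanceAs (Subsingleton (Multiplicative (ZMod 1)))

/-- the identification of the group ring of the trivial group with `ℚ` -/
noncomputable def H3a_e (m : J → ℕ) : MonoidAlgebra ℚ (Cy m none) ≃+* ℚ :=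
  MonoidAlgebra.uniqueRingEquiv (Cy m none)

lemma H3a_e_single (g : Cy m none) (a : ℚ) :
    H3a_e m (MonoidAlgebra.single g a) = a := by
  have h : MonoidAlgebra.single g a = (MonoidAlgebra.uniqueRingEquiv (Cy m none)).symm a := by
    rw [MonoidAlgebra.uniqueRingEquiv_symm_apply, Subsingleton.elim g 1]
  rw [h]
  exact RingEquiv.apply_symm_apply _ _

/-- the augmentation over `ℚ` -/
noncomputable def H3a_eQ (m : J → ℕ) : MonoidAlgebra ℚ (Gp m) →+* ℚ :=
  (H3a_e m).toRingHom.comp (MonoidAlgebra.mapDomainRingHom ℚ (rt (m := m) none))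

lemma H3a_eQ_single (g : Gp m) (a : ℚ) : H3a_eQ m (MonoidAlgebra.single g a) = a := by
  change H3a_e m (MonoidAlgebra.mapDomainRingHom ℚ (rt (m := m) none) (MonoidAlgebra.single g a)) = a
  have h : MonoidAlgebra.mapDomainRingHom ℚ (rt (m := m) none) (MonoidAlgebra.single g a) =
      MonoidAlgebra.single (rt (m := m) none g) a := by
    simp
  rw [h, H3a_e_single]

lemma H3a_compat (x : MonoidAlgebra ℤ (Gp m)) : H3a_eQ m (zq m x) = (H3a_eZ m x : ℚ) := by
  have h : (H3a_eQ m).comp (zq m) = (Int.castRingHom ℚ).comp (H3a_eZ m) := by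
    refine MonoidAlgebra.ringHom_ext' ?_ ?_
    · exact Subsingleton.elim _ _
    · refine MonoidHom.ext fun g => ?_
      change H3a_eQ m (zq m (uk ℤ m g)) = ((H3a_eZ m (uk ℤ m g) : ℤ) : ℚ)
      rw [zq_u, H3a_eZ_u, Int.cast_one]
      exact H3a_eQ_single g 1
  exact DFunLike.congr_fun h x

/-- the image of `Ψ` without free slots is a diagonal matrix -/
lemma H3a_psi [IsEmpty σ] {B : Type} [Ring B] (u : Gp m →* B) :
    (psi u Y σ).submatrix (Equiv.sumEmpty (Co m Y) σ).symm id = Matrix.diagonal (dg u Y) := by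
  ext a c
  rw [Matrix.submatrix_apply, Matrix.diagonal_apply]
  change (if a = c then dg u Y c else 0) = if a = c then dg u Y a else 0
  split_ifs with h
  · rw [h]
  · rfl

lemma H3a_sm {a b c d R R' : Type} (M : Matrix a b R) (f : R → R') (e : c → a) (e' : d → b) :
    (M.map f).submatrix e e' = (M.submatrix e e').map f := rfl

lemma H3a_diag_ne [IsEmpty σ] : (((psi (uk ℤ m) Y σ).map (H3a_eZ m)).submatrix
    (Equiv.sumEmpty (Co m Y) σ).symm id).det ≠ 0 := by
  rw [H3a_sm, H3a_psi, Matrix.diagonal_map (map_zero _), Matrix.det_diagonal]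
  refine Finset.prod_ne_zero_iff.mpr ?_
  rintro (i | y) -
  · change H3a_eZ m (NB (uk ℤ m) i) ≠ 0
    unfold NB
    rw [map_sum]
    simp only [map_pow, H3a_eZ_u, one_pow, Finset.sum_const, Finset.card_range, nsmul_eq_mul,
      mul_one]
    exact_mod_cast i.2
  · change H3a_eZ m 1 ≠ 0
    rw [map_one]
    exact one_ne_zero

/-- no free slot: the augmentation of the determinant is `1` or `-1` -/
theorem norm_aug [IsEmpty σ] (Φ : Matrix (Nx m Y σ) (Co m Y) (MonoidAlgebra ℤ (Gp m)))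
    (hrow : SameRow Φ (psi (uk ℤ m) Y σ))
    (g : (Matrix (Nx m Y σ) (Nx m Y σ) (MonoidAlgebra ℚ (Gp m)))ˣ)
    (hg : Φ.map (zq m) = g.1 * psi (uk ℚ m) Y σ) :
    (g.1.map (MonoidAlgebra.mapDomainRingHom ℚ (rt (m := m) none))).det = 1 ∨
      (g.1.map (MonoidAlgebra.mapDomainRingHom ℚ (rt (m := m) none))).det = -1 := by
  obtain ⟨⟨X, hX⟩, ⟨X', hX'⟩⟩ := hrow
  set e := (Equiv.sumEmpty (Co m Y) σ).symm with he
  set A := (Φ.map (H3a_eZ m)).submatrix e id with hA
  set B := ((psi (uk ℤ m) Y σ).map (H3a_eZ m)).submatrix e id with hB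
  have hB0 : B.det ≠ 0 := H3a_diag_ne
  have h1 : A.det = (X.map (H3a_eZ m)).det * B.det := by
    rw [hA, hX, Matrix.map_mul, hB, ← Matrix.det_submatrix_equiv_self e (X.map (H3a_eZ m)),
      ← Matrix.det_mul, Matrix.submatrix_mul_equiv]
  have h2 : B.det = (X'.map (H3a_eZ m)).det * A.det := by
    rw [hA, hB]
    conv_lhs => rw [hX', Matrix.map_mul]
    rw [← Matrix.det_submatrix_equiv_self e (X'.map (H3a_eZ m)),
      ← Matrix.det_mul, Matrix.submatrix_mul_equiv]
  have h3 : (X'.map (H3a_eZ m)).det * (X.map (H3a_eZ m)).det = 1 := by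
    refine mul_right_cancel₀ hB0 ?_
    rw [mul_assoc, ← h1, ← h2, one_mul]
  have h4 : (X.map (H3a_eZ m)).det = 1 ∨ (X.map (H3a_eZ m)).det = -1 :=
    Int.isUnit_iff.mp (IsUnit.of_mul_eq_one _ (by rw [mul_comm]; exact h3))
  -- over the rationals
  have hBQ : ((psi (uk ℚ m) Y σ).map (H3a_eQ m)).submatrix e id = B.map (Int.castRingHom ℚ) := by
    rw [← psi_map (zq m) (uk ℤ m) (uk ℚ m) zq_u]
    ext a c
    exact H3a_compat _
  have hAQ : ((Φ.map (zq m)).map (H3a_eQ m)).submatrix e id = A.map (Int.castRingHom ℚ) := by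
    ext a c
    exact H3a_compat _
  have h5 : (A.map (Int.castRingHom ℚ)).det = (g.1.map (H3a_eQ m)).det *
      (B.map (Int.castRingHom ℚ)).det := by
    rw [← hAQ, ← hBQ, hg, Matrix.map_mul,
      ← Matrix.det_submatrix_equiv_self e (g.1.map (H3a_eQ m)), ← Matrix.det_mul,
      Matrix.submatrix_mul_equiv]
  have h6 : (A.map (Int.castRingHom ℚ)).det = (A.det : ℚ) :=
    ((Int.castRingHom ℚ).map_det A).symm
  have h7 : (B.map (Int.castRingHom ℚ)).det = (B.det : ℚ) :=
    ((Int.castRingHom ℚ).map_det B).symm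
  have h8 : (g.1.map (H3a_eQ m)).det = ((X.map (H3a_eZ m)).det : ℚ) := by
    rw [h6, h7, h1, Int.cast_mul] at h5
    exact (mul_right_cancel₀ (by exact_mod_cast hB0) h5).symm
  have h9 : H3a_e m (g.1.map (MonoidAlgebra.mapDomainRingHom ℚ (rt (m := m) none))).det =
      ((X.map (H3a_eZ m)).det : ℚ) := by
    rw [← h8]
    have h10 := (H3a_e m).toRingHom.map_det
      (g.1.map (MonoidAlgebra.mapDomainRingHom ℚ (rt (m := m) none)))
    exact h10
  rcases h4 with h4 | h4
  · left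
    apply (H3a_e m).injective
    rw [h9, h4, map_one, Int.cast_one]
  · right
    apply (H3a_e m).injective
    rw [h9, h4, map_neg, map_one, Int.cast_neg, Int.cast_one]

end FP
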