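import Pool.Agent.Lib.MP_2d4659_gt.FP.H0

/-!
# Diagonal matrices in the stabiliser

`D = diag(d_i at i; 1 elsewhere)`, `d_i` the image of `x` under the map induced by the inclusion of the cyclic
group `C_i` in `G` (`a ↦ gen`, `Monoid.CoprodI.of`); `N_i d_i = aug(x) N_i = N_i` and `d_i N_i = N_i`.
-/

set_option autoImplicit false

namespace FP

section H3b

variable {J : Type} [DecidableEq J] {m : J → ℕ}

/-- the inclusion of a finite factor -/
def H3b_io (i : FJ m) : Cy m (some i) →* Gp m :=
  Monoid.CoprodI.of (M := fun j => Multiplicative (ZMod (m j))) (i := i.1)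

omit [DecidableEq J] in
lemma H3b_mem (i : FJ m) (h : Cy m (some i)) : H3b_io i h ∈ HT m (some i.1) := by
  change _ ∈ HJ m i.1
  unfold HJ
  rw [if_neg i.2]
  exact ⟨h, rfl⟩

omit [DecidableEq J] in
lemma H3b_pow (i : FJ m) (h : Cy m (some i)) : ∃ k : ℕ, h = (Multiplicative.ofAdd 1) ^ k := by
  refine ⟨(Multiplicative.toAdd h).val, ?_⟩
  rw [← ofAdd_nsmul, nsmul_one, ZMod.natCast_zmod_val]
  rfl

omit [DecidableEq J] in
lemma H3b_io_pow (i : FJ m) (k : ℕ) :
    H3b_io i ((Multiplicative.ofAdd 1) ^ k) = (gen m i.1) ^ k := by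
  rw [map_pow]
  rfl

lemma H3b_rt_self (i : FJ m) (h : Cy m (some i)) : rt (some i) (H3b_io i h) = h := by
  obtain ⟨k, rfl⟩ := H3b_pow i h
  rw [H3b_io_pow, map_pow, rt_self]
  rfl

lemma H3b_rt_ne (i : FJ m) (t : Option (FJ m)) (ht : t ≠ some i) (h : Cy m (some i)) :
    rt t (H3b_io i h) = 1 := by
  obtain ⟨k, rfl⟩ := H3b_pow i h
  rw [H3b_io_pow, map_pow, rt_ne, one_pow]
  rintro i' rfl h0
  exact ht (by rw [Subtype.ext h0])

lemma H3b_map_self (i : FJ m) (x : MonoidAlgebra ℚ (Cy m (some i))) :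
    MonoidAlgebra.mapDomainRingHom ℚ (rt (some i))
      (MonoidAlgebra.mapDomainRingHom ℚ (H3b_io i) x) = x := by
  induction x using MonoidAlgebra.induction_linear with
  | zero => rw [map_zero, map_zero]
  | add a b ha hb => rw [map_add, map_add, ha, hb]
  | single a r =>
    change MonoidAlgebra.mapDomain _ (MonoidAlgebra.mapDomain _ _) = _
    rw [MonoidAlgebra.mapDomain_single, MonoidAlgebra.mapDomain_single, H3b_rt_self]

lemma H3b_map_ne (i : FJ m) (t : Option (FJ m)) (ht : t ≠ some i)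
    (x : MonoidAlgebra ℚ (Cy m (some i))) :
    MonoidAlgebra.mapDomainRingHom ℚ (rt t)
      (MonoidAlgebra.mapDomainRingHom ℚ (H3b_io i) x) =
      MonoidAlgebra.single 1 (x.coeff.sum fun _ a => a) := by
  induction x using MonoidAlgebra.induction_linear with
  | zero => rw [map_zero, map_zero]; simp
  | add a b ha hb =>
    rw [map_add, map_add, ha, hb, MonoidAlgebra.coeff_add,
      Finsupp.sum_add_index' (fun _ => rfl) (fun _ _ _ => rfl), MonoidAlgebra.single_add]
  | single a r =>
    change MonoidAlgebra.mapDomain _ (MonoidAlgebra.mapDomain _ _) = _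
    rw [MonoidAlgebra.mapDomain_single, MonoidAlgebra.mapDomain_single, H3b_rt_ne i t ht]
    simp

omit [DecidableEq J] in
lemma H3b_NB [DecidableEq J] [Fintype J] (i : FJ m) (x : MonoidAlgebra ℚ (Cy m (some i))) :
    MonoidAlgebra.mapDomainRingHom ℚ (H3b_io i) x * NB (uk ℚ m) i =
      (x.coeff.sum fun _ a => a) • NB (uk ℚ m) i := by
  induction x using MonoidAlgebra.induction_linear with
  | zero => rw [map_zero]; simp
  | add a b ha hb =>
    rw [map_add, add_mul, ha, hb, MonoidAlgebra.coeff_add,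
      Finsupp.sum_add_index' (fun _ => rfl) (fun _ _ _ => rfl), add_smul]
  | single a r =>
    change MonoidAlgebra.mapDomain _ _ * _ = _
    rw [MonoidAlgebra.mapDomain_single]
    have h1 : (MonoidAlgebra.single (H3b_io i a) r : MonoidAlgebra ℚ (Gp m)) =
        r • uk ℚ m (H3b_io i a) := by
      rw [MonoidAlgebra.of_apply, MonoidAlgebra.smul_single, smul_eq_mul, mul_one]
    rw [h1, smul_mul_assoc, mem_mul_NB (uk ℚ m) i (H3b_mem i a)]
    simp

end H3b

variable {J : Type} [DecidableEq J] [Fintype J] {m : J → ℕ} {Y σ : Type} [Fintype Y] [DecidableEq Y]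
  [Fintype σ] [DecidableEq σ]

lemma H3b_det {R S : Type} [Ring R] [CommRing S] (f : R →+* S) {n : Type} [Fintype n]
    [DecidableEq n] (a : n) (X : R) :
    ((Matrix.diagonal (Function.update (fun _ : n => (1 : R)) a X)).map f).det = f X := by
  rw [Matrix.diagonal_map (map_zero f), Matrix.det_diagonal]
  rw [Finset.prod_eq_single a]
  · rw [Function.update_self]
  · intro b _ hb
    rw [Function.update_of_ne hb, map_one]
  · intro h
    exact absurd (Finset.mem_univ a) h

/-- diagonal matrices over `ℚ[G]` in the stabiliser of `Ψ`: for a unit `x` of `ℚ[C_i]` with augmentation one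
there is `D ∈ SS` whose image has determinant `x` for the retraction to `C_i` and `1` for the others -/
theorem norm_diag (i : FJ m) (x x' : MonoidAlgebra ℚ (Cy m (some i))) (hx : x * x' = 1)
    (haug : (x.coeff.sum fun _ a => a) = 1) :
    ∃ D ∈ SS (uk ℚ m) Y σ, (D.1.map (MonoidAlgebra.mapDomainRingHom ℚ (rt (some i)))).det = x ∧
      ∀ t, t ≠ some i → (D.1.map (MonoidAlgebra.mapDomainRingHom ℚ (rt t))).det = 1 := by
  obtain ⟨X, hX⟩ : ∃ X, X = MonoidAlgebra.mapDomainRingHom ℚ (H3b_io i) x := ⟨_, rfl⟩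
  obtain ⟨X', hX'⟩ : ∃ X', X' = MonoidAlgebra.mapDomainRingHom ℚ (H3b_io i) x' := ⟨_, rfl⟩
  have hx' : x' * x = 1 := by rw [mul_comm]; exact hx
  have e1 : X * X' = 1 := by rw [hX, hX', ← map_mul, hx, map_one]
  have e2 : X' * X = 1 := by rw [hX, hX', ← map_mul, hx', map_one]
  have key : ∀ Z Z' : MonoidAlgebra ℚ (Gp m), Z * Z' = 1 →
      Matrix.diagonal (Function.update (fun _ : Nx m Y σ => (1 : MonoidAlgebra ℚ (Gp m)))
        (Sum.inl (Sum.inl i)) Z) *
      Matrix.diagonal (Function.update (fun _ : Nx m Y σ => (1 : MonoidAlgebra ℚ (Gp m)))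
        (Sum.inl (Sum.inl i)) Z') = 1 := by
    intro Z Z' hZ
    rw [Matrix.diagonal_mul_diagonal, ← Matrix.diagonal_one]
    congr 1
    funext r
    by_cases hr : r = Sum.inl (Sum.inl i)
    · subst hr
      rw [Function.update_self, Function.update_self, hZ]
    · rw [Function.update_of_ne hr, Function.update_of_ne hr, one_mul]
  refine ⟨⟨_, _, key X X' e1, key X' X e2⟩, ?_, ?_, ?_⟩
  · change Matrix.diagonal _ * psi (uk ℚ m) Y σ = psi (uk ℚ m) Y σ
    ext1 r c
    rw [Matrix.diagonal_mul]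
    by_cases hr : r = Sum.inl (Sum.inl i)
    · subst hr
      rw [Function.update_self]
      unfold psi
      simp only
      split_ifs with h
      · subst h
        change X * NB (uk ℚ m) i = NB (uk ℚ m) i
        rw [hX, H3b_NB, haug, one_smul]
      · rw [mul_zero]
    · rw [Function.update_of_ne hr, one_mul]
  · change ((Matrix.diagonal _).map _).det = x
    rw [H3b_det, hX, H3b_map_self]
  · intro t ht
    change ((Matrix.diagonal _).map _).det = 1
    rw [H3b_det, hX, H3b_map_ne i t ht, haug]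
    rfl

end FP
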