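import Pool.Agent.Lib.MP_2d4659_gt.FP.H2
import Pool.Agent.Lib.MP_2d4659_gt.FP.H3a
import Pool.Agent.Lib.MP_2d4659_gt.FP.H3b

/-!
# Normalisation of the rational solution

`w_t = det (g.map (rt t)) ∈ ℚ[C_t]`, a unit, `aug w_t = w_none =: w₀ ∈ ℚ`.

If `σ` is empty then `w₀ = 1` or `-1`: the images of `Φ` and `Ψ` under the augmentation `ℤ[G] → ℤ` are square
matrices with the same row space over `ℤ`, and `det Ψ = ∏ m_i ≠ 0`.  Multiply `g` on the right by
`diag(D_i; 1)`, `D_i` the image of `w_i⁻¹ w₀` under the inclusion of the factor `i`; `N_i D_i = aug (D_i) N_i = N_i`.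

If `c₀ ∈ σ` multiply `g` on the right by `diag(D_i; 1; w₀⁻¹ at c₀)`.
-/
set_option autoImplicit false

namespace FP

section H3A

/-- the augmentation -/
noncomputable def H3_A (H : Type) [Group H] : MonoidAlgebra ℚ H →+* ℚ :=
  (MonoidAlgebra.lift ℚ ℚ H (1 : H →* ℚ)).toRingHom

lemma H3_A_single {H : Type} [Group H] (a : H) (r : ℚ) : H3_A H (MonoidAlgebra.single a r) = r := by
  change MonoidAlgebra.lift ℚ ℚ H (1 : H →* ℚ) (MonoidAlgebra.single a r) = r
  rw [MonoidAlgebra.lift_single]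
  simp

lemma H3_A_eq {H : Type} [Group H] (x : MonoidAlgebra ℚ H) :
    H3_A H x = x.coeff.sum fun _ a => a := by
  induction x using MonoidAlgebra.induction_linear with
  | zero => rw [map_zero]; simp
  | add a b ha hb =>
    rw [map_add, ha, hb, MonoidAlgebra.coeff_add,
      Finsupp.sum_add_index' (fun _ => rfl) (fun _ _ _ => rfl)]
  | single a r =>
    rw [H3_A_single]
    simp

lemma H3_A_map {H K : Type} [Group H] [Group K] (f : H →* K) (x : MonoidAlgebra ℚ H) :
    H3_A K (MonoidAlgebra.mapDomainRingHom ℚ f x) = H3_A H x := by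
  induction x using MonoidAlgebra.induction_linear with
  | zero => rw [map_zero, map_zero, map_zero]
  | add a b ha hb => rw [map_add, map_add, map_add, ha, hb]
  | single a r =>
    change H3_A K (MonoidAlgebra.mapDomain _ _) = _
    rw [MonoidAlgebra.mapDomain_single, H3_A_single, H3_A_single]

lemma H3_A_triv {H : Type} [Group H] [Subsingleton H] (x : MonoidAlgebra ℚ H) :
    x = MonoidAlgebra.single 1 (H3_A H x) := by
  induction x using MonoidAlgebra.induction_linear with
  | zero => rw [map_zero]; simp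
  | add a b ha hb => rw [map_add, MonoidAlgebra.single_add, ← ha, ← hb]
  | single a r => rw [H3_A_single, Subsingleton.elim a 1]

end H3A

variable {J : Type} [DecidableEq J] [Fintype J] {m : J → ℕ} {Y σ : Type} [Fintype Y] [DecidableEq Y]
  [Fintype σ] [DecidableEq σ]

lemma H3_prod (x x' : ∀ i : FJ m, MonoidAlgebra ℚ (Cy m (some i))) (hx : ∀ i, x i * x' i = 1)
    (haug : ∀ i, ((x i).coeff.sum fun _ a => a) = 1) (s : Finset (FJ m)) :
    ∃ D ∈ SS (uk ℚ m) Y σ,
      (∀ i ∈ s, (D.1.map (MonoidAlgebra.mapDomainRingHom ℚ (rt (some i)))).det = x i) ∧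
      ∀ t, (∀ i ∈ s, t ≠ some i) → (D.1.map (MonoidAlgebra.mapDomainRingHom ℚ (rt t))).det = 1 := by
  induction s using Finset.induction_on with
  | empty =>
    refine ⟨1, one_mem _, fun i hi => absurd hi (Finset.notMem_empty i), fun t _ => ?_⟩
    rw [Units.val_one, Matrix.map_one _ (map_zero _) (map_one _), Matrix.det_one]
  | insert i s hi ih =>
    obtain ⟨D, hD, h1, h2⟩ := ih
    obtain ⟨E, hE, h3, h4⟩ := norm_diag (Y := Y) (σ := σ) i (x i) (x' i) (hx i) (haug i)
    refine ⟨D * E, mul_mem hD hE, ?_, ?_⟩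
    · intro j hj
      rw [Units.val_mul, Matrix.map_mul, Matrix.det_mul]
      by_cases hji : j = i
      · subst hji
        rw [h3, h2 (some j) (fun k hk h => hi (by
          have := Option.some_injective _ h
          rw [this]
          exact hk)), one_mul]
      · rw [h1 j ((Finset.mem_insert.1 hj).resolve_left hji),
          h4 (some j) (fun h => hji (Option.some_injective _ h)), mul_one]
    · intro t ht
      rw [Units.val_mul, Matrix.map_mul, Matrix.det_mul,
        h2 t (fun k hk => ht k (Finset.mem_insert_of_mem hk)),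
        h4 t (ht i (Finset.mem_insert_self i s)), one_mul]

/-- a scalar at a free slot -/
lemma H3_free (c : σ) (r r' : ℚ) (hr : r * r' = 1) :
    ∃ D ∈ SS (uk ℚ m) Y σ, ∀ t : Option (FJ m),
      (D.1.map (MonoidAlgebra.mapDomainRingHom ℚ (rt t))).det = MonoidAlgebra.single 1 r := by
  have hr' : r' * r = 1 := by rw [mul_comm]; exact hr
  have e1 : ∀ a b : ℚ, a * b = 1 → (MonoidAlgebra.single 1 a : MonoidAlgebra ℚ (Gp m)) *
      MonoidAlgebra.single 1 b = 1 := by
    intro a b hab
    rw [MonoidAlgebra.single_mul_single, hab, one_mul]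
    rfl
  have key : ∀ Z Z' : MonoidAlgebra ℚ (Gp m), Z * Z' = 1 →
      Matrix.diagonal (Function.update (fun _ : Nx m Y σ => (1 : MonoidAlgebra ℚ (Gp m)))
        (Sum.inr c) Z) *
      Matrix.diagonal (Function.update (fun _ : Nx m Y σ => (1 : MonoidAlgebra ℚ (Gp m)))
        (Sum.inr c) Z') = 1 := by
    intro Z Z' hZ
    rw [Matrix.diagonal_mul_diagonal, ← Matrix.diagonal_one]
    congr 1
    funext q
    by_cases hq : q = Sum.inr c
    · subst hq
      rw [Function.update_self, Function.update_self, hZ]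
    · rw [Function.update_of_ne hq, Function.update_of_ne hq, one_mul]
  refine ⟨⟨_, _, key _ _ (e1 r r' hr), key _ _ (e1 r' r hr')⟩, ?_, ?_⟩
  · change Matrix.diagonal _ * psi (uk ℚ m) Y σ = psi (uk ℚ m) Y σ
    ext1 q k
    rw [Matrix.diagonal_mul]
    by_cases hq : q = Sum.inr c
    · subst hq
      unfold psi
      simp only
      rw [mul_zero]
    · rw [Function.update_of_ne hq, one_mul]
  · intro t
    change ((Matrix.diagonal _).map _).det = _
    rw [H3b_det]
    change MonoidAlgebra.mapDomain _ _ = _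
    rw [MonoidAlgebra.mapDomain_single, map_one]

/-- **Normalisation** -/
theorem exists_norm (Φ : Matrix (Nx m Y σ) (Co m Y) (MonoidAlgebra ℤ (Gp m)))
    (hrow : SameRow Φ (psi (uk ℤ m) Y σ))
    (g : (Matrix (Nx m Y σ) (Nx m Y σ) (MonoidAlgebra ℚ (Gp m)))ˣ)
    (hg : Φ.map (zq m) = g.1 * psi (uk ℚ m) Y σ) :
    ∃ g' : (Matrix (Nx m Y σ) (Nx m Y σ) (MonoidAlgebra ℚ (Gp m)))ˣ,
      Φ.map (zq m) = g'.1 * psi (uk ℚ m) Y σ ∧ DetOne g'.1 := by
  -- the determinants
  have hinv : ∀ t : Option (FJ m),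
      (g.1.map (MonoidAlgebra.mapDomainRingHom ℚ (rt t))).det *
        (g⁻¹.1.map (MonoidAlgebra.mapDomainRingHom ℚ (rt t))).det = 1 := by
    intro t
    rw [← Matrix.det_mul, ← Matrix.map_mul, ← Units.val_mul, mul_inv_cancel, Units.val_one,
      Matrix.map_one _ (map_zero _) (map_one _), Matrix.det_one]
  obtain ⟨w₀, hw₀⟩ : ∃ w₀ : ℚ, w₀ = (g.1.map (H3_A (Gp m))).det := ⟨_, rfl⟩
  obtain ⟨v₀, hv₀⟩ : ∃ v₀ : ℚ, v₀ = (g⁻¹.1.map (H3_A (Gp m))).det := ⟨_, rfl⟩
  have hwv : w₀ * v₀ = 1 := by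
    rw [hw₀, hv₀, ← Matrix.det_mul, ← Matrix.map_mul, ← Units.val_mul, mul_inv_cancel,
      Units.val_one, Matrix.map_one _ (map_zero _) (map_one _), Matrix.det_one]
  have haug : ∀ (M : Matrix (Nx m Y σ) (Nx m Y σ) (MonoidAlgebra ℚ (Gp m))) (t : Option (FJ m)),
      H3_A (Cy m t) ((M.map (MonoidAlgebra.mapDomainRingHom ℚ (rt t))).det) =
        (M.map (H3_A (Gp m))).det := by
    intro M t
    rw [RingHom.map_det]
    congr 1
    ext i j
    change H3_A (Cy m t) (MonoidAlgebra.mapDomainRingHom ℚ (rt t) (M i j)) = H3_A (Gp m) (M i j)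
    exact H3_A_map _ _
  have haw : ∀ t : Option (FJ m), H3_A (Cy m t)
      ((g.1.map (MonoidAlgebra.mapDomainRingHom ℚ (rt t))).det) = w₀ := by
    intro t
    rw [haug, hw₀]
  have hav : ∀ t : Option (FJ m), H3_A (Cy m t)
      ((g⁻¹.1.map (MonoidAlgebra.mapDomainRingHom ℚ (rt t))).det) = v₀ := by
    intro t
    rw [haug, hv₀]
  have hsing : ∀ (t : Option (FJ m)) (a b : ℚ), a * b = 1 →
      (MonoidAlgebra.single 1 a : MonoidAlgebra ℚ (Cy m t)) * MonoidAlgebra.single 1 b = 1 := by
    intro t a b hab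
    rw [MonoidAlgebra.single_mul_single, hab, one_mul]
    rfl
  -- the diagonal correction at the finite factors
  obtain ⟨D, hD, h1, h2⟩ := H3_prod (Y := Y) (σ := σ)
    (fun i : FJ m => (g⁻¹.1.map (MonoidAlgebra.mapDomainRingHom ℚ (rt (some i)))).det *
      MonoidAlgebra.single 1 w₀)
    (fun i : FJ m => (g.1.map (MonoidAlgebra.mapDomainRingHom ℚ (rt (some i)))).det *
      MonoidAlgebra.single 1 v₀)
    (fun i => by
      have a1 := hinv (some i)
      have a2 := hsing (some i) w₀ v₀ hwv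
      calc _ = ((g.1.map (MonoidAlgebra.mapDomainRingHom ℚ (rt (some i)))).det *
          (g⁻¹.1.map (MonoidAlgebra.mapDomainRingHom ℚ (rt (some i)))).det) *
          ((MonoidAlgebra.single 1 w₀ : MonoidAlgebra ℚ (Cy m (some i))) *
            MonoidAlgebra.single 1 v₀) := by ring
        _ = 1 := by rw [a1, a2, one_mul])
    (fun i => by
      rw [← H3_A_eq, map_mul, hav, H3_A_single, mul_comm]
      exact hwv) Finset.univ
  have hgD : ∀ t : Option (FJ m),
      ((g * D).1.map (MonoidAlgebra.mapDomainRingHom ℚ (rt t))).det =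
        MonoidAlgebra.single 1 w₀ := by
    intro t
    rw [Units.val_mul, Matrix.map_mul, Matrix.det_mul]
    cases t with
    | none =>
      rw [h2 none (fun i _ h => by cases h), mul_one]
      haveI : Subsingleton (Cy m none) :=
        (inferInstance : Subsingleton (Multiplicative (ZMod 1)))
      have h3 := H3_A_triv ((g.1.map (MonoidAlgebra.mapDomainRingHom ℚ (rt (m := m) none))).det)
      rw [haw none] at h3
      exact h3
    | some i =>
      rw [h1 i (Finset.mem_univ i), ← mul_assoc, hinv, one_mul]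
  have hpsi : ∀ E ∈ SS (uk ℚ m) Y σ, Φ.map (zq m) = (g * E).1 * psi (uk ℚ m) Y σ := by
    intro E hE
    have hE' : E.1 * psi (uk ℚ m) Y σ = psi (uk ℚ m) Y σ := hE
    rw [hg, Units.val_mul, Matrix.mul_assoc, hE']
  rcases isEmpty_or_nonempty σ with hσ | ⟨⟨c⟩⟩
  · refine ⟨g * D, hpsi D hD, fun t => ?_⟩
    have h4 : w₀ = 1 ∨ w₀ = -1 := by
      rw [← haw none]
      rcases norm_aug Φ hrow g hg with h | h
      · left
        rw [h, map_one]
      · right
        rw [h, map_neg, map_one]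
    rw [hgD]
    rcases h4 with h | h
    · left
      rw [h]
      rfl
    · right
      rw [h, MonoidAlgebra.single_neg]
      rfl
  · have hvw : v₀ * w₀ = 1 := by rw [mul_comm]; exact hwv
    obtain ⟨E, hE, h5⟩ := H3_free (m := m) (Y := Y) c v₀ w₀ hvw
    refine ⟨g * (D * E), hpsi _ (mul_mem hD hE), fun t => ?_⟩
    left
    rw [← mul_assoc, Units.val_mul, Matrix.map_mul, Matrix.det_mul, hgD, h5]
    exact hsing t w₀ v₀ hwv

end FP
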