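import Pool.Agent.Lib.MP_2d4659_gt.FP.H0

/-!
# Approximation of elementary matrices

Closure induction (for all `ε`).  For a generator: `1 + single a b x`, `x` in the left ideal `InI b`, respectively
`1 + N_i x (a_i - 1)` at `(i, i)`: approximate `x = y (a_i - 1)` by `y₀ (a_i - 1)`, `y₀ ∈ ℤ[1/p][G]`
(`approx_int`); respectively `x`. For a product `e e'`: `(e e') (γ γ')⁻¹ - 1 = e (e' γ'⁻¹ - 1) e⁻¹ e γ⁻¹ + (e γ⁻¹ - 1)`; the
generators are closed under inverses.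
-/

set_option autoImplicit false

namespace FP

section genmat

variable {B n : Type} [Ring B] [Fintype n] [DecidableEq n]

/-- an elementary invertible matrix -/
def H4_U (a b : n) (w : B) (h : Matrix.single a b w * Matrix.single a b w = 0) :
    (Matrix n n B)ˣ where
  val := 1 + Matrix.single a b w
  inv := 1 - Matrix.single a b w
  val_inv := by
    rw [add_mul, mul_sub, mul_one, one_mul, mul_sub, mul_one, h]
    abel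
  inv_val := by
    rw [sub_mul, mul_add, mul_one, one_mul, mul_add, mul_one, h]
    abel

lemma H4_U_val (a b : n) (w : B) (h : Matrix.single a b w * Matrix.single a b w = 0) :
    (H4_U a b w h).1 = 1 + Matrix.single a b w := rfl

lemma H4_U_inv (a b : n) (w : B) (h : Matrix.single a b w * Matrix.single a b w = 0) :
    (H4_U a b w h)⁻¹.1 = 1 - Matrix.single a b w := rfl

lemma H4_ne {a b : n} (hab : a ≠ b) (x y : B) : Matrix.single a b x * Matrix.single a b y = 0 := by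
  rw [Matrix.single_mul_single_of_ne]
  exact hab.symm

lemma H4_eq (a : n) {x y : B} (h : x * y = 0) :
    Matrix.single a a x * Matrix.single a a y = 0 := by
  rw [Matrix.single_mul_single_same, h, Matrix.single_zero]

end genmat

variable {J : Type} [DecidableEq J] [Fintype J] {m : J → ℕ} {Y σ : Type} [Fintype Y] [DecidableEq Y]
  [Fintype σ] [DecidableEq σ] {p : ℕ} [Fact p.Prime] (𝔓 : PGR p (Gp m))

section Intt

variable {n : Type} [Fintype n] [DecidableEq n]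

lemma H4_In_zero : 𝔓.In 0 := fun g => by rw [map_zero, norm_zero]; exact zero_le_one

lemma H4_In_one : 𝔓.In 1 := by rw [← map_one 𝔓.u]; exact 𝔓.In_u 1

lemma H4_IntU_one : IntU 𝔓 (1 : (Matrix n n 𝔓.B)ˣ) := by
  have h : ∀ i j, 𝔓.In ((1 : Matrix n n 𝔓.B) i j) := by
    intro i j
    rw [Matrix.one_apply]
    split_ifs
    · exact H4_In_one 𝔓
    · exact H4_In_zero 𝔓
  exact ⟨h, by rw [inv_one]; exact h⟩

lemma H4_IntU_mul {M N : (Matrix n n 𝔓.B)ˣ} (hM : IntU 𝔓 M) (hN : IntU 𝔓 N) :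
    IntU 𝔓 (M * N) := by
  refine ⟨fun i j => ?_, fun i j => ?_⟩
  · rw [Units.val_mul, Matrix.mul_apply]
    exact PGR.Le.sum 𝔓 zero_le_one _ _ fun k _ => PGR.In.mul 𝔓 (hM.1 i k) (hN.1 k j)
  · rw [mul_inv_rev, Units.val_mul, Matrix.mul_apply]
    exact PGR.Le.sum 𝔓 zero_le_one _ _ fun k _ => PGR.In.mul 𝔓 (hN.2 i k) (hM.2 k j)

lemma H4_IntU_of {M : (Matrix n n 𝔓.B)ˣ} {a b : n} {w : 𝔓.B} (h1 : M.1 = 1 + Matrix.single a b w)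
    (h2 : M⁻¹.1 = 1 - Matrix.single a b w) (hw : 𝔓.In w) : IntU 𝔓 M := by
  have h : ∀ i j, 𝔓.In ((1 : Matrix n n 𝔓.B) i j) := (H4_IntU_one 𝔓).1
  have hs : ∀ i j, 𝔓.In (Matrix.single a b w i j) := by
    intro i j
    rw [Matrix.single_apply]
    split_ifs
    · exact hw
    · exact H4_In_zero 𝔓
  refine ⟨fun i j => ?_, fun i j => ?_⟩
  · rw [h1, Matrix.add_apply]
    exact PGR.Le.add 𝔓 (h i j) (hs i j)
  · rw [h2, Matrix.sub_apply, sub_eq_add_neg]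
    exact PGR.Le.add 𝔓 (h i j) (PGR.Le.neg 𝔓 (hs i j))

/-- a bound for the entries of a matrix -/
lemma H4_bdd (M : Matrix n n 𝔓.B) : ∃ C : ℝ, 1 ≤ C ∧ ∀ i j, 𝔓.Le C (M i j) := by
  choose k hk using fun i j => 𝔓.cf_bdd (M i j)
  have hp : (1 : ℝ) ≤ p := by exact_mod_cast (Fact.out : p.Prime).one_lt.le
  have hpos : ∀ i j, (0 : ℝ) ≤ (p : ℝ) ^ k i j := fun i j => by positivity
  refine ⟨1 + ∑ i, ∑ j, (p : ℝ) ^ k i j, ?_, ?_⟩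
  · have : 0 ≤ ∑ i, ∑ j, (p : ℝ) ^ k i j :=
      Finset.sum_nonneg fun i _ => Finset.sum_nonneg fun j _ => hpos i j
    linarith
  · intro i j g
    refine (hk i j g).trans ?_
    have h1 : (p : ℝ) ^ k i j ≤ ∑ j', (p : ℝ) ^ k i j' :=
      Finset.single_le_sum (f := fun j' => (p : ℝ) ^ k i j') (fun j' _ => hpos i j')
        (Finset.mem_univ j)
    have h2 : ∑ j', (p : ℝ) ^ k i j' ≤ ∑ i', ∑ j', (p : ℝ) ^ k i' j' :=
      Finset.single_le_sum (f := fun i' => ∑ j', (p : ℝ) ^ k i' j')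
        (fun i' _ => Finset.sum_nonneg fun j' _ => hpos i' j') (Finset.mem_univ i)
    linarith

lemma H4_Le_mul {r s : ℝ} (hr : 0 ≤ r) (hs : 0 ≤ s) {M N : Matrix n n 𝔓.B}
    (hM : ∀ i j, 𝔓.Le r (M i j)) (hN : ∀ i j, 𝔓.Le s (N i j)) (i j : n) :
    𝔓.Le (r * s) ((M * N) i j) := by
  rw [Matrix.mul_apply]
  exact PGR.Le.sum 𝔓 (mul_nonneg hr hs) _ _ fun k _ =>
    𝔓.cf_mul _ _ _ _ (hM i k) (hN k j)

lemma H4_Le_mono {r s : ℝ} (h : r ≤ s) {x : 𝔓.B} (hx : 𝔓.Le r x) : 𝔓.Le s x :=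
  fun g => (hx g).trans h

end Intt

/-- scalars in `ℤ[1/p]` are integral for the other primes -/
lemma H4_sc_int {q : ℕ} [Fact q.Prime] (hq : q ≠ p) (k : ℕ) :
    ‖((((p : ℚ) ^ k)⁻¹ : ℚ) : ℚ_[q])‖ ≤ 1 := by
  have h : ‖((p : ℕ) : ℚ_[q])‖ = 1 := by
    rw [Padic.norm_natCast_eq_one_iff]
    exact (Nat.coprime_primes (Fact.out : q.Prime) (Fact.out : p.Prime)).2 hq
  have h2 : ((((p : ℚ) ^ k)⁻¹ : ℚ) : ℚ_[q]) = (((p : ℕ) : ℚ_[q]) ^ k)⁻¹ := by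
    push_cast
    rfl
  rw [h2, norm_inv, norm_pow, h, one_pow, inv_one]

lemma H4_eQ_single {q : ℕ} [Fact q.Prime] (𝔔 : PGR q (Gp m)) (c : ℚ) :
    eQ 𝔔 (MonoidAlgebra.single 1 c) = 𝔔.sc (c : ℚ_[q]) := by
  change 𝔔.emb (MonoidAlgebra.mapRingHom _ _ (MonoidAlgebra.single 1 c)) = _
  rw [MonoidAlgebra.mapRingHom_single]
  rfl

/-- approximation by elements which are integral for the other primes -/
lemma H4_approx (b : 𝔓.B) {ε : ℝ} (hε : 0 < ε) : ∃ y : MonoidAlgebra ℚ (Gp m),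
    𝔓.Le ε (b - eQ 𝔓 y) ∧
      ∀ (q : ℕ) [Fact q.Prime] (𝔔 : PGR q (Gp m)), q ≠ p → 𝔔.In (eQ 𝔔 y) := by
  obtain ⟨k, x, hx⟩ := 𝔓.approx_int b ε hε
  refine ⟨MonoidAlgebra.single 1 (((p : ℚ) ^ k)⁻¹) * zq m x, ?_, ?_⟩
  · intro g
    rw [map_mul, eQ_zq, H4_eQ_single]
    have h2 : ((((p : ℚ) ^ k)⁻¹ : ℚ) : ℚ_[p]) = (((p : ℕ) : ℚ_[p]) ^ k)⁻¹ := by
      push_cast
      rfl
    rw [h2]
    exact (hx g).le
  · intro q hqp 𝔔 hq
    rw [map_mul, eQ_zq, H4_eQ_single]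
    exact PGR.In.mul 𝔔 (𝔔.In_sc (H4_sc_int hq k)) (In_eZ 𝔔 x)

lemma H4_gB_val {n : Type} [Fintype n] [DecidableEq n] {q : ℕ} [Fact q.Prime]
    (𝔔 : PGR q (Gp m)) (a b : n) (w : MonoidAlgebra ℚ (Gp m))
    (h : Matrix.single a b w * Matrix.single a b w = 0) :
    (gB 𝔔 (H4_U a b w h)).1 = 1 + Matrix.single a b (eQ 𝔔 w) ∧
      (gB 𝔔 (H4_U a b w h))⁻¹.1 = 1 - Matrix.single a b (eQ 𝔔 w) := by
  have hs : (Matrix.single a b w).map (eQ 𝔔) = Matrix.single a b (eQ 𝔔 w) := by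
    ext i j
    rw [Matrix.map_apply, Matrix.single_apply, Matrix.single_apply]
    split_ifs
    · rfl
    · exact map_zero _
  have ho : (1 : Matrix n n (MonoidAlgebra ℚ (Gp m))).map (eQ 𝔔) = 1 :=
    Matrix.map_one _ (map_zero _) (map_one _)
  constructor
  · rw [gB_val, H4_U_val, Matrix.map_add _ (map_add _), ho, hs]
  · rw [gB_inv_val, H4_U_inv, Matrix.map_sub _ (map_sub _), ho, hs]

/-- the property of the theorem -/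
def H4_P (e : (Matrix (Nx m Y σ) (Nx m Y σ) 𝔓.B)ˣ) : Prop :=
  ∀ ε : ℝ, 0 < ε → ∃ γ ∈ EE (uk ℚ m) Y σ,
      (∀ (q : ℕ) [Fact q.Prime] (𝔔 : PGR q (Gp m)), q ≠ p → IntU 𝔔 (gB 𝔔 γ)) ∧
      ∀ a b, 𝔓.Le ε ((e * (gB 𝔓 γ)⁻¹).1 a b - (1 : Matrix (Nx m Y σ) (Nx m Y σ) 𝔓.B) a b)

lemma H4_gen {e : (Matrix (Nx m Y σ) (Nx m Y σ) 𝔓.B)ˣ} {a b : Nx m Y σ} {x : 𝔓.B}
    (he : e.1 = 1 + Matrix.single a b x) {w : MonoidAlgebra ℚ (Gp m)} {ε : ℝ} (hε : 0 < ε)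
    (h1 : Matrix.single a b x * Matrix.single a b (eQ 𝔓 w) = 0)
    (h2 : Matrix.single a b w * Matrix.single a b w = 0)
    (hE : IsEl (uk ℚ m) (H4_U a b w h2))
    (hI : ∀ (q : ℕ) [Fact q.Prime] (𝔔 : PGR q (Gp m)), q ≠ p → 𝔔.In (eQ 𝔔 w))
    (hL : 𝔓.Le ε (x - eQ 𝔓 w)) :
    ∃ γ ∈ EE (uk ℚ m) Y σ,
      (∀ (q : ℕ) [Fact q.Prime] (𝔔 : PGR q (Gp m)), q ≠ p → IntU 𝔔 (gB 𝔔 γ)) ∧
      ∀ a b, 𝔓.Le ε ((e * (gB 𝔓 γ)⁻¹).1 a b - (1 : Matrix (Nx m Y σ) (Nx m Y σ) 𝔓.B) a b) := by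
  refine ⟨H4_U a b w h2, Subgroup.subset_closure hE, ?_, ?_⟩
  · intro q hqp 𝔔 hq
    exact H4_IntU_of 𝔔 (H4_gB_val 𝔔 a b w h2).1 (H4_gB_val 𝔔 a b w h2).2 (hI q 𝔔 hq)
  · intro i j
    rw [Units.val_mul, (H4_gB_val 𝔓 a b w h2).2, he, add_mul, one_mul, mul_sub, mul_one, h1,
      sub_zero]
    have h3 : (1 - Matrix.single a b (eQ 𝔓 w) + Matrix.single a b x) i j -
        (1 : Matrix (Nx m Y σ) (Nx m Y σ) 𝔓.B) i j = Matrix.single a b (x - eQ 𝔓 w) i j := by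
      rw [Matrix.add_apply, Matrix.sub_apply, Matrix.single_apply, Matrix.single_apply,
        Matrix.single_apply]
      split_ifs
      · abel
      · abel
    rw [h3, Matrix.single_apply]
    split_ifs
    · exact hL
    · intro g
      rw [map_zero, norm_zero]
      exact hε.le

lemma H4_one : H4_P 𝔓 (1 : (Matrix (Nx m Y σ) (Nx m Y σ) 𝔓.B)ˣ) := by
  intro ε hε
  refine ⟨1, one_mem _, ?_, ?_⟩
  · intro q hqp 𝔔 hq
    rw [map_one]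
    exact H4_IntU_one 𝔔
  · intro a b g
    rw [map_one, inv_one, mul_one, Units.val_one, sub_self, map_zero, norm_zero]
    exact hε.le

lemma H4_mul {e e' : (Matrix (Nx m Y σ) (Nx m Y σ) 𝔓.B)ˣ} (he : H4_P 𝔓 e) (he' : H4_P 𝔓 e') :
    H4_P 𝔓 (e * e') := by
  intro ε hε
  obtain ⟨γ, h1, h2, h3⟩ := he ε hε
  obtain ⟨C, hC1, hC⟩ := H4_bdd 𝔓 e.1
  obtain ⟨C', hC1', hC'⟩ := H4_bdd 𝔓 (gB 𝔓 γ)⁻¹.1
  have hpos : 0 < ε / (C * C') := by positivity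
  obtain ⟨γ', k1, k2, k3⟩ := he' _ hpos
  refine ⟨γ * γ', mul_mem h1 k1, ?_, ?_⟩
  · intro q hqp 𝔔 hq
    rw [map_mul]
    exact H4_IntU_mul 𝔔 (h2 q 𝔔 hq) (k2 q 𝔔 hq)
  · intro a b
    set M := (e' * (gB 𝔓 γ')⁻¹).1 - (1 : Matrix (Nx m Y σ) (Nx m Y σ) 𝔓.B) with hM
    have e1 : (e * e' * (gB 𝔓 (γ * γ'))⁻¹).1 =
        e.1 * M * (gB 𝔓 γ)⁻¹.1 + (e * (gB 𝔓 γ)⁻¹).1 := by
      rw [hM, map_mul, mul_inv_rev, Units.val_mul, Units.val_mul, Units.val_mul, Units.val_mul,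
        Units.val_mul, mul_sub, sub_mul, mul_one]
      simp only [mul_assoc]
      abel
    have e2 : (e * e' * (gB 𝔓 (γ * γ'))⁻¹).1 a b - (1 : Matrix (Nx m Y σ) (Nx m Y σ) 𝔓.B) a b =
        (e.1 * M * (gB 𝔓 γ)⁻¹.1) a b + ((e * (gB 𝔓 γ)⁻¹).1 a b -
          (1 : Matrix (Nx m Y σ) (Nx m Y σ) 𝔓.B) a b) := by
      rw [e1, Matrix.add_apply]
      abel
    rw [e2]
    have hMl : ∀ i j, 𝔓.Le (ε / (C * C')) (M i j) := k3
    have hl1 := H4_Le_mul 𝔓 (by positivity) hpos.le hC hMl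
    have hl2 := H4_Le_mul 𝔓 (by positivity) (by positivity) hl1 hC'
    have hεe : C * (ε / (C * C')) * C' = ε := by
      field_simp
    rw [hεe] at hl2
    exact PGR.Le.add 𝔓 (hl2 a b) (h3 a b)

lemma H4_off {e : (Matrix (Nx m Y σ) (Nx m Y σ) 𝔓.B)ˣ} {a b : Nx m Y σ} {x : 𝔓.B} (hab : a ≠ b)
    (hx : InI 𝔓.u b x) (he : e.1 = 1 + Matrix.single a b x) : H4_P 𝔓 e := by
  intro ε hε
  rcases b with (i | y) | c
  · obtain ⟨y, rfl⟩ := hx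
    obtain ⟨z, hz1, hz2⟩ := H4_approx 𝔓 y hε
    have hg : ∀ (q : ℕ) [Fact q.Prime] (𝔔 : PGR q (Gp m)),
        eQ 𝔔 (z * (uk ℚ m (gen m i.1) - 1)) = eQ 𝔔 z * (𝔔.u (gen m i.1) - 1) := by
      intro q hqp 𝔔
      rw [map_mul, map_sub, map_one, eQ_u]
    have hin : ∀ (q : ℕ) [Fact q.Prime] (𝔔 : PGR q (Gp m)), 𝔔.In (𝔔.u (gen m i.1) - 1) := by
      intro q hqp 𝔔
      rw [sub_eq_add_neg]
      exact PGR.Le.add 𝔔 (𝔔.In_u _) (PGR.Le.neg 𝔔 (H4_In_one 𝔔))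
    refine H4_gen 𝔓 he (w := z * (uk ℚ m (gen m i.1) - 1)) hε (H4_ne hab _ _) (H4_ne hab _ _)
      (IsEl.off _ _ _ hab ⟨z, rfl⟩ rfl) ?_ ?_
    · intro q hqp 𝔔 hq
      rw [hg]
      exact PGR.In.mul 𝔔 (hz2 q 𝔔 hq) (hin q 𝔔)
    · rw [hg, ← sub_mul]
      intro g
      have := 𝔓.cf_mul _ _ _ _ hz1 (hin p 𝔓) g
      rwa [mul_one] at this
  · have hx0 : x = 0 := hx
    subst hx0
    have : e = 1 := by
      apply Units.ext
      rw [he, Matrix.single_zero, add_zero, Units.val_one]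
    rw [this]
    exact H4_one 𝔓 ε hε
  · obtain ⟨z, hz1, hz2⟩ := H4_approx 𝔓 x hε
    exact H4_gen 𝔓 he (w := z) hε (H4_ne hab _ _) (H4_ne hab _ _)
      (IsEl.off _ _ _ hab trivial rfl) hz2 hz1

lemma H4_diag {e : (Matrix (Nx m Y σ) (Nx m Y σ) 𝔓.B)ˣ} {i : FJ m} {x : 𝔓.B}
    (he : e.1 = 1 + Matrix.single (Sum.inl (Sum.inl i)) (Sum.inl (Sum.inl i))
      (NB 𝔓.u i * x * (𝔓.u (gen m i.1) - 1))) : H4_P 𝔓 e := by
  intro ε hε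
  obtain ⟨z, hz1, hz2⟩ := H4_approx 𝔓 x hε
  have hNB : ∀ (q : ℕ) [Fact q.Prime] (𝔔 : PGR q (Gp m)),
      eQ 𝔔 (NB (uk ℚ m) i) = NB 𝔔.u i := by
    intro q hqp 𝔔
    unfold NB
    rw [map_sum]
    refine Finset.sum_congr rfl fun c _ => ?_
    rw [map_pow, eQ_u]
  have hg : ∀ (q : ℕ) [Fact q.Prime] (𝔔 : PGR q (Gp m)),
      eQ 𝔔 (NB (uk ℚ m) i * z * (uk ℚ m (gen m i.1) - 1)) =
        NB 𝔔.u i * eQ 𝔔 z * (𝔔.u (gen m i.1) - 1) := by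
    intro q hqp 𝔔
    rw [map_mul, map_mul, map_sub, map_one, eQ_u, hNB]
  have hin : ∀ (q : ℕ) [Fact q.Prime] (𝔔 : PGR q (Gp m)), 𝔔.In (𝔔.u (gen m i.1) - 1) := by
    intro q hqp 𝔔
    rw [sub_eq_add_neg]
    exact PGR.Le.add 𝔔 (𝔔.In_u _) (PGR.Le.neg 𝔔 (H4_In_one 𝔔))
  have hnil : ∀ {B : Type} [Ring B] (u : Gp m →* B) (s t : B),
      NB u i * s * (u (gen m i.1) - 1) * (NB u i * t * (u (gen m i.1) - 1)) = 0 := by
    intro B _ u s t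
    have : NB u i * s * (u (gen m i.1) - 1) * (NB u i * t * (u (gen m i.1) - 1)) =
        NB u i * s * ((u (gen m i.1) - 1) * NB u i) * t * (u (gen m i.1) - 1) := by
      simp only [mul_assoc]
    rw [this, E1_sub_mul_NB, mul_zero, zero_mul, zero_mul]
  refine H4_gen 𝔓 he (w := NB (uk ℚ m) i * z * (uk ℚ m (gen m i.1) - 1)) hε ?_
    (H4_eq _ (hnil _ _ _)) (IsEl.diag i z rfl) ?_ ?_
  · rw [hg]
    exact H4_eq _ (hnil _ _ _)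
  · intro q hqp 𝔔 hq
    rw [hg]
    exact PGR.In.mul 𝔔 (PGR.In.mul 𝔔 (NB_In 𝔔 i) (hz2 q 𝔔 hq)) (hin q 𝔔)
  · rw [hg, ← sub_mul, ← mul_sub]
    intro g
    have h1 : 𝔓.Le (1 * ε) (NB 𝔓.u i * (x - eQ 𝔓 z)) := 𝔓.cf_mul _ _ _ _ (NB_In 𝔓 i) hz1
    have := 𝔓.cf_mul _ _ _ _ h1 (hin p 𝔓) g
    rwa [mul_one, one_mul] at this

/-- the inverse of an elementary matrix -/
lemma H4_inv_val {B n : Type} [Ring B] [Fintype n] [DecidableEq n] {M : (Matrix n n B)ˣ}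
    {a b : n} {x : B} (h : M.1 = 1 + Matrix.single a b x)
    (h0 : Matrix.single a b x * Matrix.single a b x = 0) : M⁻¹.1 = 1 + Matrix.single a b (-x) := by
  have h1 : M = H4_U a b x h0 := Units.ext h
  rw [h1, H4_U_inv, sub_eq_add_neg]
  congr 1
  ext i j
  rw [Matrix.neg_apply, Matrix.single_apply, Matrix.single_apply]
  split_ifs
  · rfl
  · exact neg_zero

/-- **Approximation** -/
theorem EE_approx {e : (Matrix (Nx m Y σ) (Nx m Y σ) 𝔓.B)ˣ} (he : e ∈ EE 𝔓.u Y σ) {ε : ℝ}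
    (hε : 0 < ε) : ∃ γ ∈ EE (uk ℚ m) Y σ,
      (∀ (q : ℕ) [Fact q.Prime] (𝔔 : PGR q (Gp m)), q ≠ p → IntU 𝔔 (gB 𝔔 γ)) ∧
      ∀ a b, 𝔓.Le ε ((e * (gB 𝔓 γ)⁻¹).1 a b - (1 : Matrix (Nx m Y σ) (Nx m Y σ) 𝔓.B) a b) := by
  have key : H4_P 𝔓 e := by
    refine Subgroup.closure_induction'' (p := fun e _ => H4_P 𝔓 e) ?_ ?_ (H4_one 𝔓)
      (fun x y _ _ hx hy => H4_mul 𝔓 hx hy) he
    · rintro M (⟨a, b, x, hab, hx, hM⟩ | ⟨i, x, hM⟩)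
      · exact H4_off 𝔓 hab hx hM
      · exact H4_diag 𝔓 hM
    · rintro M (⟨a, b, x, hab, hx, hM⟩ | ⟨i, x, hM⟩)
      · exact H4_off 𝔓 hab (InI.neg 𝔓.u hx) (H4_inv_val hM (H4_ne hab _ _))
      · refine H4_diag 𝔓 (i := i) (x := -x) ?_
        rw [H4_inv_val hM]
        · rw [mul_neg, neg_mul]
        · apply H4_eq
          have : NB 𝔓.u i * x * (𝔓.u (gen m i.1) - 1) * (NB 𝔓.u i * x * (𝔓.u (gen m i.1) - 1)) =
              NB 𝔓.u i * x * ((𝔓.u (gen m i.1) - 1) * NB 𝔓.u i) * x * (𝔓.u (gen m i.1) - 1) := by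
            simp only [mul_assoc]
          rw [this, E1_sub_mul_NB, mul_zero, zero_mul, zero_mul]
  exact key ε hε

end FP
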