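import Pool.Agent.Lib.MP_2d4659_gt.FP.D4
import Pool.Agent.Lib.MP_2d4659_gt.FP.H0

/-!
# Integrality at all primes
-/

set_option autoImplicit false

namespace FP

variable {J : Type} {m : J → ℕ} {n : Type} [Fintype n] [DecidableEq n]

/-- the product of the denominators of the coefficients -/
lemma H5a_den (x : MonoidAlgebra ℚ (Gp m)) : ∃ B : Finset ℕ, ∀ (q : ℕ) [Fact q.Prime],
    q ∉ B → ∀ h, ‖((x.coeff h : ℚ) : ℚ_[q])‖ ≤ 1 := by
  classical
  refine ⟨(∏ h ∈ x.coeff.support, (x.coeff h).den).primeFactors, fun q hq hB h => ?_⟩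
  by_cases hh : h ∈ x.coeff.support
  · apply Padic.norm_rat_le_one
    intro hdvd
    apply hB
    rw [Nat.mem_primeFactors]
    refine ⟨hq.out, hdvd.trans (Finset.dvd_prod_of_mem _ hh), ?_⟩
    rw [Finset.prod_ne_zero_iff]
    intro a _
    exact (x.coeff a).den_nz
  · rw [Finsupp.notMem_support_iff] at hh
    rw [hh]
    simp

lemma H5a_mat (M : Matrix n n (MonoidAlgebra ℚ (Gp m))) : ∃ B : Finset ℕ, ∀ (q : ℕ) [Fact q.Prime],
    q ∉ B → ∀ i j h, ‖(((M i j).coeff h : ℚ) : ℚ_[q])‖ ≤ 1 := by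
  classical
  choose B hB using fun p : n × n => H5a_den (M p.1 p.2)
  refine ⟨Finset.univ.biUnion B, fun q hq hqB i j h => ?_⟩
  apply hB (i, j) q
  intro hmem
  exact hqB (Finset.mem_biUnion.2 ⟨(i, j), Finset.mem_univ _, hmem⟩)

/-- an invertible matrix over `ℚ[G]` is integral at almost all primes -/
theorem exists_bad (g : (Matrix n n (MonoidAlgebra ℚ (Gp m)))ˣ) : ∃ B : Finset ℕ,
    ∀ (q : ℕ) [Fact q.Prime] (𝔔 : PGR q (Gp m)), q ∉ B → IntU 𝔔 (gB 𝔔 g) := by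
  classical
  obtain ⟨B1, h1⟩ := H5a_mat g.1
  obtain ⟨B2, h2⟩ := H5a_mat g⁻¹.1
  refine ⟨B1 ∪ B2, fun q hq 𝔔 hB => ?_⟩
  rw [Finset.mem_union, not_or] at hB
  refine ⟨fun i j h => ?_, fun i j h => ?_⟩
  · rw [gB_val, Matrix.map_apply, cf_eQ]
    exact h1 q hB.1 i j h
  · rw [gB_inv_val, Matrix.map_apply, cf_eQ]
    exact h2 q hB.2 i j h

/-- a rational number which is integral at all primes is an integer -/
lemma H5a_int (r : ℚ) (h : ∀ (q : ℕ) [Fact q.Prime], ‖(r : ℚ_[q])‖ ≤ 1) : ((r.num : ℤ) : ℚ) = r := by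
  have hden : r.den = 1 := by
    by_contra hne
    obtain ⟨q, hq, hdvd⟩ := Nat.exists_prime_and_dvd hne
    haveI : Fact q.Prime := ⟨hq⟩
    have h1 := h q
    have hden0 : ((r.den : ℤ) : ℚ_[q]) ≠ 0 := by
      rw [Int.cast_natCast, Nat.cast_ne_zero]
      exact r.den_nz
    have h2 : (r : ℚ_[q]) * ((r.den : ℤ) : ℚ_[q]) = ((r.num : ℤ) : ℚ_[q]) := by
      have h3 : r * (r.den : ℚ) = r.num := Rat.mul_den_eq_num r
      have h4 := congrArg (fun x : ℚ => (x : ℚ_[q])) h3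
      push_cast at h4 ⊢
      exact h4
    have h5 : ‖((r.den : ℤ) : ℚ_[q])‖ < 1 := by
      rw [Padic.norm_intCast_lt_one_iff]
      exact_mod_cast hdvd
    have h6 : ‖((r.num : ℤ) : ℚ_[q])‖ < 1 := by
      rw [← h2, norm_mul]
      calc ‖(r : ℚ_[q])‖ * ‖((r.den : ℤ) : ℚ_[q])‖ ≤ 1 * ‖((r.den : ℤ) : ℚ_[q])‖ :=
            mul_le_mul_of_nonneg_right h1 (norm_nonneg _)
        _ < 1 := by rw [one_mul]; exact h5
    rw [Padic.norm_intCast_lt_one_iff] at h6
    have h7 : q ∣ r.num.natAbs := Int.natCast_dvd.1 h6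
    have h8 := Nat.dvd_gcd h7 hdvd
    rw [r.reduced] at h8
    exact hq.one_lt.ne' (Nat.dvd_one.1 h8)
  exact (Rat.den_eq_one_iff r).1 hden

lemma H5a_lift (x : MonoidAlgebra ℚ (Gp m))
    (h : ∀ (q : ℕ) [Fact q.Prime] (g : Gp m), ‖((x.coeff g : ℚ) : ℚ_[q])‖ ≤ 1) :
    ∃ y : MonoidAlgebra ℤ (Gp m), zq m y = x := by
  refine ⟨MonoidAlgebra.ofCoeff (x.coeff.mapRange Rat.num rfl), ?_⟩
  ext g
  rw [zq_coeff]
  exact H5a_int (x.coeff g) (fun q _ => h q g)

/-- a matrix integral at all primes is integral (there are models of the completed group rings by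
`exists_PGR`) -/
theorem int_of_all (g : (Matrix n n (MonoidAlgebra ℚ (Gp m)))ˣ)
    (h : ∀ (q : ℕ) [Fact q.Prime] (𝔔 : PGR q (Gp m)), IntU 𝔔 (gB 𝔔 g)) :
    ∃ h : (Matrix n n (MonoidAlgebra ℤ (Gp m)))ˣ, h.1.map (zq m) = g.1 := by
  have h1 : ∀ i j, ∃ y : MonoidAlgebra ℤ (Gp m), zq m y = g.1 i j := by
    intro i j
    apply H5a_lift
    intro q hq a
    obtain ⟨𝔔⟩ := exists_PGR q (Gp m)
    have h2 := (h q 𝔔).1 i j a
    rw [gB_val, Matrix.map_apply, cf_eQ] at h2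
    exact h2
  have h2 : ∀ i j, ∃ y : MonoidAlgebra ℤ (Gp m), zq m y = g⁻¹.1 i j := by
    intro i j
    apply H5a_lift
    intro q hq a
    obtain ⟨𝔔⟩ := exists_PGR q (Gp m)
    have h2 := (h q 𝔔).2 i j a
    rw [gB_inv_val, Matrix.map_apply, cf_eQ] at h2
    exact h2
  choose A hA using h1
  choose A' hA' using h2
  have eA : (Matrix.of A).map (zq m) = g.1 := by
    ext1 i j
    exact hA i j
  have eA' : (Matrix.of A').map (zq m) = g⁻¹.1 := by
    ext1 i j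
    exact hA' i j
  have inj : Function.Injective
      (fun M : Matrix n n (MonoidAlgebra ℤ (Gp m)) => M.map (zq m)) := by
    intro M N hMN
    ext1 i j
    exact zq_inj (congrFun (congrFun hMN i) j)
  refine ⟨⟨Matrix.of A, Matrix.of A', ?_, ?_⟩, eA⟩
  · apply inj
    change (Matrix.of A * Matrix.of A').map (zq m) = (1 : Matrix n n _).map (zq m)
    rw [Matrix.map_mul, eA, eA', Matrix.map_one _ (map_zero _) (map_one _), ← Units.val_mul,
      mul_inv_cancel, Units.val_one]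
  · apply inj
    change (Matrix.of A' * Matrix.of A).map (zq m) = (1 : Matrix n n _).map (zq m)
    rw [Matrix.map_mul, eA, eA', Matrix.map_one _ (map_zero _) (map_one _), ← Units.val_mul,
      inv_mul_cancel, Units.val_one]

end FP
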