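import Pool.Agent.Lib.MP_2d4659_gt.FP.G3
import Pool.Agent.Lib.MP_2d4659_gt.FP.H1
import Pool.Agent.Lib.MP_2d4659_gt.FP.H2b

/-! # The rational solution at a prime -/

set_option autoImplicit false

namespace FP

variable {J : Type} [DecidableEq J] [Fintype J] {m : J → ℕ} {Y σ : Type} [Fintype Y] [DecidableEq Y]
  [Fintype σ] [DecidableEq σ] {p : ℕ} [Fact p.Prime] (𝔓 : PGR p (Gp m))

/-- the determinant of the image of a matrix under the retraction -/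
noncomputable def H5_dt {n : Type} [Fintype n] [DecidableEq n] (t : Option (FJ m)) :
    (Matrix n n 𝔓.B)ˣ →* (MonoidAlgebra ℚ_[p] (Cy m t))ˣ :=
  Units.map (Matrix.detMonoidHom.comp (RingHom.mapMatrix (𝔓.pr (rt t))).toMonoidHom)

lemma H5_dt_val {n : Type} [Fintype n] [DecidableEq n] (t : Option (FJ m))
    (M : (Matrix n n 𝔓.B)ˣ) : (H5_dt 𝔓 t M).1 = (M.1.map (𝔓.pr (rt t))).det := rfl

lemma H5_dt_inv {n : Type} [Fintype n] [DecidableEq n] (t : Option (FJ m))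
    (M : (Matrix n n 𝔓.B)ˣ) : (H5_dt 𝔓 t M)⁻¹.1 = (M⁻¹.1.map (𝔓.pr (rt t))).det := by
  rw [← map_inv]
  rfl

/-- the units of `ℤ_p[H]` -/
def H5_UI (p : ℕ) [Fact p.Prime] (H : Type) [CommGroup H] : Subgroup (MonoidAlgebra ℚ_[p] H)ˣ where
  carrier := {x | x.1 ∈ IH p H ∧ x⁻¹.1 ∈ IH p H}
  mul_mem' := by
    rintro a b ⟨h1, h2⟩ ⟨k1, k2⟩
    refine ⟨?_, ?_⟩
    · rw [Units.val_mul]
      exact (IH p H).mul_mem h1 k1
    · rw [mul_inv_rev, Units.val_mul]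
      exact (IH p H).mul_mem k2 h2
  one_mem' := ⟨(IH p H).one_mem, by rw [inv_one]; exact (IH p H).one_mem⟩
  inv_mem' := by
    rintro a ⟨h1, h2⟩
    exact ⟨h2, by rw [inv_inv]; exact h1⟩

lemma H5_dt_IntU {n : Type} [Fintype n] [DecidableEq n] (t : Option (FJ m))
    {M : (Matrix n n 𝔓.B)ˣ} (hM : IntU 𝔓 M) : H5_dt 𝔓 t M ∈ H5_UI p (Cy m t) := by
  have h := det_IntU 𝔓 hM (rt t)
  refine ⟨h.1, ?_⟩
  rw [H5_dt_inv]
  exact h.2.1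

lemma H5_dt_gB {n : Type} [Fintype n] [DecidableEq n] (t : Option (FJ m))
    (g : (Matrix n n (MonoidAlgebra ℚ (Gp m)))ˣ) (hd : DetOne g.1) :
    H5_dt 𝔓 t (gB 𝔓 g) ∈ H5_UI p (Cy m t) := by
  have h1 : (H5_dt 𝔓 t (gB 𝔓 g)).1 = MonoidAlgebra.mapRingHom (Cy m t) (algebraMap ℚ ℚ_[p])
      (g.1.map (MonoidAlgebra.mapDomainRingHom ℚ (rt t))).det := by
    rw [H5_dt_val, gB_val, RingHom.map_det]
    congr 1
    refine Matrix.ext fun i j => ?_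
    simp only [Matrix.map_apply, RingHom.mapMatrix_apply]
    exact pr_eQ 𝔓 t _
  have h2 : H5_dt 𝔓 t (gB 𝔓 g) = 1 ∨ H5_dt 𝔓 t (gB 𝔓 g) = -1 := by
    rcases hd t with h | h
    · left
      ext1
      rw [h1, h, map_one, Units.val_one]
    · right
      ext1
      rw [h1, h, map_neg, map_one, Units.val_neg, Units.val_one]
  rcases h2 with h | h
  · rw [h]
    exact one_mem _
  · rw [h]
    refine ⟨?_, ?_⟩
    · rw [Units.val_neg, Units.val_one]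
      exact (IH p _).neg_mem (IH p _).one_mem
    · rw [inv_neg, inv_one, Units.val_neg, Units.val_one]
      exact (IH p _).neg_mem (IH p _).one_mem

/-- the rational solution is the product of an integral and an elementary matrix -/
theorem loc_split [Nonempty J] (hm : ∀ j, m j ≠ 1) (hyp : Hyp m σ)
    (Φ : Matrix (Nx m Y σ) (Co m Y) (MonoidAlgebra ℤ (Gp m)))
    (hrow : SameRow Φ (psi (uk ℤ m) Y σ))
    (g : (Matrix (Nx m Y σ) (Nx m Y σ) (MonoidAlgebra ℚ (Gp m)))ˣ)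
    (hg : Φ.map (zq m) = g.1 * psi (uk ℚ m) Y σ) (hd : DetOne g.1) :
    ∃ θ e : (Matrix (Nx m Y σ) (Nx m Y σ) 𝔓.B)ˣ, IntU 𝔓 θ ∧ e ∈ EE 𝔓.u Y σ ∧
      gB 𝔓 g = θ * e := by
  obtain ⟨θ₀, hθ₀, hΦ⟩ := factL 𝔓 hm Φ hrow
  have h0 : Φ.map (eZ 𝔓) = (Φ.map (zq m)).map (eQ 𝔓) := by
    ext i j
    simp only [Matrix.map_apply]
    rw [eQ_zq]
  have h1 : (gB 𝔓 g).1 * psi 𝔓.u Y σ = θ₀.1 * psi 𝔓.u Y σ := by
    rw [← hΦ, h0, hg, Matrix.map_mul, gB_val, psi_map (eQ 𝔓) (uk ℚ m) 𝔓.u (eQ_u 𝔓)]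
  have h2 : θ₀⁻¹ * gB 𝔓 g ∈ SS 𝔓.u Y σ := by
    change (θ₀⁻¹ * gB 𝔓 g).1 * psi 𝔓.u Y σ = psi 𝔓.u Y σ
    rw [Units.val_mul, Matrix.mul_assoc, h1, ← Matrix.mul_assoc, ← Units.val_mul,
      inv_mul_cancel, Units.val_one, Matrix.one_mul]
  obtain ⟨u, d, e, hu, hu', hd', he, hh⟩ := local_fac 𝔓 hm hyp h2
  have h3 : d = u⁻¹ * θ₀⁻¹ * gB 𝔓 g * e⁻¹ := by
    have : θ₀⁻¹ * gB 𝔓 g = u * d * e := hh
    rw [mul_assoc u⁻¹, this]
    group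
  have he1 : ∀ t, H5_dt 𝔓 t e = 1 := by
    intro t
    ext1
    rw [H5_dt_val, Units.val_one]
    exact det_EE 𝔓.u (𝔓.pr (rt t)) he
  have h4 : ∀ t, H5_dt 𝔓 t d ∈ H5_UI p (Cy m t) := by
    intro t
    rw [h3, map_mul, map_mul, map_mul, map_inv, map_inv, map_inv, he1 t]
    exact mul_mem (mul_mem (mul_mem (inv_mem (H5_dt_IntU 𝔓 t hu')) (inv_mem (H5_dt_IntU 𝔓 t hθ₀)))
      (H5_dt_gB 𝔓 t g hd)) (inv_mem (one_mem _))
  obtain ⟨u', e', hu1, hu2, he', hde⟩ := DD_split 𝔓 hd' (fun t => by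
    have := h4 t
    refine ⟨this.1, ?_⟩
    rw [← H5_dt_inv]
    exact this.2)
  refine ⟨θ₀ * u * u', e' * e, E2_IntU_mul 𝔓 (E2_IntU_mul 𝔓 hθ₀ hu') hu2, mul_mem he' he, ?_⟩
  have h5 : gB 𝔓 g = θ₀ * (θ₀⁻¹ * gB 𝔓 g) := by group
  rw [h5, hh, hde]
  group

end FP
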