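import Pool.Agent.Lib.MP_2d4659_gt.FP.H3
import Pool.Agent.Lib.MP_2d4659_gt.FP.H4
import Pool.Agent.Lib.MP_2d4659_gt.FP.H5a
import Pool.Agent.Lib.MP_2d4659_gt.FP.H5b

/-! # The global solution -/

set_option autoImplicit false

namespace FP

variable {J : Type} [DecidableEq J] [Fintype J] {m : J → ℕ} {Y σ : Type} [Fintype Y] [DecidableEq Y]
  [Fintype σ] [DecidableEq σ]

/-- `DetOne` is preserved by elementary matrices -/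
lemma DetOne_mul {g γ : (Matrix (Nx m Y σ) (Nx m Y σ) (MonoidAlgebra ℚ (Gp m)))ˣ}
    (hg : DetOne g.1) (hγ : γ ∈ EE (uk ℚ m) Y σ) : DetOne (g * γ).1 := by
  intro t
  have h1 : ((g * γ).1.map (MonoidAlgebra.mapDomainRingHom ℚ (rt t))).det =
      (g.1.map (MonoidAlgebra.mapDomainRingHom ℚ (rt t))).det := by
    rw [Units.val_mul, Matrix.map_mul, Matrix.det_mul,
      det_EE (uk ℚ m) (MonoidAlgebra.mapDomainRingHom ℚ (rt t)) hγ, mul_one]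
  rw [h1]
  exact hg t

lemma IntU_gB_iff {n : Type} [Fintype n] [DecidableEq n] {p : ℕ} [Fact p.Prime]
    (𝔓 : PGR p (Gp m)) (M : (Matrix n n (MonoidAlgebra ℚ (Gp m)))ˣ) :
    IntU 𝔓 (gB 𝔓 M) ↔ (∀ a b h, ‖(((M.1 a b).coeff h : ℚ) : ℚ_[p])‖ ≤ 1) ∧
      ∀ a b h, ‖(((M⁻¹.1 a b).coeff h : ℚ) : ℚ_[p])‖ ≤ 1 := by
  unfold IntU PGR.In
  rw [gB_inv_val, gB_val]
  simp only [Matrix.map_apply, cf_eQ]

lemma IntU_inv {n : Type} [Fintype n] [DecidableEq n] {p : ℕ} [Fact p.Prime]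
    (𝔓 : PGR p (Gp m)) {M : (Matrix n n 𝔓.B)ˣ} (hM : IntU 𝔓 M) : IntU 𝔓 M⁻¹ :=
  ⟨hM.2, by rw [inv_inv]; exact hM.1⟩

/-- one prime -/
theorem step_p [Nonempty J] (hm : ∀ j, m j ≠ 1) (hyp : Hyp m σ)
    (Φ : Matrix (Nx m Y σ) (Co m Y) (MonoidAlgebra ℤ (Gp m)))
    (hrow : SameRow Φ (psi (uk ℤ m) Y σ))
    (g : (Matrix (Nx m Y σ) (Nx m Y σ) (MonoidAlgebra ℚ (Gp m)))ˣ)
    (hg : Φ.map (zq m) = g.1 * psi (uk ℚ m) Y σ) (hd : DetOne g.1) (p : ℕ) [Fact p.Prime] :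
    ∃ γ ∈ EE (uk ℚ m) Y σ, (∀ 𝔓 : PGR p (Gp m), IntU 𝔓 (gB 𝔓 (g * γ))) ∧
      ∀ (q : ℕ) [Fact q.Prime] (𝔔 : PGR q (Gp m)), q ≠ p → IntU 𝔔 (gB 𝔔 γ) := by
  obtain ⟨𝔓⟩ := exists_PGR p (Gp m)
  obtain ⟨θ, e, hθ, he, hge⟩ := loc_split 𝔓 hm hyp Φ hrow g hg hd
  obtain ⟨γ, hγ, hq, hs⟩ := EE_approx 𝔓 he (ε := 1 / 2) (by norm_num)
  have hlt : ∀ a b h, ‖𝔓.cf h ((-((e * (gB 𝔓 γ)⁻¹).1 - 1) : Matrix _ _ 𝔓.B) a b)‖ < 1 := by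
    intro a b h
    rw [Matrix.neg_apply, map_neg, norm_neg, Matrix.sub_apply]
    exact (hs a b h).trans_lt (by norm_num)
  obtain ⟨N, hN, h1, h2⟩ := 𝔓.neumann _ _ hlt
  rw [sub_neg_eq_add, add_sub_cancel] at h1 h2
  have hIn1 : ∀ a b, 𝔓.In ((1 : Matrix (Nx m Y σ) (Nx m Y σ) 𝔓.B) a b) := by
    intro a b
    rw [Matrix.one_apply]
    split_ifs
    · have := 𝔓.In_u 1
      rwa [map_one] at this
    · intro g
      rw [map_zero, norm_zero]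
      exact zero_le_one
  have hE : IntU 𝔓 (e * (gB 𝔓 γ)⁻¹) := by
    refine ⟨fun a b => ?_, fun a b => ?_⟩
    · have h3 : (e * (gB 𝔓 γ)⁻¹).1 a b = (1 : Matrix (Nx m Y σ) (Nx m Y σ) 𝔓.B) a b +
          ((e * (gB 𝔓 γ)⁻¹).1 a b - (1 : Matrix (Nx m Y σ) (Nx m Y σ) 𝔓.B) a b) := by abel
      rw [h3]
      exact PGR.Le.add 𝔓 (hIn1 a b) (fun h => (hs a b h).trans (by norm_num))
    · have h3 : (e * (gB 𝔓 γ)⁻¹)⁻¹.1 = 1 + N := by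
        exact (Units.inv_eq_of_mul_eq_one_right (u := e * (gB 𝔓 γ)⁻¹) h1)
      rw [h3, Matrix.add_apply]
      exact PGR.Le.add 𝔓 (hIn1 a b) (fun h => (hN a b h).le)
  refine ⟨γ⁻¹, inv_mem hγ, ?_, ?_⟩
  · have h4 : IntU 𝔓 (gB 𝔓 (g * γ⁻¹)) := by
      rw [map_mul, map_inv, hge, mul_assoc]
      exact E2_IntU_mul 𝔓 hθ hE
    intro 𝔓'
    rw [IntU_gB_iff] at h4 ⊢
    exact h4
  · intro q _ 𝔔 hqp
    rw [map_inv]
    exact IntU_inv 𝔔 (hq q 𝔔 hqp)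

theorem core_aux [Nonempty J] (hm : ∀ j, m j ≠ 1) (hyp : Hyp m σ)
    (Φ : Matrix (Nx m Y σ) (Co m Y) (MonoidAlgebra ℤ (Gp m)))
    (hrow : SameRow Φ (psi (uk ℤ m) Y σ)) (B : Finset ℕ) :
    ∀ g : (Matrix (Nx m Y σ) (Nx m Y σ) (MonoidAlgebra ℚ (Gp m)))ˣ,
      Φ.map (zq m) = g.1 * psi (uk ℚ m) Y σ → DetOne g.1 →
      (∀ (q : ℕ) [Fact q.Prime] (𝔔 : PGR q (Gp m)), q ∉ B → IntU 𝔔 (gB 𝔔 g)) →
      ∃ g' : (Matrix (Nx m Y σ) (Nx m Y σ) (MonoidAlgebra ℚ (Gp m)))ˣ,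
        Φ.map (zq m) = g'.1 * psi (uk ℚ m) Y σ ∧
        ∀ (q : ℕ) [Fact q.Prime] (𝔔 : PGR q (Gp m)), IntU 𝔔 (gB 𝔔 g') := by
  induction B using Finset.induction_on with
  | empty =>
    intro g hg _ hB
    exact ⟨g, hg, fun q _ 𝔔 => hB q 𝔔 (Finset.notMem_empty q)⟩
  | insert p B _ ih =>
    intro g hg hd hB
    by_cases hp : p.Prime
    · have : Fact p.Prime := ⟨hp⟩
      obtain ⟨γ, hγ, h1, h2⟩ := step_p hm hyp Φ hrow g hg hd p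
      refine ih (g * γ) ?_ (DetOne_mul hd hγ) ?_
      · have h3 : γ.1 * psi (uk ℚ m) Y σ = psi (uk ℚ m) Y σ := EE_le_SS (uk ℚ m) hγ
        rw [Units.val_mul, Matrix.mul_assoc, h3, hg]
      · intro q hq 𝔔 hqB
        by_cases hqp : q = p
        · subst hqp
          exact h1 𝔔
        · rw [map_mul]
          exact E2_IntU_mul 𝔔 (hB q 𝔔 (by
            rw [Finset.mem_insert]
            exact fun h => h.elim hqp hqB)) (h2 q 𝔔 hqp)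
    · refine ih g hg hd fun q hq 𝔔 hqB => hB q 𝔔 ?_
      rw [Finset.mem_insert]
      rintro (h | h)
      · subst h
        exact hp hq.out
      · exact hqB h

/-- **Global solution** -/
theorem core [Nonempty J] (hm : ∀ j, m j ≠ 1) (hyp : Hyp m σ)
    (Φ : Matrix (Nx m Y σ) (Co m Y) (MonoidAlgebra ℤ (Gp m)))
    (hrow : SameRow Φ (psi (uk ℤ m) Y σ)) :
    ∃ h : (Matrix (Nx m Y σ) (Nx m Y σ) (MonoidAlgebra ℤ (Gp m)))ˣ,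
      Φ = h.1 * psi (uk ℤ m) Y σ := by
  have h0 : (psi (uk ℤ m) Y σ).map (zq m) = psi (uk ℚ m) Y σ :=
    psi_map (zq m) (uk ℤ m) (uk ℚ m) zq_u
  obtain ⟨g₀, hg₀⟩ := fact1 (k := ℚ) (σ := σ) hm (Φ.map (zq m)) (by
    rw [← h0]
    exact SameRow_map (zq m) hrow)
  obtain ⟨g₁, hg₁, hd⟩ := exists_norm Φ hrow g₀ hg₀
  obtain ⟨B, hB⟩ := exists_bad g₁
  obtain ⟨g, hg, hq⟩ := core_aux hm hyp Φ hrow B g₁ hg₁ hd (fun q _ 𝔔 h => hB q 𝔔 h)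
  obtain ⟨h, hh⟩ := int_of_all g hq
  refine ⟨h, ?_⟩
  have h1 : Φ.map (zq m) = (h.1 * psi (uk ℤ m) Y σ).map (zq m) := by
    rw [Matrix.map_mul, hh, h0, hg]
  refine Matrix.ext fun i j => zq_inj ?_
  have := congrFun (congrFun h1 i) j
  simpa only [Matrix.map_apply] using this

end FP
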