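import Pool.Agent.Lib.MP_2d4659_gt.FP.CDefs
import Pool.Agent.Lib.MP_2d4659_gt.FP.FinDefs

/-!
# The kernel of the boundary map

(1) `fox`: for every `w` in `G`, `w - 1 = ∑_j c_j (a_j - 1)` (induction on `w`; the free product is generated
by the `a_j`).

(2) `dvr`: there is an additive map `δ_j` of `ℤ[G]` with `δ_j (x (a_l - 1)) = x (a_l - 1)` for `l = j` and `0` for
`l ≠ j`: let `F : G → M₂(ℤ[G])` be the homomorphism with `F(a_l) = [[a_l, 0], [0, 1]]` for `l ≠ j`,
`F(a_j) = [[a_j, a_j - 1], [0, 1]]` (on the factor `j` it is `h ↦ [[h, h - 1], [0, 1]]`), and extend it to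
the group ring by `MonoidAlgebra.lift`; `δ_j` is the entry `(0, 1)`.  The entry `(0, 0)` is the identity, the
entry `(1, 0)` is zero and the entry `(1, 1)` is the augmentation.
-/

set_option autoImplicit false

namespace FP

variable {J : Type} [DecidableEq J] [Fintype J] {m : J → ℕ}

/-- the elements for which the statement `fox` holds -/
noncomputable def H6_sub (m : J → ℕ) : Subgroup (Gp m) where
  carrier := {w | ∃ c : J → RG ℤ m, uk ℤ m w - 1 = ∑ j, c j * (uk ℤ m (gen m j) - 1)}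
  one_mem' := ⟨0, by rw [map_one, sub_self]; simp⟩
  mul_mem' := by
    rintro a b ⟨c, hc⟩ ⟨c', hc'⟩
    refine ⟨fun j => c j + uk ℤ m a * c' j, ?_⟩
    have h1 : ∑ j, (c j + uk ℤ m a * c' j) * (uk ℤ m (gen m j) - 1) =
        (uk ℤ m a - 1) + uk ℤ m a * (uk ℤ m b - 1) := by
      rw [hc, hc', Finset.mul_sum, ← Finset.sum_add_distrib]
      exact Finset.sum_congr rfl fun j _ => by rw [add_mul, mul_assoc]
    rw [h1, map_mul, mul_sub, mul_one]
    abel
  inv_mem' := by
    rintro a ⟨c, hc⟩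
    refine ⟨fun j => - (uk ℤ m a⁻¹ * c j), ?_⟩
    have h1 : ∑ j, (- (uk ℤ m a⁻¹ * c j)) * (uk ℤ m (gen m j) - 1) =
        - (uk ℤ m a⁻¹ * (uk ℤ m a - 1)) := by
      rw [hc, Finset.mul_sum, ← Finset.sum_neg_distrib]
      exact Finset.sum_congr rfl fun j _ => by rw [neg_mul, mul_assoc]
    rw [h1, mul_sub, mul_one, ← map_mul, inv_mul_cancel, map_one]
    abel

lemma H6_gen_mem (j : J) : gen m j ∈ H6_sub m := by
  refine ⟨fun l => if l = j then 1 else 0, ?_⟩
  rw [Finset.sum_eq_single j]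
  · change _ = (if j = j then 1 else 0) * _
    rw [if_pos rfl, one_mul]
  · intro b _ hb
    change (if b = j then 1 else 0) * _ = _
    rw [if_neg hb, zero_mul]
  · intro h
    exact absurd (Finset.mem_univ j) h

lemma H6_of_mem (j : J) (a : Multiplicative (ZMod (m j))) :
    (Monoid.CoprodI.of (M := fun j => Multiplicative (ZMod (m j))) (i := j) a : Gp m) ∈ H6_sub m := by
  obtain ⟨k, hk⟩ := ZMod.intCast_surjective (Multiplicative.toAdd a)
  have h1 : a = (Multiplicative.ofAdd (1 : ZMod (m j))) ^ k := by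
    rw [← ofAdd_zsmul, zsmul_one, hk, ofAdd_toAdd]
  have h2 : (Monoid.CoprodI.of (M := fun j => Multiplicative (ZMod (m j))) (i := j) a : Gp m) =
      gen m j ^ k := by
    rw [h1, map_zpow]
    rfl
  rw [h2]
  exact Subgroup.zpow_mem _ (H6_gen_mem j) k

theorem fox (w : Gp m) : ∃ c : J → RG ℤ m,
    uk ℤ m w - 1 = ∑ j, c j * (uk ℤ m (gen m j) - 1) := by
  have h : w ∈ H6_sub m := by
    induction w using Monoid.CoprodI.induction_on with
    | one => exact Subgroup.one_mem _
    | of i a => exact H6_of_mem i a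
    | mul x y hx hy => exact Subgroup.mul_mem _ hx hy
  exact h

/-- the homomorphism on the factor `l` -/
noncomputable def H6_F (m : J → ℕ) (j l : J) :
    Multiplicative (ZMod (m l)) →* Matrix (Fin 2) (Fin 2) (RG ℤ m) where
  toFun h := !![uk ℤ m (Monoid.CoprodI.of (M := fun j => Multiplicative (ZMod (m j))) (i := l) h),
    if l = j then
      uk ℤ m (Monoid.CoprodI.of (M := fun j => Multiplicative (ZMod (m j))) (i := l) h) - 1 else 0;
    0, 1]
  map_one' := by
    rw [map_one, map_one, sub_self, ite_self, Matrix.one_fin_two]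
  map_mul' a b := by
    rw [map_mul, map_mul, Matrix.mul_fin_two]
    split_ifs
    · simp [mul_sub]
    · simp

/-- the homomorphism to the matrices -/
noncomputable def H6_G (m : J → ℕ) (j : J) : Gp m →* Matrix (Fin 2) (Fin 2) (RG ℤ m) :=
  Monoid.CoprodI.lift (H6_F m j)

omit [Fintype J] in
lemma H6_G_gen (j l : J) : H6_G m j (gen m l) =
    !![uk ℤ m (gen m l), if l = j then uk ℤ m (gen m l) - 1 else 0; 0, 1] := by
  unfold H6_G gen
  rw [Monoid.CoprodI.lift_of]
  rfl

omit [Fintype J] in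
lemma H6_G_entries (j : J) (w : Gp m) :
    H6_G m j w 0 0 = uk ℤ m w ∧ H6_G m j w 1 0 = 0 ∧ H6_G m j w 1 1 = 1 := by
  induction w using Monoid.CoprodI.induction_on with
  | one => rw [map_one, map_one]; simp
  | of i a =>
    unfold H6_G
    rw [Monoid.CoprodI.lift_of]
    exact ⟨rfl, rfl, rfl⟩
  | mul x y hx hy =>
    obtain ⟨h1, h2, h3⟩ := hx
    obtain ⟨h4, h5, h6⟩ := hy
    rw [map_mul, map_mul]
    simp only [Matrix.mul_apply, Fin.sum_univ_two, h1, h2, h3, h4, h5, h6]
    simp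

/-- the algebra homomorphism to the matrices -/
noncomputable def H6_A (m : J → ℕ) (j : J) : RG ℤ m →ₐ[ℤ] Matrix (Fin 2) (Fin 2) (RG ℤ m) :=
  MonoidAlgebra.lift ℤ _ _ (H6_G m j)

omit [Fintype J] in
lemma H6_A_of (j : J) (w : Gp m) : H6_A m j (uk ℤ m w) = H6_G m j w := by
  unfold H6_A
  rw [MonoidAlgebra.lift_of]

omit [Fintype J] in
lemma H6_A_00 (j : J) (x : RG ℤ m) : H6_A m j x 0 0 = x := by
  induction x using MonoidAlgebra.induction_on with
  | of w => rw [H6_A_of, (H6_G_entries j w).1]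
  | add x y hx hy => rw [map_add, Matrix.add_apply, hx, hy]
  | smul r x hx => rw [map_smul, Matrix.smul_apply, hx]

theorem dvr (j : J) : ∃ δ : RG ℤ m →+ RG ℤ m, ∀ (x : RG ℤ m) (l : J),
    δ (x * (uk ℤ m (gen m l) - 1)) = if l = j then x * (uk ℤ m (gen m l) - 1) else 0 := by
  refine ⟨{ toFun := fun x => H6_A m j x 0 1
            map_zero' := by rw [map_zero]; rfl
            map_add' := fun x y => by rw [map_add]; rfl }, ?_⟩
  intro x l
  change H6_A m j (x * (uk ℤ m (gen m l) - 1)) 0 1 = _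
  rw [map_mul, map_sub, H6_A_of, H6_G_gen, map_one]
  rw [Matrix.mul_apply, Fin.sum_univ_two, H6_A_00]
  split_ifs <;> simp
end FP
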