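import Pool.Agent.Lib.MP_2d4659_gt.FP.CDefs
import Pool.Agent.Lib.MP_2d4659_gt.FP.FinDefs

/-!
# Annihilators of `a_j - 1`

If `x (a_j - 1) = 0` then `x = 0` for an infinite factor (compare the coefficients along the infinite
coset `g a_j^ℤ`), and `x = y N_j` for a finite factor (`x` is constant on the cosets `g C_j`).
-/

set_option autoImplicit false

namespace FP

variable {J : Type} [DecidableEq J] [Fintype J] {m : J → ℕ}

omit [DecidableEq J] [Fintype J] in
lemma H6a_mul (x : RG ℤ m) (w g : Gp m) : (x * uk ℤ m w).coeff g = x.coeff (g * w⁻¹) := by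
  change (x * MonoidAlgebra.single w 1).coeff g = _
  rw [MonoidAlgebra.coeff_mul_single_apply, mul_one]

omit [DecidableEq J] [Fintype J] in
lemma H6a_shift {j : J} {x : RG ℤ m} (h : x * (uk ℤ m (gen m j) - 1) = 0) (g : Gp m) (c : ℕ) :
    x.coeff (g * (gen m j ^ c)⁻¹) = x.coeff g := by
  have h1 : x * uk ℤ m (gen m j) = x := by
    rw [mul_sub, mul_one, sub_eq_zero] at h
    exact h
  have h2 : ∀ g, x.coeff (g * (gen m j)⁻¹) = x.coeff g := fun g => by
    rw [← H6a_mul, h1]
  induction c with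
  | zero => rw [pow_zero, inv_one, mul_one]
  | succ c ih =>
    rw [pow_succ, ← ih, ← h2 (g * (gen m j ^ c)⁻¹)]
    congr 1
    rw [← pow_succ, pow_succ', mul_inv_rev, mul_assoc]

omit [DecidableEq J] [Fintype J] in
lemma H6a_pow_inj {j : J} (hj : m j = 0) {c c' : ℕ} (h : gen m j ^ c = gen m j ^ c') : c = c' := by
  rw [Gdefs_gen_pow, Gdefs_gen_pow] at h
  have h1 := Monoid.CoprodI.of_injective j h
  have h2 : (c : ZMod (m j)) = (c' : ZMod (m j)) := Multiplicative.ofAdd.injective h1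
  rw [ZMod.natCast_eq_natCast_iff, hj] at h2
  exact Nat.modEq_zero_iff.1 h2

omit [DecidableEq J] [Fintype J] in
theorem ann_inf {j : J} (hj : m j = 0) {x : RG ℤ m} (h : x * (uk ℤ m (gen m j) - 1) = 0) : x = 0 := by
  by_contra hx
  have h1 : ∃ g, x.coeff g ≠ 0 := by
    by_contra h2
    push Not at h2
    apply hx
    apply MonoidAlgebra.coeff_injective
    ext g
    rw [h2 g]
    rfl
  obtain ⟨g, hg⟩ := h1
  have h3 : Set.InjOn (fun c : ℕ => g * (gen m j ^ c)⁻¹) Set.univ := by
    intro c _ c' _ hc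
    have h4 : gen m j ^ c = gen m j ^ c' := by
      have h5 : g * (gen m j ^ c)⁻¹ = g * (gen m j ^ c')⁻¹ := hc
      exact inv_injective (mul_left_cancel h5)
    exact H6a_pow_inj hj h4
  have h6 : Set.Infinite ((fun c : ℕ => g * (gen m j ^ c)⁻¹) '' Set.univ) :=
    Set.Infinite.image h3 Set.infinite_univ
  apply h6
  refine Set.Finite.subset x.coeff.support.finite_toSet ?_
  rintro _ ⟨c, -, rfl⟩
  rw [Finset.mem_coe, Finsupp.mem_support_iff]
  change x.coeff (g * (gen m j ^ c)⁻¹) ≠ 0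
  rw [H6a_shift h]
  exact hg

omit [DecidableEq J] [Fintype J] in
theorem ann_fin (i : FJ m) {x : RG ℤ m} (h : x * (uk ℤ m (gen m i.1) - 1) = 0) :
    ∃ y, x = y * NB (uk ℤ m) i := by
  classical
  let r : Gp m → Gp m := fun g => (QuotientGroup.mk g : Gp m ⧸ HT m (some i.1)).out
  have hr : ∀ g, ∃ c < m i.1, g = r g * gen m i.1 ^ c := fun g => by
    have h1 : (r g)⁻¹ * g ∈ HT m (some i.1) := by
      rw [← QuotientGroup.eq]
      exact QuotientGroup.out_eq' _
    rw [mem_HT_some i.2] at h1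
    obtain ⟨c, hc, h2⟩ := h1
    exact ⟨c, hc, by rw [← h2, mul_inv_cancel_left]⟩
  have hrr : ∀ g (c : ℕ), r (g * (gen m i.1 ^ c)⁻¹) = r g := fun g c => by
    change (QuotientGroup.mk _ : Gp m ⧸ HT m (some i.1)).out = (QuotientGroup.mk _ : Gp m ⧸ HT m (some i.1)).out
    congr 1
    rw [QuotientGroup.eq, mul_inv_rev, inv_inv, mul_assoc, inv_mul_cancel, mul_one]
    have h3 : gen m i.1 ∈ HT m (some i.1) := by
      have h4 : (Monoid.CoprodI.of (M := fun j => Multiplicative (ZMod (m j))) (i := i.1)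
        (Multiplicative.ofAdd 1)) ∈ HT m (some i.1) := by
        change _ ∈ HJ m i.1
        rw [Gdefs_HJ_ne i.2]
        exact ⟨_, rfl⟩
      exact h4
    exact Subgroup.pow_mem _ h3 c
  refine ⟨MonoidAlgebra.ofCoeff (x.coeff.filter (fun g => r g = g)), ?_⟩
  apply MonoidAlgebra.coeff_injective
  ext g
  have h5 : (MonoidAlgebra.ofCoeff (x.coeff.filter (fun g => r g = g)) * NB (uk ℤ m) i).coeff g =
      ∑ c ∈ Finset.range (m i.1), if r g = g * (gen m i.1 ^ c)⁻¹ then x.coeff g else 0 := by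
    unfold NB
    rw [Finset.mul_sum, MonoidAlgebra.coeff_sum, Finsupp.finsetSum_apply]
    refine Finset.sum_congr rfl fun c _ => ?_
    rw [← map_pow, H6a_mul, MonoidAlgebra.coeff_ofCoeff, Finsupp.filter_apply, hrr, H6a_shift h]
  rw [h5]
  obtain ⟨c, hc, hg⟩ := hr g
  rw [Finset.sum_eq_single c]
  · rw [if_pos]
    exact eq_mul_inv_of_mul_eq hg.symm
  · intro c' hc' hne
    rw [if_neg]
    intro h6
    apply hne
    apply gen_pow_inj i.2 (Finset.mem_range.1 hc') hc
    have h7 : g = r g * gen m i.1 ^ c' := by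
      rw [h6, inv_mul_cancel_right]
    exact mul_left_cancel (h7.symm.trans hg)
  · intro h8
    exact absurd (Finset.mem_range.2 hc) h8

end FP
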