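import Pool.Agent.Lib.MP_2d4659_gt.FP.E1
import Pool.Agent.Lib.MP_2d4659_gt.FP.H6
import Pool.Agent.Lib.MP_2d4659_gt.FP.H6a

/-!
# The kernel of the boundary map: normal form

With `c` from `fox` for the `w y`, `T v` has the entries `v_i + ∑ y, v_y c_{y i}` (`i` a finite factor) and `v_y`.
If `bd1 v = 0` then `∑_j (v_j + ∑ y, v_y c_{y j}) (a_j - 1) = 0`, so all terms are zero (`dvr`), and `ann_inf`,
`ann_fin` apply.
-/

set_option autoImplicit false

namespace FP

variable {J : Type} [DecidableEq J] [Fintype J] {m : J → ℕ} {Y : Type} [Fintype Y] [DecidableEq Y]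

/-- the corrected coefficient of the generator `j` -/
noncomputable def H6bX (c : Y → J → RG ℤ m) (v : J ⊕ Y → RG ℤ m) (j : J) : RG ℤ m :=
  v (Sum.inl j) + ∑ y, v (Sum.inr y) * c y j

omit [DecidableEq J] [DecidableEq Y] in
lemma H6b_bd1 (w : Y → Gp m) (c : Y → J → RG ℤ m)
    (hc : ∀ y, uk ℤ m (w y) - 1 = ∑ j, c y j * (uk ℤ m (gen m j) - 1)) (v : J ⊕ Y → RG ℤ m) :
    bd1 ℤ (gX m w) v = ∑ j, H6bX c v j * (uk ℤ m (gen m j) - 1) := by
  have h1 : bd1 ℤ (gX m w) v = ∑ j, v (Sum.inl j) * (uk ℤ m (gen m j) - 1) +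
      ∑ y, v (Sum.inr y) * (uk ℤ m (w y) - 1) := by
    change ∑ x, v x * (MonoidAlgebra.single (gX m w x) 1 - 1) = _
    rw [Fintype.sum_sum_type]
    rfl
  rw [h1]
  have h2 : ∀ j, H6bX c v j * (uk ℤ m (gen m j) - 1) = v (Sum.inl j) * (uk ℤ m (gen m j) - 1) +
      ∑ y, v (Sum.inr y) * (c y j * (uk ℤ m (gen m j) - 1)) := by
    intro j
    unfold H6bX
    rw [add_mul, Finset.sum_mul]
    congr 1
    exact Finset.sum_congr rfl fun y _ => mul_assoc _ _ _
  rw [Finset.sum_congr rfl fun j _ => h2 j, Finset.sum_add_distrib]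
  congr 1
  rw [Finset.sum_comm]
  refine Finset.sum_congr rfl fun y _ => ?_
  rw [hc y, Finset.mul_sum]

lemma H6b_zero {x : J → RG ℤ m} (h : ∑ j, x j * (uk ℤ m (gen m j) - 1) = 0) (j : J) :
    x j * (uk ℤ m (gen m j) - 1) = 0 := by
  obtain ⟨δ, hδ⟩ := dvr (m := m) j
  have h1 := congrArg δ h
  rw [map_sum, map_zero, Finset.sum_congr rfl fun l _ => hδ (x l) l] at h1
  rw [Finset.sum_ite_eq' Finset.univ j, if_pos (Finset.mem_univ j)] at h1
  exact h1

theorem exists_T (w : Y → Gp m) :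
    ∃ T : (J ⊕ Y → RG ℤ m) →ₗ[RG ℤ m] (Co m Y → RG ℤ m),
      (∀ v, bd1 ℤ (gX m w) v = 0 → T v = 0 → v = 0) ∧
      (∀ v, bd1 ℤ (gX m w) v = 0 → ∃ y : Co m Y → RG ℤ m, T v = fun c => y c * dg (uk ℤ m) Y c) ∧
      ∀ y : Co m Y → RG ℤ m, ∃ v, bd1 ℤ (gX m w) v = 0 ∧
        T v = fun c => y c * dg (uk ℤ m) Y c := by
  choose c hc using fun y => fox (m := m) (w y)
  let T : (J ⊕ Y → RG ℤ m) →ₗ[RG ℤ m] (Co m Y → RG ℤ m) :=
    { toFun := fun v => Sum.elim (fun i : FJ m => H6bX c v i.1) (fun y => v (Sum.inr y))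
      map_add' := by
        intro v v'
        ext1 r
        rcases r with i | y
        · change H6bX c (v + v') i.1 = H6bX c v i.1 + H6bX c v' i.1
          unfold H6bX
          simp only [Pi.add_apply, add_mul, Finset.sum_add_distrib]
          abel
        · rfl
      map_smul' := by
        intro a v
        ext1 r
        rcases r with i | y
        · change H6bX c (a • v) i.1 = a * H6bX c v i.1
          unfold H6bX
          simp only [Pi.smul_apply, smul_eq_mul, mul_add, Finset.mul_sum, mul_assoc]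
        · rfl }
  have hTl : ∀ v (i : FJ m), T v (Sum.inl i) = H6bX c v i.1 := fun v i => rfl
  have hTr : ∀ v (y : Y), T v (Sum.inr y) = v (Sum.inr y) := fun v y => rfl
  have hker : ∀ v, bd1 ℤ (gX m w) v = 0 → ∀ j, H6bX c v j * (uk ℤ m (gen m j) - 1) = 0 := by
    intro v hv j
    rw [H6b_bd1 w c hc] at hv
    exact H6b_zero hv j
  refine ⟨T, ?_, ?_, ?_⟩
  · intro v hv hT
    have hr : ∀ y, v (Sum.inr y) = 0 := fun y => by
      rw [← hTr v y, hT]
      rfl
    have hX : ∀ j, H6bX c v j = v (Sum.inl j) := by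
      intro j
      unfold H6bX
      rw [Finset.sum_eq_zero fun y _ => by rw [hr y, zero_mul], add_zero]
    ext1 r
    rcases r with j | y
    · rw [← hX j]
      by_cases hj : m j = 0
      · exact ann_inf hj (hker v hv j)
      · have := hTl v ⟨j, hj⟩
        rw [hT] at this
        exact this.symm
    · exact hr y
  · intro v hv
    choose y hy using fun i : FJ m => ann_fin i (hker v hv i.1)
    refine ⟨Sum.elim y (fun y => v (Sum.inr y)), ?_⟩
    ext1 r
    rcases r with i | y'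
    · rw [hTl]
      exact hy i
    · rw [hTr]
      exact (mul_one _).symm
  · intro y
    let v : J ⊕ Y → RG ℤ m := Sum.elim
      (fun j => (if hj : m j ≠ 0 then y (Sum.inl ⟨j, hj⟩) * NB (uk ℤ m) ⟨j, hj⟩ else 0) -
        ∑ y', y (Sum.inr y') * c y' j) (fun y' => y (Sum.inr y'))
    have hX : ∀ j, H6bX c v j =
        if hj : m j ≠ 0 then y (Sum.inl ⟨j, hj⟩) * NB (uk ℤ m) ⟨j, hj⟩ else 0 := by
      intro j
      exact sub_add_cancel _ _
    refine ⟨v, ?_, ?_⟩
    · rw [H6b_bd1 w c hc]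
      refine Finset.sum_eq_zero fun j _ => ?_
      rw [hX]
      split_ifs with hj
      · have h := E1_NB_mul_sub (uk ℤ m) (⟨j, hj⟩ : FJ m)
        rw [mul_assoc, h, mul_zero]
      · rw [zero_mul]
    · ext1 r
      rcases r with i | y'
      · rw [hTl, hX, dif_pos i.2]
        rfl
      · rw [hTr]
        exact (mul_one _).symm

end FP
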