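import Pool.Agent.Lib.MP_2d4659_gt.FP.CDefs
import Pool.Agent.Lib.MP_2d4659_gt.FP.FinDefs

/-! # The number of rows -/

set_option autoImplicit false

namespace FP

variable {J : Type} [DecidableEq J] [Fintype J] {m : J → ℕ} {Y : Type} [Fintype Y] [DecidableEq Y]

/-- the augmentation with values in the rationals -/
noncomputable def H6c_eps (m : J → ℕ) : RG ℤ m →+* ℚ :=
  (MonoidAlgebra.lift ℤ ℚ (Gp m) (1 : Gp m →* ℚ)).toRingHom

omit [DecidableEq J] [Fintype J] in
lemma H6c_eps_uk (g : Gp m) : H6c_eps m (uk ℤ m g) = 1 := by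
  unfold H6c_eps
  simp [uk]

omit [DecidableEq J] [Fintype J] [Fintype Y] [DecidableEq Y] in
lemma H6c_dg_ne (i : Co m Y) : H6c_eps m (dg (uk ℤ m) Y i) ≠ 0 := by
  rcases i with i | y
  · change H6c_eps m (∑ c ∈ Finset.range (m i.1), uk ℤ m (gen m i.1) ^ c) ≠ 0
    rw [map_sum]
    have h : ∀ c ∈ Finset.range (m i.1), H6c_eps m (uk ℤ m (gen m i.1) ^ c) = 1 := by
      intro c _
      rw [map_pow, H6c_eps_uk, one_pow]
    rw [Finset.sum_congr rfl h, Finset.sum_const, Finset.card_range, nsmul_one]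
    exact_mod_cast i.2
  · change H6c_eps m 1 ≠ 0
    rw [map_one]
    exact one_ne_zero

/-- the number of rows is at least the number of columns: apply the augmentation to `X X' - 1`, which
annihilates `diag(dg)` on the right -/
theorem card_ge {n : Type} [Fintype n] (X : Matrix (Co m Y) n (RG ℤ m))
    (X' : Matrix n (Co m Y) (RG ℤ m))
    (h : X * X' * Matrix.diagonal (dg (uk ℤ m) Y) = Matrix.diagonal (dg (uk ℤ m) Y)) :
    Fintype.card (Co m Y) ≤ Fintype.card n := by
  classical
  set e := H6c_eps m with he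
  have h1 : X.map e * X'.map e * Matrix.diagonal (fun i => e (dg (uk ℤ m) Y i)) =
      Matrix.diagonal (fun i => e (dg (uk ℤ m) Y i)) := by
    have h2 := congrArg (fun M : Matrix (Co m Y) (Co m Y) (RG ℤ m) => M.map e) h
    simp only [Matrix.map_mul] at h2
    rw [Matrix.diagonal_map (map_zero e)] at h2
    exact h2
  have h3 : X.map e * X'.map e = 1 := by
    have h4 := congrArg (fun M => M * Matrix.diagonal (fun i => (e (dg (uk ℤ m) Y i))⁻¹)) h1
    simp only [Matrix.mul_assoc, Matrix.diagonal_mul_diagonal] at h4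
    have h5 : (Matrix.diagonal fun i : Co m Y => e (dg (uk ℤ m) Y i) * (e (dg (uk ℤ m) Y i))⁻¹) =
        (1 : Matrix (Co m Y) (Co m Y) ℚ) := by
      rw [← Matrix.diagonal_one]
      congr 1
      ext i
      exact mul_inv_cancel₀ (H6c_dg_ne i)
    rw [h5, Matrix.mul_one] at h4
    exact h4
  have h6 := Matrix.rank_mul_le_left (X.map e) (X'.map e)
  rw [h3, Matrix.rank_one] at h6
  exact h6.trans (Matrix.rank_le_card_width _)

end FP
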