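import Pool.Agent.Lib.MP_2d4659_gt.FP.H5
import Pool.Agent.Lib.MP_2d4659_gt.FP.H6b
import Pool.Agent.Lib.MP_2d4659_gt.FP.H6c

/-! # The final theorem -/

set_option autoImplicit false

namespace FP

variable {J : Type} [DecidableEq J] [Fintype J] {m : J → ℕ} {Y : Type} [Fintype Y] [DecidableEq Y]

lemma psi_fromRows (σ : Type) :
    psi (uk ℤ m) Y σ = Matrix.fromRows (Matrix.diagonal (dg (uk ℤ m) Y)) 0 := by
  refine Matrix.ext fun r c => ?_
  cases r with
  | inl r =>
    rw [Matrix.fromRows_apply_inl, Matrix.diagonal_apply]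
    change (if r = c then dg (uk ℤ m) Y c else 0) = _
    by_cases h : r = c
    · subst h; rfl
    · rw [if_neg h, if_neg h]
  | inr r =>
    rw [Matrix.fromRows_apply_inr]
    rfl

/-- the matrix of `T ∘ d` -/
theorem H7_matrix {n : Type} [Fintype n] [DecidableEq n] (w : Y → Gp m)
    (T : (J ⊕ Y → RG ℤ m) →ₗ[RG ℤ m] (Co m Y → RG ℤ m))
    (h2 : ∀ v, bd1 ℤ (gX m w) v = 0 → ∃ y : Co m Y → RG ℤ m, T v = fun c => y c * dg (uk ℤ m) Y c)
    (h3 : ∀ y : Co m Y → RG ℤ m, ∃ v, bd1 ℤ (gX m w) v = 0 ∧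
        T v = fun c => y c * dg (uk ℤ m) Y c)
    {d : (n → RG ℤ m) →ₗ[RG ℤ m] (J ⊕ Y → RG ℤ m)} (hd : IsBd2 ℤ (gX m w) d) :
    ∃ (Φ X' : Matrix n (Co m Y) (RG ℤ m)) (X : Matrix (Co m Y) n (RG ℤ m)),
      (∀ v, T (d v) = Matrix.vecMul v Φ) ∧ Φ = X' * Matrix.diagonal (dg (uk ℤ m) Y) ∧
        Matrix.diagonal (dg (uk ℤ m) Y) = X * Φ := by
  have hker : ∀ v, bd1 ℤ (gX m w) (d v) = 0 := by
    intro v
    have h : d v ∈ LinearMap.range d := ⟨v, rfl⟩
    rw [show LinearMap.range d = LinearMap.ker (bd1 ℤ (gX m w)) from hd] at h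
    exact h
  have hsurj : ∀ v, bd1 ℤ (gX m w) v = 0 → ∃ u, d u = v := by
    intro v hv
    have h : v ∈ LinearMap.ker (bd1 ℤ (gX m w)) := hv
    rw [← show LinearMap.range d = LinearMap.ker (bd1 ℤ (gX m w)) from hd] at h
    exact h
  have hΦ : ∀ v, T (d v) = Matrix.vecMul v (Matrix.of fun r c => T (d (Pi.single r 1)) c) := by
    intro v
    have h1 : v = ∑ r, v r • (Pi.single r 1 : n → RG ℤ m) := by
      ext1 r
      rw [Finset.sum_apply, Finset.sum_eq_single r]
      · simp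
      · intro b _ hb
        simp [hb.symm]
      · simp
    conv_lhs => rw [h1]
    rw [map_sum, map_sum]
    ext1 c
    rw [Finset.sum_apply]
    simp only [map_smul, Pi.smul_apply, smul_eq_mul, Matrix.vecMul, dotProduct, Matrix.of_apply]
  choose y hy using fun r : n => h2 (d (Pi.single r 1)) (hker _)
  choose v hv using fun c : Co m Y => h3 (Pi.single c 1)
  choose u hu using fun c : Co m Y => hsurj (v c) (hv c).1
  refine ⟨Matrix.of fun r c => T (d (Pi.single r 1)) c, Matrix.of y, Matrix.of u, hΦ, ?_, ?_⟩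
  · refine Matrix.ext fun r c => ?_
    rw [Matrix.of_apply, hy r, Matrix.mul_diagonal, Matrix.of_apply]
  · refine Matrix.ext fun c c' => ?_
    have h1 := hΦ (u c)
    rw [hu c, (hv c).2] at h1
    have h2 := congrFun h1 c'
    rw [Matrix.diagonal_apply]
    change _ = Matrix.vecMul (u c) (Matrix.of fun r c => T (d (Pi.single r 1)) c) c'
    rw [← h2]
    by_cases h : c = c'
    · subst h
      rw [if_pos rfl, Pi.single_eq_same, one_mul]
    · rw [if_neg h, Pi.single_eq_of_ne (Ne.symm h), zero_mul]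

/-- all matrices of boundary maps are equivalent -/
theorem H7_row [Nonempty J] (hm : ∀ j, m j ≠ 1) {n : Type} [Fintype n] [DecidableEq n] {s : ℕ}
    (e : n ≃ Nx m Y (Fin s)) (hyp : Hyp m (Fin s)) {Φ X' : Matrix n (Co m Y) (RG ℤ m)}
    {X : Matrix (Co m Y) n (RG ℤ m)} (h1 : Φ = X' * Matrix.diagonal (dg (uk ℤ m) Y))
    (h2 : Matrix.diagonal (dg (uk ℤ m) Y) = X * Φ) :
    ∃ h : (Matrix (Nx m Y (Fin s)) (Nx m Y (Fin s)) (RG ℤ m))ˣ,
      Φ.submatrix e.symm id = h.1 * psi (uk ℤ m) Y (Fin s) := by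
  refine core hm hyp _ ⟨⟨Matrix.fromCols (X'.submatrix e.symm id) 0, ?_⟩,
    ⟨Matrix.fromRows (X.submatrix id e.symm) 0, ?_⟩⟩
  · rw [psi_fromRows, Matrix.fromCols_mul_fromRows, Matrix.zero_mul, add_zero]
    conv_lhs => rw [h1]
    refine Matrix.ext fun a b => ?_
    simp only [Matrix.submatrix_apply, Matrix.mul_apply, id_eq]
  · rw [psi_fromRows, Matrix.fromRows_mul, Matrix.zero_mul]
    congr 1
    conv_lhs => rw [h2]
    refine Matrix.ext fun a b => ?_
    simp only [Matrix.mul_apply, Matrix.submatrix_apply, id_eq]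
    exact (Equiv.sum_comp e.symm (fun r => X a r * Φ r b)).symm

/-- **Positive theorem** -/
theorem ladder_iso [Nonempty J] (hm : ∀ j, m j ≠ 1) {n : Type} [Fintype n] (w : Y → Gp m)
    (hyp : (∀ j, m j ≠ 0) ∨
      Fintype.card J + Fintype.card Y + 1 ≤ Fintype.card n + Fintype.card {j // m j = 0} ∨
      ∀ j, m j = 0 ∨ m j = 2)
    {d d' : (n → RG ℤ m) →ₗ[RG ℤ m] (J ⊕ Y → RG ℤ m)}
    (hd : IsBd2 ℤ (gX m w) d) (hd' : IsBd2 ℤ (gX m w) d') : LadderIso ℤ d d' := by
  classical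
  obtain ⟨T, hT1, hT2, hT3⟩ := exists_T (m := m) w
  obtain ⟨Φ, X', X, hΦ, h1, h2⟩ := H7_matrix w T hT2 hT3 hd
  obtain ⟨Φ', Z', Z, hΦ', k1, k2⟩ := H7_matrix w T hT2 hT3 hd'
  have hcard : Fintype.card (Co m Y) ≤ Fintype.card n := card_ge X X' (by
    rw [Matrix.mul_assoc, ← h1, ← h2])
  have hsum : Fintype.card (FJ m) + Fintype.card {j // m j = 0} = Fintype.card J := by
    have := Fintype.card_subtype_compl (fun j : J => m j = 0)
    have h5 : Fintype.card {j // m j = 0} ≤ Fintype.card J := Fintype.card_subtype_le _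
    have h6 : Fintype.card (FJ m) = Fintype.card {x // ¬ m x = 0} := Fintype.card_congr (Equiv.refl _)
    omega
  obtain ⟨s, hs⟩ := Nat.exists_eq_add_of_le hcard
  have hCo : Fintype.card (Co m Y) = Fintype.card (FJ m) + Fintype.card Y := Fintype.card_sum
  have he : Fintype.card n = Fintype.card (Nx m Y (Fin s)) := by
    have h7 : Fintype.card (Nx m Y (Fin s)) = Fintype.card (Co m Y) + s := by
      have h8 := Fintype.card_sum (α := Co m Y) (β := Fin s)
      rwa [Fintype.card_fin] at h8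
    rw [hs, h7]
  let e : n ≃ Nx m Y (Fin s) := Fintype.equivOfCardEq he
  have hypσ : Hyp m (Fin s) := by
    rcases hyp with h | h | h
    · exact Or.inl h
    · refine Or.inr (Or.inl ?_)
      have : 0 < s := by omega
      exact ⟨⟨0, this⟩⟩
    · exact Or.inr (Or.inr h)
  obtain ⟨h, hh⟩ := H7_row hm e hypσ h1 h2
  obtain ⟨k, hk⟩ := H7_row hm e hypσ k1 k2
  have hhk : Φ.submatrix e.symm id = (h * k⁻¹).1 * Φ'.submatrix e.symm id := by
    rw [hh, hk, ← Matrix.mul_assoc, ← Units.val_mul]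
    congr 2
    group
  let K : (Matrix n n (RG ℤ m))ˣ := ⟨(h * k⁻¹).1.submatrix e e, (h * k⁻¹)⁻¹.1.submatrix e e, by
    rw [Matrix.submatrix_mul_equiv, ← Units.val_mul, mul_inv_cancel, Units.val_one,
      Matrix.submatrix_one_equiv], by
    rw [Matrix.submatrix_mul_equiv, ← Units.val_mul, inv_mul_cancel, Units.val_one,
      Matrix.submatrix_one_equiv]⟩
  have hK : Φ = K.1 * Φ' := by
    have h5 : Φ = (Φ.submatrix e.symm id).submatrix e id := by
      refine Matrix.ext fun a b => ?_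
      simp only [Matrix.submatrix_apply, Equiv.symm_apply_apply, id_eq]
    rw [h5, hhk]
    have h6 : Φ' = (Φ'.submatrix e.symm id).submatrix e id := by
      refine Matrix.ext fun a b => ?_
      simp only [Matrix.submatrix_apply, Equiv.symm_apply_apply, id_eq]
    conv_rhs => rw [h6]
    exact (Matrix.submatrix_mul_equiv _ _ e e id).symm
  have hker : ∀ v, bd1 ℤ (gX m w) (d v) = 0 := by
    intro v
    have h : d v ∈ LinearMap.range d := ⟨v, rfl⟩
    rw [show LinearMap.range d = LinearMap.ker (bd1 ℤ (gX m w)) from hd] at h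
    exact h
  have hker' : ∀ v, bd1 ℤ (gX m w) (d' v) = 0 := by
    intro v
    have h : d' v ∈ LinearMap.range d' := ⟨v, rfl⟩
    rw [show LinearMap.range d' = LinearMap.ker (bd1 ℤ (gX m w)) from hd'] at h
    exact h
  refine ⟨
    { toFun := fun v => Matrix.vecMul v K.1
      map_add' := fun _ _ => Matrix.add_vecMul _ _ _
      map_smul' := fun _ _ => Matrix.smul_vecMul _ _ _
      invFun := fun v => Matrix.vecMul v K⁻¹.1
      left_inv := fun v => by
        change Matrix.vecMul (Matrix.vecMul v K.1) K⁻¹.1 = v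
        rw [Matrix.vecMul_vecMul, ← Units.val_mul, mul_inv_cancel, Units.val_one,
          Matrix.vecMul_one]
      right_inv := fun v => by
        change Matrix.vecMul (Matrix.vecMul v K⁻¹.1) K.1 = v
        rw [Matrix.vecMul_vecMul, ← Units.val_mul, inv_mul_cancel, Units.val_one,
          Matrix.vecMul_one] }, ?_⟩
  refine LinearMap.ext fun v => ?_
  rw [LinearMap.comp_apply]
  change d v = d' (Matrix.vecMul v K.1)
  rw [← sub_eq_zero]
  refine hT1 _ ?_ ?_
  · rw [map_sub, hker, hker', sub_zero]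
  · rw [map_sub, hΦ, hΦ', Matrix.vecMul_vecMul, ← hK, sub_self]

end FP
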