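import Pool.Agent.Lib.MP_2d4659_gt.FP.H7

/-! # The final theorem, with the number of rows different from the minimal one -/

set_option autoImplicit false

namespace FP

/-- **Positive theorem**, final form -/
theorem positive {J Y n : Type} [Fintype J] [Nonempty J] [Fintype Y] [Fintype n] {m : J → ℕ}
    (hm : ∀ j, m j ≠ 1) (w : Y → Gp m)
    (hyp : (∀ j, m j ≠ 0) ∨
      Fintype.card n + Fintype.card {j : J // m j = 0} ≠ Fintype.card J + Fintype.card Y ∨
      ∀ j, m j = 0 ∨ m j = 2)
    {d d' : (n → RG ℤ m) →ₗ[RG ℤ m] (J ⊕ Y → RG ℤ m)}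
    (hd : IsBd2 ℤ (gX m w) d) (hd' : IsBd2 ℤ (gX m w) d') : LadderIso ℤ d d' := by
  classical
  obtain ⟨T, -, hT2, hT3⟩ := exists_T (m := m) w
  obtain ⟨Φ, X', X, -, h1, h2⟩ := H7_matrix w T hT2 hT3 hd
  have hcard : Fintype.card (Co m Y) ≤ Fintype.card n := card_ge X X' (by
    rw [Matrix.mul_assoc, ← h1, ← h2])
  have hsum : Fintype.card (FJ m) + Fintype.card {j // m j = 0} = Fintype.card J := by
    have := Fintype.card_subtype_compl (fun j : J => m j = 0)
    have h5 : Fintype.card {j // m j = 0} ≤ Fintype.card J := Fintype.card_subtype_le _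
    have h6 : Fintype.card (FJ m) = Fintype.card {x // ¬ m x = 0} := Fintype.card_congr (Equiv.refl _)
    omega
  have hCo : Fintype.card (Co m Y) = Fintype.card (FJ m) + Fintype.card Y := Fintype.card_sum
  refine ladder_iso hm w ?_ hd hd'
  rcases hyp with h | h | h
  · exact Or.inl h
  · right; left
    omega
  · exact Or.inr (Or.inr h)

end FP
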